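import Pool.Agent.Z5.Defs

/-!
# Irrationality of `ζ(5)`: change of basis in the mixed determinants
-/

open Finset

namespace Pool.Agent.Z5

variable {L : ℕ} {e : ℕ → ℕ}

/-- coefficient matrix -/
noncomputable def cm {ι : Type*} (n : ℕ) (φ : ι → Polynomial ℚ) : Matrix ι (Fin n) ℚ :=
  Matrix.of fun i k => (φ i).coeff k

/-- coefficient matrix for the columns -/
noncomputable def cmS {τ : Type*} (a b : ℕ) (ψ : τ → Polynomial ℚ) : Matrix τ (Fin a ⊕ Fin b) ℚ :=
  Matrix.of fun i k => (ψ i).coeff (Sum.elim (fun k : Fin a => (k : ℕ)) (fun k : Fin b => a + (k : ℕ)) k)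

namespace BasisAux

/-- exponent of a monomial of degree `< a + b` -/
def ixS (a b : ℕ) (k : Fin a ⊕ Fin b) : ℕ :=
  Sum.elim (fun k : Fin a => (k : ℕ)) (fun k : Fin b => a + (k : ℕ)) k

lemma monoS_eq (a b : ℕ) (k : Fin a ⊕ Fin b) : monoS a b k = Polynomial.X ^ ixS a b k := by
  rcases k with k | k <;> rfl

/-- matrix identity behind the change of basis -/
theorem det_gen {R : Type*} [CommRing R] (r : ℚ →+* R) {ι κ : Type*} [Fintype ι] [DecidableEq ι]
    [Fintype κ] [DecidableEq κ] (a b : ℕ) (f : ι ≃ Fin a) (g : κ ≃ Fin b)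
    (φ : ι → Polynomial ℚ) (χ : κ → Polynomial ℚ) (ψ : ι ⊕ κ → Polynomial ℚ)
    (M : Matrix (ι ⊕ κ) (ι ⊕ κ) R) (M0 : Matrix (Fin a ⊕ Fin b) (Fin a ⊕ Fin b) R)
    (h1 : ∀ i j, M (Sum.inl i) j =
      ∑ k : Fin a, ∑ l, r ((φ i).coeff k) * M0 (Sum.inl k) l * r ((ψ j).coeff (ixS a b l)))
    (h2 : ∀ i j, M (Sum.inr i) j =
      ∑ k : Fin b, ∑ l, r ((χ i).coeff k) * M0 (Sum.inr k) l * r ((ψ j).coeff (ixS a b l))) :
    M.det = r (((cm a φ).submatrix id f).det * ((cm b χ).submatrix id g).det *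
        ((cmS a b ψ).submatrix id (Equiv.sumCongr f g)).det) * M0.det := by
  have hM : M = (Matrix.fromBlocks (((cm a φ).submatrix id f).map r) 0 0
      (((cm b χ).submatrix id g).map r)) *
      (M0.submatrix (Equiv.sumCongr f g) (Equiv.sumCongr f g)) *
      (((cmS a b ψ).submatrix id (Equiv.sumCongr f g)).map r).transpose := by
    ext i j
    rw [Matrix.mul_apply]
    have hcol : ∀ F : Fin a ⊕ Fin b → R, ∑ x : ι ⊕ κ, F (Equiv.sumCongr f g x) = ∑ l, F l :=
      fun F => Equiv.sum_comp (Equiv.sumCongr f g) F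
    rcases i with i | i
    · rw [h1]
      have : ∀ x : ι ⊕ κ, ((Matrix.fromBlocks (((cm a φ).submatrix id f).map r) 0 0
          (((cm b χ).submatrix id g).map r)) *
          (M0.submatrix (Equiv.sumCongr f g) (Equiv.sumCongr f g))) (Sum.inl i) x =
          ∑ k : Fin a, r ((φ i).coeff k) * M0 (Sum.inl k) (Equiv.sumCongr f g x) := by
        intro x
        rw [Matrix.mul_apply, Fintype.sum_sum_type]
        simp only [Matrix.fromBlocks_apply₁₁, Matrix.fromBlocks_apply₁₂, Matrix.zero_apply,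
          zero_mul, Finset.sum_const_zero, add_zero, Matrix.map_apply, Matrix.submatrix_apply,
          id_eq, Equiv.sumCongr_apply, Sum.map_inl, cm, Matrix.of_apply]
        exact Equiv.sum_comp f (fun k : Fin a => r ((φ i).coeff k) * M0 (Sum.inl k) _)
      calc ∑ k : Fin a, ∑ l, r ((φ i).coeff k) * M0 (Sum.inl k) l * r ((ψ j).coeff (ixS a b l))
          = ∑ l, (∑ k : Fin a, r ((φ i).coeff k) * M0 (Sum.inl k) l) *
              r ((ψ j).coeff (ixS a b l)) := by
            rw [Finset.sum_comm]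
            exact Finset.sum_congr rfl fun l _ => by rw [Finset.sum_mul]
        _ = ∑ x : ι ⊕ κ, (∑ k : Fin a, r ((φ i).coeff k) *
              M0 (Sum.inl k) (Equiv.sumCongr f g x)) *
              r ((ψ j).coeff (ixS a b (Equiv.sumCongr f g x))) := (hcol _).symm
        _ = _ := Finset.sum_congr rfl fun x _ => by rw [this x]; rfl
    · rw [h2]
      have : ∀ x : ι ⊕ κ, ((Matrix.fromBlocks (((cm a φ).submatrix id f).map r) 0 0
          (((cm b χ).submatrix id g).map r)) *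
          (M0.submatrix (Equiv.sumCongr f g) (Equiv.sumCongr f g))) (Sum.inr i) x =
          ∑ k : Fin b, r ((χ i).coeff k) * M0 (Sum.inr k) (Equiv.sumCongr f g x) := by
        intro x
        rw [Matrix.mul_apply, Fintype.sum_sum_type]
        simp only [Matrix.fromBlocks_apply₂₁, Matrix.fromBlocks_apply₂₂, Matrix.zero_apply,
          zero_mul, Finset.sum_const_zero, zero_add, Matrix.map_apply, Matrix.submatrix_apply,
          id_eq, Equiv.sumCongr_apply, Sum.map_inr, cm, Matrix.of_apply]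
        exact Equiv.sum_comp g (fun k : Fin b => r ((χ i).coeff k) * M0 (Sum.inr k) _)
      calc ∑ k : Fin b, ∑ l, r ((χ i).coeff k) * M0 (Sum.inr k) l * r ((ψ j).coeff (ixS a b l))
          = ∑ l, (∑ k : Fin b, r ((χ i).coeff k) * M0 (Sum.inr k) l) *
              r ((ψ j).coeff (ixS a b l)) := by
            rw [Finset.sum_comm]
            exact Finset.sum_congr rfl fun l _ => by rw [Finset.sum_mul]
        _ = ∑ x : ι ⊕ κ, (∑ k : Fin b, r ((χ i).coeff k) *
              M0 (Sum.inr k) (Equiv.sumCongr f g x)) *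
              r ((ψ j).coeff (ixS a b (Equiv.sumCongr f g x))) := (hcol _).symm
        _ = _ := Finset.sum_congr rfl fun x _ => by rw [this x]; rfl
  rw [hM, Matrix.det_mul, Matrix.det_mul, Matrix.det_transpose, Matrix.det_fromBlocks_zero₂₁,
    Matrix.det_submatrix_equiv_self, map_mul, map_mul, RingHom.map_det, RingHom.map_det,
    RingHom.map_det]
  simp only [RingHom.mapMatrix_apply]
  ring

lemma eq_sum_fin (c : ℕ) (φ : Polynomial ℚ) (hφ : φ.degree < c) :
    φ = ∑ k : Fin c, Polynomial.C (φ.coeff k) * Polynomial.X ^ (k : ℕ) := by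
  rcases Nat.eq_zero_or_pos c with rfl | hc
  · have : φ = 0 := by
      rw [← Polynomial.degree_eq_bot]
      by_contra h
      rw [Polynomial.degree_eq_natDegree (by rintro rfl; simp at h)] at hφ
      exact absurd hφ (by simp)
    subst this
    simp
  · have h1 : φ.natDegree < c := by
      rcases eq_or_ne φ 0 with rfl | h0
      · simpa using hc
      · exact (Polynomial.natDegree_lt_iff_degree_lt h0).2 hφ
    conv_lhs => rw [φ.as_sum_range' c h1, Finset.sum_range]
    exact Finset.sum_congr rfl fun k _ => (Polynomial.C_mul_X_pow_eq_monomial).symm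

lemma eq_sum_sum (a b : ℕ) (ψ : Polynomial ℚ) (hψ : ψ.degree < (a + b : ℕ)) :
    ψ = ∑ l : Fin a ⊕ Fin b, Polynomial.C (ψ.coeff (ixS a b l)) * monoS a b l := by
  conv_lhs => rw [eq_sum_fin (a + b) ψ hψ]
  rw [← Finset.sum_range (fun k => Polynomial.C (ψ.coeff k) * Polynomial.X ^ k),
    Finset.sum_range_add, Finset.sum_range, Finset.sum_range, Fintype.sum_sum_type]
  rfl

/-- expansion of a product in the monomials -/
lemma mul_eq_sum (c a b : ℕ) (φ ψ : Polynomial ℚ) (hφ : φ.degree < c)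
    (hψ : ψ.degree < (a + b : ℕ)) :
    φ * ψ = ∑ k : Fin c, ∑ l : Fin a ⊕ Fin b,
      Polynomial.C (φ.coeff k * ψ.coeff (ixS a b l)) *
        (Polynomial.X ^ (k : ℕ) * monoS a b l) := by
  conv_lhs => rw [eq_sum_fin c φ hφ, eq_sum_sum a b ψ hψ, Finset.sum_mul_sum]
  refine Finset.sum_congr rfl fun k _ => Finset.sum_congr rfl fun l _ => ?_
  rw [Polynomial.C_mul]
  ring

/-! ### linearity of the rational functionals -/

lemma hser_add (u : ℕ) (h g : Polynomial ℚ) : hser L u (h + g) = hser L u h + hser L u g := by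
  simp [hser]

lemma hser_C_mul (u : ℕ) (c : ℚ) (h : Polynomial ℚ) :
    hser L u (Polynomial.C c * h) = c • hser L u h := by
  simp [hser, Algebra.smul_def]

/-- `co` as a linear map -/
noncomputable def coL (L : ℕ) (e : ℕ → ℕ) (u i : ℕ) : Polynomial ℚ →ₗ[ℚ] ℚ where
  toFun h := co L e h u i
  map_add' h g := by
    simp only [co, lser, hser_add, mul_add, map_add]
    split_ifs <;> simp
  map_smul' c h := by
    rw [Polynomial.smul_eq_C_mul]
    simp only [co, lser, hser_C_mul, mul_smul_comm, RingHom.id_apply, smul_eq_mul]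
    split_ifs
    · rw [PowerSeries.coeff_smul, smul_eq_mul]
    · simp

/-- `rho` as a linear map -/
noncomputable def rhoL (L : ℕ) (e : ℕ → ℕ) (i : ℕ) : Polynomial ℚ →ₗ[ℚ] ℚ :=
  ∑ u ∈ range (L + 1), coL L e u i

lemma rhoL_apply (i : ℕ) (h : Polynomial ℚ) : rhoL L e i h = rho L e i h := by
  simp [rhoL, rho, coL, LinearMap.sum_apply]

/-- `rho0` as a linear map -/
noncomputable def rho0L (L : ℕ) (e : ℕ → ℕ) : Polynomial ℚ →ₗ[ℚ] ℚ :=
  - ∑ u ∈ range (L + 1), ∑ i ∈ Finset.Icc 1 6, Hs i u • coL L e u i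

lemma rho0L_apply (h : Polynomial ℚ) : rho0L L e h = rho0 L e h := by
  simp only [rho0L, rho0, coL, LinearMap.sum_apply, LinearMap.neg_apply, LinearMap.smul_apply,
    LinearMap.coe_mk, AddHom.coe_mk, smul_eq_mul]
  congr 1
  exact Finset.sum_congr rfl fun u _ => Finset.sum_congr rfl fun i _ => mul_comm _ _

/-- `Ph` as a linear map -/
noncomputable def PhL (L : ℕ) (e : ℕ → ℕ) (ξ : ℚ) : Polynomial ℚ →ₗ[ℚ] ℚ :=
  rho0L L e + ξ • rhoL L e 5

lemma PhL_apply (ξ : ℚ) (h : Polynomial ℚ) : PhL L e ξ h = Ph L e ξ h := by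
  simp [PhL, Ph, rho0L_apply, rhoL_apply]

/-- a linear functional of a product -/
lemma lin_mul (T : Polynomial ℚ →ₗ[ℚ] ℚ) (c a b : ℕ) (φ ψ : Polynomial ℚ) (hφ : φ.degree < c)
    (hψ : ψ.degree < (a + b : ℕ)) :
    T (φ * ψ) = ∑ k : Fin c, ∑ l : Fin a ⊕ Fin b,
      φ.coeff k * T (Polynomial.X ^ (k : ℕ) * monoS a b l) * ψ.coeff (ixS a b l) := by
  rw [mul_eq_sum c a b φ ψ hφ hψ, map_sum]
  refine Finset.sum_congr rfl fun k _ => ?_
  rw [map_sum]
  refine Finset.sum_congr rfl fun l _ => ?_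
  rw [← Polynomial.smul_eq_C_mul, map_smul, smul_eq_mul]
  ring

/-! ### the real functional -/

lemma evY_bound (m : Polynomial ℚ) : ∃ C : ℝ, 0 ≤ C ∧ ∀ s : ℝ, 1 ≤ s →
    |evY L m s| ≤ C * s ^ (2 * m.natDegree) := by
  refine ⟨∑ i ∈ range (m.natDegree + 1), |(m.coeff i : ℝ)| * ((2 + L : ℝ) ^ 2) ^ i,
    Finset.sum_nonneg fun i _ => by positivity, fun s hs => ?_⟩
  unfold evY
  rw [Polynomial.aeval_eq_sum_range, Finset.sum_mul]
  refine (Finset.abs_sum_le_sum_abs _ _).trans (Finset.sum_le_sum fun i hi => ?_)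
  have hi' : i ≤ m.natDegree := Nat.lt_succ_iff.1 (Finset.mem_range.1 hi)
  rw [Algebra.smul_def, abs_mul, mul_assoc]
  refine mul_le_mul (le_of_eq rfl) ?_ (abs_nonneg _) (abs_nonneg _)
  have hL : (0 : ℝ) ≤ L := Nat.cast_nonneg L
  have h1 : 0 ≤ 2 * s + L := by positivity
  have h2 : 2 * s + L ≤ (2 + L) * s := by nlinarith
  rw [abs_of_nonneg (by positivity)]
  calc ((2 * s + L) ^ 2) ^ i ≤ (((2 + L) * s) ^ 2) ^ i := by gcongr
    _ = ((2 + L : ℝ) ^ 2) ^ i * s ^ (2 * i) := by rw [mul_pow, mul_pow, ← pow_mul s]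
    _ ≤ ((2 + L : ℝ) ^ 2) ^ i * s ^ (2 * m.natDegree) := by
        gcongr

lemma w_bound {s : ℝ} (hs : 1 ≤ s) : |w L e s| ≤ (2 + L) * s / s ^ tot L e := by
  have hL : (0 : ℝ) ≤ L := Nat.cast_nonneg L
  have hs0 : 0 < s := by linarith
  unfold w
  have h1 : s ^ tot L e ≤ ∏ u ∈ range (L + 1), (s + u) ^ e u := by
    rw [tot, ← Finset.prod_pow_eq_pow_sum]
    refine Finset.prod_le_prod (fun u _ => by positivity) fun u _ => ?_
    gcongr
    have : (0 : ℝ) ≤ u := Nat.cast_nonneg u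
    linarith
  have h2 : 0 < s ^ tot L e := by positivity
  rw [abs_of_nonneg (div_nonneg (by positivity) (h2.le.trans h1))]
  gcongr
  nlinarith

lemma summable_F' (m : Polynomial ℚ) (hd : 2 * m.natDegree + 3 ≤ tot L e) :
    Summable fun t : ℕ => w L e (t + 1) * evY L m (t + 1) := by
  obtain ⟨C, hC0, hC⟩ := evY_bound (L := L) m
  have h1 : Summable fun t : ℕ => (2 + L : ℝ) * C * (1 / ((t : ℝ) + 1) ^ 2) := by
    refine Summable.mul_left _ ?_
    have := (summable_nat_add_iff 1).2 (Real.summable_one_div_nat_pow.2 one_lt_two)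
    simpa using this
  refine Summable.of_norm_bounded h1 fun t => ?_
  have hs : (1 : ℝ) ≤ (t : ℝ) + 1 := by
    have : (0 : ℝ) ≤ t := Nat.cast_nonneg t
    linarith
  have hs0 : (0 : ℝ) < (t : ℝ) + 1 := by linarith
  rw [Real.norm_eq_abs, abs_mul]
  have hL : (0 : ℝ) ≤ L := Nat.cast_nonneg L
  calc |w L e (t + 1)| * |evY L m (t + 1)| ≤ ((2 + L) * (t + 1) / (t + 1) ^ tot L e) *
        (C * (t + 1) ^ (2 * m.natDegree)) :=
        mul_le_mul (w_bound hs) (hC _ hs) (abs_nonneg _) (by positivity)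
    _ = (2 + L : ℝ) * C * ((t + 1) ^ (2 * m.natDegree + 1) / (t + 1) ^ tot L e) := by
        rw [pow_succ]; ring
    _ ≤ (2 + L : ℝ) * C * (1 / ((t : ℝ) + 1) ^ 2) := by
        refine mul_le_mul_of_nonneg_left ?_ (by positivity)
        rw [div_le_div_iff₀ (by positivity) (by positivity), one_mul, ← pow_add]
        exact pow_le_pow_right₀ hs (by omega)

lemma F_sum {S : Type*} (s : Finset S) (c : S → ℚ) (m : S → Polynomial ℚ)
    (hm : ∀ i ∈ s, 2 * (m i).natDegree + 3 ≤ tot L e) :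
    F L e (∑ i ∈ s, Polynomial.C (c i) * m i) = ∑ i ∈ s, (c i : ℝ) * F L e (m i) := by
  unfold F
  have h1 : ∀ t : ℕ, w L e (t + 1) * evY L (∑ i ∈ s, Polynomial.C (c i) * m i) (t + 1) =
      ∑ i ∈ s, (c i : ℝ) * (w L e (t + 1) * evY L (m i) (t + 1)) := by
    intro t
    unfold evY
    rw [map_sum, Finset.mul_sum]
    refine Finset.sum_congr rfl fun i _ => ?_
    rw [map_mul, Polynomial.aeval_C]
    simp only [eq_ratCast]
    ring
  rw [tsum_congr h1, Summable.tsum_finsetSum fun i hi => (summable_F' (m i) (hm i hi)).mul_left _]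
  exact Finset.sum_congr rfl fun i _ => tsum_mul_left

lemma F_mul (a b : ℕ) (hd : 4 * a + 2 * b ≤ tot L e + 1) (φ ψ : Polynomial ℚ)
    (hφ : φ.degree < a) (hψ : ψ.degree < (a + b : ℕ)) :
    F L e (φ * ψ) = ∑ k : Fin a, ∑ l : Fin a ⊕ Fin b,
      (φ.coeff k : ℝ) * F L e (Polynomial.X ^ (k : ℕ) * monoS a b l) *
        (ψ.coeff (ixS a b l) : ℝ) := by
  rw [mul_eq_sum a a b φ ψ hφ hψ, ← Fintype.sum_prod_type'
    (f := fun (k : Fin a) (l : Fin a ⊕ Fin b) => Polynomial.C (φ.coeff k * ψ.coeff (ixS a b l)) *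
        (Polynomial.X ^ (k : ℕ) * monoS a b l)), F_sum, Fintype.sum_prod_type]
  · refine Finset.sum_congr rfl fun k _ => Finset.sum_congr rfl fun l _ => ?_
    push_cast
    ring
  · rintro ⟨k, l⟩ -
    rw [monoS_eq, ← pow_add, Polynomial.natDegree_X_pow]
    have h1 := k.2
    have h2 : ixS a b l < a + b := by
      rcases l with l | l
      · have := l.2; simp only [ixS, Sum.elim_inl]; omega
      · have := l.2; simp only [ixS, Sum.elim_inr]; omega
    simp only
    omega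

end BasisAux

open BasisAux

/-- general families indexed by `ι` (`a` elements), `κ` (`b` elements) -/
theorem det_gmat {ι κ : Type*} [Fintype ι] [DecidableEq ι] [Fintype κ] [DecidableEq κ] (a b : ℕ)
    (f : ι ≃ Fin a) (g : κ ≃ Fin b) (ξ : ℚ) (φ : ι → Polynomial ℚ) (χ : κ → Polynomial ℚ)
    (ψ : ι ⊕ κ → Polynomial ℚ) (hφ : ∀ i, (φ i).degree < a) (hχ : ∀ i, (χ i).degree < b)
    (hψ : ∀ i, (ψ i).degree < (a + b : ℕ)) :
    (gmat L e ξ φ χ ψ).det =
      ((cm a φ).submatrix id f).det * ((cm b χ).submatrix id g).det *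
        ((cmS a b ψ).submatrix id (Equiv.sumCongr f g)).det * DQ L e ξ a b := by
  have h := det_gen (RingHom.id ℚ) a b f g φ χ ψ (gmat L e ξ φ χ ψ)
    (gmat L e ξ (mono a) (mono b) (monoS a b)) ?_ ?_
  · rw [h]; rfl
  · intro i j
    simp only [gmat, Matrix.of_apply, Sum.elim_inl, RingHom.id_apply, mono]
    rw [← PhL_apply, lin_mul (PhL L e ξ) a a b _ _ (hφ i) (hψ j)]
    simp only [PhL_apply]
  · intro i j
    simp only [gmat, Matrix.of_apply, Sum.elim_inr, RingHom.id_apply, mono]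
    rw [← rhoL_apply, lin_mul (rhoL L e 3) b a b _ _ (hχ i) (hψ j)]
    simp only [rhoL_apply]

theorem det_rmat {ι κ : Type*} [Fintype ι] [DecidableEq ι] [Fintype κ] [DecidableEq κ] (a b : ℕ)
    (f : ι ≃ Fin a) (g : κ ≃ Fin b) (he : IsProf L e)
    (hd : 4 * a + 2 * b ≤ tot L e + 1) (φ : ι → Polynomial ℚ) (χ : κ → Polynomial ℚ)
    (ψ : ι ⊕ κ → Polynomial ℚ) (hφ : ∀ i, (φ i).degree < a) (hχ : ∀ i, (χ i).degree < b)
    (hψ : ∀ i, (ψ i).degree < (a + b : ℕ)) :
    (rmat L e φ χ ψ).det =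
      ((((cm a φ).submatrix id f).det * ((cm b χ).submatrix id g).det *
        ((cmS a b ψ).submatrix id (Equiv.sumCongr f g)).det : ℚ) : ℝ) * DR L e a b := by
  have _ := he
  have h := det_gen (algebraMap ℚ ℝ) a b f g φ χ ψ (rmat L e φ χ ψ)
    (rmat L e (mono a) (mono b) (monoS a b)) ?_ ?_
  · rw [h]; rfl
  · intro i j
    simp only [rmat, Matrix.of_apply, Sum.elim_inl, eq_ratCast, mono]
    exact F_mul a b hd _ _ (hφ i) (hψ j)
  · intro i j
    simp only [rmat, Matrix.of_apply, Sum.elim_inr, eq_ratCast, mono]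
    rw [← rhoL_apply, lin_mul (rhoL L e 3) b a b _ _ (hχ i) (hψ j)]
    push_cast
    simp only [rhoL_apply]

end Pool.Agent.Z5
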