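import Pool.Agent.Z5.ArchDefs
import Pool.Agent.Z5.Basis

/-!
# Irrationality of `ζ(5)`: the determinant inequality in the basis of the nodes
-/

open Finset

namespace Pool.Agent.Z5

namespace ArchBasisAux

variable {ι : Type*} [Fintype ι] [DecidableEq ι]

lemma monic_lagQ (v : ι → ℚ) (i : ι) : (lagQ v i).Monic :=
  Polynomial.monic_prod_of_monic _ _ fun _ _ => Polynomial.monic_X_sub_C _

lemma natDegree_lagQ (v : ι → ℚ) (i : ι) : (lagQ v i).natDegree = Fintype.card ι - 1 := by
  rw [lagQ, Polynomial.natDegree_prod_of_monic _ _ (fun _ _ => Polynomial.monic_X_sub_C _)]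
  simp [Finset.card_erase_of_mem]

lemma degree_lagQ_lt {n : ℕ} (e : ι ≃ Fin n) (v : ι → ℚ) (i : ι) : (lagQ v i).degree < n := by
  rw [Polynomial.degree_eq_natDegree (monic_lagQ v i).ne_zero, natDegree_lagQ,
    Fintype.card_congr e, Fintype.card_fin]
  have := (e i).pos
  exact_mod_cast (by omega : n - 1 < n)

lemma map_lagQ (v : ι → ℚ) (i : ι) :
    (lagQ v i).map (algebraMap ℚ ℝ) = nodePoly (fun k => (v k : ℝ)) i := by
  rw [lagQ, nodePoly, Polynomial.map_prod]
  refine Finset.prod_congr rfl fun k _ => ?_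
  simp

lemma coeff_lagQ (v : ι → ℚ) (i : ι) (n : ℕ) :
    (((lagQ v i).coeff n : ℚ) : ℝ) = (nodePoly (fun k => (v k : ℝ)) i).coeff n := by
  rw [← map_lagQ, Polynomial.coeff_map]
  simp

/-- the determinant of a coefficient matrix of Lagrange polynomials, over the reals -/
lemma abs_det_cast {N : ℕ} (e : ι ≃ Fin N) {v : ι → ℚ} (hv : Function.Injective v)
    (M : Matrix ι ι ℚ) (hM : ∀ i j, M i j = (lagQ v i).coeff (e j)) :
    |((M.det : ℚ) : ℝ)| = √(pairProd fun i => (v i : ℝ)) := by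
  have h1 : ((M.det : ℚ) : ℝ) = (coefMat e (fun k => (v k : ℝ))).det := by
    have h2 : ((M.det : ℚ) : ℝ) = (algebraMap ℚ ℝ) M.det := by simp
    rw [h2, RingHom.map_det]
    congr 1
    ext i j
    rw [RingHom.mapMatrix_apply, Matrix.map_apply, hM]
    simp only [coefMat, eq_ratCast]
    exact coeff_lagQ v i _
  rw [h1]
  refine abs_det_coefMat e fun i j h => hv ?_
  have h3 : (v i : ℝ) = v j := h
  exact_mod_cast h3

end ArchBasisAux

open ArchBasisAux

theorem arch_basis {L : ℕ} {e : ℕ → ℕ} (he : IsProf L e) {ι κ : Type*} [Fintype ι]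
    [DecidableEq ι] [Fintype κ] [DecidableEq κ] (a b : ℕ) (hd : 4 * a + 2 * b ≤ tot L e + 1)
    (f : ι ≃ Fin a) (g : κ ≃ Fin b) (x : ι → ℚ) (z : κ → ℚ)
    (hs : Function.Injective (Sum.elim x z)) (A : ι → ℝ) (B : κ → ℝ)
    (hA : ∀ i c, |F L e (lagQ x i * lagQ (Sum.elim x z) c)| ≤ A i)
    (hB : ∀ i c, |(rho L e 3 (lagQ z i * lagQ (Sum.elim x z) c) : ℝ)| ≤ B i) :
    √(pairProd fun i => (x i : ℝ)) * √(pairProd fun i => (z i : ℝ))
        * √(pairProd fun i => ((Sum.elim x z i : ℚ) : ℝ)) * |DR L e a b|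
      ≤ (a + b).factorial * ((∏ i, A i) * ∏ i, B i) := by
  have hx : Function.Injective x := fun i j h => by
    have := @hs (Sum.inl i) (Sum.inl j) h
    exact Sum.inl_injective this
  have hz : Function.Injective z := fun i j h => by
    have := @hs (Sum.inr i) (Sum.inr j) h
    exact Sum.inr_injective this
  have h1 := det_rmat a b f g he hd (lagQ x) (lagQ z) (lagQ (Sum.elim x z))
    (degree_lagQ_lt f x) (degree_lagQ_lt g z)
    (degree_lagQ_lt ((Equiv.sumCongr f g).trans finSumFinEquiv) (Sum.elim x z))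
  have h2 : |(rmat L e (lagQ x) (lagQ z) (lagQ (Sum.elim x z))).det| =
      √(pairProd fun i => (x i : ℝ)) * √(pairProd fun i => (z i : ℝ))
        * √(pairProd fun i => ((Sum.elim x z i : ℚ) : ℝ)) * |DR L e a b| := by
    rw [h1, abs_mul]
    congr 1
    rw [Rat.cast_mul, Rat.cast_mul, abs_mul, abs_mul,
      abs_det_cast f hx ((cm a (lagQ x)).submatrix id f) (fun i j => rfl),
      abs_det_cast g hz ((cm b (lagQ z)).submatrix id g) (fun i j => rfl),
      abs_det_cast ((Equiv.sumCongr f g).trans finSumFinEquiv) hs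
        ((cmS a b (lagQ (Sum.elim x z))).submatrix id (Equiv.sumCongr f g)) ?_]
    intro i j
    simp only [Matrix.submatrix_apply, id_eq, cmS, Matrix.of_apply]
    congr 1
    rcases j with j | j <;> simp
  rw [← h2]
  refine (abs_det_le_rows _ (Sum.elim A B) ?_).trans ?_
  · rintro (i | i) c
    · exact hA i c
    · exact hB i c
  · rw [Fintype.prod_sum_type, Fintype.card_sum, Fintype.card_congr f, Fintype.card_congr g,
      Fintype.card_fin, Fintype.card_fin]
    simp

end Pool.Agent.Z5
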