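import Pool.Agent.Z5.ArchBlock

/-! The basic potential `Gam s z = H (z - s) - H (z + s)`, `H y = y log |y| - y`.  Seat: helper6. -/

namespace Pool.Agent.Z5

open Real

/-- potential of the unit jump at `s`: `Gam s z = - ∫_{-s}^{s} log |z - v| dv` -/
noncomputable def Gam (s z : ℝ) : ℝ := HH (z - s) - HH (z + s)

/-- Gibbs inequality -/
theorem gibbs (a b : ℝ) (ha : 0 ≤ a) (hb : 0 < b) : a * log b + a - b ≤ a * log a := by
  rcases ha.eq_or_lt with rfl | ha
  · simp; exact hb.le
  · have h := Real.log_le_sub_one_of_pos (show 0 < b / a by positivity)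
    rw [Real.log_div hb.ne' ha.ne'] at h
    have h2 := mul_le_mul_of_nonneg_left h ha.le
    have h3 : a * (b / a - 1) = b - a := by field_simp
    rw [h3, mul_sub] at h2
    linarith

/-- scaled linearised form: value at `x` of the tangent line at `X` of `x ↦ D * Gam (s/D) (x/D)` -/
noncomputable def TT (s lD X x : ℝ) : ℝ :=
  (x - s) * log (X - s) - (x + s) * log (X + s) + 2 * s * (lD + 1)

theorem TT_self (D s x : ℝ) (hD : 0 < D) (hx : x ≠ s) (hx' : x + s ≠ 0) :
    TT s (log D) x x = D * Gam (s / D) (x / D) := by
  have e1 : x / D - s / D = (x - s) / D := by ring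
  have e2 : x / D + s / D = (x + s) / D := by ring
  simp only [TT, Gam, HH]
  rw [e1, e2, log_div (sub_ne_zero.mpr hx) hD.ne', log_div hx' hD.ne']
  field_simp
  ring

theorem TT_self' (D s : ℝ) (hD : 0 < D) (hs : 0 < s) :
    TT s (log D) s s = D * Gam (s / D) (s / D) := by
  have e1 : s / D - s / D = 0 := by ring
  have e2 : s / D + s / D = (s + s) / D := by ring
  simp only [TT, Gam, HH]
  rw [e1, e2, log_div (by positivity) hD.ne']
  field_simp
  simp
  ring

theorem TT_selfAll (D s x : ℝ) (hD : 0 < D) (hs : 0 ≤ s) (hx : 0 ≤ x) :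
    TT s (log D) x x = D * Gam (s / D) (x / D) := by
  rcases hs.eq_or_lt with rfl | hs
  · simp [TT, Gam]
  · by_cases h : x = s
    · rw [h]; exact TT_self' D s hD hs
    · exact TT_self D s x hD h (by positivity)

/-- convex zone: the tangent line lies below -/
theorem TT_ge (s lD X x : ℝ) (hs : 0 ≤ s) (hx : s ≤ x) (hX : s < X) :
    TT s lD X x ≤ TT s lD x x := by
  simp only [TT]
  rcases hs.eq_or_lt with rfl | hs
  · simp
  have hxs : 0 < x + s := by linarith
  have hXs : 0 < X + s := by linarith
  have hr : 0 < (x + s) / (X + s) := by positivity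
  have hb : 0 < (X - s) * ((x + s) / (X + s)) := mul_pos (by linarith) hr
  have h1 := gibbs (x - s) ((X - s) * ((x + s) / (X + s))) (by linarith) hb
  rw [log_mul (by linarith) hr.ne', log_div hxs.ne' hXs.ne'] at h1
  have h2 := Real.log_le_sub_one_of_pos hr
  rw [log_div hxs.ne' hXs.ne'] at h2
  have h3 : 2 * s * (log (x + s) - log (X + s)) ≤ 2 * s * ((x + s) / (X + s) - 1) :=
    mul_le_mul_of_nonneg_left h2 (by linarith)
  have h4 : (X - s) * ((x + s) / (X + s)) + 2 * s * ((x + s) / (X + s)) = x + s := by
    field_simp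
    ring
  nlinarith [h1, h3, h4]

/-- concave zone: the tangent line lies above -/
theorem TT_le (s lD X x : ℝ) (hx0 : 0 ≤ x) (hx : x ≤ s) (hX0 : 0 ≤ X) (hX : X < s) :
    TT s lD x x ≤ TT s lD X x := by
  simp only [TT]
  have h1 := gibbs (s - x) (s - X) (by linarith) (by linarith)
  have h2 := gibbs (x + s) (X + s) (by linarith) (by linarith)
  have e1 : log (x - s) = log (s - x) := by rw [← log_neg_eq_log, neg_sub]
  have e2 : log (X - s) = log (s - X) := by rw [← log_neg_eq_log, neg_sub]
  rw [e1, e2]
  nlinarith [h1, h2]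

theorem TT_affine (s lD X A B x a b : ℝ) (hab : a + b = 1) (hx : x = a * A + b * B) :
    TT s lD X x = a * TT s lD X A + b * TT s lD X B := by
  simp only [TT]
  have hb : b = 1 - a := by linarith
  subst hb
  subst hx
  ring

/-- chord bound in the convex zone -/
theorem TT_chord_convex (s lD A B x a b : ℝ) (hs : 0 ≤ s) (hsA : s ≤ A) (hAB : A < B)
    (ha : 0 ≤ a) (hb : 0 ≤ b) (hab : a + b = 1) (hx : x = a * A + b * B) :
    TT s lD x x ≤ a * TT s lD A A + b * TT s lD B B := by
  rcases hb.eq_or_lt with rfl | hb'
  · have : a = 1 := by linarith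
    subst this
    have : x = A := by rw [hx]; ring
    rw [this]; simp
  · have hxA : A < x := by
      rw [hx]
      have : a = 1 - b := by linarith
      rw [this]
      nlinarith
    rw [TT_affine s lD x A B x a b hab hx]
    have h1 := TT_ge s lD x A hs hsA (by linarith)
    have h2 := TT_ge s lD x B hs (by linarith) (by linarith)
    gcongr

/-- chord bound in the concave zone -/
theorem TT_chord_concave (s lD A B x a b : ℝ) (hA : 0 ≤ A) (hsB : B ≤ s) (hAB : A < B)
    (ha : 0 ≤ a) (hb : 0 ≤ b) (hab : a + b = 1) (hx : x = a * A + b * B) :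
    a * TT s lD A A + b * TT s lD B B ≤ TT s lD x x := by
  rcases ha.eq_or_lt with rfl | ha'
  · have : b = 1 := by linarith
    subst this
    have : x = B := by rw [hx]; ring
    rw [this]; simp
  · have hxB : x < B := by
      rw [hx]
      have : b = 1 - a := by linarith
      rw [this]
      nlinarith
    have hx0 : 0 ≤ x := by rw [hx]; exact add_nonneg (mul_nonneg ha hA) (mul_nonneg hb (by linarith))
    rw [TT_affine s lD x A B x a b hab hx]
    have h1 := TT_le s lD x A hA (by linarith) hx0 (by linarith)
    have h2 := TT_le s lD x B (by linarith) hsB hx0 (by linarith)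
    gcongr

/-- far away upper bound -/
theorem Gam_le_far (s z : ℝ) (hs : 0 ≤ s) (hz : s < z) :
    Gam s z ≤ -2 * s * log z + s * (s ^ 2 / (z ^ 2 - s ^ 2)) := by
  have hz0 : 0 < z := by linarith
  have h1 : 0 < z - s := by linarith
  have h2 : 0 < z + s := by linarith
  -- z log((z+s)/(z-s)) ≥ 2 s
  have hq : |s / z| < 1 := by
    rw [abs_of_nonneg (by positivity), div_lt_one hz0]; exact hz
  have hser := Real.hasSum_log_sub_log_of_abs_lt_one hq
  have hfirst := sum_le_hasSum (Finset.range 1) (fun i _ => by positivity) hser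
  simp only [Finset.range_one, Finset.sum_singleton, Nat.cast_zero, mul_zero, zero_add, pow_one,
    div_one, mul_one] at hfirst
  have e1 : log (1 + s / z) = log (z + s) - log z := by
    rw [← log_div h2.ne' hz0.ne']; congr 1; field_simp
  have e2 : log (1 - s / z) = log (z - s) - log z := by
    rw [← log_div h1.ne' hz0.ne']; congr 1; field_simp
  rw [e1, e2] at hfirst
  have h3 : 2 * s ≤ z * (log (z + s) - log (z - s)) := by
    have := mul_le_mul_of_nonneg_left hfirst hz0.le
    have e3 : z * (2 * (s / z)) = 2 * s := by field_simp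
    rw [e3] at this
    linarith
  -- - s log (1 - s^2/z^2) ≤ s * s^2/(z^2-s^2)
  have h4 : 0 < z ^ 2 - s ^ 2 := by nlinarith
  have h5 := Real.log_le_sub_one_of_pos (show 0 < z ^ 2 / (z ^ 2 - s ^ 2) by positivity)
  have e4 : z ^ 2 / (z ^ 2 - s ^ 2) - 1 = s ^ 2 / (z ^ 2 - s ^ 2) := by field_simp; ring
  rw [e4, log_div (by positivity) h4.ne', log_pow] at h5
  have e5 : z ^ 2 - s ^ 2 = (z - s) * (z + s) := by ring
  have e6 : log (z ^ 2 - s ^ 2) = log (z - s) + log (z + s) := by
    rw [e5, log_mul h1.ne' h2.ne']
  rw [e6] at h5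
  have h6 := mul_le_mul_of_nonneg_left h5 hs
  push_cast at h6
  simp only [Gam, HH]
  nlinarith [h3, h6]

/-- far away lower bound -/
theorem Gam_ge_far (s z : ℝ) (hs : 0 ≤ s) (hz : s < z) : -2 * s * log z ≤ Gam s z := by
  have hz0 : 0 < z := by linarith
  let f : ℝ → ℝ := fun v => Gam v z + 2 * v * log z
  have hmono : MonotoneOn f (Set.Icc 0 s) := by
    apply monotoneOn_of_deriv_nonneg (convex_Icc 0 s)
    · apply ContinuousOn.add
      · simp only [Gam, HH]
        apply ContinuousOn.sub
        · apply ContinuousOn.sub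
          · apply ContinuousOn.mul (by fun_prop)
            apply ContinuousOn.log (by fun_prop)
            intro x hx; simp only [Set.mem_Icc] at hx; linarith [hx.2]
          · fun_prop
        · apply ContinuousOn.sub
          · apply ContinuousOn.mul (by fun_prop)
            apply ContinuousOn.log (by fun_prop)
            intro x hx; simp only [Set.mem_Icc] at hx; linarith [hx.1]
          · fun_prop
      · fun_prop
    · intro x hx
      rw [interior_Icc] at hx
      apply DifferentiableAt.differentiableWithinAt
      have h1 : z - x ≠ 0 := by linarith [hx.2]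
      have h2 : z + x ≠ 0 := by linarith [hx.1]
      have : DifferentiableAt ℝ (fun v => ((z - v) * log (z - v) - (z - v)) - ((z + v) * log (z + v) - (z + v))
        + 2 * v * log z) x := by
        fun_prop (disch := assumption)
      exact this
    · intro x hx
      rw [interior_Icc] at hx
      have h1 : 0 < z - x := by linarith [hx.2]
      have h2 : 0 < z + x := by linarith [hx.1]
      have hd1 : HasDerivAt (fun v : ℝ => z - v) (-1) x := by
        simpa using (hasDerivAt_id x).const_sub z
      have hd2 : HasDerivAt (fun v : ℝ => z + v) 1 x := by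
        simpa using (hasDerivAt_id x).const_add z
      have hl1 := (hd1.mul (hd1.log h1.ne')).sub hd1
      have hl2 := (hd2.mul (hd2.log h2.ne')).sub hd2
      have hl3 : HasDerivAt (fun v : ℝ => 2 * v * log z) (2 * log z) x := by
        have := ((hasDerivAt_id x).const_mul 2).mul_const (log z)
        simpa using this
      have hd : HasDerivAt f (2 * log z - log (z - x) - log (z + x)) x := by
        have := (hl1.sub hl2).add hl3
        refine this.congr_deriv ?_
        field_simp
        ring
      rw [hd.deriv]
      have h3 : log (z - x) + log (z + x) ≤ log (z ^ 2) := by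
        rw [← log_mul h1.ne' h2.ne']
        apply log_le_log (by positivity)
        nlinarith [sq_nonneg x]
      rw [log_pow] at h3
      push_cast at h3
      linarith
  have := hmono (Set.left_mem_Icc.mpr hs) (Set.right_mem_Icc.mpr hs) hs
  simp only [f] at this
  have e0 : Gam 0 z = 0 := by simp [Gam]
  rw [e0] at this
  linarith

end Pool.Agent.Z5
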