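import Pool.Agent.Z5.NumLog
import Pool.Agent.Z5.Gam

/-! Kernel-checkable upper bounds for `z ↦ ∑ c_s Gam s z` on cells.  Seat: helper6. -/

namespace Pool.Agent.Z5

open Real

/-- a term: sign flag (`true` = negative), size of the coefficient, breakpoint -/
structure Trm where
  neg : Bool
  c : ℕ
  s : ℕ

/-- signed coefficient -/
def Trm.co (t : Trm) : ℝ := if t.neg then -(t.c : ℝ) else t.c

/-- `∑ c_s / Dc * Gam (s/D) z` -/
noncomputable def gsum (D Dc : ℕ) (ts : List Trm) (z : ℝ) : ℝ :=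
  (ts.map fun t => t.co / Dc * Gam ((t.s : ℝ) / D) z).sum

/-- tangency point used for the term at the endpoint `Z` of the cell `[A,B]` -/
def Trm.pt (t : Trm) (A M Z : ℕ) : ℕ :=
  if (t.s ≤ A) == t.neg then M else Z

/-- positive part of the value at `Z` (scaled by `2^48`) -/
def Trm.pos (D : ℕ) (t : Trm) (A M Z : ℕ) : ℕ :=
  let X := t.pt A M Z
  (if t.neg then
    (if t.s ≤ Z then 0 else (t.s - Z) * logHi (t.s - X)) + (Z + t.s) * logHi (X + t.s)
  else
    (if t.s ≤ Z then (Z - t.s) * logHi (X - t.s) else 0) + 2 * t.s * (logHi D + 2 ^ 48)) * t.c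

/-- negative part of the value at `Z` (scaled by `2^48`) -/
def Trm.ngv (D : ℕ) (t : Trm) (A M Z : ℕ) : ℕ :=
  let X := t.pt A M Z
  (if t.neg then
    (if t.s ≤ Z then (Z - t.s) * logLo (X - t.s) else 0) + 2 * t.s * (logLo D + 2 ^ 48)
  else
    (if t.s ≤ Z then 0 else (t.s - Z) * logLo (t.s - X)) + (Z + t.s) * logLo (X + t.s)) * t.c

def sumPos (D : ℕ) (A M Z : ℕ) : List Trm → ℕ
  | [] => 0
  | t :: ts => t.pos D A M Z + sumPos D A M Z ts

def sumNeg (D : ℕ) (A M Z : ℕ) : List Trm → ℕ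
  | [] => 0
  | t :: ts => t.ngv D A M Z + sumNeg D A M Z ts

/-- all breakpoints outside the open cell -/
def outside (A B : ℕ) : List Trm → Bool
  | [] => true
  | t :: ts => (Nat.ble t.s A || Nat.ble B t.s) && outside A B ts

/-- the check of one cell against the level `(lp - ln) / (D * Dc)` -/
def cellOk (D : ℕ) (ts : List Trm) (lp ln A B : ℕ) : Bool :=
  let M := (A + B) / 2
  Nat.ble (A + 2) B && outside A B ts &&
  Nat.ble (sumPos D A M A ts + ln * 2 ^ 48) (sumNeg D A M A ts + lp * 2 ^ 48) &&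
  Nat.ble (sumPos D A M B ts + ln * 2 ^ 48) (sumNeg D A M B ts + lp * 2 ^ 48)

/-- check of consecutive cells starting from `A` -/
def cellsOk (D : ℕ) (ts : List Trm) (lp ln : ℕ) : ℕ → List ℕ → Bool
  | _, [] => true
  | A, B :: Bs => cellOk D ts lp ln A B && cellsOk D ts lp ln B Bs

theorem Trm.value_bound (D : ℕ) (hD : 0 < D) (t : Trm) (A M B Z : ℕ) (hAM : A < M) (hMB : M < B)
    (hout : t.s ≤ A ∨ B ≤ t.s) (hZ : Z = A ∨ Z = B) :
    t.co * TT t.s (log D) (t.pt A M Z) Z * 2 ^ 48 ≤ (t.pos D A M Z : ℝ) - (t.ngv D A M Z : ℝ) := by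
  set X := t.pt A M Z with hX
  have hlD := log_bounds D hD.ne'
  have hZAB : A ≤ Z ∧ Z ≤ B := by rcases hZ with h | h <;> subst h <;> omega
  have hXAB : A ≤ X ∧ X ≤ B := by
    rw [hX]; unfold Trm.pt; split_ifs <;> omega
  have hXs : X = Z ∨ X ≠ t.s := by
    rw [hX]; unfold Trm.pt
    split_ifs
    · right; rcases hout with h | h <;> omega
    · left; rfl
  -- bound of the mixed product
  have hmul : ∀ (a n : ℕ), (a = 0 ∨ n ≠ 0) →
      (a : ℝ) * logLo n ≤ a * (log n * 2 ^ 48) ∧ (a : ℝ) * (log n * 2 ^ 48) ≤ a * logHi n := by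
    intro a n h
    rcases h with rfl | h
    · simp
    · have := log_bounds n h
      exact ⟨mul_le_mul_of_nonneg_left this.1 (Nat.cast_nonneg _),
        mul_le_mul_of_nonneg_left this.2 (Nat.cast_nonneg _)⟩
  have hplus := hmul (Z + t.s) (X + t.s) (by
    by_cases h : X + t.s = 0
    · left
      have : X = 0 := by omega
      have h2 : t.s = 0 := by omega
      rcases hXs with h3 | h3
      · omega
      · omega
    · right; exact h)
  have hc : (0 : ℝ) ≤ t.c := Nat.cast_nonneg _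
  have hs : (0 : ℝ) ≤ 2 * t.s := by positivity
  have hD1 := mul_le_mul_of_nonneg_left hlD.1 hs
  have hD2 := mul_le_mul_of_nonneg_left hlD.2 hs
  rcases Nat.lt_or_ge Z t.s with hlt | hge
  · -- concave side
    have hnot : ¬ t.s ≤ Z := by omega
    have hXlt : X < t.s := by
      rcases hout with h | h
      · omega
      · rcases hXs with h3 | h3
        · omega
        · omega
    have hmin := hmul (t.s - Z) (t.s - X) (by right; omega)
    have elog : log ((X : ℝ) - t.s) = log ((t.s - X : ℕ) : ℝ) := by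
      rw [Nat.cast_sub hXlt.le, ← log_neg_eq_log, neg_sub]
    have eZ : ((t.s - Z : ℕ) : ℝ) = (t.s : ℝ) - Z := Nat.cast_sub hlt.le
    have ebase : TT t.s (log D) X Z * 2 ^ 48 =
        -(((t.s - Z : ℕ) : ℝ) * (log ((t.s - X : ℕ) : ℝ) * 2 ^ 48)) -
        ((Z + t.s : ℕ) : ℝ) * (log ((X + t.s : ℕ) : ℝ) * 2 ^ 48) + 2 * t.s * (log D * 2 ^ 48 + 2 ^ 48) := by
      simp only [TT]
      rw [elog, eZ]
      push_cast
      ring
    unfold Trm.pos Trm.ngv Trm.co
    simp only [← hX, hnot, if_false]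
    cases t.neg
    · simp only [Bool.false_eq_true, if_false]
      rw [mul_assoc, ebase]
      push_cast at hmin hplus ⊢
      nlinarith [mul_le_mul_of_nonneg_left hmin.1 hc, mul_le_mul_of_nonneg_left hplus.1 hc,
        mul_le_mul_of_nonneg_left hD2 hc]
    · simp only [if_true]
      rw [mul_assoc, ebase]
      push_cast at hmin hplus ⊢
      nlinarith [mul_le_mul_of_nonneg_left hmin.2 hc, mul_le_mul_of_nonneg_left hplus.2 hc,
        mul_le_mul_of_nonneg_left hD1 hc]
  · have hcase : Z = t.s ∨ t.s < X := by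
      by_cases h4 : Z = t.s
      · left; exact h4
      · right
        rcases hout with h | h
        · rcases hXs with h3 | h3 <;> omega
        · omega
    have hmin := hmul (Z - t.s) (X - t.s) (by
      rcases hcase with h3 | h3
      · left; omega
      · right; omega)
    have elog : ((Z : ℝ) - t.s) * log ((X : ℝ) - t.s)
        = ((Z - t.s : ℕ) : ℝ) * log ((X - t.s : ℕ) : ℝ) := by
      rcases hcase with h3 | h3
      · rw [h3]; simp
      · rw [Nat.cast_sub h3.le, Nat.cast_sub hge]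
    have ebase : TT t.s (log D) X Z * 2 ^ 48 =
        ((Z - t.s : ℕ) : ℝ) * (log ((X - t.s : ℕ) : ℝ) * 2 ^ 48) -
        ((Z + t.s : ℕ) : ℝ) * (log ((X + t.s : ℕ) : ℝ) * 2 ^ 48) + 2 * t.s * (log D * 2 ^ 48 + 2 ^ 48) := by
      simp only [TT]
      rw [elog]
      push_cast
      ring
    unfold Trm.pos Trm.ngv Trm.co
    simp only [← hX, hge, if_true]
    cases t.neg
    · simp only [Bool.false_eq_true, if_false]
      rw [mul_assoc, ebase]
      push_cast at hmin hplus ⊢
      nlinarith [mul_le_mul_of_nonneg_left hmin.2 hc, mul_le_mul_of_nonneg_left hplus.1 hc,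
        mul_le_mul_of_nonneg_left hD2 hc]
    · simp only [if_true]
      rw [mul_assoc, ebase]
      push_cast at hmin hplus ⊢
      nlinarith [mul_le_mul_of_nonneg_left hmin.1 hc, mul_le_mul_of_nonneg_left hplus.2 hc,
        mul_le_mul_of_nonneg_left hD1 hc]

/-- value of the linear majorant of the whole sum at `Z` -/
noncomputable def linVal (D : ℕ) (A M Z : ℕ) (ts : List Trm) : ℝ :=
  (ts.map fun t => t.co * TT t.s (log D) (t.pt A M Z) Z).sum

theorem linVal_bound (D : ℕ) (hD : 0 < D) (A M B Z : ℕ) (hAM : A < M) (hMB : M < B)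
    (hZ : Z = A ∨ Z = B) : ∀ ts : List Trm, outside A B ts = true →
    linVal D A M Z ts * 2 ^ 48 ≤ (sumPos D A M Z ts : ℝ) - (sumNeg D A M Z ts : ℝ) := by
  intro ts
  induction ts with
  | nil => intro _; simp [linVal, sumPos, sumNeg]
  | cons t ts ih =>
    intro h
    simp only [outside, Bool.and_eq_true, Bool.or_eq_true, Nat.ble_eq] at h
    have h1 := t.value_bound D hD A M B Z hAM hMB h.1 hZ
    have h2 := ih h.2
    simp only [linVal, List.map_cons, List.sum_cons, sumPos, sumNeg] at h2 ⊢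
    push_cast
    linarith

theorem gsum_le_lin (D Dc : ℕ) (hD : 0 < D) (hDc : 0 < Dc) (A M B : ℕ) (hAM : A < M) (hMB : M < B)
    (x a b : ℝ) (ha : 0 ≤ a) (hb : 0 ≤ b) (hab : a + b = 1) (hx : x = a * A + b * B) :
    ∀ ts : List Trm, outside A B ts = true →
    gsum D Dc ts (x / D) * (D * Dc) ≤ a * linVal D A M A ts + b * linVal D A M B ts := by
  intro ts
  have hD' : (0 : ℝ) < D := by exact_mod_cast hD
  have hDc' : (0 : ℝ) < Dc := by exact_mod_cast hDc
  have hAB : (A : ℝ) < B := by exact_mod_cast hAM.trans hMB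
  have hxA : (A : ℝ) ≤ x := by
    rw [hx]
    have : a = 1 - b := by linarith
    rw [this]; nlinarith
  have hxB : x ≤ B := by
    rw [hx]
    have : b = 1 - a := by linarith
    rw [this]; nlinarith
  have hA0 : (0 : ℝ) ≤ A := Nat.cast_nonneg _
  have hx0 : 0 ≤ x := hA0.trans hxA
  induction ts with
  | nil => intro _; simp [linVal, gsum]
  | cons t ts ih =>
    intro h
    simp only [outside, Bool.and_eq_true, Bool.or_eq_true, Nat.ble_eq] at h
    have h2 := ih h.2
    have hs0 : (0 : ℝ) ≤ t.s := Nat.cast_nonneg _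
    have hc0 : (0 : ℝ) ≤ t.c := Nat.cast_nonneg _
    have hMr : (A : ℝ) < M := by exact_mod_cast hAM
    have hMr' : (M : ℝ) < B := by exact_mod_cast hMB
    have key : t.co * TT t.s (log D) x x ≤
        a * (t.co * TT t.s (log D) (t.pt A M A) A) + b * (t.co * TT t.s (log D) (t.pt A M B) B) := by
      unfold Trm.co Trm.pt
      rcases h.1 with hsA | hsB
      · have hsA' : (t.s : ℝ) ≤ A := by exact_mod_cast hsA
        cases t.neg
        · -- chord, convex
          simp only [hsA, decide_true, Bool.true_beq, Bool.false_eq_true, if_false]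
          have := TT_chord_convex t.s (log D) A B x a b hs0 hsA' hAB ha hb hab hx
          nlinarith [mul_le_mul_of_nonneg_left this hc0]
        · -- tangent, convex with negative sign
          simp only [hsA, decide_true, Bool.true_beq, if_true]
          have h3 := TT_ge t.s (log D) M x hs0 (hsA'.trans hxA) (by linarith)
          rw [TT_affine t.s (log D) M A B x a b hab hx] at h3
          nlinarith [mul_le_mul_of_nonneg_left h3 hc0]
      · have hsB' : (B : ℝ) ≤ t.s := by exact_mod_cast hsB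
        have hnsA : ¬ t.s ≤ A := by omega
        cases t.neg
        · -- tangent above, concave
          simp only [hnsA, decide_false, Bool.false_beq, Bool.not_false, if_true,
            Bool.false_eq_true, if_false]
          have h3 := TT_le t.s (log D) M x hx0 (by linarith) (by linarith) (by linarith)
          rw [TT_affine t.s (log D) M A B x a b hab hx] at h3
          nlinarith [mul_le_mul_of_nonneg_left h3 hc0]
        · simp only [hnsA, decide_false, Bool.false_beq, Bool.not_true, Bool.false_eq_true,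
            if_false, if_true]
          have := TT_chord_concave t.s (log D) A B x a b hA0 hsB' hAB ha hb hab hx
          nlinarith [mul_le_mul_of_nonneg_left this hc0]
    have e1 : t.co / Dc * Gam ((t.s : ℝ) / D) (x / D) * (D * Dc) = t.co * TT t.s (log D) x x := by
      rw [TT_selfAll D t.s x hD' hs0 hx0]
      field_simp
    simp only [gsum, linVal, List.map_cons, List.sum_cons] at h2 ⊢
    rw [add_mul, e1]
    linarith [key, h2]

theorem cellOk_sound (D Dc : ℕ) (hD : 0 < D) (hDc : 0 < Dc) (ts : List Trm) (lp ln A B : ℕ)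
    (h : cellOk D ts lp ln A B = true) (z : ℝ) (h1 : (A : ℝ) / D ≤ z) (h2 : z ≤ (B : ℝ) / D) :
    gsum D Dc ts z ≤ ((lp : ℝ) - ln) / (D * Dc) := by
  simp only [cellOk, Bool.and_eq_true, Nat.ble_eq] at h
  obtain ⟨⟨⟨hAB, hout⟩, hA⟩, hB⟩ := h
  set M := (A + B) / 2 with hM
  have hAM : A < M := by omega
  have hMB : M < B := by omega
  have hD' : (0 : ℝ) < D := by exact_mod_cast hD
  have hDc' : (0 : ℝ) < Dc := by exact_mod_cast hDc
  have hABr : (A : ℝ) < B := by exact_mod_cast hAM.trans hMB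
  set x : ℝ := z * D with hx
  have hxA : (A : ℝ) ≤ x := by rw [div_le_iff₀ hD'] at h1; exact h1
  have hxB : x ≤ B := by rw [le_div_iff₀ hD'] at h2; exact h2
  have hzx : z = x / D := by rw [hx]; field_simp
  set b : ℝ := (x - A) / (B - A) with hb
  have hb0 : 0 ≤ b := div_nonneg (by linarith) (by linarith)
  have hb1 : b ≤ 1 := by rw [hb, div_le_one (by linarith)]; linarith
  have hxab : x = (1 - b) * A + b * B := by
    have : b * (B - A) = x - A := by rw [hb]; field_simp [sub_ne_zero.mpr hABr.ne']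
    nlinarith
  have hlin := gsum_le_lin D Dc hD hDc A M B hAM hMB x (1 - b) b (by linarith) hb0 (by ring) hxab ts hout
  have hAA := linVal_bound D hD A M B A hAM hMB (Or.inl rfl) ts hout
  have hBB := linVal_bound D hD A M B B hAM hMB (Or.inr rfl) ts hout
  have hA' : (sumPos D A M A ts : ℝ) + ln * 2 ^ 48 ≤ sumNeg D A M A ts + lp * 2 ^ 48 := by
    exact_mod_cast hA
  have hB' : (sumPos D A M B ts : ℝ) + ln * 2 ^ 48 ≤ sumNeg D A M B ts + lp * 2 ^ 48 := by
    exact_mod_cast hB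
  have hA2 : linVal D A M A ts ≤ (lp : ℝ) - ln := by nlinarith
  have hB2 : linVal D A M B ts ≤ (lp : ℝ) - ln := by nlinarith
  rw [hzx, le_div_iff₀ (by positivity)]
  nlinarith [mul_le_mul_of_nonneg_left hA2 (show 0 ≤ 1 - b by linarith),
    mul_le_mul_of_nonneg_left hB2 hb0]

theorem cellsOk_sound (D Dc : ℕ) (hD : 0 < D) (hDc : 0 < Dc) (ts : List Trm) (lp ln : ℕ) :
    ∀ (Bs : List ℕ) (A : ℕ), cellsOk D ts lp ln A Bs = true → ∀ z : ℝ, (A : ℝ) / D ≤ z →
      z ≤ ((Bs.getLastD A : ℕ) : ℝ) / D → Bs ≠ [] → gsum D Dc ts z ≤ ((lp : ℝ) - ln) / (D * Dc) := by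
  intro Bs
  induction Bs with
  | nil => intro A _ z _ _ h; exact absurd rfl h
  | cons B Bs ih =>
    intro A h z h1 h2 _
    simp only [cellsOk, Bool.and_eq_true] at h
    by_cases hz : z ≤ (B : ℝ) / D
    · exact cellOk_sound D Dc hD hDc ts lp ln A B h.1 z h1 hz
    · have hz' : (B : ℝ) / D ≤ z := (lt_of_not_ge hz).le
      by_cases hB : Bs = []
      · subst hB
        simp at h2
        exact absurd h2 hz
      · refine ih B h.2 z hz' ?_ hB
        rwa [List.getLastD_cons] at h2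

/-! ### The tail -/

/-- sum of `c * s` over positive terms -/
def csPos : List Trm → ℕ
  | [] => 0
  | t :: ts => (if t.neg then 0 else t.c * t.s) + csPos ts

def csNeg : List Trm → ℕ
  | [] => 0
  | t :: ts => (if t.neg then t.c * t.s else 0) + csNeg ts

/-- remainder: sum of `c s^3 / (Z^2 - s^2)` over positive terms, rounded up -/
def remPos (Z : ℕ) : List Trm → ℕ
  | [] => 0
  | t :: ts => (if t.neg then 0 else t.c * t.s ^ 3 / (Z ^ 2 - t.s ^ 2) + 1) + remPos Z ts

def allBelow (Z : ℕ) : List Trm → Bool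
  | [] => true
  | t :: ts => Nat.ble (t.s + 1) Z && allBelow Z ts

/-- check of the tail `z ≥ Z/D` -/
def tailOk (D : ℕ) (ts : List Trm) (lp ln Z : ℕ) : Bool :=
  allBelow Z ts && Nat.ble (csNeg ts) (csPos ts) &&
  Nat.ble (remPos Z ts * 2 ^ 48 + ln * 2 ^ 48 + 2 * (csPos ts - csNeg ts) * logHi D)
    (lp * 2 ^ 48 + 2 * (csPos ts - csNeg ts) * logLo Z)

theorem gsum_tail (D Dc : ℕ) (hD : 0 < D) (hDc : 0 < Dc) (Z : ℕ) (z : ℝ) (hz : (Z : ℝ) / D ≤ z) :
    ∀ ts : List Trm, allBelow Z ts = true →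
    gsum D Dc ts z * (D * Dc) ≤ -2 * ((csPos ts : ℝ) - csNeg ts) * log z + remPos Z ts := by
  have hD' : (0 : ℝ) < D := by exact_mod_cast hD
  have hDc' : (0 : ℝ) < Dc := by exact_mod_cast hDc
  intro ts
  induction ts with
  | nil => intro _; simp [gsum, csPos, csNeg, remPos]
  | cons t ts ih =>
    intro h
    simp only [allBelow, Bool.and_eq_true, Nat.ble_eq] at h
    have h2 := ih h.2
    have hlt : t.s < Z := by omega
    have hltr : (t.s : ℝ) < Z := by exact_mod_cast hlt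
    have hs0 : (0 : ℝ) ≤ (t.s : ℝ) / D := by positivity
    have hsz : (t.s : ℝ) / D < z := lt_of_lt_of_le (by gcongr) hz
    have hc0 : (0 : ℝ) ≤ t.c := Nat.cast_nonneg _
    have hup := Gam_le_far _ z hs0 hsz
    have hlo := Gam_ge_far _ z hs0 hsz
    simp only [gsum, List.map_cons, List.sum_cons, csPos, csNeg, remPos] at h2 ⊢
    rw [add_mul]
    rcases Bool.eq_false_or_eq_true t.neg with hn | hn
    rotate_left
    · have hco : t.co = t.c := by simp [Trm.co, hn]
      rw [hco]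
      simp only [hn, Bool.false_eq_true, if_false]
      -- positive coefficient
      have hZ2 : 0 < Z ^ 2 - t.s ^ 2 := by
        have : t.s ^ 2 < Z ^ 2 := Nat.pow_lt_pow_left hlt (by norm_num)
        omega
      have hZ2r : ((Z ^ 2 - t.s ^ 2 : ℕ) : ℝ) = (Z : ℝ) ^ 2 - (t.s : ℝ) ^ 2 := by
        rw [Nat.cast_sub (Nat.pow_le_pow_left hlt.le 2)]; push_cast; ring
      have hrem : (t.c : ℝ) * (t.s : ℝ) ^ 3 / ((Z : ℝ) ^ 2 - (t.s : ℝ) ^ 2)
          ≤ ((t.c * t.s ^ 3 / (Z ^ 2 - t.s ^ 2) : ℕ) : ℝ) + 1 := by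
        have := lt_div_add_one (t.c * t.s ^ 3) (Z ^ 2 - t.s ^ 2) hZ2
        rw [hZ2r] at this
        push_cast at this
        exact this
      have hfar : (t.s : ℝ) / D * (((t.s : ℝ) / D) ^ 2 / (z ^ 2 - ((t.s : ℝ) / D) ^ 2))
          ≤ (t.s : ℝ) ^ 3 / ((Z : ℝ) ^ 2 - (t.s : ℝ) ^ 2) / D := by
        have hpos : (0 : ℝ) < (Z : ℝ) ^ 2 - (t.s : ℝ) ^ 2 := by
          rw [← hZ2r]; exact_mod_cast hZ2
        have hpos2 : ((Z : ℝ) ^ 2 - (t.s : ℝ) ^ 2) / D ^ 2 ≤ z ^ 2 - ((t.s : ℝ) / D) ^ 2 := by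
          have : ((Z : ℝ) / D) ^ 2 ≤ z ^ 2 := by gcongr
          calc ((Z : ℝ) ^ 2 - (t.s : ℝ) ^ 2) / D ^ 2 = ((Z : ℝ) / D) ^ 2 - ((t.s : ℝ) / D) ^ 2 := by
                ring
            _ ≤ _ := by linarith
        calc (t.s : ℝ) / D * (((t.s : ℝ) / D) ^ 2 / (z ^ 2 - ((t.s : ℝ) / D) ^ 2))
            ≤ (t.s : ℝ) / D * (((t.s : ℝ) / D) ^ 2 / (((Z : ℝ) ^ 2 - (t.s : ℝ) ^ 2) / D ^ 2)) := by
              gcongr
          _ = (t.s : ℝ) ^ 3 / ((Z : ℝ) ^ 2 - (t.s : ℝ) ^ 2) / D := by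
              field_simp
      have h3 : (t.c : ℝ) / Dc * Gam ((t.s : ℝ) / D) z * (D * Dc) =
          t.c * (D * Gam ((t.s : ℝ) / D) z) := by field_simp
      rw [h3]
      have h4 : D * Gam ((t.s : ℝ) / D) z ≤ -2 * t.s * log z +
          (t.s : ℝ) ^ 3 / ((Z : ℝ) ^ 2 - (t.s : ℝ) ^ 2) := by
        calc D * Gam ((t.s : ℝ) / D) z ≤ D * (-2 * ((t.s : ℝ) / D) * log z +
              (t.s : ℝ) / D * (((t.s : ℝ) / D) ^ 2 / (z ^ 2 - ((t.s : ℝ) / D) ^ 2))) := by gcongr
          _ ≤ D * (-2 * ((t.s : ℝ) / D) * log z +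
              (t.s : ℝ) ^ 3 / ((Z : ℝ) ^ 2 - (t.s : ℝ) ^ 2) / D) := by gcongr
          _ = _ := by field_simp
      have h5 := mul_le_mul_of_nonneg_left h4 hc0
      push_cast
      have h6 : (t.c : ℝ) * ((t.s : ℝ) ^ 3 / ((Z : ℝ) ^ 2 - (t.s : ℝ) ^ 2)) =
          (t.c : ℝ) * (t.s : ℝ) ^ 3 / ((Z : ℝ) ^ 2 - (t.s : ℝ) ^ 2) := by ring
      rw [mul_add, h6] at h5
      push_cast at hrem
      linarith
    · have hco : t.co = -(t.c : ℝ) := by simp [Trm.co, hn]
      rw [hco]
      simp only [hn, if_true]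
      have h3 : -(t.c : ℝ) / Dc * Gam ((t.s : ℝ) / D) z * (D * Dc) =
          -(t.c * (D * Gam ((t.s : ℝ) / D) z)) := by field_simp
      rw [h3]
      have h4 : -2 * t.s * log z ≤ D * Gam ((t.s : ℝ) / D) z := by
        calc -2 * t.s * log z = D * (-2 * ((t.s : ℝ) / D) * log z) := by field_simp
          _ ≤ _ := by gcongr
      have h5 := mul_le_mul_of_nonneg_left h4 hc0
      push_cast
      linarith

/-- the tail: `g z ≤ l - K log (z / ζ)` for `z ≥ ζ = Z/D`, with `K = 2 ∑ c s` -/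
theorem tailOk_sound (D Dc : ℕ) (hD : 0 < D) (hDc : 0 < Dc) (ts : List Trm) (lp ln Z : ℕ)
    (hZ : 0 < Z) (h : tailOk D ts lp ln Z = true) (z : ℝ) (hz : (Z : ℝ) / D ≤ z) :
    gsum D Dc ts z ≤ ((lp : ℝ) - ln) / (D * Dc) -
      2 * ((csPos ts : ℝ) - csNeg ts) / (D * Dc) * log (z / ((Z : ℝ) / D)) := by
  simp only [tailOk, Bool.and_eq_true, Nat.ble_eq] at h
  obtain ⟨⟨h1, h2⟩, h3⟩ := h
  have hD' : (0 : ℝ) < D := by exact_mod_cast hD
  have hDc' : (0 : ℝ) < Dc := by exact_mod_cast hDc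
  have hZ' : (0 : ℝ) < Z := by exact_mod_cast hZ
  have hz0 : 0 < z := lt_of_lt_of_le (by positivity) hz
  have ht := gsum_tail D Dc hD hDc Z z hz ts h1
  have h3' : (remPos Z ts : ℝ) * 2 ^ 48 + ln * 2 ^ 48 + 2 * ((csPos ts : ℝ) - csNeg ts) * logHi D ≤
      lp * 2 ^ 48 + 2 * ((csPos ts : ℝ) - csNeg ts) * logLo Z := by
    have h4 : ((csPos ts - csNeg ts : ℕ) : ℝ) = (csPos ts : ℝ) - csNeg ts := Nat.cast_sub h2
    rw [← h4]
    exact_mod_cast h3
  have hK : 0 ≤ (csPos ts : ℝ) - csNeg ts := by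
    have : (csNeg ts : ℝ) ≤ csPos ts := by exact_mod_cast h2
    linarith
  have hl1 := mul_le_mul_of_nonneg_left (log_bounds D hD.ne').2 (show 0 ≤ 2 * ((csPos ts : ℝ) - csNeg ts) by linarith)
  have hl2 := mul_le_mul_of_nonneg_left (log_bounds Z hZ.ne').1 (show 0 ≤ 2 * ((csPos ts : ℝ) - csNeg ts) by linarith)
  have h5 : (remPos Z ts : ℝ) ≤ (lp : ℝ) - ln + 2 * ((csPos ts : ℝ) - csNeg ts) * (log Z - log D) := by
    nlinarith
  have e1 : log (z / ((Z : ℝ) / D)) = log z - (log Z - log D) := by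
    rw [log_div hz0.ne' (by positivity), log_div hZ'.ne' hD'.ne']
  rw [e1]
  have h6 : gsum D Dc ts z * (D * Dc) ≤ ((lp : ℝ) - ln) -
      2 * ((csPos ts : ℝ) - csNeg ts) * (log z - (log Z - log D)) := by
    linarith
  have h7 : ((lp : ℝ) - ln) / (D * Dc) -
      2 * ((csPos ts : ℝ) - csNeg ts) / (D * Dc) * (log z - (log Z - log D)) =
      (((lp : ℝ) - ln) - 2 * ((csPos ts : ℝ) - csNeg ts) * (log z - (log Z - log D))) / (D * Dc) := by
    ring
  rw [h7, le_div_iff₀ (by positivity)]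
  exact h6

end Pool.Agent.Z5
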