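import Pool.Agent.Z5.NumLog

/-! Kernel-checkable bounds for integer combinations of logarithms of integers.  Seat: helper6. -/

namespace Pool.Agent.Z5

open Real

/-- the real number `∑ c * log n` over a list of pairs `(c, n)` -/
noncomputable def lcomb (l : List (ℤ × ℕ)) : ℝ := (l.map fun q => (q.1 : ℝ) * log q.2).sum

/-- upper bound (scaled by `2^48`) -/
def lcUp : List (ℤ × ℕ) → ℤ
  | [] => 0
  | q :: l => (match q.1 with
      | Int.ofNat c => Int.ofNat (c * logHi q.2)
      | Int.negSucc c => Int.negOfNat ((c + 1) * logLo q.2)) + lcUp l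

/-- all arguments nonzero -/
def lcNz : List (ℤ × ℕ) → Bool
  | [] => true
  | q :: l => Nat.blt 0 q.2 && lcNz l

theorem lcomb_le : ∀ l : List (ℤ × ℕ), lcNz l = true → lcomb l * 2 ^ 48 ≤ (lcUp l : ℝ) := by
  intro l
  induction l with
  | nil => intro _; simp [lcomb, lcUp]
  | cons q l ih =>
    intro h
    simp only [lcNz, Bool.and_eq_true, Nat.blt_eq] at h
    have h2 := ih h.2
    obtain ⟨c, n⟩ := q
    have hn : n ≠ 0 := by have := h.1; simp only at this; omega
    have hb := log_bounds n hn
    simp only [lcomb, List.map_cons, List.sum_cons, lcUp] at h2 ⊢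
    rw [add_mul]
    rcases c with c | c
    · have hc : (0 : ℝ) ≤ c := Nat.cast_nonneg _
      have := mul_le_mul_of_nonneg_left hb.2 hc
      push_cast
      simp only [Int.ofNat_eq_natCast] at *
      push_cast
      linarith
    · have hc : (0 : ℝ) ≤ (c : ℝ) + 1 := by positivity
      have := mul_le_mul_of_nonneg_left hb.1 hc
      have e1 : ((Int.negOfNat ((c + 1) * logLo n) : ℤ) : ℝ) = -(((c : ℝ) + 1) * logLo n) := by
        rw [Int.negOfNat_eq]
        push_cast
        simp
      rw [Int.cast_add, e1]
      have e2 : ((Int.negSucc c : ℤ) : ℝ) = -((c : ℝ) + 1) := by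
        rw [Int.cast_negSucc]; push_cast; ring
      rw [e2]
      linarith

end Pool.Agent.Z5
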