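import Pool.Agent.Z5.ArchDefs
import Pool.Agent.Z5.LogComb
import Pool.Agent.Z5.CellCheck

/-! Numeric evaluation of the archimedean constant: integer data, reduction to combinations of
logarithms of integers.  Seat: helper6. -/

open Finset

namespace Pool.Agent.Z5

/-- integer data of a reference density: edges `e i / D`, densities `c i / Dc` -/
structure NRef where
  B : ℕ
  e : ℕ → ℕ
  c : ℕ → ℕ
  s : ℕ

/-- the data represent the reference density -/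
structure Repr (D Dc : ℕ) (N : NRef) (R : Ref) : Prop where
  B : R.B = N.B
  e : ∀ i, i ≤ N.B → R.ed i = (N.e i : ℚ) / D
  c : ∀ i, i < N.B → R.d i = (N.c i : ℚ) / Dc
  s : R.s = N.s

/-- `|a - b|` on the naturals -/
def nd' (a b : ℕ) : ℕ := (a - b) + (b - a)

theorem nd'_cast (a b : ℕ) : ((nd' a b : ℕ) : ℝ) = |(a : ℝ) - b| := by
  unfold nd'
  rcases le_total a b with h | h
  · rw [Nat.sub_eq_zero_of_le h, zero_add, Nat.cast_sub h, abs_sub_comm, abs_of_nonneg]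
    have : (a : ℝ) ≤ b := by exact_mod_cast h
    linarith
  · rw [Nat.sub_eq_zero_of_le h, add_zero, Nat.cast_sub h, abs_of_nonneg]
    have : (b : ℝ) ≤ a := by exact_mod_cast h
    linarith

/-- one log term: `4 D² k GG(Y/D)` without the polynomial part -/
def ggT (k : ℤ) (Y : ℕ) : ℤ × ℕ := (k * 2 * (Y : ℤ) ^ 2, if Y = 0 then 1 else Y)

theorem GG_abs (y : ℝ) : GG |y| = GG y := by
  rcases abs_choice y with h | h
  · rw [h]
  · rw [h, GG_neg]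

theorem ggT_eq (D : ℕ) (hD : 0 < D) (k : ℤ) (Y : ℕ) :
    4 * (D : ℝ) ^ 2 * k * GG ((Y : ℝ) / D) =
      ((ggT k Y).1 : ℝ) * Real.log ((ggT k Y).2) - (2 * Real.log D + 3) * (k * (Y : ℝ) ^ 2) := by
  have hD' : (D : ℝ) ≠ 0 := by exact_mod_cast hD.ne'
  unfold ggT GG
  by_cases hY : Y = 0
  · subst hY; simp
  · have hY' : (Y : ℝ) ≠ 0 := by exact_mod_cast hY
    simp only [hY, if_false]
    push_cast
    rw [Real.log_div hY' hD']
    field_simp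
    ring

/-- log terms of `4 D² k (V'(z))`, `z = Z/D`, for one block `[a/D, b/D]`: -/
def vT (k : ℤ) (a b Z : ℕ) : List (ℤ × ℕ) :=
  [ggT k (nd' a Z), ggT (-k) (nd' b Z), ggT k (b + Z), ggT (-k) (a + Z)]

/-- block potential primitive -/
noncomputable def blkV (a b z : ℝ) : ℝ :=
  (GG (a - z) - GG (b - z)) + (GG (b + z) - GG (a + z))

theorem vT_eq (D : ℕ) (hD : 0 < D) (k : ℤ) (a b Z : ℕ) :
    4 * (D : ℝ) ^ 2 * k * blkV ((a : ℝ) / D) ((b : ℝ) / D) ((Z : ℝ) / D) =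
      lcomb (vT k a b Z) - (2 * Real.log D + 3) * (k * (4 * ((b : ℝ) - a) * Z)) := by
  have hD' : (D : ℝ) ≠ 0 := by exact_mod_cast hD.ne'
  have hDp : (0 : ℝ) < D := by exact_mod_cast hD
  have e1 : GG ((a : ℝ) / D - (Z : ℝ) / D) = GG (((nd' a Z : ℕ) : ℝ) / D) := by
    rw [nd'_cast, ← GG_abs, ← sub_div, abs_div, abs_of_pos hDp]
  have e2 : GG ((b : ℝ) / D - (Z : ℝ) / D) = GG (((nd' b Z : ℕ) : ℝ) / D) := by
    rw [nd'_cast, ← GG_abs, ← sub_div, abs_div, abs_of_pos hDp]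
  have e3 : GG ((b : ℝ) / D + (Z : ℝ) / D) = GG (((b + Z : ℕ) : ℝ) / D) := by
    rw [← add_div]; push_cast; rfl
  have e4 : GG ((a : ℝ) / D + (Z : ℝ) / D) = GG (((a + Z : ℕ) : ℝ) / D) := by
    rw [← add_div]; push_cast; rfl
  have h1 := ggT_eq D hD k (nd' a Z)
  have h2 := ggT_eq D hD (-k) (nd' b Z)
  have h3 := ggT_eq D hD k (b + Z)
  have h4 := ggT_eq D hD (-k) (a + Z)
  have q1 : ((nd' a Z : ℕ) : ℝ) ^ 2 = ((a : ℝ) - Z) ^ 2 := by rw [nd'_cast, sq_abs]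
  have q2 : ((nd' b Z : ℕ) : ℝ) ^ 2 = ((b : ℝ) - Z) ^ 2 := by rw [nd'_cast, sq_abs]
  rw [q1] at h1
  rw [q2] at h2
  unfold blkV
  rw [e1, e2, e3, e4]
  simp only [lcomb, vT, List.map_cons, List.map_nil, List.sum_cons, List.sum_nil]
  push_cast at h1 h2 h3 h4 ⊢
  linear_combination h1 + h2 + h3 + h4

theorem lcomb_append (l m : List (ℤ × ℕ)) : lcomb (l ++ m) = lcomb l + lcomb m := by
  simp [lcomb]

theorem lcomb_nil : lcomb [] = 0 := by simp [lcomb]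

/-- sum over `range n` of lists -/
def lsum (n : ℕ) (f : ℕ → List (ℤ × ℕ)) : List (ℤ × ℕ) :=
  match n with
  | 0 => []
  | n + 1 => f n ++ lsum n f

theorem lcomb_lsum (n : ℕ) (f : ℕ → List (ℤ × ℕ)) :
    lcomb (lsum n f) = ∑ i ∈ range n, lcomb (f i) := by
  induction n with
  | zero => simp [lsum, lcomb_nil]
  | succ n ih => rw [lsum, lcomb_append, ih, Finset.sum_range_succ, add_comm]

theorem Ref.V_eq (R : Ref) (z : ℝ) :
    R.V z = ∑ i ∈ range R.B, (R.d i : ℝ) * blkV (R.ed i) (R.ed (i + 1)) z := rfl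

/-- log terms of `4 D² Dc k V(Z/D)` -/
def NRef.vL (N : NRef) (k : ℤ) (Z : ℕ) : List (ℤ × ℕ) :=
  lsum N.B fun i => vT (k * N.c i) (N.e i) (N.e (i + 1)) Z

/-- mass times `D * Dc` -/
def NRef.mass (N : NRef) : ℕ → ℤ
  | 0 => 0
  | n + 1 => N.mass n + N.c n * ((N.e (n + 1) : ℤ) - N.e n)

theorem NRef.mass_eq (N : NRef) (n : ℕ) :
    ((N.mass n : ℤ) : ℝ) = ∑ i ∈ range n, (N.c i : ℝ) * ((N.e (i + 1) : ℝ) - N.e i) := by
  induction n with
  | zero => simp [NRef.mass]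
  | succ n ih => rw [NRef.mass, Finset.sum_range_succ, ← ih]; push_cast; ring

theorem vL_eq {D Dc : ℕ} (hD : 0 < D) (hDc : 0 < Dc) {N : NRef} {R : Ref} (h : Repr D Dc N R)
    (k : ℤ) (Z : ℕ) :
    4 * (D : ℝ) ^ 2 * Dc * k * R.V ((Z : ℝ) / D) =
      lcomb (N.vL k Z) - (2 * Real.log D + 3) * (4 * k * N.mass N.B * Z) := by
  have hDc' : (Dc : ℝ) ≠ 0 := by exact_mod_cast hDc.ne'
  rw [Ref.V_eq, h.B, NRef.vL, lcomb_lsum, NRef.mass_eq, Finset.mul_sum, Finset.mul_sum,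
    Finset.sum_mul, Finset.mul_sum, ← Finset.sum_sub_distrib]
  refine Finset.sum_congr rfl fun i hi => ?_
  have hi' := Finset.mem_range.mp hi
  have := vT_eq D hD (k * N.c i) (N.e i) (N.e (i + 1)) Z
  rw [h.e i hi'.le, h.e (i + 1) hi', h.c i hi']
  push_cast at this ⊢
  have e : 4 * (D : ℝ) ^ 2 * Dc * k * ((N.c i : ℝ) / Dc *
      blkV ((N.e i : ℝ) / D) ((N.e (i + 1) : ℝ) / D) ((Z : ℝ) / D)) =
      4 * (D : ℝ) ^ 2 * (k * N.c i) *
      blkV ((N.e i : ℝ) / D) ((N.e (i + 1) : ℝ) / D) ((Z : ℝ) / D) := by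
    field_simp
  rw [e, this]
  ring

/-- log terms of `4 D² Dc² k energy` -/
def NRef.enL (N N' : NRef) (k : ℤ) : List (ℤ × ℕ) :=
  lsum N.B fun i => N'.vL (k * N.c i) (N.e (i + 1)) ++ N'.vL (-(k * N.c i)) (N.e i)

theorem enL_eq {D Dc : ℕ} (hD : 0 < D) (hDc : 0 < Dc) {N N' : NRef} {R R' : Ref}
    (h : Repr D Dc N R) (h' : Repr D Dc N' R') (k : ℤ) :
    4 * (D : ℝ) ^ 2 * (Dc : ℝ) ^ 2 * k * R.energy R' =
      lcomb (N.enL N' k) - (2 * Real.log D + 3) * (4 * k * N.mass N.B * N'.mass N'.B) := by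
  have hDc' : (Dc : ℝ) ≠ 0 := by exact_mod_cast hDc.ne'
  rw [Ref.energy, h.B, NRef.enL, lcomb_lsum, N.mass_eq, Finset.mul_sum, Finset.mul_sum,
    Finset.sum_mul, Finset.mul_sum, ← Finset.sum_sub_distrib]
  refine Finset.sum_congr rfl fun i hi => ?_
  have hi' := Finset.mem_range.mp hi
  rw [lcomb_append, h.e i hi'.le, h.e (i + 1) hi', h.c i hi']
  have h1 := vL_eq hD hDc h' (k * N.c i) (N.e (i + 1))
  have h2 := vL_eq hD hDc h' (-(k * N.c i)) (N.e i)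
  push_cast at h1 h2 ⊢
  have e : 4 * (D : ℝ) ^ 2 * (Dc : ℝ) ^ 2 * k * ((N.c i : ℝ) / Dc *
      (R'.V ((N.e (i + 1) : ℝ) / D) - R'.V ((N.e i : ℝ) / D))) =
      4 * (D : ℝ) ^ 2 * Dc * (k * N.c i) * R'.V ((N.e (i + 1) : ℝ) / D) +
      4 * (D : ℝ) ^ 2 * Dc * (-(k * N.c i)) * R'.V ((N.e i : ℝ) / D) := by
    field_simp
    ring
  rw [e, h1, h2]
  ring

end Pool.Agent.Z5
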