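import Mathlib

/-!
# Basis change for mixed Hankel determinants

For nodes `x`, `z`, `s` the determinant of the mixed Hankel matrix times the three Vandermonde
products is the determinant of the matrix of the two functionals on the products of the
Lagrange polynomials of the nodes.
-/

set_option autoImplicit false

open Matrix Polynomial Finset

namespace Pool.Agent.Z5

variable {ι κ : Type*} [Fintype ι] [DecidableEq ι] [Fintype κ] [DecidableEq κ]

/-- `∏_{k ≠ i} (X - v k)`. -/
noncomputable def nodePoly (v : ι → ℝ) (i : ι) : ℝ[X] :=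
  ∏ k ∈ univ.erase i, (X - C (v k))

/-- `∏_i ∏_{k ≠ i} |v i - v k|`, the square of the absolute value of the Vandermonde product. -/
noncomputable def pairProd (v : ι → ℝ) : ℝ := ∏ i, ∏ k ∈ univ.erase i, |v i - v k|

/-- The mixed Hankel matrix: rows `a (i + c)` for `i < n` and rows `b (i + c)` for `i < m`. -/
def mixMat (n m : ℕ) (a b : ℕ → ℝ) : Matrix (Fin n ⊕ Fin m) (Fin n ⊕ Fin m) ℝ :=
  fun r c => Sum.elim (fun i : Fin n => a (i + finSumFinEquiv c))
    (fun i : Fin m => b (i + finSumFinEquiv c)) r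

/-- The linear functional on polynomials with moments `a`. -/
noncomputable def momFun (a : ℕ → ℝ) (p : ℝ[X]) : ℝ := p.sum fun k c => c * a k

/-- Coefficient matrix of the node polynomials. -/
noncomputable def coefMat {N : ℕ} (e : ι ≃ Fin N) (v : ι → ℝ) : Matrix ι ι ℝ :=
  fun i j => (nodePoly v i).coeff (e j)

/-- The matrix of the functionals on products of node polynomials. -/
noncomputable def nodeMat (n m : ℕ) (a b : ℕ → ℝ) (x : Fin n → ℝ) (z : Fin m → ℝ)
    (s : Fin n ⊕ Fin m → ℝ) : Matrix (Fin n ⊕ Fin m) (Fin n ⊕ Fin m) ℝ :=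
  fun r c => Sum.elim (fun i : Fin n => momFun a (nodePoly x i * nodePoly s c))
    (fun i : Fin m => momFun b (nodePoly z i * nodePoly s c)) r

lemma natDegree_nodePoly (v : ι → ℝ) (i : ι) :
    (nodePoly v i).natDegree = Fintype.card ι - 1 := by
  rw [nodePoly, natDegree_prod_of_monic _ _ (fun k _ => monic_X_sub_C _)]
  simp [Finset.card_erase_of_mem]

lemma natDegree_nodePoly_lt {N : ℕ} (e : ι ≃ Fin N) (v : ι → ℝ) (i : ι) :
    (nodePoly v i).natDegree < N := by
  rw [natDegree_nodePoly, Fintype.card_congr e, Fintype.card_fin]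
  have := (e i).pos
  omega

lemma eval_nodePoly (v : ι → ℝ) (i : ι) (y : ℝ) :
    (nodePoly v i).eval y = ∏ k ∈ univ.erase i, (y - v k) := by
  simp [nodePoly, eval_prod]

lemma eval_nodePoly_ne (v : ι → ℝ) {i j : ι} (h : i ≠ j) : (nodePoly v i).eval (v j) = 0 := by
  rw [eval_nodePoly]
  exact Finset.prod_eq_zero (Finset.mem_erase.2 ⟨h.symm, mem_univ _⟩) (sub_self _)

lemma abs_prod_eval_nodePoly (v : ι → ℝ) : |∏ i, (nodePoly v i).eval (v i)| = pairProd v := by
  simp only [Finset.abs_prod, pairProd, eval_nodePoly]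

/-- Vandermonde matrix with an arbitrary index type. -/
def vanMat {N : ℕ} (e : ι ≃ Fin N) (v : ι → ℝ) : Matrix ι ι ℝ := fun i j => v i ^ (e j : ℕ)

lemma coefMat_mul_vanMat {N : ℕ} (e : ι ≃ Fin N) (v : ι → ℝ) :
    coefMat e v * (vanMat e v)ᵀ = diagonal fun i => (nodePoly v i).eval (v i) := by
  ext i j
  rw [mul_apply]
  simp only [coefMat, vanMat, transpose_apply]
  have h1 : ∑ k, (nodePoly v i).coeff (e k : ℕ) * v j ^ (e k : ℕ) = (nodePoly v i).eval (v j) := by
    rw [eval_eq_sum_range' (natDegree_nodePoly_lt e v i) (v j), ← Fin.sum_univ_eq_sum_range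
      (fun k => (nodePoly v i).coeff k * v j ^ k) N]
    exact Equiv.sum_comp e (fun k : Fin N => (nodePoly v i).coeff (k : ℕ) * v j ^ (k : ℕ))
  rw [h1]
  by_cases hij : i = j
  · subst hij; simp
  · rw [diagonal_apply_ne _ hij, eval_nodePoly_ne v hij]

lemma det_coefMat_mul {N : ℕ} (e : ι ≃ Fin N) (v : ι → ℝ) :
    |(coefMat e v).det| * |(vanMat e v).det| = pairProd v := by
  rw [← abs_mul, ← det_transpose (vanMat e v), ← det_mul, coefMat_mul_vanMat, det_diagonal,
    abs_prod_eval_nodePoly]

lemma vanMat_det {N : ℕ} (e : ι ≃ Fin N) (v : ι → ℝ) :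
    (vanMat e v).det = (vandermonde (v ∘ e.symm)).det := by
  have : vanMat e v = (vandermonde (v ∘ e.symm)).submatrix e e := by
    ext i j
    simp [vanMat, vandermonde_apply]
  rw [this, det_submatrix_equiv_self]

lemma prod_offdiag {N : ℕ} (f : Fin N → Fin N → ℝ) (hf : ∀ i j, f i j = f j i) :
    ∏ i, ∏ j ∈ univ.erase i, f i j = (∏ i, ∏ j ∈ Ioi i, f i j) ^ 2 := by
  have h1 : ∀ i : Fin N, ∏ j ∈ univ.erase i, f i j
      = (∏ j ∈ Ioi i, f i j) * ∏ j ∈ Iio i, f i j := by
    intro i
    rw [← Finset.prod_union]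
    · apply Finset.prod_congr _ (fun _ _ => rfl)
      ext j
      simp only [mem_erase, mem_univ, and_true, mem_union, mem_Ioi, mem_Iio]
      constructor
      · intro h
        rcases lt_or_gt_of_ne h with h | h
        · right; exact h
        · left; exact h
      · rintro (h | h)
        · exact ne_of_gt h
        · exact ne_of_lt h
    · rw [Finset.disjoint_left]
      intro j hj hj2
      simp only [mem_Ioi, mem_Iio] at hj hj2
      exact lt_asymm hj hj2
  rw [Finset.prod_congr rfl (fun i _ => h1 i), Finset.prod_mul_distrib, sq]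
  congr 1
  rw [Finset.prod_comm' (t' := univ) (s' := fun j => Ioi j)]
  · apply Finset.prod_congr rfl
    intro i _
    apply Finset.prod_congr rfl
    intro j _
    exact hf _ _
  · intro i j
    simp

lemma sq_vanMat_det {N : ℕ} (e : ι ≃ Fin N) (v : ι → ℝ) :
    |(vanMat e v).det| ^ 2 = pairProd v := by
  rw [vanMat_det, det_vandermonde, Finset.abs_prod]
  simp only [Finset.abs_prod]
  have h1 : pairProd v = ∏ i : Fin N, ∏ j ∈ univ.erase i, |v (e.symm i) - v (e.symm j)| := by
    rw [pairProd, ← Equiv.prod_comp e]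
    apply Finset.prod_congr rfl
    intro i _
    rw [Equiv.symm_apply_apply]
    refine Finset.prod_bij (fun k _ => e k) ?_ ?_ ?_ ?_
    · intro a ha
      simp only [mem_erase, mem_univ, and_true] at ha ⊢
      exact fun h => ha (e.injective h)
    · intro a _ b _ h
      exact e.injective h
    · intro b hb
      refine ⟨e.symm b, ?_, by simp⟩
      simp only [mem_erase, mem_univ, and_true] at hb ⊢
      intro h
      exact hb (by rw [← h]; simp)
    · intro a _
      simp
  rw [h1, prod_offdiag (fun i j => |v (e.symm i) - v (e.symm j)|) (fun i j => abs_sub_comm _ _)]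
  congr 1
  apply Finset.prod_congr rfl
  intro i _
  apply Finset.prod_congr rfl
  intro j _
  simp only [Function.comp]
  exact abs_sub_comm _ _

lemma pairProd_nonneg (v : ι → ℝ) : 0 ≤ pairProd v :=
  Finset.prod_nonneg fun _ _ => Finset.prod_nonneg fun _ _ => abs_nonneg _

lemma pairProd_pos {v : ι → ℝ} (hv : Function.Injective v) : 0 < pairProd v :=
  Finset.prod_pos fun i _ => Finset.prod_pos fun k hk => by
    rw [abs_pos, sub_ne_zero]
    intro h
    exact (Finset.mem_erase.1 hk).1 (hv h).symm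

lemma abs_det_coefMat {N : ℕ} (e : ι ≃ Fin N) {v : ι → ℝ} (hv : Function.Injective v) :
    |(coefMat e v).det| = √(pairProd v) := by
  have h1 := det_coefMat_mul e v
  have h2 := sq_vanMat_det e v
  have h3 : |(vanMat e v).det| = √(pairProd v) := by
    rw [← h2, Real.sqrt_sq (abs_nonneg _)]
  have h4 := pairProd_pos hv
  have h5 : 0 < √(pairProd v) := Real.sqrt_pos.2 h4
  rw [h3] at h1
  have h6 : √(pairProd v) * √(pairProd v) = pairProd v := Real.mul_self_sqrt h4.le
  exact mul_right_cancel₀ h5.ne' (h1.trans h6.symm)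

lemma momFun_eq_sum (a : ℕ → ℝ) (p : ℝ[X]) {N : ℕ} (h : p.natDegree < N) :
    momFun a p = ∑ k ∈ range N, p.coeff k * a k := by
  rw [momFun, sum_over_range' _ _ N h]
  intro n
  simp

lemma momFun_mul (a : ℕ → ℝ) (p q : ℝ[X]) {N M : ℕ} (hp : p.natDegree < N)
    (hq : q.natDegree < M) :
    momFun a (p * q) = ∑ k : Fin N, ∑ l : Fin M, p.coeff k * q.coeff l * a (k + l) := by
  have h1 : ∀ (r : ℝ[X]) (n : ℕ), momFun a (C 1 * r) = momFun a r := by intro r _; simp
  have hadd : ∀ r s : ℝ[X], momFun a (r + s) = momFun a r + momFun a s := by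
    intro r s
    simp only [momFun]
    rw [sum_add_index]
    · intro i; simp
    · intro i b c; ring
  have hmon : ∀ (k : ℕ) (c : ℝ), momFun a (monomial k c) = c * a k := by
    intro k c
    simp only [momFun]
    rw [sum_monomial_index]
    simp
  have hsum : ∀ {α : Type} (s : Finset α) (f : α → ℝ[X]),
      momFun a (∑ i ∈ s, f i) = ∑ i ∈ s, momFun a (f i) := by
    intro α s f
    induction s using Finset.cons_induction with
    | empty => simp [momFun]
    | cons x s hx ih => rw [Finset.sum_cons, Finset.sum_cons, hadd, ih]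
  have hp' : p = ∑ k : Fin N, monomial (k : ℕ) (p.coeff k) := by
    conv_lhs => rw [as_sum_range' p N hp]
    rw [Fin.sum_univ_eq_sum_range (fun k => monomial k (p.coeff k)) N]
  have hq' : q = ∑ l : Fin M, monomial (l : ℕ) (q.coeff l) := by
    conv_lhs => rw [as_sum_range' q M hq]
    rw [Fin.sum_univ_eq_sum_range (fun k => monomial k (q.coeff k)) M]
  conv_lhs => rw [hp', hq']
  rw [Finset.sum_mul_sum, hsum]
  apply Finset.sum_congr rfl
  intro k _
  rw [hsum]
  apply Finset.sum_congr rfl
  intro l _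
  rw [monomial_mul_monomial, hmon]

lemma nodeMat_eq (n m : ℕ) (a b : ℕ → ℝ) (x : Fin n → ℝ) (z : Fin m → ℝ)
    (s : Fin n ⊕ Fin m → ℝ) :
    nodeMat n m a b x z s
      = fromBlocks (coefMat (Equiv.refl (Fin n)) x) 0 0 (coefMat (Equiv.refl (Fin m)) z)
        * mixMat n m a b * (coefMat finSumFinEquiv s)ᵀ := by
  ext r c
  rw [mul_apply]
  simp only [mul_apply, transpose_apply]
  rcases r with i | i
  · simp only [nodeMat, Sum.elim_inl]
    rw [momFun_mul a _ _ (natDegree_nodePoly_lt (Equiv.refl (Fin n)) x i)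
      (natDegree_nodePoly_lt finSumFinEquiv s c), Finset.sum_comm]
    rw [← Equiv.sum_comp finSumFinEquiv]
    apply Finset.sum_congr rfl
    intro d _
    rw [Fintype.sum_sum_type]
    simp only [fromBlocks_apply₁₁, fromBlocks_apply₁₂, Matrix.zero_apply, zero_mul, sum_const_zero,
      add_zero]
    rw [Finset.sum_mul]
    apply Finset.sum_congr rfl
    intro k _
    simp only [mixMat, Sum.elim_inl, coefMat, Equiv.refl_apply]
    ring
  · simp only [nodeMat, Sum.elim_inr]
    rw [momFun_mul b _ _ (natDegree_nodePoly_lt (Equiv.refl (Fin m)) z i)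
      (natDegree_nodePoly_lt finSumFinEquiv s c), Finset.sum_comm]
    rw [← Equiv.sum_comp finSumFinEquiv]
    apply Finset.sum_congr rfl
    intro d _
    rw [Fintype.sum_sum_type]
    simp only [fromBlocks_apply₂₁, fromBlocks_apply₂₂, Matrix.zero_apply, zero_mul, sum_const_zero,
      zero_add]
    rw [Finset.sum_mul]
    apply Finset.sum_congr rfl
    intro k _
    simp only [mixMat, Sum.elim_inr, coefMat, Equiv.refl_apply]
    ring

/-- **Basis change.** -/
theorem abs_det_nodeMat (n m : ℕ) (a b : ℕ → ℝ) {x : Fin n → ℝ} {z : Fin m → ℝ}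
    {s : Fin n ⊕ Fin m → ℝ} (hx : Function.Injective x) (hz : Function.Injective z)
    (hs : Function.Injective s) :
    |(nodeMat n m a b x z s).det|
      = √(pairProd x) * √(pairProd z) * √(pairProd s) * |(mixMat n m a b).det| := by
  rw [nodeMat_eq, det_mul, det_mul, det_fromBlocks_zero₁₂, det_transpose, abs_mul, abs_mul,
    abs_mul, abs_det_coefMat _ hx, abs_det_coefMat _ hz, abs_det_coefMat _ hs]
  ring

/-- Leibniz bound with row maxima. -/
theorem abs_det_le_rows (M : Matrix ι ι ℝ) (B : ι → ℝ) (hM : ∀ i j, |M i j| ≤ B i) :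
    |M.det| ≤ (Fintype.card ι).factorial * ∏ i, B i := by
  rw [det_apply]
  refine (Finset.abs_sum_le_sum_abs _ _).trans ?_
  have h1 : ∀ σ ∈ (univ : Finset (Equiv.Perm ι)), |Equiv.Perm.sign σ • ∏ i, M (σ i) i|
      ≤ ∏ i, B i := by
    intro σ _
    have h2 : |Equiv.Perm.sign σ • ∏ i, M (σ i) i| = ∏ i, |M (σ i) i| := by
      rcases Int.units_eq_one_or (Equiv.Perm.sign σ) with h | h
      · rw [h, one_smul, Finset.abs_prod]
      · rw [h, Units.neg_smul, one_smul, abs_neg, Finset.abs_prod]
    rw [h2, ← Equiv.prod_comp σ B]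
    exact Finset.prod_le_prod (fun i _ => abs_nonneg _) (fun i _ => hM _ _)
  refine (Finset.sum_le_sum h1).trans ?_
  rw [Finset.sum_const, nsmul_eq_mul, Finset.card_univ, Fintype.card_perm]

/-- **The determinant bound by reference nodes.** -/
theorem abs_det_mixMat_le (n m : ℕ) (a b : ℕ → ℝ) {x : Fin n → ℝ} {z : Fin m → ℝ}
    {s : Fin n ⊕ Fin m → ℝ} (hx : Function.Injective x) (hz : Function.Injective z)
    (hs : Function.Injective s) (A : Fin n → ℝ) (B : Fin m → ℝ)
    (hA : ∀ i c, |momFun a (nodePoly x i * nodePoly s c)| ≤ A i)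
    (hB : ∀ i c, |momFun b (nodePoly z i * nodePoly s c)| ≤ B i) :
    √(pairProd x) * √(pairProd z) * √(pairProd s) * |(mixMat n m a b).det|
      ≤ (n + m).factorial * ((∏ i, A i) * ∏ i, B i) := by
  rw [← abs_det_nodeMat n m a b hx hz hs]
  have h := abs_det_le_rows (nodeMat n m a b x z s) (Sum.elim A B) (by
    rintro (i | i) c
    · exact hA i c
    · exact hB i c)
  rw [Fintype.prod_sum_type] at h
  simpa using h

end Pool.Agent.Z5
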