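import Pool.Agent.Z5.ArchH

/-!
# Sums of `log |s - x|` over the midpoints of a block of cells
-/

set_option autoImplicit false

open Finset

namespace Pool.Agent.Z5

/-- Midpoints of the cells of length `h` starting at `A`. -/
noncomputable def nd (A h : ℝ) (k : ℕ) : ℝ := A + (k + 1 / 2) * h

lemma sum_log_ap_le {y0 h : ℝ} (hh : 0 < h) (hy : 0 < y0) (M : ℕ) (T : Finset ℕ)
    (hT : T ⊆ range M) (hT' : M ≤ T.card + 1) :
    ∑ k ∈ T, Real.log (y0 + k * h) ≤ (HH (y0 + M * h) - HH y0 + 1) / h := by
  set g : ℕ → ℝ := fun k => (HH (y0 + (k + 1 : ℕ) * h) - HH (y0 + k * h)) / h with hg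
  have hpos : ∀ k : ℕ, 0 < y0 + k * h := fun k => by positivity
  have h1 : ∀ k : ℕ, Real.log (y0 + k * h) ≤ g k := by
    intro k
    rw [hg]
    simp only
    rw [le_div_iff₀ hh]
    have h2 := HH_sub_ge (hpos k) (y' := y0 + (k + 1 : ℕ) * h) (by push_cast; nlinarith)
    have h3 : y0 + (k + 1 : ℕ) * h - (y0 + k * h) = h := by push_cast; ring
    rw [h3] at h2
    linarith
  have h2 : ∀ k : ℕ, -(1 / h) ≤ g k := by
    intro k
    rw [hg]
    simp only
    rw [le_div_iff₀ hh]
    have h3 := HH_sub_ge_neg_one (hpos k).le (y' := y0 + (k + 1 : ℕ) * h)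
      (by push_cast; nlinarith)
    have h4 : -(1 / h) * h = -1 := by field_simp
    rw [h4]
    exact h3
  have h3 : ∑ k ∈ range M, g k = (HH (y0 + M * h) - HH y0) / h := by
    rw [hg]
    rw [← Finset.sum_div, Finset.sum_range_sub (fun k : ℕ => HH (y0 + k * h))]
    simp
  have h4 : ∑ k ∈ range M, g k = ∑ k ∈ T, g k + ∑ k ∈ range M \ T, g k := by
    rw [← Finset.sum_sdiff hT]; ring
  have h5 : (range M \ T).card ≤ 1 := by
    rw [Finset.card_sdiff_of_subset hT, card_range]; omega
  have h6 : -(1 / h) ≤ ∑ k ∈ range M \ T, g k := by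
    rcases Nat.eq_zero_or_pos (range M \ T).card with h0 | h0
    · rw [Finset.card_eq_zero.1 h0, Finset.sum_empty]
      have : 0 < 1 / h := by positivity
      linarith
    · obtain ⟨a, ha⟩ := Finset.card_eq_one.1 (le_antisymm h5 h0)
      rw [ha, Finset.sum_singleton]
      exact h2 a
  have h7 : ∑ k ∈ T, Real.log (y0 + k * h) ≤ ∑ k ∈ T, g k := Finset.sum_le_sum fun k _ => h1 k
  rw [add_div]
  linarith

lemma le_sum_log_ap {y0 h : ℝ} (hh : 0 < h) (hy : 0 < y0) (M : ℕ) :
    Real.log y0 + (HH (y0 + M * h) - HH y0) / h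
      ≤ ∑ k ∈ range (M + 1), Real.log (y0 + k * h) := by
  rw [Finset.sum_range_succ']
  have h1 : ∀ k : ℕ, (HH (y0 + (k + 1 : ℕ) * h) - HH (y0 + k * h)) / h
      ≤ Real.log (y0 + (k + 1 : ℕ) * h) := by
    intro k
    rw [div_le_iff₀ hh]
    have h2 := HH_sub_le (y := y0 + k * h) (y' := y0 + (k + 1 : ℕ) * h) (by positivity)
      (by positivity) (by push_cast; nlinarith)
    have h3 : y0 + (k + 1 : ℕ) * h - (y0 + k * h) = h := by push_cast; ring
    rw [h3] at h2
    linarith
  have h2 := Finset.sum_le_sum (fun k (_ : k ∈ range M) => h1 k)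
  rw [← Finset.sum_div, Finset.sum_range_sub (fun k : ℕ => HH (y0 + k * h))] at h2
  simp only [Nat.cast_zero, zero_mul, add_zero] at h2 ⊢
  linarith

/-- threshold index for an increasing sequence -/
lemma exists_thresh (x : ℕ → ℝ) (hx : StrictMono x) (s : ℝ) (m : ℕ) :
    ∃ k0 ≤ m, ∀ k < m, (k < k0 ↔ x k ≤ s) := by
  induction m with
  | zero => exact ⟨0, le_rfl, fun k hk => absurd hk (Nat.not_lt_zero k)⟩
  | succ m ih =>
    obtain ⟨k0, hk0, h⟩ := ih
    rcases lt_or_eq_of_le hk0 with h1 | h1
    · refine ⟨k0, by omega, fun k hk => ?_⟩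
      rcases Nat.lt_succ_iff_lt_or_eq.1 hk with h2 | h2
      · exact h k h2
      · subst h2
        have h3 : ¬ x k0 ≤ s := by rw [← h k0 h1]; exact lt_irrefl _
        constructor
        · intro h4; omega
        · intro h4
          exact absurd ((hx.monotone h1.le).trans h4) h3
    · by_cases h2 : x m ≤ s
      · refine ⟨m + 1, le_rfl, fun k hk => ⟨fun _ => ?_, fun _ => hk⟩⟩
        exact (hx.monotone (Nat.lt_succ_iff.1 hk)).trans h2
      · refine ⟨m, by omega, fun k hk => ?_⟩
        rcases Nat.lt_succ_iff_lt_or_eq.1 hk with h3 | h3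
        · rw [← h1]; exact h k h3
        · subst h3
          constructor
          · intro h4; exact absurd h4 (lt_irrefl _)
          · intro h4; exact absurd h4 h2

lemma nd_strictMono {A h : ℝ} (hh : 0 < h) : StrictMono (nd A h) := by
  intro a b hab
  have : (a : ℝ) < b := by exact_mod_cast hab
  simp only [nd]
  nlinarith

/-- The part of the block to the right of `s`. -/
lemma sum_right_le {A h s δ R : ℝ} (hh : 0 < h) (hδ : 0 ≤ δ) (hR : 1 ≤ R) (m : ℕ)
    (S : Finset ℕ) (hS : S ⊆ range m) (hS' : m ≤ S.card + 1)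
    (hA : |A - s| + h + δ ≤ R) (hB : |A + m * h - s| + h + δ ≤ R) :
    ∑ k ∈ S.filter (fun k => s < nd A h k), Real.log (|s - nd A h k| + δ)
      ≤ (HH (max (A + m * h - s) 0) - HH (max (A - s) 0)
          + (h / 2 + δ) * Real.log R + 4) / h := by
  have hlR : 0 ≤ Real.log R := Real.log_nonneg hR
  obtain ⟨k0, hk0, hk⟩ := exists_thresh (nd A h) (nd_strictMono hh) s m
  have hm0 : 0 ≤ max (A + m * h - s) 0 := le_max_right _ _
  have hmono : max (A - s) 0 ≤ max (A + m * h - s) 0 :=
    max_le_max (by have : 0 ≤ (m : ℝ) * h := by positivity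
                   linarith) le_rfl
  have hinc := HH_sub_ge_neg_one (le_max_right (A - s) 0) hmono
  rcases lt_or_eq_of_le hk0 with h1 | h1
  · -- there are right nodes
    have hright : s < nd A h k0 := by
      by_contra hcon
      exact absurd ((hk k0 h1).2 (not_lt.1 hcon)) (lt_irrefl _)
    set y0 : ℝ := nd A h k0 - s + δ with hy0
    have hy0pos : 0 < y0 := by rw [hy0]; linarith
    set T : Finset ℕ := (range (m - k0)).filter (fun k => k0 + k ∈ S) with hT
    have hsum : ∑ k ∈ S.filter (fun k => s < nd A h k), Real.log (|s - nd A h k| + δ)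
        = ∑ k ∈ T, Real.log (y0 + k * h) := by
      symm
      refine Finset.sum_bij (fun k _ => k0 + k) ?_ ?_ ?_ ?_
      · intro k hk'
        rw [hT, Finset.mem_filter, Finset.mem_range] at hk'
        rw [Finset.mem_filter]
        refine ⟨hk'.2, ?_⟩
        exact lt_of_lt_of_le hright ((nd_strictMono hh).monotone (Nat.le_add_right _ _))
      · intro a _ b _ hab
        exact Nat.add_left_cancel hab
      · intro b hb
        rw [Finset.mem_filter] at hb
        have hbm := Finset.mem_range.1 (hS hb.1)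
        have hbk : k0 ≤ b := by
          by_contra hcon
          exact absurd ((hk b hbm).1 (not_le.1 hcon)) (not_le.2 hb.2)
        refine ⟨b - k0, ?_, by omega⟩
        rw [hT, Finset.mem_filter, Finset.mem_range]
        refine ⟨by omega, ?_⟩
        rw [Nat.add_sub_cancel' hbk]
        exact hb.1
      · intro k hk'
        have h2 : s < nd A h (k0 + k) :=
          lt_of_lt_of_le hright ((nd_strictMono hh).monotone (Nat.le_add_right _ _))
        rw [abs_sub_comm, abs_of_pos (sub_pos.2 h2), hy0]
        congr 1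
        simp only [nd]
        push_cast
        ring
    rw [hsum]
    have hTsub : T ⊆ range (m - k0) := Finset.filter_subset _ _
    have hTcard : m - k0 ≤ T.card + 1 := by
      -- the complement of `T` injects into the complement of `S`
      have h3 : (range (m - k0) \ T).card ≤ (range m \ S).card := by
        refine Finset.card_le_card_of_injOn (fun k => k0 + k) ?_ ?_
        · intro k hk'
          rw [Finset.mem_coe, Finset.mem_sdiff, Finset.mem_range, hT, Finset.mem_filter,
            Finset.mem_range] at hk'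
          rw [Finset.mem_coe, Finset.mem_sdiff, Finset.mem_range]
          refine ⟨?_, fun hcon => hk'.2 ⟨hk'.1, hcon⟩⟩
          have h9 := hk'.1
          show k0 + k < m
          omega
        · intro a _ b _ hab
          exact Nat.add_left_cancel hab
      rw [Finset.card_sdiff_of_subset hTsub, Finset.card_sdiff_of_subset hS, card_range,
        card_range] at h3
      have h4 := Finset.card_le_card hS
      have h5 := Finset.card_le_card hTsub
      rw [card_range] at h4 h5
      omega
    refine (sum_log_ap_le hh hy0pos (m - k0) T hTsub hTcard).trans ?_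
    rw [div_le_div_iff_of_pos_right hh]
    have hcast : ((m - k0 : ℕ) : ℝ) = m - k0 := by rw [Nat.cast_sub hk0]
    have hend : y0 + ((m - k0 : ℕ) : ℝ) * h = (A + m * h - s) + (h / 2 + δ) := by
      rw [hy0, hcast]; simp only [nd]; ring
    rw [hend]
    have hk0m : (k0 : ℝ) + 1 ≤ m := by exact_mod_cast h1
    have hBs : 0 < A + m * h - s := by
      have : nd A h k0 ≤ A + m * h := by
        simp only [nd]; nlinarith
      linarith
    rw [max_eq_left hBs.le]
    rw [abs_of_pos hBs] at hB
    have h3 := abs_HH_sub_le (y := A + m * h - s) (y' := A + m * h - s + (h / 2 + δ)) hR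
      (by rw [abs_of_pos hBs]; linarith)
      (by rw [abs_of_pos (by linarith)]; linarith)
    have h4 : A + m * h - s + (h / 2 + δ) - (A + m * h - s) = h / 2 + δ := by ring
    rw [h4, abs_of_nonneg (by positivity : 0 ≤ h / 2 + δ)] at h3
    have h5 := (abs_le.1 h3).2
    have h6 : max (A - s) 0 ≤ y0 := by
      apply max_le _ hy0pos.le
      rw [hy0]
      simp only [nd]
      have : 0 ≤ (k0 : ℝ) * h := by positivity
      nlinarith
    have h7 := HH_sub_ge_neg_one (le_max_right (A - s) 0) h6
    linarith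
  · -- no right nodes
    have hempty : S.filter (fun k => s < nd A h k) = ∅ := by
      rw [Finset.filter_eq_empty_iff]
      intro k hkS
      have hkm := Finset.mem_range.1 (hS hkS)
      exact not_lt.2 ((hk k hkm).1 (h1 ▸ hkm))
    rw [hempty, Finset.sum_empty]
    apply div_nonneg _ hh.le
    have : 0 ≤ (h / 2 + δ) * Real.log R := mul_nonneg (by positivity) hlR
    linarith

lemma nd_reflect {A h : ℝ} {m k : ℕ} (hk : k < m) :
    nd (-(A + m * h)) h (m - 1 - k) = -nd A h k := by
  have : ((m - 1 - k : ℕ) : ℝ) = m - 1 - k := by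
    rw [Nat.cast_sub (by omega), Nat.cast_sub (by omega)]; simp
  simp only [nd, this]
  ring

/-- The part of the block to the left of `s`. -/
lemma sum_left_le {A h s δ R : ℝ} (hh : 0 < h) (hδ : 0 ≤ δ) (hR : 1 ≤ R) (m : ℕ)
    (S : Finset ℕ) (hS : S ⊆ range m) (hS' : m ≤ S.card + 1)
    (hA : |A - s| + h + δ ≤ R) (hB : |A + m * h - s| + h + δ ≤ R) :
    ∑ k ∈ S.filter (fun k => nd A h k < s), Real.log (|s - nd A h k| + δ)
      ≤ (HH (max (s - A) 0) - HH (max (s - (A + m * h)) 0)
          + (h / 2 + δ) * Real.log R + 4) / h := by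
  set S2 : Finset ℕ := S.image (fun k => m - 1 - k) with hS2
  have hinj : Set.InjOn (fun k => m - 1 - k) (S : Set ℕ) := by
    intro a ha b hb hab
    have h1 := Finset.mem_range.1 (hS ha)
    have h2 := Finset.mem_range.1 (hS hb)
    simp only at hab
    omega
  have hS2sub : S2 ⊆ range m := by
    intro k hk
    rw [hS2, Finset.mem_image] at hk
    obtain ⟨a, ha, rfl⟩ := hk
    have h1 := Finset.mem_range.1 (hS ha)
    rw [Finset.mem_range]; omega
  have hcard : S2.card = S.card := Finset.card_image_of_injOn hinj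
  have hA' : |-(A + m * h) - (-s)| + h + δ ≤ R := by
    have : -(A + m * h) - (-s) = -(A + m * h - s) := by ring
    rw [this, abs_neg]; exact hB
  have hB' : |-(A + m * h) + m * h - (-s)| + h + δ ≤ R := by
    have : -(A + m * h) + m * h - (-s) = -(A - s) := by ring
    rw [this, abs_neg]; exact hA
  have h1 := sum_right_le (A := -(A + m * h)) (s := -s) hh hδ hR m S2 hS2sub (by rw [hcard]; exact hS')
    hA' hB'
  have h2 : ∑ k ∈ S2.filter (fun k => -s < nd (-(A + m * h)) h k),
        Real.log (|-s - nd (-(A + m * h)) h k| + δ)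
      = ∑ k ∈ S.filter (fun k => nd A h k < s), Real.log (|s - nd A h k| + δ) := by
    symm
    refine Finset.sum_bij (fun k _ => m - 1 - k) ?_ ?_ ?_ ?_
    · intro k hk
      rw [Finset.mem_filter] at hk
      have hkm := Finset.mem_range.1 (hS hk.1)
      rw [Finset.mem_filter, nd_reflect hkm]
      exact ⟨Finset.mem_image_of_mem _ hk.1, by linarith [hk.2]⟩
    · intro a ha b hb hab
      exact hinj (Finset.mem_filter.1 ha).1 (Finset.mem_filter.1 hb).1 hab
    · intro b hb
      rw [Finset.mem_filter, hS2, Finset.mem_image] at hb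
      obtain ⟨⟨a, ha, rfl⟩, hb2⟩ := hb
      have ham := Finset.mem_range.1 (hS ha)
      rw [nd_reflect ham] at hb2
      exact ⟨a, Finset.mem_filter.2 ⟨ha, by linarith⟩, rfl⟩
    · intro k hk
      rw [Finset.mem_filter] at hk
      have hkm := Finset.mem_range.1 (hS hk.1)
      rw [nd_reflect hkm]
      congr 2
      rw [← abs_neg]
      congr 1
      ring
  rw [h2] at h1
  have h3 : -(A + m * h) + m * h - -s = s - A := by ring
  have h4 : -(A + m * h) - -s = s - (A + m * h) := by ring
  rw [h3, h4] at h1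
  exact h1

lemma HH_max_sub (u v : ℝ) :
    HH (max u 0) - HH (max v 0) + (HH (max (-v) 0) - HH (max (-u) 0)) = HH u - HH v := by
  rcases le_total 0 u with hu | hu <;> rcases le_total 0 v with hv | hv
  · rw [max_eq_left hu, max_eq_left hv, max_eq_right (by linarith : -v ≤ 0),
      max_eq_right (by linarith : -u ≤ 0)]; ring
  · rw [max_eq_left hu, max_eq_right hv, max_eq_left (by linarith : 0 ≤ -v),
      max_eq_right (by linarith : -u ≤ 0), HH_neg, HH_zero]; ring
  · rw [max_eq_right hu, max_eq_left hv, max_eq_right (by linarith : -v ≤ 0),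
      max_eq_left (by linarith : 0 ≤ -u), HH_neg, HH_zero]; ring
  · rw [max_eq_right hu, max_eq_right hv, max_eq_left (by linarith : 0 ≤ -v),
      max_eq_left (by linarith : 0 ≤ -u), HH_neg, HH_neg, HH_zero]; ring

/-- **Upper bound for a block sum** with at most one node removed. -/
lemma sum_block_le {A h s δ R : ℝ} (hh : 0 < h) (hδ : 0 ≤ δ) (hR : 1 ≤ R) (m : ℕ)
    (S : Finset ℕ) (hS : S ⊆ range m) (hS' : m ≤ S.card + 1)
    (hA : |A - s| + h + δ ≤ R) (hB : |A + m * h - s| + h + δ ≤ R) :
    ∑ k ∈ S, Real.log (|s - nd A h k| + δ)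
      ≤ (HH (A + m * h - s) - HH (A - s)) / h
        + ((h + 2 * δ) * Real.log R + 8) / h + Real.log R := by
  have hlR : 0 ≤ Real.log R := Real.log_nonneg hR
  have hδR : δ ≤ R := by
    have := abs_nonneg (A - s)
    linarith
  have h1 := sum_right_le hh hδ hR m S hS hS' hA hB
  have h2 := sum_left_le hh hδ hR m S hS hS' hA hB
  have h3 : ∑ k ∈ S.filter (fun k => nd A h k = s), Real.log (|s - nd A h k| + δ)
      ≤ Real.log R := by
    have h4 : (S.filter (fun k => nd A h k = s)).card ≤ 1 := by
      rw [Finset.card_le_one]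
      intro a ha b hb
      rw [Finset.mem_filter] at ha hb
      exact (nd_strictMono hh).injective (ha.2.trans hb.2.symm)
    have h5 : ∀ k ∈ S.filter (fun k => nd A h k = s), Real.log (|s - nd A h k| + δ)
        ≤ Real.log R := by
      intro k hk
      rw [Finset.mem_filter] at hk
      rw [hk.2, sub_self, abs_zero, zero_add]
      rcases hδ.eq_or_lt with h6 | h6
      · rw [← h6, Real.log_zero]; exact hlR
      · exact Real.log_le_log h6 hδR
    refine (Finset.sum_le_card_nsmul _ _ _ h5).trans ?_
    rw [nsmul_eq_mul]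
    have : ((S.filter (fun k => nd A h k = s)).card : ℝ) ≤ 1 := by exact_mod_cast h4
    nlinarith
  have hsplit : ∑ k ∈ S, Real.log (|s - nd A h k| + δ)
      = ∑ k ∈ S.filter (fun k => s < nd A h k), Real.log (|s - nd A h k| + δ)
        + (∑ k ∈ S.filter (fun k => nd A h k < s), Real.log (|s - nd A h k| + δ)
        + ∑ k ∈ S.filter (fun k => nd A h k = s), Real.log (|s - nd A h k| + δ)) := by
    rw [Finset.sum_filter, Finset.sum_filter, Finset.sum_filter, ← Finset.sum_add_distrib,
      ← Finset.sum_add_distrib]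
    apply Finset.sum_congr rfl
    intro k _
    rcases lt_trichotomy (nd A h k) s with h | h | h
    · rw [if_neg (not_lt.2 h.le), if_pos h, if_neg h.ne]; ring
    · rw [if_neg (by rw [h]; exact lt_irrefl _), if_neg (by rw [h]; exact lt_irrefl _),
        if_pos h]; ring
    · rw [if_pos h, if_neg (not_lt.2 h.le), if_neg h.ne']; ring
  rw [hsplit]
  have h4 := HH_max_sub (A + m * h - s) (A - s)
  have e1 : -(A - s) = s - A := by ring
  have e2 : -(A + m * h - s) = s - (A + m * h) := by ring
  rw [e1, e2] at h4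
  have h5 : (HH (A + m * h - s) - HH (A - s)) / h + ((h + 2 * δ) * Real.log R + 8) / h
      = (HH (max (A + m * h - s) 0) - HH (max (A - s) 0) + (h / 2 + δ) * Real.log R + 4) / h
        + (HH (max (s - A) 0) - HH (max (s - (A + m * h)) 0)
          + (h / 2 + δ) * Real.log R + 4) / h := by
    rw [← h4, ← add_div, ← add_div]
    congr 1
    ring
  linarith

end Pool.Agent.Z5
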