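import Pool.Agent.Z5.Defs
import Pool.Agent.Z5.ArchAlg
import Pool.Agent.Z5.ArchBlock

/-!
# Irrationality of `ζ(5)`: definitions for the archimedean bound

Everything is measured in the centred variable `T = t + L / 2`, `L + 1 = M p`, so `Y = 4 T ^ 2`;
reference densities are given in units of `p`.
-/

open Finset

namespace Pool.Agent.Z5

/-- A reference density, in units of `p`: block `i` is `[ed i, ed (i + 1)]` with density `d i`
(that is, spacing `1 / d i`); the total mass is the integer `s`. -/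
structure Ref where
  B : ℕ
  ed : ℕ → ℚ
  d : ℕ → ℚ
  s : ℕ
  B_pos : 0 < B
  ed_zero : 0 ≤ ed 0
  ed_lt : ∀ i < B, ed i < ed (i + 1)
  d_pos : ∀ i < B, 0 < d i
  total : ∑ i ∈ range B, d i * (ed (i + 1) - ed i) = s

namespace Ref

/-- number of nodes in the block `i` -/
def cnt (R : Ref) (p i : ℕ) : ℕ :=
  if i + 1 < R.B then ⌊R.d i * (R.ed (i + 1) - R.ed i) * p⌋₊
  else R.s * p - ∑ j ∈ range (R.B - 1), ⌊R.d j * (R.ed (j + 1) - R.ed j) * p⌋₊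

/-- index type of the nodes -/
abbrev Idx (R : Ref) (p : ℕ) : Type := (i : Fin R.B) × Fin (R.cnt p i)

/-- node, in the centred variable `T` -/
def node (R : Ref) (p : ℕ) (k : R.Idx p) : ℚ :=
  R.ed k.1 * p + ((k.2 : ℕ) + 1 / 2) / R.d k.1

/-- node, in the variable `Y = 4 T ^ 2` -/
def ynode (R : Ref) (p : ℕ) (k : R.Idx p) : ℚ := 4 * R.node p k ^ 2

/-- potential `∫ log |z ^ 2 - x ^ 2| d R(x)` -/
noncomputable def U (R : Ref) (z : ℝ) : ℝ :=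
  ∑ i ∈ range R.B, (R.d i : ℝ) *
    ((HH (R.ed (i + 1) - z) - HH (R.ed i - z)) + (HH (R.ed (i + 1) + z) - HH (R.ed i + z)))

/-- primitive of the potential, zero at `0` -/
noncomputable def V (R : Ref) (z : ℝ) : ℝ :=
  ∑ i ∈ range R.B, (R.d i : ℝ) *
    ((GG (R.ed i - z) - GG (R.ed (i + 1) - z)) + (GG (R.ed (i + 1) + z) - GG (R.ed i + z)))

/-- mutual energy `∫ U_{R'} dR` -/
noncomputable def energy (R R' : Ref) : ℝ :=
  ∑ i ∈ range R.B, (R.d i : ℝ) * (R'.V (R.ed (i + 1)) - R'.V (R.ed i))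

end Ref

/-- potential of the poles -/
noncomputable def poleU (M : ℕ) (E : ℕ → ℕ) (z : ℝ) : ℝ :=
  ∑ m ∈ range M, (E m : ℝ) * (HH (z - M / 2 + (m + 1)) - HH (z - M / 2 + m))

/-- primitive of the potential of the poles -/
noncomputable def poleV (M : ℕ) (E : ℕ → ℕ) (z : ℝ) : ℝ :=
  ∑ m ∈ range M, (E m : ℝ) * (GG (z - M / 2 + (m + 1)) - GG (z - M / 2 + m))

/-- potential seen by the `F` rows -/
noncomputable def gF (M : ℕ) (E : ℕ → ℕ) (X Z : Ref) (z : ℝ) : ℝ :=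
  2 * X.U z + Z.U z - poleU M E z

/-- potential seen by the `ρ` rows -/
noncomputable def gR (M : ℕ) (E : ℕ → ℕ) (X Z : Ref) (z : ℝ) : ℝ :=
  2 * Z.U z + X.U z - poleU M E z

/-- primitive of `gF` -/
noncomputable def primF (M : ℕ) (E : ℕ → ℕ) (X Z : Ref) (z : ℝ) : ℝ :=
  2 * X.V z + Z.V z - poleV M E z

/-- the archimedean constant, in units of `p ^ 2` -/
noncomputable def archConst (M : ℕ) (E : ℕ → ℕ) (X Z : Ref) (lF lR η : ℝ) : ℝ :=
  -(X.energy X + X.energy Z + Z.energy Z)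
    + (primF M E X Z (X.ed 1) - primF M E X Z (X.ed 0)) + ((X.ed 1 : ℝ) - X.ed 0) * η
    + (X.s - ((X.ed 1 : ℝ) - X.ed 0)) * lF + Z.s * lR
    + ((X.s : ℝ) ^ 2 + X.s * Z.s + (Z.s : ℝ) ^ 2) * Real.log 4

/-- the exponent of `p`, in units of `p ^ 2` -/
def kap (M : ℕ) (E : ℕ → ℕ) (s s' : ℕ) : ℝ :=
  (s : ℝ) ^ 2 + (s' : ℝ) ^ 2 + ((s : ℝ) + s') ^ 2 - ((s : ℝ) + s') * ∑ m ∈ range M, (E m : ℝ)

/-- the hypotheses on the reference densities: `X` for the `F` rows, `Z` for the `ρ` rows;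
`η` is a small error allowed in the saturated zone -/
structure ArchHyp (M : ℕ) (E : ℕ → ℕ) (X Z : Ref) (lF lR η : ℝ) : Prop where
  hM : 2 ≤ M
  prof : IsProf (M - 1) E
  hX0 : X.ed 0 = M / 2
  hX1 : X.d 0 = 1
  hXB : 2 ≤ X.B
  hZ : Z.ed Z.B < M / 2
  hdeg : 4 * X.s + 2 * Z.s < ∑ m ∈ range M, E m
  hF : ∀ z : ℝ, (X.ed 1 : ℝ) ≤ z → gF M E X Z z ≤ lF
  hR : ∀ z : ℝ, 0 ≤ z → z ≤ M / 2 → gR M E X Z z ≤ lR
  hη : 0 ≤ η
  hS : ∀ z : ℝ, (X.ed 0 : ℝ) ≤ z → z ≤ X.ed 1 → lF - η ≤ gF M E X Z z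

/-- `∏_{k ≠ i} (X - v k)` over the rationals -/
noncomputable def lagQ {ι : Type*} [Fintype ι] [DecidableEq ι] (v : ι → ℚ) (i : ι) :
    Polynomial ℚ :=
  ∏ k ∈ univ.erase i, (Polynomial.X - Polynomial.C (v k))

end Pool.Agent.Z5
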