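import Pool.Agent.Z5.ArchBlock

/-!
# Lower bound for the sum of `log (|s - x| - δ)` over the midpoints of a block of cells
-/

set_option autoImplicit false

open Finset

namespace Pool.Agent.Z5

/-- The constant in `sum_right_ge`. -/
noncomputable def lowC (h δ0 : ℝ) : ℝ := 2 * |Real.log δ0| + |Real.log (h / 2)| + 4 / h + 4

lemma sum_log_full_ge {y0 h δ δ0 : ℝ} (hh : 0 < h) (hδ : 0 ≤ δ) (hδh : 2 * δ ≤ h)
    (hy : 0 < y0) (J : ℕ) :
    Real.log δ0 + (Real.log (h / 2) + (HH (y0 + (J + 1) * h - δ) - HH (y0 + h - δ)) / h)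
      ≤ ∑ j ∈ range (J + 2), Real.log (max (y0 + j * h - δ) δ0) ∨ δ0 ≤ 0 := by
  rcases le_or_gt δ0 0 with h0 | h0
  · exact Or.inr h0
  left
  rw [Finset.sum_range_succ']
  have h1 : Real.log δ0 ≤ Real.log (max (y0 + ((0:ℕ):ℝ) * h - δ) δ0) :=
    Real.log_le_log h0 (le_max_right _ _)
  have hy1 : 0 < y0 + h - δ := by linarith
  have h2 := le_sum_log_ap (y0 := y0 + h - δ) hh hy1 J
  have h3 : ∑ k ∈ range (J + 1), Real.log (y0 + h - δ + k * h) ≤
      ∑ j ∈ range (J + 1), Real.log (max (y0 + ((j + 1 : ℕ) : ℝ) * h - δ) δ0) := by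
    refine Finset.sum_le_sum fun j _ => ?_
    have e : y0 + h - δ + j * h = y0 + ((j + 1 : ℕ) : ℝ) * h - δ := by push_cast; ring
    rw [e]
    refine Real.log_le_log ?_ (le_max_left _ _)
    rw [← e]
    positivity
  have h4 : Real.log (h / 2) ≤ Real.log (y0 + h - δ) :=
    Real.log_le_log (by positivity) (by linarith)
  have h5 : y0 + h - δ + (J : ℝ) * h = y0 + (J + 1) * h - δ := by ring
  rw [h5] at h2
  rw [add_comm (∑ j ∈ range (J + 1), _)]
  refine add_le_add h1 (le_trans ?_ (h2.trans h3))
  linarith

/-- The part of the block to the right of `s`, from below. -/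
lemma sum_right_ge {A h s δ δ0 R : ℝ} (hh : 0 < h) (hδ : 0 ≤ δ) (hδh : 2 * δ ≤ h)
    (hδ0 : 0 < δ0) (hR : 1 ≤ R) (m : ℕ)
    (S : Finset ℕ) (hS : S ⊆ range m) (hS' : m ≤ S.card + 1)
    (hfar : ∀ k ∈ S, δ0 ≤ |s - nd A h k| - δ)
    (hA : |A - s| + h + δ ≤ R) (hB : |A + m * h - s| + h + δ ≤ R) :
    (HH (max (A + m * h - s) 0) - HH (max (A - s) 0)) / h - lowC h δ0 * (1 + Real.log R)
      ≤ ∑ k ∈ S.filter (fun k => s < nd A h k), Real.log (|s - nd A h k| - δ) := by
  have hlR : 0 ≤ Real.log R := Real.log_nonneg hR
  have hl0 := abs_nonneg (Real.log δ0)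
  have hl1 := abs_nonneg (Real.log (h / 2))
  have hl2 := neg_abs_le (Real.log δ0)
  have hl3 := neg_abs_le (Real.log (h / 2))
  have hh4 : 0 < 4 / h := by positivity
  have hAR : |max (A - s) 0| ≤ R := by
    rw [abs_of_nonneg (le_max_right _ _)]
    exact max_le (by linarith [le_abs_self (A - s)]) (by linarith)
  have hBR : |max (A + m * h - s) 0| ≤ R := by
    rw [abs_of_nonneg (le_max_right _ _)]
    exact max_le (by linarith [le_abs_self (A + m * h - s)]) (by linarith)
  have hmh : 0 ≤ (m : ℝ) * h := by positivity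
  -- the constant
  have hC : ∀ c : ℝ, c ≤ 3 * Real.log R + 4 / h + (Real.log R + 2 * |Real.log δ0|
      + |Real.log (h / 2)|) → c ≤ lowC h δ0 * (1 + Real.log R) := by
    intro c hc
    refine hc.trans ?_
    unfold lowC
    have e : (2 * |Real.log δ0| + |Real.log (h / 2)| + 4 / h + 4) * (1 + Real.log R) =
        (2 * |Real.log δ0| + |Real.log (h / 2)| + 4 / h) + 4 * Real.log R + 4 +
        (2 * |Real.log δ0| + |Real.log (h / 2)| + 4 / h) * Real.log R := by ring
    rw [e]
    have : 0 ≤ (2 * |Real.log δ0| + |Real.log (h / 2)| + 4 / h) * Real.log R := by positivity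
    linarith
  -- short blocks
  have hshort : |max (A + m * h - s) 0 - max (A - s) 0| ≤ 2 * h →
      (HH (max (A + m * h - s) 0) - HH (max (A - s) 0)) / h ≤ 2 * Real.log R + 2 / h := by
    intro h1
    have h2 := abs_HH_sub_le hR hAR hBR
    have h3 := (abs_le.1 h2).2
    rw [div_le_iff₀ hh]
    have h4 : (2 * Real.log R + 2 / h) * h = 2 * h * Real.log R + 2 := by
      field_simp
    rw [h4]
    have h5 := mul_le_mul_of_nonneg_right h1 hlR
    linarith
  obtain ⟨k0, hk0, hk⟩ := exists_thresh (nd A h) (nd_strictMono hh) s m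
  rcases lt_or_eq_of_le hk0 with h1 | h1
  · -- there are right nodes
    have hright : s < nd A h k0 := by
      by_contra hcon
      exact absurd ((hk k0 h1).2 (not_lt.1 hcon)) (lt_irrefl _)
    set y0 : ℝ := nd A h k0 - s with hy0
    have hy0pos : 0 < y0 := by rw [hy0]; linarith
    have hcast : ((m - k0 : ℕ) : ℝ) = m - k0 := by rw [Nat.cast_sub hk0]
    have hk0m : (k0 : ℝ) + 1 ≤ m := by exact_mod_cast h1
    have hend : A + m * h - s = y0 + ((m - k0 : ℕ) : ℝ) * h - h / 2 := by
      rw [hy0, hcast]; simp only [nd]; ring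
    have hBs : 0 < A + m * h - s := by
      rw [hend, hcast]
      nlinarith
    have hBabs := hB
    rw [abs_of_pos hBs] at hBabs
    set T : Finset ℕ := (range (m - k0)).filter (fun k => k0 + k ∈ S) with hT
    set f : ℕ → ℝ := fun j => Real.log (max (y0 + j * h - δ) δ0) with hf
    have hsum : ∑ k ∈ S.filter (fun k => s < nd A h k), Real.log (|s - nd A h k| - δ)
        = ∑ k ∈ T, f k := by
      symm
      refine Finset.sum_bij (fun k _ => k0 + k) ?_ ?_ ?_ ?_
      · intro k hk'
        rw [hT, Finset.mem_filter, Finset.mem_range] at hk'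
        rw [Finset.mem_filter]
        refine ⟨hk'.2, ?_⟩
        exact lt_of_lt_of_le hright ((nd_strictMono hh).monotone (Nat.le_add_right _ _))
      · intro a _ b _ hab
        exact Nat.add_left_cancel hab
      · intro b hb
        rw [Finset.mem_filter] at hb
        have hbm := Finset.mem_range.1 (hS hb.1)
        have hbk : k0 ≤ b := by
          by_contra hcon
          exact absurd ((hk b hbm).1 (not_le.1 hcon)) (not_le.2 hb.2)
        refine ⟨b - k0, ?_, by omega⟩
        rw [hT, Finset.mem_filter, Finset.mem_range]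
        refine ⟨by omega, ?_⟩
        rw [Nat.add_sub_cancel' hbk]
        exact hb.1
      · intro k hk'
        rw [hT, Finset.mem_filter, Finset.mem_range] at hk'
        have h2 : s < nd A h (k0 + k) :=
          lt_of_lt_of_le hright ((nd_strictMono hh).monotone (Nat.le_add_right _ _))
        have h3 : |s - nd A h (k0 + k)| - δ = y0 + k * h - δ := by
          rw [abs_sub_comm, abs_of_pos (sub_pos.2 h2), hy0]
          simp only [nd]
          push_cast
          ring
        have h4 := hfar _ hk'.2
        rw [h3] at h4 ⊢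
        rw [hf]
        simp only
        rw [max_eq_left h4]
    rw [hsum]
    have hTsub : T ⊆ range (m - k0) := Finset.filter_subset _ _
    have hTcard : (range (m - k0) \ T).card ≤ 1 := by
      have h3 : (range (m - k0) \ T).card ≤ (range m \ S).card := by
        refine Finset.card_le_card_of_injOn (fun k => k0 + k) ?_ ?_
        · intro k hk'
          rw [Finset.mem_coe, Finset.mem_sdiff, Finset.mem_range, hT, Finset.mem_filter,
            Finset.mem_range] at hk'
          rw [Finset.mem_coe, Finset.mem_sdiff, Finset.mem_range]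
          refine ⟨?_, fun hcon => hk'.2 ⟨hk'.1, hcon⟩⟩
          have h9 := hk'.1
          show k0 + k < m
          omega
        · intro a _ b _ hab
          exact Nat.add_left_cancel hab
      rw [Finset.card_sdiff_of_subset hS, card_range] at h3
      have h4 := Finset.card_le_card hS
      rw [card_range] at h4
      omega
    have hfle : ∀ j ∈ range (m - k0), f j ≤ Real.log R + |Real.log δ0| := by
      intro j hj
      rw [Finset.mem_range] at hj
      have hj' : (j : ℝ) + 1 ≤ ((m - k0 : ℕ) : ℝ) := by exact_mod_cast hj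
      have h5 : y0 + j * h - δ ≤ R := by
        have h6 : (j : ℝ) * h + h ≤ ((m - k0 : ℕ) : ℝ) * h := by nlinarith
        linarith
      have hle := le_abs_self (Real.log δ0)
      rcases le_total (y0 + j * h - δ) δ0 with h7 | h7
      · rw [hf]
        simp only
        rw [max_eq_right h7]
        linarith
      · rw [hf]
        simp only
        rw [max_eq_left h7]
        have := Real.log_le_log (by linarith) h5
        linarith
    have hmiss : ∑ k ∈ range (m - k0) \ T, f k ≤ Real.log R + |Real.log δ0| := by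
      refine (Finset.sum_le_card_nsmul _ _ _ fun k hk' => hfle k (Finset.mem_sdiff.1 hk').1).trans ?_
      rw [nsmul_eq_mul]
      have h5 : ((range (m - k0) \ T).card : ℝ) ≤ 1 := by exact_mod_cast hTcard
      nlinarith
    have hsplit : ∑ k ∈ T, f k = ∑ k ∈ range (m - k0), f k - ∑ k ∈ range (m - k0) \ T, f k := by
      rw [← Finset.sum_sdiff hTsub]; ring
    rw [hsplit]
    rcases Nat.lt_or_ge (m - k0) 2 with h2 | h2
    · -- one right node
      have h3 : m - k0 = 1 := by omega
      have hf0 : Real.log δ0 ≤ ∑ k ∈ range (m - k0), f k := by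
        rw [h3, Finset.sum_range_one]
        exact Real.log_le_log hδ0 (le_max_right _ _)
      have hend' : A + m * h - s = y0 + h / 2 := by
        rw [hend, h3]; push_cast; ring
      have hs : |max (A + m * h - s) 0 - max (A - s) 0| ≤ 2 * h := by
        rcases Nat.eq_zero_or_pos k0 with h4 | h4
        · have hm : m = 1 := by omega
          have e : A + m * h - s = (A - s) + h := by rw [hm]; push_cast; ring
          rw [e]
          refine (abs_max_sub_max_le_abs _ _ _).trans ?_
          rw [add_sub_cancel_left, abs_of_pos hh]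
          linarith
        · have hkm : k0 - 1 < m := by omega
          have h5 : nd A h (k0 - 1) ≤ s := (hk (k0 - 1) hkm).1 (by omega)
          have h6 : nd A h k0 = nd A h (k0 - 1) + h := by
            have : ((k0 - 1 : ℕ) : ℝ) = k0 - 1 := by rw [Nat.cast_sub h4]; simp
            simp only [nd, this]
            ring
          have h7 : y0 ≤ h := by rw [hy0, h6]; linarith
          have h8 : A - s ≤ 0 := by
            have : A ≤ nd A h (k0 - 1) := by
              simp only [nd]
              have : 0 ≤ ((k0 - 1 : ℕ) : ℝ) * h := by positivity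
              nlinarith
            linarith
          rw [max_eq_right h8, max_eq_left hBs.le, sub_zero, abs_of_pos hBs, hend']
          linarith
      have h4 := hshort hs
      have h5 := hC (2 * Real.log R + 2 / h + (Real.log R + 2 * |Real.log δ0|)) (by
        have : 2 / h ≤ 4 / h := by gcongr; norm_num
        linarith)
      linarith
    · -- at least two right nodes
      obtain ⟨J, hJ⟩ : ∃ J, m - k0 = J + 2 := ⟨m - k0 - 2, by omega⟩
      have hfull := (sum_log_full_ge (δ0 := δ0) hh hδ hδh hy0pos J).resolve_right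
        (not_le.2 hδ0)
      have hJc : ((m - k0 : ℕ) : ℝ) = J + 2 := by rw [hJ]; push_cast; ring
      have hend' : A + m * h - s = y0 + (J + 1) * h - δ + (h / 2 + δ) := by
        rw [hend, hJc]; ring
      have hJh : 0 ≤ (J : ℝ) * h := by positivity
      have hJeq : ((J : ℝ) + 1) * h = J * h + h := by ring
      have e1 : |y0 + (J + 1) * h - δ| ≤ R := by
        rw [abs_of_pos (by rw [hJeq]; linarith)]
        linarith
      have e2 : |y0 + h - δ| ≤ R := by
        rw [abs_of_pos (by linarith)]
        rw [hJeq] at hend'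
        linarith
      have e3 := abs_HH_sub_le hR e1 (by rw [abs_of_pos hBs]; linarith :
        |A + m * h - s| ≤ R)
      have e4 : A + m * h - s - (y0 + (J + 1) * h - δ) = h / 2 + δ := by
        rw [hend']; ring
      rw [e4, abs_of_nonneg (by positivity : 0 ≤ h / 2 + δ)] at e3
      have e5 := (abs_le.1 e3).2
      have e6 : |y0 + h - δ - max (A - s) 0| ≤ 2 * h := by
        rcases Nat.eq_zero_or_pos k0 with h4 | h4
        · have h5 : y0 = (A - s) + h / 2 := by
            rw [hy0, h4]; simp only [nd]; push_cast; ring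
          rcases le_total (A - s) 0 with h6 | h6
          · rw [max_eq_right h6, sub_zero, abs_of_pos (by linarith)]
            linarith
          · rw [max_eq_left h6, abs_of_nonneg (by linarith)]
            linarith
        · have hkm : k0 - 1 < m := by omega
          have h5 : nd A h (k0 - 1) ≤ s := (hk (k0 - 1) hkm).1 (by omega)
          have h6 : nd A h k0 = nd A h (k0 - 1) + h := by
            have : ((k0 - 1 : ℕ) : ℝ) = k0 - 1 := by rw [Nat.cast_sub h4]; simp
            simp only [nd, this]
            ring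
          have h7 : y0 ≤ h := by rw [hy0, h6]; linarith
          have h8 : A - s ≤ 0 := by
            have : A ≤ nd A h (k0 - 1) := by
              simp only [nd]
              have : 0 ≤ ((k0 - 1 : ℕ) : ℝ) * h := by positivity
              nlinarith
            linarith
          rw [max_eq_right h8, sub_zero, abs_of_pos (by linarith)]
          linarith
      have e7 := abs_HH_sub_le hR hAR e2
      have e8 := (abs_le.1 e7).2
      have e9 : |y0 + h - δ - max (A - s) 0| * Real.log R ≤ 2 * h * Real.log R :=
        mul_le_mul_of_nonneg_right e6 hlR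
      have e10 : (h / 2 + δ) * Real.log R ≤ h * Real.log R :=
        mul_le_mul_of_nonneg_right (by linarith) hlR
      rw [max_eq_left hBs.le]
      have e11 : (HH (A + m * h - s) - HH (max (A - s) 0)) / h ≤
          (HH (y0 + (J + 1) * h - δ) - HH (y0 + h - δ)) / h + (3 * Real.log R + 4 / h) := by
        have e12 : (HH (y0 + (J + 1) * h - δ) - HH (y0 + h - δ)) / h + (3 * Real.log R + 4 / h) =
            (HH (y0 + (J + 1) * h - δ) - HH (y0 + h - δ) + (3 * h * Real.log R + 4)) / h := by
          field_simp
        rw [e12, div_le_div_iff_of_pos_right hh]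
        linarith
      rw [hJ] at hmiss ⊢
      have h5 := hC (3 * Real.log R + 4 / h + (Real.log R + 2 * |Real.log δ0|
        + |Real.log (h / 2)|)) le_rfl
      linarith
  · -- no right nodes
    have hempty : S.filter (fun k => s < nd A h k) = ∅ := by
      rw [Finset.filter_eq_empty_iff]
      intro k hkS
      have hkm := Finset.mem_range.1 (hS hkS)
      exact not_lt.2 ((hk k hkm).1 (h1 ▸ hkm))
    rw [hempty, Finset.sum_empty]
    have hs : |max (A + m * h - s) 0 - max (A - s) 0| ≤ 2 * h := by
      rcases Nat.eq_zero_or_pos m with h4 | h4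
      · rw [h4]
        simp only [Nat.cast_zero, zero_mul, add_zero, sub_self, abs_zero]
        linarith
      · have h5 : nd A h (m - 1) ≤ s := (hk (m - 1) (by omega)).1 (by omega)
        have h6 : A + m * h = nd A h (m - 1) + h / 2 := by
          have : ((m - 1 : ℕ) : ℝ) = m - 1 := by rw [Nat.cast_sub h4]; simp
          simp only [nd, this]
          ring
        have h7 : max (A + m * h - s) 0 ≤ h / 2 := max_le (by rw [h6]; linarith) (by linarith)
        have h8 : max (A - s) 0 ≤ max (A + m * h - s) 0 :=
          max_le_max (by linarith) le_rfl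
        have h9 : 0 ≤ max (A - s) 0 := le_max_right _ _
        rw [abs_of_nonneg (by linarith)]
        linarith
    have h4 := hshort hs
    have h5 := hC (2 * Real.log R + 2 / h) (by
      have : 2 / h ≤ 4 / h := by gcongr; norm_num
      linarith)
    linarith

/-- The part of the block to the left of `s`, from below. -/
lemma sum_left_ge {A h s δ δ0 R : ℝ} (hh : 0 < h) (hδ : 0 ≤ δ) (hδh : 2 * δ ≤ h)
    (hδ0 : 0 < δ0) (hR : 1 ≤ R) (m : ℕ)
    (S : Finset ℕ) (hS : S ⊆ range m) (hS' : m ≤ S.card + 1)
    (hfar : ∀ k ∈ S, δ0 ≤ |s - nd A h k| - δ)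
    (hA : |A - s| + h + δ ≤ R) (hB : |A + m * h - s| + h + δ ≤ R) :
    (HH (max (s - A) 0) - HH (max (s - (A + m * h)) 0)) / h - lowC h δ0 * (1 + Real.log R)
      ≤ ∑ k ∈ S.filter (fun k => nd A h k < s), Real.log (|s - nd A h k| - δ) := by
  set S2 : Finset ℕ := S.image (fun k => m - 1 - k) with hS2
  have hinj : Set.InjOn (fun k => m - 1 - k) (S : Set ℕ) := by
    intro a ha b hb hab
    have h1 := Finset.mem_range.1 (hS ha)
    have h2 := Finset.mem_range.1 (hS hb)
    simp only at hab
    omega
  have hS2sub : S2 ⊆ range m := by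
    intro k hk
    rw [hS2, Finset.mem_image] at hk
    obtain ⟨a, ha, rfl⟩ := hk
    have h1 := Finset.mem_range.1 (hS ha)
    rw [Finset.mem_range]; omega
  have hcard : S2.card = S.card := Finset.card_image_of_injOn hinj
  have hA' : |-(A + m * h) - (-s)| + h + δ ≤ R := by
    have : -(A + m * h) - (-s) = -(A + m * h - s) := by ring
    rw [this, abs_neg]; exact hB
  have hB' : |-(A + m * h) + m * h - (-s)| + h + δ ≤ R := by
    have : -(A + m * h) + m * h - (-s) = -(A - s) := by ring
    rw [this, abs_neg]; exact hA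
  have habs : ∀ k < m, |-s - nd (-(A + m * h)) h (m - 1 - k)| = |s - nd A h k| := by
    intro k hk
    rw [nd_reflect hk, ← abs_neg]
    congr 1
    ring
  have hfar' : ∀ k ∈ S2, δ0 ≤ |-s - nd (-(A + m * h)) h k| - δ := by
    intro k hk
    rw [hS2, Finset.mem_image] at hk
    obtain ⟨a, ha, rfl⟩ := hk
    rw [habs a (Finset.mem_range.1 (hS ha))]
    exact hfar a ha
  have h1 := sum_right_ge (A := -(A + m * h)) (s := -s) hh hδ hδh hδ0 hR m S2 hS2sub
    (by rw [hcard]; exact hS') hfar' hA' hB'
  have h2 : ∑ k ∈ S2.filter (fun k => -s < nd (-(A + m * h)) h k),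
        Real.log (|-s - nd (-(A + m * h)) h k| - δ)
      = ∑ k ∈ S.filter (fun k => nd A h k < s), Real.log (|s - nd A h k| - δ) := by
    symm
    refine Finset.sum_bij (fun k _ => m - 1 - k) ?_ ?_ ?_ ?_
    · intro k hk
      rw [Finset.mem_filter] at hk
      have hkm := Finset.mem_range.1 (hS hk.1)
      rw [Finset.mem_filter, nd_reflect hkm]
      exact ⟨Finset.mem_image_of_mem _ hk.1, by linarith [hk.2]⟩
    · intro a ha b hb hab
      exact hinj (Finset.mem_filter.1 ha).1 (Finset.mem_filter.1 hb).1 hab
    · intro b hb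
      rw [Finset.mem_filter, hS2, Finset.mem_image] at hb
      obtain ⟨⟨a, ha, rfl⟩, hb2⟩ := hb
      have ham := Finset.mem_range.1 (hS ha)
      rw [nd_reflect ham] at hb2
      exact ⟨a, Finset.mem_filter.2 ⟨ha, by linarith⟩, rfl⟩
    · intro k hk
      rw [Finset.mem_filter] at hk
      have hkm := Finset.mem_range.1 (hS hk.1)
      rw [habs k hkm]
  rw [h2] at h1
  have h3 : -(A + m * h) + m * h - -s = s - A := by ring
  have h4 : -(A + m * h) - -s = s - (A + m * h) := by ring
  rw [h3, h4] at h1
  exact h1

/-- **Lower bound for a block sum** with at most one node removed. -/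
theorem sum_block_ge {h δ δ0 : ℝ} (hh : 0 < h) (hδ : 0 ≤ δ) (hδh : 2 * δ ≤ h) (hδ0 : 0 < δ0) :
    ∃ C : ℝ, ∀ (A s R : ℝ) (m : ℕ) (S : Finset ℕ), 1 ≤ R → S ⊆ range m → m ≤ S.card + 1 →
    (∀ k ∈ S, δ0 ≤ |s - nd A h k| - δ) → |A - s| + h + δ ≤ R → |A + m * h - s| + h + δ ≤ R →
    (HH (A + m * h - s) - HH (A - s)) / h - C * (1 + Real.log R)
      ≤ ∑ k ∈ S, Real.log (|s - nd A h k| - δ) := by
  refine ⟨2 * lowC h δ0, fun A s R m S hR hS hS' hfar hA hB => ?_⟩
  have h1 := sum_right_ge hh hδ hδh hδ0 hR m S hS hS' hfar hA hB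
  have h2 := sum_left_ge hh hδ hδh hδ0 hR m S hS hS' hfar hA hB
  have hsplit : ∑ k ∈ S, Real.log (|s - nd A h k| - δ)
      = ∑ k ∈ S.filter (fun k => s < nd A h k), Real.log (|s - nd A h k| - δ)
        + ∑ k ∈ S.filter (fun k => nd A h k < s), Real.log (|s - nd A h k| - δ) := by
    rw [Finset.sum_filter, Finset.sum_filter, ← Finset.sum_add_distrib]
    apply Finset.sum_congr rfl
    intro k hk
    rcases lt_trichotomy (nd A h k) s with h | h | h
    · rw [if_neg (not_lt.2 h.le), if_pos h]; ring
    · exfalso
      have h3 := hfar k hk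
      rw [h, sub_self, abs_zero] at h3
      linarith
    · rw [if_pos h, if_neg (not_lt.2 h.le)]; ring
  rw [hsplit]
  have h4 := HH_max_sub (A + m * h - s) (A - s)
  have e1 : -(A - s) = s - A := by ring
  have e2 : -(A + m * h - s) = s - (A + m * h) := by ring
  rw [e1, e2] at h4
  have h5 : (HH (A + m * h - s) - HH (A - s)) / h
      = (HH (max (A + m * h - s) 0) - HH (max (A - s) 0)) / h
        + (HH (max (s - A) 0) - HH (max (s - (A + m * h)) 0)) / h := by
    rw [← h4, ← add_div]
  rw [h5]
  linarith

end Pool.Agent.Z5
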