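import Pool.Agent.Z5.ArchDefs
import Pool.Agent.Z5.ArchBlockLow

/-!
# Z5: sums over the poles, from below
-/

open Finset

namespace Pool.Agent.Z5

/-- one block of poles -/
private lemma pole_block_ge : ∃ C : ℝ, 0 ≤ C ∧ ∀ (M m p : ℕ) (σ : ℝ) (S : Finset ℕ),
    m < M → (M : ℝ) * p + 2 ≤ (p : ℝ) ^ 3 → 2 ≤ p →
    |σ| ≤ (p : ℝ) ^ 3 → S ⊆ range (M * p) → M * p ≤ S.card + 1 →
    (∀ u ∈ S, 1 ≤ |σ - (M * p - 1) / 2 + u|) →
    p * (HH (σ / p - M / 2 + (m + 1)) - HH (σ / p - M / 2 + m)) + p * Real.log p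
        - C * (1 + 4 * Real.log p)
      ≤ ∑ u ∈ S.filter (fun u => u / p = m), Real.log (|σ - (M * p - 1) / 2 + u| - 1 / 4) := by
  obtain ⟨C, hC⟩ := sum_block_ge (h := 1) (δ := 1 / 4) (δ0 := 3 / 4) one_pos (by norm_num)
    (by norm_num) (by norm_num)
  refine ⟨max C 0, le_max_right _ _, fun M m p σ S hm hMp hp hσ hS hcard hsep => ?_⟩
  have hp0 : (0 : ℝ) < p := by exact_mod_cast (by omega : 0 < p)
  have hp2 : (2 : ℝ) ≤ p := by exact_mod_cast hp
  have hpN : 0 < p := by omega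
  set K : Finset ℕ := (range p).filter (fun k => m * p + k ∈ S) with hK
  -- the block as an image
  have himg : S.filter (fun u => u / p = m) = K.image (fun k => m * p + k) := by
    ext u
    simp only [Finset.mem_filter, Finset.mem_image, hK, Finset.mem_range]
    constructor
    · rintro ⟨hu, hum⟩
      refine ⟨u % p, ⟨Nat.mod_lt _ hpN, ?_⟩, ?_⟩
      · have := Nat.div_add_mod u p
        rw [hum] at this
        rw [mul_comm m p, this]
        exact hu
      · have := Nat.div_add_mod u p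
        rw [hum] at this
        rw [mul_comm m p, this]
    · rintro ⟨k, ⟨hk, hkS⟩, rfl⟩
      refine ⟨hkS, ?_⟩
      rw [mul_comm m p, Nat.mul_add_div hpN, Nat.div_eq_of_lt hk, add_zero]
  have hinj : Set.InjOn (fun k => m * p + k) (K : Set ℕ) := by
    intro a _ b _ hab
    simpa using hab
  rw [himg, Finset.sum_image hinj]
  -- cardinality of the block
  have hKcard : p ≤ K.card + 1 := by
    by_contra hcon
    push Not at hcon
    have h1 : ((range (M * p)) \ S).card ≤ 1 := by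
      rw [Finset.card_sdiff_of_subset hS, card_range]
      omega
    have h2 : (((range p) \ K).image (fun k => m * p + k)) ⊆ (range (M * p)) \ S := by
      intro u hu
      rw [Finset.mem_image] at hu
      obtain ⟨k, hk, rfl⟩ := hu
      rw [Finset.mem_sdiff, Finset.mem_range] at hk
      rw [Finset.mem_sdiff, Finset.mem_range]
      constructor
      · have h3 : m * p + k < (m + 1) * p := by
          rw [add_mul, one_mul]; omega
        exact lt_of_lt_of_le h3 (Nat.mul_le_mul_right p hm)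
      · intro hkS
        exact hk.2 (by rw [hK, Finset.mem_filter, Finset.mem_range]; exact ⟨hk.1, hkS⟩)
    have h3 := Finset.card_le_card h2
    rw [Finset.card_image_of_injective _ (fun a b hab => by simpa using hab),
      Finset.card_sdiff_of_subset (by rw [hK]; exact Finset.filter_subset _ _ : K ⊆ range p),
      card_range] at h3
    omega
  have hm1 : (m : ℝ) + 1 ≤ M := by exact_mod_cast hm
  have hm0 : (0 : ℝ) ≤ m := Nat.cast_nonneg m
  have hnd : ∀ k : ℕ, |(-σ) - nd ((m - M / 2 : ℝ) * p) 1 k|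
      = |σ - (M * p - 1) / 2 + ((m * p + k : ℕ) : ℝ)| := by
    intro k
    unfold nd
    rw [← abs_neg]
    congr 1
    push_cast
    ring
  have hlogR : Real.log ((p : ℝ) ^ 4) = 4 * Real.log p := by
    rw [Real.log_pow]; norm_num
  have hp4 : (p : ℝ) ^ 3 * 2 ≤ (p : ℝ) ^ 4 := by
    have : (p : ℝ) ^ 4 = (p : ℝ) ^ 3 * p := by ring
    rw [this]
    exact mul_le_mul_of_nonneg_left hp2 (by positivity)
  have hAabs : |(m - M / 2 : ℝ) * p| ≤ M * p - p / 1 + (M : ℝ) * 0 + p ∧
      |(m - M / 2 : ℝ) * p + p| ≤ M * p := by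
    constructor
    · rw [abs_le]
      constructor <;> nlinarith
    · rw [abs_le]
      constructor <;> nlinarith
  have hA1 : |(m - M / 2 : ℝ) * p| ≤ M * p := by
    have := hAabs.1
    linarith
  have hA2 := hAabs.2
  have hmain := hC ((m - M / 2 : ℝ) * p) (-σ) ((p : ℝ) ^ 4) p K (one_le_pow₀ (by linarith))
    (Finset.filter_subset _ _) hKcard
    (fun k hk => by
      rw [hnd k]
      have h1 := hsep (m * p + k) (Finset.mem_filter.1 hk).2
      linarith)
    (by
      have h1 : |(m - M / 2 : ℝ) * p - (-σ)| ≤ |(m - M / 2 : ℝ) * p| + |σ| := by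
        rw [sub_neg_eq_add]; exact abs_add_le _ _
      linarith)
    (by
      have h1 : |(m - M / 2 : ℝ) * p + p * 1 - (-σ)| ≤ |(m - M / 2 : ℝ) * p + p| + |σ| := by
        rw [sub_neg_eq_add, mul_one]; exact abs_add_le _ _
      linarith)
  have hsum : ∑ k ∈ K, Real.log (|(-σ) - nd ((m - M / 2 : ℝ) * p) 1 k| - 1 / 4)
      = ∑ k ∈ K, Real.log (|σ - (M * p - 1) / 2 + ((m * p + k : ℕ) : ℝ)| - 1 / 4) :=
    Finset.sum_congr rfl fun k _ => by rw [hnd k]
  rw [hsum, hlogR, div_one] at hmain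
  have hs1 : HH ((m - M / 2 : ℝ) * p + p * 1 - (-σ))
      = p * HH (σ / p - M / 2 + (m + 1)) + p * (σ / p - M / 2 + (m + 1)) * Real.log p := by
    rw [← HH_scale hp0]
    congr 1
    field_simp
    ring
  have hs2 : HH ((m - M / 2 : ℝ) * p - (-σ))
      = p * HH (σ / p - M / 2 + m) + p * (σ / p - M / 2 + m) * Real.log p := by
    rw [← HH_scale hp0]
    congr 1
    field_simp
    ring
  rw [hs1, hs2] at hmain
  have hlog : 0 ≤ Real.log p := Real.log_nonneg (by linarith)
  have hCC : C * (1 + 4 * Real.log p) ≤ max C 0 * (1 + 4 * Real.log p) :=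
    mul_le_mul_of_nonneg_right (le_max_left _ _) (by linarith)
  refine le_trans ?_ hmain
  have : p * (σ / p - M / 2 + (m + 1)) * Real.log p - p * (σ / p - M / 2 + m) * Real.log p
      = p * Real.log p := by ring
  linarith

theorem pole_ge (M : ℕ) (E : ℕ → ℕ) : ∃ C : ℝ, ∃ p0 : ℕ, ∀ p : ℕ, p0 ≤ p → ∀ σ : ℝ,
    |σ| ≤ (p : ℝ) ^ 3 → ∀ S : Finset ℕ, S ⊆ range (M * p) → M * p ≤ S.card + 1 →
    (∀ u ∈ S, 1 ≤ |σ - (M * p - 1) / 2 + u|) →
    p * poleU M E (σ / p) + (∑ m ∈ range M, (E m : ℝ)) * p * Real.log p - C * Real.log p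
      ≤ ∑ u ∈ S, (E (u / p) : ℝ) * Real.log (|σ - (M * p - 1) / 2 + u| - 1 / 4) := by
  obtain ⟨C, hC0, hC⟩ := pole_block_ge
  refine ⟨(∑ m ∈ range M, (E m : ℝ)) * (C * 6), M + 3, fun p hp σ hσ S hS hcard hsep => ?_⟩
  have hpM : (M : ℝ) + 3 ≤ p := by exact_mod_cast hp
  have hM0 : (0 : ℝ) ≤ M := Nat.cast_nonneg M
  have hp3 : (3 : ℝ) ≤ p := by linarith
  have hpos : (0 : ℝ) < p := by linarith
  have hpN : 0 < p := by omega
  have hMp : (M : ℝ) * p + 2 ≤ (p : ℝ) ^ 3 := by nlinarith [mul_nonneg hM0 hpos.le, sq_nonneg (p : ℝ)]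
  -- split by blocks
  have hsplit : ∑ u ∈ S, (E (u / p) : ℝ) * Real.log (|σ - (M * p - 1) / 2 + u| - 1 / 4)
      = ∑ m ∈ range M, (E m : ℝ) *
        ∑ u ∈ S.filter (fun u => u / p = m), Real.log (|σ - (M * p - 1) / 2 + u| - 1 / 4) := by
    rw [← Finset.sum_fiberwise_of_maps_to (s := S) (t := range M) (g := fun u => u / p)
      (fun u hu => by
        rw [Finset.mem_range, Nat.div_lt_iff_lt_mul hpN]
        exact Finset.mem_range.1 (hS hu))]
    refine Finset.sum_congr rfl fun m _ => ?_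
    rw [Finset.mul_sum]
    refine Finset.sum_congr rfl fun u hu => ?_
    rw [(Finset.mem_filter.1 hu).2]
  rw [hsplit]
  have hlog1 : 1 ≤ 2 * Real.log p := by
    have h1 : Real.log 3 ≤ Real.log p := Real.log_le_log (by norm_num) hp3
    have h2 : (1 : ℝ) / 2 ≤ Real.log 3 := by
      rw [Real.le_log_iff_exp_le (by norm_num)]
      have h3 : Real.exp (1 / 2) ≤ Real.exp 1 := Real.exp_le_exp.2 (by norm_num)
      have h4 := Real.exp_one_lt_d9
      linarith
    linarith
  have hterm : ∀ m ∈ range M,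
      (E m : ℝ) * (p * (HH (σ / p - M / 2 + (m + 1)) - HH (σ / p - M / 2 + m))
        + p * Real.log p - C * 6 * Real.log p)
      ≤ (E m : ℝ) * ∑ u ∈ S.filter (fun u => u / p = m),
          Real.log (|σ - (M * p - 1) / 2 + u| - 1 / 4) := by
    intro m hm
    refine mul_le_mul_of_nonneg_left ?_ (Nat.cast_nonneg _)
    refine le_trans ?_ (hC M m p σ S (Finset.mem_range.1 hm) hMp (by omega) hσ hS hcard hsep)
    have : C * (1 + 4 * Real.log p) ≤ C * (6 * Real.log p) :=
      mul_le_mul_of_nonneg_left (by linarith) hC0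
    linarith
  refine le_trans (le_of_eq ?_) (Finset.sum_le_sum hterm)
  unfold poleU
  rw [Finset.mul_sum, Finset.sum_mul, Finset.sum_mul, Finset.sum_mul, Finset.sum_mul,
    ← Finset.sum_add_distrib, ← Finset.sum_sub_distrib]
  refine Finset.sum_congr rfl fun m _ => ?_
  ring

theorem poleU_neg {M : ℕ} {E : ℕ → ℕ} (hM : 2 ≤ M) (hE : IsProf (M - 1) E) (z : ℝ) :
    poleU M E (-z) = poleU M E z := by
  unfold poleU
  rw [← Finset.sum_range_reflect]
  refine Finset.sum_congr rfl fun m hm => ?_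
  have hmM := Finset.mem_range.1 hm
  have h1 : E (M - 1 - m) = E m := hE.symm m (by omega)
  have h2 : ((M - 1 - m : ℕ) : ℝ) = (M : ℝ) - 1 - m := by
    rw [Nat.cast_sub (by omega), Nat.cast_sub (by omega)]
    norm_num
  rw [h1, h2]
  have h3 : HH (-z - M / 2 + ((M : ℝ) - 1 - m + 1)) = - HH (z - M / 2 + m) := by
    rw [← HH_neg]
    congr 1
    ring
  have h4 : HH (-z - M / 2 + ((M : ℝ) - 1 - m)) = - HH (z - M / 2 + (m + 1)) := by
    rw [← HH_neg]
    congr 1
    ring
  rw [h3, h4]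
  ring

theorem Ref.U_neg (R : Ref) (z : ℝ) : R.U (-z) = R.U z := by
  unfold Ref.U
  refine Finset.sum_congr rfl fun i _ => ?_
  rw [sub_neg_eq_add, sub_neg_eq_add, ← sub_eq_add_neg, ← sub_eq_add_neg]
  ring

end Pool.Agent.Z5
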