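import Pool.Agent.Z5.ArchRef
import Pool.Agent.Z5.ArchBlockLow

/-!
# Sums over the nodes of a reference density
-/

set_option autoImplicit false

open Finset

namespace Pool.Agent.Z5

namespace Pot

lemma node_eq (R : Ref) (p : ℕ) (k : R.Idx p) :
    ((R.node p k : ℚ) : ℝ) = nd ((R.ed k.1 : ℝ) * p) (1 / (R.d k.1 : ℝ)) (k.2 : ℕ) := by
  simp only [Ref.node, nd]
  push_cast
  ring

/-- decomposition of a set of indices into blocks -/
lemma split (R : Ref) (p : ℕ) (S : Finset (R.Idx p)) (hS : R.s * p ≤ S.card + 1) :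
    ∃ T : ℕ → Finset ℕ, (∀ i < R.B, T i ⊆ range (R.cnt p i)) ∧
      (∀ i < R.B, R.cnt p i ≤ (T i).card + 1) ∧
      (∀ i < R.B, ∀ k ∈ T i, ∃ a ∈ S, (a.1 : ℕ) = i ∧ (a.2 : ℕ) = k) ∧
      ∀ F : ℕ → ℕ → ℝ, ∑ k ∈ S, F k.1 k.2 = ∑ i ∈ range R.B, ∑ k ∈ T i, F i k := by
  classical
  set T0 : ∀ i : Fin R.B, Finset (Fin (R.cnt p i)) := fun i =>
    univ.filter (fun k => (⟨i, k⟩ : R.Idx p) ∈ S) with hT0
  set T : ℕ → Finset ℕ := fun i =>
    if h : i < R.B then (T0 ⟨i, h⟩).map Fin.valEmbedding else ∅ with hT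
  have hTi : ∀ (i : ℕ) (h : i < R.B), T i = (T0 ⟨i, h⟩).map Fin.valEmbedding := by
    intro i h
    rw [hT]
    simp only [dif_pos h]
  have hsum : ∀ F : ℕ → ℕ → ℝ, ∑ k ∈ S, F k.1 k.2 = ∑ i ∈ range R.B, ∑ k ∈ T i, F i k := by
    intro F
    have h1 : S = univ.sigma T0 := by
      ext ⟨i, k⟩
      simp [hT0]
    rw [h1, Finset.sum_sigma, ← Fin.sum_univ_eq_sum_range (fun i => ∑ k ∈ T i, F i k)]
    refine Finset.sum_congr rfl (fun i _ => ?_)
    rw [hTi i i.2, Finset.sum_map]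
    rfl
  have hcard : ∑ i ∈ range R.B, (T i).card = S.card := by
    have h1 := hsum (fun _ _ => 1)
    simp only [Finset.sum_const, nsmul_eq_mul, mul_one] at h1
    exact_mod_cast h1.symm
  have hsub : ∀ i < R.B, T i ⊆ range (R.cnt p i) := by
    intro i hi k hk
    rw [hTi i hi, Finset.mem_map] at hk
    obtain ⟨a, _, rfl⟩ := hk
    exact Finset.mem_range.mpr a.2
  have htot : ∑ i ∈ range R.B, R.cnt p i = R.s * p := by
    rw [← R.card_idx p, Fintype.card_sigma, ← Fin.sum_univ_eq_sum_range (fun i => R.cnt p i)]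
    refine Finset.sum_congr rfl (fun i _ => ?_)
    rw [Fintype.card_fin]
  refine ⟨T, hsub, ?_, ?_, hsum⟩
  · intro i hi
    have h1 : ∀ j ∈ range R.B, (T j).card ≤ R.cnt p j := by
      intro j hj
      have := Finset.card_le_card (hsub j (Finset.mem_range.mp hj))
      rwa [card_range] at this
    have h2 : ∑ j ∈ (range R.B).erase i, (T j).card ≤ ∑ j ∈ (range R.B).erase i, R.cnt p j :=
      Finset.sum_le_sum (fun j hj => h1 j (Finset.mem_of_mem_erase hj))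
    have hmem : i ∈ range R.B := Finset.mem_range.mpr hi
    rw [← Finset.add_sum_erase _ _ hmem] at hcard htot
    omega
  · intro i hi k hk
    rw [hTi i hi, Finset.mem_map] at hk
    obtain ⟨a, ha, rfl⟩ := hk
    rw [hT0, Finset.mem_filter] at ha
    exact ⟨⟨⟨i, hi⟩, a⟩, ha.2, rfl, rfl⟩

/-- scaling of one increment -/
lemma scale (a b σ : ℝ) (p : ℕ) (hp : 1 ≤ p) :
    HH (b * p - σ) - HH (a * p - σ)
      = p * (HH (b - σ / p) - HH (a - σ / p)) + (b - a) * p * Real.log p := by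
  have hp0 : (0 : ℝ) < p := by exact_mod_cast hp
  have h1 : b * p - σ = p * (b - σ / p) := by field_simp
  have h2 : a * p - σ = p * (a - σ / p) := by field_simp
  rw [h1, h2, HH_scale hp0, HH_scale hp0]
  ring

/-- bounds for a block -/
structure Big (R : Ref) (p : ℕ) (i : ℕ) : Prop where
  a : |(R.ed i : ℝ) * p| ≤ (p : ℝ) ^ 3
  b : |(R.ed (i + 1) : ℝ) * p| ≤ (p : ℝ) ^ 3
  c : |(R.ed i : ℝ) * p + R.cnt p i * (1 / (R.d i : ℝ))| ≤ (p : ℝ) ^ 3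
  h : 1 / (R.d i : ℝ) + 1 ≤ (p : ℝ) ^ 3
  p3 : 3 ≤ p

lemma Big.four {R : Ref} {p i : ℕ} (H : Big R p i) : 3 * (p : ℝ) ^ 3 ≤ (p : ℝ) ^ 4 := by
  have h : (3 : ℝ) ≤ p := by exact_mod_cast H.p3
  have h0 : 0 ≤ (p : ℝ) ^ 3 := by positivity
  have h1 : (p : ℝ) ^ 4 = p * (p : ℝ) ^ 3 := by ring
  rw [h1]
  exact mul_le_mul_of_nonneg_right h h0

lemma Big.one {R : Ref} {p i : ℕ} (H : Big R p i) : (1 : ℝ) ≤ (p : ℝ) ^ 4 := by
  have h : (3 : ℝ) ≤ p := by exact_mod_cast H.p3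
  exact one_le_pow₀ (by linarith)

lemma Big.A {R : Ref} {p i : ℕ} (H : Big R p i) {σ δ : ℝ} (hσ : |σ| ≤ (p : ℝ) ^ 3) (hδ : δ ≤ 1) :
    |(R.ed i : ℝ) * p - σ| + 1 / (R.d i : ℝ) + δ ≤ (p : ℝ) ^ 4 := by
  have h1 := H.four
  have h2 := H.a
  have h3 := H.h
  have h4 : |(R.ed i : ℝ) * p - σ| ≤ |(R.ed i : ℝ) * p| + |σ| := abs_sub _ _
  linarith

lemma Big.B {R : Ref} {p i : ℕ} (H : Big R p i) {σ δ : ℝ} (hσ : |σ| ≤ (p : ℝ) ^ 3) (hδ : δ ≤ 1) :
    |(R.ed i : ℝ) * p + R.cnt p i * (1 / (R.d i : ℝ)) - σ| + 1 / (R.d i : ℝ) + δ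
      ≤ (p : ℝ) ^ 4 := by
  have h1 := H.four
  have h2 := H.c
  have h3 := H.h
  have h4 : |(R.ed i : ℝ) * p + R.cnt p i * (1 / (R.d i : ℝ)) - σ|
    ≤ |(R.ed i : ℝ) * p + R.cnt p i * (1 / (R.d i : ℝ))| + |σ| := abs_sub _ _
  linarith

/-- end of the block versus the edge -/
lemma end_near (R : Ref) (p i : ℕ) (hi : i < R.B) (H : Big R p i) {σ : ℝ}
    (hσ : |σ| ≤ (p : ℝ) ^ 3) :
    |HH ((R.ed i : ℝ) * p + R.cnt p i * (1 / (R.d i : ℝ)) - σ) - HH ((R.ed (i + 1) : ℝ) * p - σ)|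
      ≤ 4 * (R.B / R.d i) * Real.log p + 2 := by
  have hp : (3 : ℝ) ≤ p := by exact_mod_cast H.p3
  have hd : (0 : ℝ) < R.d i := by exact_mod_cast R.d_pos i hi
  have h1 := H.four
  have h2 := H.one
  have hh0 : 0 ≤ 1 / (R.d i : ℝ) := by positivity
  have h0 : 0 ≤ (p : ℝ) ^ 3 := by positivity
  have h3 := abs_HH_sub_le (y := (R.ed (i + 1) : ℝ) * p - σ)
    (y' := (R.ed i : ℝ) * p + R.cnt p i * (1 / (R.d i : ℝ)) - σ) h2
    (by
      have := abs_sub ((R.ed (i + 1) : ℝ) * p) σ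
      have := H.b
      linarith)
    (by
      have := abs_sub ((R.ed i : ℝ) * p + R.cnt p i * (1 / (R.d i : ℝ))) σ
      have := H.c
      linarith)
  refine h3.trans ?_
  have h4 : (R.ed i : ℝ) * p + R.cnt p i * (1 / (R.d i : ℝ)) - σ - ((R.ed (i + 1) : ℝ) * p - σ)
      = (R.cnt p i : ℝ) / R.d i - ((R.ed (i + 1) : ℝ) - R.ed i) * p := by ring
  rw [h4, Real.log_pow]
  have h5 := R.cnt_near p hi
  have h6 : 0 ≤ Real.log p := Real.log_nonneg (by linarith)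
  have h7 := mul_le_mul_of_nonneg_right h5 (by positivity : 0 ≤ ((4 : ℕ) : ℝ) * Real.log p)
  push_cast at h7 ⊢
  linarith

/-- one block, upper bound -/
lemma block_le (R : Ref) (p i : ℕ) (hi : i < R.B) (H : Big R p i) (T : Finset ℕ)
    (hT : T ⊆ range (R.cnt p i)) (hT' : R.cnt p i ≤ T.card + 1) {σ δ : ℝ}
    (hσ : |σ| ≤ (p : ℝ) ^ 3) (hδ : 0 ≤ δ) (hδ1 : δ ≤ 1) :
    ∑ k ∈ T, Real.log (|σ - nd ((R.ed i : ℝ) * p) (1 / (R.d i : ℝ)) k| + δ)
      ≤ R.d i * (p * (HH (R.ed (i + 1) - σ / p) - HH (R.ed i - σ / p))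
          + ((R.ed (i + 1) : ℝ) - R.ed i) * p * Real.log p)
        + (4 * R.B + 8 + 18 * R.d i) * Real.log p := by
  have hp : (3 : ℝ) ≤ p := by exact_mod_cast H.p3
  have hd : (0 : ℝ) < R.d i := by exact_mod_cast R.d_pos i hi
  have hh : 0 < 1 / (R.d i : ℝ) := by positivity
  have h1 := sum_block_le hh hδ H.one (R.cnt p i) T hT hT' (H.A hσ hδ1) (H.B hσ hδ1)
  refine h1.trans ?_
  have hlog : 1 ≤ Real.log p := by
    have h2 : Real.exp 1 ≤ p := by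
      have := Real.exp_one_lt_d9
      linarith
    have h3 := Real.log_le_log (Real.exp_pos 1) h2
    rwa [Real.log_exp] at h3
  have h2 := (abs_le.mp (end_near R p i hi H hσ)).2
  have h3 := scale (R.ed i) (R.ed (i + 1)) σ p (by have := H.p3; omega)
  have h4 : (HH ((R.ed i : ℝ) * p + R.cnt p i * (1 / (R.d i : ℝ)) - σ)
      - HH ((R.ed i : ℝ) * p - σ)) / (1 / (R.d i : ℝ))
      ≤ R.d i * (p * (HH (R.ed (i + 1) - σ / p) - HH (R.ed i - σ / p))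
          + ((R.ed (i + 1) : ℝ) - R.ed i) * p * Real.log p)
        + (4 * R.B * Real.log p + 2 * R.d i) := by
    rw [div_div_eq_mul_div, div_one, ← h3, mul_comm _ (R.d i : ℝ)]
    have h5 : (4 * R.B * Real.log p + 2 * R.d i : ℝ)
        = R.d i * (4 * (R.B / R.d i) * Real.log p + 2) := by
      field_simp
    rw [h5, ← mul_add]
    apply mul_le_mul_of_nonneg_left _ hd.le
    linarith
  have h5 : ((1 / (R.d i : ℝ) + 2 * δ) * Real.log ((p : ℝ) ^ 4) + 8) / (1 / (R.d i : ℝ))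
      ≤ 4 * Real.log p + 8 * R.d i * Real.log p + 8 * R.d i := by
    rw [div_div_eq_mul_div, div_one, Real.log_pow]
    push_cast
    have h6 : (((1 / (R.d i : ℝ) + 2 * δ) * (4 * Real.log p) + 8) * R.d i)
        = 4 * Real.log p + 8 * δ * (R.d i * Real.log p) + 8 * R.d i := by
      field_simp
      ring
    rw [h6]
    have h7 : 0 ≤ (R.d i : ℝ) * Real.log p := by positivity
    nlinarith
  have h6 : Real.log ((p : ℝ) ^ 4) = 4 * Real.log p := by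
    rw [Real.log_pow]
    norm_num
  rw [h6] at h5 ⊢
  nlinarith [mul_le_mul_of_nonneg_left hlog hd.le]

/-- for large `p` all blocks are fine -/
lemma big (R : Ref) : ∃ p0 : ℕ, ∀ p : ℕ, p0 ≤ p → ∀ i < R.B, Big R p i := by
  set K : ℝ := ∑ i ∈ range R.B, (|(R.ed i : ℝ)| + |(R.ed (i + 1) : ℝ)| + (R.B + 1) / R.d i + 1)
    with hK
  refine ⟨max 3 ⌈K⌉₊, ?_⟩
  intro p hp i hi
  have hp3 : 3 ≤ p := (le_max_left _ _).trans hp
  have hpK : K ≤ p := (Nat.le_ceil K).trans (by exact_mod_cast (le_max_right _ _).trans hp)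
  have hp3' : (3 : ℝ) ≤ p := by exact_mod_cast hp3
  have hterm : ∀ j ∈ range R.B,
      0 ≤ (|(R.ed j : ℝ)| + |(R.ed (j + 1) : ℝ)| + (R.B + 1) / R.d j + 1) := by
    intro j hj
    have hd : (0 : ℝ) < R.d j := by exact_mod_cast R.d_pos j (Finset.mem_range.mp hj)
    positivity
  have hK1 : |(R.ed i : ℝ)| + |(R.ed (i + 1) : ℝ)| + (R.B + 1) / R.d i + 1 ≤ K :=
    Finset.single_le_sum hterm (Finset.mem_range.mpr hi)
  have hd : (0 : ℝ) < R.d i := by exact_mod_cast R.d_pos i hi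
  have h0 : 0 ≤ |(R.ed i : ℝ)| := abs_nonneg _
  have h0' : 0 ≤ |(R.ed (i + 1) : ℝ)| := abs_nonneg _
  have h1 : 0 ≤ (R.B : ℝ) / R.d i := by positivity
  have h2 : 0 ≤ 1 / (R.d i : ℝ) := by positivity
  have h3 : ((R.B : ℝ) + 1) / R.d i = R.B / R.d i + 1 / R.d i := by ring
  rw [h3] at hK1
  have hpp : (p : ℝ) ≤ (p : ℝ) ^ 3 := by
    have : (p : ℝ) ^ 1 ≤ (p : ℝ) ^ 3 := pow_le_pow_right₀ (by linarith) (by norm_num)
    simpa using this
  have hpp2 : (p : ℝ) * p ≤ (p : ℝ) ^ 3 := by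
    have : (p : ℝ) ^ 2 ≤ (p : ℝ) ^ 3 := pow_le_pow_right₀ (by linarith) (by norm_num)
    nlinarith
  refine ⟨?_, ?_, ?_, by linarith, hp3⟩
  · rw [abs_mul, abs_of_nonneg (by linarith : (0 : ℝ) ≤ p)]
    nlinarith
  · rw [abs_mul, abs_of_nonneg (by linarith : (0 : ℝ) ≤ p)]
    nlinarith
  · have h4 := R.cnt_near p hi
    have h5 : (R.ed i : ℝ) * p + R.cnt p i * (1 / (R.d i : ℝ))
        = R.ed (i + 1) * p + ((R.cnt p i : ℝ) / R.d i - ((R.ed (i + 1) : ℝ) - R.ed i) * p) := by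
      ring
    rw [h5]
    refine (abs_add_le _ _).trans ?_
    rw [abs_mul, abs_of_nonneg (by linarith : (0 : ℝ) ≤ p)]
    have h6 : |(R.ed (i + 1) : ℝ)| * p + R.B / R.d i ≤ K * p := by
      have h7 : (R.B : ℝ) / R.d i ≤ R.B / R.d i * p := le_mul_of_one_le_right h1 (by linarith)
      nlinarith
    have h8 : K * p ≤ p * p := mul_le_mul_of_nonneg_right hpK (by linarith)
    linarith

end Pot

theorem Ref.pot_le (R : Ref) : ∃ C : ℝ, ∃ p0 : ℕ, ∀ p : ℕ, p0 ≤ p → ∀ σ δ : ℝ,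
    |σ| ≤ (p : ℝ) ^ 3 → 0 ≤ δ → δ ≤ 1 → ∀ S : Finset (R.Idx p), R.s * p ≤ S.card + 1 →
    ∑ k ∈ S, (Real.log (|σ - R.node p k| + δ) + Real.log (|σ + R.node p k| + δ))
      ≤ p * R.U (σ / p) + 2 * R.s * p * Real.log p + C * Real.log p := by
  obtain ⟨p0, hp0⟩ := Pot.big R
  refine ⟨2 * ∑ i ∈ range R.B, (4 * R.B + 8 + 18 * R.d i : ℝ), p0, ?_⟩
  intro p hp σ δ hσ hδ hδ1 S hS
  obtain ⟨T, hT1, hT2, -, hT4⟩ := Pot.split R p S hS
  obtain ⟨F, hF⟩ : ∃ F : ℕ → ℕ → ℝ, F = fun i k =>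
    Real.log (|σ - nd ((R.ed i : ℝ) * p) (1 / (R.d i : ℝ)) k| + δ)
        + Real.log (|(-σ) - nd ((R.ed i : ℝ) * p) (1 / (R.d i : ℝ)) k| + δ) := ⟨_, rfl⟩
  have h1 : ∑ k ∈ S, (Real.log (|σ - R.node p k| + δ) + Real.log (|σ + R.node p k| + δ))
      = ∑ k ∈ S, F k.1 k.2 := by
    refine Finset.sum_congr rfl (fun k _ => ?_)
    rw [Pot.node_eq, hF]
    congr 3
    rw [← abs_neg]
    congr 1
    ring
  rw [h1, hT4 F]
  have h2 : ∀ i ∈ range R.B, ∑ k ∈ T i, F i k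
      ≤ (p * ((R.d i : ℝ) * ((HH (R.ed (i + 1) - σ / p) - HH (R.ed i - σ / p))
          + (HH (R.ed (i + 1) + σ / p) - HH (R.ed i + σ / p))))
        + 2 * (((R.d i * (R.ed (i + 1) - R.ed i) : ℚ) : ℝ) * (p * Real.log p)))
        + 2 * ((4 * R.B + 8 + 18 * R.d i) * Real.log p) := by
    intro i hi
    have hi' := Finset.mem_range.mp hi
    rw [hF]
    beta_reduce
    rw [Finset.sum_add_distrib]
    have h3 := Pot.block_le R p i hi' (hp0 p hp i hi') (T i) (hT1 i hi') (hT2 i hi') hσ hδ hδ1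
    have h4 := Pot.block_le R p i hi' (hp0 p hp i hi') (T i) (hT1 i hi') (hT2 i hi')
      (σ := -σ) (by rwa [abs_neg]) hδ hδ1
    have h5 : ∀ x : ℝ, x - -σ / p = x + σ / p := fun x => by ring
    rw [h5, h5] at h4
    push_cast
    refine (add_le_add h3 h4).trans (le_of_eq ?_)
    ring
  refine (Finset.sum_le_sum h2).trans (le_of_eq ?_)
  rw [Finset.sum_add_distrib, Finset.sum_add_distrib, ← Finset.mul_sum, ← Finset.mul_sum,
    ← Finset.mul_sum, ← Finset.sum_mul, ← Finset.sum_mul, ← Rat.cast_sum, R.total]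
  simp only [Ref.U]
  push_cast
  ring

/-- one block, lower bound -/
lemma Pot.block_ge (R : Ref) {δ0 : ℝ} (h0 : 0 < δ0) : ∃ C : ℝ, 0 ≤ C ∧ ∀ (p i : ℕ), i < R.B →
    Pot.Big R p i → ∀ T : Finset ℕ, T ⊆ range (R.cnt p i) → R.cnt p i ≤ T.card + 1 → ∀ σ : ℝ,
    |σ| ≤ (p : ℝ) ^ 3 →
    (∀ k ∈ T, δ0 ≤ |σ - nd ((R.ed i : ℝ) * p) (1 / (R.d i : ℝ)) k|) →
    R.d i * (p * (HH (R.ed (i + 1) - σ / p) - HH (R.ed i - σ / p))
          + ((R.ed (i + 1) : ℝ) - R.ed i) * p * Real.log p) - C * Real.log p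
      ≤ ∑ k ∈ T, Real.log |σ - nd ((R.ed i : ℝ) * p) (1 / (R.d i : ℝ)) k| := by
  have hC : ∀ i : ℕ, ∃ C : ℝ, i < R.B → ∀ (A s R' : ℝ) (m : ℕ) (S : Finset ℕ), 1 ≤ R' →
      S ⊆ range m → m ≤ S.card + 1 → (∀ k ∈ S, δ0 ≤ |s - nd A (1 / (R.d i : ℝ)) k| - 0) →
      |A - s| + 1 / (R.d i : ℝ) + 0 ≤ R' → |A + m * (1 / (R.d i : ℝ)) - s| + 1 / (R.d i : ℝ) + 0 ≤ R' →
      (HH (A + m * (1 / (R.d i : ℝ)) - s) - HH (A - s)) / (1 / (R.d i : ℝ))
          - C * (1 + Real.log R')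
        ≤ ∑ k ∈ S, Real.log (|s - nd A (1 / (R.d i : ℝ)) k| - 0) := by
    intro i
    by_cases hi : i < R.B
    · have hd : (0 : ℝ) < R.d i := by exact_mod_cast R.d_pos i hi
      obtain ⟨C, hC⟩ := sum_block_ge (h := 1 / (R.d i : ℝ)) (δ := 0) (δ0 := δ0) (by positivity)
        (le_refl _) (by
          have : 0 < 1 / (R.d i : ℝ) := by positivity
          linarith) h0
      exact ⟨C, fun _ => hC⟩
    · exact ⟨0, fun h => absurd h hi⟩
  choose C hC using hC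
  refine ⟨∑ i ∈ range R.B, (5 * |C i| + 4 * R.B + 2 * |(R.d i : ℝ)|), ?_, ?_⟩
  · exact Finset.sum_nonneg (fun i _ => by positivity)
  intro p i hi H T hT hT' σ hσ hfar
  have hp : (3 : ℝ) ≤ p := by exact_mod_cast H.p3
  have hd : (0 : ℝ) < R.d i := by exact_mod_cast R.d_pos i hi
  have hlog : 1 ≤ Real.log p := by
    have h2 : Real.exp 1 ≤ p := by
      have := Real.exp_one_lt_d9
      linarith
    have h3 := Real.log_le_log (Real.exp_pos 1) h2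
    rwa [Real.log_exp] at h3
  have h1 := hC i hi ((R.ed i : ℝ) * p) σ ((p : ℝ) ^ 4) (R.cnt p i) T H.one hT hT'
    (fun k hk => by rw [sub_zero]; exact hfar k hk) (H.A hσ zero_le_one) (H.B hσ zero_le_one)
  simp only [sub_zero] at h1
  refine le_trans ?_ h1
  have h2 := (abs_le.mp (Pot.end_near R p i hi H hσ)).1
  have h3 := Pot.scale (R.ed i) (R.ed (i + 1)) σ p (by have := H.p3; omega)
  have h4 : R.d i * (p * (HH (R.ed (i + 1) - σ / p) - HH (R.ed i - σ / p))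
          + ((R.ed (i + 1) : ℝ) - R.ed i) * p * Real.log p)
        - (4 * R.B * Real.log p + 2 * R.d i) ≤
      (HH ((R.ed i : ℝ) * p + R.cnt p i * (1 / (R.d i : ℝ)) - σ)
      - HH ((R.ed i : ℝ) * p - σ)) / (1 / (R.d i : ℝ)) := by
    have h5 : (4 * R.B * Real.log p + 2 * R.d i : ℝ)
        = R.d i * (4 * (R.B / R.d i) * Real.log p + 2) := by
      field_simp
    have h5' : ∀ X : ℝ, X / (1 / (R.d i : ℝ)) = R.d i * X := by
      intro X
      field_simp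
    rw [h5', ← h3, h5, ← mul_sub]
    apply mul_le_mul_of_nonneg_left _ hd.le
    linarith
  have h6 : Real.log ((p : ℝ) ^ 4) = 4 * Real.log p := by
    rw [Real.log_pow]
    norm_num
  rw [h6]
  have h7 : 5 * |C i| + 4 * R.B + 2 * |(R.d i : ℝ)|
      ≤ ∑ i ∈ range R.B, (5 * |C i| + 4 * R.B + 2 * |(R.d i : ℝ)|) :=
    Finset.single_le_sum (f := fun i => 5 * |C i| + 4 * (R.B : ℝ) + 2 * |(R.d i : ℝ)|)
      (fun j _ => by positivity) (Finset.mem_range.mpr hi)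
  have h8 := mul_le_mul_of_nonneg_right h7 (by linarith : 0 ≤ Real.log p)
  have h9 : C i * (1 + 4 * Real.log p) ≤ 5 * |C i| * Real.log p := by
    have h10 := le_abs_self (C i)
    have h11 : 0 ≤ |C i| := abs_nonneg _
    nlinarith
  have h12 : (R.d i : ℝ) ≤ |(R.d i : ℝ)| * Real.log p := by
    have h10 := le_abs_self (R.d i : ℝ)
    have h11 : 0 ≤ |(R.d i : ℝ)| := abs_nonneg _
    nlinarith
  nlinarith

theorem Ref.pot_ge (R : Ref) {δ0 : ℝ} (h0 : 0 < δ0) : ∃ C : ℝ, ∃ p0 : ℕ, ∀ p : ℕ, p0 ≤ p →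
    ∀ σ : ℝ, |σ| ≤ (p : ℝ) ^ 3 → ∀ S : Finset (R.Idx p), R.s * p ≤ S.card + 1 →
    (∀ k ∈ S, δ0 ≤ |σ - R.node p k| ∧ δ0 ≤ |σ + R.node p k|) →
    p * R.U (σ / p) + 2 * R.s * p * Real.log p - C * Real.log p
      ≤ ∑ k ∈ S, (Real.log |σ - R.node p k| + Real.log |σ + R.node p k|) := by
  obtain ⟨p0, hp0⟩ := Pot.big R
  obtain ⟨C, hC0, hC⟩ := Pot.block_ge R h0
  refine ⟨2 * ∑ i ∈ range R.B, C, p0, ?_⟩
  intro p hp σ hσ S hS hfar
  obtain ⟨T, hT1, hT2, hT3, hT4⟩ := Pot.split R p S hS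
  obtain ⟨F, hF⟩ : ∃ F : ℕ → ℕ → ℝ, F = fun i k =>
    Real.log |σ - nd ((R.ed i : ℝ) * p) (1 / (R.d i : ℝ)) k|
        + Real.log |(-σ) - nd ((R.ed i : ℝ) * p) (1 / (R.d i : ℝ)) k| := ⟨_, rfl⟩
  have hneg : ∀ x : ℝ, |σ + x| = |-σ - x| := by
    intro x
    rw [← abs_neg]
    congr 1
    ring
  have h1 : ∑ k ∈ S, (Real.log |σ - R.node p k| + Real.log |σ + R.node p k|)
      = ∑ k ∈ S, F k.1 k.2 := by
    refine Finset.sum_congr rfl (fun k _ => ?_)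
    rw [hneg, Pot.node_eq, hF]
  rw [h1, hT4 F]
  have h2 : ∀ i ∈ range R.B,
      (p * ((R.d i : ℝ) * ((HH (R.ed (i + 1) - σ / p) - HH (R.ed i - σ / p))
          + (HH (R.ed (i + 1) + σ / p) - HH (R.ed i + σ / p))))
        + 2 * (((R.d i * (R.ed (i + 1) - R.ed i) : ℚ) : ℝ) * (p * Real.log p)))
        - 2 * (C * Real.log p) ≤ ∑ k ∈ T i, F i k := by
    intro i hi
    have hi' := Finset.mem_range.mp hi
    rw [hF]
    beta_reduce
    rw [Finset.sum_add_distrib]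
    have h3 := hC p i hi' (hp0 p hp i hi') (T i) (hT1 i hi') (hT2 i hi') σ hσ (by
      intro k hk
      obtain ⟨a, ha, ha1, ha2⟩ := hT3 i hi' k hk
      have h5 := (hfar a ha).1
      rw [Pot.node_eq] at h5
      simpa only [ha1, ha2] using h5)
    have h4 := hC p i hi' (hp0 p hp i hi') (T i) (hT1 i hi') (hT2 i hi') (-σ) (by rwa [abs_neg])
      (by
        intro k hk
        obtain ⟨a, ha, ha1, ha2⟩ := hT3 i hi' k hk
        have h5 := (hfar a ha).2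
        rw [hneg, Pot.node_eq] at h5
        simpa only [ha1, ha2] using h5)
    have h5 : ∀ x : ℝ, x - -σ / p = x + σ / p := fun x => by ring
    rw [h5, h5] at h4
    push_cast
    refine (le_of_eq ?_).trans (add_le_add h3 h4)
    ring
  refine (le_of_eq ?_).trans (Finset.sum_le_sum h2)
  rw [Finset.sum_sub_distrib, Finset.sum_add_distrib, ← Finset.mul_sum, ← Finset.mul_sum,
    ← Finset.mul_sum, ← Finset.sum_mul, ← Finset.sum_mul, ← Rat.cast_sum, R.total]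
  simp only [Ref.U]
  push_cast
  ring

end Pool.Agent.Z5
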