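import Pool.Agent.Z5.ArchDefs

/-!
# Z5: elementary facts about the nodes of a reference density
-/

open Finset

namespace Pool.Agent.Z5

namespace Ref

/-- mass of the block `i` times `p` -/
private def ms (R : Ref) (p i : ℕ) : ℚ := R.d i * (R.ed (i + 1) - R.ed i) * p

private lemma ms_nonneg (R : Ref) (p : ℕ) {i : ℕ} (hi : i < R.B) : 0 ≤ R.ms p i := by
  have h1 := R.ed_lt i hi
  have h2 := R.d_pos i hi
  have h3 : (0 : ℚ) ≤ R.ed (i + 1) - R.ed i := by linarith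
  have h4 : (0 : ℚ) ≤ p := Nat.cast_nonneg p
  unfold ms
  positivity

private lemma sum_ms (R : Ref) (p : ℕ) : ∑ i ∈ range R.B, R.ms p i = R.s * p := by
  unfold ms
  rw [← Finset.sum_mul, R.total]

private lemma sum_ms' (R : Ref) (p : ℕ) :
    ∑ i ∈ range (R.B - 1), R.ms p i + R.ms p (R.B - 1) = R.s * p := by
  rw [← R.sum_ms p, ← Finset.sum_range_succ]
  have := R.B_pos
  congr 2
  omega

private lemma floor_le (R : Ref) (p : ℕ) {i : ℕ} (hi : i < R.B) :
    (⌊R.ms p i⌋₊ : ℚ) ≤ R.ms p i := Nat.floor_le (R.ms_nonneg p hi)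

private lemma sum_floor_le (R : Ref) (p : ℕ) :
    ∑ i ∈ range (R.B - 1), ⌊R.ms p i⌋₊ ≤ R.s * p := by
  have h : ((∑ i ∈ range (R.B - 1), ⌊R.ms p i⌋₊ : ℕ) : ℚ) ≤ ((R.s * p : ℕ) : ℚ) := by
    push_cast
    calc ∑ i ∈ range (R.B - 1), (⌊R.ms p i⌋₊ : ℚ)
        ≤ ∑ i ∈ range (R.B - 1), R.ms p i := by
          refine Finset.sum_le_sum fun i hi => R.floor_le p ?_
          have := Finset.mem_range.1 hi
          omega
      _ ≤ ∑ i ∈ range (R.B - 1), R.ms p i + R.ms p (R.B - 1) := by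
          have := R.ms_nonneg p (i := R.B - 1) (by have := R.B_pos; omega)
          linarith
      _ = R.s * p := R.sum_ms' p
  exact_mod_cast h

private lemma cnt_eq_of_lt (R : Ref) (p : ℕ) {i : ℕ} (hi : i + 1 < R.B) :
    R.cnt p i = ⌊R.ms p i⌋₊ := by
  unfold cnt ms
  rw [if_pos hi]

private lemma cnt_last (R : Ref) (p : ℕ) :
    R.cnt p (R.B - 1) = R.s * p - ∑ i ∈ range (R.B - 1), ⌊R.ms p i⌋₊ := by
  unfold cnt ms
  rw [if_neg (by have := R.B_pos; omega)]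

theorem card_idx (R : Ref) (p : ℕ) : Fintype.card (R.Idx p) = R.s * p := by
  have h1 : Fintype.card (R.Idx p) = ∑ i ∈ range R.B, R.cnt p i := by
    rw [Fintype.card_sigma]
    simp only [Fintype.card_fin]
    exact Fin.sum_univ_eq_sum_range (fun i => R.cnt p i) R.B
  have h2 : range R.B = range (R.B - 1 + 1) := by
    have := R.B_pos
    congr 1
    omega
  rw [h1, h2, Finset.sum_range_succ, R.cnt_last p]
  have h3 : ∑ i ∈ range (R.B - 1), R.cnt p i = ∑ i ∈ range (R.B - 1), ⌊R.ms p i⌋₊ := by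
    refine Finset.sum_congr rfl fun i hi => R.cnt_eq_of_lt p ?_
    have := Finset.mem_range.1 hi
    omega
  rw [h3]
  have := R.sum_floor_le p
  omega

/-- each block has about the right number of nodes -/
private lemma cnt_ms (R : Ref) (p : ℕ) {i : ℕ} (hi : i < R.B) :
    |(R.cnt p i : ℚ) - R.ms p i| ≤ R.B := by
  have hB1 : (1 : ℚ) ≤ R.B := by
    have := R.B_pos
    exact_mod_cast this
  by_cases h : i + 1 < R.B
  · rw [R.cnt_eq_of_lt p h, abs_le]
    have h1 := R.floor_le p hi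
    have h2 := Nat.lt_floor_add_one (R.ms p i)
    constructor <;> linarith
  · have hiB : i = R.B - 1 := by omega
    subst hiB
    have h1 := R.sum_floor_le p
    have h2 := R.sum_ms' p
    rw [R.cnt_last p, Nat.cast_sub h1]
    push_cast
    have h3 : ∑ i ∈ range (R.B - 1), (⌊R.ms p i⌋₊ : ℚ) ≤ ∑ i ∈ range (R.B - 1), R.ms p i := by
      refine Finset.sum_le_sum fun i hi => R.floor_le p ?_
      have := Finset.mem_range.1 hi
      omega
    have h4 : ∑ i ∈ range (R.B - 1), R.ms p i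
        ≤ ∑ i ∈ range (R.B - 1), ((⌊R.ms p i⌋₊ : ℚ) + 1) :=
      Finset.sum_le_sum fun i _ => (Nat.lt_floor_add_one (R.ms p i)).le
    rw [Finset.sum_add_distrib, Finset.sum_const, card_range, nsmul_eq_mul, mul_one] at h4
    have h5 : ((R.B - 1 : ℕ) : ℚ) ≤ R.B := by exact_mod_cast Nat.sub_le _ _
    rw [abs_le]
    constructor <;> linarith

/-- each block has about the right length -/
theorem cnt_near (R : Ref) (p : ℕ) {i : ℕ} (hi : i < R.B) :
    |(R.cnt p i : ℝ) / R.d i - ((R.ed (i + 1) : ℝ) - R.ed i) * p| ≤ R.B / R.d i := by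
  have hd := R.d_pos i hi
  have h1 := R.cnt_ms p hi
  have h2 : |(R.cnt p i : ℚ) / R.d i - (R.ed (i + 1) - R.ed i) * p| ≤ R.B / R.d i := by
    have h3 : (R.cnt p i : ℚ) / R.d i - (R.ed (i + 1) - R.ed i) * p
        = ((R.cnt p i : ℚ) - R.ms p i) / R.d i := by
      unfold ms
      field_simp
    rw [h3, abs_div, abs_of_pos hd]
    exact div_le_div_of_nonneg_right h1 hd.le
  have h4 : ((|(R.cnt p i : ℚ) / R.d i - (R.ed (i + 1) - R.ed i) * p| : ℚ) : ℝ)
      ≤ ((R.B / R.d i : ℚ) : ℝ) := by exact_mod_cast h2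
  push_cast at h4
  exact h4

/-- the first block, if it is not the last -/
theorem cnt_zero (R : Ref) (p : ℕ) (h : 2 ≤ R.B) :
    R.cnt p 0 = ⌊R.d 0 * (R.ed 1 - R.ed 0) * p⌋₊ := by
  unfold cnt
  rw [if_pos (by omega)]

private lemma ed_mono (R : Ref) {i j : ℕ} (hij : i ≤ j) (hj : j ≤ R.B) : R.ed i ≤ R.ed j := by
  induction j, hij using Nat.le_induction with
  | base => exact le_refl _
  | succ n hn ih => exact (ih (by omega)).trans (R.ed_lt n (by omega)).le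

private lemma ed_nonneg (R : Ref) {i : ℕ} (hi : i ≤ R.B) : 0 ≤ R.ed i :=
  R.ed_zero.trans (R.ed_mono (Nat.zero_le i) hi)

private lemma node_ge' (R : Ref) (p : ℕ) (k : R.Idx p) :
    R.ed k.1 * p + 1 / (2 * R.d k.1) ≤ R.node p k := by
  have hd := R.d_pos k.1 k.1.2
  have h1 : (0 : ℚ) ≤ ((k.2 : ℕ) : ℚ) := Nat.cast_nonneg _
  have h2 : (((k.2 : ℕ) : ℚ) + 1 / 2) / R.d k.1
      = 1 / (2 * R.d k.1) + ((k.2 : ℕ) : ℚ) / R.d k.1 := by
    field_simp
    ring
  unfold node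
  rw [h2]
  have h3 : 0 ≤ ((k.2 : ℕ) : ℚ) / R.d k.1 := div_nonneg h1 hd.le
  linarith

theorem node_ge (R : Ref) (p : ℕ) (k : R.Idx p) : R.ed 0 * p < R.node p k := by
  have hd := R.d_pos k.1 k.1.2
  have h1 := R.node_ge' p k
  have h2 : R.ed 0 * p ≤ R.ed k.1 * p := by
    refine mul_le_mul_of_nonneg_right ?_ (Nat.cast_nonneg p)
    exact R.ed_mono (Nat.zero_le _) k.1.2.le
  have h3 : 0 < 1 / (2 * R.d k.1) := by positivity
  linarith

theorem node_pos (R : Ref) (p : ℕ) (k : R.Idx p) : 0 < R.node p k := by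
  have h1 := R.node_ge p k
  have h2 : 0 ≤ R.ed 0 * p := mul_nonneg R.ed_zero (Nat.cast_nonneg p)
  linarith

/-- a block which is not the last one -/
private lemma node_le_of_lt (R : Ref) (p : ℕ) (k : R.Idx p) (hk : (k.1 : ℕ) + 1 < R.B) :
    R.node p k ≤ R.ed ((k.1 : ℕ) + 1) * p - 1 / (2 * R.d k.1) := by
  have hd := R.d_pos k.1 k.1.2
  have h1 : (k.2 : ℕ) + 1 ≤ R.cnt p k.1 := k.2.2
  have h2 : (((k.2 : ℕ) : ℚ) + 1) ≤ R.ms p k.1 := by
    have h3 := R.floor_le p k.1.2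
    rw [← R.cnt_eq_of_lt p hk] at h3
    have h4 : (((k.2 : ℕ) + 1 : ℕ) : ℚ) ≤ (R.cnt p k.1 : ℚ) := by exact_mod_cast h1
    push_cast at h4
    linarith
  have h5 : (((k.2 : ℕ) : ℚ) + 1 / 2) / R.d k.1
      = (((k.2 : ℕ) : ℚ) + 1) / R.d k.1 - 1 / (2 * R.d k.1) := by
    field_simp
    ring
  have h6 : (((k.2 : ℕ) : ℚ) + 1) / R.d k.1 ≤ (R.ed ((k.1 : ℕ) + 1) - R.ed k.1) * p := by
    rw [div_le_iff₀ hd]
    unfold ms at h2
    linarith
  unfold node
  rw [h5]
  linarith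

private lemma sep_aux (R : Ref) (p : ℕ) (k l : R.Idx p) (h : (k.1 : ℕ) < l.1) :
    1 / (2 * R.d k.1) ≤ R.node p l - R.node p k := by
  have h1 := R.node_le_of_lt p k (by have := l.1.2; omega)
  have h2 := R.node_ge' p l
  have hd := R.d_pos l.1 l.1.2
  have h3 : 0 < 1 / (2 * R.d l.1) := by positivity
  have h4 : R.ed ((k.1 : ℕ) + 1) * p ≤ R.ed l.1 * p := by
    refine mul_le_mul_of_nonneg_right ?_ (Nat.cast_nonneg p)
    exact R.ed_mono (by omega) l.1.2.le
  linarith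

private lemma sep_same (R : Ref) (p : ℕ) (i : Fin R.B) (a b : Fin (R.cnt p i)) (h : a ≠ b) :
    1 / (2 * R.d i) ≤ |R.node p ⟨i, a⟩ - R.node p ⟨i, b⟩| := by
  have hd := R.d_pos i i.2
  have h1 : R.node p ⟨i, a⟩ - R.node p ⟨i, b⟩ = (((a : ℕ) : ℚ) - ((b : ℕ) : ℚ)) / R.d i := by
    unfold node
    field_simp
    ring
  rw [h1, abs_div, abs_of_pos hd, div_le_div_iff₀ (by positivity) hd]
  have h2 : (a : ℕ) ≠ (b : ℕ) := fun hh => h (Fin.ext hh)
  have h3 : (1 : ℚ) ≤ |((a : ℕ) : ℚ) - ((b : ℕ) : ℚ)| := by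
    have h4 : ((a : ℕ) : ℤ) - ((b : ℕ) : ℤ) ≠ 0 := by
      intro h5
      apply h2
      omega
    have h6 : (1 : ℤ) ≤ |((a : ℕ) : ℤ) - ((b : ℕ) : ℤ)| := Int.one_le_abs h4
    exact_mod_cast h6
  nlinarith

/-- the nodes are separated -/
theorem node_sep (R : Ref) : ∃ δ0 : ℚ, 0 < δ0 ∧ ∀ (p : ℕ) (k l : R.Idx p), k ≠ l →
    δ0 ≤ |R.node p k - R.node p l| ∧ δ0 ≤ R.node p k + R.node p l := by
  set D : ℚ := ∑ i ∈ range R.B, R.d i with hD
  have hdD : ∀ i < R.B, R.d i ≤ D := by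
    intro i hi
    rw [hD]
    refine Finset.single_le_sum (f := fun i => R.d i) (fun j hj => ?_) (Finset.mem_range.2 hi)
    exact (R.d_pos j (Finset.mem_range.1 hj)).le
  have hDpos : 0 < D := lt_of_lt_of_le (R.d_pos 0 R.B_pos) (hdD 0 R.B_pos)
  have hinv : ∀ i < R.B, 1 / (2 * D) ≤ 1 / (2 * R.d i) := by
    intro i hi
    have h1 := R.d_pos i hi
    have h2 := hdD i hi
    exact one_div_le_one_div_of_le (by positivity) (by linarith)
  refine ⟨1 / (2 * D), by positivity, fun p k l hkl => ⟨?_, ?_⟩⟩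
  · rcases lt_trichotomy (k.1 : ℕ) (l.1 : ℕ) with h | h | h
    · have h1 := R.sep_aux p k l h
      have h2 := hinv k.1 k.1.2
      rw [abs_sub_comm]
      exact (h2.trans h1).trans (le_abs_self _)
    · obtain ⟨i, a⟩ := k
      obtain ⟨j, b⟩ := l
      have hij : i = j := Fin.ext h
      subst hij
      have hab : a ≠ b := fun hh => hkl (by rw [hh])
      exact (hinv i i.2).trans (R.sep_same p i a b hab)
    · have h1 := R.sep_aux p l k h
      have h2 := hinv l.1 l.1.2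
      exact (h2.trans h1).trans (le_abs_self _)
  · have h1 := R.node_ge' p k
    have h2 := R.node_pos p l
    have h3 := hinv k.1 k.1.2
    have h4 : 0 ≤ R.ed k.1 * p := mul_nonneg (R.ed_nonneg k.1.2.le) (Nat.cast_nonneg p)
    linarith

/-- the nodes end at about `ed B * p` -/
theorem node_le (R : Ref) : ∃ C : ℚ, ∀ (p : ℕ) (k : R.Idx p),
    R.node p k ≤ R.ed R.B * p + C := by
  refine ⟨∑ i ∈ range R.B, R.B / R.d i, fun p k => ?_⟩
  have hd := R.d_pos k.1 k.1.2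
  have h1 : (R.B : ℚ) / R.d k.1 ≤ ∑ i ∈ range R.B, R.B / R.d i := by
    refine Finset.single_le_sum (f := fun i => (R.B : ℚ) / R.d i) (fun j hj => ?_)
      (Finset.mem_range.2 k.1.2)
    exact div_nonneg (Nat.cast_nonneg _) (R.d_pos j (Finset.mem_range.1 hj)).le
  have h2 : (((k.2 : ℕ) + 1 : ℕ) : ℚ) ≤ (R.cnt p k.1 : ℚ) := by exact_mod_cast k.2.2
  push_cast at h2
  have h3 := (abs_le.1 (R.cnt_ms p k.1.2)).2
  have h4 : (((k.2 : ℕ) : ℚ) + 1 / 2) / R.d k.1 ≤ (R.ms p k.1 + R.B) / R.d k.1 := by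
    refine div_le_div_of_nonneg_right ?_ hd.le
    linarith
  have h5 : (R.ms p k.1 + R.B) / R.d k.1
      = (R.ed ((k.1 : ℕ) + 1) - R.ed k.1) * p + R.B / R.d k.1 := by
    unfold ms
    field_simp
  have h6 : R.ed ((k.1 : ℕ) + 1) * p ≤ R.ed R.B * p :=
    mul_le_mul_of_nonneg_right (R.ed_mono k.1.2 le_rfl) (Nat.cast_nonneg p)
  unfold node
  rw [h5] at h4
  linarith

theorem ynode_injective (R : Ref) (p : ℕ) : Function.Injective (R.ynode p) := by
  intro k l hkl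
  by_contra hne
  obtain ⟨δ0, h0, h1⟩ := R.node_sep
  have h2 := (h1 p k l hne).1
  have h3 := R.node_pos p k
  have h4 := R.node_pos p l
  have h5 : R.node p k = R.node p l := by
    unfold ynode at hkl
    have h6 : R.node p k ^ 2 = R.node p l ^ 2 := by linarith
    exact (sq_eq_sq₀ h3.le h4.le).1 h6
  rw [h5, sub_self, abs_zero] at h2
  linarith

end Ref

/-- nodes of `Z` and `X` do not meet -/
theorem ynode_sum_injective (X Z : Ref) (h : Z.ed Z.B < X.ed 0) : ∃ p0 : ℕ, ∀ p : ℕ, p0 ≤ p →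
    Function.Injective (Sum.elim (X.ynode p) (Z.ynode p)) := by
  obtain ⟨C, hC⟩ := Z.node_le
  have hε : 0 < X.ed 0 - Z.ed Z.B := by linarith
  obtain ⟨p0, hp0⟩ := exists_nat_gt (C / (X.ed 0 - Z.ed Z.B))
  refine ⟨p0, fun p hp => ?_⟩
  have hp' : C < (X.ed 0 - Z.ed Z.B) * p := by
    have h1 : C / (X.ed 0 - Z.ed Z.B) < p := lt_of_lt_of_le hp0 (by exact_mod_cast hp)
    rw [div_lt_iff₀ hε] at h1
    linarith
  have key : ∀ (k : X.Idx p) (l : Z.Idx p), Z.ynode p l < X.ynode p k := by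
    intro k l
    have h1 := X.node_ge p k
    have h2 := hC p l
    have h3 := Z.node_pos p l
    have h4 : Z.node p l < X.node p k := by linarith
    unfold Ref.ynode
    nlinarith
  rintro (k | k) (l | l) hkl
  · exact congrArg Sum.inl (X.ynode_injective p hkl)
  · exact absurd hkl (key k l).ne'
  · exact absurd hkl (key l k).ne
  · exact congrArg Sum.inr (Z.ynode_injective p hkl)

end Pool.Agent.Z5
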