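import Pool.Agent.Z5.ArchDefs
import Pool.Agent.Z5.ArchRef
import Pool.Agent.Z5.ArchPot
import Pool.Agent.Z5.ArchPole

/-!
# Z5: archimedean part, the rows of `F`
-/

open Finset

namespace Pool.Agent.Z5

/-! ### continuity of the potentials on the scale `1 / p` -/

/-- `f` changes by `O(log p / p)` near `a` on the scale `1 / p` -/
def NearLip (a : ℝ) (f : ℝ → ℝ) : Prop :=
  ∃ C : ℝ, ∃ p0 : ℕ, ∀ p : ℕ, p0 ≤ p → ∀ T : ℝ, |T - a * p| ≤ 1 →
    |p * f (T / p) - p * f a| ≤ C * Real.log p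

theorem NearLip.add {a : ℝ} {f g : ℝ → ℝ} (hf : NearLip a f) (hg : NearLip a g) :
    NearLip a fun z => f z + g z := by
  obtain ⟨C, p0, h⟩ := hf
  obtain ⟨D, q0, h'⟩ := hg
  refine ⟨C + D, max p0 q0, fun p hp T hT => ?_⟩
  have h1 := h p (le_of_max_le_left hp) T hT
  have h2 := h' p (le_of_max_le_right hp) T hT
  have h3 : (p : ℝ) * (f (T / p) + g (T / p)) - p * (f a + g a) =
      (p * f (T / p) - p * f a) + (p * g (T / p) - p * g a) := by ring
  rw [h3, add_mul]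
  exact (abs_add_le _ _).trans (add_le_add h1 h2)

theorem NearLip.const_mul {a : ℝ} {f : ℝ → ℝ} (hf : NearLip a f) (c : ℝ) :
    NearLip a fun z => c * f z := by
  obtain ⟨C, p0, h⟩ := hf
  refine ⟨|c| * C, p0, fun p hp T hT => ?_⟩
  have h1 := h p hp T hT
  have h3 : (p : ℝ) * (c * f (T / p)) - p * (c * f a) = c * (p * f (T / p) - p * f a) := by ring
  rw [h3, abs_mul, mul_assoc]
  exact mul_le_mul_of_nonneg_left h1 (abs_nonneg _)

theorem NearLip.sub {a : ℝ} {f g : ℝ → ℝ} (hf : NearLip a f) (hg : NearLip a g) :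
    NearLip a fun z => f z - g z := by
  have h := hf.add (hg.const_mul (-1))
  refine (congrArg (NearLip a) ?_).mp h
  ext z; ring

theorem NearLip.sum {a : ℝ} {ι : Type*} (s : Finset ι) (f : ι → ℝ → ℝ)
    (h : ∀ i ∈ s, NearLip a (f i)) : NearLip a fun z => ∑ i ∈ s, f i z := by
  classical
  induction s using Finset.induction_on with
  | empty => exact ⟨0, 0, fun p _ T _ => by simp⟩
  | insert i s hi ih =>
    have h1 := (h i (mem_insert_self _ _)).add (ih fun j hj => h j (mem_insert_of_mem hj))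
    refine (congrArg (NearLip a) ?_).mp h1
    ext z; rw [sum_insert hi]

theorem nearLip_HH (a b : ℝ) : NearLip a fun z => HH (b + z) := by
  set K : ℝ := |b + a| + 2 with hK
  have hK1 : 1 ≤ K := by have := abs_nonneg (b + a); linarith
  have hK0 : 0 < K := by linarith
  refine ⟨Real.log K + 4, 3, fun p hp T hT => ?_⟩
  have hp3 : (3 : ℝ) ≤ p := by exact_mod_cast hp
  have hp0 : (0 : ℝ) < p := by linarith
  have hlog : 1 ≤ Real.log p := by
    have h1 : Real.log (Real.exp 1) ≤ Real.log p :=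
      Real.log_le_log (Real.exp_pos _) (by have := Real.exp_one_lt_d9; linarith)
    rwa [Real.log_exp] at h1
  have h1 : (p : ℝ) * HH (b + T / p) = HH (p * b + T) - (p * b + T) * Real.log p := by
    have := HH_scale (y := b + T / p) hp0
    have h2 : (p : ℝ) * (b + T / p) = p * b + T := by field_simp
    rw [h2] at this
    linarith
  have h2 : (p : ℝ) * HH (b + a) = HH (p * b + p * a) - (p * b + p * a) * Real.log p := by
    have := HH_scale (y := b + a) hp0
    have h2 : (p : ℝ) * (b + a) = p * b + p * a := by ring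
    rw [h2] at this
    linarith
  have hR : (1 : ℝ) ≤ K * p := by nlinarith
  have hb : |p * b + p * a| ≤ K * p := by
    rw [← mul_add, abs_mul, abs_of_pos hp0, mul_comm]
    refine mul_le_mul_of_nonneg_right ?_ hp0.le
    rw [hK]; linarith
  have hb' : |p * b + T| ≤ K * p := by
    have h3 : (p : ℝ) * b + T = (p * b + p * a) + (T - a * p) := by ring
    have h4 : |p * b + p * a| ≤ |b + a| * p := by
      rw [← mul_add, abs_mul, abs_of_pos hp0, mul_comm]
    rw [h3]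
    refine (abs_add_le _ _).trans ?_
    rw [hK]; nlinarith
  have h5 := abs_HH_sub_le hR hb hb'
  have h6 : (p : ℝ) * b + T - (p * b + p * a) = T - a * p := by ring
  rw [h6] at h5
  have hlK : 0 ≤ Real.log K := Real.log_nonneg hK1
  have h7 : Real.log (K * p) = Real.log K + Real.log p := Real.log_mul hK0.ne' hp0.ne'
  have h8 : (p : ℝ) * HH (b + T / p) - p * HH (b + a) =
      (HH (p * b + T) - HH (p * b + p * a)) - (T - a * p) * Real.log p := by
    rw [h1, h2]; ring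
  rw [h8]
  have h9 : |(T - a * p) * Real.log p| ≤ Real.log p := by
    rw [abs_mul, abs_of_nonneg (by linarith : 0 ≤ Real.log p)]
    nlinarith
  have h10 : |T - a * p| * Real.log (K * p) + 2 ≤ Real.log K + Real.log p + 2 := by
    rw [h7]
    have : |T - a * p| * (Real.log K + Real.log p) ≤ 1 * (Real.log K + Real.log p) :=
      mul_le_mul_of_nonneg_right hT (by linarith)
    linarith
  refine (abs_sub _ _).trans ?_
  nlinarith

theorem nearLip_HH' (a b : ℝ) : NearLip a fun z => HH (b - z) := by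
  have h := (nearLip_HH a (-b)).const_mul (-1)
  refine (congrArg (NearLip a) ?_).mp h
  ext z
  rw [show -b + z = -(b - z) by ring, HH_neg]; ring

theorem nearLip_U (R : Ref) (a : ℝ) : NearLip a R.U := by
  refine NearLip.sum (range R.B) _ fun i _ => NearLip.const_mul ?_ _
  exact ((nearLip_HH' a _).sub (nearLip_HH' a _)).add ((nearLip_HH a _).sub (nearLip_HH a _))

theorem nearLip_poleU (M : ℕ) (E : ℕ → ℕ) (a : ℝ) : NearLip a (poleU M E) := by
  refine NearLip.sum (range M) _ fun m _ => NearLip.const_mul ?_ _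
  have h1 := (nearLip_HH a (-(M : ℝ) / 2 + (m + 1))).sub (nearLip_HH a (-(M : ℝ) / 2 + m))
  refine (congrArg (NearLip a) ?_).mp h1
  ext z
  congr 2 <;> ring

theorem nearLip_gF (M : ℕ) (E : ℕ → ℕ) (X Z : Ref) (a : ℝ) : NearLip a (gF M E X Z) :=
  (((nearLip_U X a).const_mul 2).add (nearLip_U Z a)).sub (nearLip_poleU M E a)

/-! ### products over the nodes -/

theorem evY_lagQ {L : ℕ} {ι : Type*} [Fintype ι] [DecidableEq ι] (v : ι → ℚ) (i : ι) (t : ℝ) :
    Polynomial.aeval ((2 * t + L) ^ 2) (lagQ v i) =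
      ∏ k ∈ univ.erase i, ((2 * t + L) ^ 2 - (v k : ℝ)) := by
  rw [lagQ, map_prod]
  refine prod_congr rfl fun k _ => ?_
  rw [map_sub, Polynomial.aeval_X, Polynomial.aeval_C]
  rfl

/-- the product over nodes is bounded by the exponential of the potential -/
theorem Ref.prod_le (R : Ref) : ∃ C : ℝ, ∃ p0 : ℕ, ∀ p : ℕ, p0 ≤ p → ∀ σ : ℝ,
    |σ| ≤ (p : ℝ) ^ 3 → ∀ S : Finset (R.Idx p), R.s * p ≤ S.card + 1 →
    ∏ k ∈ S, |(2 * σ) ^ 2 - (R.ynode p k : ℝ)| ≤
      Real.exp (p * R.U (σ / p) + 2 * R.s * p * Real.log p + R.s * p * Real.log 4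
        + C * Real.log p) := by
  obtain ⟨C, p0, h⟩ := R.pot_le
  refine ⟨C, p0, fun p hp σ hσ S hS => ?_⟩
  have h1 := h p hp σ 0 hσ le_rfl zero_le_one S hS
  by_cases h0 : ∃ k ∈ S, |(2 * σ) ^ 2 - (R.ynode p k : ℝ)| = 0
  · obtain ⟨k, hk, hk0⟩ := h0
    rw [prod_eq_zero hk hk0]
    exact (Real.exp_pos _).le
  · push Not at h0
    have h2 : ∀ k ∈ S, |(2 * σ) ^ 2 - (R.ynode p k : ℝ)| =
        Real.exp (Real.log 4 + (Real.log (|σ - R.node p k| + 0) + Real.log (|σ + R.node p k| + 0))) := by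
      intro k hk
      have h3 : (2 * σ) ^ 2 - (R.ynode p k : ℝ) = 4 * ((σ - R.node p k) * (σ + R.node p k)) := by
        rw [Ref.ynode]; push_cast; ring
      have h4 := h0 k hk
      rw [h3, abs_mul, abs_mul] at h4
      have h5 : |σ - (R.node p k : ℝ)| ≠ 0 := fun h => h4 (by rw [h]; ring)
      have h6 : |σ + (R.node p k : ℝ)| ≠ 0 := fun h => h4 (by rw [h]; ring)
      have h5' : 0 < |σ - (R.node p k : ℝ)| := lt_of_le_of_ne (abs_nonneg _) (Ne.symm h5)
      have h6' : 0 < |σ + (R.node p k : ℝ)| := lt_of_le_of_ne (abs_nonneg _) (Ne.symm h6)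
      rw [h3, abs_mul, abs_mul, add_zero, add_zero, Real.exp_add, Real.exp_add,
        Real.exp_log h5', Real.exp_log h6', Real.exp_log (by norm_num)]
      norm_num
    rw [prod_congr rfl h2, ← Real.exp_sum]
    refine Real.exp_le_exp.2 ?_
    rw [sum_add_distrib, sum_const, nsmul_eq_mul]
    have h7 : (S.card : ℝ) ≤ R.s * p := by
      have h8 : S.card ≤ Fintype.card (R.Idx p) := card_le_univ S
      rw [R.card_idx] at h8
      exact_mod_cast h8
    have h9 : 0 ≤ Real.log 4 := Real.log_nonneg (by norm_num)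
    have h10 : (S.card : ℝ) * Real.log 4 ≤ R.s * p * Real.log 4 :=
      mul_le_mul_of_nonneg_right h7 h9
    linarith

theorem erase_eq_disjSum {α β : Type*} [Fintype α] [DecidableEq α] [Fintype β] [DecidableEq β]
    (j : α ⊕ β) : ∃ (S : Finset α) (T : Finset β), univ.erase j = S.disjSum T ∧
      Fintype.card α ≤ S.card + 1 ∧ Fintype.card β ≤ T.card + 1 := by
  rcases j with a | b
  · refine ⟨univ.erase a, univ, ?_, ?_, ?_⟩
    · ext x
      rcases x with x | x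
      · simp
      · simp
    · rw [card_erase_of_mem (mem_univ _), card_univ]; omega
    · rw [card_univ]; omega
  · refine ⟨univ, univ.erase b, ?_, ?_, ?_⟩
    · ext x
      rcases x with x | x
      · simp
      · simp
    · rw [card_univ]; omega
    · rw [card_erase_of_mem (mem_univ _), card_univ]; omega

/-- the weight is bounded by the exponential of the potential of the poles -/
theorem w_le (M : ℕ) (E : ℕ → ℕ) (hM : 2 ≤ M) : ∃ C : ℝ, ∃ p0 : ℕ, ∀ p : ℕ, p0 ≤ p → ∀ t : ℕ,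
    ((t : ℝ) + 1) + (M * p - 1) / 2 ≤ (p : ℝ) ^ 3 →
    |w (M * p - 1) (fun u => E (u / p)) (t + 1)| ≤
      Real.exp (-(p * poleU M E ((((t : ℝ) + 1) + (M * p - 1) / 2) / p)
        + (∑ m ∈ range M, (E m : ℝ)) * p * Real.log p) + C * Real.log p) := by
  obtain ⟨C, p0, h⟩ := pole_ge M E
  refine ⟨C + 4, max p0 2, fun p hp t ht => ?_⟩
  have hp2 : 2 ≤ p := le_of_max_le_right hp
  have hpR : (2 : ℝ) ≤ p := by exact_mod_cast hp2
  have hp0 : (0 : ℝ) < p := by linarith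
  have hMR : (2 : ℝ) ≤ M := by exact_mod_cast hM
  have hMp : 1 ≤ M * p := by nlinarith
  have hMpR : (1 : ℝ) ≤ (M : ℝ) * p := by exact_mod_cast hMp
  set σ : ℝ := ((t : ℝ) + 1) + (M * p - 1) / 2 with hσ
  have hσ1 : 1 ≤ σ := by
    rw [hσ]; have : (0 : ℝ) ≤ t := Nat.cast_nonneg t; linarith
  have hsub : ∀ u : ℕ, σ - (M * p - 1) / 2 + u = (t : ℝ) + 1 + u := by
    intro u; rw [hσ]; ring
  have h1 := h p (le_of_max_le_left hp) σ (by rw [abs_of_pos (by linarith)]; exact ht)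
    (range (M * p)) subset_rfl (by rw [card_range]; omega) (fun u _ => by
      rw [hsub, abs_of_pos (by positivity)]
      have : (0 : ℝ) ≤ t := Nat.cast_nonneg t
      have : (0 : ℝ) ≤ u := Nat.cast_nonneg u
      linarith)
  have hrange : range (M * p - 1 + 1) = range (M * p) := by congr 1; omega
  have hcast : ((M * p - 1 : ℕ) : ℝ) = (M : ℝ) * p - 1 := by
    rw [Nat.cast_sub hMp]; push_cast; ring
  have hden : Real.exp (∑ u ∈ range (M * p), (E (u / p) : ℝ) *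
      Real.log (|σ - (M * p - 1) / 2 + u| - 1 / 4)) ≤
      ∏ u ∈ range (M * p), ((t : ℝ) + 1 + u) ^ E (u / p) := by
    rw [Real.exp_sum]
    refine prod_le_prod (fun u _ => (Real.exp_pos _).le) fun u _ => ?_
    have h2 : 0 < |σ - (M * p - 1) / 2 + u| - 1 / 4 := by
      rw [hsub, abs_of_pos (by positivity)]
      have : (0 : ℝ) ≤ t := Nat.cast_nonneg t
      have : (0 : ℝ) ≤ u := Nat.cast_nonneg u
      linarith
    rw [mul_comm, Real.exp_mul, Real.exp_log h2, Real.rpow_natCast]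
    refine pow_le_pow_left₀ h2.le ?_ _
    rw [hsub, abs_of_pos (by positivity)]
    linarith
  have hnum : 2 * ((t : ℝ) + 1) + ((M * p - 1 : ℕ) : ℝ) = 2 * σ := by
    rw [hcast, hσ]; ring
  have hprodpos : 0 < ∏ u ∈ range (M * p), ((t : ℝ) + 1 + u) ^ E (u / p) :=
    prod_pos fun u _ => by positivity
  rw [w, hrange, hnum, abs_div, abs_of_pos (by linarith : 0 < 2 * σ), abs_of_pos hprodpos,
    div_le_iff₀ hprodpos]
  have h3 : 2 * σ ≤ Real.exp (4 * Real.log p) := by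
    have h4 : Real.exp (4 * Real.log p) = (p : ℝ) ^ 4 := by
      rw [mul_comm, Real.exp_mul, Real.exp_log hp0]
      norm_cast
    rw [h4]
    have h5 : 2 * σ ≤ 2 * (p : ℝ) ^ 3 := by linarith
    nlinarith [pow_pos hp0 3]
  have h6 : Real.exp (4 * Real.log p) ≤
      Real.exp (-(p * poleU M E (σ / p) + (∑ m ∈ range M, (E m : ℝ)) * p * Real.log p)
        + (C + 4) * Real.log p) *
      Real.exp (∑ u ∈ range (M * p), (E (u / p) : ℝ) *
        Real.log (|σ - (M * p - 1) / 2 + u| - 1 / 4)) := by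
    rw [← Real.exp_add]
    refine Real.exp_le_exp.2 ?_
    linarith
  refine (h3.trans h6).trans ?_
  exact mul_le_mul_of_nonneg_left hden (Real.exp_pos _).le

/-- pointwise bound of a term with `t < p ^ 2` -/
theorem term_le (M : ℕ) (E : ℕ → ℕ) (hM : 2 ≤ M) (X Z : Ref) :
    ∃ C : ℝ, ∃ p0 : ℕ, ∀ p : ℕ, p0 ≤ p → ∀ (i : X.Idx p) (j : X.Idx p ⊕ Z.Idx p), ∀ t : ℕ,
    t < p ^ 2 →
    |w (M * p - 1) (fun u => E (u / p)) (t + 1) * evY (M * p - 1)
        (lagQ (X.ynode p) i * lagQ (Sum.elim (X.ynode p) (Z.ynode p)) j) (t + 1)| ≤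
      Real.exp (p * gF M E X Z ((((t : ℝ) + 1) + (M * p - 1) / 2) / p)
        + (4 * X.s + 2 * Z.s - ∑ m ∈ range M, (E m : ℝ)) * p * Real.log p
        + (2 * X.s + Z.s) * p * Real.log 4 + C * Real.log p) := by
  obtain ⟨C1, p1, h1⟩ := X.prod_le
  obtain ⟨C2, p2, h2⟩ := Z.prod_le
  obtain ⟨C3, p3, h3⟩ := w_le M E hM
  refine ⟨2 * C1 + C2 + C3, max (max p1 p2) (max p3 (M + 1)), fun p hp i j t ht => ?_⟩
  have hp1 : p1 ≤ p := le_of_max_le_left (le_of_max_le_left hp)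
  have hp2 : p2 ≤ p := le_of_max_le_right (le_of_max_le_left hp)
  have hp3 : p3 ≤ p := le_of_max_le_left (le_of_max_le_right hp)
  have hpM : M + 1 ≤ p := le_of_max_le_right (le_of_max_le_right hp)
  have hpR : (M : ℝ) + 1 ≤ p := by exact_mod_cast hpM
  have hMR : (2 : ℝ) ≤ M := by exact_mod_cast hM
  have hp0 : (0 : ℝ) < p := by linarith
  have hMp : 1 ≤ M * p := by nlinarith
  have hMpR : (1 : ℝ) ≤ (M : ℝ) * p := by exact_mod_cast hMp
  have htR : (t : ℝ) + 1 ≤ (p : ℝ) ^ 2 := by exact_mod_cast ht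
  set σ : ℝ := ((t : ℝ) + 1) + (M * p - 1) / 2 with hσ
  have hσ1 : 1 ≤ σ := by
    rw [hσ]; have : (0 : ℝ) ≤ t := Nat.cast_nonneg t; linarith
  have hσ3 : σ ≤ (p : ℝ) ^ 3 := by
    rw [hσ]
    nlinarith [mul_self_nonneg ((p : ℝ) - 1)]
  have hcast : ((M * p - 1 : ℕ) : ℝ) = (M : ℝ) * p - 1 := by
    rw [Nat.cast_sub hMp]; push_cast; ring
  have hY : (2 * ((t : ℝ) + 1) + ((M * p - 1 : ℕ) : ℝ)) ^ 2 = (2 * σ) ^ 2 := by
    rw [hcast, hσ]; ring
  have habs : |σ| ≤ (p : ℝ) ^ 3 := by rw [abs_of_pos (by linarith)]; exact hσ3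
  obtain ⟨S, T, hST, hS, hT⟩ := erase_eq_disjSum j
  rw [X.card_idx] at hS
  rw [Z.card_idx] at hT
  have e1 : |∏ k ∈ univ.erase i, ((2 * σ) ^ 2 - (X.ynode p k : ℝ))| ≤
      Real.exp (p * X.U (σ / p) + 2 * X.s * p * Real.log p + X.s * p * Real.log 4
        + C1 * Real.log p) := by
    rw [abs_prod]
    refine h1 p hp1 σ habs _ ?_
    rw [card_erase_of_mem (mem_univ _), card_univ, X.card_idx]; omega
  have e2 : |∏ k ∈ univ.erase j, ((2 * σ) ^ 2 -
      ((Sum.elim (X.ynode p) (Z.ynode p) k : ℚ) : ℝ))| ≤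
      Real.exp (p * X.U (σ / p) + 2 * X.s * p * Real.log p + X.s * p * Real.log 4
        + C1 * Real.log p) *
      Real.exp (p * Z.U (σ / p) + 2 * Z.s * p * Real.log p + Z.s * p * Real.log 4
        + C2 * Real.log p) := by
    rw [hST, prod_disjSum, abs_mul, abs_prod, abs_prod]
    refine mul_le_mul ?_ ?_ (prod_nonneg fun _ _ => abs_nonneg _) (Real.exp_pos _).le
    · exact h1 p hp1 σ habs S hS
    · exact h2 p hp2 σ habs T hT
  have e3 := h3 p hp3 t hσ3
  rw [evY, map_mul, evY_lagQ, evY_lagQ, hY, abs_mul, abs_mul]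
  have e4 := mul_le_mul e3 (mul_le_mul e1 e2 (abs_nonneg _) (Real.exp_pos _).le)
    (mul_nonneg (abs_nonneg _) (abs_nonneg _)) (Real.exp_pos _).le
  refine e4.trans ?_
  rw [← Real.exp_add, ← Real.exp_add, ← Real.exp_add]
  refine Real.exp_le_exp.2 (le_of_eq ?_)
  rw [gF]
  ring

/-- the exponent of the row `i` -/
noncomputable def expF (M : ℕ) (E : ℕ → ℕ) (X Z : Ref) (lF η : ℝ) (p : ℕ) (i : X.Idx p) : ℝ :=
  p * (if (i.1 : ℕ) = 0 then gF M E X Z (X.node p i / p) + η else lF)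
    + (4 * X.s + 2 * Z.s - ∑ m ∈ range M, (E m : ℝ)) * p * Real.log p
    + (2 * X.s + Z.s) * p * Real.log 4

theorem expF_ge {M : ℕ} {E : ℕ → ℕ} {X Z : Ref} {lF lR η : ℝ} (H : ArchHyp M E X Z lF lR η)
    {p : ℕ} (hp : 1 ≤ p) (i : X.Idx p) :
    p * lF + (4 * X.s + 2 * Z.s - ∑ m ∈ range M, (E m : ℝ)) * p * Real.log p
      + (2 * X.s + Z.s) * p * Real.log 4 ≤ expF M E X Z lF η p i := by
  have hp0 : (0 : ℝ) < p := by exact_mod_cast hp
  have h1 : lF ≤ (if (i.1 : ℕ) = 0 then gF M E X Z (X.node p i / p) + η else lF) := by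
    split_ifs with h0
    · obtain ⟨⟨a, ha⟩, ⟨k, hk⟩⟩ := i
      simp only at h0
      subst h0
      have hk2 : k < X.cnt p 0 := hk
      rw [X.cnt_zero p H.hXB] at hk2
      have hnode : (X.node p ⟨⟨0, ha⟩, ⟨k, hk⟩⟩ : ℚ) = X.ed 0 * p + (k + 1 / 2) := by
        rw [Ref.node]
        simp only [H.hX1, div_one]
      have hfl : (k : ℚ) + 1 ≤ (X.ed 1 - X.ed 0) * p := by
        have h2 : 0 ≤ (X.ed 1 - X.ed 0) := by have := X.ed_lt 0 X.B_pos; linarith
        have h3 : ((⌊X.d 0 * (X.ed 1 - X.ed 0) * p⌋₊ : ℕ) : ℚ) ≤ X.d 0 * (X.ed 1 - X.ed 0) * p :=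
          Nat.floor_le (by rw [H.hX1]; positivity)
        rw [H.hX1, one_mul] at h3
        have h4 : ((k : ℕ) : ℚ) + 1 ≤ ((⌊X.d 0 * (X.ed 1 - X.ed 0) * p⌋₊ : ℕ) : ℚ) := by
          exact_mod_cast hk2
        rw [H.hX1, one_mul] at h4
        linarith
      have h5 := H.hS (X.node p ⟨⟨0, ha⟩, ⟨k, hk⟩⟩ / p) (by
        rw [le_div_iff₀ hp0, hnode]
        push_cast
        linarith) (by
        rw [div_le_iff₀ hp0, hnode]
        have : ((k : ℝ)) + 1 ≤ ((X.ed 1 : ℝ) - X.ed 0) * p := by exact_mod_cast hfl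
        push_cast
        linarith)
      linarith
    · exact le_rfl
  have h2 := mul_le_mul_of_nonneg_left h1 hp0.le
  rw [expF]
  linarith

/-- all terms with `t < p ^ 2` -/
theorem near_le {M : ℕ} {E : ℕ → ℕ} {X Z : Ref} {lF lR η : ℝ} (H : ArchHyp M E X Z lF lR η) :
    ∃ C : ℝ, ∃ p0 : ℕ, ∀ p : ℕ, p0 ≤ p → ∀ (i : X.Idx p) (j : X.Idx p ⊕ Z.Idx p), ∀ t : ℕ,
    t < p ^ 2 →
    |w (M * p - 1) (fun u => E (u / p)) (t + 1) * evY (M * p - 1)
        (lagQ (X.ynode p) i * lagQ (Sum.elim (X.ynode p) (Z.ynode p)) j) (t + 1)| ≤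
      Real.exp (expF M E X Z lF η p i + C * Real.log p) := by
  obtain ⟨C1, p1, h1⟩ := term_le M E H.hM X Z
  obtain ⟨C2, p2, h2⟩ := nearLip_gF M E X Z (X.ed 1)
  refine ⟨C1 + |C2|, max (max p1 p2) 1, fun p hp i j t ht => ?_⟩
  have hp1 : p1 ≤ p := le_of_max_le_left (le_of_max_le_left hp)
  have hp2 : p2 ≤ p := le_of_max_le_right (le_of_max_le_left hp)
  have hp3 : 1 ≤ p := le_of_max_le_right hp
  have hp0 : (0 : ℝ) < p := by exact_mod_cast hp3
  have hlog : 0 ≤ Real.log p := Real.log_nonneg (by exact_mod_cast hp3)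
  have hMp : 1 ≤ M * p := by have := H.hM; nlinarith
  have hcast : ((M * p - 1 : ℕ) : ℝ) = (M : ℝ) * p - 1 := by
    rw [Nat.cast_sub hMp]; push_cast; ring
  have key := h1 p hp1 i j t ht
  set σ : ℝ := ((t : ℝ) + 1) + (M * p - 1) / 2 with hσ
  have hσ' : σ = M * p / 2 + (t + 1 / 2) := by rw [hσ]; ring
  have hed0 : ((X.ed 0 : ℚ) : ℝ) = M / 2 := by rw [H.hX0]; push_cast; ring
  by_cases hc : t < X.cnt p 0
  · by_cases hi : i = ⟨⟨0, X.B_pos⟩, ⟨t, hc⟩⟩
    · refine key.trans (Real.exp_le_exp.2 ?_)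
      have hnode : ((X.node p i : ℚ) : ℝ) = σ := by
        rw [hi, Ref.node]
        simp only [H.hX1, div_one]
        push_cast
        rw [hed0, hσ']; ring
      have h0 : ((i.1 : Fin X.B) : ℕ) = 0 := by rw [hi]
      rw [expF, if_pos h0, hnode]
      have h3 : 0 ≤ (p : ℝ) * η := mul_nonneg hp0.le H.hη
      have h4 : 0 ≤ |C2| * Real.log p := mul_nonneg (abs_nonneg _) hlog
      linarith
    · have hz : evY (M * p - 1) (lagQ (X.ynode p) i *
          lagQ (Sum.elim (X.ynode p) (Z.ynode p)) j) (t + 1) = 0 := by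
        rw [evY, map_mul, evY_lagQ]
        have hmem : (⟨⟨0, X.B_pos⟩, ⟨t, hc⟩⟩ : X.Idx p) ∈ univ.erase i :=
          mem_erase.2 ⟨Ne.symm hi, mem_univ _⟩
        rw [prod_eq_zero hmem, zero_mul]
        rw [Ref.ynode, Ref.node]
        simp only [H.hX1, div_one]
        push_cast
        rw [hcast, hed0]; ring
      rw [hz, mul_zero, abs_zero]
      exact (Real.exp_pos _).le
  · refine key.trans (Real.exp_le_exp.2 ?_)
    have hge : (X.ed 1 : ℝ) * p - 1 / 2 ≤ σ := by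
      have h3 := Nat.lt_floor_add_one ((X.d 0 * (X.ed 1 - X.ed 0) * p : ℚ))
      rw [← X.cnt_zero p H.hXB, H.hX1, one_mul] at h3
      have h4 : ((X.cnt p 0 : ℕ) : ℚ) ≤ t := by exact_mod_cast (not_lt.1 hc)
      have h5 : (X.ed 1 - X.ed 0) * (p : ℚ) < t + 1 := by linarith
      have h6 : ((X.ed 1 : ℝ) - X.ed 0) * (p : ℝ) < t + 1 := by exact_mod_cast h5
      rw [hed0] at h6
      rw [hσ']
      linarith
    have hgF : p * gF M E X Z (σ / p) ≤ p * lF + |C2| * Real.log p := by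
      by_cases h3 : (X.ed 1 : ℝ) * p ≤ σ
      · have h4 := H.hF (σ / p) (by rw [le_div_iff₀ hp0]; exact h3)
        have h5 := mul_le_mul_of_nonneg_left h4 hp0.le
        have h6 : 0 ≤ |C2| * Real.log p := mul_nonneg (abs_nonneg _) hlog
        linarith
      · have h4 := h2 p hp2 σ (by rw [abs_le]; constructor <;> linarith)
        have h5 := mul_le_mul_of_nonneg_left (H.hF (X.ed 1) le_rfl) hp0.le
        have h6 := (le_abs_self _).trans h4
        have h7 : C2 * Real.log p ≤ |C2| * Real.log p :=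
          mul_le_mul_of_nonneg_right (le_abs_self _) hlog
        linarith
    have h8 := expF_ge H hp3 i
    linarith

theorem sum_div_range (M p : ℕ) (E : ℕ → ℕ) :
    ∑ u ∈ range (M * p), E (u / p) = (∑ m ∈ range M, E m) * p := by
  rcases Nat.eq_zero_or_pos p with h | h
  · subst h; simp
  induction M with
  | zero => simp
  | succ M ih =>
    rw [Nat.add_mul, one_mul, sum_range_add, ih, sum_range_succ, add_mul]
    congr 1
    rw [sum_congr rfl (g := fun _ => E M) fun k hk => ?_]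
    · simp [mul_comm]
    · congr 1
      have := mem_range.1 hk
      rw [mul_comm, Nat.mul_add_div h, Nat.div_eq_of_lt this, add_zero]

/-- the terms with `p ^ 2 ≤ t` -/
theorem tail_le {M : ℕ} {E : ℕ → ℕ} {X Z : Ref} {lF lR η : ℝ} (H : ArchHyp M E X Z lF lR η) :
    ∃ p0 : ℕ, ∀ p : ℕ, p0 ≤ p → ∀ (i : X.Idx p) (j : X.Idx p ⊕ Z.Idx p), ∀ t : ℕ,
    p ^ 2 ≤ t →
    |w (M * p - 1) (fun u => E (u / p)) (t + 1) * evY (M * p - 1)
        (lagQ (X.ynode p) i * lagQ (Sum.elim (X.ynode p) (Z.ynode p)) j) (t + 1)| ≤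
      3 * 9 ^ ((2 * X.s + Z.s) * p) /
        (p : ℝ) ^ (2 * ((∑ m ∈ range M, E m - (4 * X.s + 2 * Z.s)) * p)) * (1 / ((t : ℝ) + 1) ^ 2) := by
  obtain ⟨D1, h1⟩ := X.node_le
  obtain ⟨D2, h2⟩ := Z.node_le
  have hsum := H.hdeg
  refine ⟨⌈|(X.ed X.B : ℝ)| + |(D1 : ℝ)| + |(Z.ed Z.B : ℝ)| + |(D2 : ℝ)|⌉₊ + M + 1,
    fun p hp i j t ht => ?_⟩
  have hpA : |(X.ed X.B : ℝ)| + |(D1 : ℝ)| + |(Z.ed Z.B : ℝ)| + |(D2 : ℝ)| ≤ p := by
    refine (Nat.le_ceil _).trans ?_
    have : ⌈|(X.ed X.B : ℝ)| + |(D1 : ℝ)| + |(Z.ed Z.B : ℝ)| + |(D2 : ℝ)|⌉₊ ≤ p := by omega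
    exact_mod_cast this
  have hpM : M + 1 ≤ p := by omega
  have hpMR : (M : ℝ) + 1 ≤ p := by exact_mod_cast hpM
  have hMR : (2 : ℝ) ≤ M := by exact_mod_cast H.hM
  have hp1 : (1 : ℝ) ≤ p := by linarith
  have hp0 : (0 : ℝ) < p := by linarith
  have hMp : 1 ≤ M * p := by have := H.hM; nlinarith
  have hcast : ((M * p - 1 : ℕ) : ℝ) = (M : ℝ) * p - 1 := by
    rw [Nat.cast_sub hMp]; push_cast; ring
  set y : ℝ := (t : ℝ) + 1 with hy
  have htR : (p : ℝ) ^ 2 ≤ t := by exact_mod_cast ht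
  have hyp : (p : ℝ) ^ 2 ≤ y := by linarith
  have hy1 : 1 ≤ y := by nlinarith
  have hy0 : 0 < y := by linarith
  have hXn : ∀ k : X.Idx p, (0 : ℝ) < X.node p k ∧ (X.node p k : ℝ) ≤ y := by
    intro k
    refine ⟨by exact_mod_cast X.node_pos p k, ?_⟩
    have h3 : (X.node p k : ℝ) ≤ X.ed X.B * p + D1 := by exact_mod_cast h1 p k
    have h4 : (X.ed X.B : ℝ) * p ≤ |(X.ed X.B : ℝ)| * p :=
      mul_le_mul_of_nonneg_right (le_abs_self _) hp0.le
    have h5 := le_abs_self (D1 : ℝ)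
    have h6 := abs_nonneg (D1 : ℝ)
    have h7 := abs_nonneg (Z.ed Z.B : ℝ)
    have h8 := abs_nonneg (D2 : ℝ)
    nlinarith
  have hZn : ∀ k : Z.Idx p, (0 : ℝ) < Z.node p k ∧ (Z.node p k : ℝ) ≤ y := by
    intro k
    refine ⟨by exact_mod_cast Z.node_pos p k, ?_⟩
    have h3 : (Z.node p k : ℝ) ≤ Z.ed Z.B * p + D2 := by exact_mod_cast h2 p k
    have h4 : (Z.ed Z.B : ℝ) * p ≤ |(Z.ed Z.B : ℝ)| * p :=
      mul_le_mul_of_nonneg_right (le_abs_self _) hp0.le
    have h5 := le_abs_self (D2 : ℝ)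
    have h6 := abs_nonneg (D2 : ℝ)
    have h7 := abs_nonneg (X.ed X.B : ℝ)
    have h8 := abs_nonneg (D1 : ℝ)
    nlinarith
  set σ2 : ℝ := 2 * y + ((M * p - 1 : ℕ) : ℝ) with hσ2
  have hσlow : 2 * y ≤ σ2 := by
    rw [hσ2]; have : (0 : ℝ) ≤ ((M * p - 1 : ℕ) : ℝ) := Nat.cast_nonneg _; linarith
  have hσup : σ2 ≤ 3 * y := by
    rw [hσ2, hcast]; nlinarith
  have hfac : ∀ x : ℝ, 0 < x → x ≤ y → |σ2 ^ 2 - 4 * x ^ 2| ≤ 9 * y ^ 2 := by
    intro x hx0 hxy
    rw [abs_le]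
    constructor
    · nlinarith
    · nlinarith
  have hfX : ∀ k : X.Idx p, |σ2 ^ 2 - ((X.ynode p k : ℚ) : ℝ)| ≤ 9 * y ^ 2 := by
    intro k
    rw [Ref.ynode]; push_cast
    exact hfac _ (hXn k).1 (hXn k).2
  have hfZ : ∀ k : Z.Idx p, |σ2 ^ 2 - ((Z.ynode p k : ℚ) : ℝ)| ≤ 9 * y ^ 2 := by
    intro k
    rw [Ref.ynode]; push_cast
    exact hfac _ (hZn k).1 (hZn k).2
  have hcX : 0 < X.s * p := by
    rw [← X.card_idx]; exact Fintype.card_pos_iff.2 ⟨i⟩
  have e1 : |∏ k ∈ univ.erase i, (σ2 ^ 2 - ((X.ynode p k : ℚ) : ℝ))| ≤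
      (9 * y ^ 2) ^ (X.s * p - 1) := by
    rw [abs_prod]
    refine (prod_le_prod (fun _ _ => abs_nonneg _) fun k _ => hfX k).trans (le_of_eq ?_)
    rw [prod_const, card_erase_of_mem (mem_univ _), card_univ, X.card_idx]
  have e2 : |∏ k ∈ univ.erase j, (σ2 ^ 2 - ((Sum.elim (X.ynode p) (Z.ynode p) k : ℚ) : ℝ))| ≤
      (9 * y ^ 2) ^ (X.s * p + Z.s * p - 1) := by
    rw [abs_prod]
    refine (prod_le_prod (g := fun _ => 9 * y ^ 2) (fun _ _ => abs_nonneg _) fun k _ => ?_).trans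
      (le_of_eq ?_)
    · rcases k with k | k
      · exact hfX k
      · exact hfZ k
    · rw [prod_const, card_erase_of_mem (mem_univ _), card_univ, Fintype.card_sum, X.card_idx,
        Z.card_idx]
  have hrange : range (M * p - 1 + 1) = range (M * p) := by congr 1; omega
  have e3 : |w (M * p - 1) (fun u => E (u / p)) y| ≤
      3 * y / y ^ ((∑ m ∈ range M, E m) * p) := by
    have hprod : y ^ ((∑ m ∈ range M, E m) * p) ≤
        ∏ u ∈ range (M * p), (y + u) ^ E (u / p) := by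
      rw [← sum_div_range, ← prod_pow_eq_pow_sum]
      refine prod_le_prod (fun _ _ => by positivity) fun u _ => ?_
      refine pow_le_pow_left₀ hy0.le ?_ _
      have : (0 : ℝ) ≤ u := Nat.cast_nonneg u
      linarith
    have hpp : 0 < y ^ ((∑ m ∈ range M, E m) * p) := by positivity
    rw [w, hrange, abs_div, abs_of_pos (by linarith : 0 < 2 * y + ((M * p - 1 : ℕ) : ℝ)),
      abs_of_pos (hpp.trans_le hprod)]
    exact div_le_div₀ (by linarith) hσup hpp hprod
  rw [evY, map_mul, evY_lagQ, evY_lagQ, abs_mul, abs_mul]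
  have e4 := mul_le_mul e3 (mul_le_mul e1 e2 (abs_nonneg _) (by positivity))
    (mul_nonneg (abs_nonneg _) (abs_nonneg _)) (by positivity)
  refine e4.trans ?_
  set K := ∑ m ∈ range M, E m with hK
  set n := (2 * X.s + Z.s) * p with hn
  set c := K - (4 * X.s + 2 * Z.s) with hc
  have hKn : K * p = 2 * n + c * p := by
    have h3 : K = (4 * X.s + 2 * Z.s) + c := by omega
    rw [h3, hn]; ring
  obtain ⟨q, hq⟩ : ∃ q, (X.s * p - 1) + (X.s * p + Z.s * p - 1) = q := ⟨_, rfl⟩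
  have hqn : q + 2 = n := by
    have : n = X.s * p + X.s * p + Z.s * p := by rw [hn]; ring
    omega
  rw [← pow_add, hq, hKn, ← hqn]
  have h9 : (9 * y ^ 2 : ℝ) ^ q = 9 ^ q * y ^ (2 * q) := by rw [mul_pow, ← pow_mul]
  have h10 : y ^ (2 * (q + 2) + c * p) = y ^ (2 * q) * y ^ 4 * y ^ (c * p) := by
    rw [← pow_add, ← pow_add]; congr 1
  have h11 : (9 : ℝ) ^ (q + 2) = 9 ^ q * 81 := by rw [pow_add]; norm_num
  have h12 : (p : ℝ) ^ (2 * (c * p)) ≤ y ^ (c * p) := by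
    rw [pow_mul]; exact pow_le_pow_left₀ (by positivity) hyp _
  rw [h9, h10, h11, mul_one_div, div_mul_eq_mul_div, div_div, div_le_div_iff₀ (by positivity)
    (by positivity)]
  have h13 : 0 < y ^ (2 * q) := by positivity
  have h14 : 0 < (9 : ℝ) ^ q := by positivity
  have h15 : 0 < (p : ℝ) ^ (2 * (c * p)) := by positivity
  calc 3 * y * (9 ^ q * y ^ (2 * q)) * ((p : ℝ) ^ (2 * (c * p)) * y ^ 2)
      = 3 * 9 ^ q * y ^ (2 * q) * (y ^ 3 * (p : ℝ) ^ (2 * (c * p))) := by ring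
    _ ≤ 3 * 9 ^ q * y ^ (2 * q) * (81 * y ^ 4 * y ^ (c * p)) := by
        refine mul_le_mul_of_nonneg_left ?_ (by positivity)
        refine mul_le_mul ?_ h12 h15.le (by positivity)
        have h16 : y ^ 3 ≤ y ^ 4 := pow_le_pow_right₀ hy1 (by norm_num)
        have h17 : 0 < y ^ 4 := by positivity
        linarith
    _ = _ := by ring

theorem cube_aux {x B : ℝ} (hx : 2 ≤ x) (hB : 0 < B) : x ^ 2 * B + B ≤ x ^ 3 * B := by
  have h1 : x ^ 2 + 1 ≤ x ^ 3 := by
    have h2 : 4 ≤ x ^ 2 := by nlinarith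
    have h3 : x ^ 3 = x * x ^ 2 := by ring
    rw [h3]; nlinarith
  have h2 := mul_le_mul_of_nonneg_right h1 hB.le
  linarith

/-- **Rows of `F`.** -/
theorem rowF {M : ℕ} {E : ℕ → ℕ} {X Z : Ref} {lF lR η : ℝ} (H : ArchHyp M E X Z lF lR η) :
    ∃ C : ℝ, ∃ p0 : ℕ, ∀ p : ℕ, p0 ≤ p → ∀ (i : X.Idx p) (j : X.Idx p ⊕ Z.Idx p),
      |F (M * p - 1) (fun u => E (u / p))
          (lagQ (X.ynode p) i * lagQ (Sum.elim (X.ynode p) (Z.ynode p)) j)|
        ≤ Real.exp (p * (if (i.1 : ℕ) = 0 then gF M E X Z (X.node p i / p) + η else lF)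
          + (4 * X.s + 2 * Z.s - ∑ m ∈ range M, (E m : ℝ)) * p * Real.log p
          + (2 * X.s + Z.s) * p * Real.log 4 + C * Real.log p) := by
  obtain ⟨C1, p1, h1⟩ := near_le H
  obtain ⟨p2, h2⟩ := tail_le H
  have hsummable : Summable fun t : ℕ => 1 / ((t : ℝ) + 1) ^ 2 := by
    have h3 := (summable_nat_add_iff 1).2 (Real.summable_one_div_nat_pow.2 (one_lt_two))
    simpa using h3
  set Z2 : ℝ := ∑' t : ℕ, 1 / ((t : ℝ) + 1) ^ 2 with hZ2
  have hZ2pos : 0 ≤ Z2 := tsum_nonneg fun t => by positivity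
  set n0 : ℕ := 2 * X.s + Z.s with hn0
  set A : ℝ := Real.log (3 * (Z2 + 1)) + n0 * Real.log (9 / 4) - lF with hA
  refine ⟨|C1| + 3, max (max p1 p2) (⌈Real.exp A⌉₊ + 2), fun p hp i j => ?_⟩
  have hp1 : p1 ≤ p := le_of_max_le_left (le_of_max_le_left hp)
  have hp2 : p2 ≤ p := le_of_max_le_right (le_of_max_le_left hp)
  have hp3 : ⌈Real.exp A⌉₊ + 2 ≤ p := le_of_max_le_right hp
  have hpA : Real.exp A ≤ p := by
    refine (Nat.le_ceil _).trans ?_
    have : ⌈Real.exp A⌉₊ ≤ p := by omega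
    exact_mod_cast this
  have hp2' : (2 : ℝ) ≤ p := by
    have : 2 ≤ p := by omega
    exact_mod_cast this
  have hp0 : (0 : ℝ) < p := by linarith
  have hlog : 0 ≤ Real.log p := Real.log_nonneg (by linarith)
  have hlogA : A ≤ Real.log p := by
    have := Real.log_le_log (Real.exp_pos A) hpA
    rwa [Real.log_exp] at this
  set c : ℕ := ∑ m ∈ range M, E m - (4 * X.s + 2 * Z.s) with hc
  have hc1 : 1 ≤ c := by have := H.hdeg; omega
  have hcR : ((∑ m ∈ range M, E m : ℕ) : ℝ) = 4 * X.s + 2 * Z.s + c := by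
    have h3 : ∑ m ∈ range M, E m = (4 * X.s + 2 * Z.s) + c := by have := H.hdeg; omega
    rw [h3]; push_cast; ring
  set D : ℝ := 3 * 9 ^ (n0 * p) / (p : ℝ) ^ (2 * (c * p)) with hD
  have hD0 : 0 ≤ D := by positivity
  set B : ℝ := Real.exp (expF M E X Z lF η p i + |C1| * Real.log p) with hB
  -- the dominating series
  have hg : HasSum (fun t : ℕ => (if t ∈ range (p ^ 2) then B else 0) + D * (1 / ((t : ℝ) + 1) ^ 2))
      ((p : ℝ) ^ 2 * B + D * Z2) := by
    refine HasSum.add ?_ (hsummable.hasSum.mul_left D)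
    have h3 : HasSum (fun t : ℕ => if t ∈ range (p ^ 2) then B else 0)
        (∑ t ∈ range (p ^ 2), (if t ∈ range (p ^ 2) then B else 0)) :=
      hasSum_sum_of_ne_finset_zero (fun t ht => if_neg ht)
    have h4 : ∑ t ∈ range (p ^ 2), (if t ∈ range (p ^ 2) then B else 0) = (p : ℝ) ^ 2 * B := by
      rw [sum_congr rfl fun t ht => if_pos ht, sum_const, card_range, nsmul_eq_mul]
      push_cast; ring
    rwa [h4] at h3
  have hbound : ∀ t : ℕ, ‖w (M * p - 1) (fun u => E (u / p)) (t + 1) * evY (M * p - 1)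
        (lagQ (X.ynode p) i * lagQ (Sum.elim (X.ynode p) (Z.ynode p)) j) (t + 1)‖ ≤
      (if t ∈ range (p ^ 2) then B else 0) + D * (1 / ((t : ℝ) + 1) ^ 2) := by
    intro t
    rw [Real.norm_eq_abs]
    have h5 : 0 ≤ D * (1 / ((t : ℝ) + 1) ^ 2) := by positivity
    by_cases ht : t < p ^ 2
    · rw [if_pos (mem_range.2 ht)]
      refine (h1 p hp1 i j t ht).trans ?_
      have h6 : Real.exp (expF M E X Z lF η p i + C1 * Real.log p) ≤ B := by
        refine Real.exp_le_exp.2 ?_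
        have := mul_le_mul_of_nonneg_right (le_abs_self C1) hlog
        linarith
      linarith
    · rw [if_neg (by rw [mem_range]; exact ht), zero_add]
      exact h2 p hp2 i j t (not_lt.1 ht)
  have h7 := tsum_of_norm_bounded hg hbound
  rw [Real.norm_eq_abs] at h7
  have h8 : |F (M * p - 1) (fun u => E (u / p))
      (lagQ (X.ynode p) i * lagQ (Sum.elim (X.ynode p) (Z.ynode p)) j)| ≤
      (p : ℝ) ^ 2 * B + D * Z2 := h7
  -- the tail is small
  have h9 : D * Z2 ≤ B := by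
    have h10 := expF_ge H (by omega : 1 ≤ p) i
    have hkey : Real.log (3 * (Z2 + 1)) + (n0 * p : ℕ) * Real.log 9 - (2 * (c * p) : ℕ) * Real.log p
        ≤ expF M E X Z lF η p i := by
      refine le_trans ?_ h10
      have h11 : Real.log (9 / 4) = Real.log 9 - Real.log 4 :=
        Real.log_div (by norm_num) (by norm_num)
      have h12 : (∑ m ∈ range M, (E m : ℝ)) = 4 * X.s + 2 * Z.s + c := by
        rw [← hcR]; push_cast; rfl
      have h13 : (n0 : ℝ) = 2 * X.s + Z.s := by rw [hn0]; push_cast; ring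
      have h14 : 0 ≤ Real.log (3 * (Z2 + 1)) := Real.log_nonneg (by linarith)
      have h15 : Real.log (3 * (Z2 + 1)) ≤ p * Real.log (3 * (Z2 + 1)) := by nlinarith
      have h16 : (1 : ℝ) ≤ c := by exact_mod_cast hc1
      have h17 : (p : ℝ) * A ≤ p * Real.log p := mul_le_mul_of_nonneg_left hlogA hp0.le
      have h18 : (p : ℝ) * Real.log p ≤ c * (p * Real.log p) := by
        have : 0 ≤ (p : ℝ) * Real.log p := mul_nonneg hp0.le hlog
        nlinarith
      rw [h12, ← h13]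
      push_cast
      rw [hA, h11] at h17
      have h19 : (p : ℝ) * (Real.log (3 * (Z2 + 1)) + n0 * (Real.log 9 - Real.log 4) - lF) =
          p * Real.log (3 * (Z2 + 1)) + n0 * p * Real.log 9 - n0 * p * Real.log 4 - p * lF := by
        ring
      rw [h19] at h17
      have h20 : (4 * (X.s : ℝ) + 2 * Z.s - (4 * X.s + 2 * Z.s + c)) * p * Real.log p =
          - (c * (p * Real.log p)) := by ring
      rw [h20]
      nlinarith
    have h21 : D * Z2 ≤ Real.exp (Real.log (3 * (Z2 + 1)) + (n0 * p : ℕ) * Real.log 9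
        - (2 * (c * p) : ℕ) * Real.log p) := by
      rw [Real.exp_sub, Real.exp_add, Real.exp_log (by linarith), mul_comm ((n0 * p : ℕ) : ℝ),
        mul_comm ((2 * (c * p) : ℕ) : ℝ), Real.exp_mul, Real.exp_mul, Real.exp_log (by norm_num),
        Real.exp_log hp0, Real.rpow_natCast, Real.rpow_natCast, hD, div_mul_eq_mul_div]
      refine div_le_div_of_nonneg_right ?_ (by positivity)
      have : (0 : ℝ) < 9 ^ (n0 * p) := by positivity
      nlinarith
    refine h21.trans (Real.exp_le_exp.2 ?_)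
    have : 0 ≤ |C1| * Real.log p := mul_nonneg (abs_nonneg _) hlog
    linarith
  have h22 : (p : ℝ) ^ 2 * B + B ≤ (p : ℝ) ^ 3 * B := cube_aux hp2' (Real.exp_pos _)
  have h24 : (p : ℝ) ^ 3 * B = Real.exp (expF M E X Z lF η p i + (|C1| + 3) * Real.log p) := by
    have h25 : (p : ℝ) ^ 3 = Real.exp (3 * Real.log p) := by
      rw [mul_comm, Real.exp_mul, Real.exp_log hp0]; norm_cast
    rw [h25, hB, ← Real.exp_add]
    congr 1; ring
  have h26 : |F (M * p - 1) (fun u => E (u / p))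
      (lagQ (X.ynode p) i * lagQ (Sum.elim (X.ynode p) (Z.ynode p)) j)| ≤
      Real.exp (expF M E X Z lF η p i + (|C1| + 3) * Real.log p) := by
    rw [← h24]; linarith
  exact h26

end Pool.Agent.Z5
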