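import Pool.Agent.Z5.ArchRef

/-!
# Z5: sums of potentials over the nodes of a reference density
-/

set_option autoImplicit false

open Finset

namespace Pool.Agent.Z5

/-- the mutual energy is symmetric -/
theorem Ref.energy_comm (R R' : Ref) : R.energy R' = R'.energy R := by
  simp only [Ref.energy, Ref.V, ← Finset.sum_sub_distrib, Finset.mul_sum]
  rw [Finset.sum_comm]
  refine Finset.sum_congr rfl fun j _ => Finset.sum_congr rfl fun i _ => ?_
  have e : ∀ a b : ℝ, GG (a - b) = GG (b - a) := fun a b => by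
    rw [← GG_neg (b - a)]; congr 1; ring
  rw [e (R'.ed j) (R.ed (i + 1)), e (R'.ed (j + 1)) (R.ed (i + 1)), e (R'.ed j) (R.ed i),
    e (R'.ed (j + 1)) (R.ed i), add_comm ((R'.ed (j + 1) : ℚ) : ℝ) (R.ed (i + 1)),
    add_comm ((R'.ed j : ℚ) : ℝ) (R.ed (i + 1)), add_comm ((R'.ed (j + 1) : ℚ) : ℝ) (R.ed i),
    add_comm ((R'.ed j : ℚ) : ℝ) (R.ed i)]
  ring

namespace AREn

/-- `GG` is Lipschitz on bounded sets -/
lemma exists_lip_GG (K : ℝ) : ∃ K' : ℝ, 0 ≤ K' ∧ ∀ u v : ℝ, |u| ≤ K → |v| ≤ K →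
    |GG u - GG v| ≤ K' * |u - v| := by
  obtain ⟨M, hM⟩ := (isCompact_Icc (a := -K) (b := K)).exists_bound_of_continuousOn
    continuous_HH.continuousOn
  refine ⟨max M 0, le_max_right _ _, fun u v hu hv => ?_⟩
  have h := (convex_Icc (-K) K).norm_image_sub_le_of_norm_hasDerivWithin_le
    (f := GG) (f' := HH) (C := max M 0) (x := v) (y := u)
    (fun y _ => (hasDerivAt_GG y).hasDerivWithinAt)
    (fun y hy => (hM y hy).trans (le_max_left _ _)) (abs_le.1 hv) (abs_le.1 hu)
  simpa [Real.norm_eq_abs] using h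

lemma sum_half (m : ℕ) : ∑ k ∈ range m, ((k : ℝ) + 1 / 2) = (m : ℝ) ^ 2 / 2 := by
  induction m with
  | zero => simp
  | succ m ih => rw [Finset.sum_range_succ, ih]; push_cast; ring

/-- scaled version of `abs_sum_HH_sub_le` -/
lemma abs_sum_scaled {A h c R N : ℝ} (m : ℕ) (hh : 0 < h) (hN : 0 < N) (hR : 1 ≤ R)
    (hA : |c - A| ≤ R) (hB : |c - (A + m * h)| ≤ R) :
    |∑ k ∈ range m, N * HH ((c - (A + (k + 1 / 2) * h)) / N)
        - N ^ 2 * ((GG ((c - A) / N) - GG ((c - (A + m * h)) / N)) / h)|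
      ≤ m * (h * Real.log R + 2) := by
  have h1 := abs_sum_HH_sub_le m hh hR hA hB
  have h2 : ∀ y : ℝ, N * HH (y / N) = HH y - y * Real.log N := by
    intro y
    have := HH_scale (N := N) (y := y / N) hN
    have h3 : N * (y / N) = y := by field_simp
    rw [h3] at this
    linarith
  have h3 : ∀ y : ℝ, N ^ 2 * GG (y / N) = GG y - y ^ 2 / 2 * Real.log N := by
    intro y
    have := GG_scale (N := N) (y := y / N) hN
    have h3 : N * (y / N) = y := by field_simp
    have h4 : N ^ 2 * ((y / N) ^ 2 / 2) = y ^ 2 / 2 := by field_simp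
    rw [h3, h4] at this
    linarith
  have h4 : ∑ k ∈ range m, (c - (A + ((k : ℝ) + 1 / 2) * h)) = m * (c - A) - h * (m ^ 2 / 2) := by
    rw [← sum_half m, Finset.mul_sum]
    have : ∀ k ∈ range m, c - (A + ((k : ℝ) + 1 / 2) * h) = (c - A) - h * ((k : ℝ) + 1 / 2) := by
      intro k _; ring
    rw [Finset.sum_congr rfl this, Finset.sum_sub_distrib, Finset.sum_const, card_range,
      nsmul_eq_mul]
  have h5 : ∑ k ∈ range m, N * HH ((c - (A + (k + 1 / 2) * h)) / N)
        - N ^ 2 * ((GG ((c - A) / N) - GG ((c - (A + m * h)) / N)) / h)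
      = ∑ k ∈ range m, HH (c - (A + (k + 1 / 2) * h)) - (GG (c - A) - GG (c - (A + m * h))) / h := by
    have h6 : N ^ 2 * ((GG ((c - A) / N) - GG ((c - (A + m * h)) / N)) / h)
        = (N ^ 2 * GG ((c - A) / N) - N ^ 2 * GG ((c - (A + m * h)) / N)) / h := by ring
    rw [h6, h3, h3, Finset.sum_congr rfl fun k _ => h2 _, Finset.sum_sub_distrib, ← Finset.sum_mul,
      h4]
    field_simp
    ring_nf
  rw [h5]
  exact h1

/-- midpoint sums of `f` over the block `i` are governed by the primitive `F` -/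
def Good (R : Ref) (i : ℕ) (f F : ℝ → ℝ) : Prop :=
  ∃ C : ℝ, ∀ p : ℕ, 2 ≤ p →
    |∑ k ∈ range (R.cnt p i), (p : ℝ) * f (((R.ed i : ℝ) * p + (k + 1 / 2) / (R.d i : ℝ)) / p)
        - (p : ℝ) ^ 2 * ((R.d i : ℝ) * (F (R.ed (i + 1)) - F (R.ed i)))| ≤ C * p * Real.log p

lemma Good.add {R : Ref} {i : ℕ} {f F g G : ℝ → ℝ} (hf : Good R i f F) (hg : Good R i g G) :
    Good R i (fun z => f z + g z) (fun z => F z + G z) := by
  obtain ⟨C, hC⟩ := hf
  obtain ⟨D, hD⟩ := hg
  refine ⟨C + D, fun p hp => ?_⟩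
  have h1 := hC p hp
  have h2 := hD p hp
  simp only [mul_add, Finset.sum_add_distrib]
  rw [abs_le] at h1 h2 ⊢
  constructor
  · nlinarith [h1.1, h2.1]
  · nlinarith [h1.2, h2.2]

lemma Good.const_mul {R : Ref} {i : ℕ} {f F : ℝ → ℝ} (a : ℝ) (hf : Good R i f F) :
    Good R i (fun z => a * f z) (fun z => a * F z) := by
  obtain ⟨C, hC⟩ := hf
  refine ⟨|a| * C, fun p hp => ?_⟩
  have h1 := mul_le_mul_of_nonneg_left (hC p hp) (abs_nonneg a)
  rw [← abs_mul] at h1
  refine le_trans (le_of_eq ?_) (h1.trans (le_of_eq (by ring)))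
  congr 1
  have e1 : ∑ k ∈ range (R.cnt p i),
        (p : ℝ) * (a * f (((R.ed i : ℝ) * p + (k + 1 / 2) / (R.d i : ℝ)) / p))
      = a * ∑ k ∈ range (R.cnt p i),
        (p : ℝ) * f (((R.ed i : ℝ) * p + (k + 1 / 2) / (R.d i : ℝ)) / p) := by
    rw [Finset.mul_sum]
    refine Finset.sum_congr rfl fun k _ => ?_
    ring
  simp only [e1]
  ring

lemma Good.sub {R : Ref} {i : ℕ} {f F g G : ℝ → ℝ} (hf : Good R i f F) (hg : Good R i g G) :
    Good R i (fun z => f z - g z) (fun z => F z - G z) := by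
  have h := hf.add (hg.const_mul (-1))
  have e1 : (fun z => f z - g z) = fun z => f z + -1 * g z := by funext z; ring
  have e2 : (fun z => F z - G z) = fun z => F z + -1 * G z := by funext z; ring
  rw [e1, e2]
  exact h

lemma Good.zero (R : Ref) (i : ℕ) : Good R i (fun _ => 0) (fun _ => 0) :=
  ⟨0, fun p _ => by simp⟩

lemma Good.sum {R : Ref} {i : ℕ} (n : ℕ) {f F : ℕ → ℝ → ℝ}
    (h : ∀ j < n, Good R i (f j) (F j)) :
    Good R i (fun z => ∑ j ∈ range n, f j z) (fun z => ∑ j ∈ range n, F j z) := by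
  induction n with
  | zero => simpa using Good.zero R i
  | succ n ih =>
    simp only [Finset.sum_range_succ]
    exact (ih fun j hj => h j (by omega)).add (h n (by omega))

lemma two_log_ge {p : ℕ} (hp : 2 ≤ p) : (1 : ℝ) ≤ 2 * Real.log p := by
  have h2 : Real.log 2 ≤ Real.log p := Real.log_le_log (by norm_num) (by exact_mod_cast hp)
  have h3 := Real.log_two_gt_d9
  linarith

lemma good_HH_sub {R : Ref} {i : ℕ} (hi : i < R.B) (b : ℝ) :
    Good R i (fun z => HH (b - z)) (fun z => -GG (b - z)) := by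
  set e0 : ℝ := (R.ed i : ℝ) with he0
  set e1 : ℝ := (R.ed (i + 1) : ℝ) with he1
  set d : ℝ := (R.d i : ℝ) with hd
  have hd0 : 0 < d := by rw [hd]; exact_mod_cast R.d_pos i hi
  have he : e0 < e1 := by rw [he0, he1]; exact_mod_cast R.ed_lt i hi
  have hB0 : (0 : ℝ) ≤ R.B := Nat.cast_nonneg _
  set K : ℝ := |b - e0| + |b - e1| + R.B / d + 1 with hK
  have hBd : 0 ≤ (R.B : ℝ) / d := by positivity
  have hK1 : 1 ≤ K := by
    have := abs_nonneg (b - e0)
    have := abs_nonneg (b - e1)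
    linarith
  obtain ⟨K', hK'0, hK'⟩ := exists_lip_GG K
  set Mc : ℝ := d * (e1 - e0) + R.B with hMc
  have hMc0 : 0 ≤ Mc := by
    rw [hMc]
    have : 0 ≤ d * (e1 - e0) := mul_nonneg hd0.le (by linarith)
    linarith
  refine ⟨Mc * (1 / d * (2 * Real.log K + 1) + 4) + 2 * K' * R.B, fun p hp => ?_⟩
  have hp0 : (0 : ℝ) < p := by
    have : 0 < p := by omega
    exact_mod_cast this
  have hp1 : (1 : ℝ) ≤ p := by
    have : 1 ≤ p := by omega
    exact_mod_cast this
  have hlp := two_log_ge hp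
  have hnear := R.cnt_near p hi
  rw [← he0, ← he1, ← hd] at hnear
  set m := R.cnt p i with hm
  have hm0 : (0 : ℝ) ≤ m := Nat.cast_nonneg _
  have hmle : (m : ℝ) ≤ Mc * p := by
    have h1 := (abs_le.1 hnear).2
    have h2 : (m : ℝ) / d ≤ (e1 - e0) * p + R.B / d := by linarith
    rw [div_le_iff₀ hd0] at h2
    have h3 : ((e1 - e0) * p + R.B / d) * d = d * (e1 - e0) * p + R.B := by
      field_simp
    rw [h3] at h2
    have h4 : (R.B : ℝ) ≤ R.B * p := by nlinarith
    rw [hMc]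
    nlinarith
  have hKp : 1 ≤ K * p := by nlinarith
  have hA : |b * p - e0 * p| ≤ K * p := by
    rw [← sub_mul, abs_mul, abs_of_pos hp0]
    apply mul_le_mul_of_nonneg_right _ hp0.le
    have := abs_nonneg (b - e1)
    linarith
  have hsplit : b * p - (e0 * p + m * (1 / d)) = (b - e1) * p - (m / d - (e1 - e0) * p) := by
    ring
  have hB : |b * p - (e0 * p + m * (1 / d))| ≤ K * p := by
    rw [hsplit]
    refine (abs_sub _ _).trans ?_
    rw [abs_mul, abs_of_pos hp0]
    have h1 : (R.B : ℝ) / d ≤ R.B / d * p := by nlinarith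
    have h2 := abs_nonneg (b - e0)
    rw [hK]
    nlinarith
  have hmain := abs_sum_scaled (A := e0 * p) (h := 1 / d) (c := b * p) (R := K * p) (N := (p : ℝ)) m
    (by positivity) hp0 hKp hA hB
  have hsum : ∑ k ∈ range m, (p : ℝ) * HH (b - (e0 * p + (k + 1 / 2) / d) / p)
      = ∑ k ∈ range m, (p : ℝ) * HH ((b * p - (e0 * p + (k + 1 / 2) * (1 / d))) / p) := by
    refine Finset.sum_congr rfl fun k _ => ?_
    congr 2
    field_simp
  have e2 : (b * p - e0 * p) / p = b - e0 := by field_simp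
  rw [← hsum, e2] at hmain
  set v : ℝ := (b * p - (e0 * p + m * (1 / d))) / p with hv
  have hvK : |v| ≤ K := by
    rw [hv, abs_div, abs_of_pos hp0, div_le_iff₀ hp0]
    exact hB
  have huK : |b - e1| ≤ K := by
    have := abs_nonneg (b - e0)
    linarith
  have hlip := hK' (b - e1) v huK hvK
  have hdiff : |b - e1 - v| ≤ R.B / d / p := by
    have h1 : b - e1 - v = (m / d - (e1 - e0) * p) / p := by
      rw [hv, hsplit]
      field_simp
      ring
    rw [h1, abs_div, abs_of_pos hp0]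
    exact div_le_div_of_nonneg_right hnear hp0.le
  have hlip2 : |GG (b - e1) - GG v| ≤ K' * (R.B / d / p) :=
    hlip.trans (mul_le_mul_of_nonneg_left hdiff hK'0)
  have hlip3 : (p : ℝ) ^ 2 * d * |GG (b - e1) - GG v| ≤ K' * R.B * p := by
    have h1 := mul_le_mul_of_nonneg_left hlip2 (by positivity : 0 ≤ (p : ℝ) ^ 2 * d)
    refine h1.trans (le_of_eq ?_)
    field_simp
  have hlogK : 0 ≤ Real.log K := Real.log_nonneg hK1
  have hlog : Real.log (K * p) ≤ (2 * Real.log K + 1) * Real.log p := by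
    rw [Real.log_mul (by linarith) hp0.ne']
    have h1 := mul_le_mul_of_nonneg_left hlp hlogK
    have h2 : (2 * Real.log K + 1) * Real.log p
        = Real.log K * (2 * Real.log p) + Real.log p := by ring
    rw [h2]
    linarith
  have herr : (m : ℝ) * (1 / d * Real.log (K * p) + 2)
      ≤ Mc * (1 / d * (2 * Real.log K + 1) + 4) * p * Real.log p := by
    have hd' : 0 ≤ 1 / d := by positivity
    have h1 : 1 / d * Real.log (K * p) + 2 ≤ (1 / d * (2 * Real.log K + 1) + 4) * Real.log p := by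
      have h3 := mul_le_mul_of_nonneg_left hlog hd'
      have h4 : (1 / d * (2 * Real.log K + 1) + 4) * Real.log p
          = 1 / d * ((2 * Real.log K + 1) * Real.log p) + 4 * Real.log p := by ring
      rw [h4]
      linarith
    have h2 : 0 ≤ 1 / d * Real.log (K * p) + 2 := by
      have : 0 ≤ Real.log (K * p) := Real.log_nonneg hKp
      positivity
    calc (m : ℝ) * (1 / d * Real.log (K * p) + 2)
        ≤ (Mc * p) * (1 / d * Real.log (K * p) + 2) := mul_le_mul_of_nonneg_right hmle h2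
      _ ≤ (Mc * p) * ((1 / d * (2 * Real.log K + 1) + 4) * Real.log p) :=
          mul_le_mul_of_nonneg_left h1 (by positivity)
      _ = _ := by ring
  have hdec : ∑ k ∈ range m, (p : ℝ) * HH (b - (e0 * p + (k + 1 / 2) / d) / p)
        - (p : ℝ) ^ 2 * (d * (-GG (b - e1) - -GG (b - e0)))
      = (∑ k ∈ range m, (p : ℝ) * HH (b - (e0 * p + (k + 1 / 2) / d) / p)
          - (p : ℝ) ^ 2 * ((GG (b - e0) - GG v) / (1 / d)))
        + (p : ℝ) ^ 2 * d * (GG (b - e1) - GG v) := by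
    have : (GG (b - e0) - GG v) / (1 / d) = d * (GG (b - e0) - GG v) := by
      field_simp
    rw [this]
    ring
  show |∑ k ∈ range m, (p : ℝ) * HH (b - (e0 * p + (k + 1 / 2) / d) / p)
        - (p : ℝ) ^ 2 * (d * (-GG (b - e1) - -GG (b - e0)))| ≤ _
  rw [hdec]
  refine (abs_add_le _ _).trans ?_
  rw [abs_mul ((p : ℝ) ^ 2 * d), abs_of_nonneg (by positivity : 0 ≤ (p : ℝ) ^ 2 * d)]
  have h9 : K' * R.B * p ≤ 2 * K' * R.B * p * Real.log p := by
    have h1 : 0 ≤ K' * R.B * p := by positivity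
    have h2 := mul_le_mul_of_nonneg_left hlp h1
    linarith
  have h10 : (Mc * (1 / d * (2 * Real.log K + 1) + 4) + 2 * K' * R.B) * p * Real.log p
      = Mc * (1 / d * (2 * Real.log K + 1) + 4) * p * Real.log p
        + 2 * K' * R.B * p * Real.log p := by ring
  rw [h10]
  linarith

lemma good_HH_add {R : Ref} {i : ℕ} (hi : i < R.B) (b : ℝ) :
    Good R i (fun z => HH (b + z)) (fun z => GG (b + z)) := by
  have h := (good_HH_sub hi (-b)).const_mul (-1)
  have e1 : (fun z => HH (b + z)) = fun z => -1 * HH (-b - z) := by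
    funext z
    have : -b - z = -(b + z) := by ring
    rw [this, HH_neg]; ring
  have e2 : (fun z => GG (b + z)) = fun z => -1 * -GG (-b - z) := by
    funext z
    have : -b - z = -(b + z) := by ring
    rw [this, GG_neg]; ring
  rw [e1, e2]
  exact h

lemma good_U {R : Ref} {i : ℕ} (hi : i < R.B) (R' : Ref) : Good R i R'.U R'.V := by
  have h := Good.sum (R := R) (i := i) R'.B
    (f := fun j z => (R'.d j : ℝ) *
      ((HH (R'.ed (j + 1) - z) - HH (R'.ed j - z)) + (HH (R'.ed (j + 1) + z) - HH (R'.ed j + z))))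
    (F := fun j z => (R'.d j : ℝ) *
      ((-GG (R'.ed (j + 1) - z) - -GG (R'.ed j - z)) + (GG (R'.ed (j + 1) + z) - GG (R'.ed j + z))))
    (fun j _ => (((good_HH_sub hi _).sub (good_HH_sub hi _)).add
      ((good_HH_add hi _).sub (good_HH_add hi _))).const_mul _)
  have e1 : R'.U = fun z => ∑ j ∈ range R'.B, (R'.d j : ℝ) *
      ((HH (R'.ed (j + 1) - z) - HH (R'.ed j - z)) +
        (HH (R'.ed (j + 1) + z) - HH (R'.ed j + z))) := rfl
  have e2 : R'.V = fun z => ∑ j ∈ range R'.B, (R'.d j : ℝ) *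
      ((-GG (R'.ed (j + 1) - z) - -GG (R'.ed j - z)) +
        (GG (R'.ed (j + 1) + z) - GG (R'.ed j + z))) := by
    funext z
    simp only [Ref.V]
    refine Finset.sum_congr rfl fun j _ => ?_
    ring
  rw [e1, e2]
  exact h

lemma good_poleU {R : Ref} {i : ℕ} (hi : i < R.B) (M : ℕ) (E : ℕ → ℕ) :
    Good R i (poleU M E) (poleV M E) := by
  have h := Good.sum (R := R) (i := i) M
    (f := fun m z => (E m : ℝ) * (HH ((-M / 2 + (m + 1)) + z) - HH ((-M / 2 + m) + z)))
    (F := fun m z => (E m : ℝ) * (GG ((-M / 2 + (m + 1)) + z) - GG ((-M / 2 + m) + z)))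
    (fun m _ => ((good_HH_add hi _).sub (good_HH_add hi _)).const_mul _)
  have e1 : poleU M E = fun z => ∑ m ∈ range M,
      (E m : ℝ) * (HH ((-M / 2 + (m + 1)) + z) - HH ((-M / 2 + m) + z)) := by
    funext z
    simp only [poleU]
    refine Finset.sum_congr rfl fun m _ => ?_
    congr 3 <;> ring
  have e2 : poleV M E = fun z => ∑ m ∈ range M,
      (E m : ℝ) * (GG ((-M / 2 + (m + 1)) + z) - GG ((-M / 2 + m) + z)) := by
    funext z
    simp only [poleV]
    refine Finset.sum_congr rfl fun m _ => ?_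
    congr 3 <;> ring
  rw [e1, e2]
  exact h

end AREn

open AREn

theorem Ref.sum_U (R R' : Ref) : ∃ C : ℝ, ∃ p0 : ℕ, ∀ p : ℕ, p0 ≤ p →
    |∑ k : R.Idx p, (p : ℝ) * R'.U (R.node p k / p) - (p : ℝ) ^ 2 * R.energy R'|
      ≤ C * p * Real.log p := by
  have h : ∀ i : ℕ, ∃ C : ℝ, i < R.B → ∀ p : ℕ, 2 ≤ p →
    |∑ k ∈ range (R.cnt p i),
        (p : ℝ) * R'.U (((R.ed i : ℝ) * p + (k + 1 / 2) / (R.d i : ℝ)) / p)
        - (p : ℝ) ^ 2 * ((R.d i : ℝ) * (R'.V (R.ed (i + 1)) - R'.V (R.ed i)))|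
      ≤ C * p * Real.log p := by
    intro i
    by_cases hi : i < R.B
    · obtain ⟨C, hC⟩ := good_U hi R'
      exact ⟨C, fun _ => hC⟩
    · exact ⟨0, fun h => absurd h hi⟩
  choose C hC using h
  refine ⟨∑ i ∈ range R.B, C i, 2, fun p hp => ?_⟩
  have h1 : ∑ k : R.Idx p, (p : ℝ) * R'.U (R.node p k / p)
      = ∑ i ∈ range R.B, ∑ k ∈ range (R.cnt p i),
        (p : ℝ) * R'.U (((R.ed i : ℝ) * p + (k + 1 / 2) / (R.d i : ℝ)) / p) := by
    rw [Fintype.sum_sigma, Finset.sum_range]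
    refine Finset.sum_congr rfl fun i _ => ?_
    rw [Finset.sum_range]
    refine Finset.sum_congr rfl fun k _ => ?_
    simp only [Ref.node]
    push_cast
    rfl
  rw [h1, Ref.energy, Finset.mul_sum, ← Finset.sum_sub_distrib, Finset.sum_mul, Finset.sum_mul]
  refine (Finset.abs_sum_le_sum_abs _ _).trans (Finset.sum_le_sum fun i hi => ?_)
  exact hC i (Finset.mem_range.1 hi) p hp

/-- the first block of `X` -/
theorem sum_gF (M : ℕ) (E : ℕ → ℕ) (X Z : Ref) (hX : X.d 0 = 1) (hXB : 2 ≤ X.B) :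
    ∃ C : ℝ, ∃ p0 : ℕ, ∀ p : ℕ, p0 ≤ p →
    |∑ k ∈ range (X.cnt p 0), (p : ℝ) * gF M E X Z ((X.ed 0 * p + (k + 1 / 2) : ℝ) / p)
        - (p : ℝ) ^ 2 * (primF M E X Z (X.ed 1) - primF M E X Z (X.ed 0))|
      ≤ C * p * Real.log p := by
  have h0 : 0 < X.B := by omega
  have h := (((good_U h0 X).const_mul 2).add (good_U h0 Z)).sub (good_poleU h0 M E)
  obtain ⟨C, hC⟩ := h
  refine ⟨C, 2, fun p hp => ?_⟩
  have h1 := hC p hp
  simp only [hX, Rat.cast_one, div_one, one_mul] at h1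
  simp only [gF, primF]
  exact h1

end Pool.Agent.Z5
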