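import Pool.Agent.Z5.ArchRef
import Pool.Agent.Z5.ArchPot
import Pool.Agent.Z5.ArchEnergy

/-!
# Z5: archimedean part, the three Vandermonde products
-/

open Finset

namespace Pool.Agent.Z5

namespace AR6

variable {ι κ : Type*} [Fintype ι] [DecidableEq ι] [Fintype κ] [DecidableEq κ]

theorem pairProd_pos (v : ι → ℝ) (hv : Function.Injective v) : 0 < pairProd v := by
  unfold pairProd
  refine Finset.prod_pos (fun i _ => Finset.prod_pos (fun k hk => ?_))
  rw [abs_pos, sub_ne_zero]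
  exact fun h => (Finset.mem_erase.1 hk).1 (hv h).symm

theorem log_pairProd (v : ι → ℝ) (hv : Function.Injective v) :
    Real.log (pairProd v) = ∑ i, ∑ k ∈ univ.erase i, Real.log |v i - v k| := by
  have h0 : ∀ i, ∀ k ∈ univ.erase i, |v i - v k| ≠ 0 := by
    intro i k hk
    rw [abs_ne_zero, sub_ne_zero]
    exact fun h => (Finset.mem_erase.1 hk).1 (hv h).symm
  unfold pairProd
  rw [Real.log_prod (fun i _ => Finset.prod_ne_zero_iff.2 (h0 i))]
  exact Finset.sum_congr rfl (fun i _ => Real.log_prod (h0 i))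

theorem log_pairProd_sum (x : ι → ℝ) (z : κ → ℝ) (hv : Function.Injective (Sum.elim x z)) :
    Real.log (pairProd (Sum.elim x z)) = Real.log (pairProd x) + Real.log (pairProd z)
      + 2 * ∑ i, ∑ k, Real.log |x i - z k| := by
  have hx : Function.Injective x := by
    intro a b h
    have : (Sum.inl a : ι ⊕ κ) = Sum.inl b := hv (by simpa using h)
    exact Sum.inl_injective this
  have hz : Function.Injective z := by
    intro a b h
    have : (Sum.inr a : ι ⊕ κ) = Sum.inr b := hv (by simpa using h)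
    exact Sum.inr_injective this
  rw [log_pairProd _ hv, log_pairProd _ hx, log_pairProd _ hz, Fintype.sum_sum_type]
  have h1 : ∀ i : ι, ∑ k ∈ univ.erase (Sum.inl i : ι ⊕ κ),
      Real.log |Sum.elim x z (Sum.inl i) - Sum.elim x z k| =
      (∑ k ∈ univ.erase i, Real.log |x i - x k|) + ∑ k, Real.log |x i - z k| := by
    intro i
    have e1 := Finset.add_sum_erase univ
      (fun k : ι ⊕ κ => Real.log |Sum.elim x z (Sum.inl i) - Sum.elim x z k|)
      (Finset.mem_univ (Sum.inl i))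
    have e2 := Finset.add_sum_erase univ (fun k : ι => Real.log |x i - x k|) (Finset.mem_univ i)
    rw [Fintype.sum_sum_type] at e1
    simp only [Sum.elim_inl, Sum.elim_inr, sub_self, abs_zero, Real.log_zero, zero_add] at e1 e2 ⊢
    rw [e1, e2]
  have h2 : ∀ i : κ, ∑ k ∈ univ.erase (Sum.inr i : ι ⊕ κ),
      Real.log |Sum.elim x z (Sum.inr i) - Sum.elim x z k| =
      (∑ k ∈ univ.erase i, Real.log |z i - z k|) + ∑ k, Real.log |x k - z i| := by
    intro i
    have e1 := Finset.add_sum_erase univ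
      (fun k : ι ⊕ κ => Real.log |Sum.elim x z (Sum.inr i) - Sum.elim x z k|)
      (Finset.mem_univ (Sum.inr i))
    have e2 := Finset.add_sum_erase univ (fun k : κ => Real.log |z i - z k|) (Finset.mem_univ i)
    rw [Fintype.sum_sum_type] at e1
    simp only [Sum.elim_inl, Sum.elim_inr, sub_self, abs_zero, Real.log_zero, zero_add] at e1 e2 ⊢
    rw [e1, e2, add_comm]
    congr 1
    exact Finset.sum_congr rfl (fun k _ => by rw [abs_sub_comm])
  rw [Finset.sum_congr rfl (fun i _ => h1 i), Finset.sum_congr rfl (fun i _ => h2 i),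
    Finset.sum_add_distrib, Finset.sum_add_distrib]
  have h3 : ∑ i : κ, ∑ k : ι, Real.log |x k - z i| = ∑ i : ι, ∑ k : κ, Real.log |x i - z k| :=
    Finset.sum_comm
  rw [h3]
  ring

theorem log_diff {a b : ℝ} (h : 0 < |a - b|) (h' : 0 < |a + b|) :
    Real.log |4 * a ^ 2 - 4 * b ^ 2| = Real.log 4 + (Real.log |a - b| + Real.log |a + b|) := by
  have : 4 * a ^ 2 - 4 * b ^ 2 = 4 * ((a - b) * (a + b)) := by ring
  rw [this, abs_mul, abs_mul, Real.log_mul (by norm_num) (by positivity),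
    Real.log_mul h.ne' h'.ne', abs_of_pos (by norm_num : (0 : ℝ) < 4)]

end AR6

open AR6

/-- one family -/
theorem AR6.self_ge (R : Ref) : ∃ C : ℝ, ∃ p0 : ℕ, ∀ p : ℕ, p0 ≤ p →
    0 < pairProd (fun k => (R.ynode p k : ℝ)) ∧
    R.energy R * p ^ 2 + (R.s : ℝ) ^ 2 * p ^ 2 * (2 * Real.log p + Real.log 4)
      - C * p * Real.log p ≤ Real.log (pairProd (fun k => (R.ynode p k : ℝ))) := by
  obtain ⟨δ0, hδ0, hsep⟩ := R.node_sep
  have hδ0' : (0 : ℝ) < δ0 := by exact_mod_cast hδ0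
  obtain ⟨C1, p1, h1⟩ := R.pot_ge hδ0'
  obtain ⟨C2, p2, h2⟩ := Ref.sum_U R R
  obtain ⟨C3, h3⟩ := R.node_le
  refine ⟨C1 * R.s + C2 + R.s * Real.log 4, max (max p1 p2) (max 3 (⌈|(R.ed R.B : ℝ)| + |(C3 : ℝ)|⌉₊ + 1)),
    fun p hp => ?_⟩
  have hp1 : p1 ≤ p := le_trans (le_trans (le_max_left _ _) (le_max_left _ _)) hp
  have hp2 : p2 ≤ p := le_trans (le_trans (le_max_right _ _) (le_max_left _ _)) hp
  have hp3 : 3 ≤ p := le_trans (le_trans (le_max_left _ _) (le_max_right _ _)) hp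
  have hp4 : ⌈|(R.ed R.B : ℝ)| + |(C3 : ℝ)|⌉₊ + 1 ≤ p :=
    le_trans (le_trans (le_max_right _ _) (le_max_right _ _)) hp
  have hp3' : (3 : ℝ) ≤ p := by exact_mod_cast hp3
  have hp4' : |(R.ed R.B : ℝ)| + |(C3 : ℝ)| ≤ p := by
    have : (⌈|(R.ed R.B : ℝ)| + |(C3 : ℝ)|⌉₊ : ℝ) ≤ p := by
      exact_mod_cast (by omega : ⌈|(R.ed R.B : ℝ)| + |(C3 : ℝ)|⌉₊ ≤ p)
    exact (Nat.le_ceil _).trans this
  have hlog : 1 ≤ Real.log p := by
    rw [Real.le_log_iff_exp_le (by linarith)]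
    exact (Real.exp_one_lt_three.le).trans hp3'
  have hinj : Function.Injective (fun k => (R.ynode p k : ℝ)) := by
    intro a b h
    have h' : ((R.ynode p a : ℚ) : ℝ) = ((R.ynode p b : ℚ) : ℝ) := h
    exact R.ynode_injective p (by exact_mod_cast h')
  refine ⟨pairProd_pos _ hinj, ?_⟩
  rw [log_pairProd _ hinj]
  -- separation over the reals
  have hsep' : ∀ k l : R.Idx p, k ≠ l →
      (δ0 : ℝ) ≤ |(R.node p k : ℝ) - R.node p l| ∧ (δ0 : ℝ) ≤ |(R.node p k : ℝ) + R.node p l| := by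
    intro k l hkl
    obtain ⟨ha, hb⟩ := hsep p k l hkl
    refine ⟨?_, ?_⟩
    · have : ((δ0 : ℚ) : ℝ) ≤ ((|R.node p k - R.node p l| : ℚ) : ℝ) := by exact_mod_cast ha
      simpa using this
    · have : ((δ0 : ℚ) : ℝ) ≤ ((R.node p k + R.node p l : ℚ) : ℝ) := by exact_mod_cast hb
      push_cast at this
      exact this.trans (le_abs_self _)
  have hsize : ∀ k : R.Idx p, |(R.node p k : ℝ)| ≤ (p : ℝ) ^ 3 := by
    intro k
    have ha : (0 : ℝ) < R.node p k := by exact_mod_cast R.node_pos p k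
    have hb : (R.node p k : ℝ) ≤ R.ed R.B * p + C3 := by exact_mod_cast h3 p k
    rw [abs_of_pos ha]
    have hc : (R.ed R.B : ℝ) * p ≤ |(R.ed R.B : ℝ)| * p :=
      mul_le_mul_of_nonneg_right (le_abs_self _) (by linarith)
    have hd : (C3 : ℝ) ≤ |(C3 : ℝ)| * p := by
      have : |(C3 : ℝ)| * 1 ≤ |(C3 : ℝ)| * p :=
        mul_le_mul_of_nonneg_left (by linarith) (abs_nonneg _)
      linarith [le_abs_self (C3 : ℝ)]
    have he : (|(R.ed R.B : ℝ)| + |(C3 : ℝ)|) * p ≤ p * p :=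
      mul_le_mul_of_nonneg_right hp4' (by linarith)
    have hf : (p : ℝ) * p ≤ (p : ℝ) ^ 3 := by nlinarith [mul_nonneg (show (0:ℝ) ≤ p by linarith) (show (0:ℝ) ≤ p by linarith)]
    nlinarith
  have hcard : Fintype.card (R.Idx p) = R.s * p := R.card_idx p
  have hrow : ∀ i : R.Idx p,
      p * R.U (R.node p i / p) + 2 * R.s * p * Real.log p - C1 * Real.log p
        + (R.s * p - 1) * Real.log 4
      ≤ ∑ k ∈ univ.erase i, Real.log |(R.ynode p i : ℝ) - R.ynode p k| := by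
    intro i
    have hpos : 0 < Fintype.card (R.Idx p) := Fintype.card_pos_iff.2 ⟨i⟩
    have hce : (univ.erase i).card = Fintype.card (R.Idx p) - 1 := by
      rw [Finset.card_erase_of_mem (mem_univ _), Finset.card_univ]
    have hb := h1 p hp1 (R.node p i : ℝ) (hsize i) (univ.erase i) (by rw [hce, hcard]; omega)
      (fun k hk => hsep' i k (Finset.mem_erase.1 hk).1.symm)
    have hterm : ∀ k ∈ univ.erase i, Real.log |(R.ynode p i : ℝ) - R.ynode p k| =
        Real.log 4 + (Real.log |(R.node p i : ℝ) - R.node p k|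
          + Real.log |(R.node p i : ℝ) + R.node p k|) := by
      intro k hk
      obtain ⟨ha, hb⟩ := hsep' i k (Finset.mem_erase.1 hk).1.symm
      have hy : ∀ k : R.Idx p, (R.ynode p k : ℝ) = 4 * (R.node p k : ℝ) ^ 2 := by
        intro k
        unfold Ref.ynode
        push_cast
        ring
      rw [hy, hy, log_diff (hδ0'.trans_le ha) (hδ0'.trans_le hb)]
    rw [Finset.sum_congr rfl hterm, Finset.sum_add_distrib, Finset.sum_const, hce, hcard,
      nsmul_eq_mul, Nat.cast_sub (by rw [← hcard]; omega)]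
    push_cast
    linarith
  have hsumU := h2 p hp2
  have hsumU' := (abs_le.1 hsumU).1
  have hfin : ∑ i : R.Idx p, (p * R.U (R.node p i / p) + 2 * R.s * p * Real.log p
        - C1 * Real.log p + (R.s * p - 1) * Real.log 4)
      ≤ ∑ i : R.Idx p, ∑ k ∈ univ.erase i, Real.log |(R.ynode p i : ℝ) - R.ynode p k| :=
    Finset.sum_le_sum (fun i _ => hrow i)
  refine le_trans ?_ hfin
  have hconst : ∑ i : R.Idx p, (p * R.U (R.node p i / p) + 2 * R.s * p * Real.log p
        - C1 * Real.log p + (R.s * p - 1) * Real.log 4)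
      = (∑ i : R.Idx p, (p : ℝ) * R.U (R.node p i / p)) + (R.s * p) * (2 * R.s * p * Real.log p
        - C1 * Real.log p + (R.s * p - 1) * Real.log 4) := by
    have e1 : ∀ i : R.Idx p, (p * R.U (R.node p i / p) + 2 * R.s * p * Real.log p
        - C1 * Real.log p + (R.s * p - 1) * Real.log 4) = (p : ℝ) * R.U (R.node p i / p)
        + (2 * R.s * p * Real.log p - C1 * Real.log p + (R.s * p - 1) * Real.log 4) := by
      intro i; ring
    rw [Finset.sum_congr rfl (fun i _ => e1 i), Finset.sum_add_distrib, Finset.sum_const,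
      Finset.card_univ, hcard, nsmul_eq_mul]
    push_cast
    ring
  rw [hconst]
  have hlog4 : 0 ≤ Real.log 4 := Real.log_nonneg (by norm_num)
  have hsp : (0 : ℝ) ≤ R.s * p * Real.log 4 := by positivity
  have h5 : (R.s : ℝ) * p * Real.log 4 * 1 ≤ R.s * p * Real.log 4 * Real.log p :=
    mul_le_mul_of_nonneg_left hlog hsp
  nlinarith

/-- `ed` is nonnegative -/
theorem AR6.ed_nonneg (R : Ref) : ∀ i ≤ R.B, 0 ≤ R.ed i := by
  intro i
  induction i with
  | zero => intro _; exact R.ed_zero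
  | succ j ih => intro hj; exact (ih (by omega)).trans (R.ed_lt j (by omega)).le

/-- two families -/
theorem AR6.cross_ge (X Z : Ref) (h : Z.ed Z.B < X.ed 0) : ∃ C : ℝ, ∃ p0 : ℕ, ∀ p : ℕ, p0 ≤ p →
    X.energy Z * p ^ 2 + (X.s : ℝ) * Z.s * p ^ 2 * (2 * Real.log p + Real.log 4)
      - C * p * Real.log p ≤ ∑ i : X.Idx p, ∑ k : Z.Idx p,
        Real.log |(X.ynode p i : ℝ) - Z.ynode p k| := by
  obtain ⟨C1, p1, h1⟩ := Z.pot_ge (δ0 := 1) one_pos
  obtain ⟨C2, p2, h2⟩ := Ref.sum_U X Z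
  obtain ⟨C3, h3⟩ := Z.node_le
  obtain ⟨C4, h4⟩ := X.node_le
  have hh : (0 : ℝ) < (X.ed 0 : ℝ) - Z.ed Z.B := by
    have : ((Z.ed Z.B : ℚ) : ℝ) < ((X.ed 0 : ℚ) : ℝ) := by exact_mod_cast h
    linarith
  have hZ0 : (0 : ℝ) ≤ Z.ed Z.B := by exact_mod_cast AR6.ed_nonneg Z Z.B le_rfl
  refine ⟨C1 * X.s + C2, max (max p1 p2) (max (max 3 (⌈|(X.ed X.B : ℝ)| + |(C4 : ℝ)|⌉₊ + 1))
    (⌈(1 + |(C3 : ℝ)|) / ((X.ed 0 : ℝ) - Z.ed Z.B)⌉₊ + 1)), fun p hp => ?_⟩
  have hp1 : p1 ≤ p := le_trans (le_trans (le_max_left _ _) (le_max_left _ _)) hp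
  have hp2 : p2 ≤ p := le_trans (le_trans (le_max_right _ _) (le_max_left _ _)) hp
  have hp3 : 3 ≤ p := le_trans (le_trans (le_max_left _ _)
    (le_trans (le_max_left _ _) (le_max_right _ _))) hp
  have hp4 : ⌈|(X.ed X.B : ℝ)| + |(C4 : ℝ)|⌉₊ + 1 ≤ p := le_trans (le_trans (le_max_right _ _)
    (le_trans (le_max_left _ _) (le_max_right _ _))) hp
  have hp5 : ⌈(1 + |(C3 : ℝ)|) / ((X.ed 0 : ℝ) - Z.ed Z.B)⌉₊ + 1 ≤ p :=
    le_trans (le_trans (le_max_right _ _) (le_max_right _ _)) hp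
  have hp3' : (3 : ℝ) ≤ p := by exact_mod_cast hp3
  have hp4' : |(X.ed X.B : ℝ)| + |(C4 : ℝ)| ≤ p := by
    have : (⌈|(X.ed X.B : ℝ)| + |(C4 : ℝ)|⌉₊ : ℝ) ≤ p := by
      exact_mod_cast (by omega : ⌈|(X.ed X.B : ℝ)| + |(C4 : ℝ)|⌉₊ ≤ p)
    exact (Nat.le_ceil _).trans this
  have hp5' : 1 + |(C3 : ℝ)| ≤ p * ((X.ed 0 : ℝ) - Z.ed Z.B) := by
    have h6 : (⌈(1 + |(C3 : ℝ)|) / ((X.ed 0 : ℝ) - Z.ed Z.B)⌉₊ : ℝ) ≤ p := by
      exact_mod_cast (by omega : ⌈(1 + |(C3 : ℝ)|) / ((X.ed 0 : ℝ) - Z.ed Z.B)⌉₊ ≤ p)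
    have h7 := (Nat.le_ceil _).trans h6
    rwa [div_le_iff₀ hh] at h7
  have hlog : 1 ≤ Real.log p := by
    rw [Real.le_log_iff_exp_le (by linarith)]
    exact (Real.exp_one_lt_three.le).trans hp3'
  have hXpos : ∀ i : X.Idx p, (0 : ℝ) < X.node p i := fun i => by exact_mod_cast X.node_pos p i
  have hZpos : ∀ i : Z.Idx p, (0 : ℝ) < Z.node p i := fun i => by exact_mod_cast Z.node_pos p i
  have hsep : ∀ (i : X.Idx p) (k : Z.Idx p),
      (1 : ℝ) ≤ |(X.node p i : ℝ) - Z.node p k| ∧ (1 : ℝ) ≤ |(X.node p i : ℝ) + Z.node p k| := by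
    intro i k
    have ha : (X.ed 0 : ℝ) * p < X.node p i := by exact_mod_cast X.node_ge p i
    have hb : (Z.node p k : ℝ) ≤ Z.ed Z.B * p + C3 := by exact_mod_cast h3 p k
    have hc := le_abs_self (C3 : ℝ)
    have hd : (1 : ℝ) ≤ (X.node p i : ℝ) - Z.node p k := by nlinarith
    exact ⟨hd.trans (le_abs_self _), (by linarith [hZpos k] :
      (1 : ℝ) ≤ (X.node p i : ℝ) + Z.node p k).trans (le_abs_self _)⟩
  have hsize : ∀ k : X.Idx p, |(X.node p k : ℝ)| ≤ (p : ℝ) ^ 3 := by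
    intro k
    have hb : (X.node p k : ℝ) ≤ X.ed X.B * p + C4 := by exact_mod_cast h4 p k
    rw [abs_of_pos (hXpos k)]
    have hc : (X.ed X.B : ℝ) * p ≤ |(X.ed X.B : ℝ)| * p :=
      mul_le_mul_of_nonneg_right (le_abs_self _) (by linarith)
    have hd : (C4 : ℝ) ≤ |(C4 : ℝ)| * p := by
      have : |(C4 : ℝ)| * 1 ≤ |(C4 : ℝ)| * p :=
        mul_le_mul_of_nonneg_left (by linarith) (abs_nonneg _)
      linarith [le_abs_self (C4 : ℝ)]
    have he : (|(X.ed X.B : ℝ)| + |(C4 : ℝ)|) * p ≤ p * p :=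
      mul_le_mul_of_nonneg_right hp4' (by linarith)
    have hf : (p : ℝ) * p ≤ (p : ℝ) ^ 3 := by
      nlinarith [mul_nonneg (show (0:ℝ) ≤ p by linarith) (show (0:ℝ) ≤ p by linarith)]
    nlinarith
  have hcX : Fintype.card (X.Idx p) = X.s * p := X.card_idx p
  have hcZ : Fintype.card (Z.Idx p) = Z.s * p := Z.card_idx p
  have hrow : ∀ i : X.Idx p,
      p * Z.U (X.node p i / p) + 2 * Z.s * p * Real.log p - C1 * Real.log p
        + (Z.s * p) * Real.log 4
      ≤ ∑ k : Z.Idx p, Real.log |(X.ynode p i : ℝ) - Z.ynode p k| := by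
    intro i
    have hb := h1 p hp1 (X.node p i : ℝ) (hsize i) univ
      (by rw [Finset.card_univ, hcZ]; omega) (fun k _ => hsep i k)
    have hterm : ∀ k ∈ (univ : Finset (Z.Idx p)), Real.log |(X.ynode p i : ℝ) - Z.ynode p k| =
        Real.log 4 + (Real.log |(X.node p i : ℝ) - Z.node p k|
          + Real.log |(X.node p i : ℝ) + Z.node p k|) := by
      intro k _
      obtain ⟨ha, hb⟩ := hsep i k
      have hy : (X.ynode p i : ℝ) = 4 * (X.node p i : ℝ) ^ 2 := by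
        unfold Ref.ynode
        push_cast
        ring
      have hy' : (Z.ynode p k : ℝ) = 4 * (Z.node p k : ℝ) ^ 2 := by
        unfold Ref.ynode
        push_cast
        ring
      rw [hy, hy', log_diff (one_pos.trans_le ha) (one_pos.trans_le hb)]
    rw [Finset.sum_congr rfl hterm, Finset.sum_add_distrib, Finset.sum_const, Finset.card_univ,
      hcZ, nsmul_eq_mul]
    push_cast
    linarith
  have hsumU := h2 p hp2
  have hsumU' := (abs_le.1 hsumU).1
  refine le_trans ?_ (Finset.sum_le_sum (fun i _ => hrow i))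
  have hconst : ∑ i : X.Idx p, (p * Z.U (X.node p i / p) + 2 * Z.s * p * Real.log p
        - C1 * Real.log p + (Z.s * p) * Real.log 4)
      = (∑ i : X.Idx p, (p : ℝ) * Z.U (X.node p i / p)) + (X.s * p) * (2 * Z.s * p * Real.log p
        - C1 * Real.log p + (Z.s * p) * Real.log 4) := by
    have e1 : ∀ i : X.Idx p, (p * Z.U (X.node p i / p) + 2 * Z.s * p * Real.log p
        - C1 * Real.log p + (Z.s * p) * Real.log 4) = (p : ℝ) * Z.U (X.node p i / p)
        + (2 * Z.s * p * Real.log p - C1 * Real.log p + (Z.s * p) * Real.log 4) := by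
      intro i; ring
    rw [Finset.sum_congr rfl (fun i _ => e1 i), Finset.sum_add_distrib, Finset.sum_const,
      Finset.card_univ, hcX, nsmul_eq_mul]
    push_cast
    ring
  rw [hconst]
  nlinarith

theorem log_pairs_ge (X Z : Ref) (h : Z.ed Z.B < X.ed 0) : ∃ C : ℝ, ∃ p0 : ℕ, ∀ p : ℕ, p0 ≤ p →
    0 < pairProd (fun k => (X.ynode p k : ℝ)) ∧ 0 < pairProd (fun k => (Z.ynode p k : ℝ)) ∧
    0 < pairProd (fun k => ((Sum.elim (X.ynode p) (Z.ynode p) k : ℚ) : ℝ)) ∧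
    (X.energy X + X.energy Z + Z.energy Z) * p ^ 2
        + ((X.s : ℝ) ^ 2 + X.s * Z.s + (Z.s : ℝ) ^ 2) * p ^ 2 * (2 * Real.log p + Real.log 4)
        - C * p * Real.log p
      ≤ (Real.log (pairProd (fun k => (X.ynode p k : ℝ)))
          + Real.log (pairProd (fun k => (Z.ynode p k : ℝ)))
          + Real.log (pairProd (fun k => ((Sum.elim (X.ynode p) (Z.ynode p) k : ℚ) : ℝ)))) / 2 := by
  obtain ⟨C1, p1, h1⟩ := AR6.self_ge X
  obtain ⟨C2, p2, h2⟩ := AR6.self_ge Z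
  obtain ⟨C3, p3, h3⟩ := AR6.cross_ge X Z h
  obtain ⟨p4, h4⟩ := ynode_sum_injective X Z h
  refine ⟨C1 + C2 + C3, max (max p1 p2) (max p3 p4), fun p hp => ?_⟩
  have hp1 : p1 ≤ p := le_trans (le_trans (le_max_left _ _) (le_max_left _ _)) hp
  have hp2 : p2 ≤ p := le_trans (le_trans (le_max_right _ _) (le_max_left _ _)) hp
  have hp3 : p3 ≤ p := le_trans (le_trans (le_max_left _ _) (le_max_right _ _)) hp
  have hp4 : p4 ≤ p := le_trans (le_trans (le_max_right _ _) (le_max_right _ _)) hp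
  obtain ⟨hx0, hx⟩ := h1 p hp1
  obtain ⟨hz0, hz⟩ := h2 p hp2
  have hc := h3 p hp3
  have hinj := h4 p hp4
  have hfun : (fun k => ((Sum.elim (X.ynode p) (Z.ynode p) k : ℚ) : ℝ)) =
      Sum.elim (fun k => (X.ynode p k : ℝ)) (fun k => (Z.ynode p k : ℝ)) := by
    funext k
    cases k <;> rfl
  have hinj' : Function.Injective
      (Sum.elim (fun k => (X.ynode p k : ℝ)) (fun k => (Z.ynode p k : ℝ))) := by
    rw [← hfun]
    intro a b hab
    have hab' : ((Sum.elim (X.ynode p) (Z.ynode p) a : ℚ) : ℝ) =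
      ((Sum.elim (X.ynode p) (Z.ynode p) b : ℚ) : ℝ) := hab
    exact hinj (by exact_mod_cast hab')
  rw [hfun]
  refine ⟨hx0, hz0, AR6.pairProd_pos _ hinj', ?_⟩
  rw [log_pairProd_sum _ _ hinj']
  linarith

end Pool.Agent.Z5
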