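import Pool.Agent.Z5.ArchDefs
import Pool.Agent.Z5.ArchRef
import Pool.Agent.Z5.ArchSer
import Pool.Agent.Z5.ArchPot
import Pool.Agent.Z5.ArchPole

/-!
# Z5: archimedean bound for the rows of `ρ₃` (module AR10)
-/

open Finset

namespace Pool.Agent.Z5

theorem rr_sum_div (M p : ℕ) (hp : 0 < p) (E : ℕ → ℕ) :
    ∑ u ∈ range (M * p), E (u / p) = p * ∑ m ∈ range M, E m := by
  induction M with
  | zero => simp
  | succ M ih =>
    rw [add_mul, one_mul, Finset.sum_range_add, ih, Finset.sum_range_succ, mul_add]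
    congr 1
    rw [Finset.sum_congr rfl (g := fun _ => E M), Finset.sum_const, card_range, smul_eq_mul]
    intro x hx
    rw [mem_range] at hx
    rw [Nat.add_comm, Nat.add_mul_div_right _ _ hp, Nat.div_eq_of_lt hx, zero_add]

theorem rr_isProf {M : ℕ} {E : ℕ → ℕ} (hM : 2 ≤ M) (hE : IsProf (M - 1) E) {p : ℕ}
    (hp : 0 < p) : IsProf (M * p - 1) (fun u => E (u / p)) := by
  have hMp : 0 < M * p := by positivity
  have hlt : ∀ u ≤ M * p - 1, u / p < M := by
    intro u hu
    rw [Nat.div_lt_iff_lt_mul hp]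
    omega
  have hdiv : ∀ u ≤ M * p - 1, u / p ≤ M - 1 := by
    intro u hu
    have := hlt u hu
    omega
  refine ⟨fun u hu => hE.pos _ (hdiv u hu), fun u hu => hE.le _ (hdiv u hu), fun u hu => ?_, ?_⟩
  · have h1 : (M * p - 1 - u) / p = M - 1 - u / p := by
      have h3 := Nat.div_add_mod u p
      have h4 := Nat.mod_lt u hp
      obtain ⟨k, hk⟩ : ∃ k, M = u / p + 1 + k := ⟨M - (u / p + 1), by have := hlt u hu; omega⟩
      have h2 : M * p - 1 - u = p * k + (p - 1 - u % p) := by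
        have h5 : M * p = p * (u / p) + p + p * k := by
          conv_lhs => rw [hk]
          ring
        omega
      rw [h2, Nat.mul_add_div hp, Nat.div_eq_of_lt (by omega), add_zero]
      omega
    show E ((M * p - 1 - u) / p) = E (u / p)
    rw [h1]
    exact hE.symm _ (hdiv u hu)
  · have h1 : M * p - 1 + 1 = M * p := by omega
    rw [h1, rr_sum_div M p hp E]
    have h2 := hE.even
    have h3 : M - 1 + 1 = M := by omega
    rw [h3] at h2
    exact h2.mul_left p

theorem rr_const {c : ℝ} (hc : 0 ≤ c) {p : ℕ} (hp : 2 ≤ p) :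
    c ≤ c / Real.log 2 * Real.log p := by
  have h2 : 0 < Real.log 2 := Real.log_pos (by norm_num)
  have h3 : Real.log 2 ≤ Real.log p := Real.log_le_log (by norm_num) (by exact_mod_cast hp)
  rw [div_mul_eq_mul_div, le_div_iff₀ h2]
  exact mul_le_mul_of_nonneg_left h3 hc

theorem rr_prod4 {κ : Type*} (S : Finset κ) (σ : ℝ) (x : κ → ℝ) :
    ∏ k ∈ S, (4 * ((|σ - x k| + 1 / 4) * (|σ + x k| + 1 / 4)))
      = Real.exp (S.card * Real.log 4
          + ∑ k ∈ S, (Real.log (|σ - x k| + 1 / 4) + Real.log (|σ + x k| + 1 / 4))) := by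
  have h1 : S.card * Real.log 4
      + ∑ k ∈ S, (Real.log (|σ - x k| + 1 / 4) + Real.log (|σ + x k| + 1 / 4))
      = ∑ k ∈ S, (Real.log 4
        + (Real.log (|σ - x k| + 1 / 4) + Real.log (|σ + x k| + 1 / 4))) := by
    simp only [Finset.sum_add_distrib, Finset.sum_const, nsmul_eq_mul]
  rw [h1, Real.exp_sum]
  refine Finset.prod_congr rfl fun k _ => ?_
  have ha : 0 < |σ - x k| + 1 / 4 := by positivity
  have hb : 0 < |σ + x k| + 1 / 4 := by positivity
  rw [Real.exp_add, Real.exp_add, Real.exp_log ha, Real.exp_log hb,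
    Real.exp_log (by norm_num : (0 : ℝ) < 4)]

theorem rr_sum_erase {α β : Type*} [Fintype α] [Fintype β] [DecidableEq α] [DecidableEq β]
    (j : α ⊕ β) : ∃ (S : Finset α) (T : Finset β), Fintype.card α ≤ S.card + 1 ∧
      Fintype.card β ≤ T.card + 1 ∧ S.card + T.card + 1 = Fintype.card α + Fintype.card β ∧
      ∀ g : α ⊕ β → ℝ, ∑ k ∈ univ.erase j, g k
        = ∑ a ∈ S, g (Sum.inl a) + ∑ b ∈ T, g (Sum.inr b) := by
  rcases j with a | b
  · have hc : (univ.erase a).card + 1 = Fintype.card α := by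
      rw [Finset.card_erase_add_one (mem_univ a), card_univ]
    refine ⟨univ.erase a, univ, by omega, by rw [card_univ]; omega, by rw [card_univ]; omega, ?_⟩
    intro g
    rw [Finset.sum_erase_eq_sub (mem_univ _), Finset.sum_erase_eq_sub (mem_univ _),
      Fintype.sum_sum_type]
    ring
  · have hc : (univ.erase b).card + 1 = Fintype.card β := by
      rw [Finset.card_erase_add_one (mem_univ b), card_univ]
    refine ⟨univ, univ.erase b, by rw [card_univ]; omega, by omega, by rw [card_univ]; omega, ?_⟩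
    intro g
    rw [Finset.sum_erase_eq_sub (mem_univ _), Finset.sum_erase_eq_sub (mem_univ _),
      Fintype.sum_sum_type]
    ring

/-- `gR` is even -/
theorem rr_gR_le {M : ℕ} {E : ℕ → ℕ} {X Z : Ref} {lF lR η : ℝ} (H : ArchHyp M E X Z lF lR η)
    {z : ℝ} (hz : |z| ≤ M / 2) : gR M E X Z z ≤ lR := by
  rcases le_total 0 z with h | h
  · exact H.hR z h (by rwa [abs_of_nonneg h] at hz)
  · have h1 : gR M E X Z z = gR M E X Z (-z) := by
      unfold gR
      rw [Ref.U_neg, Ref.U_neg, poleU_neg H.hM H.prof]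
    rw [h1]
    exact H.hR (-z) (by linarith) (by rwa [abs_of_nonpos h] at hz)

theorem rr_co {M : ℕ} {E : ℕ → ℕ} {X Z : Ref} {lF lR η : ℝ} (H : ArchHyp M E X Z lF lR η) :
    ∃ C : ℝ, ∃ p0 : ℕ, ∀ p : ℕ, p0 ≤ p → ∀ (i : Z.Idx p) (j : X.Idx p ⊕ Z.Idx p),
      ∀ u ≤ M * p - 1,
      |(co (M * p - 1) (fun u => E (u / p))
          (lagQ (Z.ynode p) i * lagQ (Sum.elim (X.ynode p) (Z.ynode p)) j) u 3 : ℝ)|
        ≤ Real.exp (p * lR
          + (4 * Z.s + 2 * X.s - ∑ m ∈ range M, (E m : ℝ)) * p * Real.log p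
          + (2 * Z.s + X.s) * p * Real.log 4 + C * Real.log p) := by
  obtain ⟨CX, pX, hX⟩ := X.pot_le
  obtain ⟨CZ, pZ, hZ⟩ := Z.pot_le
  obtain ⟨CP, pP, hP⟩ := pole_ge M E
  have hM := H.hM
  refine ⟨(Real.log 64 + Real.log M) / Real.log 2 + 1 + CX + 2 * CZ + CP,
    max (max pX pZ) (max pP (max 2 M)), ?_⟩
  intro p hp i j u hu
  have hpX : pX ≤ p := le_trans (by simp) hp
  have hpZ : pZ ≤ p := le_trans (by simp) hp
  have hpP : pP ≤ p := le_trans (by simp) hp
  have hp2 : 2 ≤ p := le_trans (by simp) hp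
  have hpM : M ≤ p := le_trans (by simp) hp
  have hp0 : 0 < p := by omega
  have hMp : 1 ≤ M * p := Nat.succ_le_of_lt (by positivity)
  have hpR : (0 : ℝ) < p := by exact_mod_cast hp0
  have hpR2 : (2 : ℝ) ≤ p := by exact_mod_cast hp2
  have hMR : (2 : ℝ) ≤ M := by exact_mod_cast hM
  have hpMR : (M : ℝ) ≤ p := by exact_mod_cast hpM
  have hLR : ((M * p - 1 : ℕ) : ℝ) = M * p - 1 := by
    rw [Nat.cast_sub hMp]; push_cast; ring
  have huR : (u : ℝ) ≤ M * p - 1 := by
    rw [← hLR]; exact_mod_cast hu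
  have hu0 : (0 : ℝ) ≤ u := Nat.cast_nonneg u
  set σ : ℝ := ((M * p - 1 : ℕ) : ℝ) / 2 - u with hσ
  have hσM : |σ| ≤ M * p / 2 := by
    rw [hσ, hLR, abs_le]
    constructor <;> linarith
  have hσ3 : |σ| ≤ (p : ℝ) ^ 3 := by
    refine hσM.trans ?_
    have h1 : (M : ℝ) * p ≤ p * p := mul_le_mul_of_nonneg_right hpMR hpR.le
    nlinarith
  have hσz : |σ / p| ≤ M / 2 := by
    rw [abs_div, abs_of_pos hpR, div_le_iff₀ hpR]
    linarith
  have hgR := rr_gR_le H hσz
  -- the bound of AR9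
  have hprof := rr_isProf hM H.prof hp0
  have hZy : Z.ynode p = fun k => 4 * Z.node p k ^ 2 := rfl
  have hSy : Sum.elim (X.ynode p) (Z.ynode p)
      = fun k => 4 * (Sum.elim (X.node p) (Z.node p) k) ^ 2 := by
    funext k
    rcases k with k | k <;> rfl
  have hco := abs_co_le hprof (Z.node p) (Sum.elim (X.node p) (Z.node p)) i j hu
  rw [← hZy, ← hSy] at hco
  refine hco.trans ?_
  -- the poles
  have hpole := hP p hpP σ hσ3 ((range (M * p)).erase u) (Finset.erase_subset _ _)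
    (by rw [Finset.card_erase_of_mem (mem_range.2 (by omega)), card_range]; omega) (by
      intro v hv
      rw [mem_erase] at hv
      have h1 : σ - (M * p - 1) / 2 + v = (v : ℝ) - u := by
        rw [hσ, hLR]; ring
      rw [h1]
      have h2 : (1 : ℤ) ≤ |(v : ℤ) - u| := by
        have h3 : (v : ℤ) - u ≠ 0 := by
          intro h; apply hv.1; omega
        exact Int.one_le_abs h3
      exact_mod_cast h2)
  have hL1 : M * p - 1 + 1 = M * p := by omega
  have hD : ∏ v ∈ (range (M * p - 1 + 1)).erase u, (|(v : ℝ) - u| - 1 / 4) ^ E (v / p)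
      = Real.exp (∑ v ∈ (range (M * p)).erase u,
        (E (v / p) : ℝ) * Real.log (|σ - (M * p - 1) / 2 + v| - 1 / 4)) := by
    rw [hL1, Real.exp_sum]
    refine Finset.prod_congr rfl fun v hv => ?_
    rw [mem_erase] at hv
    have h1 : σ - (M * p - 1) / 2 + v = (v : ℝ) - u := by
      rw [hσ, hLR]; ring
    have h2 : (1 : ℤ) ≤ |(v : ℤ) - u| := by
      have h3 : (v : ℤ) - u ≠ 0 := by
        intro h; apply hv.1; omega
      exact Int.one_le_abs h3
    have h3 : (1 : ℝ) ≤ |(v : ℝ) - u| := by exact_mod_cast h2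
    rw [h1, Real.exp_nat_mul, Real.exp_log (by linarith)]
  -- the nodes
  obtain ⟨S, T, hS, hT, hST, hsum⟩ := rr_sum_erase j
  rw [Ref.card_idx] at hS hST
  rw [Ref.card_idx] at hT hST
  have hn1 := hZ p hpZ σ (1 / 4) hσ3 (by norm_num) (by norm_num) (univ.erase i)
    (by rw [Finset.card_erase_of_mem (mem_univ i), card_univ, Ref.card_idx]; omega)
  have hn2 := hX p hpX σ (1 / 4) hσ3 (by norm_num) (by norm_num) S hS
  have hn3 := hZ p hpZ σ (1 / 4) hσ3 (by norm_num) (by norm_num) T hT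
  have e1 := rr_prod4 (univ.erase i) σ (fun k => ((Z.node p k : ℚ) : ℝ))
  have e2 := rr_prod4 (univ.erase j) σ
    (fun k => ((Sum.elim (X.node p) (Z.node p) k : ℚ) : ℝ))
  have e3 : 64 * (((M * p - 1 : ℕ) : ℝ) + 1)
      = Real.exp (Real.log 64 + Real.log M + Real.log p) := by
    rw [Real.exp_add, Real.exp_add, Real.exp_log (by norm_num), Real.exp_log (by linarith),
      Real.exp_log hpR, hLR]
    ring
  have hci : ((univ.erase i).card : ℝ) ≤ Z.s * p := by
    have h1 : (univ.erase i).card + 1 = Z.s * p := by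
      rw [Finset.card_erase_add_one (mem_univ i), card_univ, Ref.card_idx]
    have h2 : (univ.erase i).card ≤ Z.s * p := by omega
    exact_mod_cast h2
  have hcj : ((univ.erase j).card : ℝ) ≤ (X.s + Z.s) * p := by
    have h1 : (univ.erase j).card + 1 = X.s * p + Z.s * p := by
      rw [Finset.card_erase_add_one (mem_univ j), card_univ, Fintype.card_sum, Ref.card_idx,
        Ref.card_idx]
    have h2 : (univ.erase j).card ≤ (X.s + Z.s) * p := by rw [add_mul]; omega
    exact_mod_cast h2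
  rw [hD, e1, e2, e3, ← Real.exp_neg, ← Real.exp_add, ← Real.exp_add, ← Real.exp_add,
    Real.exp_le_exp, hsum]
  simp only [Sum.elim_inl, Sum.elim_inr]
  have hl4 : 0 ≤ Real.log 4 := Real.log_nonneg (by norm_num)
  have hk1 := mul_le_mul_of_nonneg_right hci hl4
  have hk2 := mul_le_mul_of_nonneg_right hcj hl4
  have hg : (p : ℝ) * (2 * Z.U (σ / p) + X.U (σ / p) - poleU M E (σ / p)) ≤ p * lR :=
    mul_le_mul_of_nonneg_left hgR hpR.le
  have hc0 : 0 ≤ Real.log 64 + Real.log M :=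
    add_nonneg (Real.log_nonneg (by norm_num)) (Real.log_nonneg (by linarith))
  have hc := rr_const hc0 hp2
  linarith [hc, hg, hk1, hk2, hpole, hn1, hn2, hn3]

theorem rowR {M : ℕ} {E : ℕ → ℕ} {X Z : Ref} {lF lR η : ℝ} (H : ArchHyp M E X Z lF lR η) :
    ∃ C : ℝ, ∃ p0 : ℕ, ∀ p : ℕ, p0 ≤ p → ∀ (i : Z.Idx p) (j : X.Idx p ⊕ Z.Idx p),
      |(rho (M * p - 1) (fun u => E (u / p)) 3
          (lagQ (Z.ynode p) i * lagQ (Sum.elim (X.ynode p) (Z.ynode p)) j) : ℝ)|
        ≤ Real.exp (p * lR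
          + (4 * Z.s + 2 * X.s - ∑ m ∈ range M, (E m : ℝ)) * p * Real.log p
          + (2 * Z.s + X.s) * p * Real.log 4 + C * Real.log p) := by
  obtain ⟨C, p1, hC⟩ := rr_co H
  have hM := H.hM
  have hMR : (2 : ℝ) ≤ M := by exact_mod_cast hM
  refine ⟨C + 1 + Real.log M / Real.log 2, max p1 2, ?_⟩
  intro p hp i j
  have hp1 : p1 ≤ p := le_trans (by simp) hp
  have hp2 : 2 ≤ p := le_trans (by simp) hp
  have hp0 : 0 < p := by omega
  have hpR : (0 : ℝ) < p := by exact_mod_cast hp0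
  have hMp : 1 ≤ M * p := Nat.succ_le_of_lt (by positivity)
  have hL1 : M * p - 1 + 1 = M * p := by omega
  have hsum : |(rho (M * p - 1) (fun u => E (u / p)) 3
      (lagQ (Z.ynode p) i * lagQ (Sum.elim (X.ynode p) (Z.ynode p)) j) : ℝ)|
      ≤ ∑ u ∈ range (M * p), |(co (M * p - 1) (fun u => E (u / p))
          (lagQ (Z.ynode p) i * lagQ (Sum.elim (X.ynode p) (Z.ynode p)) j) u 3 : ℝ)| := by
    unfold rho
    rw [hL1, Rat.cast_sum]
    exact Finset.abs_sum_le_sum_abs _ _
  refine hsum.trans ((Finset.sum_le_sum fun u hu => hC p hp1 i j u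
    (by rw [mem_range] at hu; omega)).trans ?_)
  rw [Finset.sum_const, card_range, nsmul_eq_mul]
  have e3 : ((M * p : ℕ) : ℝ) = Real.exp (Real.log M + Real.log p) := by
    rw [Real.exp_add, Real.exp_log (by linarith), Real.exp_log hpR]
    push_cast
    ring
  rw [e3, ← Real.exp_add, Real.exp_le_exp]
  have hc := rr_const (Real.log_nonneg (by linarith : (1 : ℝ) ≤ M)) hp2
  linarith [hc]

end Pool.Agent.Z5
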