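import Pool.Agent.Z5.ArchBasis
import Pool.Agent.Z5.ArchPairs
import Pool.Agent.Z5.ArchRowF
import Pool.Agent.Z5.ArchRowR
import Pool.Agent.Z5.ArchEnergy

/-!
# The archimedean bound of the mixed determinant

Assembly of the bounds of the rows, of the three Vandermonde products and of the determinant
inequality.
-/

open Finset

namespace Pool.Agent.Z5

/-- the profile of the long block is a profile -/
theorem sum_range_mul_div (M : ℕ) {p : ℕ} (hp : 0 < p) (f : ℕ → ℕ) :
    ∑ u ∈ range (M * p), f (u / p) = (∑ m ∈ range M, f m) * p := by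
  induction M with
  | zero => simp
  | succ K ih =>
    rw [Nat.succ_mul, Finset.sum_range_add, ih, Finset.sum_range_succ, add_mul]
    congr 1
    rw [Finset.sum_congr rfl (g := fun _ => f K)]
    · simp [mul_comm]
    · intro k hk
      have hk' := Finset.mem_range.1 hk
      congr 1
      rw [Nat.mul_comm, Nat.mul_add_div hp, Nat.div_eq_of_lt hk', add_zero]

theorem isProf_scale {M : ℕ} {E : ℕ → ℕ} (hM : 2 ≤ M) (hE : IsProf (M - 1) E) {p : ℕ}
    (hp : 0 < p) : IsProf (M * p - 1) (fun u => E (u / p)) := by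
  have hMp : 0 < M * p := Nat.mul_pos (by omega) hp
  have hdiv : ∀ u ≤ M * p - 1, u / p ≤ M - 1 := by
    intro u hu
    have h1 : u / p < M := by
      rw [Nat.div_lt_iff_lt_mul hp]
      omega
    omega
  refine ⟨fun u hu => hE.pos _ (hdiv u hu), fun u hu => hE.le _ (hdiv u hu), ?_, ?_⟩
  · intro u hu
    have h1 : u / p ≤ M - 1 := hdiv u hu
    have h2 : (M * p - 1 - u) / p = M - 1 - u / p := by
      have h3 : u = p * (u / p) + u % p := (Nat.div_add_mod u p).symm
      have h4 : u % p < p := Nat.mod_lt _ hp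
      set q := u / p with hq
      set r := u % p with hr
      have h5 : M * p - 1 - u = p * (M - 1 - q) + (p - 1 - r) := by
        obtain ⟨j, hj⟩ : ∃ j, M - 1 = q + j := ⟨M - 1 - q, by omega⟩
        have hM' : M = q + j + 1 := by omega
        have h6 : M - 1 - q = j := by omega
        rw [h6, h3, hM']
        have h7 : (q + j + 1) * p = p * q + p * j + p := by ring
        rw [h7]
        omega
      rw [h5, Nat.mul_add_div hp, Nat.div_eq_of_lt (by omega), add_zero]
    show E ((M * p - 1 - u) / p) = E (u / p)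
    rw [h2]
    exact hE.symm _ h1
  · have h1 : M * p - 1 + 1 = M * p := by omega
    rw [h1, sum_range_mul_div M hp]
    have h2 := hE.even
    have h3 : M - 1 + 1 = M := by omega
    rw [h3] at h2
    exact h2.mul_right p

theorem tot_scale {M : ℕ} (E : ℕ → ℕ) (hM : 2 ≤ M) {p : ℕ} (hp : 0 < p) :
    tot (M * p - 1) (fun u => E (u / p)) = (∑ m ∈ range M, E m) * p := by
  have hMp : 0 < M * p := Nat.mul_pos (by omega) hp
  have h1 : M * p - 1 + 1 = M * p := by omega
  rw [tot, h1, sum_range_mul_div M hp]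

namespace ArchMainAux

lemma log_factorial_le (n : ℕ) : Real.log (n.factorial : ℝ) ≤ n * Real.log n := by
  have h1 : (n.factorial : ℝ) ≤ (n : ℝ) ^ n := by exact_mod_cast Nat.factorial_le_pow n
  have h2 : (0 : ℝ) < n.factorial := by exact_mod_cast Nat.factorial_pos n
  have h3 := Real.log_le_log h2 h1
  rwa [Real.log_pow] at h3

/-- sum over the nodes of a function which is `lF` outside the first block -/
lemma sum_first (X : Ref) (p : ℕ) (hB : 0 < X.B) (g : ℕ → ℝ) (l : ℝ) :
    ∑ i : X.Idx p, (if (i.1 : ℕ) = 0 then g i.2 else l)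
      = ∑ k ∈ range (X.cnt p 0), g k + ((X.s : ℝ) * p - X.cnt p 0) * l := by
  have h1 : ∀ i : X.Idx p, (if (i.1 : ℕ) = 0 then g i.2 else l)
      = l + (if (i.1 : ℕ) = 0 then g i.2 - l else 0) := by
    intro i
    split_ifs <;> ring
  rw [Finset.sum_congr rfl (fun i _ => h1 i), Finset.sum_add_distrib, Finset.sum_const,
    Finset.card_univ, X.card_idx p, nsmul_eq_mul, Fintype.sum_sigma]
  rw [Fintype.sum_eq_single (⟨0, hB⟩ : Fin X.B)]
  · simp only [if_true]
    rw [Finset.sum_sub_distrib, Finset.sum_const, Finset.card_univ, Fintype.card_fin,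
      nsmul_eq_mul, Fin.sum_univ_eq_sum_range]
    push_cast
    ring
  · intro b hb
    have hb' : (b : ℕ) ≠ 0 := by
      intro h
      exact hb (Fin.ext h)
    simp only [if_neg hb', Finset.sum_const_zero]

end ArchMainAux

open ArchMainAux

/-- **The archimedean bound.** -/
theorem arch_main {M : ℕ} {E : ℕ → ℕ} {X Z : Ref} {lF lR η : ℝ} (H : ArchHyp M E X Z lF lR η) :
    ∃ C : ℝ, ∃ p0 : ℕ, ∀ p : ℕ, p0 ≤ p →
      |DR (M * p - 1) (fun u => E (u / p)) (X.s * p) (Z.s * p)|
        ≤ Real.exp (kap M E X.s Z.s * p ^ 2 * Real.log p + archConst M E X Z lF lR η * p ^ 2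
          + C * p * Real.log p) := by
  have hZX : Z.ed Z.B < X.ed 0 := by rw [H.hX0]; exact H.hZ
  obtain ⟨C1, p1, h1⟩ := rowF H
  obtain ⟨C2, p2, h2⟩ := rowR H
  obtain ⟨C3, p3, h3⟩ := log_pairs_ge X Z hZX
  obtain ⟨C4, p4, h4⟩ := sum_gF M E X Z H.hX1 H.hXB
  obtain ⟨p5, h5⟩ := ynode_sum_injective X Z hZX
  set SE : ℝ := ∑ m ∈ range M, (E m : ℝ) with hSE
  set G : ℝ := primF M E X Z (X.ed 1) - primF M E X Z (X.ed 0) with hG
  set w1 : ℝ := (X.ed 1 : ℝ) - X.ed 0 with hw1
  refine ⟨|C1| * X.s + |C2| * Z.s + C3 + C4 + 2 * |lF| + 2 * η + ((X.s : ℝ) + Z.s)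
      * (|Real.log ((X.s : ℝ) + Z.s)| * 2 + 1), max (max p1 p2) (max (max p3 p4) (max p5 2)),
    fun p hp => ?_⟩
  have hp1 : p1 ≤ p := (le_max_left _ _).trans ((le_max_left _ _).trans hp)
  have hp2 : p2 ≤ p := (le_max_right _ _).trans ((le_max_left _ _).trans hp)
  have hp345 := (le_max_right (max p1 p2) (max (max p3 p4) (max p5 2))).trans hp
  have hp3 : p3 ≤ p := (le_max_left _ _).trans ((le_max_left _ _).trans hp345)
  have hp4 : p4 ≤ p := (le_max_right _ _).trans ((le_max_left _ _).trans hp345)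
  have hp5 : p5 ≤ p := (le_max_left _ _).trans ((le_max_right _ _).trans hp345)
  have hp6 : 2 ≤ p := (le_max_right _ _).trans ((le_max_right _ _).trans hp345)
  have hp0 : 0 < p := by omega
  have hpR : (2 : ℝ) ≤ p := by exact_mod_cast hp6
  have hlog : Real.log 2 ≤ Real.log p := Real.log_le_log (by norm_num) hpR
  have hlog2 : (0.69 : ℝ) ≤ Real.log 2 := by have := Real.log_two_gt_d9; linarith
  have hlp : 0.5 ≤ Real.log p := by linarith
  replace h1 := h1 p hp1
  replace h2 := h2 p hp2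
  replace h3 := h3 p hp3
  replace h4 := h4 p hp4
  replace h5 := h5 p hp5
  have hcardX := X.card_idx p
  have hcardZ := Z.card_idx p
  have hprof := isProf_scale H.hM H.prof hp0
  have htot := tot_scale E H.hM hp0
  have hd : 4 * (X.s * p) + 2 * (Z.s * p) ≤ tot (M * p - 1) (fun u => E (u / p)) + 1 := by
    rw [htot]
    have := Nat.mul_le_mul_right p H.hdeg.le
    nlinarith
  -- the row bounds
  set aF : X.Idx p → ℝ := fun i =>
    p * (if (i.1 : ℕ) = 0 then gF M E X Z (X.node p i / p) + η else lF)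
          + (4 * X.s + 2 * Z.s - SE) * p * Real.log p
          + (2 * X.s + Z.s) * p * Real.log 4 + C1 * Real.log p with haF
  set aR : ℝ := p * lR + (4 * Z.s + 2 * X.s - SE) * p * Real.log p
          + (2 * Z.s + X.s) * p * Real.log 4 + C2 * Real.log p with haR
  have hbas := arch_basis hprof (X.s * p) (Z.s * p) hd (Fintype.equivFinOfCardEq hcardX)
    (Fintype.equivFinOfCardEq hcardZ) (X.ynode p) (Z.ynode p) h5
    (fun i => Real.exp (aF i)) (fun _ => Real.exp aR) h1 h2
  obtain ⟨hP1, hP2, hP3, hP⟩ := h3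
  set P1 := pairProd (fun k => (X.ynode p k : ℝ)) with hP1def
  set P2 := pairProd (fun k => (Z.ynode p k : ℝ)) with hP2def
  set P3 := pairProd (fun k => ((Sum.elim (X.ynode p) (Z.ynode p) k : ℚ) : ℝ)) with hP3def
  have hsq : √P1 * √P2 * √P3 = Real.exp ((Real.log P1 + Real.log P2 + Real.log P3) / 2) := by
    have e1 : ∀ P : ℝ, 0 < P → √P = Real.exp (Real.log P / 2) := by
      intro P hP
      rw [Real.exp_half, Real.exp_log hP]
    rw [e1 P1 hP1, e1 P2 hP2, e1 P3 hP3, ← Real.exp_add, ← Real.exp_add]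
    congr 1
    ring
  rw [hsq, ← Real.exp_sum, Finset.prod_const, Finset.card_univ, hcardZ, ← Real.exp_nat_mul,
    ← Real.exp_add] at hbas
  -- sum of the row exponents
  have hnodeE : ∀ i : X.Idx p, (i.1 : ℕ) = 0 →
      (X.node p i : ℝ) = X.ed 0 * p + ((i.2 : ℕ) + 1 / 2 : ℝ) := by
    intro i hi
    simp only [Ref.node, hi, H.hX1]
    push_cast
    ring
  have hsumA : ∑ i, aF i = p * (∑ k ∈ range (X.cnt p 0),
        (gF M E X Z ((X.ed 0 * p + (k + 1 / 2) : ℝ) / p) + η)
        + ((X.s : ℝ) * p - X.cnt p 0) * lF)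
      + X.s * p * ((4 * X.s + 2 * Z.s - SE) * p * Real.log p
          + (2 * X.s + Z.s) * p * Real.log 4 + C1 * Real.log p) := by
    have e1 : ∀ i : X.Idx p, aF i = p * (if (i.1 : ℕ) = 0 then
        (fun k : ℕ => gF M E X Z ((X.ed 0 * p + (k + 1 / 2) : ℝ) / p) + η) i.2 else lF)
        + ((4 * X.s + 2 * Z.s - SE) * p * Real.log p
          + (2 * X.s + Z.s) * p * Real.log 4 + C1 * Real.log p) := by
      intro i
      simp only [haF]
      by_cases hi : (i.1 : ℕ) = 0
      · rw [if_pos hi, if_pos hi, hnodeE i hi]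
        ring
      · rw [if_neg hi, if_neg hi]
        ring
    rw [Finset.sum_congr rfl (fun i _ => e1 i), Finset.sum_add_distrib, ← Finset.mul_sum,
      sum_first X p X.B_pos (fun k : ℕ => gF M E X Z ((X.ed 0 * p + (k + 1 / 2) : ℝ) / p) + η) lF,
      Finset.sum_const, Finset.card_univ, hcardX, nsmul_eq_mul]
    push_cast
    ring
  have hcnt : |(X.cnt p 0 : ℝ) - w1 * p| ≤ 1 := by
    rw [X.cnt_zero p H.hXB, H.hX1, one_mul]
    have hpos : (0 : ℚ) ≤ (X.ed 1 - X.ed 0) * p := by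
      have := X.ed_lt 0 X.B_pos
      have h7 : (0 : ℚ) ≤ X.ed 1 - X.ed 0 := by linarith
      positivity
    have h8 := Nat.floor_le hpos
    have h9 := Nat.lt_floor_add_one ((X.ed 1 - X.ed 0) * (p : ℚ))
    have h8' : ((⌊(X.ed 1 - X.ed 0) * (p : ℚ)⌋₊ : ℚ) : ℝ) ≤ (((X.ed 1 - X.ed 0) * (p : ℚ) : ℚ) : ℝ) := by
      exact_mod_cast h8
    have h9' : (((X.ed 1 - X.ed 0) * (p : ℚ) : ℚ) : ℝ) < ((⌊(X.ed 1 - X.ed 0) * (p : ℚ)⌋₊ + 1 : ℚ) : ℝ) := by
      exact_mod_cast h9
    push_cast at h8' h9'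
    rw [abs_le]
    constructor <;> linarith
  set c0 : ℝ := (X.cnt p 0 : ℝ) with hc0
  set lp : ℝ := Real.log p with hlpdef
  set SG : ℝ := ∑ k ∈ range (X.cnt p 0), gF M E X Z ((X.ed 0 * p + (k + 1 / 2) : ℝ) / p) with hSG
  have h4' : p * SG ≤ p ^ 2 * G + C4 * p * lp := by
    have := (abs_le.1 h4).2
    rw [← Finset.mul_sum] at this
    linarith
  have hppos : (0 : ℝ) < p := by linarith
  have hplp : (p : ℝ) ≤ 2 * (p * lp) := by nlinarith
  have hcη : p * (c0 * η) ≤ w1 * η * p ^ 2 + 2 * η * p * lp := by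
    have e1 := (abs_le.1 hcnt).2
    have e2 : c0 * η ≤ (w1 * p + 1) * η := mul_le_mul_of_nonneg_right (by linarith) H.hη
    have e3 : p * (c0 * η) ≤ p * ((w1 * p + 1) * η) := mul_le_mul_of_nonneg_left e2 hppos.le
    have e4 : η * p ≤ η * (2 * (p * lp)) := mul_le_mul_of_nonneg_left hplp H.hη
    linarith
  have hclF : p * (((X.s : ℝ) * p - c0) * lF)
      ≤ (X.s - w1) * lF * p ^ 2 + 2 * |lF| * p * lp := by
    have e1 : (w1 * p - c0) * lF ≤ 1 * |lF| := by
      refine (le_abs_self _).trans ?_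
      rw [abs_mul]
      apply mul_le_mul_of_nonneg_right _ (abs_nonneg _)
      rw [abs_sub_comm]
      exact hcnt
    have e3 : p * ((w1 * p - c0) * lF) ≤ p * (1 * |lF|) := mul_le_mul_of_nonneg_left e1 hppos.le
    have e4 : |lF| * p ≤ |lF| * (2 * (p * lp)) :=
      mul_le_mul_of_nonneg_left hplp (abs_nonneg _)
    linarith
  have hC1 : X.s * p * (C1 * lp) ≤ |C1| * X.s * p * lp := by
    have e1 : C1 * (X.s * p * lp) ≤ |C1| * (X.s * p * lp) :=
      mul_le_mul_of_nonneg_right (le_abs_self _) (by positivity)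
    linarith
  have hC2 : Z.s * p * (C2 * lp) ≤ |C2| * Z.s * p * lp := by
    have e1 : C2 * (Z.s * p * lp) ≤ |C2| * (Z.s * p * lp) :=
      mul_le_mul_of_nonneg_right (le_abs_self _) (by positivity)
    linarith
  have hfact : Real.log ((X.s * p + Z.s * p).factorial : ℝ)
      ≤ ((X.s : ℝ) + Z.s) * (|Real.log ((X.s : ℝ) + Z.s)| * 2 + 1) * (p * lp) := by
    refine (log_factorial_le _).trans ?_
    push_cast
    rw [← add_mul]
    set S : ℝ := (X.s : ℝ) + Z.s with hS
    have hS0 : 0 ≤ S := by positivity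
    rcases hS0.eq_or_lt with e0 | e0
    · rw [← e0]; simp
    · rw [Real.log_mul e0.ne' hppos.ne']
      have e1 : Real.log S * 1 ≤ |Real.log S| * (2 * lp) := by
        refine (mul_le_mul_of_nonneg_right (le_abs_self _) (by norm_num)).trans ?_
        exact mul_le_mul_of_nonneg_left (by linarith) (abs_nonneg _)
      have e2 : S * p * (Real.log S + lp) ≤ S * p * (|Real.log S| * (2 * lp) + lp) :=
        mul_le_mul_of_nonneg_left (by linarith) (by positivity)
      calc S * p * (Real.log S + lp) ≤ S * p * (|Real.log S| * (2 * lp) + lp) := e2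
        _ = S * (|Real.log S| * 2 + 1) * (p * lp) := by ring
  set W : ℝ := (Real.log P1 + Real.log P2 + Real.log P3) / 2 with hW
  set D : ℝ := |DR (M * p - 1) (fun u => E (u / p)) (X.s * p) (Z.s * p)| with hD
  have hfpos : (0 : ℝ) < ((X.s * p + Z.s * p).factorial : ℝ) := by
    exact_mod_cast Nat.factorial_pos _
  have hD1 : D ≤ Real.exp (Real.log ((X.s * p + Z.s * p).factorial : ℝ)
      + (∑ i, aF i + ((Z.s * p : ℕ) : ℝ) * aR) - W) := by
    rw [Real.exp_sub, Real.exp_add, Real.exp_log hfpos, le_div_iff₀ (Real.exp_pos _)]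
    linarith
  refine hD1.trans (Real.exp_le_exp.2 ?_)
  rw [hsumA, Finset.sum_add_distrib, ← hSG, Finset.sum_const, card_range, nsmul_eq_mul]
  simp only [kap, archConst, ← hSE, ← hG, ← hw1]
  push_cast
  have e5 : (Z.s : ℝ) * p * aR = Z.s * lR * p ^ 2 + (4 * Z.s + 2 * X.s - SE) * Z.s * (p ^ 2 * lp)
      + (2 * Z.s + X.s) * Z.s * (p ^ 2 * Real.log 4) + Z.s * p * (C2 * lp) := by
    simp only [haR]; ring
  rw [e5]
  linarith

end Pool.Agent.Z5
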