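import Pool.Agent.Z5.ArchData

/-! The hypotheses `ArchHyp` for the reference densities `XX`, `ZZ`, and the value of the
archimedean constant.  Seat: helper6. -/

open Finset

namespace Pool.Agent.Z5

/-- the constant profile -/
def E6 : ℕ → ℕ := fun _ => 6

theorem Ref.U_eq_Gam (R : Ref) (z : ℝ) :
    R.U z = ∑ i ∈ range R.B, (R.d i : ℝ) * (Gam (R.ed i) z - Gam (R.ed (i + 1)) z) := by
  unfold Ref.U Gam
  refine Finset.sum_congr rfl fun i _ => ?_
  have h1 : HH ((R.ed (i + 1) : ℝ) - z) = -HH (z - (R.ed (i + 1) : ℝ)) := by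
    rw [← HH_neg, neg_sub]
  have h2 : HH ((R.ed i : ℝ) - z) = -HH (z - (R.ed i : ℝ)) := by
    rw [← HH_neg, neg_sub]
  rw [h1, h2, add_comm (R.ed (i + 1) : ℝ) z, add_comm (R.ed i : ℝ) z]
  ring

theorem poleU_six (z : ℝ) : poleU 6 E6 z = -6 * Gam 3 z := by
  simp only [poleU, E6, Gam, Finset.sum_range_succ, Finset.sum_range_zero]
  push_cast
  ring_nf

theorem poleV_six (z : ℝ) : poleV 6 E6 z = 6 * (GG (z + 3) - GG (z - 3)) := by
  simp only [poleV, E6, Finset.sum_range_succ, Finset.sum_range_zero]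
  push_cast
  ring_nf

theorem XX_U (z : ℝ) : XX.U z = ∑ i ∈ range 10, (((cX.getD i 0 : ℕ) : ℝ) / 1000) *
    (Gam (((eX.getD i 0 : ℕ) : ℝ) / 200) z - Gam (((eX.getD (i + 1) 0 : ℕ) : ℝ) / 200) z) := by
  rw [Ref.U_eq_Gam]
  refine Finset.sum_congr rfl fun i _ => ?_
  simp [XX]

theorem ZZ_U (z : ℝ) : ZZ.U z = ∑ i ∈ range 7, (((cZ.getD i 0 : ℕ) : ℝ) / 1000) *
    (Gam (((eZ.getD i 0 : ℕ) : ℝ) / 200) z - Gam (((eZ.getD (i + 1) 0 : ℕ) : ℝ) / 200) z) := by
  rw [Ref.U_eq_Gam]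
  refine Finset.sum_congr rfl fun i _ => ?_
  simp [ZZ]

theorem Gam_zero (z : ℝ) : Gam 0 z = 0 := by simp [Gam]

theorem gF_eq (z : ℝ) : gF 6 E6 XX ZZ z = gsum 200 1000 tsF z := by
  have h3 : Gam 3 z = Gam (600 / 200) z := by norm_num
  rw [gF, XX_U, ZZ_U, poleU_six, h3]
  simp only [Finset.sum_range_succ, Finset.sum_range_zero, gsum, tsF, Trm.co, List.map_cons,
    List.map_nil, List.sum_cons, List.sum_nil, eX, cX, eZ, cZ, List.getD_cons_zero,
    List.getD_cons_succ, Bool.false_eq_true, if_false, if_true]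
  push_cast
  simp only [zero_div, Gam_zero]
  ring

theorem gR_eq (z : ℝ) : gR 6 E6 XX ZZ z = gsum 200 1000 tsR z := by
  have h3 : Gam 3 z = Gam (600 / 200) z := by norm_num
  rw [gR, XX_U, ZZ_U, poleU_six, h3]
  simp only [Finset.sum_range_succ, Finset.sum_range_zero, gsum, tsR, Trm.co, List.map_cons,
    List.map_nil, List.sum_cons, List.sum_nil, eX, cX, eZ, cZ, List.getD_cons_zero,
    List.getD_cons_succ, Bool.false_eq_true, if_false, if_true]
  push_cast
  simp only [zero_div, Gam_zero]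
  ring

theorem gFm_eq (z : ℝ) : -gF 6 E6 XX ZZ z = gsum 200 1000 tsFm z := by
  have h3 : Gam 3 z = Gam (600 / 200) z := by norm_num
  rw [gF, XX_U, ZZ_U, poleU_six, h3]
  simp only [Finset.sum_range_succ, Finset.sum_range_zero, gsum, tsFm, Trm.co, List.map_cons,
    List.map_nil, List.sum_cons, List.sum_nil, eX, cX, eZ, cZ, List.getD_cons_zero,
    List.getD_cons_succ, Bool.false_eq_true, if_false, if_true]
  push_cast
  simp only [zero_div, Gam_zero]
  ring

/-- level of the `F` rows -/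
noncomputable def lF6 : ℝ := -3759665 / 200000
/-- level of the `ρ` rows -/
noncomputable def lR6 : ℝ := 2124567 / 200000
/-- allowance in the saturated zone -/
noncomputable def eta6 : ℝ := 2176 / 200000

theorem isProf_E6 : IsProf 5 E6 where
  pos := fun _ _ => by simp [E6]
  le := fun _ _ => by simp [E6]
  symm := fun _ _ => rfl
  even := by simp [E6]; decide

theorem archHyp_num : ArchHyp 6 E6 XX ZZ lF6 lR6 eta6 where
  hM := by norm_num
  prof := isProf_E6
  hX0 := by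
    show (((eX.getD 0 0 : ℕ) : ℚ) / 200) = ((6 : ℕ) : ℚ) / 2
    simp only [eX, List.getD_cons_zero]; norm_num
  hX1 := by
    show (((cX.getD 0 0 : ℕ) : ℚ) / 1000) = 1
    simp only [cX, List.getD_cons_zero]; norm_num
  hXB := by show 2 ≤ 10; norm_num
  hZ := by
    show (((eZ.getD 7 0 : ℕ) : ℚ) / 200) < ((6 : ℕ) : ℚ) / 2
    simp only [eZ, List.getD_cons_zero, List.getD_cons_succ]; norm_num
  hdeg := by
    show 4 * 5 + 2 * 5 < ∑ m ∈ range 6, E6 m
    simp [E6]
  hF := by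
    intro z hz
    have hz' : ((1230 : ℕ) : ℝ) / ((200 : ℕ) : ℝ) ≤ z := by
      refine le_trans (le_of_eq ?_) hz
      show _ = ((((eX.getD 1 0 : ℕ) : ℚ) / 200 : ℚ) : ℝ)
      simp only [eX, List.getD_cons_zero, List.getD_cons_succ]; push_cast; rfl
    rw [gF_eq]
    by_cases h : z ≤ ((4880 : ℕ) : ℝ) / ((200 : ℕ) : ℝ)
    · have := cellsOk_sound 200 1000 (by norm_num) (by norm_num) tsF 0 3759665 cellsF 1230 okF z hz' h
        (by simp [cellsF])
      refine this.trans (le_of_eq ?_)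
      rw [lF6]; norm_num
    · have h' := (lt_of_not_ge h).le
      have := tailOk_sound 200 1000 (by norm_num) (by norm_num) tsF 0 3759665 4880 (by norm_num) okT z h'
      have hlog : 0 ≤ Real.log (z / (((4880 : ℕ) : ℝ) / ((200 : ℕ) : ℝ))) := by
        apply Real.log_nonneg
        rw [le_div_iff₀ (by norm_num), one_mul]
        exact h'
      have hK : (0 : ℝ) ≤ 2 * ((csPos tsF : ℝ) - csNeg tsF) / (((200 : ℕ) : ℝ) * ((1000 : ℕ) : ℝ)) := by
        have : csNeg tsF ≤ csPos tsF := by decide +kernel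
        have : (csNeg tsF : ℝ) ≤ csPos tsF := by exact_mod_cast this
        apply div_nonneg <;> [linarith; positivity]
      have h2 := mul_nonneg hK hlog
      have h3 : (((0 : ℕ) : ℝ) - ((3759665 : ℕ) : ℝ)) / (((200 : ℕ) : ℝ) * ((1000 : ℕ) : ℝ)) = lF6 := by
        rw [lF6]; norm_num
      rw [h3] at this
      linarith
  hR := by
    intro z hz0 hz
    rw [gR_eq]
    have := cellsOk_sound 200 1000 (by norm_num) (by norm_num) tsR 2124567 0 cellsR 0 okR z
      (by simpa using hz0) (by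
        refine hz.trans ?_
        show ((6 : ℕ) : ℝ) / 2 ≤ ((600 : ℕ) : ℝ) / ((200 : ℕ) : ℝ)
        norm_num) (by simp [cellsR])
    refine this.trans (le_of_eq ?_)
    rw [lR6]; norm_num
  hη := by rw [eta6]; norm_num
  hS := by
    intro z hz0 hz
    have h0 : ((600 : ℕ) : ℝ) / ((200 : ℕ) : ℝ) ≤ z := by
      refine le_trans (le_of_eq ?_) hz0
      show _ = ((((eX.getD 0 0 : ℕ) : ℚ) / 200 : ℚ) : ℝ)
      simp only [eX, List.getD_cons_zero]; push_cast; rfl
    have h1 : z ≤ ((1230 : ℕ) : ℝ) / ((200 : ℕ) : ℝ) := by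
      refine hz.trans (le_of_eq ?_)
      show ((((eX.getD 1 0 : ℕ) : ℚ) / 200 : ℚ) : ℝ) = _
      simp only [eX, List.getD_cons_zero, List.getD_cons_succ]; push_cast; rfl
    have := cellsOk_sound 200 1000 (by norm_num) (by norm_num) tsFm 3761841 0 cellsS 600 okS z h0 h1
      (by simp [cellsS])
    rw [← gFm_eq] at this
    have h3 : lF6 - eta6 = -((((3761841 : ℕ) : ℝ) - ((0 : ℕ) : ℝ)) / (((200 : ℕ) : ℝ) * ((1000 : ℕ) : ℝ))) := by
      rw [lF6, eta6]; norm_num
    rw [h3]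
    linarith

/-! ### The constant -/

/-- pole terms: `4 D² Dc k poleV 6 E6 (Z/D)`, `D = 200` -/
def poleL (k : ℤ) (Z : ℕ) : List (ℤ × ℕ) :=
  [ggT (6 * k) (Z + 600), ggT (-(6 * k)) (nd' Z 600)]

theorem poleL_eq (k : ℤ) (Z : ℕ) :
    4 * ((200 : ℕ) : ℝ) ^ 2 * k * poleV 6 E6 ((Z : ℝ) / ((200 : ℕ) : ℝ)) =
      lcomb (poleL k Z) - (2 * Real.log ((200 : ℕ) : ℝ) + 3) * (6 * k * (4 * 600 * Z)) := by
  rw [poleV_six]
  have e1 : GG ((Z : ℝ) / ((200 : ℕ) : ℝ) + 3) = GG (((Z + 600 : ℕ) : ℝ) / ((200 : ℕ) : ℝ)) := by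
    congr 1; push_cast; ring
  have e2 : GG ((Z : ℝ) / ((200 : ℕ) : ℝ) - 3) = GG (((nd' Z 600 : ℕ) : ℝ) / ((200 : ℕ) : ℝ)) := by
    rw [nd'_cast, ← GG_abs]
    congr 1
    rw [show (Z : ℝ) / ((200 : ℕ) : ℝ) - 3 = ((Z : ℝ) - ((600 : ℕ) : ℝ)) / ((200 : ℕ) : ℝ) by
      push_cast; ring, abs_div]
    simp
  rw [e1, e2]
  have h1 := ggT_eq 200 (by norm_num) (6 * k) (Z + 600)
  have h2 := ggT_eq 200 (by norm_num) (-(6 * k)) (nd' Z 600)
  have q2 : ((nd' Z 600 : ℕ) : ℝ) ^ 2 = ((Z : ℝ) - 600) ^ 2 := by rw [nd'_cast, sq_abs]; norm_num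
  rw [q2] at h2
  simp only [lcomb, poleL, List.map_cons, List.map_nil, List.sum_cons, List.sum_nil]
  push_cast at h1 h2 ⊢
  linear_combination h1 + h2

/-- all log terms of `4 D² Dc² archConst` -/
def constL : List (ℤ × ℕ) :=
  NX.enL NX (-1) ++ (NX.enL NZ (-1) ++ (NZ.enL NZ (-1) ++
  (NX.vL 2000 1230 ++ (NX.vL (-2000) 600 ++ (NZ.vL 1000 1230 ++ (NZ.vL (-1000) 600 ++
  (poleL (-1000000) 1230 ++ (poleL 1000000 600 ++
  [(24000000000000, 2), (27024000000000, 200)]))))))))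

theorem massX : NX.mass NX.B = 1000000 := by decide +kernel

theorem massZ : NZ.mass NZ.B = 1000000 := by decide +kernel

theorem constL_eq : 160000000000 * archConst 6 E6 XX ZZ lF6 lR6 eta6 =
    lcomb constL + 43475447320000 := by
  have e1 : (XX.ed 1 : ℝ) = ((1230 : ℕ) : ℝ) / ((200 : ℕ) : ℝ) := by
    show ((((eX.getD 1 0 : ℕ) : ℚ) / 200 : ℚ) : ℝ) = _
    simp only [eX, List.getD_cons_zero, List.getD_cons_succ]; push_cast; rfl
  have e0 : (XX.ed 0 : ℝ) = ((600 : ℕ) : ℝ) / ((200 : ℕ) : ℝ) := by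
    show ((((eX.getD 0 0 : ℕ) : ℚ) / 200 : ℚ) : ℝ) = _
    simp only [eX, List.getD_cons_zero]; push_cast; rfl
  have eXX := enL_eq (D := 200) (Dc := 1000) (by norm_num) (by norm_num) reprX reprX (-1)
  have eXZ := enL_eq (D := 200) (Dc := 1000) (by norm_num) (by norm_num) reprX reprZ (-1)
  have eZZ := enL_eq (D := 200) (Dc := 1000) (by norm_num) (by norm_num) reprZ reprZ (-1)
  have vX1 := vL_eq (D := 200) (Dc := 1000) (by norm_num) (by norm_num) reprX 2000 1230
  have vX0 := vL_eq (D := 200) (Dc := 1000) (by norm_num) (by norm_num) reprX (-2000) 600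
  have vZ1 := vL_eq (D := 200) (Dc := 1000) (by norm_num) (by norm_num) reprZ 1000 1230
  have vZ0 := vL_eq (D := 200) (Dc := 1000) (by norm_num) (by norm_num) reprZ (-1000) 600
  have p1 := poleL_eq (-1000000) 1230
  have p0 := poleL_eq 1000000 600
  rw [massX] at eXX vX1 vX0
  rw [massZ] at eZZ vZ1 vZ0
  rw [massX, massZ] at eXZ
  have hs : (XX.s : ℝ) = 5 := by show ((5 : ℕ) : ℝ) = 5; norm_num
  have hs' : (ZZ.s : ℝ) = 5 := by show ((5 : ℕ) : ℝ) = 5; norm_num
  have h4 : Real.log 4 = 2 * Real.log ((2 : ℕ) : ℝ) := by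
    rw [show (4 : ℝ) = 2 ^ 2 by norm_num, Real.log_pow]; push_cast; ring
  have hL : lcomb constL = lcomb (NX.enL NX (-1)) + lcomb (NX.enL NZ (-1)) +
      lcomb (NZ.enL NZ (-1)) + lcomb (NX.vL 2000 1230) + lcomb (NX.vL (-2000) 600) +
      lcomb (NZ.vL 1000 1230) + lcomb (NZ.vL (-1000) 600) + lcomb (poleL (-1000000) 1230) +
      lcomb (poleL 1000000 600) + 24000000000000 * Real.log ((2 : ℕ) : ℝ) +
      27024000000000 * Real.log ((200 : ℕ) : ℝ) := by
    unfold constL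
    simp only [lcomb_append]
    simp only [lcomb, List.map_cons, List.map_nil, List.sum_cons, List.sum_nil]
    push_cast
    ring
  rw [hL, archConst, primF, primF, e1, e0, hs, hs', h4, lF6, lR6, eta6]
  push_cast at *
  linear_combination eXX + eXZ + eZZ + vX1 + vX0 + vZ1 + vZ0 + p1 + p0

set_option maxRecDepth 1000000 in
theorem constL_nz : lcNz constL = true := by decide +kernel

set_option maxRecDepth 1000000 in
theorem constL_up : lcUp constL ≤ -15450832965383225241283755076 := by decide +kernel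

/-- the archimedean constant for `ζ(5)` -/
theorem archConst_num : archConst 6 E6 XX ZZ lF6 lR6 eta6 ≤ -71355 / 1000 := by
  have h1 := lcomb_le constL constL_nz
  have h2 : (lcUp constL : ℝ) ≤ -15450832965383225241283755076 := by exact_mod_cast constL_up
  have h3 := constL_eq
  have h4 : lcomb constL * 2 ^ 48 ≤ -15450832965383225241283755076 := h1.trans h2
  nlinarith

/-- the certificate in the form used by the assembly -/
theorem exists_cert : ∃ (X Z : Ref) (lF lR η : ℝ), ArchHyp 6 (fun _ => 6) X Z lF lR η ∧ X.s = 5 ∧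
    Z.s = 5 ∧ archConst 6 (fun _ => 6) X Z lF lR η ≤ -71.355 :=
  ⟨XX, ZZ, lF6, lR6, eta6, archHyp_num, rfl, rfl, archConst_num.trans (by norm_num)⟩

end Pool.Agent.Z5
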