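import Mathlib

/-! # The products `∏_{i < n} (2 i)!` -/

open Finset Real

namespace Pool.Agent.Z5

/-- `∏_{i < n} (2 i)!` -/
def SF (n : ℕ) : ℕ := ∏ i ∈ range n, (2 * i).factorial

theorem SF_succ (n : ℕ) : SF (n + 1) = SF n * (2 * n).factorial := by
  simp [SF, prod_range_succ]

theorem SF_pos (n : ℕ) : 0 < SF n := prod_pos fun i _ => Nat.factorial_pos _

theorem log_factorial_ge (m : ℕ) (hm : 1 ≤ m) :
    (m : ℝ) * log m - m ≤ log (m.factorial : ℝ) := by
  have hm' : (0 : ℝ) < m := by exact_mod_cast hm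
  have h := Real.pow_div_factorial_le_exp (m : ℝ) hm'.le m
  have hf : (0 : ℝ) < (m.factorial : ℝ) := by exact_mod_cast Nat.factorial_pos m
  have h2 : log ((m : ℝ) ^ m / m.factorial) ≤ m := by
    have := Real.log_le_log (by positivity) h
    rwa [Real.log_exp] at this
  rw [Real.log_div (by positivity) hf.ne', Real.log_pow] at h2
  linarith

theorem log_one_add_ge {x : ℝ} (hx : 0 < x) : x / (1 + x) ≤ log (1 + x) := by
  have h := Real.one_sub_inv_le_log_of_pos (x := 1 + x) (by linarith)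
  have : 1 - (1 + x)⁻¹ = x / (1 + x) := by field_simp; ring
  linarith

theorem log_factorial_le (m : ℕ) (hm : 1 ≤ m) :
    log (m.factorial : ℝ) ≤ (m : ℝ) * log m - m + log m + 1 := by
  induction m, hm using Nat.le_induction with
  | base => simp
  | succ m hm ih =>
    have hm' : (0 : ℝ) < m := by exact_mod_cast hm
    have hf : (0 : ℝ) < (m.factorial : ℝ) := by exact_mod_cast Nat.factorial_pos m
    rw [Nat.factorial_succ]
    push_cast
    rw [Real.log_mul (by positivity) hf.ne']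
    have h1 := log_one_add_ge (x := 1 / (m : ℝ)) (by positivity)
    have h2 : log (1 + 1 / (m : ℝ)) = log ((m : ℝ) + 1) - log m := by
      rw [← Real.log_div (by positivity) hm'.ne']
      congr 1
      field_simp
    have h3 : 1 / (m : ℝ) / (1 + 1 / (m : ℝ)) = 1 / ((m : ℝ) + 1) := by field_simp
    rw [h2, h3] at h1
    have h4 : ((m : ℝ) + 1) * (1 / ((m : ℝ) + 1)) ≤ ((m : ℝ) + 1) * (log ((m : ℝ) + 1) - log m) :=
      mul_le_mul_of_nonneg_left h1 (by positivity)
    rw [mul_one_div_cancel (by positivity)] at h4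
    nlinarith

/-- the main term of `log (SF n)` -/
noncomputable def gSF (n : ℝ) : ℝ := n ^ 2 * log n + (log 2 - 3 / 2) * n ^ 2

theorem step_bound (n : ℕ) (hn : 1 ≤ n) :
    |log ((2 * n).factorial : ℝ) - (gSF (n + 1) - gSF n)| ≤ 3 * (log (n + 1) + 1) + 3 := by
  have hn' : (0 : ℝ) < n := by exact_mod_cast hn
  have hn1 : (1 : ℝ) ≤ n := by exact_mod_cast hn
  have h1 := log_factorial_ge (2 * n) (by omega)
  have h2 := log_factorial_le (2 * n) (by omega)
  push_cast at h1 h2
  rw [Real.log_mul (by norm_num) hn'.ne'] at h1 h2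
  have e2 : log (1 + 1 / (n : ℝ)) = log ((n : ℝ) + 1) - log n := by
    rw [← Real.log_div (by positivity) hn'.ne']
    congr 1
    field_simp
  have hlo := log_one_add_ge (x := 1 / (n : ℝ)) (by positivity)
  have hup := Real.log_le_sub_one_of_pos (x := 1 + 1 / (n : ℝ)) (by positivity)
  rw [e2] at hlo hup
  have h3 : 1 / (n : ℝ) / (1 + 1 / (n : ℝ)) = 1 / ((n : ℝ) + 1) := by field_simp
  rw [h3] at hlo
  set a := log ((n : ℝ) + 1) - log n with ha
  have hlo' : (n : ℝ) ^ 2 / (n + 1) ≤ n ^ 2 * a := by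
    have := mul_le_mul_of_nonneg_left hlo (by positivity : (0 : ℝ) ≤ (n : ℝ) ^ 2)
    calc (n : ℝ) ^ 2 / (n + 1) = (n : ℝ) ^ 2 * (1 / (n + 1)) := by ring
      _ ≤ _ := this
  have hlo2 : (n : ℝ) - 1 ≤ n ^ 2 * a := by
    refine le_trans ?_ hlo'
    rw [le_div_iff₀ (by positivity)]
    nlinarith
  have hup2 : n ^ 2 * a ≤ (n : ℝ) := by
    have : n ^ 2 * a ≤ (n : ℝ) ^ 2 * (1 / n) := by
      apply mul_le_mul_of_nonneg_left _ (by positivity)
      linarith
    calc n ^ 2 * a ≤ (n : ℝ) ^ 2 * (1 / n) := this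
      _ = n := by field_simp
  have hna : n * a ≤ 1 := by
    have : n * a ≤ (n : ℝ) * (1 / n) := by
      apply mul_le_mul_of_nonneg_left _ (by positivity)
      linarith
    calc n * a ≤ (n : ℝ) * (1 / n) := this
      _ = 1 := by field_simp
  have hna0 : 0 ≤ n * a := by
    have : 0 ≤ a := le_trans (by positivity) hlo
    positivity
  have hl2 : 0 ≤ log (2 : ℝ) := Real.log_nonneg (by norm_num)
  have hl2' : log (2 : ℝ) ≤ 1 := by
    have := Real.log_le_sub_one_of_pos (x := (2 : ℝ)) (by norm_num); linarith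
  have hln : log (n : ℝ) = log ((n : ℝ) + 1) - a := by rw [ha]; ring
  have hln0 : 0 ≤ log (n : ℝ) := Real.log_nonneg hn1
  have hln1 : 0 ≤ log ((n : ℝ) + 1) := Real.log_nonneg (by linarith)
  have hg : gSF (n + 1) - gSF n =
      (2 * n + 1) * log ((n : ℝ) + 1) + n ^ 2 * a + (log 2 - 3 / 2) * (2 * n + 1) := by
    rw [gSF, gSF, ha]; ring
  rw [hg, abs_le]
  constructor
  · nlinarith
  · nlinarith

theorem log_SF (n : ℕ) : |log (SF n : ℝ) - gSF n| ≤ n * (3 * (log (n + 1) + 1) + 3) := by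
  induction n with
  | zero => simp [SF, gSF]
  | succ n ih =>
    rw [SF_succ]
    push_cast
    have hS : (0 : ℝ) < (SF n : ℝ) := by exact_mod_cast SF_pos n
    have hf : (0 : ℝ) < ((2 * n).factorial : ℝ) := by exact_mod_cast Nat.factorial_pos _
    rw [Real.log_mul hS.ne' hf.ne']
    have hmono : log ((n : ℝ) + 1) ≤ log ((n : ℝ) + 1 + 1) :=
      Real.log_le_log (by positivity) (by linarith)
    have hl0 : 0 ≤ log ((n : ℝ) + 1 + 1) := Real.log_nonneg (by linarith [n.cast_nonneg (α := ℝ)])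
    have hs : |log ((2 * n).factorial : ℝ) - (gSF (n + 1) - gSF n)| ≤
        3 * (log ((n : ℝ) + 1 + 1) + 1) + 3 := by
      rcases Nat.eq_zero_or_pos n with h | h
      · subst h
        have hl2 : 0 ≤ log (2 : ℝ) := Real.log_nonneg (by norm_num)
        have hl2' : log (2 : ℝ) ≤ 1 := by
          have := Real.log_le_sub_one_of_pos (x := (2 : ℝ)) (by norm_num); linarith
        simp only [gSF, Nat.cast_zero, mul_zero, Nat.factorial_zero, Nat.cast_one, Real.log_one,
          zero_add]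
        norm_num
        rw [abs_le]
        constructor <;> linarith
      · exact (step_bound n h).trans (by linarith)
    have hn0 : (0 : ℝ) ≤ n := n.cast_nonneg
    calc |log (SF n : ℝ) + log ((2 * n).factorial : ℝ) - gSF ((n : ℝ) + 1)|
        = |(log (SF n : ℝ) - gSF n) + (log ((2 * n).factorial : ℝ) - (gSF (n + 1) - gSF n))| := by
          congr 1; ring
      _ ≤ |log (SF n : ℝ) - gSF n| + |log ((2 * n).factorial : ℝ) - (gSF (n + 1) - gSF n)| :=
          abs_add_le _ _
      _ ≤ n * (3 * (log (n + 1) + 1) + 3) + (3 * (log ((n : ℝ) + 1 + 1) + 1) + 3) :=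
          add_le_add ih hs
      _ ≤ (n + 1) * (3 * (log ((n : ℝ) + 1 + 1) + 1) + 3) := by nlinarith

end Pool.Agent.Z5
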