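import Mathlib
import Pool.Agent.Z5.SF

/-!
# Valuations of `SF n = ∏_{a < n} (2 a)!` at primes `q` with `q ^ 2 ≥ 2 n`
-/

open Finset

namespace Pool.Agent.Z5

theorem padicValNat_factorial_lt_cube {q m : ℕ} [hq : Fact q.Prime] (h : m < q ^ 3) :
    padicValNat q m.factorial = m / q + m / q ^ 2 := by
  rcases Nat.eq_zero_or_pos m with rfl | hm
  · simp
  · have hl : Nat.log q m < 3 := Nat.log_lt_of_lt_pow (by omega) h
    rw [padicValNat_factorial hl, show Finset.Ico 1 3 = {1, 2} by rfl,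
      Finset.sum_pair (by norm_num), pow_one]

/-- hinge bound, `E` bounds `2 a / q ^ 2` -/
theorem padicVal_SF_le {q : ℕ} [hq : Fact q.Prime] (n K E : ℕ) (h : 2 * n ≤ (E + 1) * q ^ 2)
    (h3 : 2 * n ≤ q ^ 3) (hK : 2 * n ≤ (K + 1) * q) :
    (padicValNat q (SF n) : ℝ) ≤ ∑ k ∈ Icc 1 K, max 0 ((n : ℝ) - k * q / 2) + E * n := by
  have hq0 : 0 < q := hq.out.pos
  induction n with
  | zero =>
    have h1 : SF 0 = 1 := by simp [SF]
    rw [h1]
    simp only [padicValNat_one_right, Nat.cast_zero, mul_zero, add_zero]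
    exact Finset.sum_nonneg fun k _ => le_max_left _ _
  | succ n ih =>
    have ih' := ih (by omega) (by omega) (by omega)
    rw [SF_succ, padicValNat.mul (SF_pos n).ne' (Nat.factorial_ne_zero _),
      padicValNat_factorial_lt_cube (by omega)]
    push_cast
    have hle : 2 * n / q ≤ K := by
      have h3 : 2 * n / q < K + 1 := by
        rw [Nat.div_lt_iff_lt_mul hq0]
        omega
      omega
    have hle2 : 2 * n / q ^ 2 ≤ E := by
      have h3 : 2 * n / q ^ 2 < E + 1 := by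
        rw [Nat.div_lt_iff_lt_mul (by positivity)]
        omega
      omega
    have hle2R : ((2 * n / q ^ 2 : ℕ) : ℝ) ≤ E := by exact_mod_cast hle2
    have hcard : (((2 * n / q : ℕ)) : ℝ) =
        ∑ k ∈ Icc 1 K, (if k ≤ 2 * n / q then (1 : ℝ) else 0) := by
      rw [← Finset.sum_filter, Finset.sum_const, nsmul_eq_mul, mul_one]
      have : (Icc 1 K).filter (fun k => k ≤ 2 * n / q) = Icc 1 (2 * n / q) := by
        ext k
        simp only [Finset.mem_filter, Finset.mem_Icc]
        omega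
      rw [this, Nat.card_Icc, Nat.add_sub_cancel]
    rw [hcard]
    have hmain : ∑ k ∈ Icc 1 K, max 0 ((n : ℝ) - k * q / 2)
        + ∑ k ∈ Icc 1 K, (if k ≤ 2 * n / q then (1 : ℝ) else 0) ≤
        ∑ k ∈ Icc 1 K, max 0 ((n : ℝ) + 1 - k * q / 2) := by
      rw [← Finset.sum_add_distrib]
      refine Finset.sum_le_sum fun k _ => ?_
      split_ifs with hk
      · have h1 : k * q ≤ 2 * n := (Nat.le_div_iff_mul_le hq0).1 hk
        have h2 : (k : ℝ) * q ≤ 2 * n := by exact_mod_cast h1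
        rw [max_eq_right (by linarith), max_eq_right (by linarith)]
        linarith
      · rw [add_zero]
        exact max_le_max le_rfl (by linarith)
    linarith

/-- smooth bound -/
theorem padicVal_SF_le' {q : ℕ} [hq : Fact q.Prime] (n E : ℕ) (h : 2 * n ≤ (E + 1) * q ^ 2)
    (h3 : 2 * n ≤ q ^ 3) :
    (padicValNat q (SF n) : ℝ) ≤ (n : ℝ) ^ 2 / q - n / 2 + q / 16 + E * n := by
  have hq0 : 0 < q := hq.out.pos
  have hqR : (0 : ℝ) < q := by exact_mod_cast hq0
  have hK : 2 * n ≤ (2 * n / q + 1) * q := (Nat.lt_mul_of_div_lt (Nat.lt_succ_self _) hq0).le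
  refine (padicVal_SF_le n (2 * n / q) E h h3 hK).trans ?_
  refine add_le_add ?_ le_rfl
  have h1 : ∀ k ∈ Icc 1 (2 * n / q), max 0 ((n : ℝ) - k * q / 2) = (n : ℝ) - k * q / 2 := by
    intro k hk
    have h1 : k * q ≤ 2 * n := (Nat.le_div_iff_mul_le hq0).1 (Finset.mem_Icc.1 hk).2
    have h2 : (k : ℝ) * q ≤ 2 * n := by exact_mod_cast h1
    exact max_eq_right (by linarith)
  rw [Finset.sum_congr rfl h1]
  have h2 : ∀ K : ℕ, ∑ k ∈ Icc 1 K, ((n : ℝ) - k * q / 2) = K * n - K * (K + 1) * q / 4 := by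
    intro K
    induction K with
    | zero => simp
    | succ K ih =>
      rw [Finset.sum_Icc_succ_top (by omega), ih]
      push_cast
      ring
  rw [h2]
  set K : ℝ := ((2 * n / q : ℕ) : ℝ)
  have h3 : K * n - K * (K + 1) * q / 4 = (n : ℝ) ^ 2 / q - n / 2 + q / 16
      - (K * q / 2 - (n - q / 4)) ^ 2 / q := by
    field_simp
    ring
  rw [h3]
  have : 0 ≤ (K * q / 2 - (n - q / 4)) ^ 2 / q := by positivity
  linarith

/-- the number `36 p k - 3 k (k + 1) q`, `k = ⌊6 p / q⌋`, by hinges -/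
theorem sum_hinge_floor (a q K : ℕ) (hq : 0 < q) (hK : a / q ≤ K) :
    ∑ i ∈ Icc 1 K, max 0 ((a : ℝ) - i * q) =
      (a / q : ℕ) * a - q * ((a / q : ℕ) * ((a / q : ℕ) + 1)) / 2 := by
  have h1 : ∑ i ∈ Icc 1 K, max 0 ((a : ℝ) - i * q) =
      ∑ i ∈ Icc 1 (a / q), ((a : ℝ) - i * q) := by
    have hs : Icc 1 (a / q) ⊆ Icc 1 K := Finset.Icc_subset_Icc_right hK
    rw [← Finset.sum_subset hs (f := fun i : ℕ => max 0 ((a : ℝ) - i * q))]
    · refine Finset.sum_congr rfl fun i hi => ?_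
      have h1 : i * q ≤ a := (Nat.le_div_iff_mul_le hq).1 (Finset.mem_Icc.1 hi).2
      have h2 : (i : ℝ) * q ≤ a := by exact_mod_cast h1
      exact max_eq_right (by linarith)
    · intro i hi hi'
      have h0 : ¬ i ≤ a / q := fun h => hi' (Finset.mem_Icc.2 ⟨(Finset.mem_Icc.1 hi).1, h⟩)
      have h1 : a < i * q := by
        by_contra hc
        exact h0 ((Nat.le_div_iff_mul_le hq).2 (by omega))
      have h2 : (a : ℝ) < i * q := by exact_mod_cast h1
      exact max_eq_left (by linarith)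
  rw [h1]
  generalize a / q = k
  induction k with
  | zero => simp
  | succ k ih =>
    rw [Finset.sum_Icc_succ_top (by omega), ih]
    push_cast
    ring

end Pool.Agent.Z5
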