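import Pool.Agent.Z5.Defs

/-!
# Irrationality of `ζ(5)`: linearity and symmetry of the partial fraction coefficients
-/

open Finset

namespace Pool.Agent.Z5

variable {L : ℕ} {e : ℕ → ℕ}

theorem hser_add (u : ℕ) (h g : Polynomial ℚ) : hser L u (h + g) = hser L u h + hser L u g := by
  simp only [hser, map_add]

theorem hser_C_mul (u : ℕ) (c : ℚ) (h : Polynomial ℚ) :
    hser L u (Polynomial.C c * h) = PowerSeries.C c * hser L u h := by
  simp only [hser, map_mul, Polynomial.aeval_C]
  rfl

theorem lser_add (u : ℕ) (h g : Polynomial ℚ) : lser L e u (h + g) = lser L e u h + lser L e u g := by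
  simp only [lser, hser_add, mul_add]

theorem lser_C_mul (u : ℕ) (c : ℚ) (h : Polynomial ℚ) :
    lser L e u (Polynomial.C c * h) = PowerSeries.C c * lser L e u h := by
  simp only [lser, hser_C_mul]; ring

theorem co_add (h g : Polynomial ℚ) (u i : ℕ) :
    co L e (h + g) u i = co L e h u i + co L e g u i := by
  unfold co
  split_ifs
  · rw [lser_add, map_add]
  · ring

theorem co_C_mul (c : ℚ) (h : Polynomial ℚ) (u i : ℕ) :
    co L e (Polynomial.C c * h) u i = c * co L e h u i := by
  unfold co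
  split_ifs
  · rw [lser_C_mul, PowerSeries.coeff_C_mul]
  · ring

theorem co_zero (u i : ℕ) : co L e 0 u i = 0 := by
  have := co_C_mul (L := L) (e := e) 0 0 u i
  simpa using this

theorem co_sum {ι : Type*} (s : Finset ι) (f : ι → Polynomial ℚ) (u i : ℕ) :
    co L e (∑ a ∈ s, f a) u i = ∑ a ∈ s, co L e (f a) u i := by
  classical
  induction s using Finset.induction_on with
  | empty => simp [co_zero]
  | insert a s ha ih => rw [sum_insert ha, sum_insert ha, co_add, ih]

theorem rho_add (i : ℕ) (h g : Polynomial ℚ) : rho L e i (h + g) = rho L e i h + rho L e i g := by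
  simp only [rho, co_add, sum_add_distrib]

theorem rho_C_mul (i : ℕ) (c : ℚ) (h : Polynomial ℚ) :
    rho L e i (Polynomial.C c * h) = c * rho L e i h := by
  simp only [rho, co_C_mul, mul_sum]

theorem rho0_add (h g : Polynomial ℚ) : rho0 L e (h + g) = rho0 L e h + rho0 L e g := by
  simp only [rho0, co_add, add_mul, sum_add_distrib, neg_add]

theorem rho0_C_mul (c : ℚ) (h : Polynomial ℚ) :
    rho0 L e (Polynomial.C c * h) = c * rho0 L e h := by
  simp only [rho0, co_C_mul, mul_assoc, ← mul_sum, mul_neg]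

/-- the substitution `ε ↦ -ε` -/
noncomputable abbrev sg : PowerSeries ℚ →+* PowerSeries ℚ := PowerSeries.rescale (-1)

theorem sg_C (c : ℚ) : sg (PowerSeries.C c) = PowerSeries.C c := by
  ext n
  rw [PowerSeries.coeff_rescale, PowerSeries.coeff_C]
  split_ifs with h
  · rw [h]; simp
  · simp

theorem sg_X : sg (PowerSeries.X : PowerSeries ℚ) = - PowerSeries.X := by
  ext n
  rw [PowerSeries.coeff_rescale, map_neg, PowerSeries.coeff_X]
  split_ifs with h
  · rw [h]; simp
  · simp

theorem sg_two : sg (2 : PowerSeries ℚ) = 2 := map_ofNat sg 2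

theorem sg_xser {u : ℕ} (hu : u ≤ L) : sg (xser L (L - u)) = - xser L u := by
  rw [xser, map_add, map_mul, sg_C, sg_X, sg_two, xser]
  have : ((L - u : ℕ) : ℚ) = (L : ℚ) - u := by push_cast [hu]; ring
  rw [this]
  have h2 : ((L : ℚ) - 2 * ((L : ℚ) - u)) = - ((L : ℚ) - 2 * u) := by ring
  rw [h2, map_neg]; ring

theorem sg_hser {u : ℕ} (hu : u ≤ L) (h : Polynomial ℚ) :
    sg (hser L (L - u) h) = hser L u h := by
  rw [hser, hser, Polynomial.aeval_def, Polynomial.aeval_def, Polynomial.hom_eval₂, map_pow,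
    sg_xser hu, neg_sq]
  congr 1
  ext c : 1
  exact sg_C c

theorem sg_dser (he : IsProf L e) {u : ℕ} (hu : u ≤ L) :
    sg (dser L e (L - u)) = PowerSeries.C ((-1 : ℚ) ^ e u) * dser L e u := by
  have hu' : u ∈ range (L + 1) := mem_range.2 (by omega)
  have h1 : dser L e (L - u) = ∏ v ∈ (range (L + 1)).erase u,
      (PowerSeries.C ((u : ℚ) - v) + PowerSeries.X) ^ e v := by
    rw [dser]
    refine prod_nbij' (fun v => L - v) (fun v => L - v) ?_ ?_ ?_ ?_ ?_
    · intro v hv
      rw [mem_erase, mem_range] at hv ⊢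
      constructor
      · omega
      · omega
    · intro v hv
      rw [mem_erase, mem_range] at hv ⊢
      constructor
      · omega
      · omega
    · intro v hv
      rw [mem_erase, mem_range] at hv
      omega
    · intro v hv
      rw [mem_erase, mem_range] at hv
      omega
    · intro v hv
      rw [mem_erase, mem_range] at hv
      have hv2 : v ≤ L := by omega
      rw [he.symm v hv2]
      have h3 : ((L - v : ℕ) : ℚ) = (L : ℚ) - v := by push_cast [hv2]; ring
      have h4 : ((L - u : ℕ) : ℚ) = (L : ℚ) - u := by push_cast [hu]; ring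
      rw [h3, h4]
      congr 3
      ring
  rw [h1, map_prod]
  have h2 : ∀ v ∈ (range (L + 1)).erase u,
      sg ((PowerSeries.C ((u : ℚ) - v) + PowerSeries.X) ^ e v) =
        PowerSeries.C ((-1 : ℚ) ^ e v) * (PowerSeries.C ((v : ℚ) - u) + PowerSeries.X) ^ e v := by
    intro v _
    rw [map_pow, map_add, sg_C, sg_X, map_pow, ← mul_pow]
    congr 1
    rw [← sub_eq_zero, map_neg, map_one]
    have : (v : ℚ) - u = - ((u : ℚ) - v) := by ring
    rw [this, map_neg]; ring
  rw [prod_congr rfl h2, prod_mul_distrib, ← map_prod, prod_pow_eq_pow_sum]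
  congr 2
  have h5 : ∑ v ∈ (range (L + 1)).erase u, e v + e u = ∑ v ∈ range (L + 1), e v :=
    sum_erase_add _ _ hu'
  have h6 := he.even
  rw [← h5] at h6
  have h7 : Even (∑ v ∈ (range (L + 1)).erase u, e v) ↔ Even (e u) := Nat.even_add.1 h6
  rcases Nat.even_or_odd (e u) with h8 | h8
  · rw [(h7.2 h8).neg_one_pow, h8.neg_one_pow]
  · have h9 : Odd (∑ v ∈ (range (L + 1)).erase u, e v) := by
      rw [← Nat.not_even_iff_odd, h7, Nat.not_even_iff_odd]; exact h8
    rw [h9.neg_one_pow, h8.neg_one_pow]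

theorem constantCoeff_dser_ne_zero (u : ℕ) : PowerSeries.constantCoeff (dser L e u) ≠ 0 := by
  rw [dser, map_prod]
  refine prod_ne_zero_iff.2 fun v hv => ?_
  rw [mem_erase] at hv
  rw [map_pow, map_add, PowerSeries.constantCoeff_C, PowerSeries.constantCoeff_X, add_zero]
  refine pow_ne_zero _ (sub_ne_zero.2 ?_)
  exact_mod_cast hv.1

theorem dser_mul_inv (u : ℕ) : dser L e u * (dser L e u)⁻¹ = 1 :=
  PowerSeries.mul_inv_cancel _ (constantCoeff_dser_ne_zero u)

theorem sg_dser_inv (he : IsProf L e) {u : ℕ} (hu : u ≤ L) :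
    sg ((dser L e (L - u))⁻¹) = PowerSeries.C ((-1 : ℚ) ^ e u) * (dser L e u)⁻¹ := by
  have h1 : sg (dser L e (L - u)) * sg ((dser L e (L - u))⁻¹) = 1 := by
    rw [← map_mul, dser_mul_inv, map_one]
  have h2 : (PowerSeries.C ((-1 : ℚ) ^ e u) * dser L e u) *
      (PowerSeries.C ((-1 : ℚ) ^ e u) * (dser L e u)⁻¹) = 1 := by
    rw [mul_mul_mul_comm, dser_mul_inv, mul_one, ← map_mul, ← mul_pow]; simp
  rw [sg_dser he hu] at h1
  have h3 : PowerSeries.C ((-1 : ℚ) ^ e u) * dser L e u ≠ 0 := by
    intro h0; rw [h0, zero_mul] at h2; exact zero_ne_one h2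
  exact mul_left_cancel₀ h3 (h1.trans h2.symm)

theorem sg_lser (he : IsProf L e) {u : ℕ} (hu : u ≤ L) (h : Polynomial ℚ) :
    sg (lser L e (L - u) h) = PowerSeries.C ((-1 : ℚ) ^ (e u + 1)) * lser L e u h := by
  rw [lser, map_mul, map_mul, sg_xser hu, sg_dser_inv he hu, sg_hser hu, lser, pow_succ, map_mul,
    map_neg, map_one]
  ring

/-- `R(-L-t) = -R(t)` -/
theorem co_symm (he : IsProf L e) (h : Polynomial ℚ) {u i : ℕ} (hu : u ≤ L) (_hi : 1 ≤ i) :
    co L e h (L - u) i = (-1) ^ (i + 1) * co L e h u i := by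
  unfold co
  rw [he.symm u hu]
  split_ifs with hc
  · have h1 := congrArg (PowerSeries.coeff (e u - i)) (sg_lser he hu h)
    rw [PowerSeries.coeff_rescale, PowerSeries.coeff_C_mul] at h1
    have h2 : ((-1 : ℚ) ^ (e u - i)) * (-1) ^ (e u - i) = 1 := by rw [← mul_pow]; simp
    have h3 : PowerSeries.coeff (e u - i) (lser L e (L - u) h) =
        (-1 : ℚ) ^ (e u - i) * ((-1) ^ (e u + 1) * PowerSeries.coeff (e u - i) (lser L e u h)) := by
      rw [← h1, ← mul_assoc, h2, one_mul]
    rw [h3, ← mul_assoc]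
    congr 1
    obtain ⟨k, hk⟩ := Nat.exists_eq_add_of_le hc.2
    rw [hk, Nat.add_sub_cancel_left]
    rw [show i + k + 1 = k + (i + 1) by ring, pow_add (-1 : ℚ) k, ← mul_assoc, ← mul_pow]
    simp
  · simp

theorem rho_even (he : IsProf L e) (h : Polynomial ℚ) {i : ℕ} (hi : 1 ≤ i) (hi2 : Even i) :
    rho L e i h = 0 := by
  have h1 : rho L e i h = - rho L e i h := by
    conv_lhs => rw [rho, ← sum_range_reflect]
    rw [rho, ← sum_neg_distrib]
    refine sum_congr rfl fun u hu => ?_
    have hu' : u ≤ L := by have := mem_range.1 hu; omega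
    rw [show L + 1 - 1 - u = L - u by omega, co_symm he h hu' hi]
    have : (-1 : ℚ) ^ (i + 1) = -1 := (hi2.add_one).neg_one_pow
    rw [this]; ring
  linarith

end Pool.Agent.Z5
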