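import Pool.Agent.Z5.Lin
import Pool.Agent.Helper8.PF

/-!
# Irrationality of `ζ(5)`: partial fractions and the residue theorem
-/

open Finset

namespace Pool.Agent.Z5

open Pool.Agent.Helper8

variable {L : ℕ} {e : ℕ → ℕ}

/-- numerator over the common denominator `∏ (X + v) ^ 6` -/
noncomputable def num (L : ℕ) (e : ℕ → ℕ) (h : Polynomial ℚ) : Polynomial ℚ :=
  (2 * Polynomial.X + Polynomial.C (L : ℚ)) *
    (∏ v ∈ range (L + 1), (Polynomial.X + Polynomial.C (v : ℚ)) ^ (6 - e v)) *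
      h.comp ((2 * Polynomial.X + Polynomial.C (L : ℚ)) ^ 2)

theorem natDegree_lin : (2 * Polynomial.X + Polynomial.C (L : ℚ)).natDegree ≤ 1 := by
  refine (Polynomial.natDegree_add_le _ _).trans (max_le ?_ ?_)
  · rw [show (2 : Polynomial ℚ) = Polynomial.C 2 from (map_ofNat Polynomial.C 2).symm]
    exact (Polynomial.natDegree_C_mul_le _ _).trans Polynomial.natDegree_X_le
  · rw [Polynomial.natDegree_C]; exact Nat.zero_le _

theorem natDegree_num (he : IsProf L e) (h : Polynomial ℚ) :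
    (num L e h).natDegree + tot L e ≤ 1 + 6 * (L + 1) + 2 * h.natDegree := by
  have h1 : (∏ v ∈ range (L + 1), (Polynomial.X + Polynomial.C (v : ℚ)) ^ (6 - e v)).natDegree ≤
      ∑ v ∈ range (L + 1), (6 - e v) := by
    refine (Polynomial.natDegree_prod_le _ _).trans (sum_le_sum fun v _ => ?_)
    refine Polynomial.natDegree_pow_le.trans ?_
    rw [Polynomial.natDegree_X_add_C, mul_one]
  have h2 : ∑ v ∈ range (L + 1), (6 - e v) + tot L e = 6 * (L + 1) := by
    rw [tot, ← sum_add_distrib]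
    rw [sum_congr rfl (g := fun _ => 6) fun v hv => ?_]
    · simp [mul_comm]
    · have := he.le v (by have := mem_range.1 hv; omega)
      omega
  have h3 : (h.comp ((2 * Polynomial.X + Polynomial.C (L : ℚ)) ^ 2)).natDegree ≤
      2 * h.natDegree := by
    refine Polynomial.natDegree_comp_le.trans ?_
    rw [mul_comm]
    refine Nat.mul_le_mul_right _ ?_
    refine Polynomial.natDegree_pow_le.trans ?_
    have := natDegree_lin (L := L)
    omega
  have h4 : (num L e h).natDegree ≤ 1 + ∑ v ∈ range (L + 1), (6 - e v) + 2 * h.natDegree := by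
    refine Polynomial.natDegree_mul_le.trans (add_le_add ?_ h3)
    exact Polynomial.natDegree_mul_le.trans (add_le_add natDegree_lin h1)
  omega

theorem dser_inv (u : ℕ) : (dser L e u)⁻¹ =
    ∏ v ∈ (range (L + 1)).erase u, iv ((v : ℚ) - u) ^ e v := by
  have h1 : dser L e u * ∏ v ∈ (range (L + 1)).erase u, iv ((v : ℚ) - u) ^ e v = 1 := by
    rw [dser, ← prod_mul_distrib]
    refine prod_eq_one fun v hv => ?_
    rw [← mul_pow, lin_mul_iv, one_pow]
    rw [mem_erase] at hv
    rw [sub_ne_zero]; exact_mod_cast hv.1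
  have h2 := dser_mul_inv (L := L) (e := e) u
  have h3 : dser L e u ≠ 0 := by
    intro h0; rw [h0, zero_mul] at h2; exact zero_ne_one h2
  exact mul_left_cancel₀ h3 (h2.trans h1.symm)

theorem cser_num (he : IsProf L e) (h : Polynomial ℚ) {u : ℕ} (hu : u ≤ L) :
    cser 6 L (num L e h) u = PowerSeries.X ^ (6 - e u) * lser L e u h := by
  have hu' : u ∈ range (L + 1) := mem_range.2 (by omega)
  have hx : atp (-(u : ℚ)) (2 * Polynomial.X + Polynomial.C (L : ℚ)) = xser L u := by
    rw [map_add, map_mul, atp_C, atp_X, map_ofNat, xser]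
    rw [map_sub, map_mul, map_neg]
    simp only [map_ofNat]
    ring
  have hh : atp (-(u : ℚ)) (h.comp ((2 * Polynomial.X + Polynomial.C (L : ℚ)) ^ 2)) =
      hser L u h := by
    rw [Polynomial.comp, Polynomial.hom_eval₂, map_pow, hx, hser, Polynomial.aeval_def]
    congr 1
    ext c : 1
    exact atp_C _ _
  have hp : atp (-(u : ℚ)) (∏ v ∈ range (L + 1), (Polynomial.X + Polynomial.C (v : ℚ)) ^ (6 - e v)) =
      PowerSeries.X ^ (6 - e u) * ∏ v ∈ (range (L + 1)).erase u,
        (PowerSeries.C ((v : ℚ) - u) + PowerSeries.X) ^ (6 - e v) := by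
    rw [map_prod, ← mul_prod_erase _ _ hu']
    have : ∀ v : ℕ, atp (-(u : ℚ)) ((Polynomial.X + Polynomial.C (v : ℚ)) ^ (6 - e v)) =
        (PowerSeries.C ((v : ℚ) - u) + PowerSeries.X) ^ (6 - e v) := by
      intro v
      rw [map_pow, map_add, atp_X, atp_C, map_sub, map_neg]
      congr 1; ring
    simp only [this]
    rw [sub_self, map_zero, zero_add]
  rw [cser, num, map_mul, map_mul, hx, hh, hp, ivp, ← prod_pow, lser, dser_inv]
  have hq : (∏ v ∈ (range (L + 1)).erase u,
        (PowerSeries.C ((v : ℚ) - u) + PowerSeries.X) ^ (6 - e v)) *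
      (∏ v ∈ (range (L + 1)).erase u, iv ((v : ℚ) - u) ^ 6) =
      ∏ v ∈ (range (L + 1)).erase u, iv ((v : ℚ) - u) ^ e v := by
    rw [← prod_mul_distrib]
    refine prod_congr rfl fun v hv => ?_
    rw [mem_erase, mem_range] at hv
    have h6 : 6 = (6 - e v) + e v := by
      have := he.le v (by omega)
      omega
    have h7 : (iv ((v : ℚ) - u) : PowerSeries ℚ) ^ 6 =
        iv ((v : ℚ) - u) ^ (6 - e v) * iv ((v : ℚ) - u) ^ e v := by
      rw [← pow_add, ← h6]
    rw [h7, ← mul_assoc, ← mul_pow, lin_mul_iv, one_pow, one_mul]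
    rw [sub_ne_zero]; exact_mod_cast hv.1
  calc _ = PowerSeries.X ^ (6 - e u) * (xser L u * ((∏ v ∈ (range (L + 1)).erase u,
        (PowerSeries.C ((v : ℚ) - u) + PowerSeries.X) ^ (6 - e v)) *
      (∏ v ∈ (range (L + 1)).erase u, iv ((v : ℚ) - u) ^ 6)) * hser L u h) := by ring
    _ = _ := by rw [hq]

theorem cc_num (he : IsProf L e) (h : Polynomial ℚ) {u k : ℕ} (hu : u ≤ L) (hk : k < 6) :
    cc 6 L (num L e h) k u = co L e h u (k + 1) := by
  rw [cc, cser_num he h hu, co]
  have h1 := he.pos u hu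
  have h2 := he.le u hu
  split_ifs with hc
  · have h3 : 6 - 1 - k = (e u - (k + 1)) + (6 - e u) := by omega
    rw [h3, mul_comm, PowerSeries.coeff_mul_X_pow]
  · rw [mul_comm, PowerSeries.coeff_mul_X_pow']
    rw [if_neg]
    intro h3
    apply hc
    omega

theorem num_eq (he : IsProf L e) (h : Polynomial ℚ) (hd : 2 * h.natDegree + 2 ≤ tot L e) :
    num L e h = ∑ u ∈ range (L + 1), ∑ i ∈ Finset.Icc 1 6,
      Polynomial.C (co L e h u i) * (Polynomial.X + Polynomial.C (u : ℚ)) ^ (6 - i) * Mj L u ^ 6 := by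
  have h1 : (num L e h).natDegree < 6 * (L + 1) := by
    have := natDegree_num he h
    omega
  conv_lhs => rw [eq_pfsum (by norm_num : 0 < 6) h1]
  rw [pfsum]
  refine sum_congr rfl fun u hu => ?_
  have hu' : u ≤ L := by have := mem_range.1 hu; omega
  rw [show (Icc 1 6 : Finset ℕ) = (range 6).map ⟨(· + 1), add_left_injective 1⟩ by decide, sum_map]
  refine sum_congr rfl fun k hk => ?_
  have hk' := mem_range.1 hk
  rw [cc_num he h hu' hk', Function.Embedding.coeFn_mk]
  rw [show 6 - 1 - k = 6 - (k + 1) by omega]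

theorem aeval_Mj (t : ℝ) (u : ℕ) : Polynomial.aeval t (Mj L u) =
    ∏ v ∈ (range (L + 1)).erase u, (t + v) := by
  rw [Mj, map_prod]
  refine prod_congr rfl fun v _ => ?_
  rw [map_add, Polynomial.aeval_X, Polynomial.aeval_C]
  simp

theorem aeval_num (h : Polynomial ℚ) (t : ℝ) :
    Polynomial.aeval t (num L e h) = (2 * t + L) *
      (∏ v ∈ range (L + 1), (t + v) ^ (6 - e v)) * evY L h t := by
  have h1 : Polynomial.aeval t (2 * Polynomial.X + Polynomial.C (L : ℚ)) = 2 * t + L := by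
    rw [map_add, map_mul, Polynomial.aeval_X, Polynomial.aeval_C, map_ofNat]
    simp
  have h2 : Polynomial.aeval t (h.comp ((2 * Polynomial.X + Polynomial.C (L : ℚ)) ^ 2)) =
      evY L h t := by
    rw [Polynomial.aeval_comp, map_pow, h1, evY]
  have h3 : Polynomial.aeval t (∏ v ∈ range (L + 1),
      (Polynomial.X + Polynomial.C (v : ℚ)) ^ (6 - e v)) =
      ∏ v ∈ range (L + 1), (t + v) ^ (6 - e v) := by
    rw [map_prod]
    refine prod_congr rfl fun v _ => ?_
    rw [map_pow, map_add, Polynomial.aeval_X, Polynomial.aeval_C]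
    simp
  rw [num, map_mul, map_mul, h1, h2, h3]

theorem pf (he : IsProf L e) (h : Polynomial ℚ) (hd : 2 * h.natDegree + 2 ≤ tot L e) (t : ℝ)
    (ht : ∀ u ≤ L, t + u ≠ 0) :
    w L e t * evY L h t =
      ∑ u ∈ range (L + 1), ∑ i ∈ Finset.Icc 1 6, (co L e h u i : ℝ) / (t + u) ^ i := by
  have h0 := congrArg (Polynomial.aeval t) (num_eq he h hd)
  rw [aeval_num, map_sum] at h0
  have hne : ∀ v ∈ range (L + 1), (t + v : ℝ) ≠ 0 := fun v hv =>
    ht v (by have := mem_range.1 hv; omega)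
  have hP : (∏ v ∈ range (L + 1), (t + v : ℝ) ^ 6) ≠ 0 :=
    prod_ne_zero_iff.2 fun v hv => pow_ne_zero _ (hne v hv)
  have hlhs : (w L e t * evY L h t) * (∏ v ∈ range (L + 1), (t + v : ℝ) ^ 6) =
      (2 * t + L) * (∏ v ∈ range (L + 1), (t + v) ^ (6 - e v)) * evY L h t := by
    have h6 : (∏ v ∈ range (L + 1), (t + v : ℝ) ^ 6) =
        (∏ v ∈ range (L + 1), (t + v) ^ (6 - e v)) * ∏ v ∈ range (L + 1), (t + v) ^ e v := by
      rw [← prod_mul_distrib]
      refine prod_congr rfl fun v hv => ?_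
      rw [← pow_add]
      congr 1
      have := he.le v (by have := mem_range.1 hv; omega)
      omega
    have h7 : (∏ v ∈ range (L + 1), (t + v : ℝ) ^ e v) ≠ 0 :=
      prod_ne_zero_iff.2 fun v hv => pow_ne_zero _ (hne v hv)
    rw [h6, w]
    field_simp
  refine mul_right_cancel₀ hP ?_
  rw [hlhs, h0, sum_mul]
  refine sum_congr rfl fun u hu => ?_
  rw [map_sum, sum_mul]
  refine sum_congr rfl fun i hi => ?_
  have hi' := mem_Icc.1 hi
  rw [map_mul, map_mul, map_pow, map_pow, map_add, Polynomial.aeval_X, Polynomial.aeval_C,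
    Polynomial.aeval_C, aeval_Mj, ← mul_prod_erase _ _ hu, prod_pow]
  have hu0 : (t + u : ℝ) ≠ 0 := hne u hu
  have h8 : (t + u : ℝ) ^ 6 = (t + u) ^ (6 - i) * (t + u) ^ i := by
    rw [← pow_add]; congr 1; omega
  rw [h8]
  simp only [eq_ratCast, Rat.cast_natCast]
  have h9 : (t + u : ℝ) ^ i ≠ 0 := pow_ne_zero _ hu0
  field_simp

theorem rho_one (he : IsProf L e) (h : Polynomial ℚ) (hd : 2 * h.natDegree + 3 ≤ tot L e) :
    rho L e 1 h = 0 := by
  have h0 := congrArg (fun P => Polynomial.coeff P (6 * (L + 1) - 1)) (num_eq he h (by omega))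
  have h1 : (num L e h).natDegree < 6 * (L + 1) - 1 := by
    have := natDegree_num he h
    omega
  rw [Polynomial.coeff_eq_zero_of_natDegree_lt h1, Polynomial.finsetSum_coeff] at h0
  rw [rho, h0]
  refine sum_congr rfl fun u hu => ?_
  rw [Polynomial.finsetSum_coeff]
  have hM : (Mj L u).Monic := Polynomial.monic_prod_of_monic _ _ fun v _ =>
    Polynomial.monic_X_add_C _
  have hMd : (Mj L u).natDegree = L := by
    rw [Mj, Polynomial.natDegree_prod_of_monic _ _ fun v _ => Polynomial.monic_X_add_C _]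
    simp only [Polynomial.natDegree_X_add_C]
    rw [sum_const, card_erase_of_mem hu, card_range]; simp
  have hmon : ∀ i : ℕ, ((Polynomial.X + Polynomial.C (u : ℚ)) ^ (6 - i) * Mj L u ^ 6).Monic :=
    fun i => ((Polynomial.monic_X_add_C _).pow _).mul (hM.pow _)
  have hdeg : ∀ i : ℕ, ((Polynomial.X + Polynomial.C (u : ℚ)) ^ (6 - i) * Mj L u ^ 6).natDegree =
      6 - i + 6 * L := by
    intro i
    rw [((Polynomial.monic_X_add_C _).pow _).natDegree_mul (hM.pow _), (Polynomial.monic_X_add_C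
      _).natDegree_pow, hM.natDegree_pow, Polynomial.natDegree_X_add_C, hMd, mul_one]
  rw [sum_eq_single_of_mem 1 (mem_Icc.2 ⟨le_rfl, by norm_num⟩)]
  · rw [mul_assoc, Polynomial.coeff_C_mul]
    have h2 : 6 * (L + 1) - 1 = ((Polynomial.X + Polynomial.C (u : ℚ)) ^ (6 - 1) *
        Mj L u ^ 6).natDegree := by
      rw [hdeg]; omega
    rw [h2, (hmon 1).coeff_natDegree, mul_one]
  · intro i hi hi1
    have hi' := mem_Icc.1 hi
    rw [mul_assoc, Polynomial.coeff_C_mul, Polynomial.coeff_eq_zero_of_natDegree_lt, mul_zero]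
    rw [hdeg]; omega

end Pool.Agent.Z5
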