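import Pool.Agent.Z5.PF
import Pool.Agent.Z5.SF

/-!
# The mixed determinant as a confluent interpolation determinant

Equal blocks, `L + 1 = 2 h`, poles `-u` of order six.  The pair `u`, `L - u` is represented by
`u < h`.  `dual_det` expresses `DQ` through the determinant of the matrix of the local expansions of
`P (g + 2 ξ ε ^ 4)`, `Q ε ^ 2` and `T`.
-/

open Finset

namespace Pool.Agent.Z5

/-! ### linear algebra -/

theorem abs_det_anti (m : ℕ) (A : Matrix (Fin m) (Fin m) ℚ) (c : ℚ)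
    (h0 : ∀ i j : Fin m, (i : ℕ) + j + 1 < m → A i j = 0)
    (h1 : ∀ i j : Fin m, (i : ℕ) + j + 1 = m → A i j = c) : |A.det| = |c| ^ m := by
  rw [← Matrix.abs_det_submatrix_equiv_equiv (Equiv.refl (Fin m)) (Fin.revPerm (n := m)) A]
  rw [Matrix.det_of_isLowerTriangular]
  · rw [Finset.abs_prod]
    rw [Finset.prod_congr rfl (g := fun _ => |c|)]
    · simp
    · intro i _
      simp only [Matrix.submatrix_apply, Equiv.refl_apply, Fin.revPerm_apply]
      rw [h1]
      rw [Fin.val_rev]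
      have := i.2
      omega
  · intro i j hij
    simp only [Matrix.submatrix_apply, Equiv.refl_apply, Fin.revPerm_apply]
    have hij' : i < j := by simpa using hij
    apply h0
    rw [Fin.val_rev]
    have h2 := i.2
    have h3 := j.2
    have h4 : (i : ℕ) < j := hij'
    omega

theorem abs_det_anti' (m : ℕ) (A : Matrix (Fin m) (Fin m) ℚ) (c : ℚ)
    (h0 : ∀ i j : Fin m, m < (i : ℕ) + j + 1 → A i j = 0)
    (h1 : ∀ i j : Fin m, (i : ℕ) + j + 1 = m → A i j = c) : |A.det| = |c| ^ m := by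
  rw [← Matrix.abs_det_submatrix_equiv_equiv (Fin.revPerm (n := m)) (Fin.revPerm (n := m)) A]
  apply abs_det_anti
  · intro i j hij
    simp only [Matrix.submatrix_apply, Fin.revPerm_apply]
    apply h0
    rw [Fin.val_rev, Fin.val_rev]
    have h2 := i.2
    have h3 := j.2
    omega
  · intro i j hij
    simp only [Matrix.submatrix_apply, Fin.revPerm_apply]
    apply h1
    rw [Fin.val_rev, Fin.val_rev]
    have h2 := i.2
    have h3 := j.2
    omega

/-- abstract duality: `B` a bilinear form, `V` the columns `T_j`, `M` the columns `F_a` and `T_i`,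
`i < m`. -/
theorem dual_abs {R κ : Type*} [Fintype R] [DecidableEq R] [Fintype κ] [DecidableEq κ] {m : ℕ}
    (E : R ≃ κ ⊕ Fin m) (B : Matrix R R ℚ) (M V : Matrix R (κ ⊕ Fin m) ℚ) (c : ℚ)
    (hz : ∀ (i : Fin m) (j : κ), (M.transpose * B * V) (Sum.inr i) (Sum.inl j) = 0)
    (h0 : ∀ i j : Fin m, (i : ℕ) + j + 1 < m → (M.transpose * B * V) (Sum.inr i) (Sum.inr j) = 0)
    (h1 : ∀ i j : Fin m, (i : ℕ) + j + 1 = m → (M.transpose * B * V) (Sum.inr i) (Sum.inr j) = c) :
    |(M.submatrix id E).det| * |B.det| * |(V.submatrix id E).det| =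
      |(M.transpose * B * V).toBlocks₁₁.det| * |c| ^ m := by
  have h2 : (M.transpose * B * V).submatrix E E =
      (M.submatrix id E).transpose * B * (V.submatrix id E) := by
    ext i j
    simp [Matrix.mul_apply, Matrix.transpose_apply]
  have h3 : ((M.transpose * B * V).submatrix E E).det = (M.transpose * B * V).det :=
    Matrix.det_submatrix_equiv_self E _
  have h4 : (M.transpose * B * V).det = (M.transpose * B * V).toBlocks₁₁.det *
      (M.transpose * B * V).toBlocks₂₂.det := by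
    conv_lhs => rw [← Matrix.fromBlocks_toBlocks (M.transpose * B * V)]
    have h5 : (M.transpose * B * V).toBlocks₂₁ = 0 := by
      ext i j
      exact hz i j
    rw [h5, Matrix.det_fromBlocks_zero₂₁]
  have h6 : |(M.transpose * B * V).toBlocks₂₂.det| = |c| ^ m :=
    abs_det_anti m _ c (fun i j hij => h0 i j hij) (fun i j hij => h1 i j hij)
  have h7 : |(M.transpose * B * V).det| = |(M.transpose * B * V).toBlocks₁₁.det *
      (M.transpose * B * V).toBlocks₂₂.det| := by rw [← h4]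
  rw [← h3, h2, Matrix.det_mul, Matrix.det_mul, Matrix.det_transpose, abs_mul, abs_mul, abs_mul,
    h6] at h7
  exact h7

/-! ### the residue pairing on truncated power series -/

/-- matrix of `(f, g) ↦ coeff 5 (s f g)` -/
noncomputable def pairM (s : PowerSeries ℚ) : Matrix (Fin 6) (Fin 6) ℚ :=
  Matrix.of fun k l => if (k : ℕ) + l ≤ 5 then PowerSeries.coeff (5 - ((k : ℕ) + l)) s else 0

theorem pairM_apply (s f g : PowerSeries ℚ) :
    ∑ k : Fin 6, ∑ l : Fin 6, PowerSeries.coeff (k : ℕ) f * pairM s k l * PowerSeries.coeff (l : ℕ) g =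
      PowerSeries.coeff 5 (s * (f * g)) := by
  simp only [pairM, Matrix.of_apply, Fin.sum_univ_six, PowerSeries.coeff_mul,
    Finset.Nat.sum_antidiagonal_eq_sum_range_succ_mk, Finset.sum_range_succ, Finset.sum_range_zero]
  norm_num
  ring

theorem abs_det_pairM (s : PowerSeries ℚ) :
    |(pairM s).det| = |PowerSeries.constantCoeff s| ^ 6 := by
  apply abs_det_anti'
  · intro i j hij
    rw [pairM, Matrix.of_apply, if_neg (by omega)]
  · intro i j hij
    rw [pairM, Matrix.of_apply, if_pos (by omega)]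
    rw [show 5 - ((i : ℕ) + j) = 0 by omega, PowerSeries.coeff_zero_eq_constantCoeff]

/-- the full pairing -/
noncomputable def pairB (h : ℕ) (s : ℕ → PowerSeries ℚ) : Matrix (Fin h × Fin 6) (Fin h × Fin 6) ℚ :=
  Matrix.of fun r r' => if r.1 = r'.1 then pairM (s r.1) r.2 r'.2 else 0

theorem abs_det_pairB (h : ℕ) (s : ℕ → PowerSeries ℚ) :
    |(pairB h s).det| = ∏ u ∈ range h, |PowerSeries.constantCoeff (s u)| ^ 6 := by
  have h1 : pairB h s = (Matrix.blockDiagonal fun u : Fin h => pairM (s u)).submatrix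
      (Equiv.prodComm (Fin h) (Fin 6)) (Equiv.prodComm (Fin h) (Fin 6)) := by
    ext r r'
    obtain ⟨u, k⟩ := r
    obtain ⟨u', k'⟩ := r'
    simp [pairB, Matrix.blockDiagonal_apply]
  rw [h1, Matrix.det_submatrix_equiv_self, Matrix.det_blockDiagonal, Finset.abs_prod,
    Finset.prod_range]
  exact Finset.prod_congr rfl fun u _ => abs_det_pairM _

/-- matrix of local expansions of a family of tuples of power series -/
noncomputable def expM {κ : Type*} (h : ℕ) (f : κ → ℕ → PowerSeries ℚ) : Matrix (Fin h × Fin 6) κ ℚ :=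
  Matrix.of fun r j => PowerSeries.coeff (r.2 : ℕ) (f j r.1)

theorem expM_pair {κ κ' : Type*} (h : ℕ) (s : ℕ → PowerSeries ℚ) (f : κ → ℕ → PowerSeries ℚ)
    (g : κ' → ℕ → PowerSeries ℚ) (i : κ) (j : κ') :
    ((expM h f).transpose * pairB h s * expM h g) i j =
      ∑ u ∈ range h, PowerSeries.coeff 5 (s u * (f i u * g j u)) := by
  rw [Matrix.mul_apply, Finset.sum_range, Fintype.sum_prod_type]
  refine Finset.sum_congr rfl fun u _ => ?_
  rw [← pairM_apply, Finset.sum_comm]
  refine Finset.sum_congr rfl fun l _ => ?_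
  rw [Matrix.mul_apply, Fintype.sum_prod_type, Finset.sum_mul, Finset.sum_eq_single u]
  · rw [Finset.sum_mul]
    refine Finset.sum_congr rfl fun k _ => ?_
    simp [expM, pairB]
  · intro u' _ hu'
    rw [Finset.sum_mul]
    refine Finset.sum_eq_zero fun k _ => ?_
    simp [pairB, hu']
  · intro hu'; exact absurd (Finset.mem_univ u) hu'

/-! ### the concrete objects -/

/-- a column: the triple `(A, B, C)` stands for `A + B (g + 2 ξ ε ^ 4) + C ε ^ 2` -/
abbrev Col : Type := Polynomial ℚ × Polynomial ℚ × Polynomial ℚ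

/-- the kernel `g + 2 ξ ε ^ 4` at the pole `-u` (modulo `ε ^ 6`) -/
noncomputable def kerP (L : ℕ) (ξ : ℚ) (u : ℕ) : PowerSeries ℚ :=
  PowerSeries.mk fun i => if i < 6 then
      -(Hs (i + 1) u + (-1) ^ i * Hs (i + 1) (L - u)) + (if i = 4 then 2 * ξ else 0) else 0

/-- the local expansion of a column at the pole `-u` -/
noncomputable def tvec (L : ℕ) (ξ : ℚ) (u : ℕ) (c : Col) : PowerSeries ℚ :=
  hser L u c.1 + kerP L ξ u * hser L u c.2.1 + PowerSeries.X ^ 2 * hser L u c.2.2

/-- the dual matrix: rows `(u, k)`, columns = triples of polynomials -/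
noncomputable def dmat {κ : Type*} (L : ℕ) (ξ : ℚ) (h : ℕ) (c : κ → Col) :
    Matrix (Fin h × Fin 6) κ ℚ :=
  Matrix.of fun r j => PowerSeries.coeff (r.2 : ℕ) (tvec L ξ r.1 (c j))

/-- the standard columns -/
noncomputable def stdc (a b m : ℕ) : (Fin a ⊕ Fin b) ⊕ Fin m → Col :=
  Sum.elim (Sum.elim (fun i => (0, Polynomial.X ^ (i : ℕ), 0))
    (fun i => (0, 0, Polynomial.X ^ (i : ℕ)))) (fun i => (Polynomial.X ^ (i : ℕ), 0, 0))

/-- the columns `T_j` in the order needed for the duality -/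
noncomputable def vcol (a b m : ℕ) : (Fin a ⊕ Fin b) ⊕ Fin m → Polynomial ℚ :=
  Sum.elim (monoS a b) (fun i => Polynomial.X ^ (a + b + (i : ℕ)))

/-- `∏_{j < h} (2 j + 1)` -/
def OD (h : ℕ) : ℕ := ∏ j ∈ range h, (2 * j + 1)

theorem OD_pos (h : ℕ) : 0 < OD h := prod_pos fun _ _ => Nat.succ_pos _

theorem isProf_dual (h : ℕ) : IsProf (2 * h - 1) (fun _ => 6) where
  pos := fun _ _ => by norm_num
  le := fun _ _ => le_rfl
  symm := fun _ _ => rfl
  even := by
    rw [Finset.sum_const, smul_eq_mul]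
    exact Even.mul_left (by decide) _

theorem tot_six {h : ℕ} (hh : 1 ≤ h) : tot (2 * h - 1) (fun _ => 6) = 12 * h := by
  rw [tot, Finset.sum_const, smul_eq_mul, Finset.card_range]; omega

theorem hser_mul (L u : ℕ) (f g : Polynomial ℚ) : hser L u (f * g) = hser L u f * hser L u g := by
  simp only [hser, map_mul]

/-- the weight factor in the local expansion -/
noncomputable def sser (L u : ℕ) : PowerSeries ℚ := xser L u * (dser L (fun _ => 6) u)⁻¹

theorem lser_eq (L u : ℕ) (f : Polynomial ℚ) : lser L (fun _ => 6) u f = sser L u * hser L u f := rfl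

theorem co_six (L : ℕ) (f : Polynomial ℚ) (u : ℕ) {i : ℕ} (hi : i < 6) :
    co L (fun _ => 6) f u (i + 1) = PowerSeries.coeff (5 - i) (lser L (fun _ => 6) u f) := by
  rw [co, if_pos (by omega), show 6 - (i + 1) = 5 - i by omega]

theorem sum_range_two_mul {h : ℕ} (hh : 1 ≤ h) (f : ℕ → ℚ) :
    ∑ u ∈ range (2 * h - 1 + 1), f u = ∑ u ∈ range h, (f u + f (2 * h - 1 - u)) := by
  rw [show 2 * h - 1 + 1 = h + h by omega, Finset.sum_range_add, Finset.sum_add_distrib]
  congr 1
  rw [← Finset.sum_range_reflect]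
  refine Finset.sum_congr rfl fun u hu => ?_
  have := Finset.mem_range.1 hu
  congr 1
  omega

theorem rho_half {h : ℕ} (hh : 1 ≤ h) (f : Polynomial ℚ) {i : ℕ} (hi : i < 6) (hi2 : Even i) :
    rho (2 * h - 1) (fun _ => 6) (i + 1) f =
      2 * ∑ u ∈ range h, PowerSeries.coeff (5 - i) (lser (2 * h - 1) (fun _ => 6) u f) := by
  rw [rho, sum_range_two_mul hh, Finset.mul_sum]
  refine Finset.sum_congr rfl fun u hu => ?_
  have := Finset.mem_range.1 hu
  rw [co_symm (isProf_dual h) f (by omega) (by omega), co_six _ _ _ hi, pow_succ, pow_succ,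
    hi2.neg_one_pow]
  ring

/-- pairing of a `Q` column with a `T` column -/
theorem rho_three {h : ℕ} (hh : 1 ≤ h) (f g : Polynomial ℚ) :
    rho (2 * h - 1) (fun _ => 6) 3 (f * g) = 2 * ∑ u ∈ range h, PowerSeries.coeff 5
      (sser (2 * h - 1) u * ((PowerSeries.X ^ 2 * hser (2 * h - 1) u f) * hser (2 * h - 1) u g)) := by
  rw [show (3 : ℕ) = 2 + 1 from rfl, rho_half hh _ (by norm_num) (by decide)]
  congr 1
  refine Finset.sum_congr rfl fun u _ => ?_
  rw [lser_eq, hser_mul]
  rw [show sser (2 * h - 1) u * (PowerSeries.X ^ 2 * hser (2 * h - 1) u f * hser (2 * h - 1) u g) =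
    (sser (2 * h - 1) u * (hser (2 * h - 1) u f * hser (2 * h - 1) u g)) * PowerSeries.X ^ 2 by ring]
  rw [show 5 = (5 - 2) + 2 from rfl, PowerSeries.coeff_mul_X_pow]

/-- pairing of two `T` columns -/
theorem rho_one_pair {h : ℕ} (hh : 1 ≤ h) (f g : Polynomial ℚ) :
    ∑ u ∈ range h, PowerSeries.coeff 5
      (sser (2 * h - 1) u * (hser (2 * h - 1) u f * hser (2 * h - 1) u g)) =
      rho (2 * h - 1) (fun _ => 6) 1 (f * g) / 2 := by
  rw [show (1 : ℕ) = 0 + 1 from rfl, rho_half hh _ (by norm_num) (by decide)]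
  rw [mul_div_cancel_left₀ _ (two_ne_zero)]
  refine Finset.sum_congr rfl fun u _ => ?_
  rw [lser_eq, hser_mul]

/-- pairing of a `P` column with a `T` column -/
theorem Ph_pair {h : ℕ} (hh : 1 ≤ h) (ξ : ℚ) (f g : Polynomial ℚ) :
    Ph (2 * h - 1) (fun _ => 6) ξ (f * g) = ∑ u ∈ range h, PowerSeries.coeff 5
      (sser (2 * h - 1) u * ((kerP (2 * h - 1) ξ u * hser (2 * h - 1) u f) *
        hser (2 * h - 1) u g)) := by
  set L := 2 * h - 1 with hL
  rw [Ph, rho0, sum_range_two_mul hh, show (5 : ℕ) = 4 + 1 from rfl,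
    rho_half hh _ (by norm_num) (by decide), ← hL, Finset.mul_sum, Finset.mul_sum,
    ← Finset.sum_neg_distrib, ← Finset.sum_add_distrib]
  refine Finset.sum_congr rfl fun u hu => ?_
  have hu' := Finset.mem_range.1 hu
  have hs : ∀ i : ℕ, 1 ≤ i → co L (fun _ => 6) (f * g) (L - u) i =
      (-1) ^ (i + 1) * co L (fun _ => 6) (f * g) u i := fun i hi =>
    co_symm (isProf_dual h) _ (by omega) hi
  have h1 : ∀ F : ℕ → ℚ, ∑ i ∈ Icc 1 6, F i = ∑ i ∈ range 6, F (i + 1) := by
    intro F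
    rw [show (Icc 1 6 : Finset ℕ) = (range 6).map ⟨(· + 1), add_left_injective 1⟩ by decide,
      sum_map]
    rfl
  rw [h1, h1]
  have h2 : sser L u * ((kerP L ξ u * hser L u f) * hser L u g) =
      kerP L ξ u * lser L (fun _ => 6) u (f * g) := by
    rw [lser_eq, hser_mul]; ring
  rw [h2]
  simp only [Finset.sum_range_succ, Finset.sum_range_zero, PowerSeries.coeff_mul,
    Finset.Nat.sum_antidiagonal_eq_sum_range_succ_mk, kerP, PowerSeries.coeff_mk]
  rw [hs _ (by norm_num), hs _ (by norm_num), hs _ (by norm_num), hs _ (by norm_num),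
    hs _ (by norm_num), hs _ (by norm_num)]
  rw [co_six L _ u (show 0 < 6 by norm_num), co_six L _ u (show 1 < 6 by norm_num),
    co_six L _ u (show 2 < 6 by norm_num), co_six L _ u (show 3 < 6 by norm_num),
    co_six L _ u (show 4 < 6 by norm_num), co_six L _ u (show 5 < 6 by norm_num)]
  simp
  ring

/-- the residue sum as a coefficient of the numerator -/
theorem rho_one_coeff {L : ℕ} {e : ℕ → ℕ} (he : IsProf L e) (f : Polynomial ℚ)
    (hd : 2 * f.natDegree + 2 ≤ tot L e) :
    rho L e 1 f = (num L e f).coeff (6 * (L + 1) - 1) := by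
  have h0 := congrArg (fun P => Polynomial.coeff P (6 * (L + 1) - 1)) (num_eq he f (by omega))
  rw [Polynomial.finsetSum_coeff] at h0
  rw [rho, h0]
  refine sum_congr rfl fun u hu => ?_
  rw [Polynomial.finsetSum_coeff]
  have hM : (Helper8.Mj L u).Monic := Polynomial.monic_prod_of_monic _ _ fun v _ =>
    Polynomial.monic_X_add_C _
  have hMd : (Helper8.Mj L u).natDegree = L := by
    rw [Helper8.Mj, Polynomial.natDegree_prod_of_monic _ _ fun v _ => Polynomial.monic_X_add_C _]
    simp only [Polynomial.natDegree_X_add_C]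
    rw [sum_const, card_erase_of_mem hu, card_range]; simp
  have hmon : ∀ i : ℕ, ((Polynomial.X + Polynomial.C (u : ℚ)) ^ (6 - i) *
      Helper8.Mj L u ^ 6).Monic :=
    fun i => ((Polynomial.monic_X_add_C _).pow _).mul (hM.pow _)
  have hdeg : ∀ i : ℕ, ((Polynomial.X + Polynomial.C (u : ℚ)) ^ (6 - i) *
      Helper8.Mj L u ^ 6).natDegree = 6 - i + 6 * L := by
    intro i
    rw [((Polynomial.monic_X_add_C _).pow _).natDegree_mul (hM.pow _), (Polynomial.monic_X_add_C
      _).natDegree_pow, hM.natDegree_pow, Polynomial.natDegree_X_add_C, hMd, mul_one]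
  symm
  rw [sum_eq_single_of_mem 1 (mem_Icc.2 ⟨le_rfl, by norm_num⟩)]
  · rw [mul_assoc, Polynomial.coeff_C_mul]
    have h2 : 6 * (L + 1) - 1 = ((Polynomial.X + Polynomial.C (u : ℚ)) ^ (6 - 1) *
        Helper8.Mj L u ^ 6).natDegree := by
      rw [hdeg]; omega
    rw [h2, (hmon 1).coeff_natDegree, mul_one]
  · intro i hi hi1
    have hi' := mem_Icc.1 hi
    rw [mul_assoc, Polynomial.coeff_C_mul, Polynomial.coeff_eq_zero_of_natDegree_lt, mul_zero]
    rw [hdeg]; omega

theorem num_six (L n : ℕ) : num L (fun _ => 6) (Polynomial.X ^ n) =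
    (2 * Polynomial.X + Polynomial.C (L : ℚ)) ^ (2 * n + 1) := by
  rw [num, Polynomial.X_pow_comp]
  simp only [Nat.sub_self, pow_zero, Finset.prod_const_one, mul_one]
  rw [← pow_mul, pow_succ]
  ring

theorem rho_one_zero {h : ℕ} (hh : 1 ≤ h) {n : ℕ} (hn : n + 1 < 6 * h) :
    rho (2 * h - 1) (fun _ => 6) 1 (Polynomial.X ^ n) = 0 := by
  apply rho_one (isProf_dual h)
  rw [Polynomial.natDegree_X_pow, tot_six hh]
  omega

theorem rho_one_top {h : ℕ} (hh : 1 ≤ h) :
    rho (2 * h - 1) (fun _ => 6) 1 (Polynomial.X ^ (6 * h - 1)) = 2 * 4 ^ (6 * h - 1) := by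
  rw [rho_one_coeff (isProf_dual h), num_six]
  · have h1 : 6 * (2 * h - 1 + 1) - 1 = 2 * (6 * h - 1) + 1 := by omega
    rw [h1]
    have h2 : (2 * Polynomial.X + Polynomial.C ((2 * h - 1 : ℕ) : ℚ)) =
        Polynomial.C 2 * Polynomial.X + Polynomial.C ((2 * h - 1 : ℕ) : ℚ) := by
      rw [show (2 : Polynomial ℚ) = Polynomial.C 2 from (map_ofNat Polynomial.C 2).symm]
    rw [h2]
    have h3 := Polynomial.coeff_pow_mul_natDegree
      (Polynomial.C (2 : ℚ) * Polynomial.X + Polynomial.C ((2 * h - 1 : ℕ) : ℚ)) (2 * (6 * h - 1) + 1)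
    rw [Polynomial.natDegree_linear (by norm_num : (2 : ℚ) ≠ 0), mul_one,
      Polynomial.leadingCoeff_linear (by norm_num : (2 : ℚ) ≠ 0)] at h3
    rw [h3, pow_succ, pow_mul]
    norm_num
    ring
  · rw [Polynomial.natDegree_X_pow, tot_six hh]
    omega

/-! ### the determinant of the pairing -/

theorem abs_const_sser {h : ℕ} {u : ℕ} (hu : u < h) :
    |PowerSeries.constantCoeff (sser (2 * h - 1) u)| =
      (2 * (h - 1 - u : ℕ) + 1 : ℚ) / ((u.factorial : ℚ) * ((2 * h - 1 - u).factorial : ℚ)) ^ 6 := by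
  have h1 : PowerSeries.constantCoeff (xser (2 * h - 1) u) = (2 * (h - 1 - u : ℕ) + 1 : ℚ) := by
    rw [xser, map_add, PowerSeries.constantCoeff_C, map_mul, PowerSeries.constantCoeff_X, mul_zero,
      add_zero]
    rw [show 2 * h - 1 = 2 * u + (2 * (h - 1 - u) + 1) by omega]
    push_cast
    ring
  have h2 : |PowerSeries.constantCoeff (dser (2 * h - 1) (fun _ => 6) u)| =
      ((u.factorial : ℚ) * ((2 * h - 1 - u).factorial : ℚ)) ^ 6 := by
    rw [dser, map_prod, Finset.abs_prod]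
    have h3 : ∀ v ∈ (range (2 * h - 1 + 1)).erase u,
        |PowerSeries.constantCoeff ((PowerSeries.C ((v : ℚ) - u) + PowerSeries.X) ^ 6)| =
          |(v : ℚ) - u| ^ 6 := by
      intro v _
      rw [map_pow, map_add, PowerSeries.constantCoeff_C, PowerSeries.constantCoeff_X, add_zero,
        abs_pow]
    rw [Finset.prod_congr rfl h3, Finset.prod_pow]
    congr 1
    have h4 : (range (2 * h - 1 + 1)).erase u = range u ∪ (Ico (u + 1) (2 * h - 1 + 1)) := by
      ext v
      simp only [mem_erase, mem_range, mem_union, mem_Ico]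
      omega
    have h5 : Disjoint (range u) (Ico (u + 1) (2 * h - 1 + 1)) := by
      rw [Finset.disjoint_left]
      intro v hv hv'
      simp only [mem_range, mem_Ico] at hv hv'
      omega
    rw [h4, Finset.prod_union h5]
    congr 1
    · rw [← Finset.prod_range_reflect, ← Finset.prod_range_add_one_eq_factorial]
      push_cast
      refine Finset.prod_congr rfl fun v hv => ?_
      have := Finset.mem_range.1 hv
      rw [show u - 1 - v = u - (v + 1) by omega, Nat.cast_sub (by omega), abs_sub_comm]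
      push_cast
      rw [abs_of_nonneg (by linarith [v.cast_nonneg (α := ℚ)])]
      ring
    · rw [Finset.prod_Ico_eq_prod_range, ← Finset.prod_range_add_one_eq_factorial]
      push_cast
      refine Finset.prod_congr (by congr 1) fun v _ => ?_
      rw [show ((u : ℚ) + 1 + v - u) = v + 1 by ring, abs_of_nonneg (by positivity)]
  rw [sser, map_mul, abs_mul, h1, abs_of_nonneg (by positivity)]
  have h6 : PowerSeries.constantCoeff (dser (2 * h - 1) (fun _ => 6) u) *
      PowerSeries.constantCoeff (dser (2 * h - 1) (fun _ => 6) u)⁻¹ = 1 := by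
    rw [← map_mul, dser_mul_inv, map_one]
  have h7 : |PowerSeries.constantCoeff (dser (2 * h - 1) (fun _ => 6) u)| *
      |PowerSeries.constantCoeff (dser (2 * h - 1) (fun _ => 6) u)⁻¹| = 1 := by
    rw [← abs_mul, h6, abs_one]
  rw [h2] at h7
  rw [eq_div_iff (by positivity), mul_assoc, mul_comm |_|, h7, mul_one]

theorem prod_fact (h : ℕ) : ∏ u ∈ range h, (u.factorial * (2 * h - 1 - u).factorial) =
    SF h ^ 2 * OD h := by
  have h1 : ∏ u ∈ range h, (u.factorial * (2 * h - 1 - u).factorial) =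
      ∏ u ∈ range (h + h), u.factorial := by
    rw [Finset.prod_range_add, Finset.prod_mul_distrib]
    congr 1
    rw [← Finset.prod_range_reflect]
    refine Finset.prod_congr rfl fun u hu => ?_
    have := Finset.mem_range.1 hu
    congr 1
    omega
  rw [h1]
  clear h1
  induction h with
  | zero => simp [SF, OD]
  | succ h ih =>
    have hO : OD (h + 1) = OD h * (2 * h + 1) := by simp [OD, Finset.prod_range_succ]
    rw [show h + 1 + (h + 1) = h + h + 1 + 1 by ring, Finset.prod_range_succ,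
      Finset.prod_range_succ, ih, SF_succ, hO,
      show h + h = 2 * h by ring, Nat.factorial_succ]
    ring

theorem abs_det_B {h : ℕ} : |(pairB h (sser (2 * h - 1))).det| * ((OD h : ℚ) ^ 15 * (SF h : ℚ) ^ 36) ^ 2
    = 1 := by
  rw [abs_det_pairB]
  have h1 : ∀ u ∈ range h, |PowerSeries.constantCoeff (sser (2 * h - 1) u)| ^ 6 =
      (2 * (h - 1 - u : ℕ) + 1 : ℚ) ^ 6 /
        (((u.factorial * (2 * h - 1 - u).factorial : ℕ) : ℚ)) ^ 36 := by
    intro u hu
    rw [abs_const_sser (Finset.mem_range.1 hu), div_pow, ← pow_mul]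
    push_cast
    rfl
  rw [Finset.prod_congr rfl h1, Finset.prod_div_distrib, Finset.prod_pow, Finset.prod_pow,
    ← Nat.cast_prod, prod_fact]
  have h2 : ∏ u ∈ range h, (2 * (h - 1 - u : ℕ) + 1 : ℚ) = (OD h : ℚ) := by
    rw [OD]
    push_cast
    rw [Finset.prod_range_reflect (fun j => (2 * (j : ℚ) + 1)) h]
  rw [h2]
  have h3 : (0 : ℚ) < OD h := by exact_mod_cast OD_pos h
  have h4 : (0 : ℚ) < SF h := by exact_mod_cast SF_pos h
  push_cast
  field_simp

/-! ### the duality -/

theorem hser_zero (L u : ℕ) : hser L u 0 = 0 := by simp [hser]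

theorem tvec_T (L u : ℕ) (f : Polynomial ℚ) (ξ : ℚ) : tvec L ξ u (f, 0, 0) = hser L u f := by
  simp [tvec, hser_zero]

theorem tvec_P (L u : ℕ) (f : Polynomial ℚ) (ξ : ℚ) :
    tvec L ξ u (0, f, 0) = kerP L ξ u * hser L u f := by
  simp [tvec, hser_zero]

theorem tvec_Q (L u : ℕ) (f : Polynomial ℚ) (ξ : ℚ) :
    tvec L ξ u (0, 0, f) = PowerSeries.X ^ 2 * hser L u f := by
  simp [tvec, hser_zero]

theorem tvec_add (L u : ℕ) (ξ : ℚ) (c d : Col) :
    tvec L ξ u (c + d) = tvec L ξ u c + tvec L ξ u d := by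
  simp only [tvec, Prod.fst_add, Prod.snd_add, hser_add]
  ring

theorem hser_smul (L u : ℕ) (r : ℚ) (f : Polynomial ℚ) : hser L u (r • f) = r • hser L u f := by
  simp only [hser, map_smul]

theorem tvec_smul (L u : ℕ) (ξ : ℚ) (r : ℚ) (c : Col) :
    tvec L ξ u (r • c) = r • tvec L ξ u c := by
  simp only [tvec, Prod.smul_fst, Prod.smul_snd, hser_smul, smul_add, mul_smul_comm]

/-- `tvec` as a linear map -/
noncomputable def tvecL (L : ℕ) (ξ : ℚ) (u : ℕ) : Col →ₗ[ℚ] PowerSeries ℚ where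
  toFun := tvec L ξ u
  map_add' := tvec_add L u ξ
  map_smul' := tvec_smul L u ξ

theorem tvec_sum {ι : Type*} (L u : ℕ) (ξ : ℚ) (s : Finset ι) (f : ι → Col) :
    tvec L ξ u (∑ i ∈ s, f i) = ∑ i ∈ s, tvec L ξ u (f i) := map_sum (tvecL L ξ u) f s

/-- multiplication of a column by a polynomial -/
theorem tvec_mul (L u : ℕ) (ξ : ℚ) (p : Polynomial ℚ) (c : Col) :
    tvec L ξ u (p * c.1, p * c.2.1, p * c.2.2) = hser L u p * tvec L ξ u c := by
  simp only [tvec, hser_mul]; ring

/-- column operations -/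
theorem dmat_mul {κ κ' : Type*} [Fintype κ] (L : ℕ) (ξ : ℚ) (h : ℕ) (c : κ → Col)
    (U : Matrix κ κ' ℚ) : dmat L ξ h (fun j => ∑ k, U k j • c k) = dmat L ξ h c * U := by
  ext r j
  simp only [dmat, Matrix.of_apply, Matrix.mul_apply, tvec_sum, tvec_smul, map_sum,
    PowerSeries.coeff_smul]
  exact Finset.sum_congr rfl fun k _ => by rw [smul_eq_mul, mul_comm]

/-- the local expansions belonging to a family of columns -/
noncomputable def fam {κ : Type*} (L : ℕ) (ξ : ℚ) (c : κ → Col) :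
    κ → ℕ → PowerSeries ℚ := fun j u => tvec L ξ u (c j)

theorem dmat_eq {κ : Type*} (L : ℕ) (ξ : ℚ) (h : ℕ) (c : κ → Col) :
    dmat L ξ h c = expM h (fam L ξ c) := rfl

variable {h a b m : ℕ}

theorem T_zero (hh : 1 ≤ h) (ξ : ℚ) {i j : ℕ} (hij : i + j + 1 < 6 * h) :
    ∑ u ∈ range h, PowerSeries.coeff 5 (sser (2 * h - 1) u *
      (tvec (2 * h - 1) ξ u (Polynomial.X ^ i, 0, 0) *
        tvec (2 * h - 1) ξ u (Polynomial.X ^ j, 0, 0))) = 0 := by
  simp only [tvec_T]
  rw [rho_one_pair hh, ← pow_add, rho_one_zero hh hij, zero_div]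

theorem T_top (hh : 1 ≤ h) (ξ : ℚ) {i j : ℕ} (hij : i + j + 1 = 6 * h) :
    ∑ u ∈ range h, PowerSeries.coeff 5 (sser (2 * h - 1) u *
      (tvec (2 * h - 1) ξ u (Polynomial.X ^ i, 0, 0) *
        tvec (2 * h - 1) ξ u (Polynomial.X ^ j, 0, 0))) = 4 ^ (6 * h - 1) := by
  simp only [tvec_T]
  rw [rho_one_pair hh, ← pow_add, show i + j = 6 * h - 1 by omega, rho_one_top hh,
    mul_div_cancel_left₀ _ (two_ne_zero)]

/-- a family of `T` columns -/
noncomputable def tcol {κ : Type*} (f : κ → Polynomial ℚ) : κ → Col :=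
  fun j => (f j, 0, 0)

theorem dual_step (hh : 1 ≤ h) (habm : a + b + m = 6 * h) (ξ : ℚ)
    (E : Fin h × Fin 6 ≃ (Fin a ⊕ Fin b) ⊕ Fin m) :
    |((dmat (2 * h - 1) ξ h (stdc a b m)).submatrix id E).det| *
      |(pairB h (sser (2 * h - 1))).det| *
      |((dmat (2 * h - 1) ξ h (tcol (vcol a b m))).submatrix id E).det| * 2 ^ b =
      |DQ (2 * h - 1) (fun _ => 6) ξ a b| * (4 ^ (6 * h - 1)) ^ m := by
  have key := dual_abs E (pairB h (sser (2 * h - 1)))
    (dmat (2 * h - 1) ξ h (stdc a b m)) (dmat (2 * h - 1) ξ h (tcol (vcol a b m)))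
    (4 ^ (6 * h - 1)) ?_ ?_ ?_
  · rw [key]
    have h1 : |(4 : ℚ) ^ (6 * h - 1)| = 4 ^ (6 * h - 1) := abs_of_nonneg (by positivity)
    rw [h1]
    have h2 : gmat (2 * h - 1) (fun _ => 6) ξ (mono a) (mono b) (monoS a b) =
        (Matrix.diagonal (Sum.elim (fun _ : Fin a => (1 : ℚ)) (fun _ : Fin b => (2 : ℚ)))) *
        ((dmat (2 * h - 1) ξ h (stdc a b m)).transpose * pairB h (sser (2 * h - 1)) *
          dmat (2 * h - 1) ξ h (tcol (vcol a b m))).toBlocks₁₁ := by
      ext i j
      rw [Matrix.diagonal_mul, Matrix.toBlocks₁₁, Matrix.of_apply, dmat_eq, dmat_eq, expM_pair]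
      rcases i with i | i
      · simp only [gmat, Matrix.of_apply, Sum.elim_inl, one_mul, fam, stdc, tcol, vcol, tvec_T,
          tvec_P, mono]
        rw [Ph_pair hh]
      · simp only [gmat, Matrix.of_apply, Sum.elim_inl, Sum.elim_inr, fam, stdc, tcol, vcol,
          tvec_T, tvec_Q, mono]
        rw [rho_three hh]
    rw [DQ, h2, Matrix.det_mul, Matrix.det_diagonal, abs_mul]
    simp
    ring
  · intro i j
    rw [dmat_eq, dmat_eq, expM_pair]
    rcases j with j | j
    · simp only [fam, stdc, tcol, vcol, monoS, Sum.elim_inl, Sum.elim_inr]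
      exact T_zero hh ξ (by have := i.2; have := j.2; omega)
    · simp only [fam, stdc, tcol, vcol, monoS, Sum.elim_inl, Sum.elim_inr]
      exact T_zero hh ξ (by have := i.2; have := j.2; omega)
  · intro i j hij
    rw [dmat_eq, dmat_eq, expM_pair]
    simp only [fam, stdc, tcol, vcol, Sum.elim_inr]
    exact T_zero hh ξ (by omega)
  · intro i j hij
    rw [dmat_eq, dmat_eq, expM_pair]
    simp only [fam, stdc, tcol, vcol, Sum.elim_inr]
    exact T_top hh ξ (by omega)

/-- all columns `T_j`, `j < 6 h` -/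
theorem dual_V (hh : 1 ≤ h) (ξ : ℚ) (E : Fin h × Fin 6 ≃ Fin (6 * h)) :
    |((dmat (2 * h - 1) ξ h (tcol (mono (6 * h)))).submatrix id E).det| ^ 2 *
      |(pairB h (sser (2 * h - 1))).det| = (4 ^ (6 * h - 1)) ^ (6 * h) := by
  set V := dmat (2 * h - 1) ξ h (tcol (mono (6 * h))) with hV
  set B := pairB h (sser (2 * h - 1)) with hB
  have h2 : (V.transpose * B * V).submatrix E E =
      (V.submatrix id E).transpose * B * (V.submatrix id E) := by
    ext i j
    simp [Matrix.mul_apply, Matrix.transpose_apply]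
  have h3 : ((V.transpose * B * V).submatrix E E).det = (V.transpose * B * V).det :=
    Matrix.det_submatrix_equiv_self E _
  have h4 : |(V.transpose * B * V).det| = |(4 : ℚ) ^ (6 * h - 1)| ^ (6 * h) := by
    apply abs_det_anti
    · intro i j hij
      rw [hV, hB, dmat_eq, expM_pair]
      simp only [fam, tcol, mono]
      exact T_zero hh ξ (by omega)
    · intro i j hij
      rw [hV, hB, dmat_eq, expM_pair]
      simp only [fam, tcol, mono]
      exact T_top hh ξ (by omega)
  have h5 : |(4 : ℚ) ^ (6 * h - 1)| = 4 ^ (6 * h - 1) := abs_of_nonneg (by positivity)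
  rw [h5, ← h3, h2, Matrix.det_mul, Matrix.det_mul, Matrix.det_transpose, abs_mul, abs_mul] at h4
  rw [← h4]
  ring

/-- the columns of `vcol` are the monomials of degree `< 6 h` -/
def eqv (habm : a + b + m = 6 * h) : (Fin a ⊕ Fin b) ⊕ Fin m ≃ Fin (6 * h) :=
  ((finSumFinEquiv.sumCongr (Equiv.refl _)).trans finSumFinEquiv).trans (finCongr habm)

theorem vcol_eq (habm : a + b + m = 6 * h) (j : (Fin a ⊕ Fin b) ⊕ Fin m) :
    vcol a b m j = mono (6 * h) (eqv habm j) := by
  rcases j with (j | j) | j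
  · simp [vcol, monoS, mono, eqv]
  · simp [vcol, monoS, mono, eqv]
  · simp [vcol, mono, eqv]

theorem dual_det (hh : 1 ≤ h) (habm : a + b + m = 6 * h) (ξ : ℚ)
    (E : Fin h × Fin 6 ≃ (Fin a ⊕ Fin b) ⊕ Fin m) :
    |DQ (2 * h - 1) (fun _ => 6) ξ a b| * (4 ^ (6 * h - 1)) ^ m * ((OD h : ℚ) ^ 15 * (SF h : ℚ) ^ 36)
      = 2 ^ b * (4 ^ (6 * h - 1)) ^ (3 * h) *
        |((dmat (2 * h - 1) ξ h (stdc a b m)).submatrix id E).det| := by
  have h1 := dual_step hh habm ξ E
  have h2 := dual_V hh ξ (E.trans (eqv habm))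
  have h3 := abs_det_B (h := h)
  have h4 : ((dmat (2 * h - 1) ξ h (tcol (vcol a b m))).submatrix id E) =
      ((dmat (2 * h - 1) ξ h (tcol (mono (6 * h)))).submatrix id (E.trans (eqv habm))) := by
    ext r j
    simp only [Matrix.submatrix_apply, dmat, Matrix.of_apply, tcol, Equiv.trans_apply, id,
      vcol_eq habm]
  rw [h4] at h1
  set V := |((dmat (2 * h - 1) ξ h (tcol (mono (6 * h)))).submatrix id (E.trans (eqv habm))).det|
    with hV
  set M := |((dmat (2 * h - 1) ξ h (stdc a b m)).submatrix id E).det| with hM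
  set B := |(pairB h (sser (2 * h - 1))).det| with hB
  set S := ((OD h : ℚ) ^ 15 * (SF h : ℚ) ^ 36) with hS
  have hV0 : 0 ≤ V := abs_nonneg _
  have hM0 : 0 ≤ M := abs_nonneg _
  have hS0 : 0 < S := by
    have h5 : (0 : ℚ) < OD h := by exact_mod_cast OD_pos h
    have h6 : (0 : ℚ) < SF h := by exact_mod_cast SF_pos h
    positivity
  have h7 : (4 ^ (6 * h - 1) : ℚ) ^ (6 * h) = ((4 ^ (6 * h - 1)) ^ (3 * h)) ^ 2 := by
    rw [← pow_mul _ (3 * h) 2]; congr 1; ring
  rw [h7] at h2
  have h8 : V = (4 ^ (6 * h - 1)) ^ (3 * h) * S := by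
    have h9 : V ^ 2 = ((4 ^ (6 * h - 1)) ^ (3 * h) * S) ^ 2 := by
      rw [mul_pow, ← h2, mul_assoc, h3, mul_one]
    exact (pow_left_inj₀ hV0 (by positivity) two_ne_zero).1 h9
  have hB1 : B * S * S = 1 := by rw [mul_assoc, ← sq]; exact h3
  rw [← h1, h8]
  calc M * B * ((4 ^ (6 * h - 1)) ^ (3 * h) * S) * 2 ^ b * S
      = 2 ^ b * (4 ^ (6 * h - 1)) ^ (3 * h) * M * (B * S * S) := by ring
    _ = _ := by rw [hB1, mul_one]

end Pool.Agent.Z5
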