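import Pool.Agent.Z5.Lin
import Pool.Agent.Z5.PF

/-!
# Module FEQ: the linear form in `1, ζ(3), ζ(5)`
-/

open Finset Filter Topology

namespace Pool.Agent.Z5

variable {L : ℕ} {e : ℕ → ℕ}

/-- `1 / (w + 1) ^ i` -/
noncomputable def feqPhi (i w : ℕ) : ℝ := 1 / ((w : ℝ) + 1) ^ i

theorem feq_summable {i : ℕ} (hi : 2 ≤ i) : Summable (feqPhi i) := by
  have h1 : Summable (fun n : ℕ => 1 / (n : ℝ) ^ i) := Real.summable_one_div_nat_pow.2 (by omega)
  have h2 := (summable_nat_add_iff (f := fun n : ℕ => 1 / (n : ℝ) ^ i) 1).2 h1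
  refine h2.congr (fun n => ?_)
  unfold feqPhi
  push_cast
  rfl

theorem feq_hasSum {i : ℕ} (hi : 2 ≤ i) : HasSum (feqPhi i) (zt i) := (feq_summable hi).hasSum

theorem feq_sum_range (i M : ℕ) : ∑ w ∈ range M, feqPhi i w = (Hs i M : ℝ) := by
  unfold Hs feqPhi
  rw [Rat.cast_sum]
  refine Finset.sum_nbij' (fun w => w + 1) (fun u => u - 1) ?_ ?_ ?_ ?_ ?_
  · intro w hw
    rw [mem_range] at hw
    rw [mem_Icc]
    omega
  · intro u hu
    rw [mem_Icc] at hu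
    rw [mem_range]
    omega
  · intro w _
    exact Nat.add_sub_cancel w 1
  · intro u hu
    rw [mem_Icc] at hu
    exact Nat.sub_add_cancel (by omega)
  · intro w _
    push_cast
    ring

theorem feq_shift {i : ℕ} (hi : 2 ≤ i) (M : ℕ) :
    HasSum (fun w => feqPhi i (w + M)) (zt i - (Hs i M : ℝ)) := by
  refine (hasSum_nat_add_iff M).2 ?_
  rw [feq_sum_range, sub_add_cancel]
  exact feq_hasSum hi

theorem feq_tendsto : Tendsto (feqPhi 1) atTop (𝓝 0) := by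
  have h1 := tendsto_one_div_add_atTop_nhds_zero_nat (𝕜 := ℝ)
  refine h1.congr fun w => ?_
  unfold feqPhi
  rw [pow_one]

theorem feq_shift_le (w M : ℕ) : feqPhi 1 (w + M) ≤ feqPhi 1 w := by
  unfold feqPhi
  rw [pow_one, pow_one]
  apply one_div_le_one_div_of_le
  · positivity
  · push_cast
    have : (0 : ℝ) ≤ M := Nat.cast_nonneg M
    linarith

theorem feq_one (M : ℕ) : HasSum (fun w => feqPhi 1 w - feqPhi 1 (w + M)) (Hs 1 M : ℝ) := by
  refine (hasSum_iff_tendsto_nat_of_nonneg (fun w => sub_nonneg.2 (feq_shift_le w M)) _).2 ?_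
  have h1 : ∀ N : ℕ, ∑ w ∈ range N, (feqPhi 1 w - feqPhi 1 (w + M)) =
      (Hs 1 M : ℝ) - ∑ k ∈ range M, feqPhi 1 (N + k) := by
    intro N
    rw [← feq_sum_range, Finset.sum_sub_distrib]
    have h2 := Finset.sum_range_add (feqPhi 1) N M
    have h3 := Finset.sum_range_add (feqPhi 1) M N
    rw [add_comm M N] at h3
    have h4 : ∑ w ∈ range N, feqPhi 1 (w + M) = ∑ w ∈ range N, feqPhi 1 (M + w) :=
      Finset.sum_congr rfl fun w _ => by rw [add_comm]
    rw [h4]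
    linarith
  have h2 : Tendsto (fun N : ℕ => (Hs 1 M : ℝ) - ∑ k ∈ range M, feqPhi 1 (N + k))
      atTop (𝓝 ((Hs 1 M : ℝ) - ∑ k ∈ range M, 0)) := by
    refine tendsto_const_nhds.sub (tendsto_finsetSum _ fun k _ => ?_)
    exact feq_tendsto.comp (tendsto_add_atTop_nat k)
  rw [Finset.sum_const_zero, sub_zero] at h2
  exact h2.congr fun N => (h1 N).symm

theorem feq_term (he : IsProf L e) (h : Polynomial ℚ) (hd : 2 * h.natDegree + 3 ≤ tot L e)
    (t : ℕ) : w L e (t + 1) * evY L h (t + 1) = ∑ u ∈ range (L + 1),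
      ((co L e h u 1 : ℝ) * -(feqPhi 1 t - feqPhi 1 (t + u)) +
        ∑ i ∈ Finset.Icc 2 6, (co L e h u i : ℝ) * feqPhi i (t + u)) := by
  rw [pf he h (by omega) ((t : ℝ) + 1) (fun u _ => by positivity)]
  have h0 : ∑ u ∈ range (L + 1), (co L e h u 1 : ℝ) = 0 := by
    have h1 := rho_one he h hd
    unfold rho at h1
    rw [← Rat.cast_sum, h1, Rat.cast_zero]
  have h2 : ∀ u ∈ range (L + 1), ∑ i ∈ Finset.Icc 1 6, (co L e h u i : ℝ) / ((t : ℝ) + 1 + u) ^ i =
      ((co L e h u 1 : ℝ) * -(feqPhi 1 t - feqPhi 1 (t + u)) +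
        ∑ i ∈ Finset.Icc 2 6, (co L e h u i : ℝ) * feqPhi i (t + u)) +
        (co L e h u 1 : ℝ) * feqPhi 1 t := by
    intro u _
    have h3 : ∀ i : ℕ, (co L e h u i : ℝ) / ((t : ℝ) + 1 + u) ^ i =
        (co L e h u i : ℝ) * feqPhi i (t + u) := by
      intro i
      unfold feqPhi
      rw [mul_one_div]
      congr 2
      push_cast
      ring
    rw [Finset.sum_congr rfl (fun i _ => h3 i),
      ← Finset.add_sum_Ioc_eq_sum_Icc (by norm_num : 1 ≤ 6)]
    have h4 : Finset.Ioc 1 6 = Finset.Icc 2 6 := rfl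
    rw [h4]
    ring
  rw [Finset.sum_congr rfl h2, Finset.sum_add_distrib, ← Finset.sum_mul, h0, zero_mul, add_zero]

theorem feq_hasSumF (he : IsProf L e) (h : Polynomial ℚ) (hd : 2 * h.natDegree + 3 ≤ tot L e) :
    HasSum (fun t : ℕ => w L e (t + 1) * evY L h (t + 1)) (∑ u ∈ range (L + 1),
      ((co L e h u 1 : ℝ) * -(Hs 1 u : ℝ) +
        ∑ i ∈ Finset.Icc 2 6, (co L e h u i : ℝ) * (zt i - (Hs i u : ℝ)))) := by
  have h2 : (fun t : ℕ => w L e (t + 1) * evY L h (t + 1)) = fun t : ℕ => ∑ u ∈ range (L + 1),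
      ((co L e h u 1 : ℝ) * -(feqPhi 1 t - feqPhi 1 (t + u)) +
        ∑ i ∈ Finset.Icc 2 6, (co L e h u i : ℝ) * feqPhi i (t + u)) := by
    funext t
    exact feq_term he h hd t
  rw [h2]
  refine hasSum_sum fun u _ => HasSum.add ?_ ?_
  · exact ((feq_one u).neg).mul_left _
  · refine hasSum_sum fun i hi => HasSum.mul_left _ ?_
    rw [mem_Icc] at hi
    exact feq_shift hi.1 u

theorem summable_F (he : IsProf L e) (h : Polynomial ℚ) (hd : 2 * h.natDegree + 3 ≤ tot L e) :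
    Summable fun t : ℕ => w L e (t + 1) * evY L h (t + 1) := (feq_hasSumF he h hd).summable

theorem F_eq (he : IsProf L e) (h : Polynomial ℚ) (hd : 2 * h.natDegree + 3 ≤ tot L e) :
    F L e h = rho0 L e h + rho L e 3 h * zt 3 + rho L e 5 h * zt 5 := by
  have h1 : F L e h = ∑ u ∈ range (L + 1), ((co L e h u 1 : ℝ) * -(Hs 1 u : ℝ) +
        ∑ i ∈ Finset.Icc 2 6, (co L e h u i : ℝ) * (zt i - (Hs i u : ℝ))) :=
    (feq_hasSumF he h hd).tsum_eq
  have h2 : ∀ u ∈ range (L + 1), ((co L e h u 1 : ℝ) * -(Hs 1 u : ℝ) +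
        ∑ i ∈ Finset.Icc 2 6, (co L e h u i : ℝ) * (zt i - (Hs i u : ℝ))) =
      -(∑ i ∈ Finset.Icc 1 6, (co L e h u i : ℝ) * (Hs i u : ℝ)) +
        ∑ i ∈ Finset.Icc 2 6, (co L e h u i : ℝ) * zt i := by
    intro u _
    rw [← Finset.add_sum_Ioc_eq_sum_Icc (by norm_num : 1 ≤ 6)]
    have h4 : Finset.Ioc 1 6 = Finset.Icc 2 6 := rfl
    rw [h4]
    simp only [mul_sub, Finset.sum_sub_distrib]
    ring
  have h3 : (rho0 L e h : ℝ) =
      ∑ u ∈ range (L + 1), -(∑ i ∈ Finset.Icc 1 6, (co L e h u i : ℝ) * (Hs i u : ℝ)) := by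
    unfold rho0
    rw [Rat.cast_neg, Rat.cast_sum, ← Finset.sum_neg_distrib]
    refine Finset.sum_congr rfl (fun u _ => ?_)
    rw [Rat.cast_sum]
    push_cast
    rfl
  have h5 : ∀ i : ℕ, ((rho L e i h : ℚ) : ℝ) = ∑ u ∈ range (L + 1), (co L e h u i : ℝ) := by
    intro i
    unfold rho
    rw [Rat.cast_sum]
  rw [h1, Finset.sum_congr rfl h2, Finset.sum_add_distrib, ← h3, Finset.sum_comm]
  have h6 : ∑ i ∈ Finset.Icc 2 6, ∑ u ∈ range (L + 1), (co L e h u i : ℝ) * zt i =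
      ∑ i ∈ Finset.Icc 2 6, ((rho L e i h : ℚ) : ℝ) * zt i := by
    refine Finset.sum_congr rfl (fun i _ => ?_)
    rw [h5, Finset.sum_mul]
  have h7 : Finset.Icc 2 6 = {2, 3, 4, 5, 6} := rfl
  rw [h6, h7]
  rw [Finset.sum_insert (by decide), Finset.sum_insert (by decide), Finset.sum_insert (by decide),
    Finset.sum_insert (by decide), Finset.sum_singleton,
    rho_even he h (by norm_num : 1 ≤ 2) (by decide), rho_even he h (by norm_num : 1 ≤ 4) (by decide),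
    rho_even he h (by norm_num : 1 ≤ 6) (by decide)]
  push_cast
  ring

end Pool.Agent.Z5
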