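import Pool.Agent.Z5.NVUnit

/-!
# The base determinant `DQ 5 (fun _ => 6) 0 5 5` does not vanish (computation modulo `11`)
-/

open Finset Polynomial

namespace Pool.Agent.Z5.NV

namespace Base

theorem hp11 : Nat.Prime 11 := by norm_num

/-- congruence modulo `11` of the first six coefficients -/
def Rp (f : PowerSeries ℚ) (a : List ℕ) : Prop :=
  ∀ n < 6, Cg 11 hp11 (PowerSeries.coeff n f) (a.getD n 0 : ℕ)

/-- truncated multiplication modulo `11` -/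
def mulN (a b : List ℕ) : List ℕ :=
  (List.range 6).map fun n => (∑ i ∈ range (n + 1), a.getD i 0 * b.getD (n - i) 0) % 11

def oneN : List ℕ := [1, 0, 0, 0, 0, 0]

def powN (a : List ℕ) : ℕ → List ℕ
  | 0 => oneN
  | n + 1 => mulN (powN a n) a

theorem getD_mulN (a b : List ℕ) {n : ℕ} (hn : n < 6) :
    (mulN a b).getD n 0 = (∑ i ∈ range (n + 1), a.getD i 0 * b.getD (n - i) 0) % 11 := by
  simp only [mulN]
  rw [List.getD_eq_getElem?_getD, List.getElem?_map, List.getElem?_range hn]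
  rfl

theorem cg_mod (a : ℕ) : Cg 11 hp11 (a : ℚ) ((a % 11 : ℕ) : ℚ) := by
  refine ⟨((a / 11 : ℕ) : ℚ), Zp_nat _, ?_⟩
  have h : (a : ℚ) = ((a % 11 + 11 * (a / 11) : ℕ) : ℚ) := by rw [Nat.mod_add_div]
  rw [h]; push_cast; ring

theorem Rp.mul {f g : PowerSeries ℚ} {a b : List ℕ} (hf : Rp f a) (hg : Rp g b) :
    Rp (f * g) (mulN a b) := by
  intro n hn
  rw [getD_mulN a b hn, PowerSeries.coeff_mul,
    Finset.Nat.sum_antidiagonal_eq_sum_range_succ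
      (fun i j => PowerSeries.coeff i f * PowerSeries.coeff j g)]
  refine Cg.trans ?_ (cg_mod _)
  push_cast
  refine Cg.sum _ _ _ fun i hi => ?_
  have hi' := Finset.mem_range.mp hi
  have h1 := hf i (by omega)
  have h2 := hg (n - i) (by omega)
  exact h1.mul h2 (Zp_nat _) (h2.mem (Zp_nat _))

theorem Rp_one : Rp 1 oneN := by
  intro n hn
  rw [PowerSeries.coeff_one]
  interval_cases n <;> simp [oneN, Cg.refl]

theorem Rp.pow {f : PowerSeries ℚ} {a : List ℕ} (hf : Rp f a) (n : ℕ) : Rp (f ^ n) (powN a n) := by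
  induction n with
  | zero => rw [pow_zero]; exact Rp_one
  | succ n ih => rw [pow_succ]; exact ih.mul hf

theorem cg_int {a : ℤ} {b : ℕ} (h : (a - b) % 11 = 0) : Cg 11 hp11 (a : ℚ) (b : ℚ) := by
  obtain ⟨c, hc⟩ := Int.dvd_of_emod_eq_zero h
  refine ⟨(c : ℚ), Zp_int _, ?_⟩
  have : ((a - b : ℤ) : ℚ) = ((11 * c : ℤ) : ℚ) := by rw [hc]
  push_cast at this ⊢
  exact this

theorem Rp_lin (c : ℤ) (d c' : ℕ) (h : (c - c') % 11 = 0) :
    Rp (PowerSeries.C (c : ℚ) + PowerSeries.C (d : ℚ) * PowerSeries.X) [c', d, 0, 0, 0, 0] := by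
  intro n hn
  rw [map_add, PowerSeries.coeff_C_mul, PowerSeries.coeff_C, PowerSeries.coeff_X]
  interval_cases n
  · simpa using cg_int h
  all_goals simp [Cg.refl]

/-- factors of `dser` -/
def gN (u v : ℕ) : List ℕ := if v = u then oneN else powN [(v + 11 - u) % 11, 1, 0, 0, 0, 0] 6

def dN (u : ℕ) : List ℕ :=
  mulN (mulN (mulN (mulN (mulN (mulN oneN (gN u 0)) (gN u 1)) (gN u 2)) (gN u 3)) (gN u 4)) (gN u 5)

theorem Rp_dser {u : ℕ} (hu : u < 6) : Rp (dser 5 (fun _ => 6) u) (dN u) := by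
  have e1 : dser 5 (fun _ => 6) u = ∏ v ∈ range 6,
      if v = u then 1 else (PowerSeries.C ((v : ℚ) - u) + PowerSeries.X) ^ 6 := by
    rw [dser, ← Finset.mul_prod_erase (range 6) _ (Finset.mem_range.mpr hu), if_pos rfl, one_mul]
    refine Finset.prod_congr rfl fun v hv => ?_
    rw [if_neg (Finset.ne_of_mem_erase hv)]
  have key : ∀ v < 6, Rp (if v = u then 1 else (PowerSeries.C ((v : ℚ) - u) + PowerSeries.X) ^ 6)
      (gN u v) := by
    intro v hv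
    unfold gN
    split_ifs with h
    · exact Rp_one
    · refine Rp.pow ?_ 6
      have h1 := Rp_lin ((v : ℤ) - u) 1 ((v + 11 - u) % 11) (by omega)
      push_cast at h1
      rwa [map_one, one_mul] at h1
  rw [e1]
  simp only [Finset.prod_range_succ, Finset.prod_range_zero]
  exact (((((Rp_one.mul (key 0 (by norm_num))).mul (key 1 (by norm_num))).mul
    (key 2 (by norm_num))).mul (key 3 (by norm_num))).mul (key 4 (by norm_num))).mul
    (key 5 (by norm_num))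

/-- inverses -/
def iN (u : ℕ) : List ℕ :=
  [[1, 5, 7, 2, 2, 4], [5, 6, 7, 1, 5, 2], [1, 9, 8, 9, 4, 7], [1, 2, 8, 2, 4, 4],
    [5, 5, 7, 10, 5, 9], [1, 6, 7, 9, 2, 7]].getD u []

theorem iN_spec : ∀ u < 6, mulN (dN u) (iN u) = oneN := by decide +kernel

theorem dN_unit : ∀ u < 6, (dN u).getD 0 0 % 11 ≠ 0 := by decide +kernel

theorem Rp_inv {f : PowerSeries ℚ} {a b : List ℕ} (hf : Rp f a) (h0 : a.getD 0 0 % 11 ≠ 0)
    (hab : mulN a b = oneN) : Rp f⁻¹ b := by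
  have hU : Un 11 hp11 ((a.getD 0 0 : ℕ) : ℚ) := by
    have h := Un_int (p := 11) (hp := hp11) (n := ((a.getD 0 0 : ℕ) : ℤ)) (by
      intro h; exact h0 (Nat.mod_eq_zero_of_dvd (by exact_mod_cast h)))
    exact_mod_cast h
  have hc := hf 0 (by norm_num)
  have hUf : Un 11 hp11 (PowerSeries.coeff 0 f) := hc.unit hU
  have hf0 : PowerSeries.constantCoeff f ≠ 0 := by
    rw [← PowerSeries.coeff_zero_eq_constantCoeff_apply]
    exact hUf.1
  have hmul : f * f⁻¹ = 1 := PowerSeries.mul_inv_cancel _ hf0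
  intro n
  induction n using Nat.strong_induction_on with
  | _ n ih =>
    intro hn
    -- the relation in degree n
    have h1 : PowerSeries.coeff n (f * f⁻¹) = PowerSeries.coeff n (1 : PowerSeries ℚ) := by rw [hmul]
    rw [PowerSeries.coeff_mul, Finset.Nat.sum_antidiagonal_eq_sum_range_succ
      (fun i j => PowerSeries.coeff i f * PowerSeries.coeff j f⁻¹), Finset.sum_range_succ'] at h1
    have h2 : Cg 11 hp11 (((∑ i ∈ range (n + 1), a.getD i 0 * b.getD (n - i) 0 : ℕ) : ℚ))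
        (PowerSeries.coeff n (1 : PowerSeries ℚ)) := by
      refine (cg_mod _).trans ?_
      rw [← getD_mulN a b hn, hab]
      exact (Rp_one n hn).symm
    rw [Finset.sum_range_succ'] at h2
    push_cast at h2
    have h3 : Cg 11 hp11 (∑ i ∈ range n, PowerSeries.coeff (i + 1) f *
        PowerSeries.coeff (n - (i + 1)) f⁻¹) (∑ i ∈ range n, ((a.getD (i + 1) 0 : ℕ) : ℚ) *
          ((b.getD (n - (i + 1)) 0 : ℕ) : ℚ)) := by
      refine Cg.sum _ _ _ fun i hi => ?_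
      have hi' := Finset.mem_range.mp hi
      have e1 := hf (i + 1) (by omega)
      have e2 := ih (n - (i + 1)) (by omega) (by omega)
      exact e1.mul e2 (Zp_nat _) (e2.mem (Zp_nat _))
    rw [← h1] at h2
    simp only [Nat.sub_zero] at h2
    -- a₀ b_n ≡ f₀ g_n
    have h4 : Cg 11 hp11 (((a.getD 0 0 : ℕ) : ℚ) * ((b.getD n 0 : ℕ) : ℚ))
        (PowerSeries.coeff 0 f * PowerSeries.coeff n f⁻¹) := by
      have := h2.sub h3.symm
      convert this using 1 <;> ring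
    have h5 : Cg 11 hp11 (PowerSeries.coeff 0 f * ((b.getD n 0 : ℕ) : ℚ))
        (PowerSeries.coeff 0 f * PowerSeries.coeff n f⁻¹) :=
      (hc.mul (Cg.refl _) (Zp_nat _) (Zp_nat _)).trans h4
    obtain ⟨c, hcm, hc'⟩ := h5
    refine Cg.symm ⟨(PowerSeries.coeff 0 f)⁻¹ * c, (Zp 11 hp11).mul_mem hUf.2.2 hcm, ?_⟩
    have hne := hUf.1
    field_simp
    rw [← mul_sub] at hc'
    linarith

theorem Rp_dinv {u : ℕ} (hu : u < 6) : Rp (dser 5 (fun _ => 6) u)⁻¹ (iN u) :=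
  Rp_inv (Rp_dser hu) (dN_unit u hu) (iN_spec u hu)

def xN (u : ℕ) : List ℕ := [(5 + 22 - 2 * u) % 11, 2, 0, 0, 0, 0]

theorem Rp_x {u : ℕ} (hu : u < 6) : Rp (xser 5 u) (xN u) := by
  have h := Rp_lin (5 - 2 * (u : ℤ)) 2 ((5 + 22 - 2 * u) % 11) (by omega)
  have e : xser 5 u = PowerSeries.C ((5 - 2 * (u : ℤ) : ℤ) : ℚ) +
      PowerSeries.C ((2 : ℕ) : ℚ) * PowerSeries.X := by
    unfold xser
    push_cast
    rw [show (PowerSeries.C (2 : ℚ) : PowerSeries ℚ) = 2 from rfl]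
  rw [e]; exact h

def lN (k u : ℕ) : List ℕ := mulN (mulN (xN u) (iN u)) (powN (mulN (xN u) (xN u)) k)

theorem Rp_l (k : ℕ) {u : ℕ} (hu : u < 6) : Rp (lser 5 (fun _ => 6) u (X ^ k)) (lN k u) := by
  unfold lser hser
  rw [map_pow, aeval_X, sq]
  exact ((Rp_x hu).mul (Rp_dinv hu)).mul (((Rp_x hu).mul (Rp_x hu)).pow k)

/-- inverses modulo `11` -/
def iv (m : ℕ) : ℕ := [0, 1, 6, 4, 3, 9].getD m 0

def hN (i u : ℕ) : ℕ := ∑ m ∈ Finset.Icc 1 u, iv m ^ i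

theorem Hs_base (i : ℕ) {u : ℕ} (hu : u < 6) : Cg 11 hp11 (Hs i u) ((hN i u : ℕ) : ℚ) := by
  unfold Hs hN
  push_cast
  refine Cg.sum _ _ _ fun m hm => ?_
  have hm' := Finset.mem_Icc.mp hm
  have h1 : ∀ m ∈ Finset.Icc 1 5, (m * iv m) % 11 = 1 := by decide
  have h2 := h1 m (Finset.mem_Icc.mpr ⟨hm'.1, by omega⟩)
  have hmne : ((m : ℕ) : ℚ) ≠ 0 := by
    have := hm'.1
    exact_mod_cast (by omega : m ≠ 0)
  have hU : Un 11 hp11 ((m : ℕ) : ℚ) := by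
    have h := Un_int (p := 11) (hp := hp11) (n := ((m : ℕ) : ℤ)) (by
      intro h
      have h' : 11 ∣ m := by exact_mod_cast h
      omega)
    exact_mod_cast h
  have h3 : Cg 11 hp11 (1 / (m : ℚ)) ((iv m : ℕ) : ℚ) := by
    have h4 : m * iv m = 1 + 11 * (m * iv m / 11) := by omega
    have h5 : (m : ℚ) * iv m = 1 + 11 * ((m * iv m / 11 : ℕ) : ℚ) := by exact_mod_cast h4
    refine ⟨-((m : ℚ)⁻¹ * ((m * iv m / 11 : ℕ) : ℚ)), (Zp 11 hp11).neg_mem
      ((Zp 11 hp11).mul_mem hU.2.2 (Zp_nat _)), ?_⟩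
    field_simp
    push_cast
    linarith
  have h6 := h3.pow (Zp_nat _) i
  rwa [one_div, inv_pow, ← one_div] at h6

def r0 (k : ℕ) : ℕ := [7, 8, 4, 7, 5, 0, 2, 4, 3, 1, 8, 6, 0, 4].getD k 0
def r3 (k : ℕ) : ℕ := [0, 0, 0, 0, 0, 0, 8, 8, 10, 1, 1, 5, 2, 6].getD k 0

theorem r0_spec : ∀ k < 14, (r0 k + ∑ u ∈ range 6, ∑ i ∈ Finset.Icc 1 6,
    (lN k u).getD (6 - i) 0 * hN i u) % 11 = 0 := by decide +kernel

theorem r3_spec : ∀ k < 14, (∑ u ∈ range 6, (lN k u).getD 3 0) % 11 = r3 k := by decide +kernel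

theorem rho0_base {k : ℕ} (hk : k < 14) :
    Cg 11 hp11 (rho0 5 (fun _ => 6) (X ^ k)) ((r0 k : ℕ) : ℚ) := by
  have h1 : Cg 11 hp11 (∑ u ∈ range (5 + 1), ∑ i ∈ Finset.Icc 1 6,
      co 5 (fun _ => 6) (X ^ k) u i * Hs i u)
      ((∑ u ∈ range 6, ∑ i ∈ Finset.Icc 1 6, (lN k u).getD (6 - i) 0 * hN i u : ℕ) : ℚ) := by
    push_cast
    refine Cg.sum _ _ _ fun u hu => Cg.sum _ _ _ fun i hi => ?_
    have hu' := Finset.mem_range.mp hu
    have hi' := Finset.mem_Icc.mp hi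
    have e1 := Rp_l k hu' (6 - i) (by omega)
    have e2 := Hs_base i hu'
    rw [co, if_pos hi']
    exact e1.mul e2 (Zp_nat _) (e2.mem (Zp_nat _))
  have h2 := (h1.trans (cg_mod _)).neg
  refine h2.trans ?_
  have h3 := r0_spec k hk
  set S := ∑ u ∈ range 6, ∑ i ∈ Finset.Icc 1 6, (lN k u).getD (6 - i) 0 * hN i u
  have h4 := cg_int (a := -((S % 11 : ℕ) : ℤ)) (b := r0 k) (by omega)
  push_cast at h4 ⊢
  exact h4

theorem rho3_base {k : ℕ} (hk : k < 14) :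
    Cg 11 hp11 (rho 5 (fun _ => 6) 3 (X ^ k)) ((r3 k : ℕ) : ℚ) := by
  rw [← r3_spec k hk]
  refine Cg.trans ?_ (cg_mod _)
  unfold rho
  push_cast
  refine Cg.sum _ _ _ fun u hu => ?_
  have hu' := Finset.mem_range.mp hu
  rw [co, if_pos (by norm_num)]
  exact Rp_l k hu' 3 (by norm_num)

/-- column / row numbers -/
def jj : Fin 5 ⊕ Fin 5 → ℕ := Sum.elim (fun j => (j : ℕ)) (fun j => 5 + (j : ℕ))

def BN : Fin 5 ⊕ Fin 5 → Fin 5 ⊕ Fin 5 → ℕ := fun x y =>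
  Sum.elim (fun i : Fin 5 => r0 ((i : ℕ) + jj y)) (fun i : Fin 5 => r3 ((i : ℕ) + jj y)) x

def NN (x y : Fin 5 ⊕ Fin 5) : ℕ :=
  ([[2, 10, 2, 8, 6, 0, 4, 4, 5, 4], [0, 0, 7, 8, 3, 2, 5, 1, 3, 10],
    [7, 7, 4, 4, 1, 4, 4, 8, 3, 7], [3, 5, 4, 1, 3, 6, 2, 0, 10, 6],
    [4, 10, 8, 3, 3, 7, 2, 5, 10, 0], [0, 3, 0, 2, 10, 0, 5, 7, 6, 10],
    [3, 0, 2, 10, 0, 5, 7, 6, 10, 0], [8, 10, 4, 0, 7, 7, 4, 0, 3, 5],
    [3, 0, 7, 3, 8, 9, 4, 5, 6, 10], [3, 8, 3, 0, 7, 2, 4, 1, 1, 3]].getD (jj x) []).getD (jj y) 0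

theorem BN_spec : ∀ x y : Fin 5 ⊕ Fin 5,
    (∑ z : Fin 5 ⊕ Fin 5, BN x z * NN z y) % 11 = if x = y then 1 else 0 := by decide +kernel

end Base

open Base in
theorem base_ne_zero : DQ 5 (fun _ => 6) 0 5 5 ≠ 0 := by
  classical
  set A := gmat 5 (fun _ => 6) 0 (mono 5) (mono 5) (monoS 5 5) with hA
  have hjj : ∀ y : Fin 5 ⊕ Fin 5, monoS 5 5 y = X ^ jj y ∧ jj y < 10 := by
    rintro (y | y)
    · have := y.2; exact ⟨rfl, by simp only [jj, Sum.elim_inl]; omega⟩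
    · have := y.2; exact ⟨rfl, by simp only [jj, Sum.elim_inr]; omega⟩
  have h1 : ∀ x y, Cg 11 hp11 (A x y) ((BN x y : ℕ) : ℚ) := by
    intro x y
    obtain ⟨e1, e2⟩ := hjj y
    rcases x with x | x
    · have hx := x.2
      rw [show A (Sum.inl x) y = Ph 5 (fun _ => 6) 0 (mono 5 x * monoS 5 5 y) from rfl, e1,
        show mono 5 x = X ^ (x : ℕ) from rfl, ← pow_add, Ph, zero_mul, add_zero]
      exact rho0_base (k := (x : ℕ) + jj y) (by omega)
    · have hx := x.2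
      rw [show A (Sum.inr x) y = rho 5 (fun _ => 6) 3 (mono 5 x * monoS 5 5 y) from rfl, e1,
        show mono 5 x = X ^ (x : ℕ) from rfl, ← pow_add]
      exact rho3_base (k := (x : ℕ) + jj y) (by omega)
  set N : Matrix (Fin 5 ⊕ Fin 5) (Fin 5 ⊕ Fin 5) ℚ := Matrix.of fun x y => ((NN x y : ℕ) : ℚ)
    with hN
  have h2 : ∀ x y, Cg 11 hp11 ((A * N) x y) ((1 : Matrix (Fin 5 ⊕ Fin 5) (Fin 5 ⊕ Fin 5) ℚ) x y) := by
    intro x y
    rw [Matrix.mul_apply]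
    have h3 : Cg 11 hp11 (∑ z, A x z * N z y) ((∑ z, BN x z * NN z y : ℕ) : ℚ) := by
      push_cast
      refine Cg.sum _ _ _ fun z _ => ?_
      exact (h1 x z).mul (Cg.refl _) (Zp_nat _) (Zp_nat _)
    refine (h3.trans (cg_mod _)).trans ?_
    rw [BN_spec x y, Matrix.one_apply]
    split_ifs
    · exact_mod_cast Cg.refl _
    · exact_mod_cast Cg.refl _
  have h4 := det_cg (A * N) 1 (fun x y => by
    rw [Matrix.one_apply]; split_ifs
    · exact one_mem _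
    · exact zero_mem _) h2
  rw [Matrix.det_one, Matrix.det_mul] at h4
  have h5 := h4.ne_zero Un_one
  exact fun h => h5 (by rw [show A.det = 0 from h, zero_mul])

end Pool.Agent.Z5.NV
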