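import Pool.Agent.Z5.NVMain
import Pool.Agent.Z5.NVBase

/-!
# Non-vanishing for the design `M = 6`, `e = 6`, `s = s' = 5`
-/

open Finset

namespace Pool.Agent.Z5

theorem isProf_six' (L : ℕ) : IsProf L (fun _ => 6) :=
  ⟨fun _ _ => by norm_num, fun _ _ => le_refl _, fun _ _ => rfl, by
    rw [Finset.sum_const, smul_eq_mul]; exact Even.mul_left (by decide) _⟩

/-- for all large primes `p` the determinant `DQ (6 p - 1) 6 ξ (5 p) (5 p)` does not vanish -/
theorem nonvanishing_six (ξ : ℚ) : ∃ p0 : ℕ, ∀ p : ℕ, p.Prime → p0 ≤ p →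
    DQ (6 * p - 1) (fun _ => 6) ξ (5 * p) (5 * p) ≠ 0 :=
  nonvanishing 6 (fun _ => 6) 5 5 (by norm_num) (isProf_six' 5) (by decide) (le_refl _)
    NV.base_ne_zero ξ

end Pool.Agent.Z5
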