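import Pool.Agent.Z5.MainArith
import Pool.Agent.Z5.ArchMain
import Pool.Agent.Z5.ArchNum
import Pool.Agent.Z5.NVSix
import Pool.Agent.Z5.DQDR

/-!
# `ζ(5)` is irrational
-/

open Finset Filter

namespace Pool.Agent.Z5

theorem ariConst_gt : -71.3 < ariConst := by
  have h2 := Real.log_two_gt_d9
  have h2' := Real.log_two_lt_d9
  have h3 : 41 * Real.log 3 < 65 * Real.log 2 := by
    have h := Real.log_lt_log (by norm_num : (0 : ℝ) < 3 ^ 41)
      (by norm_num : (3 : ℝ) ^ 41 < 2 ^ 65)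
    rw [Real.log_pow, Real.log_pow] at h
    exact_mod_cast h
  have h5 : 65 * Real.log 2 < 28 * Real.log 5 := by
    have h := Real.log_lt_log (by norm_num : (0 : ℝ) < 2 ^ 65)
      (by norm_num : (2 : ℝ) ^ 65 < 5 ^ 28)
    rw [Real.log_pow, Real.log_pow] at h
    exact_mod_cast h
  have hG := padG_le
  unfold ariConst
  norm_num at hG h2 h2' ⊢
  linarith

theorem irrational_zt_five : Irrational (zt 5) := by
  rintro ⟨ξ, hξ⟩
  obtain ⟨C, p1, hup⟩ := arch_main archHyp_num
  obtain ⟨p2, hnv⟩ := nonvanishing_six ξ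
  have hlow := ari ξ (1 / 100) (by norm_num)
  have hsm := eventually_small C (1 / 100) (by norm_num)
  obtain ⟨p3, h3⟩ := eventually_atTop.1 (hlow.and (hsm.and (eventually_ge_atTop 1)))
  obtain ⟨p, hp, hprime⟩ := Nat.exists_infinite_primes (max p1 (max p2 p3))
  have hp1 : p1 ≤ p := (le_max_left _ _).trans hp
  have hp2 : p2 ≤ p := (le_max_left _ _).trans ((le_max_right _ _).trans hp)
  have hp3 : p3 ≤ p := (le_max_right _ _).trans ((le_max_right _ _).trans hp)
  obtain ⟨h4, h5, h6⟩ := h3 p hp3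
  have hD := hnv p hprime hp2
  have h7 := h4 hD
  have h8 := hup p hp1
  have h9 := DQ_eq_DR (isProf_six' (6 * p - 1)) (5 * p) (5 * p) le_rfl (by
    unfold tot
    rw [sum_const, card_range, smul_eq_mul]
    omega) ξ hξ.symm
  have h10 : |((DQ (6 * p - 1) (fun _ => 6) ξ (5 * p) (5 * p) : ℚ) : ℝ)| ≤
      Real.exp (kap 6 E6 5 5 * p ^ 2 * Real.log p + archConst 6 E6 XX ZZ lF6 lR6 eta6 * p ^ 2
        + C * p * Real.log p) := by
    rw [h9]
    exact h8
  have h11 : Real.log |((DQ (6 * p - 1) (fun _ => 6) ξ (5 * p) (5 * p) : ℚ) : ℝ)| ≤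
      kap 6 E6 5 5 * p ^ 2 * Real.log p + archConst 6 E6 XX ZZ lF6 lR6 eta6 * p ^ 2
        + C * p * Real.log p := by
    have h12 := Real.log_le_log (abs_pos.2 (by exact_mod_cast hD)) h10
    rwa [Real.log_exp] at h12
  have hk : kap 6 E6 5 5 = -210 := by
    unfold kap E6
    rw [sum_const, card_range]
    norm_num
  rw [hk] at h11
  have hA := archConst_num
  have hP := ariConst_gt
  have hp0 : (0 : ℝ) < (p : ℝ) ^ 2 := by
    have : (0 : ℝ) < p := by exact_mod_cast h6
    positivity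
  have h13 : (ariConst - 1 / 100 - archConst 6 E6 XX ZZ lF6 lR6 eta6 - 1 / 100) * (p : ℝ) ^ 2 ≤ 0 := by
    nlinarith
  have h14 : 0 < (ariConst - 1 / 100 - archConst 6 E6 XX ZZ lF6 lR6 eta6 - 1 / 100) := by
    norm_num at hA hP ⊢
    linarith
  have h15 := mul_pos h14 hp0
  linarith

end Pool.Agent.Z5
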