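import Mathlib

/-!
# Integrals of hinge functions `max 0 (c - k x)`
-/

open Finset Filter Topology

namespace Pool.Agent.Z5

theorem hasDerivAt_max_sq (x : ℝ) : HasDerivAt (fun y : ℝ => (max 0 y) ^ 2) (2 * max 0 x) x := by
  rcases lt_trichotomy x 0 with h | h | h
  · have h1 : (fun y : ℝ => (max 0 y) ^ 2) =ᶠ[𝓝 x] fun _ => (0 : ℝ) := by
      filter_upwards [Iio_mem_nhds h] with y hy
      rw [max_eq_left (le_of_lt hy)]
      norm_num
    rw [max_eq_left h.le, mul_zero]
    exact (hasDerivAt_const x (0 : ℝ)).congr_of_eventuallyEq h1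
  · subst h
    rw [max_self, mul_zero]
    have h1 : (fun y : ℝ => (max 0 y) ^ 2) =O[𝓝 0] fun y => ‖y - 0‖ ^ 2 := by
      refine Asymptotics.IsBigO.of_bound 1 (Filter.Eventually.of_forall fun y => ?_)
      rw [sub_zero, one_mul, Real.norm_eq_abs, Real.norm_eq_abs, Real.norm_eq_abs,
        abs_of_nonneg (sq_nonneg (max 0 y)), abs_of_nonneg (sq_nonneg |y|), sq_abs]
      rcases le_total y 0 with hy | hy
      · rw [max_eq_left hy]; nlinarith [sq_nonneg y]
      · rw [max_eq_right hy]
    have h2 := (Asymptotics.IsBigO.hasFDerivAt h1 (by norm_num)).hasDerivAt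
    simpa using h2
  · have h1 : (fun y : ℝ => (max 0 y) ^ 2) =ᶠ[𝓝 x] fun y => y ^ 2 := by
      filter_upwards [Ioi_mem_nhds h] with y hy
      rw [max_eq_right (le_of_lt hy)]
    rw [max_eq_right h.le]
    have h2 := hasDerivAt_pow 2 x
    refine (HasDerivAt.congr_of_eventuallyEq ?_ h1)
    simpa using h2

/-- `∫_a^b max 0 (c - k x) dx` -/
theorem integral_hinge (a b c k : ℝ) (hk : k ≠ 0) :
    ∫ x in a..b, max 0 (c - k * x) =
      ((max 0 (c - k * a)) ^ 2 - (max 0 (c - k * b)) ^ 2) / (2 * k) := by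
  have hd : ∀ x ∈ Set.uIcc a b, HasDerivAt (fun y : ℝ => -((max 0 (c - k * y)) ^ 2) / (2 * k))
      (max 0 (c - k * x)) x := by
    intro x _
    have h1 : HasDerivAt (fun y : ℝ => c - k * y) (-k) x := by
      simpa using ((hasDerivAt_id x).const_mul k).const_sub c
    have h2 := ((hasDerivAt_max_sq (c - k * x)).comp x h1).neg.div_const (2 * k)
    refine h2.congr_deriv ?_
    field_simp
  rw [intervalIntegral.integral_eq_sub_of_hasDerivAt hd
    (Continuous.intervalIntegrable (by fun_prop) _ _)]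
  ring

end Pool.Agent.Z5
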