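import Pool.Agent.Z5.SF

/-!
# Irrationality of `ζ(5)`: the per-prime lower bounds (interface between the `p`-adic part and the
sum over primes)

`N = L + 1 = 6 p`, `n₀ = ν = 5 p`, `m₃ = 8 p`; `v q` is a lower bound of (or equal to) the `q`-adic
valuation of the determinant of the dual matrix.
-/

open Finset

namespace Pool.Agent.Z5

/-- `∏_{a < 8p} (2a)! (∏_{a < 5p} (2a)!)^2` -/
def RR (p : ℕ) : ℕ := SF (8 * p) * SF (5 * p) ^ 2

/-- The lower bounds of `Z5_SKETCH.md`, sections 2, 4, 5. -/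
structure PBounds (C : ℝ) (p : ℕ) (v : ℕ → ℤ) : Prop where
  /-- primes beyond `m₃` -/
  big : ∀ q : ℕ, q.Prime → 8 * p ≤ q → 0 ≤ v q
  /-- range A -/
  rA : ∀ q : ℕ, q.Prime → 6 * p < q → q < 8 * p → (8 * p - q : ℝ) - C ≤ v q
  /-- range B -/
  rB : ∀ q : ℕ, q.Prime → 3 * p < q → q ≤ 6 * p →
    (-3 * (6 * p - q) + (8 * p - q) + max (5 * p - q) 0 : ℝ) - C ≤ v q
  /-- range C -/
  rC : ∀ q : ℕ, q.Prime → 5 * p < 2 * q → q ≤ 3 * p →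
    (-3 * (3 * q - 6 * p) + 4 * (3 * p - q) + (5 * q - 10 * p) + max (5 * q - 13 * p) 0 : ℝ) - C ≤ v q
  /-- range D: all primes with `6 p < q ^ 2`, `q ≤ 3 p`, one bound for every `j` -/
  rD : ∀ q : ℕ, q.Prime → 6 * p < q ^ 2 → q ≤ 3 * p → ∀ j : ℕ, 1 ≤ j → ¬ 3 ∣ j →
    j < 3 * (6 * p / q) →
    (p * (36 * (6 * p / q : ℕ) + 4 * j - 31)
      - q * (3 * (6 * p / q : ℕ) * ((6 * p / q : ℕ) + 1) + 2 / 3 * ((j : ℝ) ^ 2 - 1)) : ℝ)
      - C * (6 * p / q + 1) ^ 2 ≤ v q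
  /-- small primes -/
  small : ∀ q : ℕ, q.Prime → q ^ 2 ≤ 6 * p →
    ((padicValNat q (RR p) : ℝ) + if q = 2 then 114 * (p : ℝ) ^ 2 else 0) * Real.log q
      - C * p * Real.log p ≤ v q * Real.log q

end Pool.Agent.Z5
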