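import Mathlib
import Pool.Agent.Z5.PadicSF
import Pool.Agent.Z5.Hinge
import Pool.Agent.Z5.PBounds

/-!
# Per-prime gaps `v_q(R) - v_q(det M)`, section 6 of the sketch

`N = 6 p`, `R = SF (8 p) * SF (5 p) ^ 2`.
-/

open Finset

namespace Pool.Agent.Z5

theorem padicRR_pos (p : ℕ) : 0 < RR p := mul_pos (SF_pos _) (pow_pos (SF_pos _) _)

/-! ### upper bounds of `v_q(R)` -/

/-- the hinge form of `v_q(R) / p` at `x = q / p`, `x ≥ 1 / 3` -/
noncomputable def VRx (x : ℝ) : ℝ :=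
  ∑ k ∈ Icc (1 : ℕ) 48, max 0 (8 - (k : ℝ) / 2 * x)
    + 2 * ∑ k ∈ Icc (1 : ℕ) 30, max 0 (5 - (k : ℝ) / 2 * x)

theorem padicVal_RR (p q : ℕ) [hq : Fact q.Prime] :
    padicValNat q (RR p) = padicValNat q (SF (8 * p)) + 2 * padicValNat q (SF (5 * p)) := by
  unfold RR
  rw [padicValNat.mul (SF_pos _).ne' (pow_pos (SF_pos _) _).ne', padicValNat.pow]

theorem padicVal_RR_le (p q : ℕ) [hq : Fact q.Prime] (hp : 0 < p) (h : 16 * p ≤ q ^ 2)
    (h3 : p < 3 * q) : (padicValNat q (RR p) : ℝ) ≤ p * VRx ((q : ℝ) / p) := by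
  have hpR : (0 : ℝ) < p := by exact_mod_cast hp
  have hcube : q ^ 2 ≤ q ^ 3 := Nat.pow_le_pow_right hq.out.pos (by norm_num)
  rw [padicVal_RR]
  push_cast
  have h8 := padicVal_SF_le (q := q) (8 * p) 48 0 (by omega) (by omega) (by omega)
  have h5 := padicVal_SF_le (q := q) (5 * p) 30 0 (by omega) (by omega) (by omega)
  rw [Nat.cast_zero, zero_mul, add_zero] at h8 h5
  have e8 : ∑ k ∈ Icc (1 : ℕ) 48, max 0 (((8 * p : ℕ) : ℝ) - (k : ℝ) * q / 2) =
      p * ∑ k ∈ Icc (1 : ℕ) 48, max 0 (8 - (k : ℝ) / 2 * ((q : ℝ) / p)) := by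
    rw [Finset.mul_sum]
    refine Finset.sum_congr rfl fun k _ => ?_
    rw [mul_max_of_nonneg _ _ hpR.le, mul_zero]
    congr 1
    push_cast
    field_simp
  have e5 : ∑ k ∈ Icc (1 : ℕ) 30, max 0 (((5 * p : ℕ) : ℝ) - (k : ℝ) * q / 2) =
      p * ∑ k ∈ Icc (1 : ℕ) 30, max 0 (5 - (k : ℝ) / 2 * ((q : ℝ) / p)) := by
    rw [Finset.mul_sum]
    refine Finset.sum_congr rfl fun k _ => ?_
    rw [mul_max_of_nonneg _ _ hpR.le, mul_zero]
    congr 1
    push_cast
    field_simp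
  rw [e8] at h8
  rw [e5] at h5
  unfold VRx
  rw [mul_add]
  linarith

theorem padicVal_RR_le' (p q : ℕ) [hq : Fact q.Prime] (h : 6 * p < q ^ 2) (h3 : 3 ≤ q) :
    (padicValNat q (RR p) : ℝ) ≤ 114 * (p : ℝ) ^ 2 / q - 9 * p + 3 / 16 * q
      + (if q ^ 2 < 16 * p then 26 * (p : ℝ) else 0) := by
  have hcube : 3 * q ^ 2 ≤ q ^ 3 := by
    rw [pow_succ q 2, mul_comm]
    exact Nat.mul_le_mul_left _ h3
  rw [padicVal_RR]
  push_cast
  have e : (8 * (p : ℝ)) ^ 2 / q - 8 * p / 2 + q / 16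
      + 2 * ((5 * (p : ℝ)) ^ 2 / q - 5 * p / 2 + q / 16) =
      114 * (p : ℝ) ^ 2 / q - 9 * p + 3 / 16 * q := by ring
  split_ifs with h16
  · have h8 := padicVal_SF_le' (q := q) (8 * p) 2 (by omega) (by omega)
    have h5 := padicVal_SF_le' (q := q) (5 * p) 1 (by omega) (by omega)
    push_cast at h8 h5
    linarith
  · have h8 := padicVal_SF_le' (q := q) (8 * p) 0 (by omega) (by omega)
    have h5 := padicVal_SF_le' (q := q) (5 * p) 0 (by omega) (by omega)
    push_cast at h8 h5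
    linarith

/-! ### the tail -/

theorem exists_j {y : ℝ} (hy : 2 ≤ y) : ∃ j : ℕ, 1 ≤ j ∧ j % 3 ≠ 0 ∧ |y / 2 - j| ≤ 1 := by
  have h0 : (0 : ℝ) ≤ y / 2 := by linarith
  have h1 := Nat.floor_le h0
  have h2 := Nat.lt_floor_add_one (y / 2)
  have h3 : 1 ≤ ⌊y / 2⌋₊ := Nat.le_floor (by push_cast; linarith)
  by_cases h : ⌊y / 2⌋₊ % 3 = 0
  · refine ⟨⌊y / 2⌋₊ + 1, by omega, by omega, ?_⟩
    push_cast
    rw [abs_le]
    constructor <;> linarith
  · refine ⟨⌊y / 2⌋₊, h3, h, ?_⟩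
    rw [abs_le]
    constructor <;> linarith

variable {v : ℕ → ℤ} {C : ℝ} {p : ℕ}

theorem gap_tail (H : PBounds C p v) {q : ℕ} (hq : q.Prime)
    (h : 6 * p < q ^ 2) (h3 : 3 * q ≤ p) :
    (padicValNat q (RR p) : ℝ) - v q ≤ 3 / 16 * q + 40 * p
      + (C * (6 * (p : ℝ) / q + 1) ^ 2 + (if q ^ 2 < 16 * p then 26 * (p : ℝ) else 0)) := by
  have : Fact q.Prime := ⟨hq⟩
  have hq0 : 0 < q := hq.pos
  have hqR : (0 : ℝ) < q := by exact_mod_cast hq0
  have h3R : 3 * (q : ℝ) ≤ p := by exact_mod_cast h3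
  set k : ℕ := 6 * p / q with hk
  have hk1 : k * q ≤ 6 * p := Nat.div_mul_le_self _ _
  have hk2 : 6 * p < (k + 1) * q := Nat.lt_mul_of_div_lt (Nat.lt_succ_self _) hq0
  have hk1R : (k : ℝ) * q ≤ 6 * p := by exact_mod_cast hk1
  have hk2R : 6 * (p : ℝ) < (k + 1) * q := by exact_mod_cast hk2
  have hk18 : 18 ≤ k := by
    rw [hk, Nat.le_div_iff_mul_le hq0]
    omega
  have hy : (2 : ℝ) ≤ 6 * p / q := by
    rw [le_div_iff₀ hqR]
    linarith
  obtain ⟨j, hj1, hj3, hjy⟩ := exists_j hy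
  have hjq : |3 * (p : ℝ) - j * q| ≤ q := by
    have e : 3 * (p : ℝ) - j * q = q * (6 * p / q / 2 - j) := by
      field_simp
      ring
    rw [e, abs_mul, abs_of_pos hqR]
    calc (q : ℝ) * |6 * (p : ℝ) / q / 2 - j| ≤ q * 1 := by gcongr
      _ = q := mul_one _
  have hj6 : j < 3 * k := by
    have h1 : (j : ℝ) * q ≤ 3 * p + q := by
      have := (abs_le.1 hjq).1
      linarith
    have h2 : (2 * j : ℝ) * q < (k + 3) * q := by
      nlinarith
    have h3 : (2 * j : ℝ) < k + 3 := lt_of_mul_lt_mul_right h2 hqR.le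
    have h4 : 2 * j < k + 3 := by exact_mod_cast h3
    omega
  have hD := H.rD q hq h (by omega) j hj1 (fun hd => hj3 (Nat.mod_eq_zero_of_dvd hd)) hj6
  rw [← hk] at hD
  have hq3 : 3 ≤ q := by
    by_contra hc
    have h4 : q ≤ 2 := by omega
    have h5 : q ^ 2 ≤ 2 ^ 2 := Nat.pow_le_pow_left h4 2
    omega
  have hR := padicVal_RR_le' p q h hq3
  -- the algebra: multiply by `q`
  have key : (p : ℝ) * (36 * k + 4 * j - 31)
      - q * (3 * k * (k + 1) + 2 / 3 * ((j : ℝ) ^ 2 - 1)) =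
      114 * (p : ℝ) ^ 2 / q - 49 * p
        + (3 * ((6 * p - k * q) * ((k + 1) * q - 6 * p))
          + 2 / 3 * (q ^ 2 - (3 * p - j * q) ^ 2)) / q := by
    field_simp
    ring
  have h1 : 0 ≤ (6 * (p : ℝ) - k * q) * ((k + 1) * q - 6 * p) :=
    mul_nonneg (by linarith) (by linarith)
  have h2 : 0 ≤ (q : ℝ) ^ 2 - (3 * p - j * q) ^ 2 := by
    have := sq_abs (3 * (p : ℝ) - j * q)
    have h4 : |3 * (p : ℝ) - j * q| ^ 2 ≤ (q : ℝ) ^ 2 := by gcongr
    linarith
  have h5 : 0 ≤ (3 * ((6 * (p : ℝ) - k * q) * ((k + 1) * q - 6 * p))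
          + 2 / 3 * (q ^ 2 - (3 * p - j * q) ^ 2)) / q := by positivity
  rw [key] at hD
  linarith

/-! ### the main ranges -/

/-- lower bound of `v / p` on `[1 / 3, 5 / 2]` -/
noncomputable def LB1 (x : ℝ) : ℝ :=
  6 * ∑ i ∈ Icc (1 : ℕ) 18, max 0 (6 - (i : ℝ) * x) + (4 + 2 * max 0 (2 - 1 * x) + 8 * max 0 (1 - 1 * x)
    + 6 * max 0 (2 / 3 - 1 * x) + 16 * max 0 (1 / 2 - 1 * x) + 10 * max 0 (2 / 5 - 1 * x)) - 31

theorem exists_j1 {x : ℝ} (h1 : 1 / 3 ≤ x) (h2 : x ≤ 5 / 2) : ∃ j : ℕ, 1 ≤ j ∧ j % 3 ≠ 0 ∧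
    (2 * j + 1 : ℝ) ≤ 6 * (6 / x - 1) ∧
    4 + 2 * max 0 (2 - 1 * x) + 8 * max 0 (1 - 1 * x)
    + 6 * max 0 (2 / 3 - 1 * x) + 16 * max 0 (1 / 2 - 1 * x) + 10 * max 0 (2 / 5 - 1 * x)
      = 4 * j - 2 / 3 * ((j : ℝ) ^ 2 - 1) * x := by
  have hx : 0 < x := by linarith
  have hx6 : ∀ c : ℝ, c * x ≤ 36 → c ≤ 6 * (6 / x) := by
    intro c hc
    rw [mul_div_assoc', le_div_iff₀ hx]
    linarith
  rcases le_total 2 x with h | h
  · refine ⟨1, by norm_num, by norm_num, ?_, ?_⟩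
    · have := hx6 9 (by linarith)
      push_cast; linarith
    · rw [max_eq_left (by linarith), max_eq_left (by linarith), max_eq_left (by linarith),
        max_eq_left (by linarith), max_eq_left (by linarith)]
      push_cast; ring
  rcases le_total 1 x with h' | h'
  · refine ⟨2, by norm_num, by norm_num, ?_, ?_⟩
    · have := hx6 11 (by linarith)
      push_cast; linarith
    · rw [max_eq_right (by linarith), max_eq_left (by linarith), max_eq_left (by linarith),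
        max_eq_left (by linarith), max_eq_left (by linarith)]
      push_cast; ring
  rcases le_total (2 / 3) x with h'' | h''
  · refine ⟨4, by norm_num, by norm_num, ?_, ?_⟩
    · have := hx6 15 (by linarith)
      push_cast; linarith
    · rw [max_eq_right (by linarith), max_eq_right (by linarith), max_eq_left (by linarith),
        max_eq_left (by linarith), max_eq_left (by linarith)]
      push_cast; ring
  rcases le_total (1 / 2) x with h3 | h3
  · refine ⟨5, by norm_num, by norm_num, ?_, ?_⟩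
    · have := hx6 17 (by linarith)
      push_cast; linarith
    · rw [max_eq_right (by linarith), max_eq_right (by linarith), max_eq_right (by linarith),
        max_eq_left (by linarith), max_eq_left (by linarith)]
      push_cast; ring
  rcases le_total (2 / 5) x with h4 | h4
  · refine ⟨7, by norm_num, by norm_num, ?_, ?_⟩
    · have := hx6 21 (by linarith)
      push_cast; linarith
    · rw [max_eq_right (by linarith), max_eq_right (by linarith), max_eq_right (by linarith),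
        max_eq_right (by linarith), max_eq_left (by linarith)]
      push_cast; ring
  · refine ⟨8, by norm_num, by norm_num, ?_, ?_⟩
    · have := hx6 23 (by linarith)
      push_cast; linarith
    · rw [max_eq_right (by linarith), max_eq_right (by linarith), max_eq_right (by linarith),
        max_eq_right (by linarith), max_eq_right (by linarith)]
      push_cast; ring

theorem low_D (H : PBounds C p v) {q : ℕ} (hp1 : 0 < p) (hq : q.Prime)
    (h : 6 * p < q ^ 2) (h3 : p < 3 * q) (h5 : 2 * q ≤ 5 * p) :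
    p * LB1 ((q : ℝ) / p) - C * (6 * (p : ℝ) / q + 1) ^ 2 ≤ v q := by
  have hq0 : 0 < q := hq.pos
  have hqR : (0 : ℝ) < q := by exact_mod_cast hq0
  have hpR : (0 : ℝ) < p := by exact_mod_cast hp1
  have h3R : (p : ℝ) < 3 * q := by exact_mod_cast h3
  have h5R : 2 * (q : ℝ) ≤ 5 * p := by exact_mod_cast h5
  obtain ⟨j, hj1, hj3, hj6, hj⟩ := exists_j1 (x := (q : ℝ) / p)
    (by rw [le_div_iff₀ hpR]; linarith) (by rw [div_le_iff₀ hpR]; linarith)
  set k : ℕ := 6 * p / q with hk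
  have hk2 : 6 * p < (k + 1) * q := Nat.lt_mul_of_div_lt (Nat.lt_succ_self _) hq0
  have hk2R : 6 * (p : ℝ) < (k + 1) * q := by exact_mod_cast hk2
  have hk18 : k ≤ 18 := by
    have : k < 18 := by
      rw [hk, Nat.div_lt_iff_lt_mul hq0]
      omega
    omega
  have hj6' : j < 3 * k := by
    have e : (6 : ℝ) / ((q : ℝ) / p) = 6 * p / q := by field_simp
    rw [e] at hj6
    have h6 : 6 * (p : ℝ) / q < k + 1 := by rw [div_lt_iff₀ hqR]; exact hk2R
    have h7 : (2 * j + 1 : ℝ) < 6 * k := by linarith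
    have h8 : 2 * j + 1 < 6 * k := by exact_mod_cast h7
    omega
  have hD := H.rD q hq h (by omega) j hj1 (fun hd => hj3 (Nat.mod_eq_zero_of_dvd hd)) hj6'
  rw [← hk] at hD
  have hs := sum_hinge_floor (6 * p) q 18 hq0 (by rw [← hk]; exact hk18)
  rw [← hk] at hs
  have e1 : ∑ i ∈ Icc (1 : ℕ) 18, max 0 (((6 * p : ℕ) : ℝ) - (i : ℝ) * q) =
      p * ∑ i ∈ Icc (1 : ℕ) 18, max 0 (6 - (i : ℝ) * ((q : ℝ) / p)) := by
    rw [Finset.mul_sum]
    refine Finset.sum_congr rfl fun i _ => ?_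
    rw [mul_max_of_nonneg _ _ hpR.le, mul_zero]
    congr 1
    push_cast
    field_simp
  rw [e1] at hs
  push_cast at hs
  unfold LB1
  rw [hj]
  have e2 : ∀ S : ℝ, (p : ℝ) * (6 * S + (4 * j - 2 / 3 * ((j : ℝ) ^ 2 - 1) * ((q : ℝ) / p)) - 31) =
      6 * (p * S) + 4 * j * p - 2 / 3 * ((j : ℝ) ^ 2 - 1) * q - 31 * p := by
    intro S
    field_simp
    ring
  rw [e2, hs]
  linarith

end Pool.Agent.Z5
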