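import Mathlib
import Pool.Agent.PNT.Main

set_option autoImplicit false

/-!
# Sums over primes of continuous functions of `p / n`, from the prime number theorem
-/

open Finset Filter Topology

namespace Pool.Agent.Z5

/-- `θ (c n) / n → c` -/
theorem tendsto_theta_mul (c : ℝ) (hc : 0 ≤ c) :
    Tendsto (fun n : ℕ => Chebyshev.theta (c * n) / n) atTop (𝓝 c) := by
  rcases hc.eq_or_lt with rfl | hc
  · simp [Chebyshev.theta]
  · have h1 := Pool.Agent.PNT.tendsto_theta_div
    have h2 : Tendsto (fun n : ℕ => c * (n : ℝ)) atTop atTop :=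
      tendsto_natCast_atTop_atTop.const_mul_atTop hc
    have h3 := (h1.comp h2).mul_const c
    rw [one_mul] at h3
    refine h3.congr' ?_
    filter_upwards [eventually_gt_atTop 0] with n hn
    have : (n : ℝ) ≠ 0 := by positivity
    simp only [Function.comp]
    field_simp

/-- the weight of an integer -/
noncomputable def lp (k : ℕ) : ℝ := if k.Prime then Real.log k else 0

theorem lp_nonneg (k : ℕ) : 0 ≤ lp k := by
  unfold lp
  split_ifs
  · exact Real.log_natCast_nonneg k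
  · exact le_rfl

theorem sum_lp (a b : ℝ) (hab : a ≤ b) :
    ∑ k ∈ Finset.Ioc ⌊a⌋₊ ⌊b⌋₊, lp k = Chebyshev.theta b - Chebyshev.theta a := by
  have hfl : ⌊a⌋₊ ≤ ⌊b⌋₊ := Nat.floor_le_floor hab
  have h : ∀ x : ℝ, Chebyshev.theta x = ∑ k ∈ Finset.Ioc 0 ⌊x⌋₊, lp k := by
    intro x
    unfold Chebyshev.theta lp
    rw [Finset.sum_filter]
  rw [h, h, ← Finset.sum_Ioc_consecutive _ (Nat.zero_le _) hfl]
  ring

/-- the main limit -/
theorem tendsto_sum_primes (a b : ℝ) (ha : 0 ≤ a) (hab : a ≤ b) (g : ℝ → ℝ)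
    (hg : ContinuousOn g (Set.Icc a b)) :
    Tendsto (fun n : ℕ => (∑ k ∈ Finset.Ioc ⌊a * n⌋₊ ⌊b * n⌋₊, g (k / n) * lp k) / n) atTop
      (𝓝 (∫ x in a..b, g x)) := by
  rcases hab.eq_or_lt with rfl | hlt
  · simp
  rw [Metric.tendsto_atTop]
  intro δ hδ
  have hba : 0 < b - a := sub_pos.2 hlt
  set ε : ℝ := δ / (4 * (b - a)) with hε
  have hε0 : 0 < ε := by positivity
  have hunif := isCompact_Icc.uniformContinuousOn_of_continuous hg
  rw [Metric.uniformContinuousOn_iff] at hunif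
  obtain ⟨η, hη, hunif⟩ := hunif ε hε0
  obtain ⟨N, hN⟩ := exists_nat_gt ((b - a) / η)
  have hN0 : 0 < N := by
    have : (0 : ℝ) < N := lt_trans (by positivity) hN
    exact_mod_cast this
  have hNr : (0 : ℝ) < N := by exact_mod_cast hN0
  set c : ℕ → ℝ := fun i => a + i * ((b - a) / N) with hc
  have hstep : (b - a) / N < η := by
    rw [div_lt_iff₀ hNr]
    rw [div_lt_iff₀ hη] at hN
    linarith
  have hstep0 : 0 < (b - a) / N := by positivity
  have hc0 : c 0 = a := by simp [hc]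
  have hcN : c N = b := by
    simp only [hc]
    field_simp
    ring
  have hcs : ∀ i, c (i + 1) = c i + (b - a) / N := by
    intro i
    simp only [hc]
    push_cast
    ring
  have hcm : Monotone c := monotone_nat_of_le_succ fun i => by
    rw [hcs]
    linarith
  have hcge : ∀ i, a ≤ c i := fun i => by
    rw [← hc0]
    exact hcm (Nat.zero_le i)
  have hcle : ∀ i, i ≤ N → c i ≤ b := fun i hi => by
    rw [← hcN]
    exact hcm hi
  -- the Riemann sum
  have hR : |∑ i ∈ Finset.range N, g (c i) * (c (i + 1) - c i) - ∫ x in a..b, g x| ≤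
      ε * (b - a) := by
    have hint : ∀ i, i < N → IntervalIntegrable g MeasureTheory.volume (c i) (c (i + 1)) := by
      intro i hi
      apply ContinuousOn.intervalIntegrable
      rw [Set.uIcc_of_le (hcm (Nat.le_succ i))]
      exact hg.mono (Set.Icc_subset_Icc (hcge i) (hcle _ hi))
    have h1 : ∫ x in a..b, g x = ∑ i ∈ Finset.range N, ∫ x in (c i)..(c (i + 1)), g x := by
      rw [intervalIntegral.sum_integral_adjacent_intervals hint, hc0, hcN]
    rw [h1, ← Finset.sum_sub_distrib]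
    have h2 : ∀ i ∈ Finset.range N, |g (c i) * (c (i + 1) - c i) - ∫ x in (c i)..(c (i + 1)), g x| ≤
        ε * (c (i + 1) - c i) := by
      intro i hi
      have hi' := Finset.mem_range.1 hi
      have h3 : g (c i) * (c (i + 1) - c i) = ∫ _x in (c i)..(c (i + 1)), g (c i) := by
        rw [intervalIntegral.integral_const, smul_eq_mul, mul_comm]
      rw [h3, ← intervalIntegral.integral_sub intervalIntegrable_const (hint i hi')]
      have h4 := intervalIntegral.norm_integral_le_of_norm_le_const (a := c i) (b := c (i + 1))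
        (f := fun x => g (c i) - g x) (C := ε) ?_
      · rw [Real.norm_eq_abs] at h4
        rw [abs_of_nonneg (sub_nonneg.2 (hcm (Nat.le_succ i)))] at h4
        exact h4
      · intro x hx
        rw [Set.uIoc_of_le (hcm (Nat.le_succ i))] at hx
        rw [← dist_eq_norm]
        refine (hunif (c i) ⟨hcge i, hcle i hi'.le⟩ x ⟨(hcge i).trans hx.1.le,
          hx.2.trans (hcle _ hi')⟩ ?_).le
        rw [dist_comm, Real.dist_eq, abs_of_nonneg (sub_nonneg.2 hx.1.le)]
        have := hx.2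
        rw [hcs] at this
        linarith
    calc _ ≤ ∑ i ∈ Finset.range N, |g (c i) * (c (i + 1) - c i) - ∫ x in (c i)..(c (i + 1)), g x| :=
          Finset.abs_sum_le_sum_abs _ _
      _ ≤ ∑ i ∈ Finset.range N, ε * (c (i + 1) - c i) := Finset.sum_le_sum h2
      _ = ε * (b - a) := by
          rw [← Finset.mul_sum, Finset.sum_range_sub, hc0, hcN]
  -- the prime sums with `g` replaced by a step function
  have hT : Tendsto (fun n : ℕ => ∑ i ∈ Finset.range N,
      g (c i) * ((Chebyshev.theta (c (i + 1) * n) / n) - (Chebyshev.theta (c i * n) / n))) atTop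
      (𝓝 (∑ i ∈ Finset.range N, g (c i) * (c (i + 1) - c i))) := by
    refine tendsto_finsetSum _ fun i _ => ?_
    exact ((tendsto_theta_mul _ (ha.trans (hcge _))).sub
      (tendsto_theta_mul _ (ha.trans (hcge _)))).const_mul _
  have hT2 : Tendsto (fun n : ℕ => (Chebyshev.theta (b * n) / n) - (Chebyshev.theta (a * n) / n))
      atTop (𝓝 (b - a)) :=
    (tendsto_theta_mul _ (ha.trans hab)).sub (tendsto_theta_mul _ ha)
  have e1 := (Metric.tendsto_atTop.1 hT) (δ / 8) (by positivity)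
  have e2 := (Metric.tendsto_atTop.1 hT2) (b - a) hba
  obtain ⟨n1, h1⟩ := e1
  obtain ⟨n2, h2⟩ := e2
  refine ⟨max (max n1 n2) 1, fun n hn => ?_⟩
  have hn1 : n1 ≤ n := le_trans (le_trans (le_max_left _ _) (le_max_left _ _)) hn
  have hn2 : n2 ≤ n := le_trans (le_trans (le_max_right _ _) (le_max_left _ _)) hn
  have hn3 : 1 ≤ n := le_trans (le_max_right _ _) hn
  have hnr : (0 : ℝ) < n := by exact_mod_cast hn3
  specialize h1 n hn1
  specialize h2 n hn2
  rw [Real.dist_eq] at h1 h2 ⊢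
  -- decomposition of the sum
  have hfl : ∀ i, ⌊c i * n⌋₊ ≤ ⌊c (i + 1) * n⌋₊ := fun i =>
    Nat.floor_le_floor (mul_le_mul_of_nonneg_right (hcm (Nat.le_succ i)) hnr.le)
  have hdec : ∀ (f : ℕ → ℝ) (j : ℕ), ∑ i ∈ Finset.range j, ∑ k ∈ Finset.Ioc ⌊c i * n⌋₊ ⌊c (i + 1) * n⌋₊, f k
      = ∑ k ∈ Finset.Ioc ⌊c 0 * n⌋₊ ⌊c j * n⌋₊, f k := by
    intro f j
    induction j with
    | zero => simp
    | succ j ih =>
      rw [Finset.sum_range_succ, ih]
      apply Finset.sum_Ioc_consecutive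
      · exact Nat.floor_le_floor (mul_le_mul_of_nonneg_right (hcm (Nat.zero_le j)) hnr.le)
      · exact hfl j
  have hmain : |(∑ k ∈ Finset.Ioc ⌊a * n⌋₊ ⌊b * n⌋₊, g (k / n) * lp k) -
      ∑ i ∈ Finset.range N, g (c i) * (Chebyshev.theta (c (i + 1) * n) - Chebyshev.theta (c i * n))|
      ≤ ε * (Chebyshev.theta (b * n) - Chebyshev.theta (a * n)) := by
    have h3 := hdec (fun k => g (k / n) * lp k) N
    have h4 := hdec lp N
    rw [hc0, hcN] at h3 h4
    have hab' : a * n ≤ b * n := mul_le_mul_of_nonneg_right hab hnr.le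
    rw [← h3, ← Finset.sum_sub_distrib]
    rw [← sum_lp (a * n) (b * n) hab', ← h4, Finset.mul_sum]
    refine (Finset.abs_sum_le_sum_abs _ _).trans (Finset.sum_le_sum fun i hi => ?_)
    have hi' := Finset.mem_range.1 hi
    rw [← sum_lp (c i * n) (c (i + 1) * n)
      (mul_le_mul_of_nonneg_right (hcm (Nat.le_succ i)) hnr.le), Finset.mul_sum,
      ← Finset.sum_sub_distrib, Finset.mul_sum]
    refine (Finset.abs_sum_le_sum_abs _ _).trans (Finset.sum_le_sum fun k hk => ?_)
    rw [← sub_mul, abs_mul, abs_of_nonneg (lp_nonneg k)]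
    refine mul_le_mul_of_nonneg_right ?_ (lp_nonneg k)
    rw [Finset.mem_Ioc] at hk
    have hk1 : c i * n < k := by
      have := hk.1
      exact (Nat.floor_lt (mul_nonneg (ha.trans (hcge i)) hnr.le)).1 this
    have hk2 : (k : ℝ) ≤ c (i + 1) * n :=
      (Nat.le_floor_iff (mul_nonneg (ha.trans (hcge _)) hnr.le)).1 hk.2
    have hk1' : c i < k / n := by rwa [lt_div_iff₀ hnr]
    have hk2' : (k : ℝ) / n ≤ c (i + 1) := by rwa [div_le_iff₀ hnr]
    have := (hunif (k / n) ⟨(hcge i).trans hk1'.le, hk2'.trans (hcle _ hi')⟩ (c i)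
      ⟨hcge i, hcle i hi'.le⟩ ?_).le
    · rwa [Real.dist_eq] at this
    · rw [Real.dist_eq, abs_of_nonneg (sub_nonneg.2 hk1'.le)]
      rw [hcs] at hk2'
      linarith
  -- conclusion
  have h5 : |(∑ k ∈ Finset.Ioc ⌊a * n⌋₊ ⌊b * n⌋₊, g (k / n) * lp k) / n -
      ∑ i ∈ Finset.range N,
      g (c i) * ((Chebyshev.theta (c (i + 1) * n) / n) - (Chebyshev.theta (c i * n) / n))|
      ≤ ε * ((Chebyshev.theta (b * n) / n) - (Chebyshev.theta (a * n) / n)) := by
    have e : (∑ k ∈ Finset.Ioc ⌊a * n⌋₊ ⌊b * n⌋₊, g (k / n) * lp k) / n -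
      ∑ i ∈ Finset.range N,
      g (c i) * ((Chebyshev.theta (c (i + 1) * n) / n) - (Chebyshev.theta (c i * n) / n)) =
      ((∑ k ∈ Finset.Ioc ⌊a * n⌋₊ ⌊b * n⌋₊, g (k / n) * lp k) -
      ∑ i ∈ Finset.range N, g (c i) * (Chebyshev.theta (c (i + 1) * n) -
        Chebyshev.theta (c i * n))) / n := by
      rw [sub_div]
      congr 1
      rw [Finset.sum_div]
      refine Finset.sum_congr rfl fun i _ => ?_
      ring
    rw [e, abs_div, abs_of_pos hnr, div_le_iff₀ hnr]
    refine hmain.trans_eq ?_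
    field_simp
  have h6 : (Chebyshev.theta (b * n) / n) - (Chebyshev.theta (a * n) / n) < 2 * (b - a) := by
    have := abs_lt.1 h2
    linarith
  have h7 : ε * ((Chebyshev.theta (b * n) / n) - (Chebyshev.theta (a * n) / n)) ≤ δ / 2 := by
    calc _ ≤ ε * (2 * (b - a)) := mul_le_mul_of_nonneg_left h6.le hε0.le
      _ = δ / 2 := by
        rw [hε]
        field_simp
        ring
  have h8 : ε * (b - a) = δ / 4 := by
    rw [hε]
    field_simp
  rw [h8] at hR
  have a1 := abs_le.1 h5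
  have a2 := abs_lt.1 h1
  have a3 := abs_le.1 hR
  rw [abs_lt]
  constructor <;> linarith [a1.1, a1.2, a2.1, a2.2, a3.1, a3.2]

/-- linear weights -/
theorem tendsto_sum_primes_linear (a b α β : ℝ) (ha : 0 ≤ a) (hab : a ≤ b) :
    Tendsto (fun n : ℕ => (∑ k ∈ Finset.Ioc ⌊a * n⌋₊ ⌊b * n⌋₊, (α * k + β * n) * lp k) / n ^ 2) atTop
      (𝓝 (α * (b ^ 2 - a ^ 2) / 2 + β * (b - a))) := by
  have h := tendsto_sum_primes a b ha hab (fun x => α * x + β) (by fun_prop)
  have hI : ∫ x in a..b, (α * x + β) = α * (b ^ 2 - a ^ 2) / 2 + β * (b - a) := by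
    have c1 : IntervalIntegrable (fun x : ℝ => α * x) MeasureTheory.volume a b :=
      Continuous.intervalIntegrable (by fun_prop) a b
    rw [intervalIntegral.integral_add c1 intervalIntegrable_const,
      intervalIntegral.integral_const_mul, integral_id, intervalIntegral.integral_const, smul_eq_mul]
    ring
  rw [hI] at h
  refine h.congr' ?_
  filter_upwards [eventually_gt_atTop 0] with n hn
  have hn0 : (n : ℝ) ≠ 0 := by positivity
  rw [div_eq_div_iff hn0 (pow_ne_zero 2 hn0), Finset.sum_mul, Finset.sum_mul]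
  refine Finset.sum_congr rfl fun k _ => ?_
  field_simp

/-- the small primes, weight `n` -/
theorem sum_lp_small (x : ℝ) (hx : 0 ≤ x) : ∑ k ∈ Finset.Ioc 0 ⌊x⌋₊, lp k ≤ Real.log 4 * x := by
  have h := sum_lp 0 x hx
  have h0 : Chebyshev.theta 0 = 0 := by simp [Chebyshev.theta]
  rw [Nat.floor_zero, h0, sub_zero] at h
  rw [h]
  exact Chebyshev.theta_le_log4_mul_x hx

/-- the small primes, weight `p` -/
theorem sum_mul_lp_small (x : ℝ) (hx : 0 ≤ x) :
    ∑ k ∈ Finset.Ioc 0 ⌊x⌋₊, (k : ℝ) * lp k ≤ Real.log 4 * x ^ 2 := by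
  calc ∑ k ∈ Finset.Ioc 0 ⌊x⌋₊, (k : ℝ) * lp k ≤ ∑ k ∈ Finset.Ioc 0 ⌊x⌋₊, x * lp k := by
        refine Finset.sum_le_sum fun k hk => mul_le_mul_of_nonneg_right ?_ (lp_nonneg k)
        exact (Nat.le_floor_iff hx).1 (Finset.mem_Ioc.1 hk).2
    _ = x * ∑ k ∈ Finset.Ioc 0 ⌊x⌋₊, lp k := by rw [Finset.mul_sum]
    _ ≤ x * (Real.log 4 * x) := mul_le_mul_of_nonneg_left (sum_lp_small x hx) hx
    _ = Real.log 4 * x ^ 2 := by ring

end Pool.Agent.Z5
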