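import Mathlib
import Pool.Agent.Z5.PadicGap
import Pool.Agent.Z5.PrimeSums

/-!
# The sum over primes, section 6 of the sketch
-/

open Finset Filter Topology

namespace Pool.Agent.Z5

/-! ### the integrals -/

theorem integral_VRx : ∫ x in (1 / 3 : ℝ)..16, VRx x =
    ∑ k ∈ Icc (1 : ℕ) 48, ((max 0 (8 - (k : ℝ) / 2 * (1 / 3))) ^ 2
      - (max 0 (8 - (k : ℝ) / 2 * 16)) ^ 2) / (2 * ((k : ℝ) / 2))
    + 2 * ∑ k ∈ Icc (1 : ℕ) 30, ((max 0 (5 - (k : ℝ) / 2 * (1 / 3))) ^ 2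
      - (max 0 (5 - (k : ℝ) / 2 * 16)) ^ 2) / (2 * ((k : ℝ) / 2)) := by
  unfold VRx
  rw [intervalIntegral.integral_add (Continuous.intervalIntegrable (by fun_prop) _ _)
    (Continuous.intervalIntegrable (by fun_prop) _ _),
    intervalIntegral.integral_const_mul,
    intervalIntegral.integral_finsetSum
      (fun k _ => Continuous.intervalIntegrable (by fun_prop) _ _),
    intervalIntegral.integral_finsetSum
      (fun k _ => Continuous.intervalIntegrable (by fun_prop) _ _)]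
  congr 1
  · refine Finset.sum_congr rfl fun k hk => ?_
    have : (0 : ℝ) < k := by
      have := (Finset.mem_Icc.1 hk).1
      positivity
    rw [integral_hinge _ _ _ _ (by positivity : (0 : ℝ) < _).ne']
  · congr 1
    refine Finset.sum_congr rfl fun k hk => ?_
    have : (0 : ℝ) < k := by
      have := (Finset.mem_Icc.1 hk).1
      positivity
    rw [integral_hinge _ _ _ _ (by positivity : (0 : ℝ) < _).ne']

theorem cV_le : ∫ x in (1 / 3 : ℝ)..16, VRx x ≤ 315.612376 := by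
  rw [integral_VRx]
  have e : (∑ k ∈ Icc (1 : ℕ) 48, ((max 0 (8 - (k : ℝ) / 2 * (1 / 3))) ^ 2
      - (max 0 (8 - (k : ℝ) / 2 * 16)) ^ 2) / (2 * ((k : ℝ) / 2))
    + 2 * ∑ k ∈ Icc (1 : ℕ) 30, ((max 0 (5 - (k : ℝ) / 2 * (1 / 3))) ^ 2
      - (max 0 (5 - (k : ℝ) / 2 * 16)) ^ 2) / (2 * ((k : ℝ) / 2))) =
    ((∑ k ∈ Icc (1 : ℕ) 48, ((max 0 (8 - (k : ℚ) / 2 * (1 / 3))) ^ 2
      - (max 0 (8 - (k : ℚ) / 2 * 16)) ^ 2) / (2 * ((k : ℚ) / 2))
    + 2 * ∑ k ∈ Icc (1 : ℕ) 30, ((max 0 (5 - (k : ℚ) / 2 * (1 / 3))) ^ 2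
      - (max 0 (5 - (k : ℚ) / 2 * 16)) ^ 2) / (2 * ((k : ℚ) / 2)) : ℚ) : ℝ) := by
    push_cast
    rfl
  rw [e]
  have h : (∑ k ∈ Icc (1 : ℕ) 48, ((max 0 (8 - (k : ℚ) / 2 * (1 / 3))) ^ 2
      - (max 0 (8 - (k : ℚ) / 2 * 16)) ^ 2) / (2 * ((k : ℚ) / 2))
    + 2 * ∑ k ∈ Icc (1 : ℕ) 30, ((max 0 (5 - (k : ℚ) / 2 * (1 / 3))) ^ 2
      - (max 0 (5 - (k : ℚ) / 2 * 16)) ^ 2) / (2 * ((k : ℚ) / 2)) : ℚ) ≤ 315612376 / 1000000 := by
    decide +kernel
  have h2 : ((∑ k ∈ Icc (1 : ℕ) 48, ((max 0 (8 - (k : ℚ) / 2 * (1 / 3))) ^ 2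
      - (max 0 (8 - (k : ℚ) / 2 * 16)) ^ 2) / (2 * ((k : ℚ) / 2))
    + 2 * ∑ k ∈ Icc (1 : ℕ) 30, ((max 0 (5 - (k : ℚ) / 2 * (1 / 3))) ^ 2
      - (max 0 (5 - (k : ℚ) / 2 * 16)) ^ 2) / (2 * ((k : ℚ) / 2)) : ℚ) : ℝ) ≤
      ((315612376 / 1000000 : ℚ) : ℝ) := by exact_mod_cast h
  refine h2.trans (le_of_eq ?_)
  norm_num

theorem integral_LB1 : ∫ x in (1 / 3 : ℝ)..(5 / 2), LB1 x =
    6 * ∑ k ∈ Icc (1 : ℕ) 18, ((max 0 (6 - (k : ℝ) * (1 / 3))) ^ 2
      - (max 0 (6 - (k : ℝ) * (5 / 2))) ^ 2) / (2 * (k : ℝ))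
    + (4 * (5 / 2 - 1 / 3) + 2 * (((5 / 3 : ℝ)) ^ 2 / 2) + 8 * ((2 / 3 : ℝ) ^ 2 / 2)
      + 6 * ((1 / 3 : ℝ) ^ 2 / 2) + 16 * ((1 / 6 : ℝ) ^ 2 / 2) + 10 * ((1 / 15 : ℝ) ^ 2 / 2))
    - 31 * (5 / 2 - 1 / 3) := by
  have hc : ∀ c k : ℝ, Continuous fun x : ℝ => max 0 (c - k * x) := fun c k => by fun_prop
  have hi : ∀ f : ℝ → ℝ, Continuous f → IntervalIntegrable f MeasureTheory.volume (1 / 3) (5 / 2) :=
    fun f hf => hf.intervalIntegrable _ _
  unfold LB1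
  rw [intervalIntegral.integral_sub (hi _ (by fun_prop)) (hi _ (by fun_prop)),
    intervalIntegral.integral_add (hi _ (by fun_prop)) (hi _ (by fun_prop)),
    intervalIntegral.integral_add (hi _ (by fun_prop)) (hi _ (by fun_prop)),
    intervalIntegral.integral_add (hi _ (by fun_prop)) (hi _ (by fun_prop)),
    intervalIntegral.integral_add (hi _ (by fun_prop)) (hi _ (by fun_prop)),
    intervalIntegral.integral_add (hi _ (by fun_prop)) (hi _ (by fun_prop)),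
    intervalIntegral.integral_add (hi _ (by fun_prop)) (hi _ (by fun_prop)),
    intervalIntegral.integral_const_mul, intervalIntegral.integral_const_mul,
    intervalIntegral.integral_const_mul, intervalIntegral.integral_const_mul,
    intervalIntegral.integral_const_mul, intervalIntegral.integral_const_mul,
    intervalIntegral.integral_const, intervalIntegral.integral_const,
    intervalIntegral.integral_finsetSum (fun k _ => hi _ (by fun_prop)),
    integral_hinge _ _ _ _ one_ne_zero, integral_hinge _ _ _ _ one_ne_zero,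
    integral_hinge _ _ _ _ one_ne_zero, integral_hinge _ _ _ _ one_ne_zero,
    integral_hinge _ _ _ _ one_ne_zero]
  have e : ∑ k ∈ Icc (1 : ℕ) 18, ∫ x in (1 / 3 : ℝ)..(5 / 2), max 0 (6 - (k : ℝ) * x) =
      ∑ k ∈ Icc (1 : ℕ) 18, ((max 0 (6 - (k : ℝ) * (1 / 3))) ^ 2
      - (max 0 (6 - (k : ℝ) * (5 / 2))) ^ 2) / (2 * (k : ℝ)) := by
    refine Finset.sum_congr rfl fun k hk => ?_
    have : (0 : ℝ) < k := by
      have := (Finset.mem_Icc.1 hk).1
      positivity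
    rw [integral_hinge _ _ _ _ (by positivity : (0 : ℝ) < _).ne']
  rw [e]
  generalize (∑ k ∈ Icc (1 : ℕ) 18, ((max 0 (6 - (k : ℝ) * (1 / 3))) ^ 2
      - (max 0 (6 - (k : ℝ) * (5 / 2))) ^ 2) / (2 * (k : ℝ))) = S
  norm_num

theorem c1_ge : 126.855 ≤ ∫ x in (1 / 3 : ℝ)..(5 / 2), LB1 x := by
  rw [integral_LB1]
  have e : (∑ k ∈ Icc (1 : ℕ) 18, ((max 0 (6 - (k : ℝ) * (1 / 3))) ^ 2
      - (max 0 (6 - (k : ℝ) * (5 / 2))) ^ 2) / (2 * (k : ℝ))) =
    ((∑ k ∈ Icc (1 : ℕ) 18, ((max 0 (6 - (k : ℚ) * (1 / 3))) ^ 2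
      - (max 0 (6 - (k : ℚ) * (5 / 2))) ^ 2) / (2 * (k : ℚ)) : ℚ) : ℝ) := by
    push_cast
    rfl
  rw [e]
  have h : (30036945 / 1000000 : ℚ) ≤ (∑ k ∈ Icc (1 : ℕ) 18, ((max 0 (6 - (k : ℚ) * (1 / 3))) ^ 2
      - (max 0 (6 - (k : ℚ) * (5 / 2))) ^ 2) / (2 * (k : ℚ)) : ℚ) := by
    decide +kernel
  have h2 : ((30036945 / 1000000 : ℚ) : ℝ) ≤
      ((∑ k ∈ Icc (1 : ℕ) 18, ((max 0 (6 - (k : ℚ) * (1 / 3))) ^ 2
      - (max 0 (6 - (k : ℚ) * (5 / 2))) ^ 2) / (2 * (k : ℚ)) : ℚ) : ℝ) := by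
    exact_mod_cast h
  norm_num at h2 ⊢
  linarith

/-! ### the error terms -/

/-- error for one number `q` -/
noncomputable def errq (C : ℝ) (p q : ℕ) : ℝ :=
  if q ^ 2 ≤ 6 * p then |C| * p * Real.log p
  else (|C| * (6 * (p : ℝ) / q + 1) ^ 2 + (if q ^ 2 < 16 * p then 26 * (p : ℝ) else 0)) * lp q

theorem errq_nonneg (C : ℝ) (p q : ℕ) : 0 ≤ errq C p q := by
  unfold errq
  split_ifs
  · have := Real.log_natCast_nonneg p
    positivity
  · have := lp_nonneg q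
    positivity
  · have := lp_nonneg q
    positivity

theorem lp_le_log {q n : ℕ} (h : q ≤ n) : lp q ≤ Real.log n := by
  unfold lp
  split_ifs with hq
  · exact Real.log_le_log (by exact_mod_cast hq.pos) (by exact_mod_cast h)
  · exact Real.log_natCast_nonneg n

theorem sum_errq_le (C : ℝ) (p : ℕ) (hp : 1 ≤ p) :
    ∑ q ∈ Ioc 0 (16 * p), errq C p q ≤
      (112 * |C| + 208) * (Real.log ((16 * p : ℕ) : ℝ) * (p : ℝ) ^ 2 / √p) := by
  have hpR : (1 : ℝ) ≤ p := by exact_mod_cast hp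
  have hsp : 0 < √(p : ℝ) := Real.sqrt_pos.2 (by linarith)
  set Lg : ℝ := Real.log ((16 * p : ℕ) : ℝ) with hLg
  have hL0 : 0 ≤ Lg := Real.log_natCast_nonneg _
  have hLp : Real.log p ≤ Lg := by
    refine Real.log_le_log (by linarith) ?_
    push_cast; linarith
  set m : ℕ := Nat.sqrt (6 * p) with hm
  have hm1 : 1 ≤ m := by
    rw [hm, Nat.le_sqrt']
    omega
  -- termwise bound
  have h1 : ∀ q ∈ Ioc 0 (16 * p), errq C p q ≤
      (if q ≤ 4 * Nat.sqrt p + 4 then (|C| + 26) * p * Lg else 0)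
        + (if m < q then |C| * Lg * (72 * (p : ℝ) ^ 2 * ((q : ℝ) ^ 2)⁻¹ + 2) else 0) := by
    intro q hq
    have hq1 := (Finset.mem_Ioc.1 hq).1
    have hq2 := (Finset.mem_Ioc.1 hq).2
    have hqR : (0 : ℝ) < q := by exact_mod_cast hq1
    have hlp : lp q ≤ Lg := lp_le_log hq2
    have hlp0 := lp_nonneg q
    have hsq : q ^ 2 ≤ 16 * p → q ≤ 4 * Nat.sqrt p + 4 := by
      intro hc
      by_contra hcc
      push Not at hcc
      have h2 : p < (Nat.sqrt p + 1) * (Nat.sqrt p + 1) := Nat.lt_succ_sqrt p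
      have h3 : (4 * Nat.sqrt p + 4) ^ 2 ≤ q ^ 2 := Nat.pow_le_pow_left hcc.le 2
      nlinarith
    have hC := abs_nonneg C
    have hn2 : 0 ≤ (if m < q then |C| * Lg * (72 * (p : ℝ) ^ 2 * ((q : ℝ) ^ 2)⁻¹ + 2) else 0) := by
      split_ifs
      · positivity
      · exact le_rfl
    unfold errq
    by_cases h6 : q ^ 2 ≤ 6 * p
    · rw [if_pos h6, if_pos (hsq (by omega))]
      have h7 : |C| * p * Real.log p ≤ (|C| + 26) * p * Lg := by
        have : 0 ≤ 26 * (p : ℝ) * Lg := by positivity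
        calc |C| * p * Real.log p ≤ |C| * p * Lg := by gcongr
          _ ≤ |C| * p * Lg + 26 * (p : ℝ) * Lg := by linarith
          _ = _ := by ring
      linarith
    · rw [if_neg h6]
      push Not at h6
      have hmq : m < q := by
        rw [hm, Nat.sqrt_lt']
        exact h6
      rw [if_pos hmq]
      have h7 : |C| * (6 * (p : ℝ) / q + 1) ^ 2 * lp q ≤
          |C| * Lg * (72 * (p : ℝ) ^ 2 * ((q : ℝ) ^ 2)⁻¹ + 2) := by
        have h8 : (6 * (p : ℝ) / q + 1) ^ 2 ≤ 72 * (p : ℝ) ^ 2 * ((q : ℝ) ^ 2)⁻¹ + 2 := by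
          have h9 : 72 * (p : ℝ) ^ 2 * ((q : ℝ) ^ 2)⁻¹ + 2 - (6 * (p : ℝ) / q + 1) ^ 2 =
              (6 * (p : ℝ) / q - 1) ^ 2 := by
            field_simp
            ring
          have := sq_nonneg (6 * (p : ℝ) / q - 1)
          linarith
        calc |C| * (6 * (p : ℝ) / q + 1) ^ 2 * lp q
            ≤ |C| * (72 * (p : ℝ) ^ 2 * ((q : ℝ) ^ 2)⁻¹ + 2) * Lg := by gcongr
          _ = _ := by ring
      have h8 : (if q ^ 2 < 16 * p then 26 * (p : ℝ) else 0) * lp q ≤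
          (if q ≤ 4 * Nat.sqrt p + 4 then (|C| + 26) * p * Lg else 0) := by
        by_cases h16 : q ^ 2 < 16 * p
        · rw [if_pos h16, if_pos (hsq h16.le)]
          have h10 : 0 ≤ |C| * p * Lg := by positivity
          calc 26 * (p : ℝ) * lp q ≤ 26 * (p : ℝ) * Lg := by gcongr
            _ ≤ _ := by linarith
        · rw [if_neg h16, zero_mul]
          split_ifs
          · positivity
          · exact le_rfl
      calc _ = |C| * (6 * (p : ℝ) / q + 1) ^ 2 * lp q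
            + (if q ^ 2 < 16 * p then 26 * (p : ℝ) else 0) * lp q := by ring
        _ ≤ _ := by linarith
  -- sums
  have hsqrt1 : (Nat.sqrt p : ℝ) ≤ √(p : ℝ) := by
    refine Real.le_sqrt_of_sq_le ?_
    have := Nat.sqrt_le' p
    exact_mod_cast this
  have hs1 : (1 : ℝ) ≤ √(p : ℝ) := by
    rw [Real.one_le_sqrt]; exact hpR
  have hmR : √(p : ℝ) ≤ m := by
    have h2 : 6 * p < (m + 1) * (m + 1) := Nat.lt_succ_sqrt (6 * p)
    have h3 : p ≤ m ^ 2 := by nlinarith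
    have h4 : (p : ℝ) ≤ (m : ℝ) ^ 2 := by exact_mod_cast h3
    exact Real.sqrt_le_iff.2 ⟨by positivity, h4⟩
  have hm0 : (0 : ℝ) < m := by exact_mod_cast hm1
  have hA : ∑ q ∈ Ioc 0 (16 * p), (if q ≤ 4 * Nat.sqrt p + 4 then (|C| + 26) * p * Lg else 0)
      ≤ 8 * √(p : ℝ) * ((|C| + 26) * p * Lg) := by
    rw [← Finset.sum_filter, Finset.sum_const, nsmul_eq_mul]
    have hcard : ((Ioc 0 (16 * p)).filter fun q => q ≤ 4 * Nat.sqrt p + 4).card ≤
        4 * Nat.sqrt p + 4 := by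
      calc _ ≤ (Ioc 0 (4 * Nat.sqrt p + 4)).card := by
            refine Finset.card_le_card fun q hq => ?_
            rw [Finset.mem_filter, Finset.mem_Ioc] at hq
            exact Finset.mem_Ioc.2 ⟨hq.1.1, hq.2⟩
        _ = 4 * Nat.sqrt p + 4 := by simp
    have hcardR : (((Ioc 0 (16 * p)).filter fun q => q ≤ 4 * Nat.sqrt p + 4).card : ℝ) ≤
        8 * √(p : ℝ) := by
      calc (((Ioc 0 (16 * p)).filter fun q => q ≤ 4 * Nat.sqrt p + 4).card : ℝ)
          ≤ ((4 * Nat.sqrt p + 4 : ℕ) : ℝ) := by exact_mod_cast hcard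
        _ ≤ 8 * √(p : ℝ) := by push_cast; linarith
    exact mul_le_mul_of_nonneg_right hcardR (by positivity)
  have hB : ∑ q ∈ Ioc 0 (16 * p),
      (if m < q then |C| * Lg * (72 * (p : ℝ) ^ 2 * ((q : ℝ) ^ 2)⁻¹ + 2) else 0) ≤
      |C| * Lg * (72 * (p : ℝ) ^ 2 / √(p : ℝ) + 32 * p) := by
    rw [← Finset.sum_filter]
    have hsub : (Ioc 0 (16 * p)).filter (fun q => m < q) ⊆ Ioc m (16 * p) := by
      intro q hq
      rw [Finset.mem_filter, Finset.mem_Ioc] at hq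
      exact Finset.mem_Ioc.2 ⟨hq.2, hq.1.2⟩
    have hm16 : m ≤ 16 * p := by
      have h2 := Nat.sqrt_le_self (6 * p)
      omega
    calc _ ≤ ∑ q ∈ Ioc m (16 * p), |C| * Lg * (72 * (p : ℝ) ^ 2 * ((q : ℝ) ^ 2)⁻¹ + 2) :=
          Finset.sum_le_sum_of_subset_of_nonneg hsub fun q _ _ => by positivity
      _ = |C| * Lg * (72 * (p : ℝ) ^ 2 * ∑ q ∈ Ioc m (16 * p), ((q : ℝ) ^ 2)⁻¹
            + ((Ioc m (16 * p)).card : ℝ) * 2) := by
          rw [← Finset.mul_sum, Finset.sum_add_distrib, ← Finset.mul_sum, Finset.sum_const,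
            nsmul_eq_mul]
      _ ≤ |C| * Lg * (72 * (p : ℝ) ^ 2 * (1 / √(p : ℝ)) + (16 * p) * 2) := by
          have h3 := sum_Ioc_inv_sq_le_sub (α := ℝ) (k := m) (n := 16 * p) (by omega) hm16
          have h4 : ∑ q ∈ Ioc m (16 * p), ((q : ℝ) ^ 2)⁻¹ ≤ 1 / √(p : ℝ) := by
            refine h3.trans ?_
            have h5 : (0 : ℝ) ≤ (((16 * p : ℕ)) : ℝ)⁻¹ := by positivity
            have h6 : (m : ℝ)⁻¹ ≤ 1 / √(p : ℝ) := by
              rw [← one_div]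
              exact one_div_le_one_div_of_le hsp hmR
            linarith
          have h5 : ((Ioc m (16 * p)).card : ℝ) ≤ 16 * p := by
            rw [Nat.card_Ioc]
            calc ((16 * p - m : ℕ) : ℝ) ≤ ((16 * p : ℕ) : ℝ) := by exact_mod_cast Nat.sub_le _ _
              _ = 16 * p := by push_cast; ring
          gcongr
      _ = _ := by ring
  have hpp : (p : ℝ) = (p : ℝ) ^ 2 / √(p : ℝ) * (1 / √(p : ℝ)) := by
    have h2 : √(p : ℝ) * √(p : ℝ) = p := Real.mul_self_sqrt (by linarith)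
    field_simp
    nlinarith
  have hp1 : (p : ℝ) ≤ (p : ℝ) ^ 2 / √(p : ℝ) := by
    have h3 : 1 / √(p : ℝ) ≤ 1 := by
      rw [div_le_one hsp]; exact hs1
    calc (p : ℝ) = (p : ℝ) ^ 2 / √(p : ℝ) * (1 / √(p : ℝ)) := hpp
      _ ≤ (p : ℝ) ^ 2 / √(p : ℝ) * 1 := by gcongr
      _ = _ := mul_one _
  have hp2 : √(p : ℝ) * p = (p : ℝ) ^ 2 / √(p : ℝ) := by
    have h2 : √(p : ℝ) * √(p : ℝ) = p := Real.mul_self_sqrt (by linarith)
    rw [eq_div_iff hsp.ne']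
    nlinarith
  calc ∑ q ∈ Ioc 0 (16 * p), errq C p q
      ≤ ∑ q ∈ Ioc 0 (16 * p), ((if q ≤ 4 * Nat.sqrt p + 4 then (|C| + 26) * p * Lg else 0)
        + (if m < q then |C| * Lg * (72 * (p : ℝ) ^ 2 * ((q : ℝ) ^ 2)⁻¹ + 2) else 0)) :=
        Finset.sum_le_sum h1
    _ ≤ 8 * √(p : ℝ) * ((|C| + 26) * p * Lg)
        + |C| * Lg * (72 * (p : ℝ) ^ 2 / √(p : ℝ) + 32 * p) := by
        rw [Finset.sum_add_distrib]
        exact add_le_add hA hB
    _ = 8 * (|C| + 26) * Lg * (√(p : ℝ) * p)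
        + |C| * Lg * (72 * ((p : ℝ) ^ 2 / √(p : ℝ)) + 32 * p) := by ring
    _ ≤ 8 * (|C| + 26) * Lg * ((p : ℝ) ^ 2 / √(p : ℝ))
        + |C| * Lg * (72 * ((p : ℝ) ^ 2 / √(p : ℝ)) + 32 * ((p : ℝ) ^ 2 / √(p : ℝ))) := by
        rw [hp2]
        gcongr
    _ = (112 * |C| + 208) * (Lg * (p : ℝ) ^ 2 / √p) := by ring

theorem tendsto_log_div_sqrt :
    Tendsto (fun p : ℕ => Real.log ((16 * p : ℕ) : ℝ) / √(p : ℝ)) atTop (𝓝 0) := by
  have h1 : Tendsto (fun x : ℝ => Real.log x / x ^ (1 / 2 : ℝ)) atTop (𝓝 0) :=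
    (isLittleO_log_rpow_atTop (by norm_num : (0 : ℝ) < 1 / 2)).tendsto_div_nhds_zero
  have h2 : Tendsto (fun p : ℕ => (16 : ℝ) * (p : ℝ)) atTop atTop :=
    tendsto_natCast_atTop_atTop.const_mul_atTop (by norm_num)
  have h3 := (h1.comp h2).const_mul 4
  rw [mul_zero] at h3
  refine h3.congr fun p => ?_
  simp only [Function.comp]
  rw [← Real.sqrt_eq_rpow, Real.sqrt_mul (by norm_num),
    show √(16 : ℝ) = 4 by rw [show (16 : ℝ) = 4 ^ 2 by norm_num]; exact Real.sqrt_sq (by norm_num)]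
  push_cast
  rcases eq_or_ne (√(p : ℝ)) 0 with h | h
  · rw [h]; simp
  · field_simp

theorem tendsto_errq (C : ℝ) :
    Tendsto (fun p : ℕ => (∑ q ∈ Ioc 0 (16 * p), errq C p q) / (p : ℝ) ^ 2) atTop (𝓝 0) := by
  have h := tendsto_log_div_sqrt.const_mul (112 * |C| + 208)
  rw [mul_zero] at h
  refine squeeze_zero' (Eventually.of_forall fun p => ?_) ?_ h
  · exact div_nonneg (Finset.sum_nonneg fun q _ => errq_nonneg C p q) (by positivity)
  · filter_upwards [eventually_ge_atTop 1] with p hp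
    have hpR : (0 : ℝ) < p := by exact_mod_cast hp
    rw [div_le_iff₀ (by positivity)]
    refine (sum_errq_le C p hp).trans (le_of_eq ?_)
    ring

/-! ### the logarithm of a natural number as a sum over primes -/

theorem log_eq_sum_lp {n B : ℕ} (hn : n ≠ 0) (hB : ∀ q : ℕ, q.Prime → q ∣ n → q ≤ B) :
    Real.log n = ∑ q ∈ Ioc 0 B, (padicValNat q n : ℝ) * lp q := by
  have h1 : (n : ℝ) = ∏ q ∈ n.primeFactors, ((q : ℝ) ^ padicValNat q n) := by
    conv_lhs => rw [← Nat.prod_factorization_pow_eq_self hn]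
    rw [Finsupp.prod, Nat.support_factorization]
    push_cast
    refine Finset.prod_congr rfl fun q hq => ?_
    rw [Nat.factorization_def _ (Nat.prime_of_mem_primeFactors hq)]
  have h2 : Real.log n = ∑ q ∈ n.primeFactors, (padicValNat q n : ℝ) * Real.log q := by
    conv_lhs => rw [h1]
    rw [Real.log_prod fun q hq => by
      have := (Nat.prime_of_mem_primeFactors hq).pos
      positivity]
    refine Finset.sum_congr rfl fun q _ => ?_
    rw [Real.log_pow]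
  rw [h2]
  have h3 : n.primeFactors ⊆ Ioc 0 B := by
    intro q hq
    have hp := Nat.prime_of_mem_primeFactors hq
    exact Finset.mem_Ioc.2 ⟨hp.pos, hB q hp (Nat.dvd_of_mem_primeFactors hq)⟩
  rw [← Finset.sum_subset h3]
  · refine Finset.sum_congr rfl fun q hq => ?_
    rw [lp, if_pos (Nat.prime_of_mem_primeFactors hq)]
  · intro q _ hq'
    by_cases hp : q.Prime
    · have h4 : padicValNat q n = 0 := by
        apply padicValNat.eq_zero_of_not_dvd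
        intro hd
        exact hq' (Nat.mem_primeFactors.2 ⟨hp, hd, hn⟩)
      rw [h4, Nat.cast_zero, zero_mul]
    · rw [lp, if_neg hp, mul_zero]

theorem prime_dvd_SF {q n : ℕ} (hq : q.Prime) (h : q ∣ SF n) : q ≤ 2 * n := by
  unfold SF at h
  rw [hq.prime.dvd_finsetProd_iff] at h
  obtain ⟨i, hi, hd⟩ := h
  have h1 := (hq.dvd_factorial).1 hd
  have h2 := Finset.mem_range.1 hi
  omega

theorem log_RR (p : ℕ) :
    Real.log (RR p) = ∑ q ∈ Ioc 0 (16 * p), (padicValNat q (RR p) : ℝ) * lp q := by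
  refine log_eq_sum_lp (padicRR_pos p).ne' fun q hq hd => ?_
  unfold RR at hd
  rcases hq.dvd_mul.1 hd with h | h
  · have := prime_dvd_SF hq h
    omega
  · have := prime_dvd_SF hq (hq.dvd_of_dvd_pow h)
    omega

end Pool.Agent.Z5
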