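import Mathlib
import Pool.Agent.Z5.PadicSum

/-!
# The sum over primes, section 6 of the sketch: assembly
-/

open Finset Filter Topology

namespace Pool.Agent.Z5

/-- lower bound of `v / p` on `[5 / 2, 3]` -/
noncomputable def LB2 (x : ℝ) : ℝ := -8 * x + 20 + max 0 (-13 - (-5) * x)

/-- lower bound of `v / p` on `[3, 6]` -/
noncomputable def LB3 (x : ℝ) : ℝ := 2 * x - 10 + max 0 (5 - 1 * x)

/-- lower bound of `v / p` on `[6, 8]` -/
noncomputable def LB4 (x : ℝ) : ℝ := 8 - x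

theorem integral_lin (a b α β : ℝ) :
    ∫ x in a..b, (α * x + β) = α * (b ^ 2 - a ^ 2) / 2 + β * (b - a) := by
  rw [intervalIntegral.integral_add (Continuous.intervalIntegrable (by fun_prop) _ _)
    (Continuous.intervalIntegrable (by fun_prop) _ _),
    intervalIntegral.integral_const_mul, integral_id, intervalIntegral.integral_const]
  simp
  ring

theorem integral_LB2 : ∫ x in (5 / 2 : ℝ)..3, LB2 x = -3 / 5 := by
  unfold LB2
  rw [intervalIntegral.integral_add (Continuous.intervalIntegrable (by fun_prop) _ _)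
    (Continuous.intervalIntegrable (by fun_prop) _ _), integral_lin,
    integral_hinge _ _ _ _ (by norm_num)]
  norm_num

theorem integral_LB3 : ∫ x in (3 : ℝ)..6, LB3 x = -1 := by
  have h : ∀ x : ℝ, LB3 x = (2 * x + (-10)) + max 0 (5 - 1 * x) := fun x => by
    unfold LB3; ring
  simp_rw [h]
  rw [intervalIntegral.integral_add (Continuous.intervalIntegrable (by fun_prop) _ _)
    (Continuous.intervalIntegrable (by fun_prop) _ _), integral_lin,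
    integral_hinge _ _ _ _ (by norm_num)]
  norm_num

theorem integral_LB4 : ∫ x in (6 : ℝ)..8, LB4 x = 2 := by
  have h : ∀ x : ℝ, LB4 x = (-1) * x + 8 := fun x => by
    unfold LB4; ring
  simp_rw [h]
  rw [integral_lin]
  norm_num

/-- one term of the sum over primes -/
noncomputable def tq (v : ℕ → ℤ) (p q : ℕ) : ℝ :=
  ((padicValNat q (RR p) : ℝ) - (if q < 8 * p then (v q : ℝ) else 0)) * lp q

theorem mem_Ioc_floor {a b : ℝ} {n q : ℕ} (ha : 0 ≤ a) (hb : 0 ≤ b)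
    (h : q ∈ Ioc ⌊a * n⌋₊ ⌊b * n⌋₊) : a * n < q ∧ (q : ℝ) ≤ b * n := by
  rw [Finset.mem_Ioc] at h
  exact ⟨(Nat.floor_lt (by positivity)).1 h.1, (Nat.le_floor_iff (by positivity)).1 h.2⟩

variable {C : ℝ} {p : ℕ} {v : ℕ → ℤ}

theorem tq_of_not_prime {q : ℕ} (hq : ¬ q.Prime) : tq v p q = 0 := by
  unfold tq lp
  rw [if_neg hq, mul_zero]

theorem lp_of_not_prime {q : ℕ} (hq : ¬ q.Prime) : lp q = 0 := by
  unfold lp
  rw [if_neg hq]

theorem tq_small (H : PBounds C p v) (hp : 1 ≤ p) {q : ℕ} (h3 : 3 * q ≤ p) :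
    tq v p q ≤ (3 / 16 * q + 40 * p) * lp q + errq C p q
      - (if q = 2 then 114 * (p : ℝ) ^ 2 * Real.log 2 else 0) := by
  have hpR : (1 : ℝ) ≤ p := by exact_mod_cast hp
  have he := errq_nonneg C p q
  by_cases hq : q.Prime
  · have hlp : lp q = Real.log q := if_pos hq
    have hlp0 := lp_nonneg q
    have hl : 0 ≤ (3 / 16 * (q : ℝ) + 40 * p) * lp q := by positivity
    unfold tq
    rw [if_pos (show q < 8 * p by omega)]
    by_cases h6 : q ^ 2 ≤ 6 * p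
    · have hs := H.small q hq h6
      have he2 : errq C p q = |C| * p * Real.log p := if_pos h6
      have hC : C * p * Real.log p ≤ |C| * p * Real.log p := by
        have h0 := Real.log_nonneg hpR
        have := le_abs_self C
        gcongr
      rw [he2, hlp]
      rw [hlp] at hl
      by_cases h2 : q = 2
      · subst h2
        rw [if_pos rfl]
        rw [if_pos rfl] at hs
        push_cast at hs hl ⊢
        nlinarith
      · rw [if_neg h2]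
        rw [if_neg h2] at hs
        nlinarith
    · push Not at h6
      have h2 : q ≠ 2 := by
        rintro rfl
        omega
      rw [if_neg h2, sub_zero]
      have hg := gap_tail H hq h6 h3
      have he2 : errq C p q = (|C| * (6 * (p : ℝ) / q + 1) ^ 2
        + (if q ^ 2 < 16 * p then 26 * (p : ℝ) else 0)) * lp q := if_neg (by omega)
      rw [he2, ← add_mul]
      refine mul_le_mul_of_nonneg_right (hg.trans ?_) hlp0
      have hC : C * (6 * (p : ℝ) / q + 1) ^ 2 ≤ |C| * (6 * (p : ℝ) / q + 1) ^ 2 := by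
        have := le_abs_self C
        gcongr
      linarith
  · rw [tq_of_not_prime hq, lp_of_not_prime hq, mul_zero, if_neg (by rintro rfl; exact hq Nat.prime_two)]
    linarith

theorem sq_of_large (hp : 144 ≤ p) {q : ℕ} (h3 : p < 3 * q) : 16 * p ≤ q ^ 2 := by
  nlinarith

/-- the common part of the main ranges -/
theorem tq_main (hp : 144 ≤ p) {q : ℕ} (hq : q.Prime) (h3 : p < 3 * q) (h8 : q < 8 * p)
    {B : ℝ} (hB : p * B - |C| * (6 * (p : ℝ) / q + 1) ^ 2 ≤ v q) :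
    tq v p q ≤ p * (VRx ((q : ℝ) / p) * lp q) - p * (B * lp q) + errq C p q := by
  have : Fact q.Prime := ⟨hq⟩
  have h16 := sq_of_large hp h3
  have hR := padicVal_RR_le p q (by omega) h16 h3
  have hlp0 := lp_nonneg q
  have he2 : errq C p q = (|C| * (6 * (p : ℝ) / q + 1) ^ 2
    + (if q ^ 2 < 16 * p then 26 * (p : ℝ) else 0)) * lp q := if_neg (by omega)
  rw [if_neg (show ¬ q ^ 2 < 16 * p by omega), add_zero] at he2
  unfold tq
  rw [if_pos h8, he2]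
  have h := mul_le_mul_of_nonneg_right
    (show (padicValNat q (RR p) : ℝ) - v q ≤ p * VRx ((q : ℝ) / p) - p * B
      + |C| * (6 * (p : ℝ) / q + 1) ^ 2 by linarith) hlp0
  refine h.trans (le_of_eq ?_)
  ring

theorem one_le_err (hp : 0 < p) {q : ℕ} (hq : 0 < q) : |C| ≤ |C| * (6 * (p : ℝ) / q + 1) ^ 2 := by
  have h1 : (0 : ℝ) ≤ 6 * (p : ℝ) / q := by positivity
  have h2 : (1 : ℝ) ≤ (6 * (p : ℝ) / q + 1) ^ 2 := by nlinarith
  have := abs_nonneg C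
  nlinarith

theorem tq_D (H : PBounds C p v) (hp : 144 ≤ p) {q : ℕ} (h3 : p < 3 * q) (h5 : 2 * q ≤ 5 * p) :
    tq v p q ≤ p * (VRx ((q : ℝ) / p) * lp q) - p * (LB1 ((q : ℝ) / p) * lp q) + errq C p q := by
  by_cases hq : q.Prime
  · have h16 := sq_of_large hp h3
    have hC : C * (6 * (p : ℝ) / q + 1) ^ 2 ≤ |C| * (6 * (p : ℝ) / q + 1) ^ 2 := by
      have := le_abs_self C
      gcongr
    have hD := low_D H (by omega) hq (by omega) h3 h5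
    exact tq_main hp hq h3 (by omega) (by linarith)
  · rw [tq_of_not_prime hq, lp_of_not_prime hq]
    have := errq_nonneg C p q
    linarith

theorem cast_max_sub (a b : ℕ) : ((max (a - b) 0 : ℕ) : ℝ) = max ((a : ℝ) - b) 0 := by
  have h0 : max (a - b) 0 = a - b := max_eq_left (Nat.zero_le _)
  rw [h0]
  rcases le_total b a with h | h
  · have h' : (b : ℝ) ≤ a := by exact_mod_cast h
    rw [Nat.cast_sub h]
    exact (max_eq_left (sub_nonneg.2 h')).symm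
  · have h' : (a : ℝ) ≤ b := by exact_mod_cast h
    rw [Nat.sub_eq_zero_of_le h, Nat.cast_zero]
    exact (max_eq_right (sub_nonpos.2 h')).symm

theorem tq_C (H : PBounds C p v) (hp : 144 ≤ p) {q : ℕ} (h3 : 5 * p < 2 * q) (h5 : q ≤ 3 * p) :
    tq v p q ≤ p * (VRx ((q : ℝ) / p) * lp q) - p * (LB2 ((q : ℝ) / p) * lp q) + errq C p q := by
  by_cases hq : q.Prime
  · have hpR : (0 : ℝ) < p := by
      have : 0 < p := by omega
      exact_mod_cast this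
    have hC := le_abs_self C
    have hC2 := one_le_err (C := C) (show 0 < p by omega) hq.pos
    have hD := H.rC q hq h3 h5
    rw [cast_max_sub] at hD
    push_cast at hD
    refine tq_main hp hq (by omega) (by omega) ?_
    have e : (p : ℝ) * LB2 ((q : ℝ) / p) = -8 * q + 20 * p + max (5 * (q : ℝ) - 13 * p) 0 := by
      unfold LB2
      rw [mul_add, mul_max_of_nonneg _ _ hpR.le, mul_zero, max_comm]
      congr 1
      · field_simp
      · congr 1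
        field_simp
        ring
    rw [e]
    linarith
  · rw [tq_of_not_prime hq, lp_of_not_prime hq]
    have := errq_nonneg C p q
    linarith

theorem tq_B (H : PBounds C p v) (hp : 144 ≤ p) {q : ℕ} (h3 : 3 * p < q) (h5 : q ≤ 6 * p) :
    tq v p q ≤ p * (VRx ((q : ℝ) / p) * lp q) - p * (LB3 ((q : ℝ) / p) * lp q) + errq C p q := by
  by_cases hq : q.Prime
  · have hpR : (0 : ℝ) < p := by
      have : 0 < p := by omega
      exact_mod_cast this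
    have hC := le_abs_self C
    have hC2 := one_le_err (C := C) (show 0 < p by omega) hq.pos
    have hD := H.rB q hq h3 h5
    rw [cast_max_sub] at hD
    push_cast at hD
    refine tq_main hp hq (by omega) (by omega) ?_
    have e : (p : ℝ) * LB3 ((q : ℝ) / p) = 2 * q - 10 * p + max (5 * (p : ℝ) - q) 0 := by
      unfold LB3
      rw [mul_add, mul_max_of_nonneg _ _ hpR.le, mul_zero, max_comm]
      congr 1
      · field_simp
      · congr 1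
        field_simp
    rw [e]
    linarith
  · rw [tq_of_not_prime hq, lp_of_not_prime hq]
    have := errq_nonneg C p q
    linarith

theorem tq_A (H : PBounds C p v) (hp : 144 ≤ p) {q : ℕ} (h3 : 6 * p < q) (h5 : q ≤ 8 * p) :
    tq v p q ≤ p * (VRx ((q : ℝ) / p) * lp q) - p * (LB4 ((q : ℝ) / p) * lp q) + errq C p q := by
  by_cases hq : q.Prime
  · have hpR : (0 : ℝ) < p := by
      have : 0 < p := by omega
      exact_mod_cast this
    have hC := le_abs_self C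
    have hC2 := one_le_err (C := C) (show 0 < p by omega) hq.pos
    have h8 : q < 8 * p := by
      rcases h5.eq_or_lt with h | h
      · exfalso
        rw [h] at hq
        have := (Nat.prime_mul_iff.1 hq)
        rcases this with h | h
        · exact absurd h.1 (by norm_num)
        · omega
      · exact h
    have hD := H.rA q hq h3 h8
    refine tq_main hp hq (by omega) h8 ?_
    have e : (p : ℝ) * LB4 ((q : ℝ) / p) = 8 * p - q := by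
      unfold LB4
      field_simp
    rw [e]
    linarith
  · rw [tq_of_not_prime hq, lp_of_not_prime hq]
    have := errq_nonneg C p q
    linarith

theorem tq_Z (hp : 144 ≤ p) {q : ℕ} (h3 : 8 * p < q) :
    tq v p q ≤ p * (VRx ((q : ℝ) / p) * lp q) + errq C p q := by
  have he := errq_nonneg C p q
  by_cases hq : q.Prime
  · have : Fact q.Prime := ⟨hq⟩
    have h16 := sq_of_large hp (show p < 3 * q by omega)
    have hR := padicVal_RR_le p q (by omega) h16 (by omega)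
    have hlp0 := lp_nonneg q
    unfold tq
    rw [if_neg (show ¬ q < 8 * p by omega), sub_zero]
    have h := mul_le_mul_of_nonneg_right hR hlp0
    have e : (p : ℝ) * VRx ((q : ℝ) / p) * lp q = p * (VRx ((q : ℝ) / p) * lp q) := by ring
    linarith
  · rw [tq_of_not_prime hq, lp_of_not_prime hq]
    linarith

/-! ### limits -/

theorem tendsto_main :
    Tendsto (fun n : ℕ =>
      (∑ k ∈ Ioc ⌊(0 : ℝ) * n⌋₊ ⌊(1 / 3 : ℝ) * n⌋₊, (3 / 16 * (k : ℝ) + 40 * n) * lp k) / (n : ℝ) ^ 2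
      + (∑ k ∈ Ioc ⌊(1 / 3 : ℝ) * n⌋₊ ⌊(16 : ℝ) * n⌋₊, VRx ((k : ℝ) / n) * lp k) / n
      - (∑ k ∈ Ioc ⌊(1 / 3 : ℝ) * n⌋₊ ⌊(5 / 2 : ℝ) * n⌋₊, LB1 ((k : ℝ) / n) * lp k) / n
      - (∑ k ∈ Ioc ⌊(5 / 2 : ℝ) * n⌋₊ ⌊(3 : ℝ) * n⌋₊, LB2 ((k : ℝ) / n) * lp k) / n
      - (∑ k ∈ Ioc ⌊(3 : ℝ) * n⌋₊ ⌊(6 : ℝ) * n⌋₊, LB3 ((k : ℝ) / n) * lp k) / n
      - (∑ k ∈ Ioc ⌊(6 : ℝ) * n⌋₊ ⌊(8 : ℝ) * n⌋₊, LB4 ((k : ℝ) / n) * lp k) / n) atTop
      (𝓝 (3 / 16 * ((1 / 3) ^ 2 - 0 ^ 2) / 2 + 40 * (1 / 3 - 0) + (∫ x in (1 / 3 : ℝ)..16, VRx x)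
        - (∫ x in (1 / 3 : ℝ)..(5 / 2), LB1 x) - (∫ x in (5 / 2 : ℝ)..3, LB2 x)
        - (∫ x in (3 : ℝ)..6, LB3 x) - ∫ x in (6 : ℝ)..8, LB4 x)) := by
  have c0 : Continuous VRx := by unfold VRx; fun_prop
  have c1 : Continuous LB1 := by unfold LB1; fun_prop
  have c2 : Continuous LB2 := by unfold LB2; fun_prop
  have c3 : Continuous LB3 := by unfold LB3; fun_prop
  have c4 : Continuous LB4 := by unfold LB4; fun_prop
  exact (((((tendsto_sum_primes_linear 0 (1 / 3) (3 / 16) 40 le_rfl (by norm_num)).add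
    (tendsto_sum_primes (1 / 3) 16 (by norm_num) (by norm_num) VRx c0.continuousOn)).sub
    (tendsto_sum_primes (1 / 3) (5 / 2) (by norm_num) (by norm_num) LB1 c1.continuousOn)).sub
    (tendsto_sum_primes (5 / 2) 3 (by norm_num) (by norm_num) LB2 c2.continuousOn)).sub
    (tendsto_sum_primes 3 6 (by norm_num) (by norm_num) LB3 c3.continuousOn)).sub
    (tendsto_sum_primes 6 8 (by norm_num) (by norm_num) LB4 c4.continuousOn)

/-- the constant of the arithmetic part, in units of `p ^ 2` -/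
noncomputable def padG : ℝ := 2017012 / 10000

theorem padG_le : padG ≤ 201.9 := by
  unfold padG
  norm_num

theorem limit_lt_padG :
    3 / 16 * ((1 / 3) ^ 2 - 0 ^ 2) / 2 + 40 * (1 / 3 - 0) + (∫ x in (1 / 3 : ℝ)..16, VRx x)
        - (∫ x in (1 / 3 : ℝ)..(5 / 2), LB1 x) - (∫ x in (5 / 2 : ℝ)..3, LB2 x)
        - (∫ x in (3 : ℝ)..6, LB3 x) - (∫ x in (6 : ℝ)..8, LB4 x) < padG := by
  have h1 := cV_le
  have h2 := c1_ge
  rw [integral_LB2, integral_LB3, integral_LB4]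
  unfold padG
  norm_num at h1 h2 ⊢
  linarith

/-! ### the sum -/

theorem sum_tq_le (H : PBounds C p v) (hp : 144 ≤ p) :
    ∑ q ∈ Ioc 0 (16 * p), tq v p q ≤
      ∑ q ∈ Ioc 0 (16 * p), errq C p q - 114 * (p : ℝ) ^ 2 * Real.log 2
      + (∑ k ∈ Ioc ⌊(0 : ℝ) * p⌋₊ ⌊(1 / 3 : ℝ) * p⌋₊, (3 / 16 * (k : ℝ) + 40 * p) * lp k)
      + p * (∑ k ∈ Ioc ⌊(1 / 3 : ℝ) * p⌋₊ ⌊(16 : ℝ) * p⌋₊, VRx ((k : ℝ) / p) * lp k)
      - p * (∑ k ∈ Ioc ⌊(1 / 3 : ℝ) * p⌋₊ ⌊(5 / 2 : ℝ) * p⌋₊, LB1 ((k : ℝ) / p) * lp k)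
      - p * (∑ k ∈ Ioc ⌊(5 / 2 : ℝ) * p⌋₊ ⌊(3 : ℝ) * p⌋₊, LB2 ((k : ℝ) / p) * lp k)
      - p * (∑ k ∈ Ioc ⌊(3 : ℝ) * p⌋₊ ⌊(6 : ℝ) * p⌋₊, LB3 ((k : ℝ) / p) * lp k)
      - p * (∑ k ∈ Ioc ⌊(6 : ℝ) * p⌋₊ ⌊(8 : ℝ) * p⌋₊, LB4 ((k : ℝ) / p) * lp k) := by
  have hp0 : (0 : ℝ) ≤ p := by positivity
  have hfl : ∀ a b : ℝ, a ≤ b → ⌊a * (p : ℝ)⌋₊ ≤ ⌊b * (p : ℝ)⌋₊ := fun a b hab =>
    Nat.floor_le_floor (by gcongr)
  have h16 : 16 * p = ⌊(16 : ℝ) * (p : ℝ)⌋₊ := by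
    rw [show (16 : ℝ) * (p : ℝ) = ((16 * p : ℕ) : ℝ) by push_cast; ring, Nat.floor_natCast]
  have h00 : 0 = ⌊(0 : ℝ) * (p : ℝ)⌋₊ := by simp
  -- splitting into consecutive intervals
  have split : ∀ f : ℕ → ℝ, ∑ q ∈ Ioc 0 (16 * p), f q =
      ∑ q ∈ Ioc ⌊(0 : ℝ) * p⌋₊ ⌊(1 / 3 : ℝ) * p⌋₊, f q
      + ∑ q ∈ Ioc ⌊(1 / 3 : ℝ) * p⌋₊ ⌊(5 / 2 : ℝ) * p⌋₊, f q
      + ∑ q ∈ Ioc ⌊(5 / 2 : ℝ) * p⌋₊ ⌊(3 : ℝ) * p⌋₊, f q
      + ∑ q ∈ Ioc ⌊(3 : ℝ) * p⌋₊ ⌊(6 : ℝ) * p⌋₊, f q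
      + ∑ q ∈ Ioc ⌊(6 : ℝ) * p⌋₊ ⌊(8 : ℝ) * p⌋₊, f q
      + ∑ q ∈ Ioc ⌊(8 : ℝ) * p⌋₊ ⌊(16 : ℝ) * p⌋₊, f q := by
    intro f
    rw [Finset.sum_Ioc_consecutive f (hfl _ _ (by norm_num)) (hfl _ _ (by norm_num)),
      Finset.sum_Ioc_consecutive f (hfl _ _ (by norm_num)) (hfl _ _ (by norm_num)),
      Finset.sum_Ioc_consecutive f (hfl _ _ (by norm_num)) (hfl _ _ (by norm_num)),
      Finset.sum_Ioc_consecutive f (hfl _ _ (by norm_num)) (hfl _ _ (by norm_num)),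
      Finset.sum_Ioc_consecutive f (hfl _ _ (by norm_num)) (hfl _ _ (by norm_num)), ← h16, ← h00]
  have splitV : ∀ f : ℕ → ℝ, ∑ q ∈ Ioc ⌊(1 / 3 : ℝ) * p⌋₊ ⌊(16 : ℝ) * p⌋₊, f q =
      ∑ q ∈ Ioc ⌊(1 / 3 : ℝ) * p⌋₊ ⌊(5 / 2 : ℝ) * p⌋₊, f q
      + ∑ q ∈ Ioc ⌊(5 / 2 : ℝ) * p⌋₊ ⌊(3 : ℝ) * p⌋₊, f q
      + ∑ q ∈ Ioc ⌊(3 : ℝ) * p⌋₊ ⌊(6 : ℝ) * p⌋₊, f q
      + ∑ q ∈ Ioc ⌊(6 : ℝ) * p⌋₊ ⌊(8 : ℝ) * p⌋₊, f q
      + ∑ q ∈ Ioc ⌊(8 : ℝ) * p⌋₊ ⌊(16 : ℝ) * p⌋₊, f q := by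
    intro f
    rw [Finset.sum_Ioc_consecutive f (hfl _ _ (by norm_num)) (hfl _ _ (by norm_num)),
      Finset.sum_Ioc_consecutive f (hfl _ _ (by norm_num)) (hfl _ _ (by norm_num)),
      Finset.sum_Ioc_consecutive f (hfl _ _ (by norm_num)) (hfl _ _ (by norm_num)),
      Finset.sum_Ioc_consecutive f (hfl _ _ (by norm_num)) (hfl _ _ (by norm_num))]
  have nc : ∀ a b : ℕ, (a : ℝ) < b → a < b := fun a b h => by exact_mod_cast h
  have nl : ∀ a b : ℕ, (a : ℝ) ≤ b → a ≤ b := fun a b h => by exact_mod_cast h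
  -- the six ranges
  have r1 : ∑ q ∈ Ioc ⌊(0 : ℝ) * p⌋₊ ⌊(1 / 3 : ℝ) * p⌋₊, tq v p q ≤
      ∑ q ∈ Ioc ⌊(0 : ℝ) * p⌋₊ ⌊(1 / 3 : ℝ) * p⌋₊, (3 / 16 * (q : ℝ) + 40 * p) * lp q
      + ∑ q ∈ Ioc ⌊(0 : ℝ) * p⌋₊ ⌊(1 / 3 : ℝ) * p⌋₊, errq C p q
      - 114 * (p : ℝ) ^ 2 * Real.log 2 := by
    have h2 : ∑ q ∈ Ioc ⌊(0 : ℝ) * p⌋₊ ⌊(1 / 3 : ℝ) * p⌋₊,
        (if q = 2 then 114 * (p : ℝ) ^ 2 * Real.log 2 else 0) = 114 * (p : ℝ) ^ 2 * Real.log 2 := by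
      rw [Finset.sum_ite_eq' _ 2 (fun _ => 114 * (p : ℝ) ^ 2 * Real.log 2), if_pos]
      rw [Finset.mem_Ioc, ← h00]
      refine ⟨by norm_num, Nat.le_floor ?_⟩
      have : (144 : ℝ) ≤ p := by exact_mod_cast hp
      push_cast
      linarith
    conv_rhs => rw [← h2]
    rw [← Finset.sum_add_distrib, ← Finset.sum_sub_distrib]
    refine Finset.sum_le_sum fun q hq => ?_
    have h3 := mem_Ioc_floor le_rfl (by norm_num) hq
    exact tq_small H (by omega) (nl _ _ (by push_cast; linarith [h3.2]))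
  have r2 : ∑ q ∈ Ioc ⌊(1 / 3 : ℝ) * p⌋₊ ⌊(5 / 2 : ℝ) * p⌋₊, tq v p q ≤
      p * ∑ q ∈ Ioc ⌊(1 / 3 : ℝ) * p⌋₊ ⌊(5 / 2 : ℝ) * p⌋₊, VRx ((q : ℝ) / p) * lp q
      - p * ∑ q ∈ Ioc ⌊(1 / 3 : ℝ) * p⌋₊ ⌊(5 / 2 : ℝ) * p⌋₊, LB1 ((q : ℝ) / p) * lp q
      + ∑ q ∈ Ioc ⌊(1 / 3 : ℝ) * p⌋₊ ⌊(5 / 2 : ℝ) * p⌋₊, errq C p q := by
    rw [Finset.mul_sum, Finset.mul_sum, ← Finset.sum_sub_distrib, ← Finset.sum_add_distrib]
    refine Finset.sum_le_sum fun q hq => ?_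
    have h3 := mem_Ioc_floor (by norm_num) (by norm_num) hq
    exact tq_D H hp (nc _ _ (by push_cast; linarith [h3.1])) (nl _ _ (by push_cast; linarith [h3.2]))
  have r3 : ∑ q ∈ Ioc ⌊(5 / 2 : ℝ) * p⌋₊ ⌊(3 : ℝ) * p⌋₊, tq v p q ≤
      p * ∑ q ∈ Ioc ⌊(5 / 2 : ℝ) * p⌋₊ ⌊(3 : ℝ) * p⌋₊, VRx ((q : ℝ) / p) * lp q
      - p * ∑ q ∈ Ioc ⌊(5 / 2 : ℝ) * p⌋₊ ⌊(3 : ℝ) * p⌋₊, LB2 ((q : ℝ) / p) * lp q
      + ∑ q ∈ Ioc ⌊(5 / 2 : ℝ) * p⌋₊ ⌊(3 : ℝ) * p⌋₊, errq C p q := by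
    rw [Finset.mul_sum, Finset.mul_sum, ← Finset.sum_sub_distrib, ← Finset.sum_add_distrib]
    refine Finset.sum_le_sum fun q hq => ?_
    have h3 := mem_Ioc_floor (by norm_num) (by norm_num) hq
    exact tq_C H hp (nc _ _ (by push_cast; linarith [h3.1])) (nl _ _ (by push_cast; linarith [h3.2]))
  have r4 : ∑ q ∈ Ioc ⌊(3 : ℝ) * p⌋₊ ⌊(6 : ℝ) * p⌋₊, tq v p q ≤
      p * ∑ q ∈ Ioc ⌊(3 : ℝ) * p⌋₊ ⌊(6 : ℝ) * p⌋₊, VRx ((q : ℝ) / p) * lp q
      - p * ∑ q ∈ Ioc ⌊(3 : ℝ) * p⌋₊ ⌊(6 : ℝ) * p⌋₊, LB3 ((q : ℝ) / p) * lp q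
      + ∑ q ∈ Ioc ⌊(3 : ℝ) * p⌋₊ ⌊(6 : ℝ) * p⌋₊, errq C p q := by
    rw [Finset.mul_sum, Finset.mul_sum, ← Finset.sum_sub_distrib, ← Finset.sum_add_distrib]
    refine Finset.sum_le_sum fun q hq => ?_
    have h3 := mem_Ioc_floor (by norm_num) (by norm_num) hq
    exact tq_B H hp (nc _ _ (by push_cast; linarith [h3.1])) (nl _ _ (by push_cast; linarith [h3.2]))
  have r5 : ∑ q ∈ Ioc ⌊(6 : ℝ) * p⌋₊ ⌊(8 : ℝ) * p⌋₊, tq v p q ≤
      p * ∑ q ∈ Ioc ⌊(6 : ℝ) * p⌋₊ ⌊(8 : ℝ) * p⌋₊, VRx ((q : ℝ) / p) * lp q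
      - p * ∑ q ∈ Ioc ⌊(6 : ℝ) * p⌋₊ ⌊(8 : ℝ) * p⌋₊, LB4 ((q : ℝ) / p) * lp q
      + ∑ q ∈ Ioc ⌊(6 : ℝ) * p⌋₊ ⌊(8 : ℝ) * p⌋₊, errq C p q := by
    rw [Finset.mul_sum, Finset.mul_sum, ← Finset.sum_sub_distrib, ← Finset.sum_add_distrib]
    refine Finset.sum_le_sum fun q hq => ?_
    have h3 := mem_Ioc_floor (by norm_num) (by norm_num) hq
    exact tq_A H hp (nc _ _ (by push_cast; linarith [h3.1])) (nl _ _ (by push_cast; linarith [h3.2]))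
  have r6 : ∑ q ∈ Ioc ⌊(8 : ℝ) * p⌋₊ ⌊(16 : ℝ) * p⌋₊, tq v p q ≤
      p * ∑ q ∈ Ioc ⌊(8 : ℝ) * p⌋₊ ⌊(16 : ℝ) * p⌋₊, VRx ((q : ℝ) / p) * lp q
      + ∑ q ∈ Ioc ⌊(8 : ℝ) * p⌋₊ ⌊(16 : ℝ) * p⌋₊, errq C p q := by
    rw [Finset.mul_sum, ← Finset.sum_add_distrib]
    refine Finset.sum_le_sum fun q hq => ?_
    have h3 := mem_Ioc_floor (by norm_num) (by norm_num) hq
    exact tq_Z hp (nc _ _ (by push_cast; linarith [h3.1]))
  rw [split (fun q => tq v p q), split (fun q => errq C p q), splitV, mul_add, mul_add, mul_add,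
    mul_add]
  linarith

/-- The sum over the primes: the `p`-adic part of the proof, in one inequality. -/
theorem padic_sum (C : ℝ) {ε : ℝ} (hε : 0 < ε) : ∃ p0 : ℕ, ∀ p ≥ p0, ∀ v : ℕ → ℤ,
    PBounds C p v → Real.log (RR p) + 114 * (p : ℝ) ^ 2 * Real.log 2 - (padG + ε) * (p : ℝ) ^ 2 ≤
      ∑ q ∈ (range (8 * p)).filter Nat.Prime, (v q : ℝ) * Real.log q := by
  have h1 := tendsto_main.eventually (gt_mem_nhds limit_lt_padG)
  have h2 := (tendsto_errq C).eventually (gt_mem_nhds hε)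
  obtain ⟨p1, hp1⟩ := (h1.and h2).exists_forall_of_atTop
  refine ⟨max p1 144, fun p hp v H => ?_⟩
  have hp144 : 144 ≤ p := le_trans (le_max_right _ _) hp
  obtain ⟨g1, g2⟩ := hp1 p (le_trans (le_max_left _ _) hp)
  have hs := sum_tq_le H hp144
  have hp0 : (0 : ℝ) < p := by
    have : 0 < p := by omega
    exact_mod_cast this
  have hv : ∑ q ∈ (range (8 * p)).filter Nat.Prime, (v q : ℝ) * Real.log q =
      ∑ q ∈ Ioc 0 (16 * p), (if q < 8 * p then (v q : ℝ) else 0) * lp q := by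
    have hsub : (range (8 * p)).filter Nat.Prime ⊆ Ioc 0 (16 * p) := by
      intro q hq
      rw [Finset.mem_filter, Finset.mem_range] at hq
      exact Finset.mem_Ioc.2 ⟨hq.2.pos, by omega⟩
    rw [← Finset.sum_subset hsub]
    · refine Finset.sum_congr rfl fun q hq => ?_
      rw [Finset.mem_filter, Finset.mem_range] at hq
      rw [if_pos hq.1, lp, if_pos hq.2]
    · intro q _ hq'
      rw [Finset.mem_filter, Finset.mem_range, not_and_or] at hq'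
      rcases hq' with h | h
      · rw [if_neg h, zero_mul]
      · rw [lp, if_neg h, mul_zero]
  have ht : ∑ q ∈ Ioc 0 (16 * p), tq v p q = Real.log (RR p)
      - ∑ q ∈ Ioc 0 (16 * p), (if q < 8 * p then (v q : ℝ) else 0) * lp q := by
    rw [log_RR, ← Finset.sum_sub_distrib]
    refine Finset.sum_congr rfl fun q _ => ?_
    unfold tq
    ring
  rw [ht] at hs
  rw [hv]
  have hpp : (0 : ℝ) < (p : ℝ) ^ 2 := by positivity
  -- multiply the limits by `p ^ 2`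
  have g1' := mul_lt_mul_of_pos_right g1 hpp
  have g2' := mul_lt_mul_of_pos_right g2 hpp
  rw [div_mul_cancel₀ _ hpp.ne'] at g2'
  have e1 : ∀ a b c d e f : ℝ, (a / (p : ℝ) ^ 2 + b / p - c / p - d / p - e / p - f / p)
      * (p : ℝ) ^ 2 = a + p * b - p * c - p * d - p * e - p * f := by
    intro a b c d e f
    field_simp
  rw [e1] at g1'
  linarith

end Pool.Agent.Z5
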