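import Mathlib

/-! # A lower bound for a non-zero rational number from its valuations -/

open Finset

namespace Pool.Agent.Z5

theorem one_le_abs_of_padicValRat_nonneg {x : ℚ} (hx : x ≠ 0)
    (h : ∀ q : ℕ, q.Prime → 0 ≤ padicValRat q x) : 1 ≤ |x| := by
  have hden : x.den = 1 := by
    by_contra hden
    obtain ⟨q, hq, hqd⟩ := Nat.exists_prime_and_dvd hden
    have : Fact q.Prime := ⟨hq⟩
    have h1 := h q hq
    have h2 : 1 ≤ padicValNat q x.den := one_le_padicValNat_of_dvd x.den_nz hqd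
    have h3 : padicValInt q x.num = 0 := by
      rw [padicValInt.eq_zero_of_not_dvd]
      intro h4
      have h5 : q ∣ x.num.natAbs := Int.natCast_dvd.1 h4
      have h6 := Nat.dvd_gcd h5 hqd
      rw [x.reduced] at h6
      exact hq.one_lt.ne' (Nat.dvd_one.1 h6)
    have h7 : padicValRat q x = (padicValInt q x.num : ℤ) - (padicValNat q x.den : ℤ) :=
      padicValRat_def q x
    omega
  have hx' : x = x.num := by
    conv_lhs => rw [← Rat.num_div_den x, hden]
    simp
  have hn : x.num ≠ 0 := Rat.num_ne_zero.2 hx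
  rw [hx']
  have := Int.one_le_abs hn
  exact_mod_cast this

theorem padicValRat_prod_zpow (r : ℕ) [Fact r.Prime] (S : Finset ℕ) (hS : ∀ q ∈ S, q.Prime)
    (W : ℕ → ℤ) :
    padicValRat r (∏ q ∈ S, (q : ℚ) ^ W q) = if r ∈ S then W r else 0 := by
  classical
  induction S using Finset.induction_on with
  | empty => simp
  | insert a S ha ih =>
    have hS' : ∀ q ∈ S, q.Prime := fun q hq => hS q (mem_insert_of_mem hq)
    have ha' : a.Prime := hS a (mem_insert_self _ _)
    have : Fact a.Prime := ⟨ha'⟩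
    have ha0 : (a : ℚ) ≠ 0 := by exact_mod_cast ha'.ne_zero
    have hP : (∏ q ∈ S, (q : ℚ) ^ W q) ≠ 0 := by
      rw [prod_ne_zero_iff]
      intro q hq
      exact zpow_ne_zero _ (by exact_mod_cast (hS' q hq).ne_zero)
    rw [prod_insert ha, padicValRat.mul (zpow_ne_zero _ ha0) hP, ih hS', padicValRat.zpow]
    by_cases hra : r = a
    · subst hra
      rw [padicValRat.self ha'.one_lt]
      simp [ha]
    · have h0 : padicValRat r (a : ℚ) = 0 := by
        rw [padicValRat.of_nat]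
        have : padicValNat r a = 0 := by
          apply padicValNat.eq_zero_of_not_dvd
          intro h
          exact hra ((Nat.prime_dvd_prime_iff_eq Fact.out ha').1 h)
        rw [this]; rfl
      rw [h0]
      simp [hra]

/-- lower bound for `log |D|` from lower bounds `-W q` for the valuations -/
theorem log_abs_ge {D : ℚ} (hD : D ≠ 0) (S : Finset ℕ) (hS : ∀ q ∈ S, q.Prime) (W : ℕ → ℤ)
    (h1 : ∀ q : ℕ, q.Prime → q ∉ S → 0 ≤ padicValRat q D)
    (h2 : ∀ q ∈ S, -W q ≤ padicValRat q D) :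
    -∑ q ∈ S, (W q : ℝ) * Real.log q ≤ Real.log |(D : ℝ)| := by
  have hP : (∏ q ∈ S, (q : ℚ) ^ W q) ≠ 0 := by
    rw [prod_ne_zero_iff]
    intro q hq
    exact zpow_ne_zero _ (by exact_mod_cast (hS q hq).ne_zero)
  have hx : D * ∏ q ∈ S, (q : ℚ) ^ W q ≠ 0 := mul_ne_zero hD hP
  have h := one_le_abs_of_padicValRat_nonneg hx (by
    intro r hr
    have : Fact r.Prime := ⟨hr⟩
    rw [padicValRat.mul hD hP, padicValRat_prod_zpow r S hS W]
    by_cases hrS : r ∈ S
    · have := h2 r hrS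
      rw [if_pos hrS]; omega
    · have := h1 r hr hrS
      rw [if_neg hrS]; omega)
  have hpos : (0 : ℝ) < ∏ q ∈ S, (q : ℝ) ^ W q := by
    apply prod_pos
    intro q hq
    have : (0 : ℝ) < q := by exact_mod_cast (hS q hq).pos
    positivity
  have h' : (1 : ℝ) ≤ |(D : ℝ)| * ∏ q ∈ S, (q : ℝ) ^ W q := by
    have h3 : ((1 : ℚ) : ℝ) ≤ ((|D * ∏ q ∈ S, (q : ℚ) ^ W q| : ℚ) : ℝ) := by exact_mod_cast h
    push_cast at h3
    rwa [abs_mul, abs_of_pos hpos] at h3
  have hD' : (0 : ℝ) < |(D : ℝ)| := by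
    rw [abs_pos]; exact_mod_cast hD
  have h4 := Real.log_nonneg h'
  have h6 : ∀ q ∈ S, (q : ℝ) ^ W q ≠ 0 := by
    intro q hq
    have : (0 : ℝ) < q := by exact_mod_cast (hS q hq).pos
    positivity
  rw [Real.log_mul hD'.ne' hpos.ne', Real.log_prod h6] at h4
  have h5 : ∀ q ∈ S, Real.log ((q : ℝ) ^ W q) = (W q : ℝ) * Real.log q := by
    intro q _
    rw [Real.log_zpow]
  rw [Finset.sum_congr rfl h5] at h4
  linarith

end Pool.Agent.Z5
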