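import Pool.Agent.Z5.PBridge
import Pool.Agent.Z5.PadicMain
import Pool.Agent.Z5.Prod

/-!
# Irrationality of `ζ(5)`: lower bound of the rational determinant
-/

open Finset Filter

namespace Pool.Agent.Z5

theorem eventually_small (C ε : ℝ) (hε : 0 < ε) :
    ∀ᶠ p : ℕ in atTop, C * p * Real.log p ≤ ε * (p : ℝ) ^ 2 := by
  have h1 : 0 < ε / (|C| + 1) := by positivity
  have h2 := (Real.isLittleO_log_id_atTop.bound h1)
  have h3 := tendsto_natCast_atTop_atTop (R := ℝ) |>.eventually h2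
  filter_upwards [h3, eventually_ge_atTop 1] with p hp hp1
  have hp0 : (0 : ℝ) < p := by exact_mod_cast hp1
  have hlog : 0 ≤ Real.log p := Real.log_nonneg (by exact_mod_cast hp1)
  simp only [id, Real.norm_eq_abs, abs_of_nonneg hlog, abs_of_pos hp0] at hp
  have h4 : C * Real.log p ≤ (|C| + 1) * Real.log p :=
    mul_le_mul_of_nonneg_right (by linarith [le_abs_self C]) hlog
  have h5 : (|C| + 1) * Real.log p ≤ ε * p := by
    calc (|C| + 1) * Real.log p ≤ (|C| + 1) * (ε / (|C| + 1) * p) :=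
          mul_le_mul_of_nonneg_left hp (by positivity)
      _ = ε * p := by field_simp
  calc C * p * Real.log p = (C * Real.log p) * p := by ring
    _ ≤ (ε * p) * p := mul_le_mul_of_nonneg_right (h4.trans h5) hp0.le
    _ = _ := by ring

theorem eventually_err (a : ℕ) (ε : ℝ) (hε : 0 < ε) :
    ∀ᶠ p : ℕ in atTop, ((a * p : ℕ) : ℝ) * (3 * (Real.log ((a * p : ℕ) + 1) + 1) + 3)
      ≤ ε * (p : ℝ) ^ 2 := by
  have h1 := eventually_small (3 * a) (ε / 2) (by positivity)
  have h2 : ∀ᶠ p : ℕ in atTop, (a : ℝ) * (3 * (Real.log (a + 1) + 1) + 3) ≤ ε / 2 * p := by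
    have h3 : Tendsto (fun p : ℕ => ε / 2 * (p : ℝ)) atTop atTop :=
      tendsto_natCast_atTop_atTop.const_mul_atTop (by positivity)
    exact h3.eventually (eventually_ge_atTop _)
  filter_upwards [h1, h2, eventually_ge_atTop 1] with p h3 h4 hp1
  have hp0 : (1 : ℝ) ≤ p := by exact_mod_cast hp1
  have ha : (0 : ℝ) ≤ a := Nat.cast_nonneg a
  have h5 : Real.log (((a * p : ℕ) : ℝ) + 1) ≤ Real.log (a + 1) + Real.log p := by
    rw [← Real.log_mul (by positivity) (by positivity)]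
    refine Real.log_le_log (by positivity) ?_
    push_cast
    nlinarith
  have h6 : ((a * p : ℕ) : ℝ) * (3 * (Real.log ((a * p : ℕ) + 1) + 1) + 3) ≤
      ((a : ℝ) * p) * (3 * (Real.log (a + 1) + Real.log p + 1) + 3) := by
    push_cast at h5 ⊢
    refine mul_le_mul_of_nonneg_left ?_ (by positivity)
    linarith
  refine h6.trans ?_
  have h7 : ((a : ℝ) * p) * (3 * (Real.log (a + 1) + Real.log p + 1) + 3) =
      3 * a * p * Real.log p + ((a : ℝ) * (3 * (Real.log (a + 1) + 1) + 3)) * p := by ring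
  rw [h7]
  have h8 : ((a : ℝ) * (3 * (Real.log (a + 1) + 1) + 3)) * p ≤ ε / 2 * p * p :=
    mul_le_mul_of_nonneg_right h4 (by positivity)
  nlinarith

theorem log_OD_le (h : ℕ) : Real.log (OD h) ≤ h * Real.log (2 * h) := by
  have h1 : OD h ≤ (2 * h) ^ h := by
    unfold OD
    calc ∏ j ∈ range h, (2 * j + 1) ≤ ∏ _j ∈ range h, (2 * h) :=
          prod_le_prod' fun j hj => by have := mem_range.1 hj; omega
      _ = (2 * h) ^ h := by simp
  have h2 : ((OD h : ℕ) : ℝ) ≤ (2 * h) ^ h := by exact_mod_cast h1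
  have h3 := Real.log_le_log (by exact_mod_cast OD_pos h) h2
  rwa [Real.log_pow] at h3

theorem log_RR_eq (p : ℕ) : Real.log (RR p) = Real.log (SF (8 * p)) + 2 * Real.log (SF (5 * p)) := by
  have h1 : (0 : ℝ) < SF (8 * p) := by exact_mod_cast SF_pos _
  have h2 : (0 : ℝ) < SF (5 * p) := by exact_mod_cast SF_pos _
  unfold RR
  push_cast
  rw [Real.log_mul h1.ne' (by positivity), Real.log_pow]
  push_cast
  ring

theorem exists_equiv (p : ℕ) : 
    Nonempty (Fin (3 * p) × Fin 6 ≃ (Fin (5 * p) ⊕ Fin (5 * p)) ⊕ Fin (8 * p)) := by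
  refine ⟨Fintype.equivOfCardEq ?_⟩
  simp only [Fintype.card_prod, Fintype.card_sum, Fintype.card_fin]
  ring

/-- the constant of the arithmetic lower bound -/
noncomputable def ariConst : ℝ :=
  132 * Real.log 2 + 50 * Real.log 5 - 324 * Real.log 3 + 315 - padG

theorem ari (ξ : ℚ) (ε : ℝ) (hε : 0 < ε) : ∀ᶠ p : ℕ in atTop,
    DQ (6 * p - 1) (fun _ => 6) ξ (5 * p) (5 * p) ≠ 0 →
    -210 * (p : ℝ) ^ 2 * Real.log p + (ariConst - ε) * (p : ℝ) ^ 2
      ≤ Real.log |((DQ (6 * p - 1) (fun _ => 6) ξ (5 * p) (5 * p) : ℚ) : ℝ)| := by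
  obtain ⟨C, p0, hC⟩ := pbounds ξ
  obtain ⟨p1, hp1⟩ := padic_sum C (show 0 < ε / 8 by positivity)
  filter_upwards [eventually_ge_atTop p0, eventually_ge_atTop p1, eventually_ge_atTop 1,
    eventually_err 8 (ε / 8) (by positivity), eventually_err 5 (ε / 16) (by positivity),
    eventually_err 3 (ε / (8 * 36)) (by positivity),
    eventually_small 45 (ε / 8) (by positivity), eventually_small 0 (ε / 8) (by positivity),
    (tendsto_natCast_atTop_atTop (R := ℝ)).eventually (eventually_ge_atTop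
      ((45 * Real.log 6 + Real.log 4) / (ε / 8)))]
    with p hp0 hpp1 hpge e8 e5 e3 es _ elin hD
  obtain ⟨E⟩ := exists_equiv p
  have hp : (1 : ℝ) ≤ p := by exact_mod_cast hpge
  have hp' : (0 : ℝ) < p := by linarith
  have hh : 1 ≤ 3 * p := by omega
  have hdual := dual_det hh (by omega : 5 * p + 5 * p + 8 * p = 6 * (3 * p)) ξ E
  have h63 : 2 * (3 * p) - 1 = 6 * p - 1 := by omega
  rw [h63] at hdual
  change _ = 2 ^ (5 * p) * (4 ^ (6 * (3 * p) - 1)) ^ (3 * (3 * p)) * |DM p ξ E| at hdual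
  set D := DQ (6 * p - 1) (fun _ => 6) ξ (5 * p) (5 * p) with hDdef
  have hM : DM p ξ E ≠ 0 := by
    intro h0
    rw [h0, abs_zero, mul_zero] at hdual
    have h5 : (0 : ℚ) < OD (3 * p) := by exact_mod_cast OD_pos (3 * p)
    have h6 : (0 : ℚ) < SF (3 * p) := by exact_mod_cast SF_pos (3 * p)
    have h7 : (4 ^ (6 * (3 * p) - 1) : ℚ) ^ (8 * p) * ((OD (3 * p) : ℚ) ^ 15 * (SF (3 * p) : ℚ) ^ 36) ≠ 0 := by
      positivity
    rw [mul_assoc] at hdual
    rcases mul_eq_zero.1 hdual with h8 | h8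
    · exact hD (abs_eq_zero.1 h8)
    · exact h7 h8
  have hPB := hC p hp0 E hM
  have hsum := hp1 p hpp1 _ hPB
  -- the product formula
  have hlogM := log_abs_ge hM ((range (8 * p)).filter Nat.Prime) (fun q hq => (mem_filter.1 hq).2)
    (fun q => - padicValRat q (DM p ξ E))
    (fun q hq hq2 => by
      refine hPB.big q hq ?_
      by_contra h9
      exact hq2 (mem_filter.2 ⟨mem_range.2 (by omega), hq⟩))
    (fun q _ => by rw [neg_neg])
  have hlogM' : ∑ q ∈ (range (8 * p)).filter Nat.Prime, (padicValRat q (DM p ξ E) : ℝ) * Real.log q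
      ≤ Real.log |((DM p ξ E : ℚ) : ℝ)| := by
    refine le_trans (le_of_eq ?_) hlogM
    rw [← sum_neg_distrib]
    refine sum_congr rfl fun q _ => ?_
    push_cast
    ring
  -- logarithm of the duality
  have hcast : |((D : ℚ) : ℝ)| * (4 ^ (6 * (3 * p) - 1)) ^ (8 * p) *
      ((OD (3 * p) : ℝ) ^ 15 * (SF (3 * p) : ℝ) ^ 36) =
      2 ^ (5 * p) * (4 ^ (6 * (3 * p) - 1)) ^ (3 * (3 * p)) * |((DM p ξ E : ℚ) : ℝ)| := by
    have := congrArg (fun x : ℚ => (x : ℝ)) hdual
    simpa using this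
  have hOD : (0 : ℝ) < OD (3 * p) := by exact_mod_cast OD_pos (3 * p)
  have hSF : (0 : ℝ) < SF (3 * p) := by exact_mod_cast SF_pos (3 * p)
  have hD' : (0 : ℝ) < |((D : ℚ) : ℝ)| := abs_pos.2 (by exact_mod_cast hD)
  have hM' : (0 : ℝ) < |((DM p ξ E : ℚ) : ℝ)| := abs_pos.2 (by exact_mod_cast hM)
  have hlog := congrArg Real.log hcast
  rw [Real.log_mul (by positivity) (by positivity), Real.log_mul (by positivity) (by positivity),
    Real.log_mul (by positivity) (by positivity), Real.log_mul (by positivity) (by positivity),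
    Real.log_mul (by positivity) (by positivity)] at hlog
  simp only [Real.log_pow] at hlog
  have h18 : ((6 * (3 * p) - 1 : ℕ) : ℝ) = 18 * p - 1 := by
    have : 1 ≤ 6 * (3 * p) := by omega
    push_cast [this]
    ring
  rw [h18] at hlog
  push_cast at hlog
  have hl4 : Real.log 4 = 2 * Real.log 2 := by
    rw [show (4 : ℝ) = 2 ^ 2 by norm_num, Real.log_pow]; norm_num
  have hl8 : Real.log 8 = 3 * Real.log 2 := by
    rw [show (8 : ℝ) = 2 ^ 3 by norm_num, Real.log_pow]; norm_num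
  -- superfactorials
  have s8 := (abs_le.1 (log_SF (8 * p))).1
  have s5 := (abs_le.1 (log_SF (5 * p))).1
  have s3 := (abs_le.1 (log_SF (3 * p))).2
  have g8 : gSF ((8 * p : ℕ) : ℝ) = 64 * (p : ℝ) ^ 2 * (3 * Real.log 2 + Real.log p) +
      (Real.log 2 - 3 / 2) * (64 * (p : ℝ) ^ 2) := by
    unfold gSF
    push_cast
    rw [Real.log_mul (by norm_num) hp'.ne', hl8]; ring
  have g5 : gSF ((5 * p : ℕ) : ℝ) = 25 * (p : ℝ) ^ 2 * (Real.log 5 + Real.log p) +
      (Real.log 2 - 3 / 2) * (25 * (p : ℝ) ^ 2) := by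
    unfold gSF
    push_cast
    rw [Real.log_mul (by norm_num) hp'.ne']; ring
  have g3 : gSF ((3 * p : ℕ) : ℝ) = 9 * (p : ℝ) ^ 2 * (Real.log 3 + Real.log p) +
      (Real.log 2 - 3 / 2) * (9 * (p : ℝ) ^ 2) := by
    unfold gSF
    push_cast
    rw [Real.log_mul (by norm_num) hp'.ne']; ring
  have hODl := log_OD_le (3 * p)
  have hOD2 : Real.log (OD (3 * p)) ≤ 3 * p * Real.log p + 3 * p * Real.log 6 := by
    refine hODl.trans (le_of_eq ?_)
    push_cast
    rw [show (2 * (3 * (p : ℝ))) = 6 * p by ring, Real.log_mul (by norm_num) hp'.ne']; ring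
  rw [log_RR_eq] at hsum
  have elin' : (45 * Real.log 6 + Real.log 4) * p ≤ ε / 8 * (p : ℝ) ^ 2 := by
    have h9 : (45 * Real.log 6 + Real.log 4) ≤ ε / 8 * p := by
      have h10 : 0 < ε / 8 := by positivity
      rw [div_le_iff₀ h10] at elin
      linarith
    nlinarith
  have hl2 : 0 ≤ Real.log 2 := Real.log_nonneg (by norm_num)
  have h2p : 0 ≤ 5 * p * Real.log 2 := by positivity
  unfold ariConst
  rw [g8] at s8
  rw [g5] at s5
  rw [g3] at s3
  rw [hl4] at elin' hlog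
  linarith [hlog, hsum, hlogM', s8, s5, s3, e8, e5, e3, es, elin', hOD2, h2p]

end Pool.Agent.Z5
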