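import Pool.Agent.Z5.NVRing

/-!
# Harmonic sums modulo `p`
-/

open Finset Polynomial

namespace Pool.Agent.Z5.NV

variable {p : ℕ}

theorem filter_dvd_Icc (hp : p.Prime) {a : ℕ} (ha : a < p) (m : ℕ) :
    (Finset.Icc 1 (a + p * m)).filter (fun k => p ∣ k) =
      (Finset.Icc 1 m).image (fun l => p * l) := by
  ext k
  simp only [Finset.mem_filter, Finset.mem_Icc, Finset.mem_image]
  constructor
  · rintro ⟨⟨h1, h2⟩, l, rfl⟩
    refine ⟨l, ⟨?_, ?_⟩, rfl⟩
    · rcases Nat.eq_zero_or_pos l with rfl | h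
      · simp at h1
      · exact h
    · by_contra hl
      push Not at hl
      have h3 : p * (m + 1) ≤ p * l := Nat.mul_le_mul_left p hl
      have h4 : p * (m + 1) = p * m + p := by ring
      omega
  · rintro ⟨l, ⟨h1, h2⟩, rfl⟩
    refine ⟨⟨Nat.mul_pos hp.pos h1, ?_⟩, dvd_mul_right _ _⟩
    have := Nat.mul_le_mul_left p h2
    omega

theorem Hs_cg (hp : p.Prime) {a i : ℕ} (ha : a < p) (hi : 1 ≤ i) (m : ℕ) :
    Cg p hp ((p : ℚ) ^ i * Hs i (a + p * m)) (Hs i m) := by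
  have hp0 : (p : ℚ) ≠ 0 := by exact_mod_cast hp.ne_zero
  have h1 : (p : ℚ) ^ i * Hs i (a + p * m) =
      Hs i m + p * ∑ k ∈ (Finset.Icc 1 (a + p * m)).filter (fun k => ¬ p ∣ k),
        (p : ℚ) ^ (i - 1) * (((k : ℚ))⁻¹) ^ i := by
    unfold Hs
    rw [← Finset.sum_filter_add_sum_filter_not (Finset.Icc 1 (a + p * m)) (fun k => p ∣ k),
      mul_add, filter_dvd_Icc hp ha m]
    congr 1
    · rw [Finset.sum_image fun x _ y _ hxy => Nat.eq_of_mul_eq_mul_left hp.pos hxy, Finset.mul_sum]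
      refine Finset.sum_congr rfl fun l hl => ?_
      have hl0 : (l : ℚ) ≠ 0 := by
        have := (Finset.mem_Icc.mp hl).1
        positivity
      push_cast
      rw [mul_pow]
      field_simp
    · rw [Finset.mul_sum, Finset.mul_sum]
      refine Finset.sum_congr rfl fun k hk => ?_
      obtain ⟨j, rfl⟩ : ∃ j, i = j + 1 := ⟨i - 1, by omega⟩
      rw [Nat.add_sub_cancel, one_div, inv_pow]
      ring
  rw [h1]
  refine ⟨∑ k ∈ (Finset.Icc 1 (a + p * m)).filter (fun k => ¬ p ∣ k),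
        (p : ℚ) ^ (i - 1) * (((k : ℚ))⁻¹) ^ i, sum_mem fun k hk => ?_, by ring⟩
  have hk := (Finset.mem_filter.mp hk).2
  refine mul_mem (pow_mem Zp_p _) (pow_mem ?_ _)
  have h2 : ¬ (p : ℤ) ∣ (k : ℤ) := fun h => hk (by exact_mod_cast h)
  have := Zp_inv_int (hp := hp) h2
  simpa using this

end Pool.Agent.Z5.NV
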