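import Pool.Agent.Z5.NVUnit
import Pool.Agent.Z5.NVHarm

/-!
# The local functionals modulo `p`
-/

open Finset Polynomial

namespace Pool.Agent.Z5.NV

variable {p : ℕ} {hp : p.Prime}

/-! ### linearity -/

theorem lc_C_mul (M : ℕ) (E : ℕ → ℕ) (V : ℕ → PowerSeries ℚ) (c : ℚ) (q : ℚ[X]) (m i : ℕ) :
    lc M E V (C c * q) m i = c * lc M E V q m i := by
  unfold lc
  split_ifs with h
  · have h0 : aeval (xser (M - 1) m) (C c * q) = PowerSeries.C c * aeval (xser (M - 1) m) q := by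
      rw [map_mul, aeval_C]
      rfl
    rw [h0]
    have h2 : (dser (M - 1) E m)⁻¹ * V m * (PowerSeries.C c * aeval (xser (M - 1) m) q) =
        PowerSeries.C c * ((dser (M - 1) E m)⁻¹ * V m * aeval (xser (M - 1) m) q) := by ring
    rw [h2, PowerSeries.coeff_C_mul]
  · rw [mul_zero]

theorem lc_add (M : ℕ) (E : ℕ → ℕ) (V : ℕ → PowerSeries ℚ) (q r : ℚ[X]) (m i : ℕ) :
    lc M E V (q + r) m i = lc M E V q m i + lc M E V r m i := by
  unfold lc
  split_ifs with h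
  · rw [map_add, mul_add, map_add]
  · rw [add_zero]

theorem La_C_mul (M : ℕ) (E : ℕ → ℕ) (ξ : ℚ) (a : ℕ) (c : ℚ) (q : ℚ[X]) :
    La p M E ξ a (C c * q) = c * La p M E ξ a q := by
  unfold La
  simp only [lc_C_mul]
  have e1 : (∑ m ∈ range M, ∑ i ∈ Finset.Icc 1 6,
      c * lc M E (fun m => (W p M E a m)⁻¹) q m i * ((p : ℚ) ^ i * Hs i (a + p * m))) =
      c * ∑ m ∈ range M, ∑ i ∈ Finset.Icc 1 6,
      lc M E (fun m => (W p M E a m)⁻¹) q m i * ((p : ℚ) ^ i * Hs i (a + p * m)) := by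
    rw [Finset.mul_sum]
    refine Finset.sum_congr rfl fun m _ => ?_
    rw [Finset.mul_sum]
    refine Finset.sum_congr rfl fun i _ => ?_
    ring
  rw [e1, ← Finset.mul_sum (range M) _ c]
  ring

theorem La3_C_mul (M : ℕ) (E : ℕ → ℕ) (a : ℕ) (c : ℚ) (q : ℚ[X]) :
    La3 p M E a (C c * q) = c * La3 p M E a q := by
  unfold La3
  simp only [lc_C_mul]
  rw [Finset.mul_sum]

theorem lr0_add (M : ℕ) (E : ℕ → ℕ) (q r : ℚ[X]) :
    lr0 M E (q + r) = lr0 M E q + lr0 M E r := by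
  unfold lr0
  simp only [lc_add, add_mul, Finset.sum_add_distrib]
  ring

theorem lr3_add (M : ℕ) (E : ℕ → ℕ) (q r : ℚ[X]) :
    lr3 M E (q + r) = lr3 M E q + lr3 M E r := by
  unfold lr3
  simp only [lc_add, Finset.sum_add_distrib]

theorem lr0_C_mul (M : ℕ) (E : ℕ → ℕ) (c : ℚ) (q : ℚ[X]) :
    lr0 M E (C c * q) = c * lr0 M E q := by
  unfold lr0
  simp only [lc_C_mul]
  rw [mul_neg, Finset.mul_sum]
  congr 1
  refine Finset.sum_congr rfl fun m _ => ?_
  rw [Finset.mul_sum]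
  refine Finset.sum_congr rfl fun i _ => ?_
  ring

theorem lr3_C_mul (M : ℕ) (E : ℕ → ℕ) (c : ℚ) (q : ℚ[X]) :
    lr3 M E (C c * q) = c * lr3 M E q := by
  unfold lr3
  simp only [lc_C_mul]
  rw [Finset.mul_sum]

/-! ### odd monomials -/

theorem lc_odd (M : ℕ) (E : ℕ → ℕ) (n m i : ℕ) :
    lc M E (fun _ => 1) (X ^ (2 * n + 1)) m i = co (M - 1) E (X ^ n) m i := by
  unfold lc co lser hser
  split_ifs with h
  · rw [map_pow, map_pow, aeval_X, aeval_X]
    congr 1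
    ring
  · rfl

theorem lr0_odd {M : ℕ} (hM : 2 ≤ M) (E : ℕ → ℕ) (n : ℕ) :
    lr0 M E (X ^ (2 * n + 1)) = rho0 (M - 1) E (X ^ n) := by
  unfold lr0 rho0
  simp only [lc_odd]
  rw [show M - 1 + 1 = M by omega]

theorem lr3_odd {M : ℕ} (hM : 2 ≤ M) (E : ℕ → ℕ) (n : ℕ) :
    lr3 M E (X ^ (2 * n + 1)) = rho (M - 1) E 3 (X ^ n) := by
  unfold lr3 rho
  simp only [lc_odd]
  rw [show M - 1 + 1 = M by omega]

/-! ### power series with integral coefficients -/

/-- power series with `p`-integral coefficients -/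
def SZ (p : ℕ) (hp : p.Prime) : Subring (PowerSeries ℚ) where
  carrier := {f | ∀ n, PowerSeries.coeff n f ∈ Zp p hp}
  mul_mem' := by
    intro f g hf hg n
    rw [PowerSeries.coeff_mul]
    exact sum_mem fun x _ => mul_mem (hf _) (hg _)
  one_mem' := by
    intro n
    rw [PowerSeries.coeff_one]
    split_ifs
    · exact one_mem _
    · exact zero_mem _
  add_mem' := by
    intro f g hf hg n
    rw [map_add]
    exact add_mem (hf _) (hg _)
  zero_mem' := by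
    intro n
    rw [map_zero]
    exact zero_mem _
  neg_mem' := by
    intro f hf n
    rw [map_neg]
    exact neg_mem (hf _)

theorem C_mem_SZ {c : ℚ} (hc : c ∈ Zp p hp) : PowerSeries.C c ∈ SZ p hp := by
  intro n
  rw [PowerSeries.coeff_C]
  split_ifs
  · exact hc
  · exact zero_mem _

theorem X_mem_SZ : (PowerSeries.X : PowerSeries ℚ) ∈ SZ p hp := by
  intro n
  rw [PowerSeries.coeff_X]
  split_ifs
  · exact one_mem _
  · exact zero_mem _

theorem xser_mem_SZ (L u : ℕ) : xser L u ∈ SZ p hp := by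
  unfold xser
  refine add_mem (C_mem_SZ ?_) (mul_mem ?_ X_mem_SZ)
  · refine sub_mem (Zp_nat _) (mul_mem ?_ (Zp_nat _))
    exact_mod_cast Zp_nat 2
  · exact ofNat_mem _ 2

theorem aeval_mem_SZ {x : PowerSeries ℚ} (hx : x ∈ SZ p hp) (q : ℤ[X]) :
    aeval x (q.map (Int.castRingHom ℚ)) ∈ SZ p hp := by
  induction q using Polynomial.induction_on' with
  | add f g hf hg => rw [Polynomial.map_add, map_add]; exact add_mem hf hg
  | monomial n c =>
    rw [Polynomial.map_monomial, ← C_mul_X_pow_eq_monomial, map_mul, map_pow, aeval_X, aeval_C]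
    refine mul_mem ?_ (pow_mem hx _)
    have h1 : algebraMap ℚ (PowerSeries ℚ) ((Int.castRingHom ℚ) c) =
      PowerSeries.C ((Int.castRingHom ℚ) c) := rfl
    rw [h1]
    exact C_mem_SZ (by simp [Zp_int c])

/-! ### the congruences -/

/-- finitely many rational numbers are `p`-integral for all large `p` -/
theorem Zp_large_finset {ι : Type*} (s : Finset ι) (f : ι → ℚ) :
    ∃ p0 : ℕ, ∀ (p : ℕ) (hp : p.Prime), p0 ≤ p → ∀ i ∈ s, f i ∈ Zp p hp := by
  classical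
  choose g hg using fun i => Zp_large (f i)
  refine ⟨s.sup g, fun p hp h i hi => hg i p hp (le_trans (Finset.le_sup hi) h)⟩

/-- truncated products -/
theorem coeff_mul_mem {k : ℕ} {f g : PowerSeries ℚ} (hf : ∀ n ≤ k, PowerSeries.coeff n f ∈ Zp p hp)
    (hg : ∀ n ≤ k, PowerSeries.coeff n g ∈ Zp p hp) :
    ∀ n ≤ k, PowerSeries.coeff n (f * g) ∈ Zp p hp := by
  intro n hn
  rw [PowerSeries.coeff_mul]
  refine sum_mem fun x hx => mul_mem (hf _ ?_) (hg _ ?_)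
  · have := Finset.HasAntidiagonal.mem_antidiagonal.mp hx; omega
  · have := Finset.HasAntidiagonal.mem_antidiagonal.mp hx; omega

theorem coeff_mul_cg {k : ℕ} {f g f' g' : PowerSeries ℚ}
    (hf : ∀ n ≤ k, Cg p hp (PowerSeries.coeff n f) (PowerSeries.coeff n f'))
    (hg : ∀ n ≤ k, Cg p hp (PowerSeries.coeff n g) (PowerSeries.coeff n g'))
    (hf' : ∀ n ≤ k, PowerSeries.coeff n f' ∈ Zp p hp)
    (hg' : ∀ n ≤ k, PowerSeries.coeff n g' ∈ Zp p hp) :
    ∀ n ≤ k, Cg p hp (PowerSeries.coeff n (f * g)) (PowerSeries.coeff n (f' * g')) := by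
  intro n hn
  rw [PowerSeries.coeff_mul, PowerSeries.coeff_mul]
  refine Cg.sum _ _ _ fun x hx => ?_
  have hx1 : x.1 ≤ k := by have := Finset.HasAntidiagonal.mem_antidiagonal.mp hx; omega
  have hx2 : x.2 ≤ k := by have := Finset.HasAntidiagonal.mem_antidiagonal.mp hx; omega
  exact (hf _ hx1).mul (hg _ hx2) (hf' _ hx1) ((hg _ hx2).mem (hg' _ hx2))

theorem lc_one_mem {M : ℕ} {E : ℕ → ℕ} {m : ℕ}
    (hd : ∀ n ≤ E m, PowerSeries.coeff n (dser (M - 1) E m)⁻¹ ∈ Zp p hp) (q : ℤ[X]) (i : ℕ) :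
    lc M E (fun _ => 1) (q.map (Int.castRingHom ℚ)) m i ∈ Zp p hp := by
  unfold lc
  split_ifs with h
  · rw [mul_one]
    refine coeff_mul_mem hd (fun n _ => ?_) _ (Nat.sub_le _ _)
    exact aeval_mem_SZ (xser_mem_SZ _ _) q n
  · exact zero_mem _

theorem lc_cg (h2 : p ≠ 2) {M : ℕ} {E : ℕ → ℕ} (hT : Even (∑ n ∈ range M, E n)) {a m : ℕ}
    (ha : a < p) (hm : m < M)
    (hd : ∀ n ≤ E m, PowerSeries.coeff n (dser (M - 1) E m)⁻¹ ∈ Zp p hp) (q : ℤ[X]) (i : ℕ) :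
    Cg p hp (lc M E (fun m => (W p M E a m)⁻¹) (q.map (Int.castRingHom ℚ)) m i)
      (lc M E (fun _ => 1) (q.map (Int.castRingHom ℚ)) m i) := by
  unfold lc
  split_ifs with h
  · have hW : ∀ n ≤ E m, Cg p hp (PowerSeries.coeff n (W p M E a m)⁻¹)
        (PowerSeries.coeff n (1 : PowerSeries ℚ)) := by
      intro n _
      rw [PowerSeries.coeff_one]
      exact W_inv_cg hp h2 hT ha hm n
    have h1 : ∀ n ≤ E m, PowerSeries.coeff n (1 : PowerSeries ℚ) ∈ Zp p hp := by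
      intro n _
      exact one_mem (SZ p hp) n
    have hq : ∀ n ≤ E m, PowerSeries.coeff n
        (aeval (xser (M - 1) m) (q.map (Int.castRingHom ℚ))) ∈ Zp p hp := fun n _ =>
      aeval_mem_SZ (xser_mem_SZ _ _) q n
    exact coeff_mul_cg (coeff_mul_cg (fun n _ => Cg.refl _) hW hd h1) (fun n _ => Cg.refl _)
      (coeff_mul_mem hd h1) hq _ (Nat.sub_le _ _)
  · exact Cg.refl _

theorem La_cg (M : ℕ) (E : ℕ → ℕ) (hT : Even (∑ n ∈ range M, E n)) (ξ : ℚ) :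
    ∃ p0 : ℕ, ∀ (p : ℕ) (hp : p.Prime), p0 ≤ p → ∀ a < p, ∀ q : ℤ[X],
      Cg p hp (La p M E ξ a (q.map (Int.castRingHom ℚ))) (lr0 M E (q.map (Int.castRingHom ℚ))) ∧
      Cg p hp (La3 p M E a (q.map (Int.castRingHom ℚ))) (lr3 M E (q.map (Int.castRingHom ℚ))) ∧
      lr0 M E (q.map (Int.castRingHom ℚ)) ∈ Zp p hp ∧
      lr3 M E (q.map (Int.castRingHom ℚ)) ∈ Zp p hp := by
  obtain ⟨p1, h1⟩ := Zp_large ξ
  obtain ⟨p2, h2⟩ := Zp_large_finset ((range M).sigma fun m => range (E m + 1))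
    (fun x => PowerSeries.coeff x.2 (dser (M - 1) E x.1)⁻¹)
  obtain ⟨p3, h3⟩ := Zp_large_finset ((range M) ×ˢ (Finset.Icc 1 6)) (fun x => Hs x.2 x.1)
  refine ⟨max (max p1 p2) (max p3 3), fun p hp hpp a ha q => ?_⟩
  have g1 := h1 p hp (by omega)
  have g2 : ∀ m < M, ∀ n ≤ E m, PowerSeries.coeff n (dser (M - 1) E m)⁻¹ ∈ Zp p hp := by
    intro m hm n hn
    exact h2 p hp (by omega) ⟨m, n⟩ (by
      rw [Finset.mem_sigma]
      exact ⟨Finset.mem_range.mpr hm, Finset.mem_range.mpr (Nat.lt_succ_of_le hn)⟩)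
  have g3 : ∀ m < M, ∀ i ∈ Finset.Icc 1 6, Hs i m ∈ Zp p hp := by
    intro m hm i hi
    exact h3 p hp (by omega) ⟨m, i⟩ (Finset.mem_product.mpr ⟨Finset.mem_range.mpr hm, hi⟩)
  have hp2 : p ≠ 2 := by omega
  have c1 : ∀ m < M, ∀ i, Cg p hp
      (lc M E (fun m => (W p M E a m)⁻¹) (q.map (Int.castRingHom ℚ)) m i)
      (lc M E (fun _ => 1) (q.map (Int.castRingHom ℚ)) m i) := fun m hm i =>
    lc_cg hp2 hT ha hm (g2 m hm) q i
  have c2 : ∀ m < M, ∀ i, lc M E (fun _ => 1) (q.map (Int.castRingHom ℚ)) m i ∈ Zp p hp :=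
    fun m hm i => lc_one_mem (g2 m hm) q i
  refine ⟨?_, ?_, ?_, ?_⟩
  · unfold La lr0
    rw [← add_zero (-∑ m ∈ range M, ∑ i ∈ Finset.Icc 1 6,
      lc M E (fun _ => 1) (q.map (Int.castRingHom ℚ)) m i * Hs i m)]
    refine Cg.add (Cg.neg (Cg.sum _ _ _ fun m hm => Cg.sum _ _ _ fun i hi => ?_)) ?_
    · have hm' := Finset.mem_range.mp hm
      have e1 := Hs_cg hp ha (Finset.mem_Icc.mp hi).1 m
      exact (c1 m hm' i).mul e1 (c2 m hm' i) (e1.mem (g3 m hm' i hi))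
    · have e2 : ξ * (p : ℚ) ^ 5 * ∑ m ∈ range M,
          lc M E (fun m => (W p M E a m)⁻¹) (q.map (Int.castRingHom ℚ)) m 5 =
          p * (ξ * (p : ℚ) ^ 4 * ∑ m ∈ range M,
          lc M E (fun m => (W p M E a m)⁻¹) (q.map (Int.castRingHom ℚ)) m 5) := by ring
      rw [e2]
      refine Cg.of_mem (mul_mem (mul_mem g1 (pow_mem Zp_p _)) (sum_mem fun m hm => ?_))
      have hm' := Finset.mem_range.mp hm
      exact (c1 m hm' 5).mem (c2 m hm' 5)
  · unfold La3 lr3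
    exact Cg.sum _ _ _ fun m hm => c1 m (Finset.mem_range.mp hm) 3
  · unfold lr0
    exact neg_mem (sum_mem fun m hm => sum_mem fun i hi =>
      mul_mem (c2 m (Finset.mem_range.mp hm) i) (g3 m (Finset.mem_range.mp hm) i hi))
  · unfold lr3
    exact sum_mem fun m hm => c2 m (Finset.mem_range.mp hm) 3

end Pool.Agent.Z5.NV
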