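import Pool.Agent.Z5.NVDefs

/-!
# Non-vanishing: local expansions on the residue classes (rescaling `X ↦ p X`)
-/

open Finset Polynomial

namespace Pool.Agent.Z5.NV

variable {p : ℕ}

/-- rescaling commutes with inversion -/
theorem nvl_rescale_inv (c : ℚ) (f : PowerSeries ℚ) :
    PowerSeries.rescale c f⁻¹ = (PowerSeries.rescale c f)⁻¹ := by
  by_cases h : PowerSeries.constantCoeff f = 0
  · have h1 : f⁻¹ = 0 := by
      rw [PowerSeries.inv_eq_zero]; exact h
    have h2 : (PowerSeries.rescale c f)⁻¹ = 0 := by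
      rw [PowerSeries.inv_eq_zero]
      rw [← PowerSeries.coeff_zero_eq_constantCoeff_apply, PowerSeries.coeff_rescale]
      simpa using h
    rw [h1, h2, map_zero]
  · have h0 : PowerSeries.constantCoeff (PowerSeries.rescale c f) ≠ 0 := by
      rw [← PowerSeries.coeff_zero_eq_constantCoeff_apply, PowerSeries.coeff_rescale]
      simpa using h
    symm
    rw [PowerSeries.inv_eq_iff_mul_eq_one h0, ← map_mul, PowerSeries.inv_mul_cancel _ h, map_one]

/-- sums over `range (M * p)`, sorted by residue classes -/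
theorem nvl_sum_range {β : Type*} [AddCommMonoid β] (M p : ℕ) (f : ℕ → β) :
    ∑ u ∈ range (M * p), f u = ∑ a ∈ range p, ∑ m ∈ range M, f (a + p * m) := by
  induction M with
  | zero => simp
  | succ M ih =>
    rw [show (M + 1) * p = M * p + p by ring, Finset.sum_range_add, ih, ← Finset.sum_add_distrib]
    refine Finset.sum_congr rfl fun a _ => ?_
    rw [Finset.sum_range_succ, show M * p + a = a + p * M by ring]

/-- products over `range (M * p)`, sorted by residue classes -/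
theorem nvl_prod_range {β : Type*} [CommMonoid β] (M p : ℕ) (f : ℕ → β) :
    ∏ u ∈ range (M * p), f u = ∏ m ∈ range M, ∏ b ∈ range p, f (b + p * m) := by
  induction M with
  | zero => simp
  | succ M ih =>
    rw [show (M + 1) * p = M * p + p by ring, Finset.prod_range_add, ih, Finset.prod_range_succ]
    congr 1
    refine Finset.prod_congr rfl fun a _ => ?_
    rw [show M * p + a = a + p * M by ring]

theorem nvl_rescale_C (c d : ℚ) :
    PowerSeries.rescale c (PowerSeries.C d) = PowerSeries.C d := by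
  ext n
  rw [PowerSeries.coeff_rescale, PowerSeries.coeff_C]
  split_ifs with h
  · subst h; simp
  · simp

theorem nvl_prod_erase {β : Type*} [CommMonoid β] (s : Finset ℕ) (u : ℕ) (f : ℕ → β) :
    ∏ v ∈ s.erase u, f v = ∏ v ∈ s, (if v = u then 1 else f v) := by
  by_cases hu : u ∈ s
  · rw [← Finset.mul_prod_erase s _ hu, if_pos rfl, one_mul]
    refine Finset.prod_congr rfl fun v hv => ?_
    rw [if_neg (Finset.ne_of_mem_erase hv)]
  · rw [Finset.erase_eq_of_notMem hu]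
    refine Finset.prod_congr rfl fun v hv => ?_
    rw [if_neg (fun h : v = u => hu (h ▸ hv))]

theorem nvl_div {p a m : ℕ} (ha : a < p) : (a + p * m) / p = m := by
  rw [Nat.add_mul_div_left _ _ (by omega), Nat.div_eq_of_lt ha, zero_add]

theorem nvl_eq_iff {p a b m n : ℕ} (ha : a < p) (hb : b < p) :
    b + p * n = a + p * m ↔ b = a ∧ n = m := by
  constructor
  · intro h
    have h1 : n = m := by rw [← nvl_div (m := n) hb, h, nvl_div ha]
    subst h1
    exact ⟨by omega, rfl⟩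
  · rintro ⟨rfl, rfl⟩; rfl

/-- the rescaled denominator -/
theorem nvl_dser {p M : ℕ} (hp : 0 < p) (hM : 0 < M) (E : ℕ → ℕ) {a m : ℕ} (ha : a < p)
    (hm : m < M) :
    PowerSeries.rescale (p : ℚ) (dser (M * p - 1) (fun u => E (u / p)) (a + p * m)) =
      W p M E a m * PowerSeries.C ((p : ℚ) ^ (∑ n ∈ (range M).erase m, E n)) *
        dser (M - 1) E m := by
  have hL : M * p - 1 + 1 = M * p := Nat.sub_add_cancel (Nat.mul_pos hM hp)
  have hM1 : M - 1 + 1 = M := Nat.sub_add_cancel hM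
  have hX : PowerSeries.rescale (p : ℚ) (PowerSeries.X : PowerSeries ℚ) =
      PowerSeries.C (p : ℚ) * PowerSeries.X := by
    rw [PowerSeries.rescale_X]
  have hC : ∀ c : ℚ, PowerSeries.rescale (p : ℚ) (PowerSeries.C c) = PowerSeries.C c := by
    intro c
    exact nvl_rescale_C _ _
  unfold dser W
  rw [hL, hM1, map_prod, nvl_prod_erase, nvl_prod_range, nvl_prod_erase, ← Finset.prod_pow_eq_pow_sum,
    nvl_prod_erase, map_prod, ← Finset.prod_mul_distrib, ← Finset.prod_mul_distrib]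
  refine Finset.prod_congr rfl fun n _ => ?_
  have hap : a ∈ range p := Finset.mem_range.mpr ha
  rw [← Finset.mul_prod_erase (range p) _ hap]
  have h1 : ∀ b ∈ (range p).erase a, (if b + p * n = a + p * m then (1 : PowerSeries ℚ) else
      PowerSeries.rescale (p : ℚ) ((PowerSeries.C (((b + p * n : ℕ) : ℚ) - ((a + p * m : ℕ) : ℚ)) +
        PowerSeries.X) ^ E ((b + p * n) / p))) =
      (PowerSeries.C ((b : ℚ) - a + p * ((n : ℚ) - m)) +
        PowerSeries.C (p : ℚ) * PowerSeries.X) ^ E n := by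
    intro b hb
    have hb1 := Finset.ne_of_mem_erase hb
    have hb2 := Finset.mem_range.mp (Finset.mem_of_mem_erase hb)
    rw [if_neg (fun h => hb1 ((nvl_eq_iff ha hb2).mp h).1), nvl_div hb2, map_pow, map_add, hX, hC]
    congr 3
    push_cast; ring
  rw [Finset.prod_congr rfl h1]
  by_cases hnm : n = m
  · subst hnm
    simp
  · rw [if_neg (fun h => hnm ((nvl_eq_iff ha ha).mp h).2), if_neg hnm, if_neg hnm]
    beta_reduce
    rw [nvl_div ha, map_pow, map_add, hX, hC]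
    rw [show (((a + p * n : ℕ) : ℚ) - ((a + p * m : ℕ) : ℚ)) = (p : ℚ) * ((n : ℚ) - m) by
      push_cast; ring]
    rw [map_mul, ← mul_add, mul_pow, map_pow]
    ring

/-- the rescaled numerator -/
theorem nvl_xser {p M : ℕ} (hp : 0 < p) (hM : 0 < M) {a m : ℕ} :
    PowerSeries.rescale (p : ℚ) (xser (M * p - 1) (a + p * m)) =
      PowerSeries.C (tt p a : ℚ) + PowerSeries.C (p : ℚ) * xser (M - 1) m := by
  have hX : PowerSeries.rescale (p : ℚ) (PowerSeries.X : PowerSeries ℚ) =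
      PowerSeries.C (p : ℚ) * PowerSeries.X := by
    rw [PowerSeries.rescale_X]
  have hC : ∀ c : ℚ, PowerSeries.rescale (p : ℚ) (PowerSeries.C c) = PowerSeries.C c := by
    intro c
    exact nvl_rescale_C _ _
  unfold xser
  rw [map_add, map_mul, hX, hC, map_ofNat]
  have h1 : ((M * p - 1 : ℕ) : ℚ) = (M : ℚ) * p - 1 := by
    rw [Nat.cast_sub (Nat.mul_pos hM hp)]; push_cast; ring
  have h2 : ((M - 1 : ℕ) : ℚ) = (M : ℚ) - 1 := by
    rw [Nat.cast_sub hM]; push_cast; ring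
  have h3 : ((M * p - 1 : ℕ) : ℚ) - 2 * ((a + p * m : ℕ) : ℚ) =
      (tt p a : ℚ) + p * (((M - 1 : ℕ) : ℚ) - 2 * m) := by
    rw [h1, h2]; unfold tt; push_cast; ring
  rw [h3, map_add, map_mul]
  ring

/-- the rescaled local series -/
theorem nvl_lser {p M : ℕ} (hp : 0 < p) (hM : 0 < M) (E : ℕ → ℕ) {a m : ℕ} (ha : a < p)
    (hm : m < M) (h : ℚ[X]) :
    PowerSeries.rescale (p : ℚ) (lser (M * p - 1) (fun u => E (u / p)) (a + p * m) h) =
      PowerSeries.C (((p : ℚ) ^ (∑ n ∈ (range M).erase m, E n))⁻¹) *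
        ((dser (M - 1) E m)⁻¹ * (W p M E a m)⁻¹ * aeval (xser (M - 1) m) (ql p a h)) := by
  unfold lser hser
  rw [map_mul, map_mul, nvl_rescale_inv, nvl_dser hp hM E ha hm, nvl_xser hp hM]
  have h1 : PowerSeries.rescale (p : ℚ) (aeval (xser (M * p - 1) (a + p * m) ^ 2) h) =
      aeval ((PowerSeries.C (tt p a : ℚ) + PowerSeries.C (p : ℚ) * xser (M - 1) m) ^ 2) h := by
    rw [← nvl_xser hp hM (a := a), ← map_pow]
    rw [Polynomial.aeval_def, Polynomial.aeval_def, Polynomial.hom_eval₂]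
    congr 1
    ext1 c
    exact nvl_rescale_C _ _
  have h2 : aeval (xser (M - 1) m) (ql p a h) =
      (PowerSeries.C (tt p a : ℚ) + PowerSeries.C (p : ℚ) * xser (M - 1) m) *
        aeval ((PowerSeries.C (tt p a : ℚ) + PowerSeries.C (p : ℚ) * xser (M - 1) m) ^ 2) h := by
    unfold ql
    rw [map_mul, Polynomial.aeval_comp]
    simp only [map_add, map_mul, map_pow, Polynomial.aeval_C, Polynomial.aeval_X]
    rfl
  rw [h1, h2, PowerSeries.mul_inv_rev, PowerSeries.mul_inv_rev, PowerSeries.C_inv]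
  ring

theorem co_eq (hp : p.Prime) {M : ℕ} (hM : 2 ≤ M) (E : ℕ → ℕ) {a m : ℕ} (ha : a < p) (hm : m < M)
    (h : ℚ[X]) (i : ℕ) :
    co (M * p - 1) (fun u => E (u / p)) h (a + p * m) i =
      (p : ℚ) ^ ((i : ℤ) - ((∑ n ∈ range M, E n : ℕ) : ℤ)) *
        lc M E (fun m => (W p M E a m)⁻¹) (ql p a h) m i := by
  have hp0 : (p : ℚ) ≠ 0 := by exact_mod_cast hp.ne_zero
  unfold co lc
  beta_reduce
  rw [nvl_div ha]
  split_ifs with hi
  · have h1 := congrArg (PowerSeries.coeff (E m - i))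
      (nvl_lser hp.pos (by omega : 0 < M) E ha hm h)
    rw [PowerSeries.coeff_rescale, PowerSeries.coeff_C_mul] at h1
    have h2 : (p : ℚ) ^ (E m - i) ≠ 0 := pow_ne_zero _ hp0
    have h3 : ∑ n ∈ range M, E n = E m + ∑ n ∈ (range M).erase m, E n :=
      (Finset.add_sum_erase _ _ (Finset.mem_range.mpr hm)).symm
    rw [h3]
    have h4 : (p : ℚ) ^ ((i : ℤ) - ((E m + ∑ n ∈ (range M).erase m, E n : ℕ) : ℤ)) =
        ((p : ℚ) ^ (∑ n ∈ (range M).erase m, E n))⁻¹ * ((p : ℚ) ^ (E m - i))⁻¹ := by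
      rw [show (i : ℤ) - ((E m + ∑ n ∈ (range M).erase m, E n : ℕ) : ℤ) =
        -((∑ n ∈ (range M).erase m, E n : ℕ) : ℤ) + -((E m - i : ℕ) : ℤ) by
          rw [Nat.cast_sub hi.2]; push_cast; ring]
      rw [zpow_add₀ hp0, zpow_neg, zpow_neg, zpow_natCast, zpow_natCast]
    rw [h4]
    field_simp
    field_simp at h1
    linear_combination h1
  · simp

theorem nvl_pow_mul_co (hp : p.Prime) {M : ℕ} (hM : 2 ≤ M) (E : ℕ → ℕ) {a m : ℕ} (ha : a < p)
    (hm : m < M) (h : ℚ[X]) (i : ℕ) :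
    (p : ℚ) ^ (∑ n ∈ range M, E n) * co (M * p - 1) (fun u => E (u / p)) h (a + p * m) i =
      (p : ℚ) ^ i * lc M E (fun m => (W p M E a m)⁻¹) (ql p a h) m i := by
  have hp0 : (p : ℚ) ≠ 0 := by exact_mod_cast hp.ne_zero
  rw [co_eq hp hM E ha hm, ← mul_assoc]
  congr 1
  rw [← zpow_natCast, ← zpow_add₀ hp0, ← zpow_natCast]
  congr 1
  ring

theorem nvl_rho (hp : p.Prime) {M : ℕ} (hM : 2 ≤ M) (E : ℕ → ℕ) (h : ℚ[X]) (i : ℕ) :
    (p : ℚ) ^ (∑ n ∈ range M, E n) * rho (M * p - 1) (fun u => E (u / p)) i h =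
      (p : ℚ) ^ i * ∑ a ∈ range p, ∑ m ∈ range M,
        lc M E (fun m => (W p M E a m)⁻¹) (ql p a h) m i := by
  have hL : M * p - 1 + 1 = M * p := Nat.sub_add_cancel (Nat.mul_pos (by omega) hp.pos)
  unfold rho
  rw [hL, nvl_sum_range, Finset.mul_sum, Finset.mul_sum]
  refine Finset.sum_congr rfl fun a ha => ?_
  rw [Finset.mul_sum, Finset.mul_sum]
  refine Finset.sum_congr rfl fun m hm => ?_
  exact nvl_pow_mul_co hp hM E (Finset.mem_range.mp ha) (Finset.mem_range.mp hm) h i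

theorem nvl_rho0 (hp : p.Prime) {M : ℕ} (hM : 2 ≤ M) (E : ℕ → ℕ) (h : ℚ[X]) :
    (p : ℚ) ^ (∑ n ∈ range M, E n) * rho0 (M * p - 1) (fun u => E (u / p)) h =
      ∑ a ∈ range p, - ∑ m ∈ range M, ∑ i ∈ Finset.Icc 1 6,
        lc M E (fun m => (W p M E a m)⁻¹) (ql p a h) m i * ((p : ℚ) ^ i * Hs i (a + p * m)) := by
  have hL : M * p - 1 + 1 = M * p := Nat.sub_add_cancel (Nat.mul_pos (by omega) hp.pos)
  unfold rho0
  rw [hL, nvl_sum_range, mul_neg, Finset.mul_sum, ← Finset.sum_neg_distrib]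
  refine Finset.sum_congr rfl fun a ha => ?_
  rw [Finset.mul_sum]
  congr 1
  refine Finset.sum_congr rfl fun m hm => ?_
  rw [Finset.mul_sum]
  refine Finset.sum_congr rfl fun i _ => ?_
  rw [← mul_assoc, nvl_pow_mul_co hp hM E (Finset.mem_range.mp ha) (Finset.mem_range.mp hm) h i]
  ring

theorem Ph_eq (hp : p.Prime) {M : ℕ} (hM : 2 ≤ M) (E : ℕ → ℕ) (ξ : ℚ) (h : ℚ[X]) :
    (p : ℚ) ^ (∑ n ∈ range M, E n) * Ph (M * p - 1) (fun u => E (u / p)) ξ h =
      ∑ a ∈ range p, La p M E ξ a (ql p a h) := by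
  unfold Ph La
  rw [Finset.sum_add_distrib, ← nvl_rho0 hp hM E h, mul_add]
  congr 1
  rw [mul_left_comm, nvl_rho hp hM E h 5, ← mul_assoc, Finset.mul_sum]

theorem rho3_eq (hp : p.Prime) {M : ℕ} (hM : 2 ≤ M) (E : ℕ → ℕ) (h : ℚ[X]) :
    (p : ℚ) ^ (∑ n ∈ range M, E n) * rho (M * p - 1) (fun u => E (u / p)) 3 h =
      (p : ℚ) ^ 3 * ∑ a ∈ range p, La3 p M E a (ql p a h) := by
  unfold La3
  exact nvl_rho hp hM E h 3

end Pool.Agent.Z5.NV
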