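import Pool.Agent.Z5.NVDefs

/-!
# Non-vanishing, module NVE: the basis polynomials on the residue classes
-/

open Finset Polynomial

namespace Pool.Agent.Z5.NV

/-- the linear polynomial `c + p X` -/
noncomputable def el (p : ℕ) (c : ℤ) : ℤ[X] := C c + C (p : ℤ) * X

/-- `q = p ^ n (r + p g)` -/
def Dv (p n : ℕ) (q r : ℤ[X]) : Prop := ∃ g : ℤ[X], q = C ((p : ℤ) ^ n) * (r + C (p : ℤ) * g)

variable {p : ℕ}

theorem Dv.mul {n n' : ℕ} {q r q' r' : ℤ[X]} (h : Dv p n q r) (h' : Dv p n' q' r') :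
    Dv p (n + n') (q * q') (r * r') := by
  obtain ⟨g, hg⟩ := h
  obtain ⟨g', hg'⟩ := h'
  refine ⟨r * g' + g * r' + C (p : ℤ) * g * g', ?_⟩
  rw [hg, hg', pow_add, C_mul]; ring

theorem Dv.one : Dv p 0 1 1 := ⟨0, by simp⟩

theorem Dv.pow {n : ℕ} {q r : ℤ[X]} (h : Dv p n q r) (m : ℕ) : Dv p (n * m) (q ^ m) (r ^ m) := by
  induction m with
  | zero => simpa using Dv.one
  | succ m ih => rw [pow_succ, pow_succ, Nat.mul_succ]; exact ih.mul h

theorem Dv.prod {ι : Type*} (s : Finset ι) (n : ι → ℕ) (q r : ι → ℤ[X])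
    (h : ∀ i ∈ s, Dv p (n i) (q i) (r i)) :
    Dv p (∑ i ∈ s, n i) (∏ i ∈ s, q i) (∏ i ∈ s, r i) := by
  classical
  induction s using Finset.induction_on with
  | empty => simpa using Dv.one
  | insert a s ha ih =>
    rw [Finset.sum_insert ha, Finset.prod_insert ha, Finset.prod_insert ha]
    exact (h a (Finset.mem_insert_self _ _)).mul (ih fun i hi => h i (Finset.mem_insert_of_mem hi))

theorem Dv.weaken {n k : ℕ} {q r : ℤ[X]} (h : Dv p n q r) (hk : k + 1 ≤ n) : Dv p k q 0 := by
  obtain ⟨g, hg⟩ := h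
  obtain ⟨d, rfl⟩ := Nat.exists_eq_add_of_le hk
  refine ⟨C ((p : ℤ) ^ d) * (r + C (p : ℤ) * g), ?_⟩
  rw [hg, pow_add, pow_add, C_mul, C_mul, pow_one]; ring

theorem el_zero : el p 0 = C (p : ℤ) * X := by simp [el]

theorem Dv_el_zero : Dv p 1 (el p 0) X := ⟨0, by simp [el]⟩

theorem Dv_el (c : ℤ) : Dv p 0 (el p c) (C c) := ⟨X, by simp [el]⟩

theorem yy_comp (b b' : ℕ) : (yy p b').comp (el p (tt p b) ^ 2) =
    el p (tt p b - tt p b') * el p (tt p b + tt p b') := by
  simp only [yy, el, sub_comp, X_comp, C_comp]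
  simp only [C_sub, C_add, C_pow]; ring

theorem tt_rev {a : ℕ} (ha : a < p) : tt p (p - 1 - a) = - tt p a := by
  simp only [tt]; omega

theorem tt_sub_eq {b b' : ℕ} : tt p b - tt p b' = 0 ↔ b' = b := by
  simp only [tt]; omega

theorem tt_add_eq {b b' : ℕ} (hb : b < p) : tt p b + tt p b' = 0 ↔ b' = p - 1 - b := by
  simp only [tt]; omega

/-- the remainder of `yy p b'` on the class `b` -/
noncomputable def rr (p b b' : ℕ) : ℤ[X] :=
  (if b' = b then X else C (tt p b - tt p b')) * (if b' = p - 1 - b then X else C (tt p b + tt p b'))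

/-- the exponent of `yy p b'` on the class `b` -/
def vv (p b b' : ℕ) : ℕ := (if b' = b then 1 else 0) + (if b' = p - 1 - b then 1 else 0)

theorem yy_dv {b b' : ℕ} (hb : b < p) :
    Dv p (vv p b b') ((yy p b').comp (el p (tt p b) ^ 2)) (rr p b b') := by
  rw [yy_comp]
  refine Dv.mul ?_ ?_
  · split_ifs with h
    · rw [tt_sub_eq.mpr h]; exact Dv_el_zero
    · exact Dv_el _
  · split_ifs with h
    · rw [(tt_add_eq hb).mpr h]; exact Dv_el_zero
    · exact Dv_el _

/-- `p`-exponent of `yy p a ^ ex p a i` on the class `a` -/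
def ex2 (p a i : ℕ) : ℕ := 2 * i + if p < 2 * a + 1 then 1 else 0

theorem Pi_comp (n a i b : ℕ) : (Pi p n a i).comp (el p (tt p b) ^ 2) =
    ((yy p a).comp (el p (tt p b) ^ 2)) ^ ex p a i *
      ∏ b' ∈ ((range p).erase a).erase (p - 1 - a), ((yy p b').comp (el p (tt p b) ^ 2)) ^ n := by
  simp only [Pi, mul_comp, pow_comp, Polynomial.prod_comp]

theorem Pi_dv_aux {n a i b : ℕ} (hb : b < p) :
    Dv p (vv p b a * ex p a i + ∑ b' ∈ ((range p).erase a).erase (p - 1 - a), vv p b b' * n)
      ((Pi p n a i).comp (el p (tt p b) ^ 2))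
      (rr p b a ^ ex p a i * ∏ b' ∈ ((range p).erase a).erase (p - 1 - a), rr p b b' ^ n) := by
  rw [Pi_comp]
  exact ((yy_dv hb).pow _).mul (Dv.prod _ _ _ _ fun b' _ => (yy_dv hb).pow n)

theorem Pi_dv_off {n a i b : ℕ} (ha : a < p) (hb : b < p) (h1 : b ≠ a) (h2 : b ≠ p - 1 - a) :
    ∃ r, Dv p (2 * n) ((Pi p n a i).comp (el p (tt p b) ^ 2)) r := by
  refine ⟨rr p b a ^ ex p a i * ∏ b' ∈ ((range p).erase a).erase (p - 1 - a), rr p b b' ^ n, ?_⟩
  have h := Pi_dv_aux (n := n) (a := a) (i := i) hb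
  have e : vv p b a * ex p a i + ∑ b' ∈ ((range p).erase a).erase (p - 1 - a), vv p b b' * n
      = 2 * n := by
    have e1 : vv p b a = 0 := by
      simp only [vv]; rw [if_neg (Ne.symm h1), if_neg (by omega)]
    rw [e1, zero_mul, zero_add, ← Finset.sum_mul]
    congr 1
    simp only [vv]
    rw [Finset.sum_add_distrib, Finset.sum_ite_eq', Finset.sum_ite_eq', if_pos, if_pos]
    · simp only [mem_erase, mem_range]; omega
    · simp only [mem_erase, mem_range]; omega
  rwa [e] at h

theorem AA_eq {a b : ℕ} (ha : a < p) (h : b = a ∨ b = p - 1 - a) :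
    ∏ b' ∈ ((range p).erase a).erase (p - 1 - a), (tt p b ^ 2 - tt p b' ^ 2) = AA p a := by
  have : tt p b ^ 2 = tt p a ^ 2 := by
    rcases h with rfl | rfl
    · rfl
    · rw [tt_rev ha]; ring
  rw [this, AA]

theorem AA_rev {a : ℕ} (ha : a < p) : AA p (p - 1 - a) = AA p a := by
  have e : p - 1 - (p - 1 - a) = a := by omega
  rw [AA, AA, e, Finset.erase_right_comm, tt_rev ha, neg_sq]

theorem Pi_dv_on {n a i b : ℕ} (ha : a < p) (h : b = a ∨ b = p - 1 - a) :
    Dv p (ex2 p a i) ((Pi p n a i).comp (el p (tt p b) ^ 2))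
      (C (cc p b ^ ex2 p a i * AA p a ^ n) * X ^ ex2 p a i) := by
  have hb : b < p := by omega
  have h0 := Pi_dv_aux (n := n) (a := a) (i := i) hb
  have e0 : ∀ b' ∈ ((range p).erase a).erase (p - 1 - a), b' ≠ b ∧ b' ≠ p - 1 - b := by
    intro b' hb'
    simp only [mem_erase, mem_range] at hb'
    omega
  have e1 : ∑ b' ∈ ((range p).erase a).erase (p - 1 - a), vv p b b' * n = 0 := by
    refine Finset.sum_eq_zero fun b' hb' => ?_
    obtain ⟨h1, h2⟩ := e0 b' hb'
    simp only [vv]; rw [if_neg h1, if_neg h2]; ring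
  have e2 : ∏ b' ∈ ((range p).erase a).erase (p - 1 - a), rr p b b' ^ n = C (AA p a ^ n) := by
    rw [← AA_eq ha h, Finset.prod_pow, C_pow]
    congr 1
    rw [map_prod]
    refine Finset.prod_congr rfl fun b' hb' => ?_
    obtain ⟨h1, h2⟩ := e0 b' hb'
    simp only [rr]; rw [if_neg h1, if_neg h2, ← C_mul]; congr 1; ring
  rw [e1, e2, add_zero] at h0
  by_cases hs : 2 * a + 1 = p
  · have hba : b = a := by omega
    have hr : p - 1 - a = a := by omega
    subst hba
    have e3 : vv p b b * ex p b i = ex2 p b i := by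
      rw [vv, ex, ex2, if_pos rfl, if_pos (by omega), if_pos hs, if_neg (by omega)]; ring
    have e4 : rr p b b ^ ex p b i = C (cc p b ^ ex2 p b i) * X ^ ex2 p b i := by
      rw [rr, ex, ex2, cc, if_pos rfl, if_pos (by omega), if_pos hs, if_pos hs, if_neg (by omega),
        one_pow, C_1, one_mul, add_zero, pow_mul]; ring
    rw [e3, e4] at h0
    convert h0 using 1
    rw [C_mul]; ring
  · have e3 : vv p b a * ex p a i = ex2 p a i := by
      simp only [vv, ex, ex2]; rw [if_neg hs]
      split_ifs <;> omega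
    have hs' : ¬ 2 * b + 1 = p := by omega
    have e4 : rr p b a = C (cc p b) * X := by
      simp only [rr, cc]; rw [if_neg hs']
      rcases h with rfl | rfl
      · rw [if_pos rfl, if_neg (by omega), ← two_mul]; ring
      · rw [if_neg (by omega), if_pos (by omega), tt_rev ha]
        congr 2; ring
    have e5 : ex p a i = ex2 p a i := by
      simp only [ex, ex2]; rw [if_neg hs]
      split_ifs <;> omega
    rw [e3, e4, e5] at h0
    convert h0 using 1
    rw [mul_pow, C_mul, C_pow]; ring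

theorem el_tt_dv {b : ℕ} :
    Dv p (if 2 * b + 1 = p then 1 else 0) (el p (tt p b)) (if 2 * b + 1 = p then X else C (tt p b)) := by
  split_ifs with h
  · have : tt p b = 0 := by simp only [tt]; omega
    rw [this]; exact Dv_el_zero
  · exact Dv_el _

/-- the leading term on the class `b` -/
noncomputable def tgt (p n N a a' i j b : ℕ) : ℤ[X] :=
  if (b = a ∨ b = p - 1 - a) ∧ (b = a' ∨ b = p - 1 - a') then
    (if 2 * b + 1 = p then X else C (tt p b)) *
      (C (cc p b ^ (ex2 p a i + ex2 p (p - 1 - a') j) * AA p a ^ (n + N)) *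
        X ^ (ex2 p a i + ex2 p (p - 1 - a') j))
  else 0

theorem qlZ_eq (b : ℕ) (h g : ℤ[X]) : qlZ p b (h * g) =
    el p (tt p b) * (h.comp (el p (tt p b) ^ 2) * g.comp (el p (tt p b) ^ 2)) := by
  simp only [qlZ, el, mul_comp]

theorem class_dv {n N a a' i j b : ℕ} (ha : a < p) (ha' : a' < p) (hb : b < p)
    (hi : i < n) (hj : j < N) :
    Dv p (sg p a i + tu p a' j) (qlZ p b (Pi p n a i * Pi p N (p - 1 - a') j))
      (tgt p n N a a' i j b) := by
  rw [qlZ_eq]
  have hr' : p - 1 - a' < p := by omega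
  have hrr : p - 1 - (p - 1 - a') = a' := by omega
  by_cases h1 : b = a ∨ b = p - 1 - a
  · by_cases h2 : b = a' ∨ b = p - 1 - a'
    · have h2' : b = p - 1 - a' ∨ b = p - 1 - (p - 1 - a') := by rw [hrr]; tauto
      have d1 := Pi_dv_on (n := n) (i := i) ha h1
      have d2 := Pi_dv_on (n := N) (i := j) hr' h2'
      have d := el_tt_dv (p := p) (b := b) |>.mul (d1.mul d2)
      have eA : AA p (p - 1 - a') = AA p a := by
        have e1 := AA_rev ha
        have e2 := AA_rev ha'
        rcases h1 with rfl | rfl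
        · rcases h2 with h2 | h2
          · subst h2; exact e2
          · rw [← h2]
        · rcases h2 with h2 | h2
          · rw [e2, ← h2]; exact e1
          · rw [← h2, e1]
      rw [tgt, if_pos ⟨h1, h2⟩]
      have en : sg p a i + tu p a' j =
          (if 2 * b + 1 = p then 1 else 0) + (ex2 p a i + ex2 p (p - 1 - a') j) := by
        simp only [sg, tu, ex2]
        split_ifs <;> omega
      rw [en]
      rw [eA] at d
      convert d using 1
      congr 1
      simp only [C_mul, C_pow, pow_add]; ring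
    · obtain ⟨r, d2⟩ := Pi_dv_off (n := N) (i := j) (a := p - 1 - a') hr' hb (by tauto)
        (by rw [hrr]; tauto)
      have d1 := Pi_dv_on (n := n) (i := i) ha h1
      have d := el_tt_dv (p := p) (b := b) |>.mul (d1.mul d2)
      rw [tgt, if_neg (by tauto)]
      refine d.weaken ?_
      simp only [sg, tu, ex2]
      split_ifs <;> omega
  · rw [tgt, if_neg (by tauto)]
    obtain ⟨r, d1⟩ := Pi_dv_off (n := n) (i := i) (a := a) ha hb (by tauto) (by tauto)
    by_cases h2 : b = a' ∨ b = p - 1 - a'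
    · have h2' : b = p - 1 - a' ∨ b = p - 1 - (p - 1 - a') := by rw [hrr]; tauto
      have d2 := Pi_dv_on (n := N) (i := j) hr' h2'
      have d := el_tt_dv (p := p) (b := b) |>.mul (d1.mul d2)
      refine d.weaken ?_
      simp only [sg, tu, ex2]
      split_ifs <;> omega
    · obtain ⟨r', d2⟩ := Pi_dv_off (n := N) (i := j) (a := p - 1 - a') hr' hb (by tauto)
        (by rw [hrr]; tauto)
      have d := el_tt_dv (p := p) (b := b) |>.mul (d1.mul d2)
      refine d.weaken ?_
      simp only [sg, tu]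
      split_ifs <;> omega

theorem sum_tgt (h2 : p % 2 = 1) {n N a a' i j : ℕ} (ha : a < p) (ha' : a' < p) :
    ∑ b ∈ range p, tgt p n N a a' i j b =
      if a = a' then C (AA p a ^ (n + N) * cc p a ^ (2 * i + 2 * j + 2)) * X ^ (2 * i + 2 * j + 1)
          else 0 := by
  have hsub : ({a, p - 1 - a} : Finset ℕ) ⊆ range p := by
    intro x hx; simp only [mem_insert, mem_singleton] at hx; simp only [mem_range]; omega
  rw [← Finset.sum_subset hsub (fun b _ hb => by
    simp only [mem_insert, mem_singleton] at hb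
    rw [tgt, if_neg (by tauto)])]
  by_cases hs : 2 * a + 1 = p
  · have hr : p - 1 - a = a := by omega
    rw [hr]
    simp only [mem_singleton, insert_eq_of_mem, sum_singleton]
    by_cases haa : a = a'
    · subst haa
      rw [if_pos rfl, tgt, if_pos (by tauto), if_pos hs]
      have e1 : ex2 p a i = 2 * i := by simp only [ex2]; rw [if_neg (by omega)]; rfl
      have e2 : ex2 p (p - 1 - a) j = 2 * j := by simp only [ex2]; rw [if_neg (by omega)]; rfl
      have e3 : cc p a = 1 := by simp only [cc]; rw [if_pos hs]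
      rw [e1, e2, e3, one_pow, one_pow, one_mul, mul_one]; ring
    · rw [if_neg haa, tgt, if_neg (by omega)]
  · have hne : a ≠ p - 1 - a := by omega
    rw [Finset.sum_pair hne]
    have ec1 : cc p a = 2 * tt p a := by simp only [cc]; rw [if_neg hs]
    have ec2 : cc p (p - 1 - a) = - (2 * tt p a) := by
      simp only [cc]; rw [if_neg (by omega), tt_rev ha]; ring
    by_cases haa : a = a'
    · subst haa
      rw [if_pos rfl, tgt, if_pos (by tauto), if_neg hs, tgt, if_pos (by tauto), if_neg (by omega),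
        tt_rev ha, ec1, ec2]
      have e1 : ex2 p a i + ex2 p (p - 1 - a) j = 2 * (i + j) + 1 := by
        simp only [ex2]; split_ifs <;> omega
      rw [e1, show 2 * i + 2 * j + 2 = 2 * (i + j) + 1 + 1 by ring,
        show 2 * i + 2 * j + 1 = 2 * (i + j) + 1 by ring]
      have e4 : (-(2 * tt p a)) ^ (2 * (i + j) + 1) = - (2 * tt p a) ^ (2 * (i + j) + 1) :=
        Odd.neg_pow ⟨i + j, rfl⟩ _
      rw [e4]
      have hC2 : (C (2 : ℤ) : ℤ[X]) = 2 := rfl
      simp only [C_mul, C_neg, C_pow, hC2]; ring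
    · rw [if_neg haa]
      by_cases hra : a' = p - 1 - a
      · subst hra
        rw [tgt, if_pos (by omega), if_neg hs, tgt, if_pos (by omega), if_neg (by omega),
          tt_rev ha, ec1, ec2]
        have e1 : ex2 p a i + ex2 p (p - 1 - (p - 1 - a)) j =
            2 * (i + j + if p < 2 * a + 1 then 1 else 0) := by
          simp only [ex2]; split_ifs <;> omega
        rw [e1]
        have e4 : (-(2 * tt p a)) ^ (2 * (i + j + if p < 2 * a + 1 then 1 else 0)) =
            (2 * tt p a) ^ (2 * (i + j + if p < 2 * a + 1 then 1 else 0)) :=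
          Even.neg_pow (even_two_mul _) _
        rw [e4]
        simp only [C_mul, C_neg, C_pow]; ring
      · rw [tgt, if_neg (by omega), tgt, if_neg (by omega), add_zero]

theorem poly_main (hp : p.Prime) (h2 : p ≠ 2) {n N a a' i j : ℕ} (ha : a < p) (ha' : a' < p)
    (hi : i < n) (hj : j < N) :
    ∃ g : ℕ → ℤ[X], (∀ b < p, qlZ p b (Pi p n a i * Pi p N (p - 1 - a') j) =
        C ((p : ℤ) ^ (sg p a i + tu p a' j)) * g b) ∧
      ∃ f : ℤ[X], ∑ b ∈ range p, g b =
        (if a = a' then C (AA p a ^ (n + N) * cc p a ^ (2 * i + 2 * j + 2)) * X ^ (2 * i + 2 * j + 1)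
          else 0) + C (p : ℤ) * f := by
  have hodd : p % 2 = 1 := (hp.eq_two_or_odd).resolve_left h2
  have key : ∀ b : ℕ, b < p → ∃ f : ℤ[X], qlZ p b (Pi p n a i * Pi p N (p - 1 - a') j) =
      C ((p : ℤ) ^ (sg p a i + tu p a' j)) * (tgt p n N a a' i j b + C (p : ℤ) * f) :=
    fun b hb => class_dv ha ha' hb hi hj
  choose! f hf using key
  refine ⟨fun b => tgt p n N a a' i j b + C (p : ℤ) * f b, hf, ∑ b ∈ range p, f b, ?_⟩
  rw [Finset.sum_add_distrib, sum_tgt hodd ha ha', ← Finset.mul_sum]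

theorem yy_monic (b : ℕ) : (yy p b).Monic := monic_X_sub_C _

theorem Pi_degree (hp : p.Prime) (h2 : p ≠ 2) {n a i : ℕ} (ha : a < p) (hi : i < n) :
    (Pi p n a i).degree < (n * p : ℕ) := by
  have hodd : p % 2 = 1 := (hp.eq_two_or_odd).resolve_left h2
  have hm1 : (∏ b ∈ ((range p).erase a).erase (p - 1 - a), yy p b ^ n).Monic :=
    monic_prod_of_monic _ _ fun b _ => (yy_monic b).pow n
  have hm : (Pi p n a i).Monic := ((yy_monic a).pow _).mul hm1
  have hd : (Pi p n a i).natDegree < n * p := by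
    rw [Pi, ((yy_monic a).pow _).natDegree_mul hm1, (yy_monic a).natDegree_pow,
      natDegree_prod_of_monic _ _ fun b _ => (yy_monic b).pow n]
    have e1 : ∀ b, (yy p b).natDegree = 1 := fun b => natDegree_X_sub_C _
    simp only [(yy_monic _).natDegree_pow, e1, mul_one, sum_const, smul_eq_mul]
    by_cases hs : 2 * a + 1 = p
    · have hr : p - 1 - a = a := by omega
      rw [hr, Finset.erase_idem, card_erase_of_mem (mem_range.mpr ha), card_range]
      simp only [ex]; rw [if_pos hs]
      obtain ⟨q, rfl⟩ : ∃ q, p = q + 1 := ⟨p - 1, by omega⟩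
      simp only [Nat.add_sub_cancel]; nlinarith
    · rw [card_erase_of_mem (by simp only [mem_erase, mem_range]; omega),
        card_erase_of_mem (mem_range.mpr ha), card_range]
      have he : ex p a i ≤ 2 * i + 1 := by simp only [ex]; split_ifs <;> omega
      obtain ⟨q, hq⟩ : ∃ q, p = q + 2 := ⟨p - 2, by have := hp.two_le; omega⟩
      have : p - 1 - 1 = q := by omega
      rw [this]
      subst hq
      have h3 : n * (q + 2) = q * n + 2 * n := by ring
      omega
  exact (natDegree_lt_iff_degree_lt hm.ne_zero).mp hd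

theorem int_unit_aux {c : ℤ} (h0 : c ≠ 0) (h : |c| < p) : ¬ (p : ℤ) ∣ c := by
  intro hd
  exact h0 (Int.eq_zero_of_abs_lt_dvd hd h)

theorem two_unit (hp : p.Prime) (h2 : p ≠ 2) : ¬ (p : ℤ) ∣ 2 := by
  have := hp.two_le
  exact int_unit_aux (by norm_num) (by rw [abs_of_pos (by norm_num)]; omega)

theorem cc_unit (hp : p.Prime) (h2 : p ≠ 2) {a : ℕ} (ha : a < p) : ¬ (p : ℤ) ∣ cc p a := by
  simp only [cc]
  split_ifs with h
  · have := hp.two_le
    exact int_unit_aux (by norm_num) (by rw [abs_of_pos (by norm_num)]; omega)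
  · intro hd
    rcases (Nat.prime_iff_prime_int.mp hp).dvd_or_dvd hd with h1 | h1
    · exact two_unit hp h2 h1
    · refine int_unit_aux (c := tt p a) ?_ ?_ h1
      · simp only [tt]; omega
      · simp only [tt]; rw [abs_lt]; omega

theorem AA_unit (hp : p.Prime) (h2 : p ≠ 2) {a : ℕ} (ha : a < p) : ¬ (p : ℤ) ∣ AA p a := by
  rw [AA, (Nat.prime_iff_prime_int.mp hp).dvd_finsetProd_iff]
  rintro ⟨b, hb, hd⟩
  simp only [mem_erase, mem_range] at hb
  have e : tt p a ^ 2 - tt p b ^ 2 = 2 * ((b : ℤ) - a) * (2 * ((p : ℤ) - 1 - a - b)) := by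
    simp only [tt]; ring
  rw [e] at hd
  rcases (Nat.prime_iff_prime_int.mp hp).dvd_or_dvd hd with h1 | h1
  · rcases (Nat.prime_iff_prime_int.mp hp).dvd_or_dvd h1 with h3 | h3
    · exact two_unit hp h2 h3
    · exact int_unit_aux (by omega) (by rw [abs_lt]; omega) h3
  · rcases (Nat.prime_iff_prime_int.mp hp).dvd_or_dvd h1 with h3 | h3
    · exact two_unit hp h2 h3
    · exact int_unit_aux (by omega) (by rw [abs_lt]; omega) h3

end Pool.Agent.Z5.NV
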