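import Pool.Agent.Z5.Basis
import Pool.Agent.Z5.NVLoc
import Pool.Agent.Z5.NVPoly
import Pool.Agent.Z5.NVCong

/-!
# Non-vanishing of the mixed determinant (module NVG, assembly)
-/

open Finset Polynomial

namespace Pool.Agent.Z5.NV
open Pool.Agent.Z5

variable {p : ℕ} {hp : p.Prime}

/-- the map `ℤ[X] → ℚ[X]` -/
noncomputable abbrev zq (h : ℤ[X]) : ℚ[X] := h.map (Int.castRingHom ℚ)

theorem map_C' (c : ℤ) : (C c).map (Int.castRingHom ℚ) = C (c : ℚ) := Polynomial.map_C _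

theorem ql_zq (b : ℕ) (h : ℤ[X]) : ql p b (zq h) = zq (qlZ p b h) := by
  simp only [ql, qlZ, zq, Polynomial.map_mul, Polynomial.map_add, Polynomial.map_comp,
    Polynomial.map_pow, map_C', map_X, Int.cast_natCast]

theorem zq_C_mul (c : ℤ) (h : ℤ[X]) : zq (C c * h) = C (c : ℚ) * zq h := by
  simp only [zq, Polynomial.map_mul, map_C']

theorem zq_sum {ι : Type*} (s : Finset ι) (g : ι → ℤ[X]) : zq (∑ i ∈ s, g i) = ∑ i ∈ s, zq (g i) :=
  Polynomial.map_sum _ _ _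

/-- values of the local functionals on the reduced polynomial -/
theorem red_eval (L : ℚ[X] → ℚ) (hadd : ∀ q r, L (q + r) = L q + L r)
    (hC : ∀ (c : ℚ) q, L (C c * q) = c * L q) (hint : ∀ q : ℤ[X], L (zq q) ∈ Zp p hp)
    (P : Prop) [Decidable P] (K : ℤ) (n : ℕ) (f : ℤ[X]) :
    Cg p hp (L (zq ((if P then C K * X ^ n else 0) + C (p : ℤ) * f)))
      (if P then (K : ℚ) * L (X ^ n) else 0) := by
  have h0 : L 0 = 0 := by have := hC 0 0; simpa using this
  refine ⟨L (zq f), hint f, ?_⟩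
  have e : zq ((if P then C K * X ^ n else 0) + C (p : ℤ) * f) =
      (if P then C (K : ℚ) * X ^ n else 0) + C (p : ℚ) * zq f := by
    rw [zq, Polynomial.map_add]
    congr 1
    · split_ifs
      · simp only [Polynomial.map_mul, map_C', Polynomial.map_pow, map_X]
      · simp
    · simp only [Polynomial.map_mul, map_C', Int.cast_natCast, zq]
  rw [e, hadd, hC]
  split_ifs
  · rw [hC]; ring
  · rw [h0]; ring

/-- entry estimate, abstract form -/
theorem entry_aux (hp : p.Prime) (h2 : p ≠ 2) {n N a a' i j : ℕ} (ha : a < p) (ha' : a' < p)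
    (hi : i < n) (hj : j < N) (Lb : ℕ → ℚ[X] → ℚ) (L : ℚ[X] → ℚ)
    (hLb : ∀ b < p, ∀ q : ℤ[X], Cg p hp (Lb b (zq q)) (L (zq q)))
    (hLC : ∀ b (c : ℚ) q, Lb b (C c * q) = c * Lb b q)
    (hadd : ∀ q r, L (q + r) = L q + L r)
    (hC : ∀ (c : ℚ) q, L (C c * q) = c * L q) (hint : ∀ q : ℤ[X], L (zq q) ∈ Zp p hp) (x : ℚ)
    (hx : x = ∑ b ∈ range p, Lb b (ql p b (zq (Pi p n a i * Pi p N (p - 1 - a') j)))) :
    Cg p hp (((p : ℚ) ^ sg p a i)⁻¹ * x * ((p : ℚ) ^ tu p a' j)⁻¹)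
      (if a = a' then ((AA p a ^ (n + N) * cc p a ^ (2 * i + 2 * j + 2) : ℤ) : ℚ) *
        L (X ^ (2 * i + 2 * j + 1)) else 0) := by
  obtain ⟨g, hg, f, hf⟩ := poly_main hp h2 ha ha' hi hj
  have hp0 : (p : ℚ) ≠ 0 := by exact_mod_cast hp.ne_zero
  have e1 : ((p : ℚ) ^ sg p a i)⁻¹ * x * ((p : ℚ) ^ tu p a' j)⁻¹ =
      ∑ b ∈ range p, Lb b (zq (g b)) := by
    rw [hx]
    have : ∀ b ∈ range p, Lb b (ql p b (zq (Pi p n a i * Pi p N (p - 1 - a') j))) =
        (p : ℚ) ^ (sg p a i + tu p a' j) * Lb b (zq (g b)) := by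
      intro b hb
      rw [ql_zq, hg b (mem_range.mp hb), zq_C_mul, hLC]
      push_cast; rfl
    rw [Finset.sum_congr rfl this, ← Finset.mul_sum, pow_add]
    field_simp
  rw [e1]
  have h3 : Cg p hp (∑ b ∈ range p, Lb b (zq (g b))) (∑ b ∈ range p, L (zq (g b))) :=
    Cg.sum _ _ _ fun b hb => hLb b (mem_range.mp hb) _
  have hsum : ∀ (s : Finset ℕ) (g : ℕ → ℚ[X]), L (∑ i ∈ s, g i) = ∑ i ∈ s, L (g i) := by
    intro s g
    induction s using Finset.induction_on with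
    | empty =>
      have h := hC 0 0
      simpa using h
    | insert a s ha ih => rw [Finset.sum_insert ha, Finset.sum_insert ha, hadd, ih]
  refine h3.trans ?_
  rw [← hsum, ← zq_sum, hf]
  exact red_eval L hadd hC hint _ _ _ _

theorem det_scale {ι : Type*} [Fintype ι] [DecidableEq ι] (r c : ι → ℚ) (m : Matrix ι ι ℚ) :
    (Matrix.of fun i j => r i * m i j * c j).det = (∏ i, r i) * m.det * ∏ i, c i := by
  have : (Matrix.of fun i j => r i * m i j * c j) = Matrix.diagonal r * m * Matrix.diagonal c := by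
    ext i j
    rw [Matrix.mul_diagonal, Matrix.diagonal_mul]; rfl
  rw [this, Matrix.det_mul, Matrix.det_mul, Matrix.det_diagonal, Matrix.det_diagonal]

end Pool.Agent.Z5.NV

namespace Pool.Agent.Z5
open Pool.Agent.Z5.NV

/-- `L + 1 = M p`, `e u = E (u / p)`, `a = s p`, `b = s' p`: the mixed determinant does not vanish
for large primes `p`, if the same determinant for `p = 1`, `ξ = 0` does not vanish. -/
theorem nonvanishing (M : ℕ) (E : ℕ → ℕ) (s s' : ℕ) (hM : 2 ≤ M) (hE : IsProf (M - 1) E)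
    (_hd : 4 * s + 2 * s' ≤ ∑ m ∈ range M, E m) (_hs : s ≤ s')
    (h0 : DQ (M - 1) E 0 s s' ≠ 0) (ξ : ℚ) :
    ∃ p0 : ℕ, ∀ p : ℕ, p.Prime → p0 ≤ p →
      DQ (M * p - 1) (fun u => E (u / p)) ξ (s * p) (s' * p) ≠ 0 := by
  classical
  have hT : Even (∑ n ∈ range M, E n) := by
    have := hE.even
    rwa [show M - 1 + 1 = M by omega] at this
  obtain ⟨p1, h1⟩ := La_cg M E hT ξ
  obtain ⟨p2, h2⟩ := Un_large _ h0
  refine ⟨max (max p1 p2) 3, fun p hp hle => ?_⟩
  have hp1 : p1 ≤ p := le_trans (le_trans (le_max_left _ _) (le_max_left _ _)) hle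
  have hp2 : p2 ≤ p := le_trans (le_trans (le_max_right _ _) (le_max_left _ _)) hle
  have hp3 : 3 ≤ p := le_trans (le_max_right _ _) hle
  have hpn : p ≠ 2 := by omega
  have hp0 : (p : ℚ) ≠ 0 := by exact_mod_cast hp.ne_zero
  replace h1 := h1 p hp hp1
  replace h2 := h2 p hp hp2
  intro hDQ
  -- the families
  set L := M * p - 1 with hL
  set e : ℕ → ℕ := fun u => E (u / p) with he
  set T := ∑ n ∈ range M, E n with hTdef
  let φ : Fin s × Fin p → ℚ[X] := fun x => zq (Pi p s x.2 x.1)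
  let χ : Fin s' × Fin p → ℚ[X] := fun x => zq (Pi p s' x.2 x.1)
  let jj : Fin s ⊕ Fin s' → ℕ := Sum.elim (fun j => (j : ℕ)) (fun j => s + (j : ℕ))
  let ψ : (Fin s × Fin p) ⊕ (Fin s' × Fin p) → ℚ[X] :=
    Sum.elim (fun x => zq (Pi p (s + s') (p - 1 - x.2) x.1))
      (fun x => zq (Pi p (s + s') (p - 1 - x.2) (s + x.1)))
  have hjj : ∀ j : Fin s ⊕ Fin s', jj j < s + s' := by
    rintro (j | j)
    · have := j.2; simp only [jj, Sum.elim_inl]; omega
    · have := j.2; simp only [jj, Sum.elim_inr]; omega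
  let G := gmat L e ξ φ χ ψ
  have hG : G.det = 0 := by
    have := det_gmat (L := L) (e := e) (s * p) (s' * p) finProdFinEquiv finProdFinEquiv ξ φ χ ψ ?_ ?_ ?_
    · rw [show G.det = _ from this, hDQ, mul_zero]
    · rintro ⟨i, a⟩
      exact lt_of_le_of_lt (degree_map_le) (Pi_degree hp hpn a.2 i.2)
    · rintro ⟨i, a⟩
      exact lt_of_le_of_lt (degree_map_le) (Pi_degree hp hpn a.2 i.2)
    · rintro (⟨i, a⟩ | ⟨i, a⟩)
      · have := Pi_degree hp hpn (n := s + s') (a := p - 1 - a) (i := i)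
          (by have := a.2; omega) (by have := i.2; omega)
        rw [add_mul] at this
        exact lt_of_le_of_lt (degree_map_le) this
      · have := Pi_degree hp hpn (n := s + s') (a := p - 1 - a) (i := s + i)
          (by have := a.2; omega) (by have := i.2; omega)
        rw [add_mul] at this
        exact lt_of_le_of_lt (degree_map_le) this
  -- scaling
  let rs : (Fin s × Fin p) ⊕ (Fin s' × Fin p) → ℚ :=
    Sum.elim (fun x => (p : ℚ) ^ T * ((p : ℚ) ^ sg p x.2 x.1)⁻¹)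
      (fun x => (p : ℚ) ^ T * ((p : ℚ) ^ 3)⁻¹ * ((p : ℚ) ^ sg p x.2 x.1)⁻¹)
  let cs : (Fin s × Fin p) ⊕ (Fin s' × Fin p) → ℚ :=
    Sum.elim (fun x => ((p : ℚ) ^ tu p x.2 x.1)⁻¹) (fun x => ((p : ℚ) ^ tu p x.2 (s + x.1))⁻¹)
  let A : Matrix ((Fin s × Fin p) ⊕ (Fin s' × Fin p)) ((Fin s × Fin p) ⊕ (Fin s' × Fin p)) ℚ :=
    Matrix.of fun x y => rs x * G x y * cs y
  have hA : A.det = 0 := by rw [det_scale, hG]; ring
  -- the limit matrix
  let eq : (Fin s × Fin p) ⊕ (Fin s' × Fin p) ≃ (Fin s ⊕ Fin s') × Fin p :=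
    (Equiv.sumProdDistrib _ _ _).symm
  let m0 := gmat (M - 1) E 0 (mono s) (mono s') (monoS s s')
  let r0 : Fin p → Fin s ⊕ Fin s' → ℚ := fun a =>
    Sum.elim (fun i => ((AA p a ^ (s + (s + s')) * cc p a ^ (2 * (i : ℕ) + 1) : ℤ) : ℚ))
      (fun i => ((AA p a ^ (s' + (s + s')) * cc p a ^ (2 * (i : ℕ) + 1) : ℤ) : ℚ))
  let c0 : Fin p → Fin s ⊕ Fin s' → ℚ := fun a j => ((cc p a ^ (2 * jj j + 1) : ℤ) : ℚ)
  let D : Fin p → Matrix (Fin s ⊕ Fin s') (Fin s ⊕ Fin s') ℚ := fun a =>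
    Matrix.of fun i j => r0 a i * m0 i j * c0 a j
  let B := (Matrix.blockDiagonal D).submatrix eq eq
  have hB : Un p hp B.det := by
    rw [Matrix.det_submatrix_equiv_self, Matrix.det_blockDiagonal]
    refine Un.prod _ _ fun a _ => ?_
    rw [show D a = Matrix.of fun i j => r0 a i * m0 i j * c0 a j from rfl, det_scale]
    refine ((Un.prod _ _ fun i _ => ?_).mul h2).mul (Un.prod _ _ fun j _ => ?_)
    · rcases i with i | i
      · simp only [r0, Sum.elim_inl]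
        push_cast
        exact ((Un_int (AA_unit hp hpn a.2)).pow _).mul ((Un_int (cc_unit hp hpn a.2)).pow _)
      · simp only [r0, Sum.elim_inr]
        push_cast
        exact ((Un_int (AA_unit hp hpn a.2)).pow _).mul ((Un_int (cc_unit hp hpn a.2)).pow _)
    · simp only [c0]
      push_cast
      exact (Un_int (cc_unit hp hpn a.2)).pow _
  -- the congruence of entries
  have hm0a : ∀ (i : Fin s) (j : Fin s ⊕ Fin s'), m0 (Sum.inl i) j =
      lr0 M E (X ^ (2 * (i : ℕ) + 2 * jj j + 1)) := by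
    intro i j
    have e1 : monoS s s' j = X ^ jj j := by rcases j with j | j <;> rfl
    rw [show m0 (Sum.inl i) j = Ph (M - 1) E 0 (mono s i * monoS s s' j) from rfl, e1, Ph,
      show mono s i = X ^ (i : ℕ) from rfl, ← pow_add, zero_mul, add_zero, ← lr0_odd hM]
    congr 2; ring
  have hm0b : ∀ (i : Fin s') (j : Fin s ⊕ Fin s'), m0 (Sum.inr i) j =
      lr3 M E (X ^ (2 * (i : ℕ) + 2 * jj j + 1)) := by
    intro i j
    have e1 : monoS s s' j = X ^ jj j := by rcases j with j | j <;> rfl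
    rw [show m0 (Sum.inr i) j = rho (M - 1) E 3 (mono s' i * monoS s s' j) from rfl, e1,
      show mono s' i = X ^ (i : ℕ) from rfl, ← pow_add, ← lr3_odd hM]
    congr 2; ring
  have key0 : ∀ (i : Fin s) (a a' : Fin p) (j : ℕ), j < s + s' →
      Cg p hp ((p : ℚ) ^ T * ((p : ℚ) ^ sg p a i)⁻¹ *
          Ph L e ξ (zq (Pi p s a i) * zq (Pi p (s + s') (p - 1 - a') j)) * ((p : ℚ) ^ tu p a' j)⁻¹)
        (if a = a' then ((AA p a ^ (s + (s + s')) * cc p a ^ (2 * (i : ℕ) + 2 * j + 2) : ℤ) : ℚ) *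
          lr0 M E (X ^ (2 * (i : ℕ) + 2 * j + 1)) else 0) := by
    intro i a a' j hj
    have h := entry_aux hp hpn (n := s) (N := s + s') a.2 a'.2 i.2 hj (La p M E ξ) (lr0 M E)
      (fun b hb q => (h1 b hb q).1) (fun b c q => La_C_mul M E ξ b c q) (lr0_add M E)
      (lr0_C_mul M E) (fun q => (h1 0 hp.pos q).2.2.1) _ (Ph_eq hp hM E ξ _)
    have e1 : (p : ℚ) ^ T * ((p : ℚ) ^ sg p a i)⁻¹ *
          Ph L e ξ (zq (Pi p s a i) * zq (Pi p (s + s') (p - 1 - a') j)) * ((p : ℚ) ^ tu p a' j)⁻¹ =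
        ((p : ℚ) ^ sg p a i)⁻¹ * ((p : ℚ) ^ T * Ph L e ξ
          (zq (Pi p s a i * Pi p (s + s') (p - 1 - a') j))) * ((p : ℚ) ^ tu p a' j)⁻¹ := by
      rw [show zq (Pi p s a i * Pi p (s + s') (p - 1 - a') j) =
        zq (Pi p s a i) * zq (Pi p (s + s') (p - 1 - a') j) from Polynomial.map_mul _]
      ring
    rw [e1]
    convert h using 1
    simp only [Fin.ext_iff]
  have key3 : ∀ (i : Fin s') (a a' : Fin p) (j : ℕ), j < s + s' →
      Cg p hp ((p : ℚ) ^ T * ((p : ℚ) ^ 3)⁻¹ * ((p : ℚ) ^ sg p a i)⁻¹ *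
          rho L e 3 (zq (Pi p s' a i) * zq (Pi p (s + s') (p - 1 - a') j)) * ((p : ℚ) ^ tu p a' j)⁻¹)
        (if a = a' then ((AA p a ^ (s' + (s + s')) * cc p a ^ (2 * (i : ℕ) + 2 * j + 2) : ℤ) : ℚ) *
          lr3 M E (X ^ (2 * (i : ℕ) + 2 * j + 1)) else 0) := by
    intro i a a' j hj
    have h := entry_aux hp hpn (n := s') (N := s + s') a.2 a'.2 i.2 hj (La3 p M E) (lr3 M E)
      (fun b hb q => (h1 b hb q).2.1) (fun b c q => La3_C_mul M E b c q) (lr3_add M E)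
      (lr3_C_mul M E) (fun q => (h1 0 hp.pos q).2.2.2) _ rfl
    have e0 := rho3_eq hp hM E (zq (Pi p s' a i * Pi p (s + s') (p - 1 - a') j))
    have e1 : (p : ℚ) ^ T * ((p : ℚ) ^ 3)⁻¹ * ((p : ℚ) ^ sg p a i)⁻¹ *
          rho L e 3 (zq (Pi p s' a i) * zq (Pi p (s + s') (p - 1 - a') j)) *
            ((p : ℚ) ^ tu p a' j)⁻¹ =
        ((p : ℚ) ^ sg p a i)⁻¹ * (∑ b ∈ range p, La3 p M E b (ql p b
          (zq (Pi p s' a i * Pi p (s + s') (p - 1 - a') j)))) * ((p : ℚ) ^ tu p a' j)⁻¹ := by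
      have e2 : ∑ b ∈ range p, La3 p M E b (ql p b
          (zq (Pi p s' a i * Pi p (s + s') (p - 1 - a') j))) = ((p : ℚ) ^ 3)⁻¹ * ((p : ℚ) ^ T *
          rho L e 3 (zq (Pi p s' a i * Pi p (s + s') (p - 1 - a') j))) := by
        rw [hL, he, hTdef, e0]; field_simp
      rw [e2, show zq (Pi p s' a i * Pi p (s + s') (p - 1 - a') j) =
        zq (Pi p s' a i) * zq (Pi p (s + s') (p - 1 - a') j) from Polynomial.map_mul _]
      ring
    rw [e1]
    convert h using 1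
    simp only [Fin.ext_iff]
  have hcg : ∀ x y, Cg p hp (A x y) (B x y) := by
    have hBe : ∀ x y, B x y = if (eq x).2 = (eq y).2 then
        r0 (eq x).2 (eq x).1 * m0 (eq x).1 (eq y).1 * c0 (eq x).2 (eq y).1 else 0 := by
      intro x y
      simp only [B, Matrix.submatrix_apply, Matrix.blockDiagonal_apply, D, Matrix.of_apply]
    intro x y
    rw [hBe]
    have hy : ∃ (j : Fin s ⊕ Fin s') (a' : Fin p), (eq y) = (j, a') ∧
        ψ y = zq (Pi p (s + s') (p - 1 - a') (jj j)) ∧ cs y = ((p : ℚ) ^ tu p a' (jj j))⁻¹ := by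
      rcases y with ⟨j, a'⟩ | ⟨j, a'⟩
      · exact ⟨Sum.inl j, a', rfl, rfl, rfl⟩
      · exact ⟨Sum.inr j, a', rfl, rfl, rfl⟩
    obtain ⟨j, a', hy1, hy2, hy3⟩ := hy
    rcases x with ⟨i, a⟩ | ⟨i, a⟩
    · have hx1 : eq (Sum.inl (i, a)) = (Sum.inl i, a) := rfl
      have h := key0 i a a' (jj j) (hjj j)
      rw [hx1, hy1]
      have eA : A (Sum.inl (i, a)) y = (p : ℚ) ^ T * ((p : ℚ) ^ sg p a i)⁻¹ *
          Ph L e ξ (zq (Pi p s a i) * zq (Pi p (s + s') (p - 1 - a') (jj j))) *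
            ((p : ℚ) ^ tu p a' (jj j))⁻¹ := by
        rw [show A (Sum.inl (i, a)) y = rs (Sum.inl (i, a)) * G (Sum.inl (i, a)) y * cs y from rfl,
          hy3, show G (Sum.inl (i, a)) y = Ph L e ξ (φ (i, a) * ψ y) from rfl, hy2]
        rfl
      rw [eA]
      convert h using 1
      refine if_congr Iff.rfl ?_ rfl
      rw [hm0a]
      simp only [r0, c0, Sum.elim_inl]
      push_cast; ring
    · have hx1 : eq (Sum.inr (i, a)) = (Sum.inr i, a) := rfl
      have h := key3 i a a' (jj j) (hjj j)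
      rw [hx1, hy1]
      have eA : A (Sum.inr (i, a)) y = (p : ℚ) ^ T * ((p : ℚ) ^ 3)⁻¹ * ((p : ℚ) ^ sg p a i)⁻¹ *
          rho L e 3 (zq (Pi p s' a i) * zq (Pi p (s + s') (p - 1 - a') (jj j))) *
            ((p : ℚ) ^ tu p a' (jj j))⁻¹ := by
        rw [show A (Sum.inr (i, a)) y = rs (Sum.inr (i, a)) * G (Sum.inr (i, a)) y * cs y from rfl,
          hy3, show G (Sum.inr (i, a)) y = rho L e 3 (χ (i, a) * ψ y) from rfl, hy2]
        rfl
      rw [eA]
      convert h using 1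
      refine if_congr Iff.rfl ?_ rfl
      rw [hm0b]
      simp only [r0, c0, Sum.elim_inr]
      push_cast; ring
  have hBi : ∀ x y, B x y ∈ Zp p hp := by
    have hX : ∀ n : ℕ, (X ^ n : ℚ[X]) = zq (X ^ n) := fun n => by
      simp only [zq, Polynomial.map_pow, map_X]
    intro x y
    simp only [B, Matrix.submatrix_apply, Matrix.blockDiagonal_apply, D, Matrix.of_apply]
    split_ifs with hxy
    · refine mul_mem (mul_mem ?_ ?_) (Zp_int _)
      · rcases (eq x).1 with i | i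
        · exact Zp_int _
        · exact Zp_int _
      · rcases (eq x).1 with i | i
        · rw [hm0a, hX]; exact (h1 0 hp.pos _).2.2.1
        · rw [hm0b, hX]; exact (h1 0 hp.pos _).2.2.2
    · exact zero_mem _
  exact (det_cg A B hBi hcg).ne_zero hB hA

end Pool.Agent.Z5
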