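import Pool.Agent.Z5.PDefs
import Pool.Agent.Z5.PPG

/-!
# The self-paired class: crude bound

Every coefficient of a local expansion has valuation at least `-6`.
-/

open Finset Polynomial

namespace Pool.Agent.Z5

variable {q L r K : ℕ} {ξ : ℚ} [hq : Fact q.Prime]

namespace PSelf

/-- `v_q (1 / m ^ s) ≥ -s` for `m < q ^ 2` -/
theorem inv_pow {m s : ℕ} (hm : 1 ≤ m) (hmq : m < q ^ 2) : VG q (-(s : ℤ)) (1 / (m : ℚ) ^ s) := by
  have h0 : (m : ℚ) ≠ 0 := by positivity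
  have h1 : padicValRat q (m : ℚ) ≤ 1 := by
    rw [padicValRat.of_nat]
    have h2 : padicValNat q m < 2 := by
      by_contra hcon
      push Not at hcon
      have h3 : q ^ 2 ∣ m := (pow_dvd_pow q hcon).trans pow_padicValNat_dvd
      exact absurd (Nat.le_of_dvd hm h3) (by omega)
    exact_mod_cast Nat.lt_succ_iff.1 h2
  refine Or.inr ?_
  rw [one_div, padicValRat.inv, padicValRat.pow]
  nlinarith [h1, (Nat.cast_nonneg s : (0 : ℤ) ≤ (s : ℤ))]

theorem Hs_VG {s M : ℕ} (hM : M < q ^ 2) : VG q (-(s : ℤ)) (Hs s M) := by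
  rw [Hs]
  refine VG.sum _ _ fun m hm => ?_
  have h := Finset.mem_Icc.1 hm
  exact inv_pow h.1 (by omega)

theorem neg_one_pow_VG (i : ℕ) : VG q 0 ((-1 : ℚ) ^ i) := (VG.one.neg).pow_zero i

theorem kerP_SG (hLq : L < q ^ 2) (hξ : VG q 0 ξ) {u : ℕ} (hu : u ≤ L) :
    SG q (-6) (kerP L ξ u) := by
  intro i hi
  rw [kerP, PowerSeries.coeff_mk, if_pos hi]
  refine VG.add (VG.neg (VG.add ?_ ?_)) ?_
  · exact (Hs_VG (s := i + 1) (M := u) (by omega)).mono (by push_cast; omega)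
  · exact (VG.int_mul (neg_one_pow_VG i) (Hs_VG (s := i + 1) (M := L - u) (by omega))).mono
      (by push_cast; omega)
  · split_ifs
    · exact (VG.int_mul (by simpa using VG.nat (q := q) 2) hξ).mono (by norm_num)
    · exact VG.zero _

theorem xser_SG (u : ℕ) : SG q 0 (xser L u) := by
  rw [xser]
  refine SG.add (SG.C ?_) (SG.two.mul_int SG.X)
  have h := VG.int (q := q) ((L : ℤ) - 2 * u)
  simpa using h

theorem hser_SG {k : ℤ} (u : ℕ) (f : ℚ[X]) (hf : PG q k f) : SG q k (hser L u f) :=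
  SG.aeval ((xser_SG u).pow_zero 2) f hf

theorem tvec_SG (hLq : L < q ^ 2) (hξ : VG q 0 ξ) {u : ℕ} (hu : u ≤ L) (c : Col)
    (h1 : PG q 0 c.1) (h2 : PG q 0 c.2.1) (h3 : PG q 0 c.2.2) : SG q (-6) (tvec L ξ u c) := by
  rw [tvec]
  refine SG.add (SG.add ?_ ?_) ?_
  · exact (hser_SG u _ h1).mono (by norm_num)
  · exact (kerP_SG hLq hξ hu).mul_int (hser_SG u _ h2)
  · exact ((SG.X.pow_zero 2).mul_int (hser_SG u _ h3)).mono (by norm_num)

end PSelf

theorem self_bound (h : ℕ) (hL : L + 1 = 2 * h) (hLq : L < q ^ 2) (hξ : VG q 0 ξ)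
    {κ : Type*} (c : κ → Col) (J : κ → ℤ) (hJ : ∀ y, J y ≤ 2)
    (hc : ∀ y, PG q 0 (c y).1 ∧ PG q 0 (c y).2.1 ∧ PG q 0 (c y).2.2)
    (f : {u : Fin h // cl q L u = r} × Fin 6 → κ) :
    VG q (-(48 * (Fintype.card {u : Fin h // cl q L u = r} : ℤ)) + ∑ x, J (f x))
      ((dmat L ξ h c).submatrix
          (fun x : {u : Fin h // cl q L u = r} × Fin 6 => (x.1.1, x.2)) f).det := by
  have h1 := VG.det ((dmat L ξ h c).submatrix
      (fun x : {u : Fin h // cl q L u = r} × Fin 6 => (x.1.1, x.2)) f)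
    (fun _ => -6) (fun _ => 0) (by
      intro x y
      rw [add_zero, Matrix.submatrix_apply, dmat, Matrix.of_apply]
      exact PSelf.tvec_SG hLq hξ (by have := x.1.1.2; omega) _ (hc _).1 (hc _).2.1 (hc _).2.2
        _ x.2.2)
  refine h1.mono ?_
  have h2 : ∑ x, J (f x) ≤ ∑ _x : {u : Fin h // cl q L u = r} × Fin 6, (2 : ℤ) :=
    Finset.sum_le_sum fun x _ => hJ _
  rw [Finset.sum_const, Finset.card_univ, Fintype.card_prod, Fintype.card_fin] at h2
  rw [Finset.sum_const, Finset.sum_const, Finset.card_univ, Fintype.card_prod, Fintype.card_fin]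
  simp only [nsmul_eq_mul] at h2 ⊢
  push_cast at h2 ⊢
  linarith

end Pool.Agent.Z5
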