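import Pool.Agent.Z5.PDefs

/-!
# The symmetry `u ↔ L - u` and the minors of a class
-/

open Finset Polynomial

namespace Pool.Agent.Z5

variable {q L r K : ℕ} [hq : Fact q.Prime] {ξ : ℚ}

theorem sg_kerP (L : ℕ) (ξ : ℚ) {u : ℕ} (hu : u ≤ L) :
    PowerSeries.rescale (-1 : ℚ) (kerP L ξ (L - u)) = kerP L ξ u := by
  ext k
  rw [PowerSeries.coeff_rescale, kerP, kerP, PowerSeries.coeff_mk, PowerSeries.coeff_mk]
  split_ifs with h1 h2
  · rw [h2, show L - (L - u) = u by omega]
    ring
  · rw [show L - (L - u) = u by omega]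
    have h3 : (-1 : ℚ) ^ k * (-1) ^ k = 1 := by rw [← mul_pow]; simp
    linear_combination (-Hs (k + 1) u) * h3
  · simp

theorem sg_tvec (L : ℕ) (ξ : ℚ) {u : ℕ} (hu : u ≤ L) (c : Col) :
    PowerSeries.rescale (-1 : ℚ) (tvec L ξ (L - u) c) = tvec L ξ u c := by
  rw [tvec, map_add, map_add, map_mul, map_mul, sg_kerP L ξ hu, map_pow, sg_X, neg_sq]
  have h1 : ∀ f : ℚ[X], PowerSeries.rescale (-1 : ℚ) (hser L (L - u) f) = hser L u f :=
    fun f => sg_hser hu f
  rw [h1, h1, h1, tvec]

theorem coeff_tvec_symm (ξ : ℚ) {u : ℕ} (hu : u ≤ L) (c : Col) {k : ℕ} (_hk : k < 6) :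
    PowerSeries.coeff k (tvec L ξ (L - u) c) = (-1) ^ k * PowerSeries.coeff k (tvec L ξ u c) := by
  rw [← sg_tvec L ξ hu c, PowerSeries.coeff_rescale, ← mul_assoc, ← mul_pow]
  simp

/-- the `Y`-pole of the `i`-th pole of the class -/
def yrep (h L l : ℕ) : ℕ := if l < h then l else L - l

theorem yrep_lt {h l : ℕ} (hL : L + 1 = 2 * h) (hl : l ≤ L) : yrep h L l < h := by
  unfold yrep
  split_ifs with h1
  · exact h1
  · omega

theorem sub_mod_eq {q L r i : ℕ} (h : r + q * i ≤ L) : (L - (r + q * i)) % q = (L - r) % q := by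
  have : L - r = (L - (r + q * i)) + q * i := by omega
  rw [this, Nat.add_mul_mod_self_left]

omit hq in
theorem cl_yrep {h i : ℕ} (hr : r < (L - r) % q) (hrq : r < q) (hi : r + q * i ≤ L) :
    cl q L (yrep h L (r + q * i)) = r := by
  have h1 : (r + q * i) % q = r := by rw [Nat.add_mul_mod_self_left, Nat.mod_eq_of_lt hrq]
  have h2 := sub_mod_eq hi
  unfold yrep cl
  split_ifs with h3
  · rw [h1, h2]; omega
  · rw [h2, show L - (L - (r + q * i)) = r + q * i by omega, h1]; omega

omit hq in
theorem exists_class_equiv (h : ℕ) (hL : L + 1 = 2 * h) (hc : Cls q L r K) (hr : r < (L - r) % q) :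
    ∃ e : Fin K ≃ {u : Fin h // cl q L u = r}, ∀ i : Fin K,
      ((e i).1 : ℕ) = yrep h L (r + q * i) := by
  have hq0 : 0 < q := by
    rcases Nat.eq_zero_or_pos q with h0 | h0
    · exact absurd hc.hr (by omega)
    · exact h0
  have hle : ∀ i : Fin K, r + q * i ≤ L := by
    intro i
    have h1 := hc.hL
    have h2 : q * (i : ℕ) ≤ q * (K - 1) := Nat.mul_le_mul_left _ (by have := i.2; omega)
    omega
  let g : Fin K → {u : Fin h // cl q L u = r} := fun i =>
    ⟨⟨yrep h L (r + q * i), yrep_lt hL (hle i)⟩, cl_yrep hr hc.hr (hle i)⟩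
  have hinj : Function.Injective g := by
    intro i j hij
    have h1 : yrep h L (r + q * i) = yrep h L (r + q * j) := by
      have := congrArg (fun x => ((x.1 : Fin h) : ℕ)) hij
      exact this
    have h2 := sub_mod_eq (hle i)
    have h3 := sub_mod_eq (hle j)
    have h4 : (r + q * (i : ℕ)) % q = r := by
      rw [Nat.add_mul_mod_self_left, Nat.mod_eq_of_lt hc.hr]
    have h5 : (r + q * (j : ℕ)) % q = r := by
      rw [Nat.add_mul_mod_self_left, Nat.mod_eq_of_lt hc.hr]
    have h6 : r + q * (i : ℕ) = r + q * j := by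
      have hi := hle i
      have hj := hle j
      unfold yrep at h1
      split_ifs at h1 with h7 h8 h8
      · exact h1
      · exfalso
        rw [h1] at h4
        omega
      · exfalso
        rw [← h1] at h5
        omega
      · omega
    apply Fin.ext
    have h7 : q * (i : ℕ) = q * j := by omega
    exact Nat.eq_of_mul_eq_mul_left hq0 h7
  have hsurj : Function.Surjective g := by
    rintro ⟨u, hu⟩
    have hu2 := u.2
    have key : ∀ l : ℕ, l ≤ L → l % q = r → ∃ i : Fin K, r + q * (i : ℕ) = l := by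
      intro l hl hlr
      have h1 : l = q * (l / q) + r := by rw [← hlr]; exact (Nat.div_add_mod l q).symm
      have h2 := hc.hU
      have h3 : l / q < K := by
        by_contra h4
        have h5 : q * K ≤ q * (l / q) := Nat.mul_le_mul_left _ (by omega)
        omega
      exact ⟨⟨l / q, h3⟩, by simp only; omega⟩
    unfold cl at hu
    rcases le_total ((u : ℕ) % q) ((L - u) % q) with h1 | h1
    · rw [min_eq_left h1] at hu
      obtain ⟨i, hi⟩ := key u (by omega) hu
      refine ⟨i, ?_⟩
      apply Subtype.ext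
      apply Fin.ext
      simp only [g, hi, yrep, if_pos hu2]
    · rw [min_eq_right h1] at hu
      obtain ⟨i, hi⟩ := key (L - u) (by omega) hu
      refine ⟨i, ?_⟩
      apply Subtype.ext
      apply Fin.ext
      simp only [g, hi, yrep]
      rw [if_neg (by omega)]
      omega
  exact ⟨Equiv.ofBijective g ⟨hinj, hsurj⟩, fun i => rfl⟩

/-- the minors of `dmat` on the rows of a class `r` (not the self-paired one) are, up to sign, the
determinants of `cmat`. -/
theorem minor_eq (h : ℕ) (hL : L + 1 = 2 * h) (hc : Cls q L r K) (hr : r < (L - r) % q) :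
    ∃ e : Fin K × Fin 6 ≃ {u : Fin h // cl q L u = r} × Fin 6,
      ∀ (κ : Type) (c : κ → Col) (f : {u : Fin h // cl q L u = r} × Fin 6 → κ) (E : ℤ),
        VG q E (cmat q L ξ r K (fun y => c (f (e y)))).det →
        VG q E ((dmat L ξ h c).submatrix
          (fun x : {u : Fin h // cl q L u = r} × Fin 6 => (x.1.1, x.2)) f).det := by
  obtain ⟨e0, he0⟩ := exists_class_equiv h hL hc hr
  refine ⟨e0.prodCongr (Equiv.refl _), fun κ c f E hE => ?_⟩
  have hle : ∀ i : Fin K, r + q * i ≤ L := by
    intro i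
    have h1 := hc.hL
    have h2 : q * (i : ℕ) ≤ q * (K - 1) := Nat.mul_le_mul_left _ (by have := i.2; omega)
    omega
  let s : Fin K × Fin 6 → ℤ := fun x => if r + q * (x.1 : ℕ) < h then 1 else (-1) ^ (x.2 : ℕ)
  have h1 : ((dmat L ξ h c).submatrix
      (fun x : {u : Fin h // cl q L u = r} × Fin 6 => (x.1.1, x.2)) f).submatrix
      (e0.prodCongr (Equiv.refl _)) (e0.prodCongr (Equiv.refl _)) =
      Matrix.diagonal (fun x => (s x : ℚ)) *
        cmat q L ξ r K (fun y => c (f ((e0.prodCongr (Equiv.refl _)) y))) := by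
    ext x y
    rw [Matrix.diagonal_mul]
    simp only [Matrix.submatrix_apply, dmat, cmat, Matrix.of_apply, Equiv.prodCongr_apply,
      Prod.map, Equiv.refl_apply]
    rw [he0]
    simp only [s, yrep]
    split_ifs with h2
    · simp
    · rw [coeff_tvec_symm ξ (hle x.1) _ x.2.2]
      push_cast
      rfl
  rw [← Matrix.det_submatrix_equiv_self (e0.prodCongr (Equiv.refl _)), h1, Matrix.det_mul,
    Matrix.det_diagonal]
  refine VG.int_mul ?_ hE
  rw [← Int.cast_prod]
  exact VG.int _

end Pool.Agent.Z5
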