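import Pool.Agent.Z5.PCnt
import Pool.Agent.Z5.PSym
import Pool.Agent.Z5.PSelf

/-!
# Assembly of the class bounds

The bound of the valuation of the dual determinant from the bounds for the classes.
-/

open Finset Polynomial

namespace Pool.Agent.Z5


variable {q L : ℕ} {ξ : ℚ} [hq : Fact q.Prime]

theorem self_card_le_one (h : ℕ) (hL : L + 1 = 2 * h) (h2 : q ≠ 2) :
    (((univ : Finset (Fin h)).image fun u : Fin h => cl q L u).filter
      (fun r => ¬ r ≠ (L - r) % q)).card ≤ 1 := by
  have h0 : 0 < q := hq.out.pos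
  have hcop : Nat.Coprime q 2 := (Nat.coprime_primes hq.out Nat.prime_two).mpr h2
  rw [Finset.card_le_one]
  intro a ha b hb
  rw [image_cl_eq h hL] at ha hb
  simp only [mem_filter, mem_range, not_not] at ha hb
  obtain ⟨⟨ha1, -, ha2⟩, ha3⟩ := ha
  obtain ⟨⟨hb1, -, hb2⟩, hb3⟩ := hb
  have ea := Nat.div_add_mod (L - a) q
  have eb := Nat.div_add_mod (L - b) q
  rw [← ha3] at ea
  rw [← hb3] at eb
  have e1 : 2 * a + q * ((L - a) / q) = 2 * b + q * ((L - b) / q) := by omega
  have e2 : 2 * a ≡ 2 * b [MOD q] := by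
    have := congrArg (· % q) e1
    simp only [Nat.add_mul_mod_self_left] at this
    exact this
  have e3 : a ≡ b [MOD q] := Nat.ModEq.cancel_left_of_coprime hcop e2
  exact Nat.ModEq.eq_of_lt_of_lt e3 ha1 hb1

/-- assembly: bounds for all classes give a bound for the determinant -/
theorem assemble (h2 : q ≠ 2) (h : ℕ) (hL : L + 1 = 2 * h) (hLq : L < q ^ 2) (hξ : VG q 0 ξ)
    {κ : Type} [Fintype κ] [DecidableEq κ] (eq : Fin h × Fin 6 ≃ κ) (c : κ → Col) (J : κ → ℤ)
    (hJ : ∀ y, J y ≤ 2) (hc : ∀ y, PG q 0 (c y).1 ∧ PG q 0 (c y).2.1 ∧ PG q 0 (c y).2.2)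
    (e : ℕ → ℤ) (he : e 0 = 0)
    (hcls : ∀ r K, Cls q L r K → r < (L - r) % q → ∀ f : Fin K × Fin 6 → κ, Function.Injective f →
      VG q (e K + ∑ y, J (f y)) (cmat q L ξ r K (fun y => c (f y))).det)
    (B : ℤ) (hB : 2 * B + e (if 2 ∣ (L / q + 1) then L / q + 1 else L / q) ≤
      ((L + 1) % q : ℕ) * e ((L + 1) / q + 1) + (q - (L + 1) % q : ℕ) * e ((L + 1) / q)) :
    VG q (B - 48 * (L / q + 1 : ℕ) + ∑ y, J y) ((dmat L ξ h c).submatrix id eq).det := by
  classical
  set I : Finset ℕ := (univ : Finset (Fin h)).image fun u : Fin h => cl q L u with hI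
  let E : ℕ → ℤ := fun g => if g ∈ I then (if g ≠ (L - g) % q then e ((L - g) / q + 1) else
    -(48 * (Fintype.card {u : Fin h // cl q L u = g} : ℤ))) else 0
  have h1 := VG_laplace_six (q := q) (dmat L ξ h c) eq (fun u : Fin h => cl q L u) E J ?_
  · refine h1.mono ?_
    have hS : ∑ g ∈ I, E g =
        ∑ g ∈ I.filter (fun g => g ≠ (L - g) % q), e ((L - g) / q + 1) +
        ∑ g ∈ I.filter (fun g => ¬ g ≠ (L - g) % q),
          -(48 * (Fintype.card {u : Fin h // cl q L u = g} : ℤ)) := by
      rw [← Finset.sum_filter_add_sum_filter_not I (fun g => g ≠ (L - g) % q)]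
      congr 1
      · apply Finset.sum_congr rfl
        intro g hg
        rw [mem_filter] at hg
        simp only [E]
        rw [if_pos hg.1, if_pos hg.2]
      · apply Finset.sum_congr rfl
        intro g hg
        rw [mem_filter] at hg
        simp only [E]
        rw [if_pos hg.1, if_neg hg.2]
    have hA : B ≤ ∑ g ∈ I.filter (fun g => g ≠ (L - g) % q), e ((L - g) / q + 1) := by
      have := sum_cls h hL h2 e he
      rw [← hI] at this
      linarith
    have hB' : -(48 * ((L / q + 1 : ℕ) : ℤ)) ≤ ∑ g ∈ I.filter (fun g => ¬ g ≠ (L - g) % q),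
          -(48 * (Fintype.card {u : Fin h // cl q L u = g} : ℤ)) := by
      have hc1 := self_card_le_one (q := q) h hL h2
      rw [← hI] at hc1
      rcases Finset.eq_empty_or_nonempty (I.filter (fun g => ¬ g ≠ (L - g) % q)) with h3 | h3
      · rw [h3, Finset.sum_empty]
        have : (0 : ℤ) ≤ ((L / q + 1 : ℕ) : ℤ) := Int.natCast_nonneg _
        linarith
      · have h4 : (I.filter (fun g => ¬ g ≠ (L - g) % q)).card = 1 :=
          le_antisymm hc1 (Finset.card_pos.mpr h3)
        obtain ⟨g, hg⟩ := Finset.card_eq_one.mp h4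
        rw [hg, Finset.sum_singleton]
        have hgm : g ∈ I.filter (fun g => ¬ g ≠ (L - g) % q) := by
          rw [hg]; exact mem_singleton_self g
        rw [hI, image_cl_eq h hL] at hgm
        simp only [mem_filter, mem_range, not_not] at hgm
        have h5 := card_self h hL h2 hgm.1.1 hgm.2
        have h6 : (Fintype.card {u : Fin h // cl q L u = g} : ℤ) ≤ ((L / q + 1 : ℕ) : ℤ) := by
          exact_mod_cast h5
        linarith
    rw [hS]
    linarith
  · intro g f hf
    by_cases hg : g ∈ I
    · have hg' := hg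
      rw [hI, image_cl_eq h hL] at hg'
      simp only [mem_filter, mem_range] at hg'
      by_cases hs : g ≠ (L - g) % q
      · have hE : E g = e ((L - g) / q + 1) := by
          simp only [E]
          rw [if_pos hg, if_pos hs]
        rw [hE]
        have hlt : g < (L - g) % q := lt_of_le_of_ne hg'.2.1 hs
        have hC := cls_exists hg'.1 hg'.2.2
        obtain ⟨e', he'⟩ := minor_eq (ξ := ξ) h hL hC hlt
        apply he' κ c f
        have h3 := hcls g _ hC hlt (fun y => f (e' y)) (hf.comp e'.injective)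
        rw [Equiv.sum_comp e' (fun x => J (f x))] at h3
        exact h3
      · have hE : E g = -(48 * (Fintype.card {u : Fin h // cl q L u = g} : ℤ)) := by
          simp only [E]
          rw [if_pos hg, if_neg hs]
        rw [hE]
        exact self_bound h hL hLq hξ c J hJ hc f
    · have hE : E g = 0 := by
        simp only [E]
        rw [if_neg hg]
      have : IsEmpty {u : Fin h // cl q L u = g} := by
        constructor
        rintro ⟨u, hu⟩
        apply hg
        rw [hI, mem_image]
        exact ⟨u, mem_univ _, hu⟩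
      rw [hE, Matrix.det_isEmpty]
      have h7 : ∑ x : {u : Fin h // cl q L u = g} × Fin 6, J (f x) = 0 := by
        rw [Finset.univ_eq_empty, Finset.sum_empty]
      rw [h7]
      exact VG.one

end Pool.Agent.Z5
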