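import Pool.Agent.Z5.PDefs

/-!
# The coefficients of `∏ (1 + X / (n (q - n)))` and `∏ (1 - X / n ^ 2)` modulo `q`
-/

open Finset Polynomial

namespace Pool.Agent.Z5

variable {q : ℕ}

namespace POm

variable [hq : Fact q.Prime]

theorem VG_inv_nat {n : ℕ} (h1 : 1 ≤ n) (h2 : n < q) : VG q 0 ((n : ℚ))⁻¹ := by
  refine Or.inr ?_
  rw [padicValRat.inv]
  have h3 : padicValRat q (n : ℚ) = 0 := by
    have h4 : ¬ q ∣ n := fun h => by
      have := Nat.le_of_dvd (by omega) h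
      omega
    rw [padicValRat.of_nat, padicValNat.eq_zero_of_not_dvd h4]
    rfl
  rw [h3]
  simp

theorem VG_inv_sub {n : ℕ} (h1 : 1 ≤ n) (h2 : n < q) : VG q 0 ((q : ℚ) - n)⁻¹ := by
  have h := VG_inv_nat (q := q) (n := q - n) (by omega) (by omega)
  rwa [Nat.cast_sub h2.le] at h

/-- power sums of the inverses -/
theorem VG_powsum {k : ℕ} (hk : 1 ≤ k) (hk2 : k < q - 1) :
    VG q 1 (∑ n ∈ Finset.Icc 1 (q - 1), ((n : ℚ)⁻¹) ^ k) := by
  have hq1 := hq.out.one_lt
  set D := (q - 1).factorial with hD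
  have hDn : ∀ n ∈ Finset.Icc 1 (q - 1), n * (D / n) = D := by
    intro n hn
    rw [Finset.mem_Icc] at hn
    exact Nat.mul_div_cancel' (Nat.dvd_factorial (by omega) (by omega))
  set N : ℕ := ∑ n ∈ Finset.Icc 1 (q - 1), (D / n) ^ k with hN
  have hD0 : (D : ℚ) ≠ 0 := by
    exact_mod_cast (Nat.factorial_pos _).ne'
  have h1 : ∑ n ∈ Finset.Icc 1 (q - 1), ((n : ℚ)⁻¹) ^ k = (N : ℚ) * ((D : ℚ)⁻¹) ^ k := by
    rw [hN, Nat.cast_sum, Finset.sum_mul]
    refine Finset.sum_congr rfl fun n hn => ?_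
    have h2 := hDn n hn
    rw [Finset.mem_Icc] at hn
    have hn0 : (n : ℚ) ≠ 0 := by
      have : n ≠ 0 := by omega
      exact_mod_cast this
    rw [Nat.cast_pow, ← mul_pow]
    congr 1
    have h3 : (n : ℚ) * ((D / n : ℕ) : ℚ) = D := by exact_mod_cast h2
    field_simp
    linarith
  have h2 : (q : ℤ) ∣ (N : ℤ) := by
    rw [Int.natCast_dvd_natCast, ← ZMod.natCast_eq_zero_iff]
    rw [hN, Nat.cast_sum]
    have h3 : ∀ n ∈ Finset.Icc 1 (q - 1), (((D / n) ^ k : ℕ) : ZMod q) =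
        (D : ZMod q) ^ k * ((n : ZMod q)⁻¹) ^ k := by
      intro n hn
      have h4 := hDn n hn
      rw [Finset.mem_Icc] at hn
      have hn0 : (n : ZMod q) ≠ 0 := by
        rw [Ne, ZMod.natCast_eq_zero_iff]
        intro h
        have := Nat.le_of_dvd (by omega) h
        omega
      rw [Nat.cast_pow, ← mul_pow]
      congr 1
      have h5 : (n : ZMod q) * ((D / n : ℕ) : ZMod q) = D := by exact_mod_cast congrArg _ h4
      rw [← h5]
      field_simp
    rw [Finset.sum_congr rfl h3, ← Finset.mul_sum]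
    have h6 : ∑ n ∈ Finset.Icc 1 (q - 1), ((n : ZMod q)⁻¹) ^ k =
        ∑ x : ZMod q, x ^ k := by
      have h7 : ∑ x : ZMod q, x ^ k = ∑ x ∈ (Finset.univ.erase (0 : ZMod q)), x ^ k := by
        rw [← Finset.add_sum_erase Finset.univ (fun x : ZMod q => x ^ k) (Finset.mem_univ 0)]
        simp [zero_pow (show k ≠ 0 by omega)]
      rw [h7]
      refine Finset.sum_bij' (fun n _ => ((n : ZMod q))⁻¹) (fun x _ => (x⁻¹).val) ?_ ?_ ?_ ?_ ?_
      · intro n hn
        rw [Finset.mem_Icc] at hn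
        rw [Finset.mem_erase]
        refine ⟨?_, Finset.mem_univ _⟩
        rw [Ne, inv_eq_zero, ZMod.natCast_eq_zero_iff]
        intro h
        have := Nat.le_of_dvd (by omega) h
        omega
      · intro x hx
        rw [Finset.mem_erase] at hx
        have hx0 : x⁻¹ ≠ 0 := inv_ne_zero hx.1
        have h8 : (x⁻¹).val ≠ 0 := by
          rw [Ne, ZMod.val_eq_zero]; exact hx0
        have h9 := ZMod.val_lt x⁻¹
        rw [Finset.mem_Icc]
        omega
      · intro n hn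
        rw [Finset.mem_Icc] at hn
        simp only [inv_inv]
        exact ZMod.val_cast_of_lt (by omega)
      · intro x hx
        simp
      · intro n hn
        rfl
    rw [h6, FiniteField.sum_pow_lt_card_sub_one (K := ZMod q) k (by rwa [ZMod.card]), mul_zero]
  rw [h1]
  have h3 : VG q 0 ((D : ℚ)⁻¹) := by
    refine Or.inr ?_
    rw [padicValRat.inv, padicValRat.of_nat]
    have h4 : ¬ q ∣ D := by
      rw [hD, hq.out.dvd_factorial]
      omega
    rw [padicValNat.eq_zero_of_not_dvd h4]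
    simp
  have h4 : VG q 1 ((N : ℤ) : ℚ) := by
    have := VG.of_dvd (q := q) (n := (N : ℤ)) (k := 1) (by simpa using h2)
    simpa using this
  have h5 := h4.mul_int (h3.pow_zero k)
  simpa using h5

theorem VG_two_inv (h : 2 < q) : VG q 0 ((2 : ℚ)⁻¹) := by
  have := VG_inv_nat (q := q) (n := 2) (by omega) h
  simpa using this

/-- sum of `1 / (n^j (q - n)^i)` -/
theorem VG_mixed (j : ℕ) (i : ℕ) (hk : 1 ≤ j + i) (hk2 : j + i < q - 1) :
    VG q 1 (∑ n ∈ Finset.Icc 1 (q - 1), ((n : ℚ)⁻¹) ^ j * (((q : ℚ) - n)⁻¹) ^ i) := by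
  induction i generalizing j with
  | zero => simpa using VG_powsum (q := q) (k := j) (by omega) (by omega)
  | succ i ih =>
    have hi := ih (j + 1) (by omega) (by omega)
    have h1 : ∑ n ∈ Finset.Icc 1 (q - 1), ((n : ℚ)⁻¹) ^ j * (((q : ℚ) - n)⁻¹) ^ (i + 1) =
        ∑ n ∈ Finset.Icc 1 (q - 1), (q : ℚ) * (((n : ℚ)⁻¹) ^ (j + 1) * (((q : ℚ) - n)⁻¹) ^ (i + 1)) -
        ∑ n ∈ Finset.Icc 1 (q - 1), ((n : ℚ)⁻¹) ^ (j + 1) * (((q : ℚ) - n)⁻¹) ^ i := by
      rw [← Finset.sum_sub_distrib]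
      refine Finset.sum_congr rfl fun n hn => ?_
      rw [Finset.mem_Icc] at hn
      have hn0 : (n : ℚ) ≠ 0 := by
        have : n ≠ 0 := by omega
        exact_mod_cast this
      have hn1 : (q : ℚ) - n ≠ 0 := by
        have : (n : ℚ) < q := by
          have : n < q := by omega
          exact_mod_cast this
        linarith
      have h2 : (q : ℚ) * ((n : ℚ)⁻¹ * ((q : ℚ) - n)⁻¹) = (n : ℚ)⁻¹ + ((q : ℚ) - n)⁻¹ := by
        field_simp
        ring
      rw [pow_succ, pow_succ]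
      linear_combination (-((n : ℚ)⁻¹ ^ j * ((q : ℚ) - n)⁻¹ ^ i)) * h2
    rw [h1]
    refine VG.sub (VG.sum _ _ fun n hn => ?_) hi
    rw [Finset.mem_Icc] at hn
    have h2 := ((VG_inv_nat (q := q) (n := n) hn.1 (by omega)).pow_zero (j + 1)).int_mul
      ((VG_inv_sub (q := q) (n := n) hn.1 (by omega)).pow_zero (i + 1))
    exact VG.self_prime.mul_int h2

theorem coeff_prod (c : ℕ → ℚ) (s : Finset ℕ) :
    (∏ n ∈ s, (1 + C (c n) * X : ℚ[X])).coeff 0 = 1 ∧
    (∏ n ∈ s, (1 + C (c n) * X : ℚ[X])).coeff 1 = ∑ n ∈ s, c n ∧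
    (∏ n ∈ s, (1 + C (c n) * X : ℚ[X])).coeff 2 = ((∑ n ∈ s, c n) ^ 2 - ∑ n ∈ s, c n ^ 2) * 2⁻¹ := by
  classical
  induction s using Finset.induction_on with
  | empty => simp [Polynomial.coeff_one]
  | insert a s ha ih =>
    obtain ⟨h0, h1, h2⟩ := ih
    rw [prod_insert ha, sum_insert ha, sum_insert ha]
    have e : ∀ P : ℚ[X], (1 + C (c a) * X) * P = P + C (c a) * (X * P) := fun P => by ring
    rw [e]
    refine ⟨?_, ?_, ?_⟩
    · simp [h0]
    · rw [coeff_add, coeff_C_mul, coeff_X_mul, h0, h1]; ring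
    · rw [coeff_add, coeff_C_mul, coeff_X_mul, h1, h2]; ring

theorem PG_prod (c : ℕ → ℚ) (s : Finset ℕ) (h : ∀ n ∈ s, VG q 0 (c n)) :
    PG q 0 (∏ n ∈ s, (1 + C (c n) * X : ℚ[X])) := by
  classical
  induction s using Finset.induction_on with
  | empty =>
    intro n
    rw [prod_empty, Polynomial.coeff_one]
    split_ifs
    · exact VG.one
    · exact VG.zero _
  | insert a s ha ih =>
    have ih' := ih fun n hn => h n (mem_insert_of_mem hn)
    have e : ∀ P : ℚ[X], (1 + C (c a) * X) * P = P + C (c a) * (X * P) := fun P => by ring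
    intro n
    rw [prod_insert ha, e, coeff_add, coeff_C_mul]
    refine (ih' n).add ?_
    rcases n with _ | n
    · simp [VG.zero]
    · rw [coeff_X_mul]
      exact (h a (mem_insert_self _ _)).int_mul (ih' n)

omit hq in
theorem om_eq : om q = ∑ n ∈ Finset.Icc 1 (q - 1), ((n : ℚ)⁻¹) ^ 1 * (((q : ℚ) - n)⁻¹) ^ 1 := by
  unfold om
  refine Finset.sum_congr rfl fun n _ => ?_
  rw [pow_one, pow_one, one_div, mul_inv]

end POm

open POm

section

variable [hq : Fact q.Prime]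

theorem om_VG (h5 : 5 ≤ q) : VG q 1 (om q) := by
  rw [om_eq]
  exact VG_mixed 1 1 (by omega) (by omega)

theorem Om_coeff (h7 : 7 ≤ q) : (Om q).coeff 0 = 1 ∧ (Om q).coeff 1 = om q ∧
    VG q 1 ((Om q).coeff 2) ∧ PG q 0 (Om q) := by
  obtain ⟨h0, h1, h2⟩ := coeff_prod (fun n => 1 / ((n : ℚ) * ((q : ℚ) - n))) (Finset.Icc 1 (q - 1))
  refine ⟨h0, h1, ?_, ?_⟩
  · have h3 : (Om q).coeff 2 = (om q ^ 2 - ∑ n ∈ Finset.Icc 1 (q - 1),
        ((n : ℚ)⁻¹) ^ 2 * (((q : ℚ) - n)⁻¹) ^ 2) * 2⁻¹ := by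
      unfold Om
      rw [h2]
      congr 2
      refine Finset.sum_congr rfl fun n _ => ?_
      rw [one_div, mul_inv, mul_pow]
    rw [h3]
    refine VG.mul_int (VG.sub ?_ (VG_mixed 2 2 (by omega) (by omega))) (VG_two_inv (by omega))
    have h4 : VG q 1 (om q) := by
      rw [om_eq]
      exact VG_mixed 1 1 (by omega) (by omega)
    rw [pow_two]
    exact (h4.mul h4).mono (by norm_num)
  · refine PG_prod _ _ fun n hn => ?_
    rw [Finset.mem_Icc] at hn
    rw [one_div, mul_inv]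
    exact (VG_inv_nat (q := q) (n := n) hn.1 (by omega)).int_mul
      (VG_inv_sub (q := q) (n := n) hn.1 (by omega))

theorem Om1_coeff (h7 : 7 ≤ q) : (Om1 q).coeff 0 = 1 ∧
    VG q 2 ((Om1 q).coeff 1 - om q) ∧ VG q 1 ((Om1 q).coeff 1) ∧ PG q 0 (Om1 q) := by
  have he : Om1 q = ∏ n ∈ Finset.Icc 1 (q - 1), (1 + C (-(1 / (n : ℚ) ^ 2)) * X : ℚ[X]) := by
    unfold Om1
    refine Finset.prod_congr rfl fun n _ => ?_
    rw [C_neg, neg_mul, sub_eq_add_neg]
  obtain ⟨h0, h1, -⟩ := coeff_prod (fun n => -(1 / (n : ℚ) ^ 2)) (Finset.Icc 1 (q - 1))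
  have h1' : (Om1 q).coeff 1 = -∑ n ∈ Finset.Icc 1 (q - 1), ((n : ℚ)⁻¹) ^ 2 := by
    rw [he, h1, Finset.sum_neg_distrib]
    congr 1
    refine Finset.sum_congr rfl fun n _ => ?_
    rw [one_div, inv_pow]
  refine ⟨by rw [he, h0], ?_, ?_, ?_⟩
  · have h3 : (Om1 q).coeff 1 - om q =
        -((q : ℚ) * ∑ n ∈ Finset.Icc 1 (q - 1), ((n : ℚ)⁻¹) ^ 2 * (((q : ℚ) - n)⁻¹) ^ 1) := by
      rw [h1', om_eq, Finset.mul_sum, ← Finset.sum_neg_distrib, ← Finset.sum_neg_distrib,
        ← Finset.sum_sub_distrib]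
      refine Finset.sum_congr rfl fun n hn => ?_
      rw [Finset.mem_Icc] at hn
      have hn0 : (n : ℚ) ≠ 0 := by
        have : n ≠ 0 := by omega
        exact_mod_cast this
      have hn1 : (q : ℚ) - n ≠ 0 := by
        have : (n : ℚ) < q := by
          have : n < q := by omega
          exact_mod_cast this
        linarith
      field_simp
      ring
    rw [h3]
    exact (VG.self_prime.mul (VG_mixed 2 1 (by omega) (by omega))).neg
  · rw [h1']
    exact (VG_powsum (q := q) (k := 2) (by omega) (by omega)).neg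
  · rw [he]
    refine PG_prod _ _ fun n hn => ?_
    rw [Finset.mem_Icc] at hn
    rw [one_div, ← inv_pow]
    exact ((VG_inv_nat (q := q) (n := n) hn.1 (by omega)).pow_zero 2).neg

end

end Pool.Agent.Z5
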