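import Pool.Agent.Z5.PPG

/-!
# Z5: expansion at the class centre, scaled variable `ε = q ζ`
-/

open Finset Polynomial

namespace Pool.Agent.Z5


variable {q L r K : ℕ} {ξ : ℚ} [hq : Fact q.Prime]

omit hq in
private lemma map_aeval_ps (φ : PowerSeries ℚ →+* PowerSeries ℚ) (f : PowerSeries ℚ) (h : ℚ[X]) :
    φ (aeval f h) = aeval (φ f) h := by
  have h1 : φ.toRatAlgHom (aeval f h) = aeval (φ.toRatAlgHom f) h :=
    (Polynomial.aeval_algHom_apply φ.toRatAlgHom f h).symm
  exact h1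

omit hq in
private lemma rescale_hser (u : ℕ) (h : ℚ[X]) :
    PowerSeries.rescale (q : ℚ) (hser L u h) =
      aeval ((PowerSeries.C ((L : ℚ) - 2 * u) + 2 * (PowerSeries.C (q : ℚ) * PowerSeries.X)) ^ 2) h := by
  unfold hser
  rw [map_aeval_ps, map_pow]
  congr 3
  unfold xser
  rw [map_add, map_mul, PowerSeries.rescale_X]
  congr 1
  · ext n
    rw [PowerSeries.coeff_rescale, PowerSeries.coeff_C]
    split_ifs with hn
    · subst hn; simp
    · simp
  · congr 1
    exact map_ofNat _ 2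

/-- an affine polynomial squared is integral -/
private lemma PG_affine (c d : ℤ) : PG q 0 ((C (c : ℚ) + C (d : ℚ) * X) ^ 2) := by
  have h1 : ((C (c : ℚ) + C (d : ℚ) * X) ^ 2 : ℚ[X])
      = ((C c + C d * X) ^ 2 : ℤ[X]).map (Int.castRingHom ℚ) := by
    simp
  intro n
  rw [h1, coeff_map]
  exact VG.int _

/-- `h(Y)` is a polynomial in `q y`, `y = yv K i`, with the same integrality -/
theorem hser_centre (hK : 1 ≤ K) {k : ℤ} (h : ℚ[X]) (hh : PG q k h) :
    ∃ h' : ℚ[X], PG q k h' ∧ ∀ i < K, PowerSeries.rescale (q : ℚ) (hser L (r + q * i) h) =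
      aeval (PowerSeries.C (q : ℚ) * yv K i) h' := by
  refine ⟨h.comp ((C (((L : ℤ) - 2 * r - q * (K - 1) : ℤ) : ℚ) + C ((1 : ℤ) : ℚ) * X) ^ 2),
    PG.comp hh (PG_affine _ _), fun i _ => ?_⟩
  rw [rescale_hser, aeval_comp]
  congr 2
  rw [map_pow, map_add, map_mul, aeval_C, aeval_C, aeval_X]
  congr 1
  unfold yv
  simp only [PowerSeries.algebraMap_apply, Algebra.algebraMap_self, RingHom.id_apply]
  push_cast
  simp only [map_sub, map_add, map_mul, map_one, map_natCast, map_ofNat]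
  ring

/-- `h(Y)` is a polynomial in `q z`, with the same integrality -/
theorem hser_zz {k : ℤ} (h : ℚ[X]) (hh : PG q k h) :
    ∃ h' : ℚ[X], PG q k h' ∧ ∀ i, PowerSeries.rescale (q : ℚ) (hser L (r + q * i) h) =
      aeval (PowerSeries.C (q : ℚ) * zz i) h' := by
  refine ⟨h.comp ((C (((L : ℤ) - 2 * r : ℤ) : ℚ) + C ((2 : ℤ) : ℚ) * X) ^ 2),
    PG.comp hh (PG_affine _ _), fun i => ?_⟩
  rw [rescale_hser, aeval_comp]
  congr 2
  rw [map_pow, map_add, map_mul, aeval_C, aeval_C, aeval_X]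
  congr 1
  unfold zz
  simp only [PowerSeries.algebraMap_apply, Algebra.algebraMap_self, RingHom.id_apply]
  push_cast
  simp only [map_sub, map_add, map_mul, map_natCast, map_ofNat]
  ring

omit hq in
private lemma coeff_inv_sub {m : ℚ} (hm : m ≠ 0) (n : ℕ) :
    PowerSeries.coeff n (PowerSeries.C m - PowerSeries.X)⁻¹ = 1 / m ^ (n + 1) := by
  have h1 : (PowerSeries.C m - PowerSeries.X)⁻¹ = PowerSeries.mk fun n => 1 / m ^ (n + 1) := by
    symm
    rw [PowerSeries.eq_inv_iff_mul_eq_one (by simpa using hm)]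
    ext n
    rw [mul_sub, map_sub]
    rcases n with _ | n
    · simp [hm]
    · rw [PowerSeries.coeff_succ_mul_X, mul_comm, PowerSeries.coeff_C_mul, PowerSeries.coeff_mk,
        PowerSeries.coeff_mk, PowerSeries.coeff_one, if_neg (by omega)]
      field_simp
      ring
  rw [h1, PowerSeries.coeff_mk]

omit hq in
private lemma coeff_inv_add {m : ℚ} (hm : m ≠ 0) (n : ℕ) :
    PowerSeries.coeff n (PowerSeries.C m + PowerSeries.X)⁻¹ = (-1) ^ n * (1 / m ^ (n + 1)) := by
  have h1 : (PowerSeries.C m + PowerSeries.X)⁻¹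
      = PowerSeries.mk fun n => (-1) ^ n * (1 / m ^ (n + 1)) := by
    symm
    rw [PowerSeries.eq_inv_iff_mul_eq_one (by simpa using hm)]
    ext n
    rw [mul_add, map_add]
    rcases n with _ | n
    · simp [hm]
    · rw [PowerSeries.coeff_succ_mul_X, mul_comm, PowerSeries.coeff_C_mul, PowerSeries.coeff_mk,
        PowerSeries.coeff_mk, PowerSeries.coeff_one, if_neg (by omega)]
      field_simp
      ring
  rw [h1, PowerSeries.coeff_mk]

omit hq in
private lemma coeff_gS (i n : ℕ) : PowerSeries.coeff n (gS K i)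
    = Hs (n + 1) i + (-1) ^ n * Hs (n + 1) (K - 1 - i) := by
  unfold gS Hs
  rw [map_add, map_sum, map_sum, Finset.mul_sum]
  congr 1
  · refine Finset.sum_congr rfl fun m hm => ?_
    rw [coeff_inv_sub]
    have := (Finset.mem_Icc.1 hm).1
    positivity
  · refine Finset.sum_congr rfl fun m hm => ?_
    rw [coeff_inv_add]
    have := (Finset.mem_Icc.1 hm).1
    positivity

private lemma VG_one_div_pow {m : ℕ} (hm : ¬ q ∣ m) (n : ℕ) : VG q 0 (1 / (m : ℚ) ^ n) := by
  refine Or.inr ?_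
  have h1 : padicValRat q (m : ℚ) = 0 := by
    rw [padicValRat.of_nat]
    exact_mod_cast padicValNat.eq_zero_of_not_dvd hm
  have hm0 : (m : ℚ) ≠ 0 := by
    intro h
    have : m = 0 := by exact_mod_cast h
    exact hm (this ▸ dvd_zero q)
  rw [one_div, padicValRat.inv, padicValRat.pow, h1]
  simp

private lemma Hs_VG {M : ℕ} (hM : M < q) (n : ℕ) : VG q 0 (Hs n M) := by
  unfold Hs
  refine VG.sum _ _ fun m hm => VG_one_div_pow (fun hd => ?_) n
  have h1 := Finset.mem_Icc.1 hm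
  have := Nat.le_of_dvd (by omega) hd
  omega

/-- the part of a harmonic sum over the multiples of `q` -/
private lemma Hs_split (n M : ℕ) :
    VG q 0 (Hs n M - 1 / (q : ℚ) ^ n * Hs n (M / q)) := by
  have hq0 : 0 < q := hq.out.pos
  have h1 : Hs n M = ∑ m ∈ (Finset.Icc 1 M).filter (fun m => q ∣ m), 1 / (m : ℚ) ^ n
      + ∑ m ∈ (Finset.Icc 1 M).filter (fun m => ¬ q ∣ m), 1 / (m : ℚ) ^ n := by
    unfold Hs
    rw [Finset.sum_filter_add_sum_filter_not]
  have h2 : (Finset.Icc 1 M).filter (fun m => q ∣ m)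
      = (Finset.Icc 1 (M / q)).image (fun m => q * m) := by
    ext m
    simp only [Finset.mem_filter, Finset.mem_Icc, Finset.mem_image]
    constructor
    · rintro ⟨⟨h3, h4⟩, ⟨a, rfl⟩⟩
      refine ⟨a, ⟨?_, ?_⟩, rfl⟩
      · rcases Nat.eq_zero_or_pos a with h | h
        · subst h; omega
        · exact h
      · rw [Nat.le_div_iff_mul_le hq0, mul_comm]; exact h4
    · rintro ⟨a, ⟨h3, h4⟩, rfl⟩
      refine ⟨⟨Nat.mul_pos hq0 h3, ?_⟩, dvd_mul_right _ _⟩
      rw [Nat.le_div_iff_mul_le hq0, mul_comm] at h4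
      exact h4
  have h3 : ∑ m ∈ (Finset.Icc 1 M).filter (fun m => q ∣ m), 1 / (m : ℚ) ^ n
      = 1 / (q : ℚ) ^ n * Hs n (M / q) := by
    rw [h2, Finset.sum_image (fun a _ b _ hab => Nat.eq_of_mul_eq_mul_left hq0 hab)]
    unfold Hs
    rw [Finset.mul_sum]
    refine Finset.sum_congr rfl fun m _ => ?_
    push_cast
    rw [mul_pow, one_div_mul_one_div]
  rw [h1, h3, add_sub_cancel_left]
  exact VG.sum _ _ fun m hm => VG_one_div_pow (Finset.mem_filter.1 hm).2 n

/-- `kerP = -q⁻¹ gS + integral` -/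
theorem kerP_sing (hc : Cls q L r K) (hL : L < q ^ 2) (hξ : VG q 0 ξ) {i : ℕ} (hi : i < K) :
    SG q 0 (PowerSeries.rescale (q : ℚ) (kerP L ξ (r + q * i))
      + PowerSeries.C ((q : ℚ)⁻¹) * gS K i) := by
  intro n hn
  have hq0 : (q : ℚ) ≠ 0 := by exact_mod_cast hq.out.ne_zero
  have hqpos : 0 < q := hq.out.pos
  have hu : (r + q * i) / q = i := by
    rw [Nat.add_mul_div_left _ _ hqpos, Nat.div_eq_of_lt hc.hr, zero_add]
  have hv : (L - (r + q * i)) / q = K - 1 - i := by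
    have h1 := hc.hL
    have h2 := hc.hU
    obtain ⟨k, rfl⟩ : ∃ k, K = i + 1 + k := ⟨K - (i + 1), by omega⟩
    have h3 : i + 1 + k - 1 - i = k := by omega
    have h4 : i + 1 + k - 1 = i + k := by omega
    rw [h3]
    rw [h4] at h1
    have h5 : q * (i + k) = q * i + q * k := by ring
    have h6 : q * (i + 1 + k) = q * i + q + q * k := by ring
    rw [h5] at h1
    rw [h6] at h2
    refine Nat.div_eq_of_lt_le ?_ ?_
    · rw [mul_comm]; omega
    · have : (k + 1) * q = q * k + q := by ring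
      rw [this]
      omega
  rw [map_add, PowerSeries.coeff_rescale, PowerSeries.coeff_C_mul, coeff_gS]
  unfold kerP
  rw [PowerSeries.coeff_mk, if_pos hn]
  have h1 := Hs_split (q := q) (n + 1) (r + q * i)
  have h2 := Hs_split (q := q) (n + 1) (L - (r + q * i))
  rw [hu] at h1
  rw [hv] at h2
  have h3 : (q : ℚ) ^ n * (-(Hs (n + 1) (r + q * i) + (-1) ^ n * Hs (n + 1) (L - (r + q * i)))
        + (if n = 4 then 2 * ξ else 0))
      + (q : ℚ)⁻¹ * (Hs (n + 1) i + (-1) ^ n * Hs (n + 1) (K - 1 - i))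
      = -((q : ℚ) ^ n * (Hs (n + 1) (r + q * i) - 1 / (q : ℚ) ^ (n + 1) * Hs (n + 1) i))
        + -((-1) ^ n * ((q : ℚ) ^ n * (Hs (n + 1) (L - (r + q * i))
            - 1 / (q : ℚ) ^ (n + 1) * Hs (n + 1) (K - 1 - i))))
        + (q : ℚ) ^ n * (if n = 4 then 2 * ξ else 0) := by
    have h4 : (q : ℚ) ^ n * (1 / (q : ℚ) ^ (n + 1)) = (q : ℚ)⁻¹ := by
      rw [pow_succ]
      field_simp
    linear_combination (Hs (n + 1) i + (-1) ^ n * Hs (n + 1) (K - 1 - i)) * (-h4)
  rw [h3]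
  have hqn : VG q 0 ((q : ℚ) ^ n) := by
    exact_mod_cast VG.nat (q := q) (q ^ n)
  have hneg : VG q 0 ((-1 : ℚ) ^ n) := by
    exact_mod_cast VG.int (q := q) ((-1) ^ n)
  refine VG.add (VG.add (VG.neg (hqn.mul_int h1)) (VG.neg (hneg.mul_int (hqn.mul_int h2)))) ?_
  refine hqn.mul_int ?_
  split_ifs
  · have h2' : VG q 0 (2 : ℚ) := by exact_mod_cast VG.nat (q := q) 2
    exact h2'.mul_int hξ
  · exact VG.zero _

theorem gS_int (hK : K ≤ q) {i : ℕ} (hi : i < K) : SG q 0 (gS K i) := by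
  intro n _
  rw [coeff_gS]
  have hneg : VG q 0 ((-1 : ℚ) ^ n) := by
    exact_mod_cast VG.int (q := q) ((-1) ^ n)
  exact (Hs_VG (by omega) _).add (hneg.mul_int (Hs_VG (by omega) _))

theorem yv_int (i : ℕ) : SG q 0 (yv K i) := by
  intro n _
  unfold yv
  have h2 : (2 : PowerSeries ℚ) = PowerSeries.C (2 : ℚ) := (map_ofNat _ 2).symm
  rw [map_add, h2, PowerSeries.coeff_C_mul, PowerSeries.coeff_C, PowerSeries.coeff_X]
  refine VG.add ?_ ?_
  · split_ifs
    · exact_mod_cast VG.int (q := q) ((K : ℤ) - 1 - 2 * i)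
    · exact VG.zero _
  · split_ifs
    · exact_mod_cast VG.nat (q := q) 2
    · rw [mul_zero]; exact VG.zero _

theorem zz_int (i : ℕ) : SG q 0 (zz i) := by
  intro n _
  unfold zz
  rw [map_sub, PowerSeries.coeff_C, PowerSeries.coeff_X]
  refine VG.sub ?_ ?_
  · split_ifs
    · exact VG.one
    · exact VG.zero _
  · split_ifs
    · exact VG.nat _
    · exact VG.zero _

end Pool.Agent.Z5
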