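import Pool.Agent.Z5.PK2

/-!
# `p`-adic part: classes with two poles, the kernel lies in the lattice
-/

open Finset Polynomial

namespace Pool.Agent.Z5

variable {q L r K : ℕ} {ξ : ℚ} [hq : Fact q.Prime]

omit hq in
/-- congruence modulo `ζ ^ 6` -/
theorem SG_of_coeff {k : ℤ} {f g : PowerSeries ℚ}
    (h : ∀ n < 6, PowerSeries.coeff n f = PowerSeries.coeff n g) : SG q k (f - g) := fun n hn => by
  rw [map_sub, h n hn, sub_self]; exact VG.zero _

theorem R2.adm {F : Fin 2 → PowerSeries ℚ} (h : R2 q F) : Adm2 q 0 F := by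
  have h1 : Adm2 q 0 (fun i => aeval (uz q i) (1 : ℚ[X])) :=
    Adm2.of_poly (by simpa using PG.C (q := q) (k := 0) VG.one)
  have := Adm2.mul h h1
  simpa using this

/-- inverses of linear functions of `u` -/
theorem R2.inv {m : ℚ} (hm : m ≠ 0) (h0 : VG q 0 m) (h1 : VG q 0 m⁻¹) {s : ℚ} (hs : VG q 0 s) :
    R2 q (fun i => (PowerSeries.C m + PowerSeries.C s * uz q i)⁻¹) := by
  have hcc : ∀ i : Fin 2, PowerSeries.constantCoeff (PowerSeries.C m + PowerSeries.C s * uz q i) =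
      m - s * q * (i : ℕ) := by
    intro i
    simp only [uz, zz, map_add, map_mul, map_sub, PowerSeries.constantCoeff_C,
      PowerSeries.constantCoeff_X]
    ring
  have hV : ∀ i : Fin 2, VG q 0 (m - s * q * (i : ℕ)) := fun i => by
    have : VG q 0 (s * q * (i : ℕ)) := by
      have := (hs.mul (VG.nat (q := q) q)).mul (VG.nat (q := q) (i : ℕ))
      simpa using this
    exact h0.sub this
  -- a unit
  have hval : padicValRat q m = 0 := by
    have a := h0.val hm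
    have b := h1.val (inv_ne_zero hm)
    rw [padicValRat.inv] at b
    omega
  have hne : ∀ i : Fin 2, m - s * q * (i : ℕ) ≠ 0 ∧ VG q 0 (m - s * q * (i : ℕ))⁻¹ := by
    intro i
    have hx : VG q 1 (s * q * (i : ℕ)) := by
      have := (hs.mul (VG.self_prime (q := q))).mul (VG.nat (q := q) (i : ℕ))
      simpa using this
    by_cases hx0 : s * q * (i : ℕ) = 0
    · rw [hx0, sub_zero]; exact ⟨hm, h1⟩
    · have hxv := hx.val hx0
      have hne' : m - s * q * (i : ℕ) ≠ 0 := by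
        intro h
        have : m = s * q * (i : ℕ) := by linarith
        rw [← this, hval] at hxv
        omega
      refine ⟨hne', Or.inr ?_⟩
      have hadd : padicValRat q (m + -(s * q * (i : ℕ))) = padicValRat q m :=
        padicValRat.add_eq_of_lt (by rwa [← sub_eq_add_neg]) hm (neg_ne_zero.mpr hx0)
          (by rw [padicValRat.neg]; omega)
      rw [← sub_eq_add_neg] at hadd
      rw [padicValRat.inv, hadd, hval]
      rfl
  have hinv : ∀ i : Fin 2, Z5.SG q 0 (PowerSeries.C m + PowerSeries.C s * uz q i)⁻¹ := by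
    intro i
    apply SG.inv
    · apply SG.add (SG.C h0)
      have := SG.mul (SG.C hs) ((uz_SG (q := q) i).mono (l := 0) (by norm_num))
      simpa using this
    · rw [hcc]; exact (hne i).1
    · rw [hcc]; exact (hne i).2
  refine ⟨∑ k ∈ range 7, C ((-s) ^ k * m⁻¹ ^ (k + 1)) * X ^ k, ?_, fun i => ?_⟩
  · intro n
    rw [finsetSum_coeff]
    refine VG.sum _ _ fun k _ => ?_
    rw [coeff_C_mul, coeff_X_pow]
    split_ifs
    · rw [mul_one]
      have := (hs.neg.pow_zero k).mul (h1.pow_zero (k + 1))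
      simpa using this
    · rw [mul_zero]; exact VG.zero _
  · have hgeo : (PowerSeries.C m + PowerSeries.C s * uz q i) *
        (∑ k ∈ range 7, PowerSeries.C ((-s) ^ k * m⁻¹ ^ (k + 1)) * uz q i ^ k) =
        1 - PowerSeries.C ((-s) ^ 7 * m⁻¹ ^ 7) * uz q i ^ 7 := by
      have hm1 : (PowerSeries.C m : PowerSeries ℚ) * PowerSeries.C m⁻¹ = 1 := by
        rw [← map_mul, mul_inv_cancel₀ hm, map_one]
      simp only [Finset.sum_range_succ, Finset.sum_range_zero, map_mul, map_pow, map_neg]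
      set a := (PowerSeries.C m : PowerSeries ℚ)
      set b := (PowerSeries.C m⁻¹ : PowerSeries ℚ)
      set c := (PowerSeries.C s : PowerSeries ℚ)
      set u := uz q i
      linear_combination (1 - c * u * b + c ^ 2 * u ^ 2 * b ^ 2 - c ^ 3 * u ^ 3 * b ^ 3 +
        c ^ 4 * u ^ 4 * b ^ 4 - c ^ 5 * u ^ 5 * b ^ 5 + c ^ 6 * u ^ 6 * b ^ 6) * hm1
    have hcc0 : PowerSeries.constantCoeff (PowerSeries.C m + PowerSeries.C s * uz q i) ≠ 0 := by
      rw [hcc]; exact (hne i).1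
    have hmi : (PowerSeries.C m + PowerSeries.C s * uz q i)⁻¹ *
        (PowerSeries.C m + PowerSeries.C s * uz q i) = 1 := PowerSeries.inv_mul_cancel _ hcc0
    have haev : aeval (uz q i) (∑ k ∈ range 7, C ((-s) ^ k * m⁻¹ ^ (k + 1)) * X ^ k) =
        ∑ k ∈ range 7, PowerSeries.C ((-s) ^ k * m⁻¹ ^ (k + 1)) * uz q i ^ k := by
      rw [map_sum]
      refine Finset.sum_congr rfl fun k _ => ?_
      rw [map_mul, map_pow, aeval_X, aeval_C]
      rfl
    rw [haev]
    have e : (PowerSeries.C m + PowerSeries.C s * uz q i)⁻¹ -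
        ∑ k ∈ range 7, PowerSeries.C ((-s) ^ k * m⁻¹ ^ (k + 1)) * uz q i ^ k =
        (PowerSeries.C m + PowerSeries.C s * uz q i)⁻¹ *
          (PowerSeries.C ((-s) ^ 7 * m⁻¹ ^ 7) * uz q i ^ 7) := by
      linear_combination (-(PowerSeries.C m + PowerSeries.C s * uz q i)⁻¹) * hgeo +
        (∑ k ∈ range 7, PowerSeries.C ((-s) ^ k * m⁻¹ ^ (k + 1)) * uz q i ^ k) * hmi
    rw [e]
    have hc : VG q 0 ((-s) ^ 7 * m⁻¹ ^ 7) := by
      have := (hs.neg.pow_zero 7).mul (h1.pow_zero 7)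
      simpa using this
    exact (SG.mul (hinv i) (SG.mul (SG.C hc) (SG.pow (uz_SG (q := q) i) 7))).mono (by norm_num)

/-- natural numbers prime to `q` -/
theorem VG_nat_inv {m : ℕ} (h : ¬ q ∣ m) : VG q 0 ((m : ℚ))⁻¹ := by
  have := VG_inv_int (q := q) (n := (m : ℤ)) (by exact_mod_cast h)
  simpa using this

/-- `U(u) = u (u + q)` -/
noncomputable def Up (q : ℕ) : ℚ[X] := X * (X + C (q : ℚ))

theorem Up_PG : PG q 0 (Up q) := by
  have := PG.mul (PG.X (q := q)) (PG.add PG.X (PG.C (VG.nat (q := q) q)))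
  exact this.mono (by norm_num)

omit hq in
theorem aeval_Up (i : ℕ) : aeval (uz q i) (Up q) = uz q i * (uz q i + PowerSeries.C (q : ℚ)) := by
  simp only [Up, map_mul, map_add, aeval_X, aeval_C]
  rfl

/-- `σ` at the two poles -/
theorem sg2_mul (i : Fin 2) :
    (1 + PowerSeries.C (1 - 2 * ((i : ℕ) : ℚ)) * PowerSeries.X) * sg2 (i : ℕ) = -1 := by
  have h0 : PowerSeries.constantCoeff
      (1 + PowerSeries.C (1 - 2 * ((i : ℕ) : ℚ)) * PowerSeries.X) ≠ 0 := by simp
  have := PowerSeries.mul_inv_cancel _ h0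
  rw [sg2, mul_neg, this]

omit hq in
/-- `ε ^ 2 = U + U σ` -/
theorem eps_sq (i : Fin 2) : (PowerSeries.C (q : ℚ) * PowerSeries.X) ^ 2 =
    aeval (uz q i) (Up q) + aeval (uz q i) (Up q) * sg2 (i : ℕ) := by
  have h := sg2_mul i
  rw [aeval_Up]
  fin_cases i
  · simp only [uz, zz] at *
    simp only [Nat.cast_zero, map_zero, sub_zero, mul_zero, map_one, one_mul] at *
    linear_combination (-(PowerSeries.C (q : ℚ)) ^ 2 * PowerSeries.X) * h
  · simp only [uz, zz] at *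
    simp only [Nat.cast_one, map_one, mul_one] at *
    have e : (PowerSeries.C (1 - 2 : ℚ) : PowerSeries ℚ) = -1 := by
      rw [← map_one (PowerSeries.C (R := ℚ)), ← map_neg]; norm_num
    rw [e] at h
    linear_combination ((PowerSeries.C (q : ℚ)) ^ 2 * PowerSeries.X) * h

omit hq in
/-- `U σ ^ 2 = q ^ 2 (1 + σ)` -/
theorem U_sg_sq (i : Fin 2) : aeval (uz q i) (Up q) * sg2 (i : ℕ) ^ 2 =
    PowerSeries.C (q : ℚ) ^ 2 * (1 + sg2 (i : ℕ)) := by
  have h := sg2_mul i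
  rw [aeval_Up]
  fin_cases i
  · simp only [uz, zz] at *
    simp only [Nat.cast_zero, map_zero, sub_zero, mul_zero, map_one, one_mul] at *
    linear_combination (PowerSeries.C (q : ℚ) ^ 2 * (PowerSeries.X * sg2 0 - 1)) * h
  · simp only [uz, zz] at *
    simp only [Nat.cast_one, map_one, mul_one] at *
    have e : (PowerSeries.C (1 - 2 : ℚ) : PowerSeries ℚ) = -1 := by
      rw [← map_one (PowerSeries.C (R := ℚ)), ← map_neg]; norm_num
    rw [e] at h
    linear_combination (-PowerSeries.C (q : ℚ) ^ 2 * (PowerSeries.X * sg2 1 + 1)) * h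

/-! ### The kernel -/

omit hq in
theorem coeff_lin_inv {a b : ℚ} (ha : a ≠ 0) (n : ℕ) :
    PowerSeries.coeff n (PowerSeries.C a + PowerSeries.C b * PowerSeries.X)⁻¹ =
      (-b) ^ n * a⁻¹ ^ (n + 1) := by
  have h : (PowerSeries.C a + PowerSeries.C b * PowerSeries.X)⁻¹ =
      PowerSeries.mk fun n => (-b) ^ n * a⁻¹ ^ (n + 1) := by
    symm
    rw [PowerSeries.eq_inv_iff_mul_eq_one (by simpa using ha)]
    ext n
    rw [mul_add, map_add]
    rcases n with _ | n
    · simp [ha]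
    · rw [← mul_assoc, PowerSeries.coeff_succ_mul_X]
      simp only [PowerSeries.coeff_mul_C, PowerSeries.coeff_mk, PowerSeries.coeff_one]
      rw [if_neg (Nat.succ_ne_zero n)]
      linear_combination ((-b) ^ (n + 1) * a⁻¹ ^ (n + 1)) * (mul_inv_cancel₀ ha)
  rw [h, PowerSeries.coeff_mk]

omit hq in
theorem sum_Icc_split {M : Type*} [AddCommMonoid M] (a b : ℕ) (f : ℕ → M) :
    ∑ m ∈ Icc 1 (a + b), f m = ∑ m ∈ Icc 1 a, f m + ∑ m ∈ Icc 1 b, f (a + m) := by
  induction b with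
  | zero => simp
  | succ b ih =>
    rw [← add_assoc, Finset.sum_Icc_succ_top (by omega), Finset.sum_Icc_succ_top (by omega), ih,
      add_assoc]
    rfl

omit hq in
/-- the first coefficients of the scaled kernel -/
theorem coeff_ker (u : ℕ) (n : ℕ) (hn : n < 6) :
    PowerSeries.coeff n (PowerSeries.rescale (q : ℚ) (kerP L ξ u)) =
    PowerSeries.coeff n (-(∑ m ∈ Icc 1 u,
        (PowerSeries.C (m : ℚ) + PowerSeries.C (-(q : ℚ)) * PowerSeries.X)⁻¹ +
      ∑ m ∈ Icc 1 (L - u), (PowerSeries.C (m : ℚ) + PowerSeries.C (q : ℚ) * PowerSeries.X)⁻¹) +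
      PowerSeries.C (2 * ξ * (q : ℚ) ^ 4) * PowerSeries.X ^ 4) := by
  rw [PowerSeries.coeff_rescale, map_add, map_neg, map_add, map_sum, map_sum,
    PowerSeries.coeff_C_mul, PowerSeries.coeff_X_pow]
  have e1 : ∑ m ∈ Icc 1 u, PowerSeries.coeff n
      (PowerSeries.C (m : ℚ) + PowerSeries.C (-(q : ℚ)) * PowerSeries.X)⁻¹ =
      (q : ℚ) ^ n * Hs (n + 1) u := by
    rw [Hs, Finset.mul_sum]
    refine Finset.sum_congr rfl fun m hm => ?_
    have : (m : ℚ) ≠ 0 := by
      have := (Finset.mem_Icc.mp hm).1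
      exact_mod_cast (by omega : m ≠ 0)
    rw [coeff_lin_inv this, neg_neg, inv_pow, one_div]
  have e2 : ∑ m ∈ Icc 1 (L - u), PowerSeries.coeff n
      (PowerSeries.C (m : ℚ) + PowerSeries.C (q : ℚ) * PowerSeries.X)⁻¹ =
      (q : ℚ) ^ n * ((-1) ^ n * Hs (n + 1) (L - u)) := by
    rw [Hs, Finset.mul_sum, Finset.mul_sum]
    refine Finset.sum_congr rfl fun m hm => ?_
    have : (m : ℚ) ≠ 0 := by
      have := (Finset.mem_Icc.mp hm).1
      exact_mod_cast (by omega : m ≠ 0)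
    rw [coeff_lin_inv this, inv_pow, one_div, neg_eq_neg_one_mul, mul_pow]
    ring
  rw [e1, e2, kerP, PowerSeries.coeff_mk, if_pos hn]
  by_cases h4 : n = 4
  · subst h4; simp; ring
  · rw [if_neg h4, if_neg h4]; ring

/-- the local kernel -/
noncomputable def GG2 (q r r' : ℕ) (i : Fin 2) : PowerSeries ℚ :=
  ∑ m ∈ Icc 1 r, (PowerSeries.C (m : ℚ) + PowerSeries.C (-1 : ℚ) * uz q i)⁻¹ +
  ∑ m ∈ Icc 1 r', (PowerSeries.C ((q + m : ℕ) : ℚ) + PowerSeries.C (1 : ℚ) * uz q i)⁻¹ -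
  PowerSeries.C (q : ℚ)⁻¹ * sg2 (i : ℕ) +
  PowerSeries.C (1 - 2 * ((i : ℕ) : ℚ)) *
    ∑ m ∈ Icc 1 (q - 1), (PowerSeries.C (m : ℚ) + PowerSeries.C (1 : ℚ) * uz q i)⁻¹

theorem ker_eq {r' : ℕ} (hL : L = r + q + r') (i : Fin 2) (n : ℕ) (hn : n < 6) :
    PowerSeries.coeff n (PowerSeries.rescale (q : ℚ) (kerP L ξ (r + q * i))) =
    PowerSeries.coeff n (-GG2 q r r' i + PowerSeries.C (2 * ξ * (q : ℚ) ^ 4) * PowerSeries.X ^ 4) := by
  rw [coeff_ker _ _ hn]
  have hqpos : 0 < q := hq.out.pos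
  have hq0 : (q : ℚ) ≠ 0 := by exact_mod_cast hq.out.ne_zero
  congr 1
  congr 2
  have hq1 : q - 1 + 1 = q := by omega
  have split : ∀ (b : ℕ) (f : ℕ → PowerSeries ℚ), ∑ m ∈ Icc 1 (q + b), f m =
      ∑ m ∈ Icc 1 (q - 1), f m + f q + ∑ m ∈ Icc 1 b, f (q + m) := by
    intro b f
    rw [sum_Icc_split]
    congr 1
    conv_lhs => rw [← hq1]
    rw [Finset.sum_Icc_succ_top (by omega), hq1]
  fin_cases i
  · -- i = 0
    have hu : uz q 0 = PowerSeries.C (q : ℚ) * PowerSeries.X := by simp [uz, zz]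
    have e1 : r + q * ((0 : Fin 2) : ℕ) = r := by simp
    have e2 : L - r = q + r' := by omega
    have eσ : (PowerSeries.C (q : ℚ) + PowerSeries.C (q : ℚ) * PowerSeries.X)⁻¹ =
        -(PowerSeries.C (q : ℚ)⁻¹ * sg2 0) := by
      symm
      rw [PowerSeries.eq_inv_iff_mul_eq_one (by simpa using hq0)]
      have h := sg2_mul (0 : Fin 2)
      have hqi : (PowerSeries.C (q : ℚ)⁻¹ : PowerSeries ℚ) * PowerSeries.C (q : ℚ) = 1 := by
        rw [← map_mul, inv_mul_cancel₀ hq0, map_one]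
      simp only [Fin.val_zero, Nat.cast_zero, mul_zero, sub_zero, map_one, one_mul] at h
      linear_combination (-(1 + PowerSeries.X) * sg2 0) * hqi - h
    simp only [mul_zero, add_zero, GG2, Nat.cast_zero, sub_zero, map_one, one_mul]
    rw [e2, split, eσ, hu]
    have e3 : ∀ m : ℕ, (PowerSeries.C (m : ℚ) + PowerSeries.C (-(q : ℚ)) * PowerSeries.X) =
        PowerSeries.C (m : ℚ) + PowerSeries.C (-1 : ℚ) * (PowerSeries.C (q : ℚ) * PowerSeries.X) := by
      intro m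
      rw [← mul_assoc, ← map_mul]; norm_num
    simp only [e3]
    ring
  · -- i = 1
    have hu : PowerSeries.C (q : ℚ) * PowerSeries.X = uz q 1 + PowerSeries.C (q : ℚ) := by
      simp [uz, zz]; ring
    have e1 : r + q * ((1 : Fin 2) : ℕ) = q + r := by simp; ring
    have e2 : L - (q + r) = r' := by omega
    have eσ : (PowerSeries.C (q : ℚ) + PowerSeries.C (-(q : ℚ)) * PowerSeries.X)⁻¹ =
        -(PowerSeries.C (q : ℚ)⁻¹ * sg2 1) := by
      symm
      rw [PowerSeries.eq_inv_iff_mul_eq_one (by simpa using hq0)]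
      have h := sg2_mul (1 : Fin 2)
      have hqi : (PowerSeries.C (q : ℚ)⁻¹ : PowerSeries ℚ) * PowerSeries.C (q : ℚ) = 1 := by
        rw [← map_mul, inv_mul_cancel₀ hq0, map_one]
      have e : (PowerSeries.C (1 - 2 : ℚ) : PowerSeries ℚ) = -1 := by
        rw [← map_one (PowerSeries.C (R := ℚ)), ← map_neg]; norm_num
      simp only [Fin.val_one, Nat.cast_one, mul_one] at h
      rw [e] at h
      rw [map_neg]
      linear_combination (-(1 - PowerSeries.X) * sg2 1) * hqi - h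
    have hlin : ∀ m : ℕ, PowerSeries.C (m : ℚ) + PowerSeries.C (-(q : ℚ)) * PowerSeries.X =
        PowerSeries.C ((m : ℚ) - q) - uz q 1 := by
      intro m
      rw [map_neg, neg_mul, hu, map_sub]; ring
    simp only [mul_one, GG2, Nat.cast_one]
    rw [show r + q = q + r by ring, e2, split, eσ]
    have e3 : ∑ m ∈ Icc 1 (q - 1),
        (PowerSeries.C (m : ℚ) + PowerSeries.C (-(q : ℚ)) * PowerSeries.X)⁻¹ =
        -∑ m ∈ Icc 1 (q - 1), (PowerSeries.C (m : ℚ) + PowerSeries.C (1 : ℚ) * uz q 1)⁻¹ := by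
      rw [← Finset.sum_neg_distrib]
      refine Finset.sum_bij' (fun m _ => q - m) (fun m _ => q - m) ?_ ?_ ?_ ?_ ?_
      · intro m hm; rw [Finset.mem_Icc] at hm ⊢; omega
      · intro m hm; rw [Finset.mem_Icc] at hm ⊢; omega
      · intro m hm; rw [Finset.mem_Icc] at hm; omega
      · intro m hm; rw [Finset.mem_Icc] at hm; omega
      · intro m hm
        rw [Finset.mem_Icc] at hm
        have hm0 : (m : ℚ) ≠ 0 := by exact_mod_cast (by omega : m ≠ 0)
        have hcast : (((q - m : ℕ) : ℕ) : ℚ) = (q : ℚ) - m := by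
          rw [Nat.cast_sub (by omega)]
        rw [hlin, hcast]
        symm
        rw [PowerSeries.eq_inv_iff_mul_eq_one (by simp [uz, zz]; omega)]
        have hcc : PowerSeries.constantCoeff
            (PowerSeries.C ((q : ℚ) - m) + PowerSeries.C (1 : ℚ) * uz q 1) ≠ 0 := by
          simp only [uz, zz, map_add, map_mul, map_sub, PowerSeries.constantCoeff_C,
            PowerSeries.constantCoeff_X]
          intro h
          apply hm0
          push_cast at h
          linarith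
        have h := PowerSeries.inv_mul_cancel _ hcc
        rw [map_sub, map_one] at h ⊢
        rw [map_sub]
        linear_combination h
    have e4 : ∑ m ∈ Icc 1 r,
        (PowerSeries.C ((q + m : ℕ) : ℚ) + PowerSeries.C (-(q : ℚ)) * PowerSeries.X)⁻¹ =
        ∑ m ∈ Icc 1 r, (PowerSeries.C (m : ℚ) + PowerSeries.C (-1 : ℚ) * uz q 1)⁻¹ := by
      refine Finset.sum_congr rfl fun m _ => ?_
      rw [hlin]
      congr 1
      push_cast
      rw [show ((q : ℚ) + m - q) = m by ring, map_neg, map_one]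
      ring
    have e5 : ∑ m ∈ Icc 1 r', (PowerSeries.C (m : ℚ) + PowerSeries.C (q : ℚ) * PowerSeries.X)⁻¹ =
        ∑ m ∈ Icc 1 r', (PowerSeries.C ((q + m : ℕ) : ℚ) + PowerSeries.C (1 : ℚ) * uz q 1)⁻¹ := by
      refine Finset.sum_congr rfl fun m _ => ?_
      rw [hu]
      congr 1
      push_cast
      rw [map_add, map_one]
      ring
    have e6 : (PowerSeries.C (1 - 2 : ℚ) : PowerSeries ℚ) = -1 := by
      rw [← map_one (PowerSeries.C (R := ℚ)), ← map_neg]; norm_num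
    rw [e3, e4, e5, e6]
    ring

omit hq in
theorem aeval_C_mul' (x : ℚ) (P : ℚ[X]) (i : ℕ) :
    aeval (uz q i) (C x * P) = PowerSeries.C x * aeval (uz q i) P := by
  rw [map_mul, aeval_C]; rfl

/-- the function `E'` -/
noncomputable def Eh (q : ℕ) (i : Fin 2) : PowerSeries ℚ :=
  PowerSeries.C (1 / 2 : ℚ) * ∑ m ∈ Icc 1 (q - 1),
    (PowerSeries.C (m : ℚ) + PowerSeries.C (1 : ℚ) * uz q i)⁻¹ *
      (PowerSeries.C ((q - m : ℕ) : ℚ) + PowerSeries.C (1 : ℚ) * uz q i)⁻¹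

theorem lin_cc_ne {m : ℕ} (h1 : 1 ≤ m) (h2 : m ≤ q - 1) (i : Fin 2) :
    PowerSeries.constantCoeff (PowerSeries.C (m : ℚ) + PowerSeries.C (1 : ℚ) * uz q i) ≠ 0 := by
  have hqpos : 0 < q := hq.out.pos
  simp only [uz, zz, map_add, map_mul, map_sub, PowerSeries.constantCoeff_C,
    PowerSeries.constantCoeff_X]
  fin_cases i
  · simp; omega
  · intro h
    have : (m : ℚ) = q := by push_cast at h; linarith
    have : m = q := by exact_mod_cast this
    omega

theorem E_eq (i : Fin 2) :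
    ∑ m ∈ Icc 1 (q - 1), (PowerSeries.C (m : ℚ) + PowerSeries.C (1 : ℚ) * uz q i)⁻¹ =
      (PowerSeries.C (q : ℚ) + 2 * uz q i) * Eh q i := by
  have hqpos : 0 < q := hq.out.pos
  set f : ℕ → PowerSeries ℚ := fun m =>
    (PowerSeries.C (m : ℚ) + PowerSeries.C (1 : ℚ) * uz q i)⁻¹ with hf
  have hrefl : ∑ m ∈ Icc 1 (q - 1), f m = ∑ m ∈ Icc 1 (q - 1), f (q - m) := by
    refine Finset.sum_bij' (fun m _ => q - m) (fun m _ => q - m) ?_ ?_ ?_ ?_ ?_
    · intro m hm; rw [Finset.mem_Icc] at hm ⊢; omega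
    · intro m hm; rw [Finset.mem_Icc] at hm ⊢; omega
    · intro m hm; rw [Finset.mem_Icc] at hm; omega
    · intro m hm; rw [Finset.mem_Icc] at hm; omega
    · intro m hm
      rw [Finset.mem_Icc] at hm
      congr 1; omega
  have hpair : ∀ m ∈ Icc 1 (q - 1), f m + f (q - m) =
      (PowerSeries.C (q : ℚ) + 2 * uz q i) * (f m * f (q - m)) := by
    intro m hm
    rw [Finset.mem_Icc] at hm
    have h1 := PowerSeries.mul_inv_cancel _ (lin_cc_ne (q := q) hm.1 hm.2 i)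
    have h2 := PowerSeries.mul_inv_cancel _ (lin_cc_ne (q := q) (m := q - m) (by omega) (by omega) i)
    have hcast : (((q - m : ℕ) : ℕ) : ℚ) = (q : ℚ) - m := by
      rw [Nat.cast_sub (by omega)]
    simp only [hf]
    rw [hcast, map_sub, map_one] at h2
    rw [map_one] at h1
    rw [hcast, map_sub, map_one]
    set a := (PowerSeries.C (m : ℚ) + 1 * uz q i)⁻¹
    set b := (PowerSeries.C (q : ℚ) - PowerSeries.C (m : ℚ) + 1 * uz q i)⁻¹
    linear_combination (-b) * h1 - a * h2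
  have h2 : (PowerSeries.C (1 / 2 : ℚ) : PowerSeries ℚ) * 2 = 1 := by
    have : (2 : PowerSeries ℚ) = PowerSeries.C 2 := by
      rw [map_ofNat]
    rw [this, ← map_mul]; norm_num
  have h3 : 2 * ∑ m ∈ Icc 1 (q - 1), f m =
      (PowerSeries.C (q : ℚ) + 2 * uz q i) * ∑ m ∈ Icc 1 (q - 1), f m * f (q - m) := by
    rw [two_mul]
    conv_lhs => rw [hrefl]
    conv_lhs => rw [← hrefl, hrefl]
    rw [Finset.mul_sum, ← Finset.sum_congr rfl hpair, Finset.sum_add_distrib, ← hrefl]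
  have h4 : Eh q i = PowerSeries.C (1 / 2 : ℚ) * ∑ m ∈ Icc 1 (q - 1), f m * f (q - m) := rfl
  rw [h4]
  linear_combination (-∑ m ∈ Icc 1 (q - 1), f m) * h2 + PowerSeries.C (1 / 2 : ℚ) * h3

theorem R2.lin_inv {m : ℕ} (h : ¬ q ∣ m) :
    R2 q (fun i => (PowerSeries.C (m : ℚ) + PowerSeries.C (1 : ℚ) * uz q i)⁻¹) :=
  R2.inv (by
    intro h0
    have : m = 0 := by exact_mod_cast h0
    exact h (this ▸ dvd_zero q)) (VG.nat m) (VG_nat_inv h) VG.one

theorem R2.lin_inv' {m : ℕ} (h : ¬ q ∣ m) :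
    R2 q (fun i => (PowerSeries.C (m : ℚ) + PowerSeries.C (-1 : ℚ) * uz q i)⁻¹) :=
  R2.inv (by
    intro h0
    have : m = 0 := by exact_mod_cast h0
    exact h (this ▸ dvd_zero q)) (VG.nat m) (VG_nat_inv h) VG.one.neg

theorem R2.Eh (h11 : 11 ≤ q) : R2 q (Z5.Eh q) := by
  have h2 : VG q 0 (1 / 2 : ℚ) := by
    have : ¬ q ∣ 2 := fun h => by have := Nat.le_of_dvd (by norm_num) h; omega
    have := VG_nat_inv (q := q) this
    simpa using this
  unfold Z5.Eh
  refine R2.mul (R2.const h2) (R2.sum _ _ fun m hm => ?_)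
  rw [Finset.mem_Icc] at hm
  refine R2.mul (R2.lin_inv ?_) (R2.lin_inv ?_)
  · exact fun h => by have := Nat.le_of_dvd (by omega) h; omega
  · exact fun h => by have := Nat.le_of_dvd (by omega) h; omega

/-- `χ (q + 2 u) = q - 2 q⁻¹ U σ` -/
theorem chi_lin (i : Fin 2) : PowerSeries.C (1 - 2 * ((i : ℕ) : ℚ)) *
    (PowerSeries.C (q : ℚ) + 2 * uz q i) =
    PowerSeries.C (q : ℚ) + aeval (uz q i) (C (-2 * (q : ℚ)⁻¹) * Up q) * sg2 (i : ℕ) := by
  have hq0 : (q : ℚ) ≠ 0 := by exact_mod_cast hq.out.ne_zero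
  have h := sg2_mul i
  have hqi : (PowerSeries.C (q : ℚ)⁻¹ : PowerSeries ℚ) * PowerSeries.C (q : ℚ) = 1 := by
    rw [← map_mul, inv_mul_cancel₀ hq0, map_one]
  have e2 : aeval (uz q i) (C (-2 * (q : ℚ)⁻¹) * Up q) =
      -2 * PowerSeries.C (q : ℚ)⁻¹ * (uz q i * (uz q i + PowerSeries.C (q : ℚ))) := by
    rw [map_mul, aeval_Up, aeval_C]
    congr 1
    show (PowerSeries.C (-2 * (q : ℚ)⁻¹) : PowerSeries ℚ) = _
    rw [map_mul, map_neg, map_ofNat]
  rw [e2]
  fin_cases i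
  · simp only [uz, zz] at *
    simp only [Nat.cast_zero, map_zero, sub_zero, mul_zero, map_one, one_mul] at *
    linear_combination (2 * PowerSeries.C (q : ℚ)⁻¹ * PowerSeries.C (q : ℚ) ^ 2 * PowerSeries.X) * h
      - (2 * PowerSeries.C (q : ℚ) * PowerSeries.X) * hqi
  · simp only [uz, zz] at *
    simp only [Nat.cast_one, map_one, mul_one] at *
    have e : (PowerSeries.C (1 - 2 : ℚ) : PowerSeries ℚ) = -1 := by
      rw [← map_one (PowerSeries.C (R := ℚ)), ← map_neg]; norm_num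
    rw [e] at h ⊢
    linear_combination (-2 * PowerSeries.C (q : ℚ)⁻¹ * PowerSeries.C (q : ℚ) ^ 2 * PowerSeries.X) * h
      + (2 * PowerSeries.C (q : ℚ) * PowerSeries.X) * hqi

/-- `2 ξ ε ^ 4` -/
theorem adm_eps4 (hξ : VG q 0 ξ) : Adm2 q 0 (fun _ =>
    PowerSeries.C (2 * ξ * (q : ℚ) ^ 4) * PowerSeries.X ^ 4) := by
  have h2ξ : VG q 0 (2 * ξ) := by
    have := (VG.nat (q := q) 2).mul hξ
    simpa using this
  have hq2 : VG q 0 ((q : ℚ) ^ 2) := (VG.nat (q := q) q).pow_zero 2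
  have hU := Up_PG (q := q)
  have hU2 : PG q 0 (Up q ^ 2) := by
    rw [sq]; exact (PG.mul hU hU).mono (by norm_num)
  have hqU : PG q 0 (C ((q : ℚ) ^ 2) * Up q) := (PG.mul (PG.C hq2) hU).mono (by norm_num)
  have hA : PG q 0 (C (2 * ξ) * (Up q ^ 2 + C ((q : ℚ) ^ 2) * Up q)) :=
    (PG.mul (PG.C h2ξ) (PG.add hU2 hqU)).mono (by norm_num)
  have h2 : PG q 0 (C 2 : ℚ[X]) := PG.C (by simpa using VG.nat (q := q) 2)
  have hB : PG q (0 - 1) (C (2 * ξ) * (C 2 * Up q ^ 2 + C ((q : ℚ) ^ 2) * Up q)) :=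
    (PG.mul (PG.C h2ξ) (PG.add ((PG.mul h2 hU2).mono (by norm_num)) hqU)).mono (by norm_num)
  have := Adm2.add (Adm2.of_poly hA) (Adm2.of_sg hB)
  convert this using 2 with i
  have h1 := eps_sq (q := q) i
  have h3 := U_sg_sq (q := q) i
  have eA : aeval (uz q i) (C (2 * ξ) * (Up q ^ 2 + C ((q : ℚ) ^ 2) * Up q)) =
      PowerSeries.C (2 * ξ) * (aeval (uz q i) (Up q) ^ 2 +
        PowerSeries.C (q : ℚ) ^ 2 * aeval (uz q i) (Up q)) := by
    rw [aeval_C_mul', map_add, aeval_C_mul', map_pow, map_pow]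
  have eB : aeval (uz q i) (C (2 * ξ) * (C 2 * Up q ^ 2 + C ((q : ℚ) ^ 2) * Up q)) =
      PowerSeries.C (2 * ξ) * (2 * aeval (uz q i) (Up q) ^ 2 +
        PowerSeries.C (q : ℚ) ^ 2 * aeval (uz q i) (Up q)) := by
    rw [aeval_C_mul', map_add, aeval_C_mul', aeval_C_mul', map_pow, map_pow, map_ofNat]
  rw [eA, eB]
  have e4 : (PowerSeries.C (2 * ξ * (q : ℚ) ^ 4) : PowerSeries ℚ) * PowerSeries.X ^ 4 =
      PowerSeries.C (2 * ξ) * ((PowerSeries.C (q : ℚ) * PowerSeries.X) ^ 2) ^ 2 := by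
    rw [map_mul, map_pow]; ring
  rw [e4, h1]
  linear_combination (PowerSeries.C (2 * ξ) * aeval (uz q i) (Up q)) * h3

/-- the scaled kernel lies in the lattice -/
theorem adm_ker (h11 : 11 ≤ q) (hc : Cls q L r 2) (hξ : VG q 0 ξ) :
    Adm2 q 0 (fun i => PowerSeries.rescale (q : ℚ) (kerP L ξ (r + q * i))) := by
  have hLL := hc.hL
  have hUU := hc.hU
  have hrr := hc.hr
  obtain ⟨r', hr'⟩ : ∃ r', L = r + q + r' := ⟨L - (r + q), by omega⟩
  have hr'q : r' < q := by omega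
  have h1 : Adm2 q 0 (fun i => ∑ m ∈ Icc 1 r,
      (PowerSeries.C (m : ℚ) + PowerSeries.C (-1 : ℚ) * uz q i)⁻¹) := by
    refine R2.adm (R2.sum _ _ fun m hm => R2.lin_inv' ?_)
    rw [Finset.mem_Icc] at hm
    exact fun h => by have := Nat.le_of_dvd (by omega) h; omega
  have h2 : Adm2 q 0 (fun i => ∑ m ∈ Icc 1 r',
      (PowerSeries.C ((q + m : ℕ) : ℚ) + PowerSeries.C (1 : ℚ) * uz q i)⁻¹) := by
    refine R2.adm (R2.sum _ _ fun m hm => R2.lin_inv ?_)
    rw [Finset.mem_Icc] at hm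
    exact fun h => by
      have h' := (Nat.dvd_add_right (dvd_refl q)).mp h
      have := Nat.le_of_dvd (by omega) h'; omega
  have hqi : VG q (0 - 1) ((q : ℚ)⁻¹) := by
    have := VG.zpow_self (q := q) (-1)
    simpa using this
  have h3 : Adm2 q 0 (fun i => PowerSeries.C (q : ℚ)⁻¹ * sg2 (i : ℕ)) := by
    have := Adm2.of_sg (q := q) (J := 0) (PG.C hqi)
    convert this using 2 with i
    congr 1
    rw [aeval_C]; rfl
  have h4 : Adm2 q 0 (fun i => PowerSeries.C (1 - 2 * ((i : ℕ) : ℚ)) *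
      ∑ m ∈ Icc 1 (q - 1), (PowerSeries.C (m : ℚ) + PowerSeries.C (1 : ℚ) * uz q i)⁻¹) := by
    have hB : PG q (0 - 1) (C (-2 * (q : ℚ)⁻¹) * Up q) := by
      have h5 : VG q (0 - 1) (-2 * (q : ℚ)⁻¹) := by
        have := (VG.int (q := q) (-2)).mul hqi
        simpa using this
      exact (PG.mul (PG.C h5) Up_PG).mono (by norm_num)
    have h6 := Adm2.add (R2.adm (R2.const (VG.nat (q := q) q))) (Adm2.of_sg hB)
    have h7 := Adm2.mul (R2.Eh h11) h6
    convert h7 using 2 with i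
    rw [E_eq, ← mul_assoc, chi_lin]
    ring
  have hG : Adm2 q 0 (GG2 q r r') := by
    have := Adm2.add (Adm2.sub (Adm2.add h1 h2) h3) h4
    exact this
  have h8 := Adm2.add (Adm2.neg hG) (adm_eps4 (q := q) hξ)
  have h9 := Adm2.add h8 (Adm2.of_SG (q := q) (J := 0) (F := fun i =>
    PowerSeries.rescale (q : ℚ) (kerP L ξ (r + q * i)) -
      (-GG2 q r r' i + PowerSeries.C (2 * ξ * (q : ℚ) ^ 4) * PowerSeries.X ^ 4))
    (fun i => SG_of_coeff fun n hn => ker_eq hr' i n hn))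
  convert h9 using 2 with i
  ring

theorem k2_reg (h11 : 11 ≤ q) (hc : Cls q L r 2) (hξ : VG q 0 ξ) (c : Col)
    (h1 : PG q 0 c.1) (h2 : PG q 0 c.2.1) (h3 : PG q 0 c.2.2) :
    Adm2 q 0 (fun i => sc q L ξ r i c) := by
  obtain ⟨A, hA, eA⟩ := hser_zz (q := q) (L := L) (r := r) c.1 h1
  obtain ⟨B, hB, eB⟩ := hser_zz (q := q) (L := L) (r := r) c.2.1 h2
  obtain ⟨C', hC, eC⟩ := hser_zz (q := q) (L := L) (r := r) c.2.2 h3
  have a1 : Adm2 q 0 (fun i => aeval (uz q i) A) := Adm2.of_poly hA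
  have a2 := Adm2.mul (R2.of_poly hB) (adm_ker h11 hc hξ)
  have a3 : Adm2 q 0 (fun _ => (PowerSeries.C (q : ℚ) * PowerSeries.X) ^ 2) := by
    have := Adm2.add (Adm2.of_poly (Up_PG (q := q)))
      (Adm2.of_sg ((Up_PG (q := q)).mono (l := 0 - 1) (by norm_num)))
    convert this using 2 with i
    exact eps_sq i
  have a4 := Adm2.mul (R2.of_poly hC) a3
  have := Adm2.add (Adm2.add a1 a2) a4
  convert this using 2 with i
  simp only [sc, tvec, map_add, map_mul, map_pow, eA, eB, eC, PowerSeries.rescale_X, uz]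
  ring

end Pool.Agent.Z5
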