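import Pool.Agent.Z5.PDefs
import Pool.Agent.Z5.PBounds

/-!
# Small primes: the factorial basis

The columns `X ^ i` are replaced by `∏_{s < i} (X - (2 s + 1) ^ 2)`, whose values are
`4 ^ i (2 i)!` times binomial polynomials.
-/

open Finset

namespace Pool.Agent.Z5.SmallP

open Pool.Agent.Z5

variable {q : ℕ} [hq : Fact q.Prime] {l : ℕ}

/-- coefficient `n` has valuation at least `- n l` -/
def WS (q l : ℕ) (f : PowerSeries ℚ) : Prop :=
  ∀ n : ℕ, VG q (-((n : ℤ) * l)) (PowerSeries.coeff n f)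

theorem WS.add {f g : PowerSeries ℚ} (hf : WS q l f) (hg : WS q l g) : WS q l (f + g) := by
  intro n
  rw [map_add]
  exact (hf n).add (hg n)

theorem WS.neg {f : PowerSeries ℚ} (hf : WS q l f) : WS q l (-f) := by
  intro n
  rw [map_neg]
  exact (hf n).neg

theorem WS.sub {f g : PowerSeries ℚ} (hf : WS q l f) (hg : WS q l g) : WS q l (f - g) := by
  rw [sub_eq_add_neg]; exact hf.add hg.neg

theorem WS.mul {f g : PowerSeries ℚ} (hf : WS q l f) (hg : WS q l g) : WS q l (f * g) := by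
  intro n
  rw [PowerSeries.coeff_mul]
  refine VG.sum _ _ fun x hx => ?_
  have h1 := (hf x.1).mul (hg x.2)
  rw [HasAntidiagonal.mem_antidiagonal] at hx
  refine h1.mono ?_
  rw [← hx]
  push_cast
  linarith [add_mul (x.1 : ℤ) x.2 l]

omit hq in
theorem WS.C {x : ℚ} (hx : VG q 0 x) : WS q l (PowerSeries.C x) := by
  intro n
  rw [PowerSeries.coeff_C]
  split_ifs with h
  · subst h; simpa using hx
  · exact VG.zero _

theorem WS.one : WS q l (1 : PowerSeries ℚ) := by
  rw [← map_one (PowerSeries.C (R := ℚ))]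
  exact WS.C VG.one

theorem WS.prod {ι : Type*} (s : Finset ι) (f : ι → PowerSeries ℚ) (h : ∀ i ∈ s, WS q l (f i)) :
    WS q l (∏ i ∈ s, f i) := by
  classical
  induction s using Finset.induction_on with
  | empty => simpa using WS.one
  | insert a s ha ih =>
    rw [prod_insert ha]
    exact (h a (mem_insert_self _ _)).mul (ih fun i hi => h i (mem_insert_of_mem hi))

/-- inverses of integers with small valuation -/
theorem VG_inv_nat {n : ℕ} (hn : 0 < n) (h : n < q ^ (l + 1)) : VG q (-(l : ℤ)) ((n : ℚ))⁻¹ := by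
  refine Or.inr ?_
  rw [padicValRat.inv, padicValRat.of_nat]
  have h1 : padicValNat q n ≤ l := by
    have h2 := padicValNat_le_nat_log (p := q) n
    have h3 : Nat.log q n < l + 1 := Nat.log_lt_of_lt_pow hn.ne' h
    omega
  omega

theorem WS.lin {x y : ℚ} (hx : VG q 0 x) (hy : VG q (-(l : ℤ)) y) :
    WS q l (PowerSeries.C x + PowerSeries.C y * PowerSeries.X) := by
  refine (WS.C hx).add ?_
  intro n
  rw [PowerSeries.coeff_C_mul, PowerSeries.coeff_X]
  split_ifs with h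
  · subst h; simpa using hy
  · rw [mul_zero]; exact VG.zero _

/-- `binom (X + a, m)` -/
noncomputable def bs (m : ℕ) (a : ℤ) : PowerSeries ℚ :=
  PowerSeries.C ((m.factorial : ℚ))⁻¹ *
    ∏ j ∈ range m, (PowerSeries.C ((a : ℚ) - j) + PowerSeries.X)

theorem bs_zero (a : ℤ) : bs 0 a = 1 := by simp [bs]

theorem bs_succ (m : ℕ) (a : ℤ) : bs (m + 1) (a + 1) = bs (m + 1) a + bs m a := by
  have h1 : ∏ j ∈ range (m + 1), (PowerSeries.C (((a + 1 : ℤ) : ℚ) - j) + PowerSeries.X)
      = (PowerSeries.C ((a : ℚ) + 1) + PowerSeries.X) *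
        ∏ j ∈ range m, (PowerSeries.C ((a : ℚ) - j) + PowerSeries.X) := by
    rw [Finset.prod_range_succ']
    rw [mul_comm]
    congr 1
    · simp
    · refine prod_congr rfl fun j _ => ?_
      congr 2
      push_cast
      ring
  have h2 : ((m + 1 : ℕ).factorial : ℚ)⁻¹ * ((m : ℚ) + 1) = ((m.factorial : ℚ))⁻¹ := by
    rw [Nat.factorial_succ]
    have h3 : (m.factorial : ℚ) ≠ 0 := by exact_mod_cast Nat.factorial_ne_zero m
    push_cast
    field_simp
  rw [bs, bs, bs, h1, prod_range_succ, ← h2]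
  set P := ∏ j ∈ range m, (PowerSeries.C ((a : ℚ) - j) + (PowerSeries.X : PowerSeries ℚ))
  simp only [map_mul, map_add, map_sub, map_one]
  ring

theorem bs_base (m : ℕ) : bs (m + 1) 0 = (PowerSeries.C (((m + 1 : ℕ) : ℚ))⁻¹ * PowerSeries.X) *
    ∏ j ∈ range m, (PowerSeries.C (-1) + PowerSeries.C (((j + 1 : ℕ) : ℚ))⁻¹ * PowerSeries.X) := by
  induction m with
  | zero => simp [bs]
  | succ m ih =>
    have h1 : bs (m + 2) 0 = bs (m + 1) 0 * (PowerSeries.C (((m + 2 : ℕ) : ℚ))⁻¹ *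
        (PowerSeries.C (-((m + 1 : ℕ) : ℚ)) + PowerSeries.X)) := by
      rw [bs, bs, prod_range_succ, Nat.factorial_succ (m + 1)]
      set P := ∏ j ∈ range (m + 1), (PowerSeries.C (((0 : ℤ) : ℚ) - j) +
        (PowerSeries.X : PowerSeries ℚ))
      have h5 : (((m + 1 + 1) * (m + 1).factorial : ℕ) : ℚ)⁻¹ =
          (((m + 2 : ℕ) : ℚ))⁻¹ * (((m + 1).factorial : ℕ) : ℚ)⁻¹ := by
        push_cast
        rw [mul_inv]
        ring
      have h6 : ((0 : ℤ) : ℚ) - ((m + 1 : ℕ) : ℚ) = -((m + 1 : ℕ) : ℚ) := by simp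
      rw [h5, h6, map_mul]
      ring
    rw [h1, ih, prod_range_succ]
    have h2 : PowerSeries.C (((m + 1 : ℕ) : ℚ))⁻¹ * (PowerSeries.C (-((m + 1 : ℕ) : ℚ)) +
        PowerSeries.X) = PowerSeries.C (-1) + PowerSeries.C (((m + 1 : ℕ) : ℚ))⁻¹ *
          (PowerSeries.X : PowerSeries ℚ) := by
      rw [mul_add, ← map_mul]
      congr 2
      have : ((m + 1 : ℕ) : ℚ) ≠ 0 := by positivity
      field_simp
    rw [← h2]
    ring

theorem WS_bs_zero {m : ℕ} (h : m < q ^ (l + 1)) : WS q l (bs m 0) := by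
  rcases m with _ | m
  · rw [bs_zero]; exact WS.one
  · rw [bs_base]
    refine WS.mul ?_ (WS.prod _ _ fun j hj => ?_)
    · have := WS.lin (q := q) (l := l) (x := 0) (VG.zero 0) (VG_inv_nat (Nat.succ_pos m) h)
      simpa using this
    · have hj' := mem_range.1 hj
      refine WS.lin (by simpa using (VG.one (q := q)).neg) (VG_inv_nat (Nat.succ_pos j) (by omega))

theorem WS_bs_nat {m : ℕ} (h : m < q ^ (l + 1)) (a : ℕ) : WS q l (bs m a) := by
  induction a generalizing m with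
  | zero => exact_mod_cast WS_bs_zero h
  | succ a ih =>
    rcases m with _ | m
    · rw [bs_zero]; exact WS.one
    · push_cast
      rw [bs_succ]
      exact (ih h).add (ih (by omega))

theorem WS_bs_neg {m : ℕ} (h : m < q ^ (l + 1)) (a : ℕ) : WS q l (bs m (-(a : ℤ))) := by
  induction m generalizing a with
  | zero => rw [bs_zero]; exact WS.one
  | succ m ihm =>
    induction a with
    | zero => simpa using WS_bs_zero h
    | succ a iha =>
      have h1 := bs_succ m (-((a : ℤ) + 1))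
      have h2 : -((a : ℤ) + 1) + 1 = -(a : ℤ) := by ring
      rw [h2] at h1
      have h3 : bs (m + 1) (-((a : ℤ) + 1)) = bs (m + 1) (-(a : ℤ)) - bs m (-((a : ℤ) + 1)) := by
        rw [h1]; ring
      push_cast
      rw [h3]
      refine iha.sub ?_
      have := ihm (by omega) (a + 1)
      push_cast at this
      exact this

theorem WS_bs {m : ℕ} (h : m < q ^ (l + 1)) (a : ℤ) : WS q l (bs m a) := by
  rcases Int.eq_nat_or_neg a with ⟨n, rfl | rfl⟩
  · exact WS_bs_nat h n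
  · exact WS_bs_neg h n

/-! ### the factorial basis -/

/-- `∏_{s < i} (X - (2 s + 1) ^ 2)` -/
noncomputable def Cb (i : ℕ) : Polynomial ℚ :=
  ∏ s ∈ range i, (Polynomial.X - Polynomial.C ((2 * (s : ℚ) + 1) ^ 2))

theorem Cb_monic (i : ℕ) : (Cb i).Monic :=
  Polynomial.monic_prod_of_monic _ _ fun _ _ => Polynomial.monic_X_sub_C _

theorem Cb_natDegree (i : ℕ) : (Cb i).natDegree = i := by
  rw [Cb, Polynomial.natDegree_prod_of_monic _ _ fun _ _ => Polynomial.monic_X_sub_C _,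
    Finset.sum_congr rfl fun s _ => Polynomial.natDegree_X_sub_C _]
  simp

omit hq in
theorem bprod_succ (c : ℚ) (i : ℕ) :
    ∏ j ∈ range (2 * (i + 1)), (PowerSeries.C (c + (i + 1 : ℕ) - 1 - j) + PowerSeries.X) =
      (PowerSeries.C (c + i) + PowerSeries.X) * (PowerSeries.C (c - 1 - i) + PowerSeries.X) *
      ∏ j ∈ range (2 * i), (PowerSeries.C (c + i - 1 - j) + (PowerSeries.X : PowerSeries ℚ)) := by
  have h1 : 2 * (i + 1) = 2 * i + 1 + 1 := by ring
  rw [h1, Finset.prod_range_succ', Finset.prod_range_succ]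
  have h2 : ∀ j ∈ range (2 * i), (PowerSeries.C (c + (i + 1 : ℕ) - 1 - (j + 1 : ℕ)) +
      PowerSeries.X) = PowerSeries.C (c + i - 1 - j) + (PowerSeries.X : PowerSeries ℚ) := by
    intro j _
    congr 2
    push_cast
    ring
  rw [Finset.prod_congr rfl h2]
  have h3 : c + (i + 1 : ℕ) - 1 - (2 * i + 1 : ℕ) = c - 1 - i := by push_cast; ring
  have h4 : c + (i + 1 : ℕ) - 1 - (0 : ℕ) = c + i := by push_cast; ring
  rw [h3, h4]
  ring

theorem hser_Cb {p u : ℕ} (hu : u < 3 * p) (i : ℕ) :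
    hser (6 * p - 1) u (Cb i) = PowerSeries.C ((4 : ℚ) ^ i * (2 * i).factorial) *
      bs (2 * i) ((3 * p : ℤ) - u + i - 1) := by
  have hL : ((6 * p - 1 : ℕ) : ℚ) = 6 * p - 1 := by
    rw [Nat.cast_sub (by omega)]; push_cast; ring
  set c : ℚ := 3 * p - u with hc
  have hx : xser (6 * p - 1) u = 2 * (PowerSeries.C (c - 1 / 2) + PowerSeries.X) := by
    rw [xser, hL, mul_add]
    congr 1
    rw [← map_ofNat (PowerSeries.C (R := ℚ)) 2, ← map_mul]
    congr 1
    rw [hc]; ring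
  have hfac : ∀ s : ℕ, hser (6 * p - 1) u (Polynomial.X - Polynomial.C ((2 * (s : ℚ) + 1) ^ 2))
      = PowerSeries.C 4 * ((PowerSeries.C (c + s) + PowerSeries.X) *
        (PowerSeries.C (c - 1 - s) + PowerSeries.X)) := by
    intro s
    rw [hser, map_sub, Polynomial.aeval_X, Polynomial.aeval_C, hx]
    have e1 : (algebraMap ℚ (PowerSeries ℚ)) ((2 * (s : ℚ) + 1) ^ 2) =
        PowerSeries.C ((2 * (s : ℚ) + 1) ^ 2) := rfl
    have e2 : (2 : PowerSeries ℚ) = PowerSeries.C 2 := (map_ofNat (PowerSeries.C (R := ℚ)) 2).symm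
    have e3 : PowerSeries.C (4 : ℚ) = 4 := map_ofNat (PowerSeries.C (R := ℚ)) 4
    have e4 : PowerSeries.C (c + s) = PowerSeries.C (c - 1 / 2) + PowerSeries.C ((s : ℚ) + 1 / 2) := by
      rw [← map_add]; congr 1; ring
    have e5 : PowerSeries.C (c - 1 - s) = PowerSeries.C (c - 1 / 2) - PowerSeries.C ((s : ℚ) + 1 / 2) := by
      rw [← map_sub]; congr 1; ring
    have e6 : PowerSeries.C ((2 * (s : ℚ) + 1) ^ 2) = 4 * PowerSeries.C ((s : ℚ) + 1 / 2) ^ 2 := by
      rw [← e3, ← map_pow, ← map_mul]; congr 1; ring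
    rw [e1, e6, e4, e5, e3]
    ring
  have key : ∀ i : ℕ, hser (6 * p - 1) u (Cb i) = PowerSeries.C ((4 : ℚ) ^ i) *
      ∏ j ∈ range (2 * i), (PowerSeries.C (c + i - 1 - j) + (PowerSeries.X : PowerSeries ℚ)) := by
    intro i
    induction i with
    | zero => simp [Cb, hser]
    | succ i ih =>
      have h1 : Cb (i + 1) = Cb i * (Polynomial.X - Polynomial.C ((2 * (i : ℚ) + 1) ^ 2)) := by
        rw [Cb, Cb, prod_range_succ]
      rw [h1, hser_mul, ih, hfac, bprod_succ, pow_succ, map_mul]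
      ring
  rw [key i, bs, ← mul_assoc, ← map_mul]
  have h2 : (4 : ℚ) ^ i * (2 * i).factorial * ((2 * i).factorial : ℚ)⁻¹ = 4 ^ i := by
    have : ((2 * i).factorial : ℚ) ≠ 0 := by exact_mod_cast Nat.factorial_ne_zero _
    field_simp
  rw [h2]
  congr 1
  refine prod_congr rfl fun j _ => ?_
  congr 2
  rw [hc]
  push_cast
  ring

/-! ### the kernel -/

omit hq in
theorem VG_mul_nat {k : ℤ} {x : ℚ} [Fact q.Prime] (hx : VG q k x) (n : ℕ) : VG q k (n * x) := by
  simpa using (VG.nat (q := q) n).mul hx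

theorem VG_Hs {M : ℕ} (hM : M < q ^ (l + 1)) (s : ℕ) : VG q (-((s : ℤ) * l)) (Hs s M) := by
  refine VG.sum _ _ fun m hm => ?_
  rw [Finset.mem_Icc] at hm
  have h1 := (VG_inv_nat (q := q) (l := l) (n := m) (by omega) (by omega)).pow s
  rw [one_div, ← inv_pow]
  exact h1.mono (by push_cast; linarith)

theorem VG_ker {L u : ℕ} {ξ : ℚ} {V : ℕ} (hξ : VG q (-(V : ℤ)) ξ) (hu : u ≤ L)
    (hL : L < q ^ (l + 1)) (k : ℕ) :
    VG q (-(((k : ℤ) + 1) * l) - V) (PowerSeries.coeff k (kerP L ξ u)) := by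
  rw [kerP, PowerSeries.coeff_mk]
  split_ifs with h1 h2
  · refine VG.add (VG.neg ?_) ?_
    · have e1 := (VG_Hs (q := q) (l := l) (M := u) (by omega) (k + 1))
      have e2 := (VG_Hs (q := q) (l := l) (M := L - u) (by omega) (k + 1))
      have e3 : VG q 0 ((-1 : ℚ) ^ k) := by
        have := (VG.one (q := q)).neg.pow_zero k
        simpa using this
      refine (e1.mono ?_).add ((e3.mul e2).mono ?_) <;> push_cast <;> linarith
    · have e1 := VG_mul_nat hξ 2
      push_cast at e1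
      refine e1.mono ?_
      have : 0 ≤ ((k : ℤ) + 1) * l := by positivity
      linarith
  · refine VG.add (VG.neg ?_) (VG.zero _)
    have e1 := (VG_Hs (q := q) (l := l) (M := u) (by omega) (k + 1))
    have e2 := (VG_Hs (q := q) (l := l) (M := L - u) (by omega) (k + 1))
    have e3 : VG q 0 ((-1 : ℚ) ^ k) := by
      have := (VG.one (q := q)).neg.pow_zero k
      simpa using this
    refine (e1.mono ?_).add ((e3.mul e2).mono ?_) <;> push_cast <;> linarith
  · exact VG.zero _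

/-! ### the new columns -/

/-- the columns with the factorial basis -/
noncomputable def cbc (a b m : ℕ) : (Fin a ⊕ Fin b) ⊕ Fin m → Col :=
  Sum.elim (Sum.elim (fun i => (0, Cb i, 0)) (fun i => (0, 0, Cb i))) (fun i => (Cb i, 0, 0))

/-- the index of a column in its family -/
def ix (a b m : ℕ) : (Fin a ⊕ Fin b) ⊕ Fin m → ℕ :=
  Sum.elim (Sum.elim (fun i => (i : ℕ)) (fun i => (i : ℕ))) (fun i => (i : ℕ))

/-- coefficient matrix of the factorial basis -/
noncomputable def tm (n : ℕ) : Matrix (Fin n) (Fin n) ℚ := Matrix.of fun k i => (Cb i).coeff k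

omit hq in
theorem det_tm (n : ℕ) : (tm n).det = 1 := by
  rw [Matrix.det_of_isUpperTriangular]
  · refine Finset.prod_eq_one fun i _ => ?_
    rw [tm, Matrix.of_apply]
    have := Cb_monic i
    rw [Polynomial.Monic, Polynomial.leadingCoeff, Cb_natDegree] at this
    exact this
  · intro k i hik
    rw [tm, Matrix.of_apply]
    refine Polynomial.coeff_eq_zero_of_natDegree_lt ?_
    rw [Cb_natDegree]
    exact hik

omit hq in
theorem Cb_eq_sum {n : ℕ} (i : Fin n) :
    Cb i = ∑ k : Fin n, (tm n k i) • (Polynomial.X ^ (k : ℕ) : Polynomial ℚ) := by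
  have h1 : (Cb i).natDegree < n := by rw [Cb_natDegree]; exact i.2
  conv_lhs => rw [Polynomial.as_sum_range' (Cb i) n h1]
  rw [Finset.sum_range]
  refine Finset.sum_congr rfl fun k _ => ?_
  rw [tm, Matrix.of_apply, ← Polynomial.C_mul_X_pow_eq_monomial, Polynomial.smul_eq_C_mul]

/-- change of basis matrix -/
noncomputable def um (a b m : ℕ) : Matrix ((Fin a ⊕ Fin b) ⊕ Fin m) ((Fin a ⊕ Fin b) ⊕ Fin m) ℚ :=
  Matrix.fromBlocks (Matrix.fromBlocks (tm a) 0 0 (tm b)) 0 0 (tm m)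

omit hq in
theorem det_um (a b m : ℕ) : (um a b m).det = 1 := by
  rw [um, Matrix.det_fromBlocks_zero₂₁, Matrix.det_fromBlocks_zero₂₁, det_tm, det_tm, det_tm]
  norm_num

omit hq in
theorem cbc_eq (a b m : ℕ) (j : (Fin a ⊕ Fin b) ⊕ Fin m) :
    cbc a b m j = ∑ k, um a b m k j • stdc a b m k := by
  have hsum : ∀ {n : ℕ} (f : Fin n → Polynomial ℚ), (∑ k, f k, (0 : Polynomial ℚ), (0 : Polynomial ℚ))
      = ∑ k, (f k, (0 : Polynomial ℚ), (0 : Polynomial ℚ)) := by
    intro n f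
    ext <;> simp [Prod.fst_sum, Prod.snd_sum]
  have hsum2 : ∀ {n : ℕ} (f : Fin n → Polynomial ℚ), ((0 : Polynomial ℚ), ∑ k, f k, (0 : Polynomial ℚ))
      = ∑ k, ((0 : Polynomial ℚ), f k, (0 : Polynomial ℚ)) := by
    intro n f
    ext <;> simp [Prod.fst_sum, Prod.snd_sum]
  have hsum3 : ∀ {n : ℕ} (f : Fin n → Polynomial ℚ), ((0 : Polynomial ℚ), (0 : Polynomial ℚ), ∑ k, f k)
      = ∑ k, ((0 : Polynomial ℚ), (0 : Polynomial ℚ), f k) := by
    intro n f
    ext <;> simp [Prod.fst_sum, Prod.snd_sum]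
  rw [Fintype.sum_sum_type, Fintype.sum_sum_type]
  rcases j with (j | j) | j
  · simp only [um, stdc, cbc, Sum.elim_inl, Sum.elim_inr, Matrix.fromBlocks_apply₁₁,
      Matrix.fromBlocks_apply₂₁, Matrix.zero_apply, zero_smul, Finset.sum_const_zero, add_zero]
    rw [Cb_eq_sum j, hsum2]
    refine Finset.sum_congr rfl fun k _ => ?_
    simp [Prod.smul_mk]
  · simp only [um, stdc, cbc, Sum.elim_inl, Sum.elim_inr, Matrix.fromBlocks_apply₁₁,
      Matrix.fromBlocks_apply₂₁, Matrix.fromBlocks_apply₁₂, Matrix.fromBlocks_apply₂₂,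
      Matrix.zero_apply, zero_smul, Finset.sum_const_zero, add_zero, zero_add]
    rw [Cb_eq_sum j, hsum3]
    refine Finset.sum_congr rfl fun k _ => ?_
    simp [Prod.smul_mk]
  · simp only [um, stdc, cbc, Sum.elim_inl, Sum.elim_inr, Matrix.fromBlocks_apply₁₂,
      Matrix.fromBlocks_apply₂₂, Matrix.zero_apply, zero_smul, Finset.sum_const_zero, zero_add]
    rw [Cb_eq_sum j, hsum]
    refine Finset.sum_congr rfl fun k _ => ?_
    simp [Prod.smul_mk]

omit hq in
theorem det_cbc (p : ℕ) (ξ : ℚ)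
    (eq : Fin (3 * p) × Fin 6 ≃ (Fin (5 * p) ⊕ Fin (5 * p)) ⊕ Fin (8 * p)) :
    ((dmat (6 * p - 1) ξ (3 * p) (cbc (5 * p) (5 * p) (8 * p))).submatrix id eq).det
      = DM p ξ eq := by
  have h1 : dmat (6 * p - 1) ξ (3 * p) (cbc (5 * p) (5 * p) (8 * p)) =
      dmat (6 * p - 1) ξ (3 * p) (stdc (5 * p) (5 * p) (8 * p)) * um (5 * p) (5 * p) (8 * p) := by
    rw [← dmat_mul]
    congr 1
    funext j
    exact cbc_eq _ _ _ j
  rw [h1, Matrix.submatrix_mul _ _ id eq eq eq.bijective, Matrix.det_mul,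
    Matrix.det_submatrix_equiv_self, det_um, mul_one, DM]

/-- the entries of the column `j` -/
theorem VG_entry {p u : ℕ} (hu : u < 3 * p) {ξ : ℚ} {V : ℕ} (hξ : VG q (-(V : ℤ)) ξ)
    (hl : 16 * p < q ^ (l + 1)) (j : (Fin (5 * p) ⊕ Fin (5 * p)) ⊕ Fin (8 * p)) {k : ℕ} (hk : k < 6) :
    VG q (padicValRat q ((4 : ℚ) ^ ix _ _ _ j * (2 * ix _ _ _ j).factorial) - (6 * l + V))
      (PowerSeries.coeff k (tvec (6 * p - 1) ξ u (cbc (5 * p) (5 * p) (8 * p) j))) := by
  have hix : ix (5 * p) (5 * p) (8 * p) j < 8 * p := by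
    rcases j with (j | j) | j
    · have := j.2; simp only [ix, Sum.elim_inl]; omega
    · have := j.2; simp only [ix, Sum.elim_inl, Sum.elim_inr]; omega
    · have := j.2; simp only [ix, Sum.elim_inr]; omega
  set i := ix (5 * p) (5 * p) (8 * p) j with hi
  set e : ℤ := padicValRat q ((4 : ℚ) ^ i * (2 * i).factorial) with he
  have hW : WS q l (bs (2 * i) ((3 * p : ℤ) - u + i - 1)) := WS_bs (by omega) _
  have hH : ∀ n : ℕ, VG q (e - n * l) (PowerSeries.coeff n (hser (6 * p - 1) u (Cb i))) := by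
    intro n
    rw [hser_Cb hu, PowerSeries.coeff_C_mul]
    have := (VG.self (q := q) ((4 : ℚ) ^ i * (2 * i).factorial)).mul (hW n)
    exact this.mono (by rw [← he]; linarith)
  have hkl : (k : ℤ) * l ≤ 5 * l := by
    have h1 : (k : ℤ) ≤ 5 := by omega
    exact mul_le_mul_of_nonneg_right h1 (by positivity)
  have hl0 : (0 : ℤ) ≤ l := by positivity
  have hV0 : (0 : ℤ) ≤ V := by positivity
  rcases j with (j | j) | j
  · have h1 : cbc (5 * p) (5 * p) (8 * p) (Sum.inl (Sum.inl j)) = (0, Cb i, 0) := rfl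
    rw [h1, tvec_P, PowerSeries.coeff_mul]
    refine VG.sum _ _ fun x hx => ?_
    rw [HasAntidiagonal.mem_antidiagonal] at hx
    have h2 := (VG_ker hξ (L := 6 * p - 1) (u := u) (l := l) (by omega) (by omega) x.1).mul (hH x.2)
    refine h2.mono ?_
    have h3 : ((x.1 : ℤ) + x.2) * l = k * l := by rw [← hx]; push_cast; ring
    linarith [add_mul (x.1 : ℤ) x.2 l, add_mul (x.1 : ℤ) 1 l]
  · have h1 : cbc (5 * p) (5 * p) (8 * p) (Sum.inl (Sum.inr j)) = (0, 0, Cb i) := rfl
    rw [h1, tvec_Q, PowerSeries.coeff_X_pow_mul']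
    split_ifs with h2
    · refine (hH (k - 2)).mono ?_
      have h3 : ((k - 2 : ℕ) : ℤ) * l ≤ 5 * l := by
        have h1 : ((k - 2 : ℕ) : ℤ) ≤ 5 := by omega
        exact mul_le_mul_of_nonneg_right h1 (by positivity)
      linarith
    · exact VG.zero _
  · have h1 : cbc (5 * p) (5 * p) (8 * p) (Sum.inr j) = (Cb i, 0, 0) := rfl
    rw [h1, tvec_T]
    exact (hH k).mono (by linarith)

/-- valuation of the determinant -/
theorem VG_DM {p : ℕ} {ξ : ℚ} {V : ℕ} (hξ : VG q (-(V : ℤ)) ξ) (hl : 16 * p < q ^ (l + 1))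
    (eq : Fin (3 * p) × Fin 6 ≃ (Fin (5 * p) ⊕ Fin (5 * p)) ⊕ Fin (8 * p)) :
    VG q (∑ j, (padicValRat q ((4 : ℚ) ^ ix (5 * p) (5 * p) (8 * p) j *
      (2 * ix (5 * p) (5 * p) (8 * p) j).factorial) - (6 * l + V))) (DM p ξ eq) := by
  rw [← det_cbc]
  have h1 := VG.det (q := q)
    ((dmat (6 * p - 1) ξ (3 * p) (cbc (5 * p) (5 * p) (8 * p))).submatrix id eq) (fun _ => 0)
    (fun r => padicValRat q ((4 : ℚ) ^ ix (5 * p) (5 * p) (8 * p) (eq r) *
      (2 * ix (5 * p) (5 * p) (8 * p) (eq r)).factorial) - (6 * l + V)) ?_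
  · rw [Equiv.sum_comp eq (fun j => padicValRat q ((4 : ℚ) ^ ix (5 * p) (5 * p) (8 * p) j *
      (2 * ix (5 * p) (5 * p) (8 * p) j).factorial) - (6 * (l : ℤ) + V))] at h1
    simpa using h1
  · intro x y
    rw [zero_add]
    exact VG_entry x.1.2 hξ hl (eq y) x.2.2

theorem padicValNat_SF (n : ℕ) :
    (padicValNat q (SF n) : ℤ) = ∑ i ∈ range n, (padicValNat q (2 * i).factorial : ℤ) := by
  induction n with
  | zero => simp [SF]
  | succ n ih =>
    rw [SF_succ, padicValNat.mul (SF_pos n).ne' (Nat.factorial_ne_zero _), sum_range_succ, ← ih]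
    push_cast
    ring

theorem val_col (i : ℕ) : padicValRat q ((4 : ℚ) ^ i * (2 * i).factorial) =
    i * padicValRat q 4 + padicValNat q (2 * i).factorial := by
  have h1 : ((2 * i).factorial : ℚ) ≠ 0 := by exact_mod_cast Nat.factorial_ne_zero _
  rw [padicValRat.mul (by positivity) h1, padicValRat.pow, padicValRat.of_nat]

theorem val_four : padicValRat q 4 = if q = 2 then 2 else 0 := by
  have h1 : (4 : ℚ) = ((2 : ℕ) : ℚ) ^ 2 := by norm_num
  rw [h1, padicValRat.pow, padicValRat.of_nat]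
  split_ifs with h
  · subst h
    rw [padicValNat_self]
    norm_num
  · have h2 : padicValNat q 2 = 0 := by
      rw [padicValNat.eq_zero_iff]
      right; right
      intro h3
      exact h ((Nat.prime_dvd_prime_iff_eq hq.out Nat.prime_two).1 h3)
    rw [h2]
    norm_num

theorem sum_cols (p : ℕ) (w : ℤ) : ∑ j, (padicValRat q ((4 : ℚ) ^ ix (5 * p) (5 * p) (8 * p) j *
      (2 * ix (5 * p) (5 * p) (8 * p) j).factorial) - w) =
    padicValNat q (RR p) + (if q = 2 then 114 * (p : ℤ) ^ 2 - 18 * p else 0) - 18 * p * w := by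
  have hone : ∀ n : ℕ, ∑ i : Fin n, (padicValRat q ((4 : ℚ) ^ (i : ℕ) * (2 * (i : ℕ)).factorial) - w)
      = padicValNat q (SF n) + padicValRat q 4 * (∑ i ∈ range n, i : ℕ) - n * w := by
    intro n
    rw [Fin.sum_univ_eq_sum_range (fun i : ℕ =>
      padicValRat q ((4 : ℚ) ^ i * (2 * i).factorial) - w) n]
    rw [Finset.sum_sub_distrib, padicValNat_SF, Finset.sum_const, card_range, nsmul_eq_mul]
    rw [Finset.sum_congr rfl fun i _ => val_col (q := q) i, Finset.sum_add_distrib]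
    push_cast
    rw [Finset.mul_sum]
    rw [Finset.sum_congr rfl fun (i : ℕ) _ => mul_comm (i : ℤ) (padicValRat q 4)]
    ring
  rw [Fintype.sum_sum_type, Fintype.sum_sum_type]
  simp only [ix, Sum.elim_inl, Sum.elim_inr]
  rw [hone, hone]
  have hRR : (padicValNat q (RR p) : ℤ) = padicValNat q (SF (8 * p)) + 2 * padicValNat q (SF (5 * p)) := by
    rw [RR, padicValNat.mul (SF_pos _).ne' (pow_ne_zero _ (SF_pos _).ne'), padicValNat.pow]
    push_cast
    ring
  have hg : ∀ n : ℕ, ((∑ i ∈ range n, i : ℕ) : ℤ) * 2 = n * (n - 1) := by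
    intro n
    have := Finset.sum_range_id_mul_two n
    rcases n with _ | n
    · simp
    · have h2 : ((∑ i ∈ range (n + 1), i : ℕ) : ℤ) * 2 = ((n + 1) * (n + 1 - 1) : ℕ) := by
        exact_mod_cast this
      rw [h2]
      push_cast
      ring
  have hg5 := hg (5 * p)
  have hg8 := hg (8 * p)
  rw [hRR, val_four]
  split_ifs with h
  · push_cast at hg5 hg8 ⊢
    linarith
  · push_cast
    ring

end Pool.Agent.Z5.SmallP

namespace Pool.Agent.Z5

open SmallP

/-- **Small primes.** -/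
theorem small_primes (ξ : ℚ) : ∃ C : ℝ, ∀ p : ℕ, 2 ≤ p →
    ∀ (eq : Fin (3 * p) × Fin 6 ≃ (Fin (5 * p) ⊕ Fin (5 * p)) ⊕ Fin (8 * p)) (q : ℕ),
    q.Prime → q ≤ 6 * p → DM p ξ eq ≠ 0 →
    ((padicValNat q (RR p) : ℝ) + if q = 2 then 114 * (p : ℝ) ^ 2 else 0) * Real.log q
      - C * p * Real.log p ≤ (padicValRat q (DM p ξ eq) : ℝ) * Real.log q := by
  set D : ℝ := Real.log ξ.den with hD
  refine ⟨18 * 6 * 5 + 18 * (D / Real.log 2) + 18, fun p hp eq q hqp _ hne => ?_⟩
  have : Fact q.Prime := ⟨hqp⟩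
  set l : ℕ := Nat.log q (16 * p) with hl
  set V : ℕ := padicValNat q ξ.den with hV
  have hq1 : 1 < q := hqp.one_lt
  have hlt : 16 * p < q ^ (l + 1) := Nat.lt_pow_succ_log_self hq1 _
  have hξ : VG q (-(V : ℤ)) ξ := by
    refine Or.inr ?_
    rw [padicValRat]
    have : (0 : ℤ) ≤ padicValInt q ξ.num := by positivity
    linarith
  have h1 := (VG_DM hξ hlt eq).val hne
  rw [sum_cols] at h1
  have hp' : (2 : ℝ) ≤ p := by exact_mod_cast hp
  have hp0 : (0 : ℝ) < p := by linarith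
  have hlog2 : 0 < Real.log 2 := Real.log_pos (by norm_num)
  have hlp : Real.log 2 ≤ Real.log p := Real.log_le_log (by norm_num) hp'
  have hlq : 0 ≤ Real.log q := Real.log_nonneg (by exact_mod_cast hq1.le)
  -- `l log q`
  have hll : (l : ℝ) * Real.log q ≤ 5 * Real.log p := by
    have h2 : q ^ l ≤ 16 * p := Nat.pow_log_le_self q (by omega)
    have h3 : ((q : ℝ)) ^ l ≤ (p : ℝ) ^ 5 := by
      have h4 : ((q : ℝ)) ^ l ≤ 16 * p := by exact_mod_cast h2
      refine h4.trans ?_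
      have h5 : (16 : ℝ) ≤ (p : ℝ) ^ 4 := by
        have := pow_le_pow_left₀ (by norm_num : (0 : ℝ) ≤ 2) hp' 4
        norm_num at this
        exact this
      nlinarith
    have h6 := Real.log_le_log (by positivity) h3
    rw [Real.log_pow, Real.log_pow] at h6
    exact_mod_cast h6
  have hVl : (V : ℝ) * Real.log q ≤ D := by
    have h2 : q ^ V ≤ ξ.den := Nat.le_of_dvd ξ.pos pow_padicValNat_dvd
    have h3 : ((q : ℝ)) ^ V ≤ ξ.den := by exact_mod_cast h2
    have h6 := Real.log_le_log (by positivity) h3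
    rwa [Real.log_pow] at h6
  have hD0 : 0 ≤ D := Real.log_nonneg (by exact_mod_cast ξ.pos)
  have hDp : D ≤ D / Real.log 2 * Real.log p := by
    rw [div_mul_eq_mul_div, le_div_iff₀ hlog2]
    exact mul_le_mul_of_nonneg_left hlp hD0
  have h1' : ((padicValNat q (RR p) : ℝ) + (if q = 2 then 114 * (p : ℝ) ^ 2 - 18 * p else 0)
      - 18 * p * (6 * l + V)) ≤ (padicValRat q (DM p ξ eq) : ℝ) := by
    have h2 : (((padicValNat q (RR p) : ℤ) + (if q = 2 then 114 * (p : ℤ) ^ 2 - 18 * p else 0)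
      - 18 * p * (6 * l + V) : ℤ) : ℝ) ≤ ((padicValRat q (DM p ξ eq) : ℤ) : ℝ) := by
      exact Int.cast_le.2 h1
    rw [Int.cast_sub, Int.cast_add] at h2
    by_cases h : q = 2
    · rw [if_pos h] at h2 ⊢
      push_cast at h2 ⊢
      simpa using h2
    · rw [if_neg h] at h2 ⊢
      push_cast at h2 ⊢
      simpa using h2
  have h2 := mul_le_mul_of_nonneg_right h1' hlq
  refine le_trans ?_ h2
  have h3 : (18 * (p : ℝ)) * ((6 * l + V) * Real.log q) ≤
      (18 * (p : ℝ)) * (6 * (5 * Real.log p) + D / Real.log 2 * Real.log p) := by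
    refine mul_le_mul_of_nonneg_left ?_ (by positivity)
    rw [add_mul, mul_assoc]
    linarith
  by_cases h : q = 2
  · subst h
    simp only [if_true]
    push_cast at h3 ⊢
    have h4 : 18 * (p : ℝ) * Real.log 2 ≤ 18 * p * Real.log p :=
      mul_le_mul_of_nonneg_left hlp (by positivity)
    nlinarith
  · simp only [if_neg h]
    have h4 : 0 ≤ 18 * (p : ℝ) * Real.log p := by
      have : 0 ≤ Real.log p := by linarith
      positivity
    nlinarith

end Pool.Agent.Z5
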