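import Pool.Agent.Z5.RangeAux

/-!
# Primes `q ≥ 6 p`
-/

open Finset Polynomial

namespace Pool.Agent.Z5

variable {q : ℕ} {ξ : ℚ} [hq : Fact q.Prime]
variable {p : ℕ} (eq : Fin (3 * p) × Fin 6 ≃ (Fin (5 * p) ⊕ Fin (5 * p)) ⊕ Fin (8 * p))

theorem cls_large (h : 6 * p ≤ q) (u : Fin (3 * p)) : Cls q (6 * p - 1) u 1 := by
  have h1 := u.2
  have h2 : q * (1 - 1) = 0 := by simp
  exact ⟨by omega, le_rfl, by rw [h2]; omega, by omega⟩

theorem range0 (hξ : VG q 0 ξ) (h : 6 * p ≤ q) : VG q 0 (DM p ξ eq) := by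
  rw [DM]
  refine VG.det_zero _ fun x y => ?_
  rw [Matrix.submatrix_apply, dmat, Matrix.of_apply]
  have hc := cls_large h x.1
  have h1 : SG q 0 (tvec (6 * p - 1) ξ x.1 (stdc (5 * p) (5 * p) (8 * p) (eq y))) := by
    rcases eq y with (i | i) | d
    · exact k1_reg hc hξ _ (PG_zero' 0) (PG_X_pow _) (PG_zero' 0)
    · exact k1_reg hc hξ _ (PG_zero' 0) (PG_zero' 0) (PG_X_pow _)
    · exact k1_reg hc hξ _ (PG_X_pow _) (PG_zero' 0) (PG_zero' 0)
  exact h1 _ x.2.2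

theorem rangeA (h11 : 11 ≤ q) (hξ : VG q 0 ξ) (h : 6 * p < q) (h' : q < 8 * p) :
    VG q (8 * p - q : ℤ) (DM p ξ eq) := by
  rw [DM]
  refine VG_of_new h11 eq le_rfl (by omega) ?_
  have h1 := VG.det (q := q) ((dmat (6 * p - 1) ξ (3 * p)
    (newC q (6 * p - 1) (5 * p) (5 * p) (8 * p))).submatrix id eq) (fun _ => 0)
    (fun y => levC q (5 * p) (5 * p) (8 * p) (eq y)) (fun x y => ?_)
  · rw [Equiv.sum_comp eq (levC q (5 * p) (5 * p) (8 * p)), sum_levC _ _ _ (by omega)] at h1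
    refine h1.mono ?_
    rw [sum_const_zero, zero_add]
    have h2 := le_max_right (0 : ℤ) (((8 * p : ℕ) : ℤ) - q)
    have h3 := le_max_left (0 : ℤ) (((5 * p : ℕ) : ℤ) - q)
    push_cast at h2 h3 ⊢
    linarith
  · rw [zero_add, Matrix.submatrix_apply, dmat, Matrix.of_apply]
    exact newC_k1 h11 (cls_large h.le x.1) hξ _ _ _ (eq y) _ x.2.2

end Pool.Agent.Z5
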