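import Pool.Agent.Z5.VG

/-!
# Multilinear expansion and parity lemmas for valuations of determinants
-/

open Finset

namespace Pool.Agent.Z5

section multi

variable {D G : Type*} [Fintype D] [DecidableEq D] [Fintype G] [DecidableEq G]

theorem det_mul_eq_sum (V : Matrix D G ℚ) (C : Matrix G D ℚ) :
    (V * C).det = ∑ f : D → G, (∏ k, C (f k) k) * (V.submatrix id f).det := by
  have h1 : (V * C).det = Matrix.detRowAlternating (fun k => ∑ g, C g k • fun i => V i g) := by
    rw [← Matrix.det_transpose]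
    congr 1
    ext k i
    simp [Matrix.transpose_apply, Matrix.mul_apply, Finset.sum_apply, mul_comm]
  rw [h1]
  have h2 := MultilinearMap.map_sum (Matrix.detRowAlternating (R := ℚ) (n := D)).toMultilinearMap
    (fun k g => C g k • fun i => V i g)
  have h3 : Matrix.detRowAlternating (fun k => ∑ g, C g k • fun i => V i g) =
      (Matrix.detRowAlternating (R := ℚ) (n := D)).toMultilinearMap
        (fun k => ∑ g, C g k • fun i => V i g) := rfl
  rw [h3, h2]
  refine Finset.sum_congr rfl fun f _ => ?_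
  rw [MultilinearMap.map_smul_univ, smul_eq_mul]
  congr 1
  rw [← Matrix.det_transpose]
  rfl

/-- if the columns are combinations of vectors `V_g` with coefficients of valuation
`≥ w g + j k` -/
theorem VG_multi {q : ℕ} [Fact q.Prime] (V : Matrix D G ℚ) (C : Matrix G D ℚ) (w : G → ℤ)
    (j : D → ℤ) (m : ℤ) (hC : ∀ g k, VG q (w g + j k) (C g k))
    (H : ∀ f : D → G, Function.Injective f → VG q (m - ∑ k, w (f k)) (V.submatrix id f).det) :
    VG q (m + ∑ k, j k) (V * C).det := by
  rw [det_mul_eq_sum]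
  refine VG.sum _ _ fun f _ => ?_
  by_cases hf : Function.Injective f
  · have h1 : VG q (∑ k, (w (f k) + j k)) (∏ k, C (f k) k) := VG.prod _ _ _ fun k _ => hC _ _
    refine (h1.mul (H f hf)).mono ?_
    rw [sum_add_distrib]
    linarith
  · have h0 : (V.submatrix id f).det = 0 := by
      rw [Function.Injective] at hf
      push Not at hf
      obtain ⟨a, b, hab, hne⟩ := hf
      refine Matrix.det_zero_of_column_eq hne fun i => ?_
      simp [hab]
    rw [h0, mul_zero]
    exact VG.zero _

omit [Fintype D] [DecidableEq D] [Fintype G] in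
/-- the threshold bound for the sum of the weights of distinct vectors -/
theorem sum_weight_ge (s : Finset D) (f : D → G) (hf : Set.InjOn f s) (t : Finset G)
    (ht : ∀ k ∈ s, f k ∈ t) (w : G → ℤ) (τ : ℤ) :
    τ * s.card - ∑ g ∈ t, max (τ - w g) 0 ≤ ∑ k ∈ s, w (f k) := by
  have h1 : ∑ k ∈ s, max (τ - w (f k)) 0 = ∑ g ∈ s.image f, max (τ - w g) 0 :=
    (Finset.sum_image (f := fun g => max (τ - w g) 0) (fun a ha b hb hab => hf ha hb hab)).symm
  have h2 : ∑ g ∈ s.image f, max (τ - w g) 0 ≤ ∑ g ∈ t, max (τ - w g) 0 := by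
    refine Finset.sum_le_sum_of_subset_of_nonneg ?_ fun g _ _ => le_max_right _ _
    intro g hg
    obtain ⟨k, hk, rfl⟩ := mem_image.1 hg
    exact ht k hk
  have h3 : ∑ k ∈ s, (τ - w (f k)) ≤ ∑ k ∈ s, max (τ - w (f k)) 0 :=
    sum_le_sum fun k _ => le_max_left _ _
  rw [sum_sub_distrib, sum_const, nsmul_eq_mul] at h3
  rw [h1] at h3
  linarith [mul_comm τ (s.card : ℤ)]

/-- a family of eigenvectors of `S` whose eigenvalues do not add up to the trace is dependent -/
theorem det_eq_zero_of_trace (S X : Matrix D D ℚ) (s : D → ℚ) (h : S * X = X * Matrix.diagonal s)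
    (ht : S.trace ≠ ∑ k, s k) : X.det = 0 := by
  by_contra h0
  apply ht
  have hu : IsUnit X.det := isUnit_iff_ne_zero.2 h0
  have h1 : S = X * Matrix.diagonal s * X⁻¹ := by
    rw [← h, Matrix.mul_assoc, Matrix.mul_nonsing_inv X hu, Matrix.mul_one]
  rw [h1, Matrix.trace_mul_comm, ← Matrix.mul_assoc, Matrix.nonsing_inv_mul X hu, Matrix.one_mul,
    Matrix.trace_diagonal]

end multi

end Pool.Agent.Z5
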