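import Pool.Agent.Z5.VG
import Pool.Agent.Z5.Multi

/-!
# `p`-adic part: the multilinear (weights) lemma
-/

open Finset

namespace Pool.Agent.Z5

variable {q : ℕ} [hq : Fact q.Prime]

/-- columns `x_k = ∑_g c_{k g} g` where `v(c_{k g}) ≥ w_g + J_k`; the bound for the determinant follows from
the determinants of the generators. -/
theorem ml_det {ι γ : Type*} [Fintype ι] [DecidableEq ι] [Fintype γ] (g : γ → ι → ℚ)
    (w : γ → ℤ) (J : ι → ℤ) (c : ι → γ → ℚ) (hc : ∀ k x, VG q (w x + J k) (c k x)) (E : ℤ)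
    (hE : ∀ f : ι → γ, Function.Injective f →
      VG q (E - ∑ k, w (f k)) (Matrix.det (Matrix.of fun i k => g (f k) i))) :
    VG q (E + ∑ k, J k) (Matrix.det (Matrix.of fun i k => ∑ x, c k x * g x i)) := by
  classical
  have h1 : (Matrix.of fun i k => ∑ x, c k x * g x i) =
      (Matrix.of fun i x => g x i : Matrix ι γ ℚ) * (Matrix.of fun x k => c k x) := by
    ext i k
    rw [Matrix.mul_apply]
    exact Finset.sum_congr rfl fun x _ => mul_comm _ _
  rw [h1]
  exact VG_multi _ _ w J E (fun x k => hc k x) hE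

/-- threshold lemma -/
theorem weight_ge {ι γ : Type*} [Fintype ι] [Fintype γ] (w : γ → ℤ) (f : ι → γ)
    (hf : Function.Injective f) (τ : ℤ) :
    τ * Fintype.card ι - ∑ x, max 0 (τ - w x) ≤ ∑ k, w (f k) := by
  classical
  have h := sum_weight_ge (univ : Finset ι) f hf.injOn (univ : Finset γ) (fun _ _ => mem_univ _) w τ
  simp only [Finset.card_univ] at h
  have h2 : ∑ x, max 0 (τ - w x) = ∑ x, max (τ - w x) 0 :=
    Finset.sum_congr rfl fun x _ => max_comm _ _
  rw [h2]
  exact h

end Pool.Agent.Z5
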