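import Pool.Agent.Z5.PPG
import Pool.Agent.Z5.PML
import Pool.Agent.Z5.PExp

/-!
# `p`-adic part: classes with two poles, the bound and the algebra of `Adm2`
-/

open Finset Polynomial

namespace Pool.Agent.Z5

variable {q L r K : ℕ} {ξ : ℚ} [hq : Fact q.Prime]

/-- `u = q z` at the pole `i` -/
noncomputable def uz (q i : ℕ) : PowerSeries ℚ := PowerSeries.C (q : ℚ) * zz i

theorem uz_SG (i : ℕ) : SG q 1 (uz q i) := by
  have := SG.mul (SG.C (q := q) (k := 1) VG.self_prime) (zz_int (q := q) i)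
  exact this.mono (by norm_num)

theorem sg2_int (i : Fin 2) : SG q 0 (sg2 (i : ℕ)) := by
  unfold sg2
  apply SG.neg
  have h0 : PowerSeries.constantCoeff (1 + PowerSeries.C (1 - 2 * ((i : ℕ) : ℚ)) * PowerSeries.X) = 1 := by
    simp
  apply SG.inv
  · apply SG.add SG.one
    have h : VG q 0 (1 - 2 * ((i : ℕ) : ℚ)) := by
      have := VG.int (q := q) (1 - 2 * ((i : ℕ) : ℤ))
      push_cast at this
      exact this
    have := SG.mul (SG.C h) (SG.X (q := q))
    simpa using this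
  · rw [h0]; exact one_ne_zero
  · rw [h0, inv_one]; exact VG.one

theorem aeval_uz_SG {k : ℤ} {A : ℚ[X]} (hA : PG q k A) (i : ℕ) : SG q k (aeval (uz q i) A) :=
  SG.aeval ((uz_SG i).mono (by norm_num)) A hA

/-- truncation of a polynomial in `u = q z` -/
theorem aeval_uz_trunc {k : ℤ} {A : ℚ[X]} (hA : PG q k A) (i m : ℕ) :
    SG q (m + k) (aeval (uz q i) A - ∑ a ∈ range m, PowerSeries.C (A.coeff a * (q : ℚ) ^ a) * zz i ^ a) := by
  have h := Polynomial.aeval_eq_sum_range' (p := A) (n := m + (A.natDegree + 1)) (by omega) (uz q i)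
  rw [h, Finset.sum_range_add, add_sub_assoc]
  have e : ∀ a, A.coeff a • uz q i ^ a = PowerSeries.C (A.coeff a * (q : ℚ) ^ a) * zz i ^ a := by
    intro a
    rw [uz, mul_pow, map_mul, map_pow, PowerSeries.smul_eq_C_mul]
    ring
  have e2 : ∑ a ∈ range m, A.coeff a • uz q i ^ a =
      ∑ a ∈ range m, PowerSeries.C (A.coeff a * (q : ℚ) ^ a) * zz i ^ a :=
    Finset.sum_congr rfl fun a _ => e a
  rw [e2]
  have e3 : (∑ a ∈ range m, PowerSeries.C (A.coeff a * (q : ℚ) ^ a) * zz i ^ a) +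
      (∑ a ∈ range (A.natDegree + 1), A.coeff (m + a) • uz q i ^ (m + a) -
        ∑ a ∈ range m, PowerSeries.C (A.coeff a * (q : ℚ) ^ a) * zz i ^ a) =
      ∑ a ∈ range (A.natDegree + 1), A.coeff (m + a) • uz q i ^ (m + a) := by ring
  rw [e3]
  refine SG.sum _ _ fun a _ => ?_
  rw [PowerSeries.smul_eq_C_mul]
  have h1 := SG.mul (SG.C (hA (m + a))) (SG.pow (uz_SG (q := q) i) (m + a))
  exact h1.mono (by push_cast; omega)

/-- index type of the generators of the lattice of a two-pole class -/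
abbrev Gen2 : Type := (Fin 5 ⊕ Fin 6) ⊕ (Fin 2 × Fin 6)

/-- the generators -/
noncomputable def gen2 : Gen2 → Fin 2 × Fin 6 → ℚ
  | .inl (.inl a), x => PowerSeries.coeff (x.2 : ℕ) (zz x.1 ^ (a : ℕ))
  | .inl (.inr a), x => PowerSeries.coeff (x.2 : ℕ) (zz x.1 ^ (a : ℕ) * sg2 x.1)
  | .inr y, x => if x = y then 1 else 0

/-- their weights -/
def wt2 : Gen2 → ℤ
  | .inl (.inl a) => (a : ℕ)
  | .inl (.inr a) => (a : ℕ) - 1
  | .inr _ => 5

theorem gen2_int (g : Gen2) (x : Fin 2 × Fin 6) : VG q 0 (gen2 g x) := by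
  rcases g with (a | a) | y
  · have := SG.pow (zz_int (q := q) (x.1 : ℕ)) (a : ℕ)
    exact (this.mono (by simp)) _ x.2.2
  · have := SG.mul (SG.pow (zz_int (q := q) (x.1 : ℕ)) (a : ℕ)) (sg2_int (q := q) x.1)
    exact (this.mono (by simp)) _ x.2.2
  · simp only [gen2]
    split_ifs
    · exact VG.one
    · exact VG.zero _

theorem k2_bound (c : Fin 2 × Fin 6 → Col) (J : Fin 2 × Fin 6 → ℤ)
    (h : ∀ y, Adm2 q (J y) (fun i => sc q L ξ r i (c y))) :
    VG q (-6 + ∑ y, J y) (cmat q L ξ r 2 c).det := by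
  choose A B hA hB hE using h
  -- the coefficients
  let rem : Fin 2 × Fin 6 → Fin 2 → PowerSeries ℚ := fun y i =>
    sc q L ξ r i (c y) -
      (∑ a ∈ range 5, PowerSeries.C ((A y).coeff a * (q : ℚ) ^ a) * zz i ^ a +
        (∑ a ∈ range 6, PowerSeries.C ((B y).coeff a * (q : ℚ) ^ a) * zz i ^ a) * sg2 i)
  have hrem : ∀ y i, SG q (5 + J y) (rem y i) := by
    intro y i
    have h1 := hE y i
    have h2 := aeval_uz_trunc (hA y) (i : ℕ) 5
    have h3 := SG.mul (aeval_uz_trunc (hB y) (i : ℕ) 6) (sg2_int (q := q) i)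
    have h3' := h3.mono (l := 5 + J y) (by push_cast; omega)
    have h2' := h2.mono (l := 5 + J y) (by push_cast; omega)
    have := SG.add (SG.add h1 h2') h3'
    have e : rem y i = (fun i : Fin 2 => sc q L ξ r i (c y)) i -
        (aeval (PowerSeries.C (q : ℚ) * zz i) (A y) +
          aeval (PowerSeries.C (q : ℚ) * zz i) (B y) * sg2 i) +
        (aeval (uz q i) (A y) -
          ∑ a ∈ range 5, PowerSeries.C ((A y).coeff a * (q : ℚ) ^ a) * zz i ^ a) +
        (aeval (uz q i) (B y) -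
          ∑ a ∈ range 6, PowerSeries.C ((B y).coeff a * (q : ℚ) ^ a) * zz i ^ a) * sg2 i := by
      simp only [rem, uz]
      ring
    rw [e]
    exact this
  let co' : Fin 2 × Fin 6 → Gen2 → ℚ := fun y g => match g with
    | .inl (.inl a) => (A y).coeff a * (q : ℚ) ^ (a : ℕ)
    | .inl (.inr a) => (B y).coeff a * (q : ℚ) ^ (a : ℕ)
    | .inr x => PowerSeries.coeff (x.2 : ℕ) (rem y x.1)
  have hco : ∀ y g, VG q (wt2 g + J y) (co' y g) := by
    intro y g
    rcases g with (a | a) | x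
    · exact ((hA y a).mul (VG.pow_self (a : ℕ))).mono (by simp only [wt2]; omega)
    · exact ((hB y a).mul (VG.pow_self (a : ℕ))).mono (by simp only [wt2]; omega)
    · exact hrem y x.1 _ x.2.2
  have hsum : ∀ y x, ∑ g, co' y g * gen2 g x = PowerSeries.coeff (x.2 : ℕ) (sc q L ξ r x.1 (c y)) := by
    intro y x
    rw [Fintype.sum_sum_type, Fintype.sum_sum_type]
    have e1 : ∑ a : Fin 5, co' y (.inl (.inl a)) * gen2 (.inl (.inl a)) x =
        PowerSeries.coeff (x.2 : ℕ)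
          (∑ a ∈ range 5, PowerSeries.C ((A y).coeff a * (q : ℚ) ^ a) * zz x.1 ^ a) := by
      rw [map_sum, Finset.sum_range]
      refine Finset.sum_congr rfl fun a _ => ?_
      rw [PowerSeries.coeff_C_mul]
      rfl
    have e2 : ∑ a : Fin 6, co' y (.inl (.inr a)) * gen2 (.inl (.inr a)) x =
        PowerSeries.coeff (x.2 : ℕ)
          ((∑ a ∈ range 6, PowerSeries.C ((B y).coeff a * (q : ℚ) ^ a) * zz x.1 ^ a) * sg2 x.1) := by
      rw [Finset.sum_mul, map_sum, Finset.sum_range]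
      refine Finset.sum_congr rfl fun a _ => ?_
      rw [mul_assoc (PowerSeries.C _), PowerSeries.coeff_C_mul]
      rfl
    have e3 : ∑ z : Fin 2 × Fin 6, co' y (.inr z) * gen2 (.inr z) x =
        PowerSeries.coeff (x.2 : ℕ) (rem y x.1) := by
      simp only [co', gen2]
      rw [Finset.sum_eq_single x]
      · simp
      · intro b _ hb; rw [if_neg (Ne.symm hb), mul_zero]
      · intro h; exact absurd (Finset.mem_univ _) h
    rw [e1, e2, e3, ← map_add, ← map_add]
    congr 1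
    simp only [rem]
    ring
  have hw : ∀ f : Fin 2 × Fin 6 → Gen2, Function.Injective f → 24 ≤ ∑ k, wt2 (f k) := by
    intro f hf
    have h1 := weight_ge wt2 f hf 5
    have h2 : ∑ x : Gen2, max 0 (5 - wt2 x) = 36 := by
      rw [Fintype.sum_sum_type, Fintype.sum_sum_type]
      simp [wt2, Fin.sum_univ_succ]
    rw [h2] at h1
    have h3 : Fintype.card (Fin 2 × Fin 6) = 12 := by simp
    rw [h3] at h1
    push_cast at h1
    omega
  have key := ml_det (q := q) gen2 wt2 J co' hco 24 (fun f hf => by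
    have h1 : VG q 0 (Matrix.det (Matrix.of fun i k => gen2 (f k) i)) :=
      VG.det_zero _ fun i j => gen2_int _ _
    exact h1.mono (by have := hw f hf; omega))
  have emat : (Matrix.of fun (i k : Fin 2 × Fin 6) => ∑ x, co' k x * gen2 x i) =
      (Matrix.of fun (x y : Fin 2 × Fin 6) => PowerSeries.coeff (x.2 : ℕ) (sc q L ξ r x.1 (c y))) := by
    ext i k
    exact hsum k i
  rw [emat, cmat_scale] at key
  have hq0 : (q : ℚ) ≠ 0 := by exact_mod_cast hq.out.ne_zero
  have h5 := (VG.zpow_self (q := q) (-30)).mul key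
  have e5 : (q : ℚ) ^ (-30 : ℤ) * ((q : ℚ) ^ (15 * 2) * (cmat q L ξ r 2 c).det) =
      (cmat q L ξ r 2 c).det := by
    rw [← mul_assoc, ← zpow_natCast, ← zpow_add₀ hq0]
    norm_num
  rw [e5] at h5
  exact h5.mono (by omega)

/-! ### Algebra of `Adm2` -/

omit hq in
theorem Adm2.mono {J J' : ℤ} {F : Fin 2 → PowerSeries ℚ} (h : Adm2 q J F) (hJ : J' ≤ J) :
    Adm2 q J' F := by
  obtain ⟨A, B, hA, hB, hE⟩ := h
  exact ⟨A, B, hA.mono hJ, hB.mono (by omega), fun i => (hE i).mono (by omega)⟩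

theorem Adm2.add {J : ℤ} {F G : Fin 2 → PowerSeries ℚ} (hF : Adm2 q J F) (hG : Adm2 q J G) :
    Adm2 q J (fun i => F i + G i) := by
  obtain ⟨A, B, hA, hB, hE⟩ := hF
  obtain ⟨A', B', hA', hB', hE'⟩ := hG
  refine ⟨A + A', B + B', PG.add hA hA', PG.add hB hB', fun i => ?_⟩
  have := SG.add (hE i) (hE' i)
  rw [map_add, map_add]
  convert this using 1
  ring

theorem Adm2.neg {J : ℤ} {F : Fin 2 → PowerSeries ℚ} (hF : Adm2 q J F) :
    Adm2 q J (fun i => -F i) := by
  obtain ⟨A, B, hA, hB, hE⟩ := hF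
  refine ⟨-A, -B, PG.neg hA, PG.neg hB, fun i => ?_⟩
  have := SG.neg (hE i)
  rw [map_neg, map_neg]
  convert this using 1
  ring

theorem Adm2.sub {J : ℤ} {F G : Fin 2 → PowerSeries ℚ} (hF : Adm2 q J F) (hG : Adm2 q J G) :
    Adm2 q J (fun i => F i - G i) := by
  have := Adm2.add hF (Adm2.neg hG)
  simpa only [sub_eq_add_neg] using this

theorem Adm2.of_SG {J : ℤ} {F : Fin 2 → PowerSeries ℚ} (h : ∀ i, SG q (5 + J) (F i)) :
    Adm2 q J F :=
  ⟨0, 0, PG.zero _, PG.zero _, fun i => by simpa using h i⟩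

theorem Adm2.of_poly {J : ℤ} {A : ℚ[X]} (h : PG q J A) :
    Adm2 q J (fun i => aeval (uz q i) A) :=
  ⟨A, 0, h, PG.zero _, fun i => by
    have : (aeval (uz q i) A) - (aeval (PowerSeries.C (q : ℚ) * zz i) A +
        aeval (PowerSeries.C (q : ℚ) * zz i) (0 : ℚ[X]) * sg2 i) = 0 := by
      simp [uz]
    rw [this]; exact SG.zero _⟩

theorem Adm2.of_sg {J : ℤ} {B : ℚ[X]} (h : PG q (J - 1) B) :
    Adm2 q J (fun i => aeval (uz q i) B * sg2 i) :=
  ⟨0, B, PG.zero _, h, fun i => by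
    have : (aeval (uz q i) B * sg2 i) - (aeval (PowerSeries.C (q : ℚ) * zz i) (0 : ℚ[X]) +
        aeval (PowerSeries.C (q : ℚ) * zz i) B * sg2 i) = 0 := by
      simp [uz]
    rw [this]; exact SG.zero _⟩

theorem Adm2.SG {J : ℤ} {F : Fin 2 → PowerSeries ℚ} (h : Adm2 q J F) (i : Fin 2) :
    SG q (J - 1) (F i) := by
  obtain ⟨A, B, hA, hB, hE⟩ := h
  have h1 := aeval_uz_SG hA (i : ℕ)
  have h2 := SG.mul (aeval_uz_SG hB (i : ℕ)) (sg2_int (q := q) i)
  have h3 := SG.add (SG.add ((hE i).mono (l := J - 1) (by omega)) (h1.mono (l := J - 1) (by omega)))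
    (h2.mono (l := J - 1) (by omega))
  convert h3 using 1
  simp only [uz]
  ring

/-- the ring acting on `Adm2` -/
def R2 (q : ℕ) (F : Fin 2 → PowerSeries ℚ) : Prop :=
  ∃ A : ℚ[X], PG q 0 A ∧ ∀ i : Fin 2, Z5.SG q 7 (F i - aeval (uz q i) A)

theorem R2.of_poly {A : ℚ[X]} (h : PG q 0 A) : R2 q (fun i => aeval (uz q i) A) :=
  ⟨A, h, fun i => by simpa using SG.zero _⟩

theorem R2.of_SG {F : Fin 2 → PowerSeries ℚ} (h : ∀ i, Z5.SG q 7 (F i)) : R2 q F :=
  ⟨0, PG.zero _, fun i => by simpa using h i⟩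

theorem R2.const {x : ℚ} (h : VG q 0 x) : R2 q (fun _ => PowerSeries.C x) :=
  ⟨C x, PG.C h, fun i => by
    have : (PowerSeries.C x : PowerSeries ℚ) - aeval (uz q i) (C x) = 0 := by
      rw [aeval_C]
      exact sub_self _
    rw [this]; exact SG.zero _⟩

theorem R2.add {F G : Fin 2 → PowerSeries ℚ} (hF : R2 q F) (hG : R2 q G) :
    R2 q (fun i => F i + G i) := by
  obtain ⟨A, hA, hE⟩ := hF
  obtain ⟨A', hA', hE'⟩ := hG
  refine ⟨A + A', PG.add hA hA', fun i => ?_⟩
  have := SG.add (hE i) (hE' i)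
  rw [map_add]
  convert this using 1
  ring

theorem R2.sum {ι : Type*} (s : Finset ι) (F : ι → Fin 2 → PowerSeries ℚ)
    (h : ∀ j ∈ s, R2 q (F j)) : R2 q (fun i => ∑ j ∈ s, F j i) := by
  classical
  induction s using Finset.induction_on with
  | empty => exact R2.of_SG fun i => by simpa using SG.zero _
  | insert a s ha ih =>
    simp only [Finset.sum_insert ha]
    exact R2.add (h a (Finset.mem_insert_self _ _))
      (ih fun j hj => h j (Finset.mem_insert_of_mem hj))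

theorem R2.int {F : Fin 2 → PowerSeries ℚ} (hF : R2 q F) (i : Fin 2) : Z5.SG q 0 (F i) := by
  obtain ⟨A, hA, hE⟩ := hF
  have := SG.add ((hE i).mono (l := 0) (by norm_num)) (aeval_uz_SG hA (i : ℕ))
  convert this using 1
  ring

theorem R2.mul {F G : Fin 2 → PowerSeries ℚ} (hF : R2 q F) (hG : R2 q G) :
    R2 q (fun i => F i * G i) := by
  have hGi := fun i => R2.int hG i
  obtain ⟨A, hA, hE⟩ := hF
  obtain ⟨A', hA', hE'⟩ := hG
  refine ⟨A * A', (PG.mul hA hA').mono (by norm_num), fun i => ?_⟩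
  have h1 := SG.mul (hE i) (hGi i)
  have h2 := SG.mul (aeval_uz_SG hA (i : ℕ)) (hE' i)
  have := SG.add (h1.mono (l := 7) (by norm_num)) (h2.mono (l := 7) (by norm_num))
  rw [map_mul]
  convert this using 1
  ring

/-- `Adm2` is stable under `R2` -/
theorem Adm2.mul {J : ℤ} {F G : Fin 2 → PowerSeries ℚ} (hF : R2 q F) (hG : Adm2 q J G) :
    Adm2 q J (fun i => F i * G i) := by
  have hGi := fun i => Adm2.SG hG i
  obtain ⟨A, hA, hE⟩ := hF
  obtain ⟨A', B', hA', hB', hE'⟩ := hG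
  refine ⟨A * A', A * B', (PG.mul hA hA').mono (by omega), (PG.mul hA hB').mono (by omega),
    fun i => ?_⟩
  have h1 := SG.mul (hE i) (hGi i)
  have h2 := SG.mul (aeval_uz_SG hA (i : ℕ)) (hE' i)
  have := SG.add (h1.mono (l := 5 + J) (by omega)) (h2.mono (l := 5 + J) (by omega))
  rw [map_mul, map_mul]
  convert this using 1
  simp only [uz]
  ring

theorem sc_csm (Q : ℚ[X]) (c : Col) (i : ℕ) :
    sc q L ξ r i (csm Q c) = PowerSeries.rescale (q : ℚ) (hser L (r + q * i) Q) * sc q L ξ r i c := by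
  unfold sc
  rw [← map_mul]
  congr 1
  simp only [tvec, csm, hser, map_mul]
  ring

theorem k2_mul {J : ℤ} {c : Col} (Q : ℚ[X]) (hQ : PG q 0 Q)
    (h : Adm2 q J (fun i => sc q L ξ r i c)) : Adm2 q J (fun i => sc q L ξ r i (csm Q c)) := by
  obtain ⟨Q', hQ', hE⟩ := hser_zz (q := q) (L := L) (r := r) Q hQ
  have := Adm2.mul (R2.of_poly hQ') h
  have e : (fun i : Fin 2 => sc q L ξ r i (csm Q c)) =
      fun i : Fin 2 => aeval (uz q i) Q' * sc q L ξ r i c := by
    funext i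
    rw [sc_csm, hE i]
    rfl
  rw [e]
  exact this

end Pool.Agent.Z5
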