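import Pool.Agent.Z5.PK2X
import Pool.Agent.Z5.PK2R

/-!
# Classes with two poles: the special columns
-/

open Finset Polynomial

namespace Pool.Agent.Z5

namespace K2

set_option linter.unusedSectionVars false
set_option linter.unusedVariables false

variable {q L r : ℕ} {ξ : ℚ} [hq : Fact q.Prime]

/-- `ψ = ∑_{m ≤ r} 1 / (m - u) + ∑_{m ≤ r'} 1 / (m + u + q)` -/
noncomputable def psi (q L r : ℕ) : R2 :=
  ∑ m ∈ Finset.Icc 1 r, vv q (m : ℤ) - ∑ m ∈ Finset.Icc 1 (L - r - q), vv q (-((m : ℤ) + q))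

/-- `H` at the two poles -/
noncomputable def hh (q L r : ℕ) : R2 := fun i =>
  PowerSeries.rescale (q : ℚ) (hser L (r + q * (i : ℕ)) (Hp q L))

theorem ndvd {m : ℕ} (h1 : 1 ≤ m) (h2 : m < q) : ¬ (q : ℤ) ∣ (m : ℤ) := by
  intro h
  have h3 : q ∣ m := by exact_mod_cast h
  have := Nat.le_of_dvd (by omega) h3
  omega

theorem ndvd_neg {m : ℕ} (h1 : 1 ≤ m) (h2 : m < q) : ¬ (q : ℤ) ∣ (-(m : ℤ)) := by
  rw [dvd_neg]
  exact ndvd h1 h2

theorem ndvd_add {m : ℕ} (h1 : 1 ≤ m) (h2 : m < q) : ¬ (q : ℤ) ∣ (-((m : ℤ) + q)) := by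
  rw [dvd_neg]
  intro h
  exact ndvd h1 h2 ((dvd_add_left (dvd_refl _)).mp h)

theorem psi_RJ (hc : Cls q L r 2) : RJ q 0 7 (psi q L r) := by
  have h1 := hc.hr
  have h2 := hc.hL
  have h3 := hc.hU
  refine (RJ.sum _ _ fun m hm => ?_).sub (RJ.sum _ _ fun m hm => ?_)
  · have hm' := Finset.mem_Icc.mp hm
    exact RJ.v (ndvd hm'.1 (by omega))
  · have hm' := Finset.mem_Icc.mp hm
    exact RJ.v (ndvd_add hm'.1 (by omega))

theorem hh_prod (hc : Cls q L r 2) (h2 : Odd q) : hh q L r =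
    cc ((((q - 1).factorial : ℚ) ^ 2)⁻¹) * (UU q *
      (∏ s ∈ (range q).erase r, ((s : R2) - (r : R2) + uu q)) *
      (∏ s ∈ (range q).erase (L - r - q),
        ((s : R2) - ((L - r - q : ℕ) : R2) + (-uu q - (q : R2))))) := by
  have h1 := hc.hr
  have hL := hc.hL
  have hU := hc.hU
  obtain ⟨r', hr'⟩ : ∃ r', L = r + r' + q := ⟨L - r - q, by omega⟩
  have hr2 : L - r - q = r' := by omega
  rw [hr2]
  funext i
  have hi : (i : ℕ) ≤ 1 := by omega
  have hu : r + q * (i : ℕ) ≤ L := by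
    have := Nat.mul_le_mul_left q hi
    omega
  unfold hh
  rw [Hp_hser hu, map_mul, map_prod]
  have e1 : PowerSeries.rescale (q : ℚ) (PowerSeries.C ((((q - 1).factorial : ℚ) ^ 2)⁻¹)) =
      PowerSeries.C ((((q - 1).factorial : ℚ) ^ 2)⁻¹) := by
    ext n
    rw [PowerSeries.coeff_rescale, PowerSeries.coeff_C]
    split_ifs with h
    · rw [h]; simp
    · simp
  have e2 : ∀ x : ℚ, PowerSeries.rescale (q : ℚ) (PowerSeries.C x + PowerSeries.X) =
      PowerSeries.C x + PowerSeries.C (q : ℚ) * PowerSeries.X := by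
    intro x
    rw [map_add, PowerSeries.rescale_X]
    congr 1
    ext n
    rw [PowerSeries.coeff_rescale, PowerSeries.coeff_C]
    split_ifs with h
    · rw [h]; simp
    · simp
  have e3 : ∀ s : ℕ, PowerSeries.rescale (q : ℚ)
      ((PowerSeries.C ((s : ℚ) - ((r + q * (i : ℕ) : ℕ) : ℚ)) + PowerSeries.X) *
        (PowerSeries.C ((L : ℚ) - ((r + q * (i : ℕ) : ℕ) : ℚ) - s) + PowerSeries.X)) =
      ((s : PowerSeries ℚ) - r + uu q i) * (-1 * ((s : PowerSeries ℚ) - r' + (-uu q i - q))) := by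
    intro s
    rw [map_mul, e2, e2]
    unfold uu zz
    rw [hr']
    push_cast
    simp only [map_sub, map_add, map_mul, map_natCast]
    ring
  rw [e1, Finset.prod_congr rfl fun s _ => e3 s, Finset.prod_mul_distrib, Finset.prod_mul_distrib,
    Finset.prod_const, card_range, h2.neg_one_pow,
    ← Finset.mul_prod_erase (range q) (fun s => (s : PowerSeries ℚ) - r + uu q i)
      (Finset.mem_range.mpr h1),
    ← Finset.mul_prod_erase (range q) (fun s => (s : PowerSeries ℚ) - r' + (-uu q i - q))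
      (Finset.mem_range.mpr (show r' < q by omega))]
  simp only [Pi.mul_apply, Finset.prod_apply, Pi.add_apply, Pi.sub_apply, Pi.neg_apply,
    Pi.natCast_apply, UU, cc_apply, map_natCast]
  ring

theorem prod_shift_R2 {a : ℕ} (ha : a < q) (w : R2) (hw : RJ q 0 7 w) (v : ℕ → R2)
    (hv1 : ∀ m ∈ Finset.Icc 1 a, RJ q 0 7 (v m))
    (hv : ∀ m ∈ Finset.Icc 1 a, ((m : R2) - w) * v m = 1) : ∃ y : R2, RJ q 0 7 y ∧
    ∏ s ∈ (range q).erase a, ((s : R2) - (a : R2) + w) =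
      (∏ n ∈ Finset.Icc 1 (q - 1), ((n : R2) + w)) * (1 + (q : R2) * ∑ m ∈ Finset.Icc 1 a, v m) +
        (q : R2) ^ 2 * y := by
  classical
  obtain ⟨V, hV⟩ : ∃ V : ℕ → S7 q, ∀ m ∈ Finset.Icc 1 a, (V m : R2) = v m := by
    refine ⟨fun m => if h : v m ∈ S7 q then ⟨v m, h⟩ else 0, fun m hm => ?_⟩
    have h : v m ∈ S7 q := hv1 m hm
    simp only [h, dite_true]
  obtain ⟨y, hy⟩ := prod_shift' ha (⟨w, hw⟩ : S7 q) V (by
    intro m hm
    apply Subtype.ext
    have h := hv m hm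
    rw [← hV m hm] at h
    exact h)
  refine ⟨y, y.2, ?_⟩
  have h2 := congrArg (fun z : S7 q => (z : R2)) hy
  have c1 : ∀ (S : Finset ℕ) (f : ℕ → S7 q), ((∏ i ∈ S, f i : S7 q) : R2) =
      ∏ i ∈ S, (f i : R2) := fun S f => map_prod (S7 q).subtype f S
  have c2 : ∀ (S : Finset ℕ) (f : ℕ → S7 q), ((∑ i ∈ S, f i : S7 q) : R2) =
      ∑ i ∈ S, (f i : R2) := fun S f => map_sum (S7 q).subtype f S
  simp only [Subring.coe_add, Subring.coe_mul, Subring.coe_pow, Subring.coe_one,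
    Subring.coe_natCast] at h2
  rw [c1, c1, c2, Finset.sum_congr rfl hV] at h2
  simpa only [Subring.coe_add, AddSubgroupClass.coe_sub, Subring.coe_natCast] using h2

theorem W_Om : cc ((((q - 1).factorial : ℚ) ^ 2)⁻¹) *
    (∏ n ∈ Finset.Icc 1 (q - 1), ((n : R2) + uu q)) ^ 2 = aeval (UU q) (Om q) := by
  rw [W_sq, Om, map_prod]
  have h1 : ((((q - 1).factorial : ℚ) ^ 2)⁻¹) =
      ∏ n ∈ Finset.Icc 1 (q - 1), (1 / ((n : ℚ) * ((q : ℚ) - n))) := by
    have h2 : (((q - 1).factorial : ℕ) : ℚ) = ∏ n ∈ Finset.Icc 1 (q - 1), ((q : ℚ) - n) := by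
      rw [K1.fac_prod]
      refine Finset.prod_nbij' (fun s => q - s) (fun m => q - m) ?_ ?_ ?_ ?_ ?_
      · intro s hs; simp only [Finset.mem_Icc] at *; omega
      · intro s hs; simp only [Finset.mem_Icc] at *; omega
      · intro s hs; simp only [Finset.mem_Icc] at *; omega
      · intro s hs; simp only [Finset.mem_Icc] at *; omega
      · intro s hs
        simp only [Finset.mem_Icc] at hs
        rw [Nat.cast_sub (by omega)]
        ring
    rw [pow_two]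
    nth_rewrite 1 [K1.fac_prod]
    rw [h2, ← Finset.prod_mul_distrib, ← Finset.prod_inv_distrib]
    exact Finset.prod_congr rfl fun n _ => by rw [one_div]
  rw [h1, map_prod, ← Finset.prod_mul_distrib]
  refine Finset.prod_congr rfl fun n hn => ?_
  have hn' := Finset.mem_Icc.mp hn
  have hn0 : (n : ℚ) ≠ 0 := by
    have := hn'.1
    positivity
  have hn1 : (q : ℚ) - n ≠ 0 := by
    have h : (n : ℚ) < q := by
      have : n < q := by omega
      exact_mod_cast this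
    linarith
  rw [map_add, map_one, map_mul, aeval_X, aeval_C]
  have e : ∀ x : ℚ, (algebraMap ℚ R2) x = cc x := fun _ => rfl
  rw [e]
  have h3 : cc (1 / ((n : ℚ) * ((q : ℚ) - n))) * ((n : R2) * ((q : R2) - (n : R2))) = 1 := by
    have h4 : ((n : R2) * ((q : R2) - (n : R2))) = cc ((n : ℚ) * ((q : ℚ) - n)) := by
      rw [map_mul, map_sub, map_natCast, map_natCast]
    rw [h4, ← map_mul, one_div, inv_mul_cancel₀ (mul_ne_zero hn0 hn1), map_one]
  rw [mul_add, h3, UU, map_natCast]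

theorem Om_exp (h11 : 11 ≤ q) : ∃ c : ℚ, ∃ O : R2, VG q 1 c ∧ RJ q 0 7 O ∧
    aeval (UU q) (Om q) = 1 + cc (om q) * UU q + cc c * UU q ^ 2 + UU q ^ 3 * O := by
  obtain ⟨o0, o1, o2, o3⟩ := Om_coeff (q := q) (by omega)
  have e : ∀ x : ℚ, (algebraMap ℚ R2) x = cc x := fun _ => rfl
  have h1 := divX_mul_X_add (Om q)
  have h2 := divX_mul_X_add (Om q).divX
  have h3 := divX_mul_X_add (Om q).divX.divX
  rw [coeff_divX] at h2
  rw [coeff_divX, coeff_divX] at h3
  norm_num at h2 h3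
  rw [o0] at h1
  rw [o1] at h2
  refine ⟨(Om q).coeff 2, aeval (UU q) (Om q).divX.divX.divX, o2, ?_, ?_⟩
  · have h4 : PG q 0 (Om q).divX.divX.divX := fun n => by
      rw [coeff_divX, coeff_divX, coeff_divX]
      exact o3 _
    have h5 : PG q 0 ((Om q).divX.divX.divX.comp (X * (X + C (q : ℚ)))) :=
      PG.comp h4 (by
        have := PG.mul (PG.X (q := q)) (PG.add PG.X (PG.C (VG.nat (q := q) q)))
        simpa using this)
    have h6 := RJ.poly h5 7
    convert h6 using 1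
    funext i
    have h7 : ∀ (P : ℚ[X]) (F : R2) (i : Fin 2), (aeval F P) i = aeval (F i) P := by
      intro P F i
      exact (Polynomial.aeval_algHom_apply (Pi.evalAlgHom ℚ (fun _ : Fin 2 => PowerSeries ℚ) i) F P).symm
    rw [h7, aeval_comp]
    congr 1
    rw [map_mul, map_add, aeval_X, aeval_C]
    rfl
  · have h5 := congrArg (aeval (UU q)) h1
    have h6 := congrArg (aeval (UU q)) h2
    have h7 := congrArg (aeval (UU q)) h3
    simp only [map_add, map_mul, aeval_X, aeval_C, e, map_one] at h5 h6 h7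
    linear_combination -h5 - h6 * UU q - h7 * UU q ^ 2

theorem UU_int (i : Fin 2) : SG q 2 (UU q i) := by
  have h1 : SG q 1 ((uu q + cc (q : ℚ)) i) := SG.add (uu_int i) (SGC VG.self_prime)
  exact SG.mul (uu_int i) h1

theorem hh_struct (h11 : 11 ≤ q) (hc : Cls q L r 2) : ∃ H' h2 : R2, RJ q 0 7 H' ∧ RJ q 2 7 h2 ∧
    hh q L r = UU q * H' ∧
    hh q L r = UU q + cc (om q) * UU q ^ 2 + cc q * UU q * psi q L r + h2 := by
  have h1 := hc.hr
  have hL := hc.hL
  have hU := hc.hU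
  have h2 : Odd q := hq.out.odd_of_ne_two (by omega)
  obtain ⟨y1, hy1, e1⟩ := prod_shift_R2 h1 (uu q) (RJ.u 7) (fun m => vv q (m : ℤ))
    (fun m hm => RJ.v (ndvd (Finset.mem_Icc.mp hm).1 (by
      have := (Finset.mem_Icc.mp hm).2
      omega)))
    (fun m hm => by
      have h := vv_mul (q := q) (ndvd (Finset.mem_Icc.mp hm).1 (by
        have := (Finset.mem_Icc.mp hm).2
        omega) : ¬ (q : ℤ) ∣ (m : ℤ))
      rw [← h]
      congr 2)
  obtain ⟨y2, hy2, e2⟩ := prod_shift_R2 (show L - r - q < q by omega) (-uu q - (q : R2))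
    ((RJ.u 7).neg.sub (by
      have := RJ.c (VG.nat (q := q) q) 7
      rwa [map_natCast] at this)) (fun m => -vv q (-((m : ℤ) + q)))
    (fun m hm => (RJ.v (ndvd_add (Finset.mem_Icc.mp hm).1 (by
      have := (Finset.mem_Icc.mp hm).2
      omega))).neg)
    (fun m hm => by
      have h := vv_mul (q := q) (ndvd_add (Finset.mem_Icc.mp hm).1 (by
        have := (Finset.mem_Icc.mp hm).2
        omega) : ¬ (q : ℤ) ∣ (-((m : ℤ) + q)))
      have h3 : cc (((-((m : ℤ) + q) : ℤ) : ℚ)) = -((m : R2) + (q : R2)) := by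
        push_cast
        rw [map_neg, map_add, map_natCast, map_natCast]
      rw [h3] at h
      rw [← h]
      ring)
  rw [W_refl h2] at e2
  have hW := W_Om (q := q)
  obtain ⟨c, O, hcv, hO, hOm⟩ := Om_exp (q := q) h11
  have hP := hh_prod hc h2
  rw [e1, e2] at hP
  set f := cc ((((q - 1).factorial : ℚ) ^ 2)⁻¹)
  set W := ∏ n ∈ Finset.Icc 1 (q - 1), ((n : R2) + uu q) with hWdef
  set P1 := ∑ m ∈ Finset.Icc 1 r, vv q (m : ℤ)
  set P2 := ∑ m ∈ Finset.Icc 1 (L - r - q), (-vv q (-((m : ℤ) + q))) with hP2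
  have hpsi : psi q L r = P1 + P2 := by
    rw [hP2, Finset.sum_neg_distrib, ← sub_eq_add_neg]
    rfl
  rw [hOm] at hW
  set U := UU q with hU'
  set om' := cc (om q)
  have hq : cc (q : ℚ) = (q : R2) := map_natCast cc q
  have rq : ∀ {F : R2} {J : ℤ}, 0 ≤ J → RJ q J 7 F → RJ q (J + 1) 7 ((q : R2) * F) := by
    intro F J hJ hF
    rw [← hq]
    exact RJ.ccmul VG.self_prime hJ hF
  have rom : ∀ {F : R2} {J : ℤ}, 0 ≤ J → RJ q J 7 F → RJ q (J + 1) 7 (om' * F) := by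
    intro F J hJ hF
    exact RJ.ccmul (om_VG (by omega)) hJ hF
  have rU : RJ q 0 7 U := RJ.U 7
  have r0 : ∀ {F G : R2}, RJ q 0 7 F → RJ q 0 7 G → RJ q 0 7 (F * G) := by
    intro F G hF hG
    exact RJ.mul0 le_rfl hF hG
  have r2 : ∀ {F : R2}, RJ q 0 7 F → RJ q 0 7 (F ^ 2) := by
    intro F hF
    rw [pow_two]
    exact r0 hF hF
  have rf : RJ q 0 7 f := RJ.c K1.VG_fac 7
  have r1 : RJ q 0 7 1 := RJ.one 7
  have rqq : RJ q 0 7 (q : R2) := by
    rw [← hq]
    exact RJ.c (VG.nat q) 7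
  have rW : RJ q 0 7 W := by
    refine (S7 q).prod_mem fun n _ => ?_
    refine (S7 q).add_mem ?_ (RJ.u 7)
    rw [← map_natCast cc]
    exact RJ.c (VG.nat n) 7
  have rP1 : RJ q 0 7 P1 := RJ.sum _ _ fun m hm => RJ.v (ndvd (Finset.mem_Icc.mp hm).1 (by
      have := (Finset.mem_Icc.mp hm).2
      omega))
  have rP2 : RJ q 0 7 P2 := RJ.sum _ _ fun m hm => (RJ.v (ndvd_add (Finset.mem_Icc.mp hm).1 (by
      have := (Finset.mem_Icc.mp hm).2
      omega))).neg
  have rE : RJ q 0 7 (f * W ^ 2) := r0 rf (r2 rW)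
  have rY : RJ q 0 7 (f * (W * (1 + (q : R2) * P1) * y2 + W * (1 + (q : R2) * P2) * y1 +
      (q : R2) ^ 2 * (y1 * y2))) := by
    refine r0 rf (RJ.add (RJ.add ?_ ?_) ?_)
    · exact r0 (r0 rW (r1.add (r0 rqq rP1))) hy2
    · exact r0 (r0 rW (r1.add (r0 rqq rP2))) hy1
    · exact r0 (r2 rqq) (r0 hy1 hy2)
  have hH : hh q L r = U * (f * W ^ 2 * (1 + (q : R2) * (P1 + P2) + (q : R2) ^ 2 * (P1 * P2)) +
      (q : R2) ^ 2 * (f * (W * (1 + (q : R2) * P1) * y2 + W * (1 + (q : R2) * P2) * y1 +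
      (q : R2) ^ 2 * (y1 * y2)))) := by
    rw [hP]
    ring
  refine ⟨_, (cc c * U ^ 3 + U ^ 4 * O) * (1 + (q : R2) * (P1 + P2)) +
    (q : R2) * (om' * (U ^ 2 * (P1 + P2))) + (q : R2) * ((q : R2) * (U * (f * W ^ 2 * (P1 * P2) +
      f * (W * (1 + (q : R2) * P1) * y2 + W * (1 + (q : R2) * P2) * y1 +
      (q : R2) ^ 2 * (y1 * y2))))), ?_, ?_, hH, ?_⟩
  · refine RJ.add (r0 rE (RJ.add (RJ.add r1 (r0 rqq (rP1.add rP2))) ?_)) ?_
    · exact r0 (r2 rqq) (r0 rP1 rP2)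
    · exact r0 (r2 rqq) rY
  · refine RJ.add (RJ.add ?_ ?_) ?_
    · refine RJ.mul0 (by norm_num) (RJ.add ?_ ?_) (r1.add (r0 rqq (rP1.add rP2)))
      · refine RJ.of_SG _ fun i => ?_
        have h := SG.mul (SGC hcv) ((UU_int (q := q) i).pow 3)
        exact h.mono (by norm_num)
      · have h : RJ q 8 8 (U ^ 4) := RJ.of_SG _ fun i => by
          have h := (UU_int (q := q) i).pow 4
          exact h.mono (by norm_num)
        exact RJ.mul' h hO (by norm_num) (by norm_num) (by norm_num) (by norm_num)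
    · have h := rq (by norm_num) (rom le_rfl (r0 (r2 rU) (rP1.add rP2)))
      simpa using h
    · have h := rq (by norm_num) (rq le_rfl (r0 rU ((r0 rE (r0 rP1 rP2)).add rY)))
      simpa using h
  · rw [hH, hpsi, hW, hq]
    ring

/-! ### the kernel -/

theorem UU_apply (i : Fin 2) : UU q i = uz q (i : ℕ) * (uz q (i : ℕ) + PowerSeries.C (q : ℚ)) := rfl

theorem Eh_exp (h11 : 11 ≤ q) : ∃ a b : ℚ, ∃ w : Fin 2 → PowerSeries ℚ, VG q 1 a ∧ VG q 1 b ∧
    (∀ i, SG q 0 (w i)) ∧ ∀ i : Fin 2, Eh q i = PowerSeries.C a + PowerSeries.C b * UU q i +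
      UU q i ^ 2 * w i := by
  have hhalf : VG q 0 (1 / 2 : ℚ) := by
    have : ¬ q ∣ 2 := fun h => by have := Nat.le_of_dvd (by norm_num) h; omega
    have := VG_nat_inv (q := q) this
    simpa using this
  have hqpos : 0 < q := hq.out.pos
  set W : ℕ → Fin 2 → PowerSeries ℚ := fun m i =>
    (PowerSeries.C (m : ℚ) + PowerSeries.C (1 : ℚ) * uz q i)⁻¹ *
      (PowerSeries.C ((q - m : ℕ) : ℚ) + PowerSeries.C (1 : ℚ) * uz q i)⁻¹ with hW
  have hnd : ∀ m ∈ Finset.Icc 1 (q - 1), ¬ q ∣ m := by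
    intro m hm h
    have hm' := Finset.mem_Icc.mp hm
    have := Nat.le_of_dvd (by omega) h
    omega
  have hW0 : ∀ m ∈ Finset.Icc 1 (q - 1), ∀ i, SG q 0 (W m i) := by
    intro m hm i
    have hm' := Finset.mem_Icc.mp hm
    have h1 := (Z5.R2.lin_inv (hnd m hm)).int i
    have h2 := (Z5.R2.lin_inv (hnd (q - m) (by rw [Finset.mem_Icc]; omega))).int i
    exact SG.int_mul h1 h2
  have hWe : ∀ m ∈ Finset.Icc 1 (q - 1), ∀ i : Fin 2, W m i =
      PowerSeries.C (((m : ℚ)⁻¹) ^ 1 * (((q : ℚ) - m)⁻¹) ^ 1) -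
      PowerSeries.C (((m : ℚ)⁻¹) ^ 2 * (((q : ℚ) - m)⁻¹) ^ 2) * UU q i +
      UU q i ^ 2 * (PowerSeries.C (((m : ℚ)⁻¹) ^ 2 * (((q : ℚ) - m)⁻¹) ^ 2) * W m i) := by
    intro m hm i
    have hm' := Finset.mem_Icc.mp hm
    have e1 := PowerSeries.inv_mul_cancel _ (lin_cc_ne (q := q) (m := m) hm'.1 hm'.2 i)
    have e2 := PowerSeries.inv_mul_cancel _ (lin_cc_ne (q := q) (m := q - m) (by omega) (by omega) i)
    have hm0 : (m : ℚ) ≠ 0 := by
      have := hm'.1
      positivity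
    have hm1 : ((q - m : ℕ) : ℚ) = (q : ℚ) - m := by
      rw [Nat.cast_sub (by omega)]
    have hm2 : (q : ℚ) - m ≠ 0 := by
      rw [← hm1]
      have : q - m ≠ 0 := by omega
      exact_mod_cast this
    rw [hm1] at e2
    have e3 : W m i * (PowerSeries.C ((m : ℚ) * ((q : ℚ) - m)) + UU q i) = 1 := by
      rw [hW, UU_apply]
      beta_reduce
      rw [hm1, map_mul, map_sub]
      rw [map_sub] at e2
      simp only [map_one, one_mul] at e1 e2 ⊢
      have e4 := congrArg₂ (· * ·) e1 e2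
      simp only [mul_one] at e4
      rw [← e4]
      ring
    have e5 : PowerSeries.C ((m : ℚ)⁻¹ * ((q : ℚ) - m)⁻¹) * PowerSeries.C ((m : ℚ) * ((q : ℚ) - m)) =
        1 := by
      rw [← map_mul, ← map_one PowerSeries.C]
      congr 1
      field_simp
    simp only [← mul_pow, map_pow, pow_one]
    set x := PowerSeries.C ((m : ℚ)⁻¹ * ((q : ℚ) - m)⁻¹)
    set y := PowerSeries.C ((m : ℚ) * ((q : ℚ) - m))
    linear_combination (x - x ^ 2 * UU q i) * e3 - (W m i) * (1 - x * UU q i) * e5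
  have hsum : ∀ i : Fin 2, ∑ m ∈ Finset.Icc 1 (q - 1), W m i =
      PowerSeries.C (∑ m ∈ Finset.Icc 1 (q - 1), ((m : ℚ)⁻¹) ^ 1 * (((q : ℚ) - m)⁻¹) ^ 1) -
      PowerSeries.C (∑ m ∈ Finset.Icc 1 (q - 1), ((m : ℚ)⁻¹) ^ 2 * (((q : ℚ) - m)⁻¹) ^ 2) * UU q i +
      UU q i ^ 2 * ∑ m ∈ Finset.Icc 1 (q - 1),
        (PowerSeries.C (((m : ℚ)⁻¹) ^ 2 * (((q : ℚ) - m)⁻¹) ^ 2) * W m i) := by
    intro i
    rw [Finset.sum_congr rfl fun m hm => hWe m hm i, Finset.sum_add_distrib, Finset.sum_sub_distrib,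
      ← Finset.sum_mul, ← Finset.mul_sum, map_sum, map_sum]
  refine ⟨1 / 2 * ∑ m ∈ Finset.Icc 1 (q - 1), ((m : ℚ)⁻¹) ^ 1 * (((q : ℚ) - m)⁻¹) ^ 1,
    -(1 / 2 * ∑ m ∈ Finset.Icc 1 (q - 1), ((m : ℚ)⁻¹) ^ 2 * (((q : ℚ) - m)⁻¹) ^ 2),
    fun i => PowerSeries.C (1 / 2) * ∑ m ∈ Finset.Icc 1 (q - 1),
        (PowerSeries.C (((m : ℚ)⁻¹) ^ 2 * (((q : ℚ) - m)⁻¹) ^ 2) * W m i), ?_, ?_, ?_, ?_⟩
  · exact VG.int_mul hhalf (POm.VG_mixed 1 1 (by omega) (by omega))
  · exact (VG.int_mul hhalf (POm.VG_mixed 2 2 (by omega) (by omega))).neg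
  · intro i
    refine SG.int_mul (SG.C hhalf) (SG.sum _ _ fun m hm => ?_)
    have hm' := Finset.mem_Icc.mp hm
    have h1 : VG q 0 (((m : ℚ)⁻¹) ^ 2 * (((q : ℚ) - m)⁻¹) ^ 2) := by
      have h2 : VG q 0 (((m : ℚ)⁻¹) ^ 2) := (POm.VG_inv_nat hm'.1 (by omega)).pow_zero 2
      have h3 : VG q 0 ((((q : ℚ) - m)⁻¹) ^ 2) := (POm.VG_inv_sub hm'.1 (by omega)).pow_zero 2
      exact h2.mul_int h3
    exact SG.int_mul (SG.C h1) (hW0 m hm i)
  · intro i
    rw [Eh]
    have h1 := hsum i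
    rw [hW] at h1
    beta_reduce at h1
    rw [h1, map_neg, map_mul, map_mul]
    ring

/-- the kernel at the two poles -/
noncomputable def kk (q L r : ℕ) (ξ : ℚ) : Fin 2 → PowerSeries ℚ := fun i =>
  PowerSeries.rescale (q : ℚ) (kerP L ξ (r + q * (i : ℕ)))

theorem psi_eq {r' : ℕ} (hL : L = r + q + r') (hr : r < q) (hr' : r' < q) (i : Fin 2) :
    ∑ m ∈ Icc 1 r, (PowerSeries.C (m : ℚ) + PowerSeries.C (-1 : ℚ) * uz q i)⁻¹ +
      ∑ m ∈ Icc 1 r', (PowerSeries.C ((q + m : ℕ) : ℚ) + PowerSeries.C (1 : ℚ) * uz q i)⁻¹ =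
    psi q L r i := by
  have e : L - r - q = r' := by omega
  rw [psi, e, Pi.sub_apply, Finset.sum_apply, Finset.sum_apply, sub_eq_add_neg,
    ← Finset.sum_neg_distrib]
  congr 1
  · refine Finset.sum_congr rfl fun m hm => ?_
    rw [vv]
    congr 1
    simp only [map_neg, map_one, uu, uz, Int.cast_natCast]
    ring
  · refine Finset.sum_congr rfl fun m hm => ?_
    have hm' := Finset.mem_Icc.mp hm
    have h1 : (cc (((-((m : ℤ) + q) : ℤ) : ℚ)) - uu q) * vv q (-((m : ℤ) + q)) = 1 :=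
      vv_mul (ndvd_add hm'.1 (by omega))
    have h2 := congrFun h1 i
    simp only [Pi.mul_apply, Pi.sub_apply, Pi.one_apply, cc_apply] at h2
    symm
    have hne : PowerSeries.constantCoeff
        (PowerSeries.C ((q + m : ℕ) : ℚ) + PowerSeries.C (1 : ℚ) * uz q i) ≠ 0 := by
      intro h0
      have h3 := congrArg (PowerSeries.constantCoeff) h2
      rw [map_mul, map_sub, map_one] at h3
      have h4 : PowerSeries.constantCoeff (PowerSeries.C (((-((m : ℤ) + q) : ℤ) : ℚ))) -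
          PowerSeries.constantCoeff (uu q i) = 0 := by
        have h5 : uu q i = uz q i := rfl
        rw [h5, ← neg_eq_zero, ← h0]
        simp only [map_add, map_mul, PowerSeries.constantCoeff_C]
        push_cast
        ring
      rw [h4, zero_mul] at h3
      exact zero_ne_one h3
    rw [PowerSeries.eq_inv_iff_mul_eq_one hne, ← h2]
    have h5 : uu q i = uz q i := rfl
    rw [h5]
    push_cast
    simp only [map_neg, map_add, map_one, map_natCast]
    ring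

theorem ker2 (h11 : 11 ≤ q) (hc : Cls q L r 2) (hξ : VG q 0 ξ) : ∃ P B : Fin 2 → PowerSeries ℚ,
    RJ q 2 7 P ∧ RJ q 0 7 B ∧ ∀ i, SG q 5 (kk q L r ξ i + (psi q L r i + P i -
      PowerSeries.C (2 * ξ) * UU q i ^ 2) + (-PowerSeries.C (q : ℚ)⁻¹ + B i) * sgm i) := by
  have hr := hc.hr
  have hL' := hc.hL
  have hU' := hc.hU
  obtain ⟨r', hr'⟩ : ∃ r', L = r + q + r' := ⟨L - (r + q), by omega⟩
  obtain ⟨a, b, w, ha, hb, hw, hE⟩ := Eh_exp (q := q) h11
  have hq0 : (q : ℚ) ≠ 0 := by exact_mod_cast hq.out.ne_zero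
  have hqi : VG q (-1) ((q : ℚ)⁻¹) := by
    have := VG.zpow_self (q := q) (-1)
    simpa using this
  have hU := RJ.U (q := q) 7
  have hq' : cc (q : ℚ) = (q : R2) := map_natCast cc q
  have h2ξ : VG q 0 (2 * ξ) := by
    have := (VG.nat (q := q) 2).mul hξ
    simpa using this
  have h2q : VG q 0 (2 * ((q : ℚ)⁻¹ * a)) := by
    have := (VG.nat (q := q) 2).mul (hqi.mul ha)
    simpa using this
  have h2q' : VG q 0 (2 * ((q : ℚ)⁻¹ * b)) := by
    have := (VG.nat (q := q) 2).mul (hqi.mul hb)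
    simpa using this
  have hqq : VG q 2 ((q : ℚ) ^ 2) := VG.pow_self 2
  refine ⟨cc (q * a) + cc (q * b) * UU q - cc (2 * ξ * q ^ 2) * UU q,
    -(cc (2 * ((q : ℚ)⁻¹ * a)) * UU q) - cc (2 * ((q : ℚ)⁻¹ * b)) * (UU q * UU q) -
      cc (2 * ξ) * (cc 2 * (UU q * UU q) + cc ((q : ℚ) ^ 2) * UU q), ?_, ?_, fun i => ?_⟩
  · have e1 : VG q 2 ((q : ℚ) * a) := VG.self_prime.mul ha
    have e2 : VG q 2 ((q : ℚ) * b) := VG.self_prime.mul hb
    have e3 : VG q 2 (2 * ξ * (q : ℚ) ^ 2) := VG.int_mul h2ξ hqq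
    refine ((RJ.c e1 7).add (RJ.mul0 (by norm_num) (RJ.c e2 7) hU)).sub
      (RJ.mul0 (by norm_num) (RJ.c e3 7) hU)
  · have hUU := RJ.mul0 le_rfl hU hU
    have e2 : VG q 0 (2 : ℚ) := by simpa using VG.nat (q := q) 2
    refine (((RJ.mul0 le_rfl (RJ.c h2q 7) hU).neg).sub (RJ.mul0 le_rfl (RJ.c h2q' 7) hUU)).sub
      (RJ.mul0 le_rfl (RJ.c h2ξ 7) ((RJ.mul0 le_rfl (RJ.c e2 7) hUU).add
        (RJ.mul0 le_rfl (RJ.c (hqq.mono (by norm_num)) 7) hU)))
  · have hk : SG q 5 (kk q L r ξ i - (-GG2 q r r' i +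
        PowerSeries.C (2 * ξ * (q : ℚ) ^ 4) * PowerSeries.X ^ 4)) :=
      SG_of_coeff fun n hn => ker_eq hr' i n hn
    have hX1 : SG q 1 (PowerSeries.C (1 - 2 * ((i : ℕ) : ℚ)) *
        (PowerSeries.C (q : ℚ) + 2 * uz q i)) := by
      have h1 : VG q 0 (1 - 2 * ((i : ℕ) : ℚ)) := by
        have := VG.int (q := q) (1 - 2 * ((i : ℕ) : ℤ))
        push_cast at this
        exact this
      exact SG.int_mul (SG.C h1) ((SG.C VG.self_prime).add (SG.int_mul SG.two (uz_SG i)))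
    have hrem := SG.mul (SG.mul hX1 ((UU_int (q := q) i).pow 2)) (hw i)
    have h := SG.sub hk (hrem.mono (show (5 : ℤ) ≤ _ by norm_num))
    convert h using 1
    have hpsi := psi_eq hr' hr (by omega) i
    have hchi := chi_lin (q := q) i
    have heps := eps_sq (q := q) i
    have hsq := U_sg_sq (q := q) i
    rw [GG2, E_eq, hpsi]
    have hUz : aeval (uz q (i : ℕ)) (Up q) = UU q i := aeval_Up (i : ℕ)
    rw [hUz] at heps hsq
    have hchi' : PowerSeries.C (1 - 2 * ((i : ℕ) : ℚ)) * (PowerSeries.C (q : ℚ) + 2 * uz q i) =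
        PowerSeries.C (q : ℚ) - 2 * PowerSeries.C ((q : ℚ)⁻¹) * UU q i * sg2 (i : ℕ) := by
      rw [hchi, map_mul, hUz, aeval_C]
      have e : ∀ x : ℚ, (algebraMap ℚ (PowerSeries ℚ)) x = PowerSeries.C x := fun _ => rfl
      rw [e, map_mul, map_neg, map_ofNat]
      ring
    have hX4 : PowerSeries.C (2 * ξ * (q : ℚ) ^ 4) * PowerSeries.X ^ 4 = PowerSeries.C (2 * ξ) *
        (UU q i ^ 2 + PowerSeries.C (q : ℚ) ^ 2 * UU q i + (2 * UU q i ^ 2 +
          PowerSeries.C (q : ℚ) ^ 2 * UU q i) * sg2 (i : ℕ)) := by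
      have e1 : PowerSeries.C (2 * ξ * (q : ℚ) ^ 4) * PowerSeries.X ^ 4 =
        PowerSeries.C (2 * ξ) * ((PowerSeries.C (q : ℚ) * PowerSeries.X) ^ 2) ^ 2 := by
        rw [map_mul, map_pow]
        ring
      rw [e1, heps]
      linear_combination (PowerSeries.C (2 * ξ) * UU q i) * hsq
    rw [hX4, hE]
    simp only [Pi.add_apply, Pi.sub_apply, Pi.mul_apply, Pi.neg_apply, cc_apply, sgm]
    simp only [map_mul, map_pow, map_ofNat]
    linear_combination (-(PowerSeries.C a + PowerSeries.C b * UU q i)) * hchi'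

end K2

open K2

set_option linter.unusedSectionVars false
set_option linter.unusedVariables false

variable {q L r : ℕ} {ξ : ℚ} [hq : Fact q.Prime]

theorem k2_col1 (h11 : 11 ≤ q) (hc : Cls q L r 2) (hξ : VG q 0 ξ) :
    Adm2 q 1 (fun i => sc q L ξ r i (col1 q L 1)) := by
  obtain ⟨H', h2, rH', rh2, e1, e2⟩ := hh_struct (q := q) (L := L) (r := r) h11 hc
  have hq' : cc (q : ℚ) = (q : K2.R2) := map_natCast cc q
  have hU := RJ.U (q := q) 7
  have h1 : RJ q 1 7 (-(cc (om q) * UU q ^ 2 + cc q * UU q * psi q L r + h2)) := by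
    refine RJ.neg (RJ.add (RJ.add ?_ ?_) (rh2.mono (by norm_num) le_rfl))
    · have h := RJ.ccmul (om_VG (q := q) (by omega)) le_rfl (RJ.mul0 le_rfl hU hU)
      rw [← pow_two] at h
      simpa using h
    · have h := RJ.ccmul (VG.self_prime (q := q)) le_rfl (RJ.mul0 le_rfl hU (psi_RJ hc))
      rw [mul_assoc]
      simpa using h
  have h3 := adm2_of (q := q) (J := 1) (h1.mono le_rfl (by norm_num))
    (hU.mono (by norm_num) (by norm_num))
  convert h3 using 1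
  funext i
  have heps := eps_sq (q := q) i
  have hUz : aeval (uz q (i : ℕ)) (Up q) = UU q i := aeval_Up (i : ℕ)
  rw [hUz] at heps
  have hH : PowerSeries.rescale (q : ℚ) (hser L (r + q * (i : ℕ)) (Hp q L)) = hh q L r i := rfl
  have e3 := congrFun e2 i
  have e4 : sc q L ξ r (i : ℕ) (col1 q L 1) = -hh q L r i +
      (PowerSeries.C (q : ℚ) * PowerSeries.X) ^ 2 := by
    rw [sc, tvec, col1, ← hH]
    simp only [one_mul, hser_zero, mul_zero, add_zero, map_add, map_mul, map_pow,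
      PowerSeries.rescale_X]
    have h5 : hser L (r + q * (i : ℕ)) (-Hp q L) = -hser L (r + q * (i : ℕ)) (Hp q L) := by
      simp only [hser, map_neg]
    have h6 : hser L (r + q * (i : ℕ)) (1 : ℚ[X]) = 1 := by
      simp only [hser, map_one]
    rw [h5, h6, map_neg, map_one]
    ring
  rw [e4, heps, e3]
  simp only [Pi.add_apply, Pi.mul_apply, Pi.neg_apply, Pi.pow_apply, cc_apply, sgm]
  ring

theorem k2_col2 (h11 : 11 ≤ q) (hc : Cls q L r 2) (hξ : VG q 0 ξ) :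
    Adm2 q 2 (fun i => sc q L ξ r i (col2 q L 1)) := by
  obtain ⟨H', h2, rH', rh2, e1, e2⟩ := hh_struct (q := q) (L := L) (r := r) h11 hc
  obtain ⟨P, B, rP, rB, hK⟩ := ker2 (q := q) (L := L) (r := r) (ξ := ξ) h11 hc hξ
  have hq' : cc (q : ℚ) = (q : K2.R2) := map_natCast cc q
  have hU := RJ.U (q := q) 7
  have hq0 : (q : ℚ) ≠ 0 := by exact_mod_cast hq.out.ne_zero
  have rpsi := psi_RJ hc
  set U := UU q
  set H := hh q L r with hHdef
  set ψ := psi q L r
  set om' := cc (om q)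
  have rq : ∀ {F : K2.R2} {J : ℤ}, 0 ≤ J → RJ q J 7 F → RJ q (J + 1) 7 (cc (q : ℚ) * F) := by
    intro F J hJ hF
    exact RJ.ccmul VG.self_prime hJ hF
  have rom : ∀ {F : K2.R2} {J : ℤ}, 0 ≤ J → RJ q J 7 F → RJ q (J + 1) 7 (om' * F) := by
    intro F J hJ hF
    exact RJ.ccmul (om_VG (by omega)) hJ hF
  have r0 : ∀ {F G : K2.R2}, RJ q 0 7 F → RJ q 0 7 G → RJ q 0 7 (F * G) := by
    intro F G hF hG
    exact RJ.mul0 le_rfl hF hG
  have r2 : ∀ {F : K2.R2}, RJ q 0 7 F → RJ q 0 7 (F ^ 2) := by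
    intro F hF
    rw [pow_two]
    exact r0 hF hF
  have hr2 : ∀ {F : K2.R2} {J : ℤ}, 0 ≤ J → RJ q J 7 F → RJ q 0 7 F := by
    intro F J hJ hF
    exact hF.mono hJ le_rfl
  have rH : RJ q 0 7 H := by rw [e1]; exact r0 hU rH'
  have h2ξ : VG q 0 (2 * ξ) := by
    have := (VG.nat (q := q) 2).mul hξ
    simpa using this
  have hA : RJ q 2 7 (-h2 + (cc q * (om' * (U ^ 2 * ψ)) + cc q * (om' * (U ^ 2 * ψ))) +
      cc q * (cc q * (U * ψ ^ 2)) + cc q * (h2 * ψ) + om' * (om' * U ^ 3) + om' * (h2 * U) +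
      cc q * (P * H) - cc (2 * ξ) * (cc q * (U ^ 3) * H')) := by
    have t1 : RJ q 2 7 (cc q * (om' * (U ^ 2 * ψ))) := by
      have h := rq (by norm_num) (rom le_rfl (r0 (r2 hU) rpsi))
      simpa using h
    have t2 : RJ q 2 7 (cc q * (cc q * (U * ψ ^ 2))) := by
      have h := rq (by norm_num) (rq le_rfl (r0 hU (r2 rpsi)))
      simpa using h
    have t3 : RJ q 2 7 (cc q * (h2 * ψ)) :=
      (rq (by norm_num) (RJ.mul0 (by norm_num) rh2 rpsi)).mono (by norm_num) le_rfl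
    have t4 : RJ q 2 7 (om' * (om' * U ^ 3)) := by
      have h3 : RJ q 0 7 (U ^ 3) := by
        have := r0 (r2 hU) hU
        rwa [← pow_succ] at this
      have h := rom (by norm_num) (rom le_rfl h3)
      simpa using h
    have t5 : RJ q 2 7 (om' * (h2 * U)) :=
      (rom (by norm_num) (RJ.mul0 (by norm_num) rh2 hU)).mono (by norm_num) le_rfl
    have t6 : RJ q 2 7 (cc q * (P * H)) :=
      (rq (by norm_num) (RJ.mul0 (by norm_num) rP rH)).mono (by norm_num) le_rfl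
    have t7 : RJ q 2 7 (cc (2 * ξ) * (cc q * (U ^ 3) * H')) := by
      have h3 : RJ q 2 7 (cc q * (U ^ 3)) := RJ.of_SG _ fun i => by
        have h := SG.mul (SGC (VG.self_prime (q := q))) ((UU_int (q := q) i).pow 3)
        exact h.mono (by norm_num)
      have h4 := RJ.mul' (RJ.c h2ξ 7) (RJ.mul0 (by norm_num) h3 rH') (k := 2) (m := 7)
        (by norm_num) (by norm_num) (by norm_num) (by norm_num)
      exact h4
    exact ((((((rh2.neg.add (t1.add t1)).add t2).add t3).add t4).add t5).add t6).sub t7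
  have hB : RJ q 1 7 (-(om' * U ^ 2 + cc q * (U * ψ) + h2) + cc q * (H * B) + om' * (U * H)) := by
    have t1 : RJ q 1 7 (om' * U ^ 2) := by
      have h := rom le_rfl (r2 hU)
      simpa using h
    have t2 : RJ q 1 7 (cc q * (U * ψ)) := by
      have h := rq le_rfl (r0 hU rpsi)
      simpa using h
    have t3 : RJ q 1 7 (cc q * (H * B)) := by
      have h := rq le_rfl (r0 rH rB)
      simpa using h
    have t4 : RJ q 1 7 (om' * (U * H)) := by
      have h := rom le_rfl (r0 hU rH)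
      simpa using h
    exact (((t1.add t2).add (rh2.mono (by norm_num) le_rfl)).neg.add t3).add t4
  have h3 := adm2_of (q := q) (J := 2) (hA.mono le_rfl (by norm_num))
    (hB.mono (by norm_num) (by norm_num))
  refine Adm2.congr h3 fun i => ?_
  have hH'i : SG q 0 (H' i) := rH'.toSG (by norm_num) i
  have herr := SG.mul (SG.mul (SG.mul (SG.C (VG.self_prime (q := q))) (UU_int (q := q) i)) hH'i) (hK i)
  have h := (herr.mono (show (5 + 2 : ℤ) ≤ _ by norm_num)).neg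
  convert h using 1
  have heps := eps_sq (q := q) i
  have hUz : aeval (uz q (i : ℕ)) (Up q) = U i := aeval_Up (i : ℕ)
  rw [hUz] at heps
  have hH : PowerSeries.rescale (q : ℚ) (hser L (r + q * (i : ℕ)) (Hp q L)) = H i := rfl
  have hk : PowerSeries.rescale (q : ℚ) (kerP L ξ (r + q * (i : ℕ))) = kk q L r ξ i := rfl
  have rC : ∀ x : ℚ, PowerSeries.rescale (q : ℚ) (PowerSeries.C x) = PowerSeries.C x := by
    intro x
    ext n
    rw [PowerSeries.coeff_rescale, PowerSeries.coeff_C]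
    split_ifs with h
    · rw [h]; simp
    · simp
  have e4 : sc q L ξ r (i : ℕ) (col2 q L 1) = -H i - PowerSeries.C (q : ℚ) * kk q L r ξ i * H i +
      (PowerSeries.C (q : ℚ) * PowerSeries.X) ^ 2 * (1 + PowerSeries.C (om q) * H i) := by
    rw [sc, tvec, col2]
    have h5 : hser L (r + q * (i : ℕ)) (-(1 * Hp q L)) = -hser L (r + q * (i : ℕ)) (Hp q L) := by
      simp only [hser, map_neg, one_mul]
    have h6 : hser L (r + q * (i : ℕ)) (-(C (q : ℚ) * (1 * Hp q L))) =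
        -(PowerSeries.C (q : ℚ) * hser L (r + q * (i : ℕ)) (Hp q L)) := by
      rw [one_mul, ← hser_C_mul]
      simp only [hser, map_neg]
    have h7 : hser L (r + q * (i : ℕ)) (1 * (1 + C (om q) * Hp q L)) =
        1 + PowerSeries.C (om q) * hser L (r + q * (i : ℕ)) (Hp q L) := by
      rw [one_mul, ← hser_C_mul, hser_add]
      simp only [hser, map_one]
    rw [h5, h6, h7]
    simp only [map_add, map_mul, map_pow, map_neg, map_one, PowerSeries.rescale_X, rC]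
    rw [hH, hk]
    ring
  have e3 := congrFun e2 i
  have e5 := congrFun e1 i
  have hqq1 : PowerSeries.C (q : ℚ) * PowerSeries.C ((q : ℚ)⁻¹) = 1 := by
    rw [← map_mul, mul_inv_cancel₀ hq0, map_one]
  rw [e4, heps]
  simp only [Pi.add_apply, Pi.sub_apply, Pi.mul_apply, Pi.neg_apply, Pi.pow_apply, cc_apply,
    sgm, om'] at e3 e5 ⊢
  linear_combination (-1 + PowerSeries.C (om q) * U i + PowerSeries.C (q : ℚ) * ψ i -
    sg2 (i : ℕ)) * e3 - PowerSeries.C (q : ℚ) * (kk q L r ξ i + ψ i + P i +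
    (-PowerSeries.C ((q : ℚ)⁻¹) + B i) * sg2 (i : ℕ)) * e5 - H i * sg2 (i : ℕ) * hqq1

end Pool.Agent.Z5
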