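import Pool.Agent.Z5.RangeA
import Pool.Agent.Z5.PK2
import Pool.Agent.Z5.PK2R
import Pool.Agent.Z5.PK2H

/-!
# Primes `3 p < q < 6 p`
-/

open Finset Polynomial

namespace Pool.Agent.Z5

variable {q L r K : ℕ} {ξ : ℚ} [hq : Fact q.Prime]

/-- the new `T`-columns at a class with two poles -/
theorem newT_k2 (h11 : 11 ≤ q) (hc : Cls q L r 2) (hξ : VG q 0 ξ) (a d : ℕ) :
    Adm2 q (levT q a d) (fun i => sc q L ξ r i (newT q L a d)) := by
  unfold newT levT
  split_ifs with h h'
  · exact k2_reg h11 hc hξ _ (PG_X_pow d) (PG_zero' 0) (PG_zero' 0)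
  · rw [← csm_col2]
    exact k2_mul _ (PG_X_pow _) (k2_col2 h11 hc hξ)
  · rw [← csm_col1]
    exact k2_mul _ (PG_X_pow _) (k2_col1 h11 hc hξ)

theorem newC_k2 (h11 : 11 ≤ q) (hc : Cls q L r 2) (hξ : VG q 0 ξ) (a b m : ℕ)
    (y : (Fin a ⊕ Fin b) ⊕ Fin m) :
    Adm2 q (levC q a b m y) (fun i => sc q L ξ r i (newC q L a b m y)) := by
  rcases y with (i | i) | d
  · exact k2_reg h11 hc hξ _ (PG_zero' 0) (PG_X_pow _) (PG_zero' 0)
  · exact k2_reg h11 hc hξ _ (PG_zero' 0) (PG_zero' 0) (PG_X_pow _)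
  · exact newT_k2 h11 hc hξ a d

/-- a class with one pole, new columns -/
theorem newC_minor1 (h11 : 11 ≤ q) (hξ : VG q 0 ξ) (h : ℕ) (hL : L + 1 = 2 * h)
    (hc : Cls q L r 1) (hr : r < (L - r) % q) (a b m : ℕ)
    (f : {u : Fin h // cl q L u = r} × Fin 6 → (Fin a ⊕ Fin b) ⊕ Fin m) :
    VG q (∑ x, levC q a b m (f x)) ((dmat L ξ h (newC q L a b m)).submatrix
      (fun x : {u : Fin h // cl q L u = r} × Fin 6 => (x.1.1, x.2)) f).det := by
  obtain ⟨e, he⟩ := minor_eq (ξ := ξ) h hL hc hr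
  refine he _ (newC q L a b m) f _ ?_
  have h1 := k1_bound (q := q) (L := L) (r := r) (ξ := ξ) (fun y => newC q L a b m (f (e y)))
    (fun y => levC q a b m (f (e y))) (fun y => newC_k1 h11 hc hξ a b m _)
  rwa [Equiv.sum_comp e (fun x => levC q a b m (f x))] at h1

/-- a class with two poles, new columns -/
theorem newC_minor2 (h11 : 11 ≤ q) (hξ : VG q 0 ξ) (h : ℕ) (hL : L + 1 = 2 * h)
    (hc : Cls q L r 2) (hr : r < (L - r) % q) (a b m : ℕ)
    (f : {u : Fin h // cl q L u = r} × Fin 6 → (Fin a ⊕ Fin b) ⊕ Fin m) :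
    VG q (-6 + ∑ x, levC q a b m (f x)) ((dmat L ξ h (newC q L a b m)).submatrix
      (fun x : {u : Fin h // cl q L u = r} × Fin 6 => (x.1.1, x.2)) f).det := by
  obtain ⟨e, he⟩ := minor_eq (ξ := ξ) h hL hc hr
  refine he _ (newC q L a b m) f _ ?_
  have h1 := k2_bound (q := q) (L := L) (r := r) (ξ := ξ) (fun y => newC q L a b m (f (e y)))
    (fun y => levC q a b m (f (e y))) (fun y => newC_k2 h11 hc hξ a b m _)
  rwa [Equiv.sum_comp e (fun x => levC q a b m (f x))] at h1

/-- the self-paired class is unique -/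
theorem self_unique (h2 : q ≠ 2) {r s : ℕ} (hr : r < q) (hs : s < q) (hrL : r ≤ L) (hsL : s ≤ L)
    (h1 : r = (L - r) % q) (h3 : s = (L - s) % q) : r = s := by
  have hr2 : 2 * r ≡ L [MOD q] := by
    have : r + r ≡ r + (L - r) [MOD q] := Nat.ModEq.add_left r (by
      rw [Nat.ModEq, ← h1, Nat.mod_eq_of_lt hr])
    rw [show r + (L - r) = L by omega] at this
    rw [two_mul]; exact this
  have hs2 : 2 * s ≡ L [MOD q] := by
    have : s + s ≡ s + (L - s) [MOD q] := Nat.ModEq.add_left s (by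
      rw [Nat.ModEq, ← h3, Nat.mod_eq_of_lt hs])
    rw [show s + (L - s) = L by omega] at this
    rw [two_mul]; exact this
  have h4 : 2 * r ≡ 2 * s [MOD q] := hr2.trans hs2.symm
  have h5 : Nat.Coprime q 2 := (Nat.coprime_primes hq.out Nat.prime_two).2 h2
  have h6 := Nat.ModEq.cancel_left_of_coprime h5 h4
  rwa [Nat.ModEq, Nat.mod_eq_of_lt hr, Nat.mod_eq_of_lt hs] at h6

/-- the new minor for the self-paired class and for empty classes -/
theorem newC_minor_self (h11 : 11 ≤ q) (hξ : VG q 0 ξ) (h : ℕ) (hL : L + 1 = 2 * h)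
    (hLq : L < q ^ 2) (a b m : ℕ)
    (f : {u : Fin h // cl q L u = r} × Fin 6 → (Fin a ⊕ Fin b) ⊕ Fin m) :
    VG q (-(48 * (Fintype.card {u : Fin h // cl q L u = r} : ℤ)) + ∑ x, levC q a b m (f x))
      ((dmat L ξ h (newC q L a b m)).submatrix
      (fun x : {u : Fin h // cl q L u = r} × Fin 6 => (x.1.1, x.2)) f).det :=
  self_bound h hL hLq hξ (newC q L a b m) (levC q a b m) (levC_le a b m)
    (fun y => newC_PG h11 a b m y) f

theorem minor_empty {h : ℕ} {κ : Type*} (A : Matrix (Fin h × Fin 6) κ ℚ) (J : κ → ℤ) {E : ℤ}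
    (hE : E ≤ 0) (he : IsEmpty {u : Fin h // cl q L u = r})
    (f : {u : Fin h // cl q L u = r} × Fin 6 → κ) :
    VG q (E + ∑ x, J (f x)) (A.submatrix
      (fun x : {u : Fin h // cl q L u = r} × Fin 6 => (x.1.1, x.2)) f).det := by
  rw [Matrix.det_isEmpty, Finset.univ_eq_empty, Finset.sum_empty, add_zero]
  exact VG.one.mono hE

variable {p : ℕ} (eq : Fin (3 * p) × Fin 6 ≃ (Fin (5 * p) ⊕ Fin (5 * p)) ⊕ Fin (8 * p))

theorem rangeB (h11 : 11 ≤ q) (hξ : VG q 0 ξ) (h : 3 * p < q) (h' : q < 6 * p) :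
    VG q (-3 * (6 * p - q) + (8 * p - q) + max 0 (5 * p - q) - 100 : ℤ) (DM p ξ eq) := by
  have h2 : q ≠ 2 := by omega
  obtain ⟨L, hLdef⟩ : ∃ L, L = 6 * p - 1 := ⟨_, rfl⟩
  have hL : L + 1 = 2 * (3 * p) := by omega
  have hLq : L < q ^ 2 := by
    have : 6 * p < q ^ 2 := by
      have h3 : 6 * p < 2 * q := by omega
      have h4 : 2 * q ≤ q ^ 2 := by rw [sq]; exact Nat.mul_le_mul_right _ (by omega)
      omega
    omega
  have hdiv : (L + 1) / q = 1 := by
    rw [Nat.div_eq_iff (by omega)]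
    omega
  have hdiv' : L / q = 1 := by
    rw [Nat.div_eq_iff (by omega)]
    omega
  have hmod : (L + 1) % q = 6 * p - q := by
    have := Nat.div_add_mod (L + 1) q
    rw [hdiv] at this
    omega
  rw [DM, ← hLdef]
  refine VG_of_new h11 eq le_rfl (by omega) ?_
  obtain ⟨e, he0, he1, he2, hele⟩ : ∃ e : ℕ → ℤ, e 0 = 0 ∧ e 1 = 0 ∧ e 2 = -6 ∧ ∀ K, e K ≤ 0 :=
    ⟨fun K => if K = 2 then -6 else 0, rfl, rfl, rfl, fun K => by
      show (if K = 2 then (-6 : ℤ) else 0) ≤ 0
      split_ifs <;> norm_num⟩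
  let E : ℕ → ℤ := fun r => if r = (L - r) % q then
    -(48 * (Fintype.card {u : Fin (3 * p) // cl q L u = r} : ℤ)) else e ((L - r) / q + 1)
  have hE0 : ∀ r, E r ≤ 0 := by
    intro r
    simp only [E]
    split_ifs
    · have : (0 : ℤ) ≤ (Fintype.card {u : Fin (3 * p) // cl q L u = r} : ℤ) := Int.natCast_nonneg _
      linarith
    · exact hele _
  have hI1 : (univ : Finset (Fin (3 * p))).image (fun u : Fin (3 * p) => cl q L (u : ℕ)) ⊆
      (range q).filter fun r => r ≤ (L - r) % q ∧ r ≤ L := image_cl (3 * p) hL h2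
  have key := VG_laplace_six (q := q) (dmat L ξ (3 * p) (newC q L (5 * p) (5 * p) (8 * p))) eq
    (fun u : Fin (3 * p) => cl q L (u : ℕ)) E (levC q (5 * p) (5 * p) (8 * p)) ?_
  · refine key.mono ?_
    rw [sum_levC _ _ _ (by omega)]
    have h6 := sum_cls (q := q) (3 * p) hL h2 e he0
    rw [hdiv, hmod] at h6
    generalize (univ : Finset (Fin (3 * p))).image (fun u : Fin (3 * p) => cl q L (u : ℕ)) = I at *
    -- split the sum
    have h3 : ∑ r ∈ I, E r = ∑ r ∈ I.filter (fun r => r ≠ (L - r) % q), E r +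
        ∑ r ∈ I.filter (fun r => ¬ r ≠ (L - r) % q), E r :=
      (Finset.sum_filter_add_sum_filter_not I (fun r => r ≠ (L - r) % q) E).symm
    -- the self-paired class
    have h4 : -96 ≤ ∑ r ∈ I.filter (fun r => ¬ r ≠ (L - r) % q), E r := by
      have hcard : (I.filter (fun r => ¬ r ≠ (L - r) % q)).card ≤ 1 := by
        rw [Finset.card_le_one]
        intro r hr s hs
        rw [mem_filter, not_not] at hr hs
        have hr' := mem_filter.1 (hI1 hr.1)
        have hs' := mem_filter.1 (hI1 hs.1)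
        exact self_unique h2 (mem_range.1 hr'.1) (mem_range.1 hs'.1) hr'.2.2 hs'.2.2 hr.2 hs.2
      have hge : ∀ r ∈ I.filter (fun r => ¬ r ≠ (L - r) % q), -96 ≤ E r := by
        intro r hr
        rw [mem_filter, not_not] at hr
        have hr' := mem_filter.1 (hI1 hr.1)
        simp only [E]
        rw [if_pos hr.2]
        have h8 := card_self (q := q) (3 * p) hL h2 (mem_range.1 hr'.1) hr.2
        rw [hdiv'] at h8
        have : (Fintype.card {u : Fin (3 * p) // cl q L u = r} : ℤ) ≤ 2 := by exact_mod_cast h8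
        linarith
      have h9 := Finset.card_nsmul_le_sum _ E (-96) hge
      rw [nsmul_eq_mul] at h9
      have h10 : ((I.filter (fun r => ¬ r ≠ (L - r) % q)).card : ℤ) ≤ 1 := by exact_mod_cast hcard
      linarith
    have h5 : ∑ r ∈ I.filter (fun r => r ≠ (L - r) % q), E r =
        ∑ r ∈ I.filter (fun r => r ≠ (L - r) % q), e ((L - r) / q + 1) := by
      refine Finset.sum_congr rfl fun r hr => ?_
      simp only [E, if_neg (mem_filter.1 hr).2]
    have h7 : (((6 * p - q : ℕ) : ℤ)) = 6 * p - q := by omega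
    have h8 := hele (if 2 ∣ (L / q + 1) then L / q + 1 else L / q)
    rw [h7, he1, show (1 + 1 : ℕ) = 2 from rfl, he2, mul_zero, add_zero] at h6
    have h9 := le_max_right (0 : ℤ) (((8 * p : ℕ) : ℤ) - q)
    have h13 : ((max 0 (5 * p - q) : ℕ) : ℤ) = max 0 (((5 * p : ℕ) : ℤ) - q) := by omega
    rw [h3, h5, h13]
    push_cast at h9 ⊢
    linarith
  · intro r f hf
    rcases isEmpty_or_nonempty {u : Fin (3 * p) // cl q L u = r} with he | hne
    · exact minor_empty _ _ (hE0 r) he f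
    · obtain ⟨u, hu⟩ := hne
      have hrI := hI1 (mem_image_of_mem (fun u : Fin (3 * p) => cl q L (u : ℕ)) (mem_univ u))
      simp only [hu] at hrI
      have hr' := mem_filter.1 hrI
      have hrq := mem_range.1 hr'.1
      simp only [E]
      split_ifs with h8
      · exact newC_minor_self h11 hξ (3 * p) hL hLq _ _ _ f
      · have hc := cls_exists (q := q) hrq hr'.2.2
        have h10 : (L - r) / q + 1 = 1 ∨ (L - r) / q + 1 = 2 := by
          have h11' : (L - r) / q ≤ L / q := Nat.div_le_div_right (by omega)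
          rw [hdiv'] at h11'
          generalize (L - r) / q = k at *
          omega
        rcases h10 with h10 | h10
        · rw [h10] at hc ⊢
          rw [he1, zero_add]
          exact newC_minor1 h11 hξ (3 * p) hL hc (by omega) _ _ _ f
        · rw [h10] at hc ⊢
          rw [he2]
          exact newC_minor2 h11 hξ (3 * p) hL hc (by omega) _ _ _ f

end Pool.Agent.Z5
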