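import Pool.Agent.Z5.PDefs

/-!
# The polynomial `H`
-/

open Finset Polynomial

namespace Pool.Agent.Z5

variable {q L : ℕ} [hq : Fact q.Prime]

namespace PH

theorem VG_inv_coprime {n : ℕ} (h : ¬ q ∣ n) : VG q 0 ((n : ℚ))⁻¹ := by
  refine Or.inr ?_
  rw [padicValRat.inv, padicValRat.of_nat, padicValNat.eq_zero_of_not_dvd h]
  simp

theorem not_dvd_lead (h2 : q ≠ 2) : ¬ q ∣ 4 ^ q * (q - 1).factorial ^ 2 := by
  intro h
  rcases (hq.out.dvd_mul).1 h with h | h
  · have h3 := hq.out.dvd_of_dvd_pow h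
    have h4 : q ∣ 2 ^ 2 := by simpa using h3
    exact h2 ((Nat.prime_dvd_prime_iff_eq hq.out Nat.prime_two).1 (hq.out.dvd_of_dvd_pow h4))
  · have h3 := hq.out.dvd_of_dvd_pow h
    rw [hq.out.dvd_factorial] at h3
    have := hq.out.one_lt
    omega

omit hq in
theorem PG_prod_X_sub [Fact q.Prime] {ι : Type*} (s : Finset ι) (a : ι → ℚ)
    (h : ∀ i ∈ s, VG q 0 (a i)) : PG q 0 (∏ i ∈ s, (X - C (a i) : ℚ[X])) := by
  classical
  induction s using Finset.induction_on with
  | empty =>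
    intro n
    rw [prod_empty, Polynomial.coeff_one]
    split_ifs
    · exact VG.one
    · exact VG.zero _
  | insert b s hb ih =>
    have ih' := ih fun i hi => h i (mem_insert_of_mem hi)
    intro n
    rw [prod_insert hb, sub_mul, coeff_sub, coeff_C_mul]
    refine VG.sub ?_ ((h b (mem_insert_self _ _)).int_mul (ih' n))
    rcases n with _ | n
    · simp [VG.zero]
    · rw [coeff_X_mul]
      exact ih' n

omit hq in
theorem Hp_leadingCoeff :
    (Hp q L).leadingCoeff = ((4 : ℚ) ^ q * ((q - 1).factorial : ℚ) ^ 2)⁻¹ := by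
  unfold Hp
  rw [leadingCoeff_mul, leadingCoeff_C]
  have : (∏ s ∈ range q, (X - C (((L : ℚ) - 2 * s) ^ 2) : ℚ[X])).Monic :=
    monic_prod_of_monic _ _ fun s _ => monic_X_sub_C _
  rw [this.leadingCoeff, mul_one]

end PH

open PH

theorem Hp_PG (h2 : q ≠ 2) : PG q 0 (Hp q L) := by
  intro n
  unfold Hp
  rw [coeff_C_mul]
  refine VG.int_mul ?_ (PG_prod_X_sub _ _ (fun s _ => ?_) n)
  · have := VG_inv_coprime (not_dvd_lead h2)
    push_cast at this
    exact this
  · have := VG.int (q := q) (((L : ℤ) - 2 * s) ^ 2)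
    push_cast at this
    exact this

omit hq in
theorem Hp_natDegree : (Hp q L).natDegree = q := by
  unfold Hp
  have h0 : ((4 : ℚ) ^ q * ((q - 1).factorial : ℚ) ^ 2)⁻¹ ≠ 0 := by
    have : ((q - 1).factorial : ℚ) ≠ 0 := by exact_mod_cast (Nat.factorial_pos _).ne'
    positivity
  rw [natDegree_C_mul h0, natDegree_finsetProd_X_sub_C_eq_card, card_range]

theorem Hp_lead (h2 : q ≠ 2) :
    VG q 0 (Hp q L).leadingCoeff ∧ VG q 0 ((Hp q L).leadingCoeff)⁻¹ ∧
      (Hp q L).leadingCoeff ≠ 0 := by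
  have h0 : ((q - 1).factorial : ℚ) ≠ 0 := by exact_mod_cast (Nat.factorial_pos _).ne'
  rw [Hp_leadingCoeff]
  refine ⟨?_, ?_, by positivity⟩
  · have := VG_inv_coprime (not_dvd_lead h2)
    push_cast at this
    exact this
  · rw [inv_inv]
    have := VG.nat (q := q) (4 ^ q * (q - 1).factorial ^ 2)
    push_cast at this
    exact this

omit hq in
/-- value of `H` at the pole `t = -u` -/
theorem Hp_hser {u : ℕ} (hu : u ≤ L) : hser L u (Hp q L) =
    PowerSeries.C (((q - 1).factorial : ℚ) ^ 2)⁻¹ *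
      ∏ s ∈ range q, ((PowerSeries.C ((s : ℚ) - u) + PowerSeries.X) *
        (PowerSeries.C ((L : ℚ) - u - s) + PowerSeries.X)) := by
  unfold hser Hp
  rw [map_mul, map_prod, aeval_C]
  have h1 : ∀ s ∈ range q, (aeval (xser L u ^ 2)) (X - C (((L : ℚ) - 2 * s) ^ 2)) =
      PowerSeries.C (4 : ℚ) * ((PowerSeries.C ((s : ℚ) - u) + PowerSeries.X) *
        (PowerSeries.C ((L : ℚ) - u - s) + PowerSeries.X)) := by
    intro s _
    rw [map_sub, aeval_X, aeval_C]
    unfold xser
    have e0 : (PowerSeries.C (2 : ℚ) : PowerSeries ℚ) = 2 := map_ofNat _ 2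
    have e1 : algebraMap ℚ (PowerSeries ℚ) (((L : ℚ) - 2 * s) ^ 2) =
        (PowerSeries.C (L : ℚ) - 2 * PowerSeries.C (s : ℚ)) ^ 2 := by
      rw [PowerSeries.algebraMap_apply, Algebra.algebraMap_self, RingHom.id_apply, map_pow, map_sub,
        map_mul, e0]
    have e2 : (PowerSeries.C (4 : ℚ) : PowerSeries ℚ) = 4 := map_ofNat _ 4
    rw [e1, e2, map_sub, map_sub, map_sub, map_sub, map_mul, e0]
    ring
  rw [Finset.prod_congr rfl h1, Finset.prod_mul_distrib, Finset.prod_const, card_range, ← mul_assoc]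
  congr 1
  rw [PowerSeries.algebraMap_apply, ← map_pow, ← map_mul]
  congr 1
  have h0 : ((q - 1).factorial : ℚ) ≠ 0 := by exact_mod_cast (Nat.factorial_pos _).ne'
  rw [Algebra.algebraMap_self, RingHom.id_apply]
  field_simp

end Pool.Agent.Z5
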