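import Pool.Agent.Z5.PExp
import Pool.Agent.Z5.Multi

/-!
# Classes with three poles: the bound for the minors
-/

open Finset Polynomial

namespace Pool.Agent.Z5

variable {q L r K : ℕ} {ξ : ℚ} [hq : Fact q.Prime]

namespace PK3

omit hq in
theorem SG_mono {k l : ℤ} {f : PowerSeries ℚ} (hf : SG q k f) (h : l ≤ k) : SG q l f :=
  fun n hn => (hf n hn).mono h

omit hq in
theorem SG_C {k : ℤ} {x : ℚ} (hx : VG q k x) : SG q k (PowerSeries.C x) := by
  intro n _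
  rw [PowerSeries.coeff_C]
  split_ifs
  · exact hx
  · exact VG.zero _

theorem SG_one : SG q 0 (1 : PowerSeries ℚ) := by
  have h := SG_C (q := q) (k := 0) (x := 1) VG.one
  rwa [map_one] at h

theorem SG_X : SG q 0 (PowerSeries.X : PowerSeries ℚ) := by
  intro n _
  rw [PowerSeries.coeff_X]
  split_ifs
  · exact VG.one
  · exact VG.zero _

theorem SG_pow {f : PowerSeries ℚ} (hf : SG q 0 f) (n : ℕ) : SG q 0 (f ^ n) := by
  induction n with
  | zero => rw [pow_zero]; exact SG_one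
  | succ n ih => rw [pow_succ]; exact SG_mono (SG.mul ih hf) (by norm_num)

/-- the tail of the expansion of `A(q f)` -/
noncomputable def tl (q : ℕ) (A : ℚ[X]) (m : ℕ) (f : PowerSeries ℚ) : PowerSeries ℚ :=
  aeval (PowerSeries.C (q : ℚ) * f) A -
    ∑ a ∈ range m, PowerSeries.C (A.coeff a * (q : ℚ) ^ a) * f ^ a

theorem tl_SG {f : PowerSeries ℚ} (hf : SG q 0 f) {k : ℤ} (A : ℚ[X]) (hA : PG q k A) (m : ℕ) :
    SG q (k + m) (tl q A m f) := by
  have h1 : aeval (PowerSeries.C (q : ℚ) * f) A =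
      ∑ a ∈ range (m + (A.natDegree + 1)), PowerSeries.C (A.coeff a * (q : ℚ) ^ a) * f ^ a := by
    rw [Polynomial.aeval_eq_sum_range' (n := m + (A.natDegree + 1)) (by omega)]
    refine sum_congr rfl fun a _ => ?_
    rw [mul_pow, ← map_pow, PowerSeries.smul_eq_C_mul, map_mul, mul_assoc]
  have h2 : tl q A m f = ∑ a ∈ range (A.natDegree + 1),
      PowerSeries.C (A.coeff (m + a) * (q : ℚ) ^ (m + a)) * f ^ (m + a) := by
    rw [tl, h1, sum_range_add]
    ring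
  rw [h2]
  refine SG.sum _ _ fun a _ => ?_
  have h3 : VG q (k + ((m + a : ℕ) : ℤ)) (A.coeff (m + a) * (q : ℚ) ^ (m + a)) :=
    (hA (m + a)).mul (VG.pow_self (m + a))
  refine SG_mono (SG.mul (SG_C h3) (SG_pow hf (m + a))) ?_
  push_cast
  omega

omit hq in
theorem coeff_split (G f : PowerSeries ℚ) (A : ℚ[X]) (m k : ℕ) :
    PowerSeries.coeff k (G * aeval (PowerSeries.C (q : ℚ) * f) A) =
      ∑ a : Fin m, PowerSeries.coeff k (f ^ (a : ℕ) * G) * (A.coeff a * (q : ℚ) ^ (a : ℕ)) +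
        PowerSeries.coeff k (G * tl q A m f) := by
  have h1 : aeval (PowerSeries.C (q : ℚ) * f) A =
      ∑ a ∈ range m, PowerSeries.C (A.coeff a * (q : ℚ) ^ a) * f ^ a + tl q A m f := by
    rw [tl]
    ring
  rw [h1, mul_add, mul_sum, map_add, map_sum, ← Fin.sum_univ_eq_sum_range (fun a =>
    PowerSeries.coeff k (G * (PowerSeries.C (A.coeff a * (q : ℚ) ^ a) * f ^ a)))]
  congr 1
  refine sum_congr rfl fun a _ => ?_
  rw [show G * (PowerSeries.C (A.coeff a * (q : ℚ) ^ (a : ℕ)) * f ^ (a : ℕ)) =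
    PowerSeries.C (A.coeff a * (q : ℚ) ^ (a : ℕ)) * (f ^ (a : ℕ) * G) by ring,
    PowerSeries.coeff_C_mul, mul_comm]

/-- the generators -/
abbrev Gn : Type := (Fin 6 ⊕ (Fin 7 ⊕ Fin 4)) ⊕ (Fin 3 × Fin 6)

/-- their weights -/
def gw : Gn → ℤ := Sum.elim (Sum.elim (fun a => ((a : ℕ) : ℤ))
  (Sum.elim (fun a => ((a : ℕ) : ℤ) - 1) (fun a => ((a : ℕ) : ℤ) + 2))) (fun _ => 6)

/-- the generators as series -/
noncomputable def gser (W : ℕ → PowerSeries ℚ) (i : ℕ) : Fin 6 ⊕ (Fin 7 ⊕ Fin 4) → PowerSeries ℚ :=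
  Sum.elim (fun a => yv 3 i ^ (a : ℕ) * 1) (Sum.elim (fun a => yv 3 i ^ (a : ℕ) * W i)
    (fun a => yv 3 i ^ (a : ℕ) * PowerSeries.X ^ 2))

/-- the matrix of the generators -/
noncomputable def gmx (W : ℕ → PowerSeries ℚ) : Matrix (Fin 3 × Fin 6) Gn ℚ :=
  Matrix.of fun x => Sum.elim (fun s => PowerSeries.coeff (x.2 : ℕ) (gser W x.1 s))
    (fun y => if x = y then 1 else 0)

/-- the kernel, times `-q` -/
noncomputable def Wk (q L : ℕ) (ξ : ℚ) (r i : ℕ) : PowerSeries ℚ :=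
  -(PowerSeries.C (q : ℚ) * PowerSeries.rescale (q : ℚ) (kerP L ξ (r + q * i)))

theorem Wk_SG (h3 : 3 ≤ q) (hc : Cls q L r 3) (hL : L < q ^ 2) (hξ : VG q 0 ξ) {i : ℕ}
    (hi : i < 3) : SG q 0 (Wk q L ξ r i) := by
  have hq0 : (q : ℚ) ≠ 0 := Nat.cast_ne_zero.mpr hq.out.ne_zero
  have h1 := kerP_sing hc hL hξ hi
  have h2 : SG q 0 (gS 3 i) := gS_int h3 hi
  have e : Wk q L ξ r i = gS 3 i + -(PowerSeries.C (q : ℚ) *
      (PowerSeries.rescale (q : ℚ) (kerP L ξ (r + q * i)) + PowerSeries.C ((q : ℚ)⁻¹) * gS 3 i)) := by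
    rw [Wk, mul_add, ← mul_assoc, ← map_mul, mul_inv_cancel₀ hq0, map_one]
    ring
  rw [e]
  exact SG.add h2 (SG.neg (SG_mono (SG.mul (SG_C VG.self_prime) h1) (by norm_num)))

theorem gmx_VG {W : ℕ → PowerSeries ℚ} (hW : ∀ i < 3, SG q 0 (W i)) (x : Fin 3 × Fin 6) (g : Gn) :
    VG q 0 (gmx W x g) := by
  have hx := x.2.2
  have hi : ((x.1 : ℕ)) < 3 := x.1.2
  have hy : SG q 0 (yv 3 (x.1 : ℕ)) := yv_int _
  rcases g with (a | (a | a)) | y
  · exact SG_mono (SG.mul (SG_pow hy a) SG_one) (by norm_num) _ hx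
  · exact SG_mono (SG.mul (SG_pow hy a) (hW _ hi)) (by norm_num) _ hx
  · exact SG_mono (SG.mul (SG_pow hy a) (SG_pow SG_X 2)) (by norm_num) _ hx
  · change VG q 0 (if x = y then (1 : ℚ) else 0)
    split_ifs
    · exact VG.one
    · exact VG.zero _

theorem weights (f : Fin 3 × Fin 6 → Gn) (hf : Function.Injective f) : 49 ≤ ∑ k, gw (f k) := by
  have h := sum_weight_ge univ f hf.injOn univ (fun _ _ => mem_univ _) gw 6
  have h1 : ∑ g : Gn, max (6 - gw g) 0 = 59 := by decide +kernel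
  have h2 : ((univ : Finset (Fin 3 × Fin 6)).card : ℤ) = 18 := by decide +kernel
  rw [h1, h2] at h
  linarith

/-- every admissible column is a combination of the generators -/
theorem comb (h3 : 3 ≤ q) (hc : Cls q L r 3) (hL : L < q ^ 2) (hξ : VG q 0 ξ) (c : Col) (J : ℤ)
    (h : (J = 0 ∧ PG q 0 c.1 ∧ PG q 0 c.2.1 ∧ PG q 0 c.2.2) ∨
      ∀ i < 3, SG q (6 + J) (sc q L ξ r i c)) :
    ∃ s : Gn → ℚ, (∀ g, VG q (gw g + J) (s g)) ∧ ∀ x : Fin 3 × Fin 6,
      PowerSeries.coeff (x.2 : ℕ) (sc q L ξ r x.1 c) = ∑ g, gmx (Wk q L ξ r) x g * s g := by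
  have hq0 : (q : ℚ) ≠ 0 := Nat.cast_ne_zero.mpr hq.out.ne_zero
  rcases h with ⟨hJ, hA, hB, hC⟩ | h
  · obtain ⟨A, hA1, hA2⟩ := hser_centre (r := r) (L := L) (K := 3) (by norm_num) c.1 hA
    obtain ⟨B, hB1, hB2⟩ := hser_centre (r := r) (L := L) (K := 3) (by norm_num) c.2.1 hB
    obtain ⟨D, hD1, hD2⟩ := hser_centre (r := r) (L := L) (K := 3) (by norm_num) c.2.2 hC
    have hy : ∀ i : ℕ, SG q 0 (yv 3 i) := fun i => yv_int i
    set W := Wk q L ξ r with hWdef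
    have hW : ∀ i < 3, SG q 0 (W i) := fun i hi => Wk_SG h3 hc hL hξ hi
    refine ⟨Sum.elim (Sum.elim (fun a => A.coeff a * (q : ℚ) ^ (a : ℕ))
      (Sum.elim (fun a => -(q : ℚ)⁻¹ * (B.coeff a * (q : ℚ) ^ (a : ℕ)))
        (fun a => (q : ℚ) ^ 2 * (D.coeff a * (q : ℚ) ^ (a : ℕ)))))
      (fun x => PowerSeries.coeff (x.2 : ℕ) (1 * tl q A 6 (yv 3 x.1)) +
        -(q : ℚ)⁻¹ * PowerSeries.coeff (x.2 : ℕ) (W x.1 * tl q B 7 (yv 3 x.1)) +
        (q : ℚ) ^ 2 * PowerSeries.coeff (x.2 : ℕ) (PowerSeries.X ^ 2 * tl q D 4 (yv 3 x.1))),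
      ?_, ?_⟩
    · have hinv : VG q (-1) (-(q : ℚ)⁻¹) := by
        have := VG.zpow_self (q := q) (-1)
        rw [zpow_neg_one] at this
        exact this.neg
      have hsq : VG q 2 ((q : ℚ) ^ 2) := VG.pow_self 2
      intro g
      rw [hJ]
      rcases g with (a | (a | a)) | x
      · exact ((hA1 a).mul (VG.pow_self (a : ℕ))).mono (by simp [gw])
      · exact (hinv.mul ((hB1 a).mul (VG.pow_self (a : ℕ)))).mono (by simp only [gw, Sum.elim_inl, Sum.elim_inr]; omega)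
      · exact (hsq.mul ((hD1 a).mul (VG.pow_self (a : ℕ)))).mono (by simp only [gw, Sum.elim_inl, Sum.elim_inr]; omega)
      · have hx := x.2.2
        have hi : ((x.1 : ℕ)) < 3 := x.1.2
        have e1 := SG.mul SG_one (tl_SG (hy x.1) A hA1 6) _ hx
        have e2 := hinv.mul (SG.mul (hW _ hi) (tl_SG (hy x.1) B hB1 7) _ hx)
        have e3 := hsq.mul (SG.mul (SG_pow SG_X 2) (tl_SG (hy x.1) D hD1 4) _ hx)
        change VG q (6 + 0) _
        exact ((e1.mono (by norm_num)).add (e2.mono (by norm_num))).add (e3.mono (by norm_num))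
    · intro x
      have hi : ((x.1 : ℕ)) < 3 := x.1.2
      have hk : PowerSeries.rescale (q : ℚ) (kerP L ξ (r + q * x.1)) =
          PowerSeries.C (-(q : ℚ)⁻¹) * W x.1 := by
        rw [hWdef, Wk, mul_neg, ← mul_assoc, ← map_mul, neg_mul, inv_mul_cancel₀ hq0, map_neg,
          map_one]
        ring
      have hX : PowerSeries.rescale (q : ℚ) ((PowerSeries.X : PowerSeries ℚ) ^ 2) =
          PowerSeries.C ((q : ℚ) ^ 2) * PowerSeries.X ^ 2 := by
        rw [map_pow, PowerSeries.rescale_X, mul_pow, ← map_pow]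
      have hsc : sc q L ξ r x.1 c = 1 * aeval (PowerSeries.C (q : ℚ) * yv 3 x.1) A +
          PowerSeries.C (-(q : ℚ)⁻¹) * (W x.1 * aeval (PowerSeries.C (q : ℚ) * yv 3 x.1) B) +
          PowerSeries.C ((q : ℚ) ^ 2) *
            (PowerSeries.X ^ 2 * aeval (PowerSeries.C (q : ℚ) * yv 3 x.1) D) := by
        rw [sc, tvec, map_add, map_add, map_mul, map_mul, hA2 _ hi, hB2 _ hi, hD2 _ hi, hk, hX]
        ring
      rw [hsc, map_add, map_add, PowerSeries.coeff_C_mul, PowerSeries.coeff_C_mul,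
        coeff_split 1 _ A 6, coeff_split (W x.1) _ B 7, coeff_split (PowerSeries.X ^ 2) _ D 4]
      rw [Fintype.sum_sum_type, Fintype.sum_sum_type, Fintype.sum_sum_type]
      have h4 : ∑ y : Fin 3 × Fin 6, gmx W x (Sum.inr y) *
          (PowerSeries.coeff (y.2 : ℕ) (1 * tl q A 6 (yv 3 y.1)) +
          -(q : ℚ)⁻¹ * PowerSeries.coeff (y.2 : ℕ) (W y.1 * tl q B 7 (yv 3 y.1)) +
          (q : ℚ) ^ 2 * PowerSeries.coeff (y.2 : ℕ) (PowerSeries.X ^ 2 * tl q D 4 (yv 3 y.1))) =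
          (PowerSeries.coeff (x.2 : ℕ) (1 * tl q A 6 (yv 3 x.1)) +
          -(q : ℚ)⁻¹ * PowerSeries.coeff (x.2 : ℕ) (W x.1 * tl q B 7 (yv 3 x.1)) +
          (q : ℚ) ^ 2 * PowerSeries.coeff (x.2 : ℕ) (PowerSeries.X ^ 2 * tl q D 4 (yv 3 x.1))) := by
        rw [Finset.sum_eq_single x]
        · simp [gmx]
        · intro y _ hyx
          simp [gmx, Ne.symm hyx]
        · intro hx'
          exact absurd (mem_univ x) hx'
      simp only [Sum.elim_inl, Sum.elim_inr]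
      rw [h4]
      simp only [gmx, gser, Matrix.of_apply, Sum.elim_inl, Sum.elim_inr]
      simp only [mul_left_comm _ (-(q : ℚ)⁻¹) _, mul_left_comm _ ((q : ℚ) ^ 2) _, ← mul_sum]
      ring
  · refine ⟨Sum.elim (fun _ => 0) (fun x => PowerSeries.coeff (x.2 : ℕ) (sc q L ξ r x.1 c)),
      ?_, ?_⟩
    · intro g
      rcases g with g | x
      · exact VG.zero _
      · exact h _ x.1.2 _ x.2.2
    · intro x
      rw [Fintype.sum_sum_type, Finset.sum_eq_single_of_mem x (mem_univ x)]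
      · simp [gmx]
      · intro y _ hyx
        simp [gmx, Ne.symm hyx]

end PK3

open PK3 in
theorem k3_bound (h11 : 11 ≤ q) (hc : Cls q L r 3) (hξ : VG q 0 ξ)
    (c : Fin 3 × Fin 6 → Col) (J : Fin 3 × Fin 6 → ℤ)
    (h : ∀ y, (J y = 0 ∧ PG q 0 (c y).1 ∧ PG q 0 (c y).2.1 ∧ PG q 0 (c y).2.2) ∨
      ∀ i < 3, SG q (6 + J y) (sc q L ξ r i (c y))) :
    VG q (4 + ∑ y, J y) (cmat q L ξ r 3 c).det := by
  have hq0 : (q : ℚ) ≠ 0 := Nat.cast_ne_zero.mpr hq.out.ne_zero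
  have hL : L < q ^ 2 := by
    have h1 := hc.hU
    have h2 := hc.hr
    nlinarith
  choose s hs1 hs2 using fun y => comb (by omega) hc hL hξ (c y) (J y) (h y)
  have h1 : (Matrix.of fun (x y : Fin 3 × Fin 6) =>
      PowerSeries.coeff (x.2 : ℕ) (sc q L ξ r x.1 (c y))) =
        gmx (Wk q L ξ r) * Matrix.of (fun g y => s y g) := by
    ext x y
    rw [Matrix.mul_apply, Matrix.of_apply, hs2 y x]
    rfl
  have h2 : VG q (49 + ∑ y, J y) (gmx (Wk q L ξ r) * Matrix.of (fun g y => s y g)).det := by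
    refine VG_multi _ _ gw J 49 (fun g k => hs1 k g) (fun f hf => ?_)
    refine VG.mono (VG.det_zero _ fun x k => ?_) (by have := weights f hf; omega)
    exact gmx_VG (fun i hi => Wk_SG (by omega) hc hL hξ hi) x (f k)
  rw [← h1, cmat_scale] at h2
  have h3 : VG q (-45) ((q : ℚ) ^ (-45 : ℤ)) := VG.zpow_self (-45)
  have h4 := (h3.mul h2)
  have h5 : (q : ℚ) ^ (-45 : ℤ) * ((q : ℚ) ^ (15 * 3) * (cmat q L ξ r 3 c).det) =
      (cmat q L ξ r 3 c).det := by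
    rw [← mul_assoc, ← zpow_natCast, ← zpow_add₀ hq0]
    norm_num
  rw [h5] at h4
  exact h4.mono (by linarith)

end Pool.Agent.Z5
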