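import Pool.Agent.Z5.PPG
import Pool.Agent.Z5.PH
import Pool.Agent.Z5.POm
import Pool.Agent.Z5.PExp

/-!
# `p`-adic part: the special columns on the classes with three poles
-/

open Finset Polynomial

namespace Pool.Agent.Z5

variable {q L r K : ℕ} {ξ : ℚ} [hq : Fact q.Prime]

namespace K3H

omit hq in
theorem SG_mono {k l : ℤ} {f : PowerSeries ℚ} (hf : SG q k f) (h : l ≤ k) : SG q l f :=
  fun n hn => (hf n hn).mono h

omit hq in
theorem SG_C {k : ℤ} {x : ℚ} (hx : VG q k x) : SG q k (PowerSeries.C x) := by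
  intro n _
  rw [PowerSeries.coeff_C]
  split_ifs
  · exact hx
  · exact VG.zero _

theorem SG_X : SG q 0 (PowerSeries.X : PowerSeries ℚ) := by
  intro n _
  rw [PowerSeries.coeff_X]
  split_ifs
  · exact VG.one
  · exact VG.zero _

theorem SG_rescale {k : ℤ} {f : PowerSeries ℚ} (hf : SG q k f) :
    SG q k (PowerSeries.rescale (q : ℚ) f) := by
  intro n hn
  rw [PowerSeries.coeff_rescale]
  exact VG.int_mul ((VG.pow_self (q := q) n).mono (by positivity)) (hf n hn)

theorem SG_pow {k : ℤ} {f : PowerSeries ℚ} (hf : SG q k f) (n : ℕ) : SG q (n * k) (f ^ n) := by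
  induction n with
  | zero =>
    rw [pow_zero, Nat.cast_zero, zero_mul]
    simpa using SG_C (q := q) (VG.one (q := q))
  | succ n ih =>
    rw [pow_succ]
    exact SG_mono (SG.mul ih hf) (by push_cast; ring_nf; rfl)

theorem SG_xser (u : ℕ) : SG q 0 (xser L u) := by
  unfold xser
  refine SG.add (SG_C ?_) ?_
  · have : ((L : ℚ) - 2 * u) = (((L : ℤ) - 2 * u : ℤ) : ℚ) := by push_cast; rfl
    rw [this]; exact VG.int _
  · have h2 : (2 : PowerSeries ℚ) = PowerSeries.C ((2 : ℤ) : ℚ) := by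
      push_cast; rw [map_ofNat]
    rw [h2]
    simpa using SG.mul (SG_C (VG.int (q := q) 2)) SG_X

theorem SG_hser {k : ℤ} (u : ℕ) {h : ℚ[X]} (hh : PG q k h) : SG q k (hser L u h) := by
  unfold hser
  refine SG.aeval ?_ h hh
  simpa using SG_pow (SG_xser (q := q) (L := L) u) 2

omit hq in
theorem rescale_C (a : ℚ) : PowerSeries.rescale (q : ℚ) (PowerSeries.C a) = PowerSeries.C a := by
  ext n
  rw [PowerSeries.coeff_rescale, PowerSeries.coeff_C]
  rcases n with _ | n
  · simp
  · simp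

omit hq in
theorem rescale_lin (a : ℚ) : PowerSeries.rescale (q : ℚ) (PowerSeries.C a + PowerSeries.X) =
    PowerSeries.C a + PowerSeries.C (q : ℚ) * PowerSeries.X := by
  ext n
  rw [PowerSeries.coeff_rescale, map_add, map_add, PowerSeries.coeff_C_mul, PowerSeries.coeff_X,
    PowerSeries.coeff_C]
  rcases n with _ | _ | n
  · simp
  · simp
  · simp

/-- one linear factor -/
theorem SG_lin {k : ℤ} {n : ℤ} (hk : k ≤ 1) (hn : VG q k (n : ℚ)) :
    SG q k (PowerSeries.C (n : ℚ) + PowerSeries.C (q : ℚ) * PowerSeries.X) := by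
  refine SG.add (SG_C hn) ?_
  refine SG_mono (SG.mul (SG_C (VG.self_prime (q := q))) SG_X) (by omega)

theorem fact_VG : VG q 0 (((q - 1).factorial : ℚ) ^ 2)⁻¹ := by
  have h1 : ¬ (q : ℤ) ∣ (((q - 1).factorial : ℤ) ^ 2) := by
    intro h
    have h2 := Int.Prime.dvd_pow' hq.out h
    have h3 : q ∣ (q - 1).factorial := by exact_mod_cast h2
    have h4 := (Nat.Prime.dvd_factorial hq.out).mp h3
    have := hq.out.pos
    omega
  have := VG_inv_int (q := q) h1
  push_cast at this
  exact this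

/-- `H` is divisible by `q ^ 2` on every class (no other restriction) -/
theorem Hp_SG {i : ℕ} (hr : r < q) (hu : r + q * i ≤ L) :
    SG q 2 (PowerSeries.rescale (q : ℚ) (hser L (r + q * i) (Hp q L))) := by
  classical
  rw [Hp_hser hu, map_mul, map_prod, Finset.prod_congr rfl (fun s _ => map_mul _ _ _),
    Finset.prod_mul_distrib]
  have hC : PowerSeries.rescale (q : ℚ) (PowerSeries.C (((q - 1).factorial : ℚ) ^ 2)⁻¹) =
      PowerSeries.C (((q - 1).factorial : ℚ) ^ 2)⁻¹ := by
    ext n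
    rw [PowerSeries.coeff_rescale, PowerSeries.coeff_C]
    rcases n with _ | n
    · simp
    · simp
  rw [hC]
  have h1 : SG q 1 (∏ s ∈ range q,
      PowerSeries.rescale (q : ℚ) (PowerSeries.C ((s : ℚ) - (r + q * i : ℕ)) + PowerSeries.X)) := by
    have h := SG.prod (q := q) (range q) (fun s => if s = r then 1 else 0)
      (fun s => PowerSeries.rescale (q : ℚ)
        (PowerSeries.C ((s : ℚ) - (r + q * i : ℕ)) + PowerSeries.X)) ?_
    · refine SG_mono h (le_of_eq ?_)
      rw [Finset.sum_ite_eq' (range q) r (fun _ => (1 : ℤ)), if_pos (Finset.mem_range.mpr hr)]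
    · intro s hs
      rw [rescale_lin]
      have e : ((s : ℚ) - (r + q * i : ℕ)) = (((s : ℤ) - (r + q * i) : ℤ) : ℚ) := by
        push_cast; rfl
      rw [e]
      split_ifs with hsr
      · refine SG_lin le_rfl ?_
        have := VG.of_dvd (q := q) (n := (s : ℤ) - (r + q * i)) (k := 1) ⟨-(i : ℤ), by
          rw [hsr]; ring⟩
        simpa using this
      · exact SG_lin (by omega) (VG.int _)
  have h2 : SG q 1 (∏ s ∈ range q,
      PowerSeries.rescale (q : ℚ) (PowerSeries.C ((L : ℚ) - (r + q * i : ℕ) - s) + PowerSeries.X)) := by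
    set s0 : ℕ := (L - (r + q * i)) % q with hs0
    have hs0q : s0 < q := Nat.mod_lt _ hq.out.pos
    have h := SG.prod (q := q) (range q) (fun s => if s = s0 then 1 else 0)
      (fun s => PowerSeries.rescale (q : ℚ)
        (PowerSeries.C ((L : ℚ) - (r + q * i : ℕ) - s) + PowerSeries.X)) ?_
    · refine SG_mono h (le_of_eq ?_)
      rw [Finset.sum_ite_eq' (range q) s0 (fun _ => (1 : ℤ)), if_pos (Finset.mem_range.mpr hs0q)]
    · intro s hs
      rw [rescale_lin]
      have e : ((L : ℚ) - (r + q * i : ℕ) - s) = (((L : ℤ) - (r + q * i) - s : ℤ) : ℚ) := by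
        push_cast; rfl
      rw [e]
      split_ifs with hsr
      · refine SG_lin le_rfl ?_
        have hd : (q : ℤ) ^ 1 ∣ (L : ℤ) - (r + q * i) - s := by
          rw [pow_one, hsr, hs0]
          have h3 : ((L - (r + q * i) : ℕ) : ℤ) = (L : ℤ) - (r + q * i) := by
            push_cast [Nat.cast_sub hu]; ring
          rw [← h3]
          push_cast
          exact Int.dvd_self_sub_emod
        have := VG.of_dvd (q := q) hd
        simpa using this
      · exact SG_lin (by omega) (VG.int _)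
  have := SG.mul (SG_C (fact_VG (q := q))) (SG.mul h1 h2)
  exact SG_mono this (by norm_num)

theorem hser_mul' (u : ℕ) (f g : ℚ[X]) : hser L u (f * g) = hser L u f * hser L u g := by
  unfold hser; rw [_root_.map_mul]

theorem hser_pow' (u : ℕ) (f : ℚ[X]) (n : ℕ) : hser L u (f ^ n) = hser L u f ^ n := by
  unfold hser; rw [map_pow]

omit hq in
theorem rescale_X2 : PowerSeries.rescale (q : ℚ) (PowerSeries.X ^ 2) =
    PowerSeries.C ((q : ℚ) ^ 2) * PowerSeries.X ^ 2 := by
  rw [map_pow, PowerSeries.rescale_X, mul_pow, ← map_pow]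

end K3H

open K3H

theorem k3_col1 (h11 : 11 ≤ q) (hc : Cls q L r 3) (F Q : ℚ[X]) (hQ : PG q 0 Q)
    (hF : ∀ i < 3, SG q 1 (PowerSeries.rescale (q : ℚ) (hser L (r + q * i) F))) {i : ℕ} (hi : i < 3) :
    SG q 7 (sc q L ξ r i (col1 q L (F ^ 5 * Q))) := by
  have hu : r + q * i ≤ L := by
    have := hc.hL
    have h2 : q * i ≤ q * (3 - 1) := Nat.mul_le_mul_left _ (by omega)
    omega
  have e : tvec L ξ (r + q * i) (col1 q L (F ^ 5 * Q)) =
      hser L (r + q * i) F ^ 5 * hser L (r + q * i) Q *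
        (PowerSeries.X ^ 2 + -hser L (r + q * i) (Hp q L)) := by
    unfold tvec col1
    simp only
    have h0 : hser L (r + q * i) (0 : ℚ[X]) = 0 := by unfold hser; rw [map_zero]
    have hn : hser L (r + q * i) (-(F ^ 5 * Q * Hp q L)) = -hser L (r + q * i) (F ^ 5 * Q * Hp q L) := by
      unfold hser; rw [map_neg]
    rw [h0, hn, hser_mul', hser_mul', hser_pow']
    ring
  unfold sc
  rw [e, map_mul, map_mul, map_pow, map_add, map_neg, rescale_X2]
  have hF' := SG_pow (hF i hi) 5
  have hQ' := SG_rescale (SG_hser (q := q) (L := L) (r + q * i) hQ)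
  have hX : SG q 2 (PowerSeries.C ((q : ℚ) ^ 2) * PowerSeries.X ^ 2 : PowerSeries ℚ) :=
    SG_mono (SG.mul (SG_C (VG.pow_self (q := q) 2)) (SG_pow SG_X 2)) (by norm_num)
  have hH := Hp_SG (q := q) (L := L) hc.hr hu
  exact SG_mono (SG.mul (SG.mul hF' hQ') (SG.add hX (SG.neg hH))) (by norm_num)

theorem k3_col2 (h11 : 11 ≤ q) (hc : Cls q L r 3) (hξ : VG q 0 ξ) (F Q : ℚ[X]) (hQ : PG q 0 Q)
    (hF : ∀ i < 3, SG q 1 (PowerSeries.rescale (q : ℚ) (hser L (r + q * i) F))) {i : ℕ} (hi : i < 3) :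
    SG q 8 (sc q L ξ r i (col2 q L (F ^ 6 * Q))) := by
  have hu : r + q * i ≤ L := by
    have := hc.hL
    have h2 : q * i ≤ q * (3 - 1) := Nat.mul_le_mul_left _ (by omega)
    omega
  have hLq : L < q ^ 2 := by
    have h1 := hc.hU
    have h2 := hc.hr
    nlinarith
  have e : tvec L ξ (r + q * i) (col2 q L (F ^ 6 * Q)) =
      hser L (r + q * i) F ^ 6 * hser L (r + q * i) Q *
        (PowerSeries.X ^ 2 * (1 + PowerSeries.C (om q) * hser L (r + q * i) (Hp q L)) +
          (-hser L (r + q * i) (Hp q L) +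
            -(PowerSeries.C (q : ℚ) * hser L (r + q * i) (Hp q L) * kerP L ξ (r + q * i)))) := by
    unfold tvec col2
    simp only
    have hn : ∀ f : ℚ[X], hser L (r + q * i) (-f) = -hser L (r + q * i) f := by
      intro f; unfold hser; rw [map_neg]
    have hC : ∀ a : ℚ, hser L (r + q * i) (C a) = PowerSeries.C a := by
      intro a; unfold hser; rw [Polynomial.aeval_C]; rfl
    have h1 : hser L (r + q * i) (1 + C (om q) * Hp q L) =
        1 + PowerSeries.C (om q) * hser L (r + q * i) (Hp q L) := by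
      rw [← hC, ← hser_mul']; unfold hser; rw [map_add, map_one]
    rw [hn, hn, hser_mul', hser_mul', hser_pow', hser_mul', hser_mul', hser_mul', hser_pow', hC,
      hser_mul', hser_mul', hser_pow', h1]
    ring
  unfold sc
  have hCr : ∀ a : ℚ, PowerSeries.rescale (q : ℚ) (PowerSeries.C a) = PowerSeries.C a := by
    intro a
    ext n
    rw [PowerSeries.coeff_rescale, PowerSeries.coeff_C]
    rcases n with _ | n
    · simp
    · simp
  rw [e, map_mul, map_mul, map_pow, map_add, map_mul, rescale_X2, map_add, map_add, map_neg,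
    map_neg, map_mul, map_mul, map_mul, map_one, hCr, hCr]
  have hF' := SG_pow (hF i hi) 6
  have hQ' := SG_rescale (SG_hser (q := q) (L := L) (r + q * i) hQ)
  have hX : SG q 2 (PowerSeries.C ((q : ℚ) ^ 2) * PowerSeries.X ^ 2 : PowerSeries ℚ) :=
    SG_mono (SG.mul (SG_C (VG.pow_self (q := q) 2)) (SG_pow SG_X 2)) (by norm_num)
  have hH := Hp_SG (q := q) (L := L) hc.hr hu
  have hk : SG q (-1) (PowerSeries.rescale (q : ℚ) (kerP L ξ (r + q * i))) := by
    have h1 := kerP_sing hc hLq hξ hi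
    have h2 : SG q (-1) (PowerSeries.C ((q : ℚ)⁻¹) * gS 3 i) := by
      have h3 : VG q (-1) ((q : ℚ)⁻¹) := by
        have := VG.zpow_self (q := q) (-1)
        simpa using this
      simpa using SG.mul (SG_C h3) (gS_int (q := q) (by omega : 3 ≤ q) hi)
    have h4 := SG.add (SG_mono h1 (by norm_num : (-1 : ℤ) ≤ 0)) (SG.neg h2)
    simpa using h4
  have hom : VG q 0 (om q) := (om_VG (by omega)).mono (by norm_num)
  have hone : SG q 0 (1 : PowerSeries ℚ) := by
    simpa using SG_C (q := q) (VG.one (q := q))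
  have t1 := SG.mul hX (SG.add hone (SG_mono (SG.mul (SG_C hom) hH) (by norm_num)))
  have t2 := SG.mul (SG.mul (SG_C (VG.self_prime (q := q))) hH) hk
  refine SG_mono (SG.mul (SG.mul hF' hQ') (SG.add (SG_mono t1 (by norm_num : (2 : ℤ) ≤ 2 + 0))
    (SG.add (SG.neg hH) (SG.neg (SG_mono t2 (by norm_num : (2 : ℤ) ≤ 1 + 2 + -1)))))) (by norm_num)

/-- the linear factor of a class -/
theorem lin_SG (i : ℕ) :
    SG q 1 (PowerSeries.rescale (q : ℚ) (hser L (r + q * i) (X - C (((L : ℚ) - 2 * r) ^ 2)))) := by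
  have e : PowerSeries.rescale (q : ℚ) (hser L (r + q * i) (X - C (((L : ℚ) - 2 * r) ^ 2))) =
      PowerSeries.C (q : ℚ) * (4 * (PowerSeries.X + -PowerSeries.C (i : ℚ)) *
        (PowerSeries.C ((L : ℚ) - 2 * r) + PowerSeries.C (q : ℚ) *
          (PowerSeries.X + -PowerSeries.C (i : ℚ)))) := by
    have hx : PowerSeries.rescale (q : ℚ) (xser L (r + q * i)) =
        PowerSeries.C ((L : ℚ) - 2 * r) + 2 * (PowerSeries.C (q : ℚ) *
          (PowerSeries.X + -PowerSeries.C (i : ℚ))) := by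
      have h2 : (2 : PowerSeries ℚ) = PowerSeries.C 2 := by rw [map_ofNat]
      have h3 : PowerSeries.C ((L : ℚ) - 2 * (r + q * i : ℕ)) =
          PowerSeries.C ((L : ℚ) - 2 * r) + PowerSeries.C 2 * (PowerSeries.C (q : ℚ) *
            -PowerSeries.C (i : ℚ)) := by
        rw [← map_neg, ← map_mul, ← map_mul, ← map_add]
        congr 1
        push_cast
        ring
      unfold xser
      rw [map_add, map_mul, h2, rescale_C, rescale_C, PowerSeries.rescale_X, h3]
      ring
    unfold hser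
    rw [map_sub, Polynomial.aeval_X, Polynomial.aeval_C, map_sub, map_pow, hx,
      show (algebraMap ℚ (PowerSeries ℚ)) (((L : ℚ) - 2 * r) ^ 2) =
        PowerSeries.C (((L : ℚ) - 2 * r) ^ 2) from rfl, rescale_C, map_pow]
    ring
  rw [e]
  have hi : SG q 0 (PowerSeries.X + -PowerSeries.C (i : ℚ) : PowerSeries ℚ) :=
    SG.add SG_X (SG.neg (SG_C (VG.nat i)))
  have h4 : SG q 0 (4 : PowerSeries ℚ) := by
    have : (4 : PowerSeries ℚ) = PowerSeries.C ((4 : ℕ) : ℚ) := by push_cast; rw [map_ofNat]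
    rw [this]; exact SG_C (VG.nat 4)
  have hL : SG q 0 (PowerSeries.C ((L : ℚ) - 2 * r)) := by
    refine SG_C ?_
    have : ((L : ℚ) - 2 * r) = (((L : ℤ) - 2 * r : ℤ) : ℚ) := by push_cast; rfl
    rw [this]; exact VG.int _
  have hq1 : SG q 1 (PowerSeries.C (q : ℚ)) := SG_C VG.self_prime
  have h5 := SG.mul hq1 hi
  have h6 := SG.mul hq1 (SG.mul (SG.mul h4 hi) (SG.add hL (SG_mono h5 (by norm_num))))
  exact SG_mono h6 (by norm_num)

end Pool.Agent.Z5
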