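import Pool.Agent.Z5.PDefs

/-!
# Replacement and scaling of the columns of the dual matrix
-/

open Finset Polynomial

namespace Pool.Agent.Z5

theorem sum_coeff_smul {n : ℕ} {p : ℚ[X]} (hp : p.degree < n) :
    ∑ i : Fin n, p.coeff i • (X : ℚ[X]) ^ (i : ℕ) = p := by
  rcases eq_or_ne p 0 with rfl | h
  · simp
  rw [← Finset.sum_range (fun i => p.coeff i • (X : ℚ[X]) ^ i)]
  conv_rhs => rw [Polynomial.as_sum_range_C_mul_X_pow' p (n := n)
    ((Polynomial.natDegree_lt_iff_degree_lt h).2 hp)]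
  exact sum_congr rfl fun i _ => by rw [smul_eq_C_mul]

theorem det_colop {L : ℕ} (ξ : ℚ) {h : ℕ} {κ : Type*} [Fintype κ] [DecidableEq κ]
    (eq : Fin h × Fin 6 ≃ κ) (c : κ → Col) (U : Matrix κ κ ℚ) :
    ((dmat L ξ h (fun j => ∑ k, U k j • c k)).submatrix id eq).det =
      U.det * ((dmat L ξ h c).submatrix id eq).det := by
  have h1 : (dmat L ξ h (fun j => ∑ k, U k j • c k)).submatrix id eq =
      (dmat L ξ h c).submatrix id eq * U.submatrix eq eq := by
    rw [dmat_mul]
    ext i j
    simp only [Matrix.submatrix_apply, Matrix.mul_apply, id]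
    exact (Equiv.sum_comp eq (fun k => dmat L ξ h c i k * U k (eq j))).symm
  rw [h1, Matrix.det_mul, Matrix.det_submatrix_equiv_self, mul_comm]

/-- new `T`-columns `t d = (A, B, C)`, `deg A = d`, `deg B < a`, `deg C < b` -/
theorem replace_det {L : ℕ} (ξ : ℚ) {h a b m : ℕ} (eq : Fin h × Fin 6 ≃ (Fin a ⊕ Fin b) ⊕ Fin m)
    (t : Fin m → Col)
    (hA : ∀ d : Fin m, (t d).1.natDegree = d ∧ (t d).1 ≠ 0) (hB : ∀ d : Fin m, (t d).2.1.degree < a)
    (hC : ∀ d : Fin m, (t d).2.2.degree < b) :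
    ((dmat L ξ h (Sum.elim (fun i => stdc a b m (Sum.inl i)) t)).submatrix id eq).det =
    (∏ d, (t d).1.leadingCoeff) * ((dmat L ξ h (stdc a b m)).submatrix id eq).det := by
  classical
  set W : Matrix (Fin a ⊕ Fin b) (Fin m) ℚ := Matrix.of fun k d =>
    Sum.elim (fun i : Fin a => (t d).2.1.coeff i) (fun i : Fin b => (t d).2.2.coeff i) k with hW
  set T : Matrix (Fin m) (Fin m) ℚ := Matrix.of fun i d => (t d).1.coeff i with hT
  set U : Matrix ((Fin a ⊕ Fin b) ⊕ Fin m) ((Fin a ⊕ Fin b) ⊕ Fin m) ℚ :=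
    Matrix.fromBlocks 1 W 0 T with hU
  have h1 : Sum.elim (fun i => stdc a b m (Sum.inl i)) t = fun j => ∑ k, U k j • stdc a b m k := by
    funext j
    rcases j with j | d
    · simp only [Sum.elim_inl]
      rw [Finset.sum_eq_single (Sum.inl j)]
      · simp [hU]
      · intro k _ hk
        rcases k with k | k
        · have : k ≠ j := fun h => hk (by rw [h])
          simp [hU, Matrix.one_apply_ne this]
        · simp [hU]
      · intro h; exact absurd (mem_univ _) h
    · simp only [Sum.elim_inr]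
      rw [Fintype.sum_sum_type, Fintype.sum_sum_type]
      simp only [hU, Matrix.fromBlocks_apply₁₂, Matrix.fromBlocks_apply₂₂, hW, hT, Matrix.of_apply,
        Sum.elim_inl, Sum.elim_inr, stdc]
      have e1 : ∑ x : Fin a, (t d).2.1.coeff x • ((0, X ^ (x : ℕ), 0) : Col) =
          (0, (t d).2.1, 0) := by
        conv_rhs => rw [← sum_coeff_smul (hB d)]
        simp only [Prod.smul_mk, smul_zero]
        rw [Prod.ext_iff, Prod.ext_iff]
        simp [Prod.fst_sum, Prod.snd_sum]
      have e2 : ∑ x : Fin b, (t d).2.2.coeff x • ((0, 0, X ^ (x : ℕ)) : Col) =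
          (0, 0, (t d).2.2) := by
        conv_rhs => rw [← sum_coeff_smul (hC d)]
        simp only [Prod.smul_mk, smul_zero]
        rw [Prod.ext_iff, Prod.ext_iff]
        simp [Prod.fst_sum, Prod.snd_sum]
      have e3 : ∑ x : Fin m, (t d).1.coeff x • ((X ^ (x : ℕ), 0, 0) : Col) =
          ((t d).1, 0, 0) := by
        have hd : (t d).1.degree < m := by
          rw [Polynomial.degree_eq_natDegree (hA d).2, (hA d).1]
          exact_mod_cast d.2
        conv_rhs => rw [← sum_coeff_smul hd]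
        simp only [Prod.smul_mk, smul_zero]
        rw [Prod.ext_iff, Prod.ext_iff]
        simp [Prod.fst_sum, Prod.snd_sum]
      rw [e1, e2, e3]
      simp only [Prod.mk_add_mk, add_zero, zero_add]
  have h2 : U.det = ∏ d, (t d).1.leadingCoeff := by
    rw [hU, Matrix.det_fromBlocks_zero₂₁, Matrix.det_one, one_mul]
    rw [Matrix.det_of_isUpperTriangular]
    · refine prod_congr rfl fun d _ => ?_
      rw [hT, Matrix.of_apply, Polynomial.leadingCoeff, (hA d).1]
    · intro i j hij
      have hij' : j < i := by simpa using hij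
      rw [hT, Matrix.of_apply]
      exact Polynomial.coeff_eq_zero_of_natDegree_lt (by rw [(hA j).1]; exact_mod_cast hij')
  rw [h1, det_colop, h2]

/-- scaling of the `P`- and `Q`-columns -/
theorem scale_det {L : ℕ} (ξ : ℚ) {h a b m : ℕ} (eq : Fin h × Fin 6 ≃ (Fin a ⊕ Fin b) ⊕ Fin m)
    (x y : ℚ) :
    ((dmat L ξ h (Sum.elim (Sum.elim (fun i : Fin a => ((0, C x * X ^ (i : ℕ), 0) : Col))
      (fun i : Fin b => ((0, 0, C y * X ^ (i : ℕ)) : Col)))
      (fun i : Fin m => ((X ^ (i : ℕ), 0, 0) : Col)))).submatrix id eq).det =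
    x ^ a * y ^ b * ((dmat L ξ h (stdc a b m)).submatrix id eq).det := by
  classical
  set s : (Fin a ⊕ Fin b) ⊕ Fin m → ℚ := Sum.elim (Sum.elim (fun _ => x) (fun _ => y)) (fun _ => 1)
    with hs
  have h1 : (Sum.elim (Sum.elim (fun i : Fin a => ((0, C x * X ^ (i : ℕ), 0) : Col))
      (fun i : Fin b => ((0, 0, C y * X ^ (i : ℕ)) : Col)))
      (fun i : Fin m => ((X ^ (i : ℕ), 0, 0) : Col))) =
      fun j => ∑ k, (Matrix.diagonal s) k j • stdc a b m k := by
    funext j
    rw [Finset.sum_eq_single j]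
    · rcases j with (j | j) | j <;>
        simp [hs, stdc, Matrix.diagonal_apply_eq, smul_eq_C_mul]
    · intro k _ hk
      rw [Matrix.diagonal_apply_ne _ hk, zero_smul]
    · intro h; exact absurd (mem_univ _) h
  rw [h1, det_colop, Matrix.det_diagonal]
  congr 1
  rw [Fintype.prod_sum_type, Fintype.prod_sum_type]
  simp [hs]

end Pool.Agent.Z5
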