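import Pool.Agent.Z5.PAssem
import Pool.Agent.Z5.PRep
import Pool.Agent.Z5.PH
import Pool.Agent.Z5.POm
import Pool.Agent.Z5.PPG
import Pool.Agent.Z5.PExp
import Pool.Agent.Z5.PK3
import Pool.Agent.Z5.PK3H
import Pool.Agent.Z5.PK2
import Pool.Agent.Z5.PK2R
import Pool.Agent.Z5.PK2H

/-!
# Range C: `5 p / 2 < q < 3 p`

The classes have two or three poles.
-/

open Finset Polynomial

namespace Pool.Agent.Z5

variable {q L : ℕ} {ξ : ℚ} [hq : Fact q.Prime]

section levels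

variable (q L : ℕ) (p s : ℕ) (F : ℚ[X])

/-- new `T`-columns -/
noncomputable def tcC (d : ℕ) : Col :=
  if q + 6 * s ≤ d ∧ d < 5 * p then col2 q L (F ^ 6 * X ^ (d - q - 6 * s))
  else if q + 5 * s ≤ d ∧ d < q + 5 * p then col1 q L (F ^ 5 * X ^ (d - q - 5 * s))
  else (X ^ d, 0, 0)

/-- the levels of the new `T`-columns -/
def lvC (d : ℕ) : ℤ :=
  if q + 6 * s ≤ d ∧ d < 5 * p then 2
  else if q + 5 * s ≤ d ∧ d < q + 5 * p then 1
  else 0

end levels

theorem monic_pow_mul {F : ℚ[X]} (hF : F.Monic) (n k : ℕ) : (F ^ n * X ^ k).Monic :=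
  (hF.pow n).mul (monic_X_pow k)

theorem natDegree_pow_mul {F : ℚ[X]} (hF : F.Monic) (n k : ℕ) :
    (F ^ n * X ^ k).natDegree = n * F.natDegree + k := by
  rw [(hF.pow n).natDegree_mul (monic_X_pow k), natDegree_X_pow, hF.natDegree_pow]

/-- first component of the relation columns -/
theorem neg_mul_Hp_facts (h2 : q ≠ 2) {Q : ℚ[X]} (hQ : Q.Monic) :
    (-(Q * Hp q L)).natDegree = Q.natDegree + q ∧ -(Q * Hp q L) ≠ 0 ∧
      VG q 0 ((-(Q * Hp q L)).leadingCoeff)⁻¹ := by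
  have h3 := Hp_lead (q := q) (L := L) h2
  have h4 : Hp q L ≠ 0 := by
    intro h
    apply h3.2.2
    rw [h, leadingCoeff_zero]
  refine ⟨?_, neg_ne_zero.mpr (mul_ne_zero hQ.ne_zero h4), ?_⟩
  · rw [natDegree_neg, natDegree_mul hQ.ne_zero h4, Hp_natDegree]
  · rw [leadingCoeff_neg, leadingCoeff_mul, hQ.leadingCoeff, one_mul, inv_neg]
    exact h3.2.1.neg

theorem tcC_one (h2 : q ≠ 2) {p s : ℕ} {F : ℚ[X]} (hF : F.Monic) (hs : F.natDegree = s) (d : ℕ) :
    (tcC q L p s F d).1.natDegree = d ∧ (tcC q L p s F d).1 ≠ 0 ∧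
      VG q 0 ((tcC q L p s F d).1.leadingCoeff)⁻¹ := by
  unfold tcC
  split_ifs with h3 h4
  · obtain ⟨a1, a2, a3⟩ := neg_mul_Hp_facts (q := q) (L := L) h2
      (monic_pow_mul hF 6 (d - q - 6 * s))
    refine ⟨?_, a2, a3⟩
    show (-(F ^ 6 * X ^ (d - q - 6 * s) * Hp q L)).natDegree = d
    rw [a1, natDegree_pow_mul hF, hs]
    omega
  · obtain ⟨a1, a2, a3⟩ := neg_mul_Hp_facts (q := q) (L := L) h2
      (monic_pow_mul hF 5 (d - q - 5 * s))
    refine ⟨?_, a2, a3⟩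
    show (-(F ^ 5 * X ^ (d - q - 5 * s) * Hp q L)).natDegree = d
    rw [a1, natDegree_pow_mul hF, hs]
    omega
  · refine ⟨natDegree_X_pow d, (monic_X_pow d).ne_zero, ?_⟩
    show VG q 0 ((X ^ d : ℚ[X]).leadingCoeff)⁻¹
    rw [(monic_X_pow d).leadingCoeff, inv_one]
    exact VG.one

theorem degree_lt_of_natDegree {f : ℚ[X]} {n : ℕ} (h : f.natDegree < n) : f.degree < n :=
  lt_of_le_of_lt degree_le_natDegree (by exact_mod_cast h)

theorem tcC_two {p s : ℕ} {F : ℚ[X]} (hF : F.Monic) (hs : F.natDegree = s) (d : ℕ) :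
    (tcC q L p s F d).2.1.degree < (5 * p : ℕ) := by
  have h0 : (0 : ℚ[X]).degree < ((5 * p : ℕ) : WithBot ℕ) := by
    rw [degree_zero]
    exact WithBot.bot_lt_coe _
  unfold tcC
  split_ifs with h3 h4
  · show (-(C (q : ℚ) * (F ^ 6 * X ^ (d - q - 6 * s) * Hp q L))).degree < _
    apply degree_lt_of_natDegree
    rw [natDegree_neg]
    refine lt_of_le_of_lt (natDegree_C_mul_le _ _) ?_
    refine lt_of_le_of_lt natDegree_mul_le ?_
    rw [natDegree_pow_mul hF, hs, Hp_natDegree]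
    omega
  · exact h0
  · exact h0

theorem tcC_three {p s : ℕ} {F : ℚ[X]} (hF : F.Monic) (hs : F.natDegree = s) (d : ℕ) :
    (tcC q L p s F d).2.2.degree < (5 * p : ℕ) := by
  have h0 : (0 : ℚ[X]).degree < ((5 * p : ℕ) : WithBot ℕ) := by
    rw [degree_zero]
    exact WithBot.bot_lt_coe _
  unfold tcC
  split_ifs with h3 h4
  · show (F ^ 6 * X ^ (d - q - 6 * s) * (1 + C (om q) * Hp q L)).degree < _
    apply degree_lt_of_natDegree
    refine lt_of_le_of_lt natDegree_mul_le ?_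
    have h5 : (1 + C (om q) * Hp q L).natDegree ≤ q := by
      refine le_trans (natDegree_add_le _ _) ?_
      rw [natDegree_one]
      refine max_le (Nat.zero_le _) ?_
      refine le_trans (natDegree_C_mul_le _ _) ?_
      rw [Hp_natDegree]
    rw [natDegree_pow_mul hF, hs]
    omega
  · show (F ^ 5 * X ^ (d - q - 5 * s)).degree < _
    apply degree_lt_of_natDegree
    rw [natDegree_pow_mul hF, hs]
    omega
  · exact h0

theorem PG_pow_mul {F : ℚ[X]} (hF : PG q 0 F) (n k : ℕ) : PG q 0 (F ^ n * X ^ k) :=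
  (PG.pow_zero hF n).mul_int (PG.pow_zero PG.X k)

theorem tcC_PG (h5 : 5 ≤ q) {p s : ℕ} {F : ℚ[X]} (hF : PG q 0 F) (d : ℕ) :
    PG q 0 (tcC q L p s F d).1 ∧ PG q 0 (tcC q L p s F d).2.1 ∧ PG q 0 (tcC q L p s F d).2.2 := by
  have h2 : q ≠ 2 := by omega
  have hH := Hp_PG (q := q) (L := L) h2
  unfold tcC
  split_ifs with h3 h4
  · have hQ := PG_pow_mul hF 6 (d - q - 6 * s)
    refine ⟨(hQ.mul_int hH).neg, (PG.neg (PG.mul_int (PG.C (by exact_mod_cast VG.int (q : ℤ)))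
      (hQ.mul_int hH))), hQ.mul_int (PG.one.add (PG.mul_int (PG.C ((om_VG h5).mono (by norm_num))) hH))⟩
  · have hQ := PG_pow_mul hF 5 (d - q - 5 * s)
    exact ⟨(hQ.mul_int hH).neg, PG.zero 0, hQ⟩
  · exact ⟨PG.pow_zero PG.X d, PG.zero 0, PG.zero 0⟩

omit hq in
theorem lvC_le (p s d : ℕ) : lvC q p s d ≤ 2 := by
  unfold lvC
  split_ifs <;> norm_num

/-- classes with two poles -/
theorem tcC_adm (h11 : 11 ≤ q) {r : ℕ} (hc : Cls q L r 2) (hξ : VG q 0 ξ) {p s : ℕ} {F : ℚ[X]}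
    (hF : PG q 0 F) (d : ℕ) : Adm2 q (lvC q p s d) (fun i => sc q L ξ r i (tcC q L p s F d)) := by
  unfold tcC lvC
  split_ifs with h3 h4
  · have h5 := k2_mul (F ^ 6 * X ^ (d - q - 6 * s)) (PG_pow_mul hF _ _) (k2_col2 h11 hc hξ)
    have h6 : csm (F ^ 6 * X ^ (d - q - 6 * s)) (col2 q L 1) =
        col2 q L (F ^ 6 * X ^ (d - q - 6 * s)) := by
      unfold csm col2
      refine Prod.ext ?_ (Prod.ext ?_ ?_)
      · show _ * -(1 * Hp q L) = -(_ * Hp q L)
        ring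
      · show _ * -(C (q : ℚ) * (1 * Hp q L)) = -(C (q : ℚ) * (_ * Hp q L))
        ring
      · show _ * (1 * (1 + C (om q) * Hp q L)) = _ * (1 + C (om q) * Hp q L)
        ring
    rwa [h6] at h5
  · have h5 := k2_mul (F ^ 5 * X ^ (d - q - 5 * s)) (PG_pow_mul hF _ _) (k2_col1 h11 hc hξ)
    have h6 : csm (F ^ 5 * X ^ (d - q - 5 * s)) (col1 q L 1) =
        col1 q L (F ^ 5 * X ^ (d - q - 5 * s)) := by
      unfold csm col1
      refine Prod.ext ?_ (Prod.ext ?_ ?_)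
      · show _ * -(1 * Hp q L) = -(_ * Hp q L)
        ring
      · show _ * (0 : ℚ[X]) = 0
        ring
      · show _ * (1 : ℚ[X]) = _
        ring
    rwa [h6] at h5
  · exact k2_reg h11 hc hξ _ (PG.pow_zero PG.X d) (PG.zero 0) (PG.zero 0)

/-- classes with three poles -/
theorem tcC_three_poles (h11 : 11 ≤ q) {r : ℕ} (hc : Cls q L r 3) (hξ : VG q 0 ξ) {p s : ℕ}
    {F : ℚ[X]}
    (hF : ∀ i < 3, SG q 1 (PowerSeries.rescale (q : ℚ) (hser L (r + q * i) F))) (d : ℕ) :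
    (lvC q p s d = 0 ∧ PG q 0 (tcC q L p s F d).1 ∧ PG q 0 (tcC q L p s F d).2.1 ∧
      PG q 0 (tcC q L p s F d).2.2) ∨
      ∀ i < 3, SG q (6 + lvC q p s d) (sc q L ξ r i (tcC q L p s F d)) := by
  unfold tcC lvC
  split_ifs with h3 h4
  · right
    intro i hi
    exact k3_col2 h11 hc hξ F _ (PG.pow_zero PG.X _) hF hi
  · right
    intro i hi
    exact k3_col1 h11 hc F _ (PG.pow_zero PG.X _) hF hi
  · left
    exact ⟨rfl, PG.pow_zero PG.X d, PG.zero 0, PG.zero 0⟩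

omit hq in
theorem sum_lvC {p s m : ℕ} (h1 : q + 5 * p ≤ m) (h2 : s ≤ p) :
    ∑ d : Fin m, lvC q p s d = (5 * p - 5 * s) + max 0 (5 * p - q - 6 * s : ℤ) := by
  have h3 : ∀ d : ℕ, lvC q p s d = (if q + 5 * s ≤ d ∧ d < q + 5 * p then 1 else 0) +
      (if q + 6 * s ≤ d ∧ d < 5 * p then 1 else 0) := by
    intro d
    unfold lvC
    split_ifs <;> omega
  have h4 : ∀ a b : ℕ, b ≤ m → ∑ d : Fin m, (if a ≤ (d : ℕ) ∧ (d : ℕ) < b then (1 : ℤ) else 0) =
      ((b - a : ℕ) : ℤ) := by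
    intro a b hb
    rw [Finset.sum_range (fun d => if a ≤ d ∧ d < b then (1 : ℤ) else 0) |>.symm,
      Finset.sum_boole]
    congr 1
    have : (range m).filter (fun d => a ≤ d ∧ d < b) = Finset.Ico a b := by
      ext x
      simp only [mem_filter, mem_range, mem_Ico]
      omega
    rw [this, Nat.card_Ico]
  simp only [h3]
  rw [Finset.sum_add_distrib, h4 _ _ h1, h4 _ _ (by omega)]
  omega

/-- the residues of the classes with three poles -/
def R3 (q L h : ℕ) : Finset ℕ :=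
  (((univ : Finset (Fin h)).image fun u : Fin h => cl q L u).filter
    (fun r => r ≠ (L - r) % q)).filter (fun r => (L - r) / q + 1 = 3)

/-- the polynomial vanishing modulo `q` at the classes with three poles -/
noncomputable def FC (q L h : ℕ) : ℚ[X] := ∏ r ∈ R3 q L h, (X - C (((L : ℚ) - 2 * r) ^ 2))

omit hq in
theorem FC_monic (h : ℕ) : (FC q L h).Monic := monic_prod_of_monic _ _ fun _ _ => monic_X_sub_C _

omit hq in
theorem FC_natDegree (h : ℕ) : (FC q L h).natDegree = (R3 q L h).card := by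
  unfold FC
  rw [natDegree_prod_of_monic _ _ (fun _ _ => monic_X_sub_C _)]
  simp only [natDegree_X_sub_C, Finset.sum_const, smul_eq_mul, mul_one]

theorem VG_sq_int (L r : ℕ) : VG q 0 (((L : ℚ) - 2 * r) ^ 2) := by
  have h1 : ((L : ℚ) - 2 * r) ^ 2 = (((L : ℤ) - 2 * (r : ℤ)) ^ 2 : ℤ) := by push_cast; ring
  rw [h1]
  exact VG.int _

theorem FC_PG (h : ℕ) : PG q 0 (FC q L h) := PH.PG_prod_X_sub _ _ fun r _ => VG_sq_int L r

theorem FC_SG {h r : ℕ} (hr : r ∈ R3 q L h) (i : ℕ) :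
    SG q 1 (PowerSeries.rescale (q : ℚ) (hser L (r + q * i) (FC q L h))) := by
  have h1 : FC q L h = (X - C (((L : ℚ) - 2 * r) ^ 2)) *
      ∏ ρ ∈ (R3 q L h).erase r, (X - C (((L : ℚ) - 2 * ρ) ^ 2)) := by
    unfold FC
    exact (Finset.mul_prod_erase _ (fun r : ℕ => (X - C (((L : ℚ) - 2 * r) ^ 2) : ℚ[X])) hr).symm
  obtain ⟨h', h2, h3⟩ := hser_zz (q := q) (L := L) (r := r)
    (∏ ρ ∈ (R3 q L h).erase r, (X - C (((L : ℚ) - 2 * ρ) ^ 2)))
    (PH.PG_prod_X_sub (q := q) _ _ fun ρ _ => VG_sq_int L ρ)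
  rw [h1, hser_mul, map_mul, h3 i]
  refine SG.mul_int (lin_SG i) (SG.aeval ?_ h' h2)
  exact SG.mul_int (SG.C (by exact_mod_cast VG.int (q : ℤ))) (zz_int i)

theorem card_R3 {p h : ℕ} (hL : L + 1 = 2 * h) (h6 : L + 1 = 6 * p) (h2 : q ≠ 2)
    (h5 : 5 * p < 2 * q) (h' : q < 3 * p) : ((R3 q L h).card : ℤ) = 3 * p - q := by
  have h1 := sum_cls (q := q) h hL h2 (fun K => if K = 3 then 1 else 0) (by norm_num)
  have h3 : (L + 1) / q = 2 := by
    rw [Nat.div_eq_iff hq.out.pos]; omega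
  have h4 : L / q = 2 := by
    rw [Nat.div_eq_iff hq.out.pos]; omega
  have h7 := Nat.div_add_mod (L + 1) q
  rw [h3] at h1 h7
  rw [h4] at h1
  have h8 : ∑ r ∈ ((univ : Finset (Fin h)).image fun u : Fin h => cl q L u).filter
      (fun r => r ≠ (L - r) % q), (if (L - r) / q + 1 = 3 then (1 : ℤ) else 0) =
      ((R3 q L h).card : ℤ) := by
    unfold R3
    rw [Finset.card_filter]
    push_cast
    rfl
  have h9 : (L + 1) % q = 6 * p - 2 * q := by omega
  rw [h8, h9] at h1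
  norm_num at h1
  omega

variable {p : ℕ} (eq : Fin (3 * p) × Fin 6 ≃ (Fin (5 * p) ⊕ Fin (5 * p)) ⊕ Fin (8 * p))

theorem rangeC (h11 : 11 ≤ q) (hξ : VG q 0 ξ) (h : 5 * p < 2 * q) (h' : q < 3 * p) :
    VG q (-3 * (3 * q - 6 * p) + 4 * (3 * p - q) + (5 * q - 10 * p) + max 0 (5 * q - 13 * p) - 200 : ℤ)
      (DM p ξ eq) := by
  have h2 : q ≠ 2 := by omega
  have h0 : 0 < q := by omega
  have hp : 0 < p := by omega
  have hL : (6 * p - 1) + 1 = 2 * (3 * p) := by omega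
  have hL6 : (6 * p - 1) + 1 = 6 * p := by omega
  have hLq : 6 * p - 1 < q ^ 2 := by nlinarith
  set s : ℕ := (R3 q (6 * p - 1) (3 * p)).card with hs
  have hcard : (s : ℤ) = 3 * p - q := card_R3 hL hL6 h2 h h'
  set F : ℚ[X] := FC q (6 * p - 1) (3 * p) with hF
  have hFm : F.Monic := FC_monic _
  have hFd : F.natDegree = s := FC_natDegree _
  have hFP : PG q 0 F := FC_PG _
  let t : Fin (8 * p) → Col := fun d => tcC q (6 * p - 1) p s F d
  let c : (Fin (5 * p) ⊕ Fin (5 * p)) ⊕ Fin (8 * p) → Col :=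
    Sum.elim (fun i => stdc (5 * p) (5 * p) (8 * p) (Sum.inl i)) t
  let J : (Fin (5 * p) ⊕ Fin (5 * p)) ⊕ Fin (8 * p) → ℤ :=
    Sum.elim (fun _ => 0) (fun d => lvC q p s d)
  let e : ℕ → ℤ := fun K => if K = 3 then 4 else if K = 2 then -6 else 0
  have hstd : ∀ i : Fin (5 * p) ⊕ Fin (5 * p),
      PG q 0 (stdc (5 * p) (5 * p) (8 * p) (Sum.inl i)).1 ∧
      PG q 0 (stdc (5 * p) (5 * p) (8 * p) (Sum.inl i)).2.1 ∧
      PG q 0 (stdc (5 * p) (5 * p) (8 * p) (Sum.inl i)).2.2 := by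
    rintro (i | i)
    · exact ⟨PG.zero 0, PG.pow_zero PG.X i, PG.zero 0⟩
    · exact ⟨PG.zero 0, PG.zero 0, PG.pow_zero PG.X i⟩
  have hcPG : ∀ y, PG q 0 (c y).1 ∧ PG q 0 (c y).2.1 ∧ PG q 0 (c y).2.2 := by
    rintro (i | d)
    · exact hstd i
    · exact tcC_PG (by omega) hFP d
  have hJ2 : ∀ y, J y ≤ 2 := by
    rintro (i | d)
    · show (0 : ℤ) ≤ 2
      norm_num
    · exact lvC_le p s d
  have hcls : ∀ r K, Cls q (6 * p - 1) r K → r < (6 * p - 1 - r) % q →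
      ∀ f : Fin K × Fin 6 → (Fin (5 * p) ⊕ Fin (5 * p)) ⊕ Fin (8 * p), Function.Injective f →
      VG q (e K + ∑ y, J (f y)) (cmat q (6 * p - 1) ξ r K (fun y => c (f y))).det := by
    intro r K hc hr f _
    have hK : K = 2 ∨ K = 3 := by
      have a1 := hc.hL
      have a2 := hc.hU
      have a3 := hc.hr
      have a4 := hc.hK
      rcases Nat.lt_or_ge K 2 with hk | hk
      · have : q * K ≤ q * 1 := Nat.mul_le_mul_left _ (by omega)
        omega
      · rcases Nat.lt_or_ge 3 K with hk3 | hk3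
        · have : q * 3 ≤ q * (K - 1) := Nat.mul_le_mul_left _ (by omega)
          omega
        · omega
    rcases hK with rfl | rfl
    · have h9 := k2_bound (q := q) (L := 6 * p - 1) (r := r) (ξ := ξ) (fun y => c (f y))
        (fun y => J (f y)) ?_
      · exact h9
      · intro y
        rcases f y with i | d
        · exact k2_reg h11 hc hξ _ (hstd i).1 (hstd i).2.1 (hstd i).2.2
        · exact tcC_adm h11 hc hξ hFP d
    · have hr3 : r ∈ R3 q (6 * p - 1) (3 * p) := by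
        unfold R3
        rw [image_cl_eq _ hL]
        simp only [mem_filter, mem_range]
        have a1 := hc.hL
        have a2 := hc.hU
        have a3 := hc.hr
        refine ⟨⟨⟨a3, hr.le, by omega⟩, hr.ne⟩, ?_⟩
        have : (6 * p - 1 - r) / q = 2 := by
          rw [Nat.div_eq_iff h0]; omega
        omega
      have h9 := k3_bound (q := q) (L := 6 * p - 1) (r := r) (ξ := ξ) h11 hc hξ (fun y => c (f y))
        (fun y => J (f y)) ?_
      · exact h9
      · intro y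
        rcases f y with i | d
        · left
          exact ⟨rfl, hstd i⟩
        · exact tcC_three_poles h11 hc hξ (fun i _ => FC_SG hr3 i) d
  have h3 : (6 * p - 1 + 1) / q = 2 := by
    rw [Nat.div_eq_iff h0]; omega
  have h4 : (6 * p - 1) / q = 2 := by
    rw [Nat.div_eq_iff h0]; omega
  have h7 := Nat.div_add_mod (6 * p - 1 + 1) q
  rw [h3] at h7
  have hres := assemble h2 (3 * p) hL hLq hξ eq c J hJ2 hcPG e (by norm_num [e]) hcls
    (4 * (3 * p - q) - 3 * (3 * q - 6 * p)) (by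
      rw [h3, h4]
      have h8 : ((6 * p - 1 + 1) % q : ℕ) = 6 * p - 2 * q := by omega
      rw [h8]
      norm_num [e]
      omega)
  have hdet : ((dmat (6 * p - 1) ξ (3 * p) c).submatrix id eq).det =
      (∏ d, (t d).1.leadingCoeff) * DM p ξ eq :=
    replace_det ξ eq t (fun d => ⟨(tcC_one h2 hFm hFd d).1, (tcC_one h2 hFm hFd d).2.1⟩)
      (fun d => tcC_two hFm hFd d) (fun d => tcC_three hFm hFd d)
  have hlead : (∏ d, (t d).1.leadingCoeff) ≠ 0 := by
    rw [Finset.prod_ne_zero_iff]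
    intro d _
    exact leadingCoeff_ne_zero.mpr (tcC_one h2 hFm hFd d).2.1
  have hDM : DM p ξ eq = (∏ d, ((t d).1.leadingCoeff)⁻¹) *
      ((dmat (6 * p - 1) ξ (3 * p) c).submatrix id eq).det := by
    rw [hdet, Finset.prod_inv_distrib, inv_mul_cancel_left₀ hlead]
  have hinv : VG q 0 (∏ d, ((t d).1.leadingCoeff)⁻¹) := by
    have h9 := VG.prod (q := q) (univ : Finset (Fin (8 * p)))
      (fun d => ((t d).1.leadingCoeff)⁻¹) (fun _ => (0 : ℤ))
      (fun d _ => (tcC_one h2 hFm hFd d).2.2)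
    simpa using h9
  rw [hDM]
  refine (hinv.mul hres).mono ?_
  have hsum : ∑ y, J y = (5 * p - 5 * s) + max 0 (5 * p - q - 6 * s : ℤ) := by
    rw [Fintype.sum_sum_type]
    show ∑ _x, (0 : ℤ) + ∑ d : Fin (8 * p), lvC q p s d = _
    rw [Finset.sum_const_zero, zero_add, sum_lvC (by omega) (by omega)]
  have h10 : max 0 (5 * (p : ℤ) - q - 6 * (3 * p - q)) = ((max 0 (5 * q - 13 * p) : ℕ) : ℤ) := by
    omega
  have h12 : ((2 + 1 : ℕ) : ℤ) = 3 := rfl
  rw [hsum, hcard, h4, h10, h12]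
  linarith

end Pool.Agent.Z5
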