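import Pool.Agent.Z5.VG

/-!
# Laplace expansion over classes of rows, valuation form

If every minor consisting of all rows of one class has a large valuation then so has the
determinant.
-/

open Finset

namespace Pool.Agent.Z5

section lap

variable {R : Type*} [Fintype R] [DecidableEq R]

/-- the part of `A` where the row class is `τ` of the column -/
def lapPart {γ : Type*} [DecidableEq γ] (A : Matrix R R ℚ) (cl τ : R → γ) : Matrix R R ℚ :=
  Matrix.of fun r k => if cl r = τ k then A r k else 0

theorem det_eq_sum_lapPart {γ : Type*} [DecidableEq γ] [Fintype γ] (A : Matrix R R ℚ) (cl : R → γ) :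
    A.det = ∑ τ : R → γ, (lapPart A cl τ).det := by
  simp only [Matrix.det_apply']
  rw [Finset.sum_comm]
  refine Finset.sum_congr rfl fun σ _ => ?_
  rw [← Finset.mul_sum]
  congr 1
  have h1 : ∀ τ : R → γ, ∏ i, lapPart A cl τ (σ i) i =
      if τ = fun i => cl (σ i) then ∏ i, A (σ i) i else 0 := by
    intro τ
    simp only [lapPart, Matrix.of_apply]
    rw [Finset.prod_ite_zero]
    by_cases hτ : τ = fun i => cl (σ i)
    · rw [if_pos hτ, if_pos]
      intro i _
      rw [hτ]
    · rw [if_neg hτ, if_neg]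
      intro h
      exact hτ (funext fun i => (h i (Finset.mem_univ i)).symm)
  simp only [h1]
  rw [Finset.sum_ite_eq' Finset.univ (fun i => cl (σ i))]
  simp

theorem VG_lapPart {q : ℕ} [Fact q.Prime] {γ : Type*} [LinearOrder γ] (A : Matrix R R ℚ)
    (cl τ : R → γ) (E : γ → ℤ) (J : R → ℤ)
    (H : ∀ (c : γ) (f : {r : R // cl r = c} → R), Function.Injective f →
      VG q (E c + ∑ x, J (f x)) (A.submatrix (fun x : {r : R // cl r = c} => x.1) f).det) :
    VG q (∑ c ∈ univ.image cl, E c + ∑ k, J k) (lapPart A cl τ).det := by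
  by_cases hσ : ∃ σ : Equiv.Perm R, ∀ i, cl (σ i) = τ i
  · obtain ⟨σ, hσ⟩ := hσ
    have hinv : ∀ x, σ (σ⁻¹ x) = x := fun x => σ.apply_symm_apply x
    have h1 : ((lapPart A cl τ).submatrix id ⇑σ⁻¹).det =
        Equiv.Perm.sign σ⁻¹ * (lapPart A cl τ).det := Matrix.det_permute' σ⁻¹ _
    have h2 : VG q (∑ c ∈ univ.image cl, E c + ∑ k, J k)
        ((lapPart A cl τ).submatrix id ⇑σ⁻¹).det := by
      have h3 : ((lapPart A cl τ).submatrix id ⇑σ⁻¹).BlockTriangular cl := by
        intro i j hij
        simp only [lapPart, Matrix.submatrix_apply, Matrix.of_apply, id]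
        rw [if_neg]
        intro h
        rw [← hσ (σ⁻¹ j)] at h
        rw [hinv] at h
        exact hij.ne' h
      rw [h3.det]
      have h4 : ∀ c ∈ univ.image cl, VG q (E c + ∑ x : {r : R // cl r = c}, J (σ⁻¹ x.1))
          (((lapPart A cl τ).submatrix id ⇑σ⁻¹).toSquareBlock cl c).det := by
        intro c _
        have h5 : ((lapPart A cl τ).submatrix id ⇑σ⁻¹).toSquareBlock cl c =
            A.submatrix (fun x : {r : R // cl r = c} => x.1) (fun x => σ⁻¹ x.1) := by
          ext x y
          simp only [lapPart, Matrix.toSquareBlock_def, Matrix.submatrix_apply, Matrix.of_apply, id]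
          rw [if_pos]
          rw [← hσ (σ⁻¹ y.1)]
          rw [hinv, x.2, y.2]
        rw [h5]
        exact H c (fun x => σ⁻¹ x.1) (fun x y hxy => Subtype.ext (σ⁻¹.injective hxy))
      have h6 := VG.prod _ _ _ h4
      rw [sum_add_distrib] at h6
      convert h6 using 2
      have h7 : ∀ c, ∑ x : {r : R // cl r = c}, J (σ⁻¹ x.1) =
          ∑ r ∈ univ.filter (fun r => cl r = c), J (σ⁻¹ r) := by
        intro c
        rw [Finset.sum_subtype (univ.filter (fun r => cl r = c)) (p := fun r => cl r = c)
          (fun r => by simp)]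
      simp only [h7]
      rw [Finset.sum_fiberwise_of_maps_to (fun r _ => Finset.mem_image_of_mem cl (mem_univ r)),
        Equiv.sum_comp σ⁻¹ J]
    rw [h1] at h2
    rcases Int.units_eq_one_or (Equiv.Perm.sign σ⁻¹) with hs | hs
    · rw [hs] at h2; simpa using h2
    · rw [hs] at h2
      have : VG q (∑ c ∈ univ.image cl, E c + ∑ k, J k) (-(lapPart A cl τ).det) := by simpa using h2
      exact VG.neg_iff.1 this
  · have h0 : (lapPart A cl τ).det = 0 := by
      rw [Matrix.det_apply']
      refine Finset.sum_eq_zero fun σ _ => ?_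
      have : ∏ i, lapPart A cl τ (σ i) i = 0 := by
        rw [Finset.prod_eq_zero_iff]
        by_contra hne
        apply hσ
        refine ⟨σ, fun i => ?_⟩
        by_contra hi
        exact hne ⟨i, mem_univ i, by simp only [lapPart, Matrix.of_apply]; rw [if_neg hi]⟩
      rw [this, mul_zero]
    rw [h0]
    exact VG.zero _

/-- Laplace expansion over the classes of rows, square version -/
theorem VG_laplace_sq {q : ℕ} [Fact q.Prime] {γ : Type*} [DecidableEq γ] (A : Matrix R R ℚ)
    (cl : R → γ) (E : γ → ℤ) (J : R → ℤ)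
    (H : ∀ (c : γ) (f : {r : R // cl r = c} → R), Function.Injective f →
      VG q (E c + ∑ x, J (f x)) (A.submatrix (fun x : {r : R // cl r = c} => x.1) f).det) :
    VG q (∑ c ∈ univ.image cl, E c + ∑ k, J k) A.det := by
  classical
  -- replace the class by an element of a finite linear order
  let S : Finset γ := univ.image cl
  let g : S ≃ Fin S.card := S.equivFin
  let cl' : R → Fin S.card := fun r => g ⟨cl r, mem_image_of_mem cl (mem_univ r)⟩
  have hcl : ∀ r : R, ∀ c : Fin S.card, cl' r = c ↔ cl r = (g.symm c).1 := by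
    intro r c
    constructor
    · intro h
      rw [← h]
      simp [cl']
    · intro h
      apply g.symm.injective
      apply Subtype.ext
      simp only [cl', Equiv.symm_apply_apply]
      exact h
  have h1 := det_eq_sum_lapPart A cl'
  rw [h1]
  have h2 : ∑ c ∈ univ.image cl, E c = ∑ c ∈ univ.image cl', E (g.symm c).1 := by
    have h3 : univ.image cl' = univ := by
      ext c
      simp only [mem_image, mem_univ, true_and, iff_true]
      obtain ⟨r, _, hr⟩ := mem_image.1 (g.symm c).2
      exact ⟨r, (hcl r c).2 hr⟩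
    rw [h3, Equiv.sum_comp g.symm (fun c : S => E c.1)]
    rw [← Finset.sum_coe_sort]
  rw [h2]
  refine VG.sum _ _ fun τ _ => ?_
  refine VG_lapPart A cl' τ (fun c => E (g.symm c).1) J ?_
  intro c f hf
  let e : {r : R // cl r = (g.symm c).1} ≃ {r : R // cl' r = c} :=
    Equiv.subtypeEquivRight fun r => (hcl r c).symm
  have h4 := H (g.symm c).1 (fun x => f (e x)) (hf.comp e.injective)
  have h5 : ∑ x, J (f (e x)) = ∑ x, J (f x) := Equiv.sum_comp e (fun x => J (f x))
  rw [h5] at h4
  convert h4 using 1
  rw [← Matrix.det_submatrix_equiv_self e]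
  rfl

/-- Laplace expansion over the classes of rows -/
theorem VG_laplace {q : ℕ} [Fact q.Prime] {γ κ : Type*} [DecidableEq γ] [Fintype κ] [DecidableEq κ]
    (A : Matrix R κ ℚ) (e : R ≃ κ) (cl : R → γ) (E : γ → ℤ) (J : κ → ℤ)
    (H : ∀ (c : γ) (f : {r : R // cl r = c} → κ), Function.Injective f →
      VG q (E c + ∑ x, J (f x)) (A.submatrix (fun x : {r : R // cl r = c} => x.1) f).det) :
    VG q (∑ c ∈ univ.image cl, E c + ∑ k, J k) (A.submatrix id e).det := by
  have h1 := VG_laplace_sq (q := q) (A.submatrix id e) cl E (fun r => J (e r)) ?_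
  · rwa [Equiv.sum_comp e J] at h1
  · intro c f hf
    exact H c (fun x => e (f x)) (e.injective.comp hf)

end lap

/-- Laplace expansion for the rows `Fin h × Fin 6` -/
theorem VG_laplace_six {q : ℕ} [Fact q.Prime] {γ κ : Type*} [DecidableEq γ] [Fintype κ]
    [DecidableEq κ] {h : ℕ} (A : Matrix (Fin h × Fin 6) κ ℚ) (e : Fin h × Fin 6 ≃ κ) (cl : Fin h → γ)
    (E : γ → ℤ) (J : κ → ℤ)
    (H : ∀ (c : γ) (f : {u : Fin h // cl u = c} × Fin 6 → κ), Function.Injective f →
      VG q (E c + ∑ x, J (f x))
        (A.submatrix (fun x : {u : Fin h // cl u = c} × Fin 6 => (x.1.1, x.2)) f).det) :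
    VG q (∑ c ∈ univ.image cl, E c + ∑ k, J k) (A.submatrix id e).det := by
  have h1 := VG_laplace (q := q) A e (fun r : Fin h × Fin 6 => cl r.1) E J ?_
  · have h2 : univ.image (fun r : Fin h × Fin 6 => cl r.1) = univ.image cl := by
      ext c
      simp only [mem_image, mem_univ, true_and, Prod.exists]
      constructor
      · rintro ⟨u, _, hu⟩; exact ⟨u, hu⟩
      · rintro ⟨u, hu⟩; exact ⟨u, 0, hu⟩
    rwa [h2] at h1
  · intro c f hf
    let g : {u : Fin h // cl u = c} × Fin 6 ≃ {r : Fin h × Fin 6 // cl r.1 = c} :=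
      { toFun := fun x => ⟨(x.1.1, x.2), x.1.2⟩
        invFun := fun r => (⟨r.1.1, r.2⟩, r.1.2)
        left_inv := fun _ => rfl
        right_inv := fun _ => rfl }
    have h4 := H c (fun x => f (g x)) (hf.comp g.injective)
    rw [Equiv.sum_comp g (fun x => J (f x))] at h4
    convert h4 using 1
    rw [← Matrix.det_submatrix_equiv_self g]
    rfl

end Pool.Agent.Z5
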