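import Pool.Agent.Z5.PDefs

/-!
# `PCNT`: counting of classes
-/

open Finset

namespace Pool.Agent.Z5

variable {q L r : ℕ} [hq : Fact q.Prime]

theorem cls_exists (hr : r < q) (hrL : r ≤ L) : Cls q L r ((L - r) / q + 1) := by
  have h0 : 0 < q := hq.out.pos
  have h1 := Nat.div_add_mod (L - r) q
  have h2 := Nat.mod_lt (L - r) h0
  refine ⟨hr, Nat.succ_le_succ (Nat.zero_le _), ?_, ?_⟩
  · simp only [Nat.add_sub_cancel]
    generalize (L - r) / q = k at *
    have : q * k ≤ L - r := by omega
    omega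
  · rw [Nat.mul_add, Nat.mul_one]
    generalize (L - r) / q = k at *
    omega

omit hq

/-- the paired residue -/
private def tau (q L ρ : ℕ) : ℕ := (L + q - ρ) % q

private def kk (q L ρ : ℕ) : ℕ := (L + q - ρ) / q

private theorem tau_eq {ρ : ℕ} (h : ρ < q) : L + q = q * kk q L ρ + tau q L ρ + ρ := by
  have h1 := Nat.div_add_mod (L + q - ρ) q
  unfold kk tau
  omega

private theorem tau_lt (h0 : 0 < q) (ρ : ℕ) : tau q L ρ < q := Nat.mod_lt _ h0

private theorem kk_tau (h0 : 0 < q) {ρ : ℕ} (h : ρ < q) : kk q L (tau q L ρ) = kk q L ρ := by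
  have h1 := tau_eq (L := L) h
  have h2 : L + q - tau q L ρ = q * kk q L ρ + ρ := by omega
  conv_lhs => unfold kk
  rw [h2, Nat.mul_add_div h0, Nat.div_eq_of_lt h, add_zero]

private theorem tau_tau {ρ : ℕ} (h : ρ < q) : tau q L (tau q L ρ) = ρ := by
  have h1 := tau_eq (L := L) h
  have h2 : L + q - tau q L ρ = q * kk q L ρ + ρ := by omega
  show (L + q - tau q L ρ) % q = ρ
  rw [h2, Nat.mul_add_mod, Nat.mod_eq_of_lt h]

private theorem tau_of_le {ρ : ℕ} (h : ρ ≤ L) : tau q L ρ = (L - ρ) % q := by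
  unfold tau
  rw [show L + q - ρ = (L - ρ) + q by omega, Nat.add_mod_right]

private theorem kk_of_le (h0 : 0 < q) {ρ : ℕ} (h : ρ ≤ L) : kk q L ρ = (L - ρ) / q + 1 := by
  unfold kk
  rw [show L + q - ρ = (L - ρ) + q by omega, Nat.add_div_right _ h0]

private theorem cl_mem (h0 : 0 < q) {l : ℕ} (hl : l ≤ L) :
    cl q L l ≤ (L - cl q L l) % q ∧ cl q L l ≤ L ∧ cl q L l < q := by
  have a1 : l % q ≤ l := Nat.mod_le _ _
  have a2 : (L - l) % q ≤ L - l := Nat.mod_le _ _
  have b1 := Nat.mod_lt l h0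
  have b2 := Nat.mod_lt (L - l) h0
  have c1 : (L - l % q) % q = (L - l) % q := by
    have := Nat.div_add_mod l q
    have e : L - l % q = (L - l) + q * (l / q) := by omega
    rw [e, Nat.add_mul_mod_self_left]
  have c2 : (L - (L - l) % q) % q = l % q := by
    have := Nat.div_add_mod (L - l) q
    have e : L - (L - l) % q = l + q * ((L - l) / q) := by omega
    rw [e, Nat.add_mul_mod_self_left]
  unfold cl
  rcases le_total (l % q) ((L - l) % q) with h | h
  · rw [min_eq_left h, c1]; omega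
  · rw [min_eq_right h, c2]; omega

include hq in
theorem image_cl (h : ℕ) (hL : L + 1 = 2 * h) (_h2 : q ≠ 2) :
    ((univ : Finset (Fin h)).image fun u : Fin h => cl q L u) ⊆
      (range q).filter fun r => r ≤ (L - r) % q ∧ r ≤ L := by
  intro x hx
  obtain ⟨u, -, rfl⟩ := Finset.mem_image.mp hx
  have hu := u.2
  have h3 := cl_mem (L := L) hq.out.pos (l := (u : ℕ)) (by omega)
  simp only [mem_filter, mem_range]
  exact ⟨h3.2.2, h3.1, h3.2.1⟩

include hq in
/-- the image is exactly the set of smaller residues -/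
theorem image_cl_eq (h : ℕ) (hL : L + 1 = 2 * h) :
    ((univ : Finset (Fin h)).image fun u : Fin h => cl q L u) =
      (range q).filter fun r => r ≤ (L - r) % q ∧ r ≤ L := by
  have h0 : 0 < q := hq.out.pos
  ext x
  simp only [mem_image, mem_univ, true_and, mem_filter, mem_range]
  constructor
  · rintro ⟨u, rfl⟩
    have hu := u.2
    have h3 := cl_mem (L := L) h0 (l := (u : ℕ)) (by omega)
    exact ⟨h3.2.2, h3.1, h3.2.1⟩
  · rintro ⟨hx, hx1, hx2⟩
    by_cases hxh : x < h
    · refine ⟨⟨x, hxh⟩, ?_⟩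
      show cl q L x = x
      unfold cl
      rw [Nat.mod_eq_of_lt hx, min_eq_left hx1]
    · refine ⟨⟨L - x, by omega⟩, ?_⟩
      show cl q L (L - x) = x
      unfold cl
      rw [show L - (L - x) = x by omega, Nat.mod_eq_of_lt hx, min_eq_right hx1]

private theorem filter_self (h : ℕ) (hL : L + 1 = 2 * h) (h0 : 0 < q) (hodd : q % 2 = 1) :
    (range q).filter (fun ρ => tau q L ρ = ρ) = {((L + q) / 2) % q} := by
  ext ρ
  simp only [mem_filter, mem_range, mem_singleton]
  have hd := Nat.div_add_mod ((L + q) / 2) q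
  have hlt := Nat.mod_lt ((L + q) / 2) h0
  constructor
  · rintro ⟨h1, h2⟩
    have h3 := tau_eq (L := L) h1
    rw [h2] at h3
    have h4 : (q * kk q L ρ) % 2 = 0 := by omega
    have h5 : kk q L ρ % 2 = 0 := by
      rw [Nat.mul_mod, hodd, one_mul, Nat.mod_mod] at h4
      exact h4
    obtain ⟨j, hj⟩ : ∃ j, kk q L ρ = 2 * j := ⟨kk q L ρ / 2, by omega⟩
    have h6 : (L + q) / 2 = q * j + ρ := by
      rw [hj] at h3
      have h8 : q * (2 * j) = 2 * (q * j) := by ring
      rw [h8] at h3
      omega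
    rw [h6, Nat.mul_add_mod, Nat.mod_eq_of_lt h1]
  · intro h1
    subst h1
    refine ⟨hlt, ?_⟩
    have h3 : L + q - (L + q) / 2 % q = q * (2 * ((L + q) / 2 / q)) + (L + q) / 2 % q := by
      have : q * (2 * ((L + q) / 2 / q)) = 2 * (q * ((L + q) / 2 / q)) := by ring
      omega
    unfold tau
    rw [h3, Nat.mul_add_mod, Nat.mod_eq_of_lt hlt]

private theorem kk_self (h : ℕ) (hL : L + 1 = 2 * h) (h0 : 0 < q) (hodd : q % 2 = 1) {ρ : ℕ}
    (h1 : ρ < q) (h2 : tau q L ρ = ρ) :
    kk q L ρ = if 2 ∣ (L / q + 1) then L / q + 1 else L / q := by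
  have h3 := tau_eq (L := L) h1
  rw [h2] at h3
  have h4 : (q * kk q L ρ) % 2 = 0 := by omega
  have h5 : kk q L ρ % 2 = 0 := by
    rw [Nat.mul_mod, hodd, one_mul, Nat.mod_mod] at h4
    exact h4
  have h6 : kk q L ρ = L / q + 1 ∨ kk q L ρ = L / q := by
    have hd := Nat.div_add_mod L q
    have hlt := Nat.mod_lt L h0
    unfold kk
    by_cases hc : ρ ≤ L % q
    · left
      have e : L + q - ρ = q * (L / q + 1) + (L % q - ρ) := by
        rw [Nat.mul_add]; omega
      rw [e, Nat.mul_add_div h0, Nat.div_eq_of_lt (show L % q - ρ < q by omega), add_zero]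
    · right
      have e : L + q - ρ = q * (L / q) + (q + L % q - ρ) := by omega
      rw [e, Nat.mul_add_div h0, Nat.div_eq_of_lt (show q + L % q - ρ < q by omega), add_zero]
  split_ifs with h7
  · omega
  · omega

private theorem sum_all (h0 : 0 < q) (e : ℕ → ℤ) :
    ∑ ρ ∈ range q, e (kk q L ρ) =
      ((L + 1) % q : ℕ) * e ((L + 1) / q + 1) + (q - (L + 1) % q : ℕ) * e ((L + 1) / q) := by
  have hlt := Nat.mod_lt (L + 1) h0
  have hd := Nat.div_add_mod (L + 1) q
  have hs : ∑ ρ ∈ range q, e (kk q L ρ) =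
      ∑ ρ ∈ range ((L + 1) % q), e (kk q L ρ) + ∑ ρ ∈ Finset.Ico ((L + 1) % q) q, e (kk q L ρ) := by
    rw [Finset.sum_range_add_sum_Ico _ hlt.le]
  rw [hs]
  congr 1
  · rw [Finset.sum_congr rfl (g := fun _ => e ((L + 1) / q + 1))]
    · rw [Finset.sum_const, card_range, nsmul_eq_mul]
    · intro ρ hρ
      rw [mem_range] at hρ
      congr 1
      unfold kk
      have e1 : L + q - ρ = q * ((L + 1) / q + 1) + ((L + 1) % q - 1 - ρ) := by
        rw [Nat.mul_add]; omega
      rw [e1, Nat.mul_add_div h0, Nat.div_eq_of_lt (show (L + 1) % q - 1 - ρ < q by omega),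
        add_zero]
  · rw [Finset.sum_congr rfl (g := fun _ => e ((L + 1) / q))]
    · rw [Finset.sum_const, Nat.card_Ico, nsmul_eq_mul]
    · intro ρ hρ
      rw [mem_Ico] at hρ
      congr 1
      unfold kk
      have e1 : L + q - ρ = q * ((L + 1) / q) + (q + (L + 1) % q - 1 - ρ) := by omega
      rw [e1, Nat.mul_add_div h0, Nat.div_eq_of_lt (show q + (L + 1) % q - 1 - ρ < q by omega),
        add_zero]

include hq in
/-- `∑` over the classes except the self-paired one; the number of poles of the latter is in the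
`if` -/
theorem sum_cls (h : ℕ) (hL : L + 1 = 2 * h) (h2 : q ≠ 2) (e : ℕ → ℤ) (he : e 0 = 0) :
    2 * ∑ r ∈ ((univ : Finset (Fin h)).image fun u : Fin h => cl q L u).filter (fun r => r ≠ (L - r) % q),
        e ((L - r) / q + 1) + e (if 2 ∣ (L / q + 1) then L / q + 1 else L / q) =
      ((L + 1) % q : ℕ) * e ((L + 1) / q + 1) + (q - (L + 1) % q : ℕ) * e ((L + 1) / q) := by
  have h0 : 0 < q := hq.out.pos
  have hodd : q % 2 = 1 := by
    rcases hq.out.eq_two_or_odd with h | h
    · exact absurd h h2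
    · exact h
  rw [← sum_all h0 e]
  have hA : ∑ r ∈ ((univ : Finset (Fin h)).image fun u : Fin h => cl q L u).filter
      (fun r => r ≠ (L - r) % q), e ((L - r) / q + 1) =
      ∑ ρ ∈ (range q).filter (fun ρ => ρ < tau q L ρ), e (kk q L ρ) := by
    rw [image_cl_eq h hL, filter_filter]
    have hsub : (range q).filter (fun a => (a ≤ (L - a) % q ∧ a ≤ L) ∧ a ≠ (L - a) % q) ⊆
        (range q).filter (fun ρ => ρ < tau q L ρ) := by
      intro ρ hρ
      simp only [mem_filter, mem_range] at hρ ⊢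
      obtain ⟨h3, ⟨h4, h5⟩, h6⟩ := hρ
      refine ⟨h3, ?_⟩
      rw [tau_of_le h5]
      omega
    rw [← Finset.sum_subset hsub]
    · apply Finset.sum_congr rfl
      intro ρ hρ
      simp only [mem_filter, mem_range] at hρ
      rw [kk_of_le h0 hρ.2.1.2]
    · intro ρ hρ hn
      simp only [mem_filter, mem_range] at hρ hn
      have h7 : ¬ ρ ≤ L := by
        intro h8
        apply hn
        have := hρ.2
        rw [tau_of_le h8] at this
        exact ⟨hρ.1, ⟨this.le, h8⟩, this.ne⟩
      have h8 : kk q L ρ = 0 := by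
        unfold kk
        exact Nat.div_eq_of_lt (by omega)
      rw [h8, he]
  rw [hA]
  have hB : ∑ ρ ∈ (range q).filter (fun ρ => ρ < tau q L ρ), e (kk q L ρ) =
      ∑ ρ ∈ (range q).filter (fun ρ => tau q L ρ < ρ), e (kk q L ρ) := by
    refine Finset.sum_nbij' (tau q L) (tau q L) ?_ ?_ ?_ ?_ ?_
    · intro ρ hρ
      simp only [mem_filter, mem_range] at hρ ⊢
      rw [tau_tau hρ.1]
      exact ⟨tau_lt h0 _, hρ.2⟩
    · intro ρ hρ
      simp only [mem_filter, mem_range] at hρ ⊢
      rw [tau_tau hρ.1]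
      exact ⟨tau_lt h0 _, hρ.2⟩
    · intro ρ hρ
      simp only [mem_filter, mem_range] at hρ
      exact tau_tau hρ.1
    · intro ρ hρ
      simp only [mem_filter, mem_range] at hρ
      exact tau_tau hρ.1
    · intro ρ hρ
      simp only [mem_filter, mem_range] at hρ
      rw [kk_tau h0 hρ.1]
  have hC : ∑ ρ ∈ (range q).filter (fun ρ => tau q L ρ = ρ), e (kk q L ρ) =
      e (if 2 ∣ (L / q + 1) then L / q + 1 else L / q) := by
    have hm : ((L + q) / 2) % q ∈ (range q).filter (fun ρ => tau q L ρ = ρ) := by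
      rw [filter_self h hL h0 hodd]
      exact mem_singleton_self _
    rw [filter_self h hL h0 hodd, Finset.sum_singleton]
    simp only [mem_filter, mem_range] at hm
    rw [kk_self h hL h0 hodd hm.1 hm.2]
  have hD : ∑ ρ ∈ range q, e (kk q L ρ) =
      ∑ ρ ∈ (range q).filter (fun ρ => ρ < tau q L ρ), e (kk q L ρ) +
      (∑ ρ ∈ (range q).filter (fun ρ => tau q L ρ = ρ), e (kk q L ρ) +
      ∑ ρ ∈ (range q).filter (fun ρ => tau q L ρ < ρ), e (kk q L ρ)) := by
    rw [← Finset.sum_filter_add_sum_filter_not (range q) (fun ρ => ρ < tau q L ρ)]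
    congr 1
    rw [← Finset.sum_filter_add_sum_filter_not ((range q).filter (fun ρ => ¬ ρ < tau q L ρ))
      (fun ρ => tau q L ρ = ρ), filter_filter, filter_filter]
    congr 1
    · apply Finset.sum_congr _ (fun _ _ => rfl)
      apply Finset.filter_congr
      intro ρ _
      constructor
      · exact fun h => h.2
      · exact fun h => ⟨by omega, h⟩
    · apply Finset.sum_congr _ (fun _ _ => rfl)
      apply Finset.filter_congr
      intro ρ _
      omega
  rw [hD, hC, ← hB]
  ring

include hq in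
/-- number of `Y`-poles of the self-paired class -/
theorem card_self (h : ℕ) (hL : L + 1 = 2 * h) (_h2 : q ≠ 2) (hr : r < q) (hs : r = (L - r) % q) :
    Fintype.card {u : Fin h // cl q L u = r} ≤ L / q + 1 := by
  have h0 : 0 < q := hq.out.pos
  have hrL : r ≤ L := by
    by_contra hc
    have h1 : L - r = 0 := by omega
    rw [h1, Nat.zero_mod] at hs
    omega
  have key : ∀ u : ℕ, u ≤ L → cl q L u = r → u % q = r := by
    intro u hu hc
    unfold cl at hc
    rcases le_total (u % q) ((L - u) % q) with h1 | h1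
    · rwa [min_eq_left h1] at hc
    · rw [min_eq_right h1] at hc
      have h2 := Nat.div_add_mod (L - u) q
      have h3 := Nat.div_add_mod (L - r) q
      rw [hc] at h2
      rw [← hs] at h3
      have h4 : u + q * ((L - u) / q) = r + q * ((L - r) / q) := by omega
      have h5 := congrArg (· % q) h4
      simp only [Nat.add_mul_mod_self_left] at h5
      rw [h5, Nat.mod_eq_of_lt hr]
  let g : {u : Fin h // cl q L u = r} → Fin (L / q + 1) := fun u =>
    ⟨(u.1 : ℕ) / q, Nat.lt_succ_of_le (Nat.div_le_div_right (by have := u.1.2; omega))⟩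
  have hg : Function.Injective g := by
    intro u v huv
    have h1 : (u.1 : ℕ) / q = (v.1 : ℕ) / q := congrArg Fin.val huv
    have h2 := key u.1 (by have := u.1.2; omega) u.2
    have h3 := key v.1 (by have := v.1.2; omega) v.2
    have h4 := Nat.div_add_mod (u.1 : ℕ) q
    have h5 := Nat.div_add_mod (v.1 : ℕ) q
    apply Subtype.ext
    apply Fin.ext
    rw [← h4, ← h5, h1, h2, h3]
  have := Fintype.card_le_of_injective g hg
  rwa [Fintype.card_fin] at this

end Pool.Agent.Z5
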