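import Pool.Agent.Z5.PGenJ
import Pool.Agent.Z5.PCnt
import Pool.Agent.Z5.PSelf
import Pool.Agent.Z5.PSym
import Pool.Agent.Z5.PRep
import Pool.Agent.Z5.Laplace

/-!
# `p`-adic part, range D: `6 p < q ^ 2`, `q ≤ 3 p`
-/

open Finset Polynomial

namespace Pool.Agent.Z5

namespace RangeD

variable {q L : ℕ}

/-- the class value of a class with `K` poles -/
def eD (j : ℕ) (K : ℕ) : ℤ :=
  if K = 0 then 0 else 6 * (K : ℤ) ^ 2 + (8 * j - 18) * K - (4 * (j : ℤ) ^ 2 - 4) / 3

theorem eD_le {j K k : ℕ} (hj : 1 ≤ j) (hK : K ≤ k + 1) (hjk : 2 * j + 2 ≤ 6 * k) :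
    eD j K ≤ 30 * ((k : ℤ) + 1) ^ 2 := by
  unfold eD
  split_ifs with h
  · positivity
  · have h1 : (0 : ℤ) ≤ (4 * (j : ℤ) ^ 2 - 4) / 3 := by
      apply Int.ediv_nonneg _ (by norm_num)
      have : (1 : ℤ) ≤ j := by exact_mod_cast hj
      nlinarith
    have hj' : (1 : ℤ) ≤ j := by exact_mod_cast hj
    have hK' : (K : ℤ) ≤ k + 1 := by exact_mod_cast hK
    have hK0 : (1 : ℤ) ≤ K := by exact_mod_cast Nat.one_le_iff_ne_zero.mpr h
    have hjk' : 2 * (j : ℤ) + 2 ≤ 6 * k := by exact_mod_cast hjk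
    have h2 : (K : ℤ) ^ 2 ≤ ((k : ℤ) + 1) ^ 2 := by nlinarith
    have h3 : (j : ℤ) * K ≤ (3 * (k : ℤ)) * (k + 1) := by
      apply mul_le_mul (by omega) hK' (by omega) (by omega)
    nlinarith

/-- there is at most one self-paired class -/
theorem self_unique (hodd : q % 2 = 1) {r r' : ℕ} (hr : r < q) (hr' : r' < q) (hrL : r ≤ L)
    (hrL' : r' ≤ L) (h : r = (L - r) % q) (h' : r' = (L - r') % q) : r = r' := by
  have e1 := Nat.div_add_mod (L - r) q
  have e2 := Nat.div_add_mod (L - r') q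
  rw [← h] at e1
  rw [← h'] at e2
  generalize (L - r) / q = a at e1
  generalize (L - r') / q = b at e2
  have e3 : q * a + 2 * r = q * b + 2 * r' := by omega
  rcases Nat.lt_trichotomy a b with hab | hab | hab
  · obtain ⟨d, rfl⟩ := Nat.exists_eq_add_of_lt hab
    have e4 : 2 * r = q * (d + 1) + 2 * r' := by
      have : q * (a + d + 1) = q * a + q * (d + 1) := by ring
      omega
    have hd : d = 0 := by
      by_contra hd
      have : q * 2 ≤ q * (d + 1) := Nat.mul_le_mul_left q (by omega)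
      omega
    subst hd
    omega
  · rw [hab] at e3; omega
  · obtain ⟨d, hd'⟩ := Nat.exists_eq_add_of_lt hab
    rw [hd'] at e3
    have e4 : 2 * r' = q * (d + 1) + 2 * r := by
      have : q * (b + d + 1) = q * b + q * (d + 1) := by ring
      omega
    have hd : d = 0 := by
      by_contra hd
      have : q * 2 ≤ q * (d + 1) := Nat.mul_le_mul_left q (by omega)
      omega
    subst hd
    omega

theorem PG_zero {q : ℕ} (k : ℤ) : PG q k (0 : ℚ[X]) := fun n => by
  rw [coeff_zero]; exact VG.zero _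

theorem PG_X_pow {q : ℕ} [Fact q.Prime] (n : ℕ) : PG q 0 (X ^ n : ℚ[X]) := fun k => by
  rw [coeff_X_pow]; split_ifs
  · exact VG.one
  · exact VG.zero _

theorem PG_C_mul_X_pow {q : ℕ} {k : ℤ} {x : ℚ} (hx : VG q k x) (n : ℕ) :
    PG q k (C x * X ^ n : ℚ[X]) := fun i => by
  rw [coeff_C_mul_X_pow]; split_ifs
  · exact hx
  · exact VG.zero _

end RangeD

open RangeD

theorem rangeD {q p : ℕ} {ξ : ℚ} [hq : Fact q.Prime]
    (eq : Fin (3 * p) × Fin 6 ≃ (Fin (5 * p) ⊕ Fin (5 * p)) ⊕ Fin (8 * p))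
    (h11 : 11 ≤ q) (hξ : VG q 0 ξ) (hpq : 6 * p < q ^ 2) (h' : q ≤ 3 * p) (j : ℕ)
    (hj : j % 3 ≠ 0) (hjK : 2 * j + 2 ≤ 6 * (6 * p / q)) :
    let e : ℤ → ℤ := fun K => 6 * K ^ 2 + (8 * j - 18) * K - (4 * (j : ℤ) ^ 2 - 4) / 3
    let k : ℤ := (6 * p / q : ℕ)
    VG q (-(4 * j - 1) * (5 * p) + ((6 * p - k * q) * e (k + 1) + ((k + 1) * q - 6 * p) * e k) / 2
      - 100 * (k + 1) ^ 2) (DM p ξ eq) := by
  intro e k
  have hqp : q.Prime := hq.out
  have h2 : q ≠ 2 := by omega
  have hodd : q % 2 = 1 := (hqp.eq_two_or_odd).resolve_left h2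
  have hj1 : 1 ≤ j := by omega
  have hq0 : 0 < q := hqp.pos
  set L := 6 * p - 1 with hL
  have hN : L + 1 = 6 * p := by omega
  have hL2 : L + 1 = 2 * (3 * p) := by omega
  set kn : ℕ := 6 * p / q with hkn
  have hk : k = (kn : ℤ) := rfl
  have hkn2 : 2 ≤ kn := by
    rw [hkn, Nat.le_div_iff_mul_le hq0]; omega
  have hLq : L < q ^ 2 := by omega
  -- the scaled columns
  set c : (Fin (5 * p) ⊕ Fin (5 * p)) ⊕ Fin (8 * p) → Col :=
    Sum.elim (Sum.elim (fun i : Fin (5 * p) => ((0, C ((q : ℚ) ^ (2 * j + 1)) * X ^ (i : ℕ), 0) : Col))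
      (fun i : Fin (5 * p) => ((0, 0, C ((q : ℚ) ^ (2 * j - 2)) * X ^ (i : ℕ)) : Col)))
      (fun i : Fin (8 * p) => ((X ^ (i : ℕ), 0, 0) : Col)) with hc
  have hsc := scale_det (L := L) ξ eq ((q : ℚ) ^ (2 * j + 1)) ((q : ℚ) ^ (2 * j - 2))
  have hcT : ∀ y, PG q 0 (c y).1 := by
    rintro ((i | i) | i)
    · exact PG_zero _
    · exact PG_zero _
    · exact PG_X_pow _
  have hcP : ∀ y, PG q (2 * j + 1) (c y).2.1 := by
    rintro ((i | i) | i)
    · exact PG_C_mul_X_pow (by have := VG.pow_self (q := q) (2 * j + 1); exact_mod_cast this) _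
    · exact PG_zero _
    · exact PG_zero _
  have hcQ : ∀ y, PG q (2 * j - 2) (c y).2.2 := by
    rintro ((i | i) | i)
    · exact PG_zero _
    · refine PG_C_mul_X_pow ?_ _
      have := VG.pow_self (q := q) (2 * j - 2)
      have e1 : ((2 * j - 2 : ℕ) : ℤ) = 2 * (j : ℤ) - 2 := by omega
      rwa [e1] at this
    · exact PG_zero _
  have hmonoP : ∀ y, PG q 0 (c y).2.1 := fun y n => (hcP y n).mono (by omega)
  have hmonoQ : ∀ y, PG q 0 (c y).2.2 := fun y n => (hcQ y n).mono (by omega)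
  -- the class bounds
  set im := (univ : Finset (Fin (3 * p))).image fun u : Fin (3 * p) => cl q L u with him
  set E : ℕ → ℤ := fun r => if r ∈ im then
    (if r = (L - r) % q then -(48 * (Fintype.card {u : Fin (3 * p) // cl q L u = r} : ℤ))
      else eD j ((L - r) / q + 1)) else 0 with hE
  have hlap := VG_laplace_six (q := q) (dmat L ξ (3 * p) c) eq (fun u : Fin (3 * p) => cl q L u) E
    (fun _ => 0) ?_
  swap
  · intro r f hf
    by_cases hr : r ∈ im
    · have hrr := image_cl (3 * p) hL2 h2 hr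
      simp only [mem_filter, mem_range] at hrr
      obtain ⟨hrq, hrle, hrL⟩ := hrr
      by_cases hs : r = (L - r) % q
      · have hEr : E r = -(48 * (Fintype.card {u : Fin (3 * p) // cl q L u = r} : ℤ)) := by
          simp only [hE]; rw [if_pos hr, if_pos hs]
        rw [hEr]
        exact self_bound (3 * p) hL2 hLq hξ c (fun _ => 0) (fun _ => by norm_num)
          (fun y => ⟨hcT y, hmonoP y, hmonoQ y⟩) f
      · have hEr : E r = eD j ((L - r) / q + 1) := by
          simp only [hE]; rw [if_pos hr, if_neg hs]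
        have hlt : r < (L - r) % q := lt_of_le_of_ne hrle hs
        have hcls := cls_exists (q := q) (L := L) hrq hrL
        obtain ⟨ee, hee⟩ := minor_eq (ξ := ξ) (3 * p) hL2 hcls hlt
        refine hee _ c f _ ?_
        have hKk : kn ≤ (L - r) / q + 1 := by
          rw [hkn, ← hN]
          have : (L + 1) / q ≤ ((L - r) + q) / q := Nat.div_le_div_right (by omega)
          rwa [Nat.add_div_right _ hq0] at this
        have hg := genj hcls hLq hξ j hj (by omega) (fun y => c (f (ee y))) (fun y => hcT _)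
          (fun y => hcP _) (fun y => hcQ _)
        refine hg.mono ?_
        rw [hEr]
        simp only [eD, Finset.sum_const_zero, add_zero]
        rw [if_neg (by omega)]
    · have hEr : E r = 0 := by simp only [hE]; rw [if_neg hr]
      have hemp : IsEmpty {u : Fin (3 * p) // cl q L u = r} := by
        refine ⟨fun u => hr ?_⟩
        rw [him, Finset.mem_image]
        exact ⟨u.1, mem_univ _, u.2⟩
      rw [hEr, Matrix.det_isEmpty]
      simp only [Finset.sum_const_zero, add_zero]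
      exact VG.one
  -- the sum over the classes
  have hsum : ∑ r ∈ im, E r + ∑ _y : (Fin (5 * p) ⊕ Fin (5 * p)) ⊕ Fin (8 * p), (0 : ℤ) ≥
      ((6 * p - k * q) * e (k + 1) + ((k + 1) * q - 6 * p) * e k) / 2 - 100 * (k + 1) ^ 2 := by
    rw [Finset.sum_const_zero, add_zero]
    have hcls := sum_cls (3 * p) hL2 h2 (eD j) (by simp [eD])
    obtain ⟨δ, hδ⟩ : ∃ δ : ℕ, δ = (if 2 ∣ (L / q + 1) then L / q + 1 else L / q) := ⟨_, rfl⟩
    rw [← hδ] at hcls
    have hLqk : L / q ≤ kn := by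
      rw [hkn]; exact Nat.div_le_div_right (by omega)
    have hδk : δ ≤ kn + 1 := by
      rw [hδ]; split_ifs <;> omega
    have heδ := eD_le (j := j) (K := δ) (k := kn) hj1 hδk hjK
    -- split
    have hsplit : ∑ r ∈ im, E r = ∑ r ∈ im.filter (fun r => r ≠ (L - r) % q), eD j ((L - r) / q + 1) +
        ∑ r ∈ im.filter (fun r => ¬ r ≠ (L - r) % q),
          -(48 * (Fintype.card {u : Fin (3 * p) // cl q L u = r} : ℤ)) := by
      rw [← Finset.sum_filter_add_sum_filter_not im (fun r => r ≠ (L - r) % q)]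
      congr 1
      · refine Finset.sum_congr rfl fun r hr => ?_
        rw [mem_filter] at hr
        simp only [hE]; rw [if_pos hr.1, if_neg hr.2]
      · refine Finset.sum_congr rfl fun r hr => ?_
        rw [mem_filter, not_not] at hr
        simp only [hE]; rw [if_pos hr.1, if_pos hr.2]
    have hself : -(48 * ((kn : ℤ) + 1)) ≤ ∑ r ∈ im.filter (fun r => ¬ r ≠ (L - r) % q),
          -(48 * (Fintype.card {u : Fin (3 * p) // cl q L u = r} : ℤ)) := by
      rcases (im.filter (fun r => ¬ r ≠ (L - r) % q)).eq_empty_or_nonempty with h0 | ⟨r0, hr0⟩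
      · rw [h0, Finset.sum_empty]; omega
      · have hone : im.filter (fun r => ¬ r ≠ (L - r) % q) = {r0} := by
          refine Finset.eq_singleton_iff_unique_mem.mpr ⟨hr0, fun r hr => ?_⟩
          rw [mem_filter, not_not] at hr hr0
          have a1 := image_cl (3 * p) hL2 h2 hr.1
          have a2 := image_cl (3 * p) hL2 h2 hr0.1
          simp only [mem_filter, mem_range] at a1 a2
          exact self_unique hodd a1.1 a2.1 a1.2.2 a2.2.2 hr.2 hr0.2
        rw [hone, Finset.sum_singleton]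
        rw [mem_filter, not_not] at hr0
        have a2 := image_cl (3 * p) hL2 h2 hr0.1
        simp only [mem_filter, mem_range] at a2
        have hcard := card_self (3 * p) hL2 h2 a2.1 hr0.2
        have : (Fintype.card {u : Fin (3 * p) // cl q L u = r0} : ℤ) ≤ kn + 1 := by
          exact_mod_cast hcard.trans (by omega)
        omega
    have e1 : (L + 1) / q = kn := by rw [hN]
    have e2 : (((L + 1) % q : ℕ) : ℤ) = 6 * p - k * q := by
      have h3 : q * kn + 6 * p % q = 6 * p := Nat.div_add_mod (6 * p) q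
      rw [hN, hk]
      have h4 : ((q : ℤ) * kn + ((6 * p % q : ℕ) : ℤ)) = 6 * (p : ℤ) := by exact_mod_cast h3
      linarith
    have e2' : ((q - (L + 1) % q : ℕ) : ℤ) = (k + 1) * q - 6 * p := by
      rw [Nat.cast_sub (Nat.mod_lt _ hq0).le, e2]; ring
    have e3 : eD j (kn + 1) = e (k + 1) := by
      simp only [eD, e]; rw [if_neg (by omega)]; push_cast; rfl
    have e4 : eD j kn = e k := by
      simp only [eD, e]; rw [if_neg (by omega)]
    rw [e1, e2, e2', e3, e4] at hcls
    rw [hsplit]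
    rw [← him] at hcls
    set S := (6 * (p : ℤ) - k * q) * e (k + 1) + ((k + 1) * q - 6 * p) * e k with hS
    have hk0 : (0 : ℤ) ≤ k := by rw [hk]; positivity
    have h6 : (k + 1) ≤ (k + 1) ^ 2 := by nlinarith
    rw [← hk] at heδ hself
    omega
  have hmain : VG q (((6 * p - k * q) * e (k + 1) + ((k + 1) * q - 6 * p) * e k) / 2 - 100 * (k + 1) ^ 2)
      ((dmat L ξ (3 * p) c).submatrix id eq).det := hlap.mono hsum
  rw [hc, hsc] at hmain
  have hq' : (q : ℚ) ≠ 0 := by exact_mod_cast hqp.ne_zero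
  have hDM : DM p ξ eq = ((q : ℚ) ^ (-((4 * (j : ℤ) - 1) * (5 * p)))) *
      (((q : ℚ) ^ (2 * j + 1)) ^ (5 * p) * ((q : ℚ) ^ (2 * j - 2)) ^ (5 * p) *
        ((dmat L ξ (3 * p) (stdc (5 * p) (5 * p) (8 * p))).submatrix id eq).det) := by
    rw [← pow_mul, ← pow_mul, ← pow_add, ← mul_assoc, ← zpow_natCast, ← zpow_add₀ hq']
    have e1 : -((4 * (j : ℤ) - 1) * (5 * p)) + (((2 * j + 1) * (5 * p) + (2 * j - 2) * (5 * p) : ℕ) : ℤ)
        = 0 := by
      have h3 : ((2 * j - 2 : ℕ) : ℤ) = 2 * j - 2 := by omega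
      push_cast
      rw [h3]; ring
    rw [e1, zpow_zero, one_mul]; rfl
  rw [hDM]
  refine ((VG.zpow_self _).mul hmain).mono ?_
  have : -(4 * (j : ℤ) - 1) * (5 * p) = -((4 * (j : ℤ) - 1) * (5 * p)) := by ring
  rw [this]
  omega

end Pool.Agent.Z5
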