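import Pool.Agent.Z5.PBounds
import Pool.Agent.Z5.RangeA
import Pool.Agent.Z5.RangeB
import Pool.Agent.Z5.RangeC
import Pool.Agent.Z5.RangeD
import Pool.Agent.Z5.SmallPrimes

/-!
# Irrationality of `ζ(5)`: the ranges give `PBounds`
-/

open Finset

namespace Pool.Agent.Z5

theorem VG_of_den_lt {q : ℕ} (hq : q.Prime) {ξ : ℚ} (h : ξ.den < q) : VG q 0 ξ := by
  by_cases h0 : ξ = 0
  · exact Or.inl h0
  · refine Or.inr ?_
    have : Fact q.Prime := ⟨hq⟩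
    rw [padicValRat_def]
    have h1 : padicValNat q ξ.den = 0 :=
      padicValNat.eq_zero_of_not_dvd fun hd => by
        have := Nat.le_of_dvd ξ.pos hd
        omega
    rw [h1]
    push_cast
    omega

theorem sq_mod_three {j : ℕ} (hj : ¬ 3 ∣ j) : ∃ m : ℤ, 4 * (j : ℤ) ^ 2 - 4 = 3 * m := by
  have h1 : (j : ℤ) % 3 = 1 ∨ (j : ℤ) % 3 = 2 := by omega
  rcases h1 with h1 | h1
  · obtain ⟨t, ht⟩ : ∃ t : ℤ, (j : ℤ) = 3 * t + 1 := ⟨(j : ℤ) / 3, by omega⟩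
    exact ⟨12 * t ^ 2 + 8 * t, by rw [ht]; ring⟩
  · obtain ⟨t, ht⟩ : ∃ t : ℤ, (j : ℤ) = 3 * t + 2 := ⟨(j : ℤ) / 3, by omega⟩
    exact ⟨12 * t ^ 2 + 16 * t + 4, by rw [ht]; ring⟩

theorem half_ge (X : ℤ) : ((X : ℝ) - 1) / 2 ≤ ((X / 2 : ℤ) : ℝ) := by
  have h : X - 1 ≤ 2 * (X / 2) := by omega
  have h' : ((X - 1 : ℤ) : ℝ) ≤ ((2 * (X / 2) : ℤ) : ℝ) := by exact_mod_cast h
  push_cast at h'
  linarith

theorem pbounds (ξ : ℚ) : ∃ C : ℝ, ∃ p0 : ℕ, ∀ p : ℕ, p0 ≤ p →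
    ∀ (eq : Fin (3 * p) × Fin 6 ≃ (Fin (5 * p) ⊕ Fin (5 * p)) ⊕ Fin (8 * p)),
    DM p ξ eq ≠ 0 → PBounds C p (fun q => padicValRat q (DM p ξ eq)) := by
  obtain ⟨C, hC⟩ := small_primes ξ
  refine ⟨max C 300, 121 + ξ.den ^ 2, fun p hp eq hD => ?_⟩
  have hp2 : 121 ≤ p := by omega
  have hden : ξ.den ^ 2 ≤ p := by omega
  have hC3 : (300 : ℝ) ≤ max C 300 := le_max_right _ _
  have key : ∀ q : ℕ, 6 * p < q ^ 2 → 11 ≤ q ∧ ξ.den < q := by
    intro q hq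
    constructor
    · by_contra h
      have h1 : q ≤ 10 := by omega
      have h2 : q ^ 2 ≤ 10 ^ 2 := Nat.pow_le_pow_left h1 2
      omega
    · by_contra h
      have h1 : q ≤ ξ.den := by omega
      have h2 : q ^ 2 ≤ ξ.den ^ 2 := Nat.pow_le_pow_left h1 2
      omega
  have key2 : ∀ q : ℕ, p < q → 6 * p < q ^ 2 := by
    intro q hq
    nlinarith
  refine ⟨?_, ?_, ?_, ?_, ?_, ?_⟩
  · intro q hq h
    have : Fact q.Prime := ⟨hq⟩
    obtain ⟨-, h2⟩ := key q (key2 q (by omega))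
    exact (range0 eq (VG_of_den_lt hq h2) (by omega)).val hD
  · intro q hq h h'
    have : Fact q.Prime := ⟨hq⟩
    obtain ⟨h1, h2⟩ := key q (key2 q (by omega))
    have h3 := (rangeA eq h1 (VG_of_den_lt hq h2) h h').val hD
    have h4 : ((8 * p - q : ℤ) : ℝ) ≤ ((padicValRat q (DM p ξ eq) : ℤ) : ℝ) := by exact_mod_cast h3
    push_cast at h4
    linarith
  · intro q hq h h'
    have : Fact q.Prime := ⟨hq⟩
    obtain ⟨h1, h2⟩ := key q (key2 q (by omega))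
    have h6 : q ≠ 6 * p := by
      rintro rfl
      exact absurd hq (Nat.not_prime_mul (by norm_num) (by omega))
    have h3 := (rangeB eq h1 (VG_of_den_lt hq h2) h (by omega)).val hD
    have h4 : ((-3 * (6 * p - q) + (8 * p - q) + ((max 0 (5 * p - q) : ℕ) : ℤ) - 100 : ℤ) : ℝ) ≤
      ((padicValRat q (DM p ξ eq) : ℤ) : ℝ) := by exact_mod_cast h3
    rw [max_comm] at h4
    rw [Int.cast_sub, Int.cast_add, Int.cast_natCast] at h4
    push_cast at h4 ⊢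
    linarith
  · intro q hq h h'
    have : Fact q.Prime := ⟨hq⟩
    obtain ⟨h1, h2⟩ := key q (key2 q (by omega))
    have h6 : q ≠ 3 * p := by
      rintro rfl
      exact absurd hq (Nat.not_prime_mul (by norm_num) (by omega))
    have h3 := (rangeC eq h1 (VG_of_den_lt hq h2) h (by omega)).val hD
    have h4 : ((-3 * (3 * q - 6 * p) + 4 * (3 * p - q) + (5 * q - 10 * p)
        + ((max 0 (5 * q - 13 * p) : ℕ) : ℤ) - 200 : ℤ) : ℝ) ≤
      ((padicValRat q (DM p ξ eq) : ℤ) : ℝ) := by exact_mod_cast h3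
    rw [max_comm] at h4
    rw [Int.cast_sub, Int.cast_add, Int.cast_natCast] at h4
    push_cast at h4 ⊢
    linarith
  · intro q hq h h' j hj1 hj3 hjk
    have : Fact q.Prime := ⟨hq⟩
    obtain ⟨h1, h2⟩ := key q h
    have h3 := rangeD eq h1 (VG_of_den_lt hq h2) h h' j (by omega) (by omega)
    obtain ⟨m, hm⟩ := sq_mod_three hj3
    simp only at h3
    have hm3 : (4 * (j : ℤ) ^ 2 - 4) / 3 = m := by
      rw [hm]; exact Int.mul_ediv_cancel_left m (by norm_num)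
    rw [hm3] at h3
    set k : ℤ := ((6 * p / q : ℕ) : ℤ) with hk
    have h4 := h3.val hD
    have hmR : (m : ℝ) = 4 / 3 * ((j : ℝ) ^ 2 - 1) := by
      have : ((4 * (j : ℤ) ^ 2 - 4 : ℤ) : ℝ) = ((3 * m : ℤ) : ℝ) := by rw [hm]
      push_cast at this
      linarith
    have h5 := half_ge (((6 * p - k * q) * (6 * (k + 1) ^ 2 + (8 * j - 18) * (k + 1) - m) +
      ((k + 1) * q - 6 * p) * (6 * k ^ 2 + (8 * j - 18) * k - m)))
    have h6 : ((-(4 * j - 1) * (5 * p) + ((6 * p - k * q) * (6 * (k + 1) ^ 2 +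
      (8 * j - 18) * (k + 1) - m) + ((k + 1) * q - 6 * p) * (6 * k ^ 2 + (8 * j - 18) * k - m)) / 2
      - 100 * (k + 1) ^ 2 : ℤ) : ℝ) ≤ ((padicValRat q (DM p ξ eq) : ℤ) : ℝ) := by
      exact_mod_cast h4
    have hkR : (((6 * p / q : ℕ) : ℕ) : ℝ) = (k : ℝ) := by rw [hk]; norm_cast
    have hk0 : (0 : ℝ) ≤ (k : ℝ) := by rw [← hkR]; positivity
    have hq0 : (0 : ℝ) < q := by exact_mod_cast hq.pos
    have hkle : (k : ℝ) ≤ 6 * p / q := by
      rw [← hkR]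
      have := @Nat.cast_div_le ℝ _ _ _ (6 * p) q
      push_cast at this
      exact this
    have hsq : ((k : ℝ) + 1) ^ 2 ≤ (6 * p / q + 1) ^ 2 := by gcongr
    have h1sq : (1 : ℝ) ≤ ((k : ℝ) + 1) ^ 2 := by nlinarith
    have h300 : 300 * (6 * (p : ℝ) / q + 1) ^ 2 ≤ max C 300 * (6 * p / q + 1) ^ 2 := by
      gcongr
    rw [hkR]
    push_cast at h5 h6
    rw [hmR] at h5
    have h7 : (p : ℝ) * (36 * k + 4 * j - 31) -
        q * (3 * k * (k + 1) + 2 / 3 * ((j : ℝ) ^ 2 - 1)) =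
        -(4 * j - 1) * (5 * p) + ((6 * p - k * q) * (6 * (k + 1) ^ 2 +
      (8 * j - 18) * (k + 1) - 4 / 3 * ((j : ℝ) ^ 2 - 1)) +
      ((k + 1) * q - 6 * p) * (6 * k ^ 2 + (8 * j - 18) * k - 4 / 3 * ((j : ℝ) ^ 2 - 1))) / 2 := by
      ring
    rw [h7]
    linarith
  · intro q hq h
    have h1 : 1 ≤ q := hq.pos
    have h3 := hC p (by omega) eq q hq (by nlinarith) hD
    have h4 : C * p * Real.log p ≤ max C 300 * p * Real.log p := by
      have h5 : 0 ≤ Real.log (p : ℝ) := Real.log_nonneg (by exact_mod_cast (by omega : 1 ≤ p))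
      have h6 : C ≤ max C 300 := le_max_left _ _
      gcongr
    linarith

end Pool.Agent.Z5
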