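import Pool.Agent.Z5.VG
import Pool.Agent.Z5.DualDet
import Pool.Agent.Z5.Laplace

/-!
# `p`-adic part: definitions

`q` is a prime, `L + 1 = 2 h`.  A column is a triple `(A, B, C)` of polynomials in `Y`; at the pole
`t = -u + ε` it is the series `tvec = A(Y) + B(Y) * kerP + C(Y) * ε ^ 2`; `kerP = -g`.
-/

open Finset Polynomial

namespace Pool.Agent.Z5

/-- all coefficients have `v_q ≥ k` -/
def PG (q : ℕ) (k : ℤ) (h : ℚ[X]) : Prop := ∀ n, VG q k (h.coeff n)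

/-- the first six coefficients have `v_q ≥ k` -/
def SG (q : ℕ) (k : ℤ) (f : PowerSeries ℚ) : Prop := ∀ n < 6, VG q k (PowerSeries.coeff n f)

/-- `r, r + q, …, r + q (K - 1)` are all the poles `≡ r` modulo `q` -/
structure Cls (q L r K : ℕ) : Prop where
  hr : r < q
  hK : 1 ≤ K
  hL : r + q * (K - 1) ≤ L
  hU : L < r + q * K

/-- the matrix of a class of poles -/
noncomputable def cmat (q L : ℕ) (ξ : ℚ) (r K : ℕ) (c : Fin K × Fin 6 → Col) :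
    Matrix (Fin K × Fin 6) (Fin K × Fin 6) ℚ :=
  Matrix.of fun x y => PowerSeries.coeff (x.2 : ℕ) (tvec L ξ (r + q * x.1) (c y))

/-- scaled column: `ε = q ζ` -/
noncomputable def sc (q L : ℕ) (ξ : ℚ) (r i : ℕ) (c : Col) : PowerSeries ℚ :=
  PowerSeries.rescale (q : ℚ) (tvec L ξ (r + q * i) c)

/-- `2 z + K - 1`, `z = ζ - i` -/
noncomputable def yv (K i : ℕ) : PowerSeries ℚ :=
  PowerSeries.C ((K : ℚ) - 1 - 2 * i) + 2 * PowerSeries.X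

/-- the singular part of `g` (times `q`) -/
noncomputable def gS (K i : ℕ) : PowerSeries ℚ :=
  ∑ m ∈ Finset.Icc 1 i, (PowerSeries.C (m : ℚ) - PowerSeries.X)⁻¹ +
    ∑ m ∈ Finset.Icc 1 (K - 1 - i), (PowerSeries.C (m : ℚ) + PowerSeries.X)⁻¹

/-- multiplication of a column by a polynomial -/
noncomputable def csm (Q : ℚ[X]) (c : Col) : Col := (Q * c.1, Q * c.2.1, Q * c.2.2)

/-- `H = 4 ^ (-q) ((q - 1)!) ^ (-2) ∏_{s < q} (Y - (L - 2 s) ^ 2)`, that is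
`((q - 1)!) ^ (-2) ∏_{s < q} (t + s) (t + L - s)` -/
noncomputable def Hp (q L : ℕ) : ℚ[X] :=
  C (((4 : ℚ) ^ q * ((q - 1).factorial : ℚ) ^ 2)⁻¹) *
    ∏ s ∈ range q, (X - C (((L : ℚ) - 2 * s) ^ 2))

/-- `∑_{n = 1}^{q - 1} 1 / (n (q - n))` -/
def om (q : ℕ) : ℚ := ∑ n ∈ Finset.Icc 1 (q - 1), 1 / ((n : ℚ) * ((q : ℚ) - n))

/-- first relation `Q (ε ^ 2 - H)` -/
noncomputable def col1 (q L : ℕ) (Q : ℚ[X]) : Col := (-(Q * Hp q L), 0, Q)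

/-- second relation `Q (ε ^ 2 (1 + ω H) + q g H - H)`, `g = -kerP` -/
noncomputable def col2 (q L : ℕ) (Q : ℚ[X]) : Col :=
  (-(Q * Hp q L), -(C (q : ℚ) * (Q * Hp q L)), Q * (1 + C (om q) * Hp q L))

/-- `z = ζ - i` -/
noncomputable def zz (i : ℕ) : PowerSeries ℚ := PowerSeries.X - PowerSeries.C (i : ℚ)

/-- `σ = -1 / (1 + ζ)` at `i = 0`, `-1 / (1 - ζ)` at `i = 1` (class with two poles) -/
noncomputable def sg2 (i : ℕ) : PowerSeries ℚ :=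
  -(1 + PowerSeries.C (1 - 2 * (i : ℚ)) * PowerSeries.X)⁻¹

/-- the lattice of a class with two poles, level `J` (in the variable `ζ`) -/
def Adm2 (q : ℕ) (J : ℤ) (F : Fin 2 → PowerSeries ℚ) : Prop :=
  ∃ A B : ℚ[X], PG q J A ∧ PG q (J - 1) B ∧ ∀ i : Fin 2,
    SG q (5 + J) (F i - (aeval (PowerSeries.C (q : ℚ) * zz i) A +
      aeval (PowerSeries.C (q : ℚ) * zz i) B * sg2 i))

/-- kernels: `0 ↦ 1`, `1 ↦ gS`, `2 ↦ ζ ^ 2` -/
noncomputable def ker3 (K i : ℕ) (s : Fin 3) : PowerSeries ℚ := ![1, gS K i, PowerSeries.X ^ 2] s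

/-- weight of the generator `(s, a)` -/
def wt (j : ℕ) (x : Fin 3 × ℕ) : ℤ := x.2 + if x.1 = 0 then 0 else 2 * (j : ℤ)

/-- `∏ (1 + X / (n (q - n)))` -/
noncomputable def Om (q : ℕ) : ℚ[X] :=
  ∏ n ∈ Finset.Icc 1 (q - 1), (1 + C (1 / ((n : ℚ) * ((q : ℚ) - n))) * X)

/-- `∏ (1 - X / n ^ 2)` -/
noncomputable def Om1 (q : ℕ) : ℚ[X] := ∏ n ∈ Finset.Icc 1 (q - 1), (1 - C (1 / (n : ℚ) ^ 2) * X)

/-- class function on `Y`-poles -/
def cl (q L u : ℕ) : ℕ := min (u % q) ((L - u) % q)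

/-- the determinant of the dual matrix for `L + 1 = 6 p`, `a = b = 5 p`, `m = 8 p` -/
noncomputable def DM (p : ℕ) (ξ : ℚ)
    (eq : Fin (3 * p) × Fin 6 ≃ (Fin (5 * p) ⊕ Fin (5 * p)) ⊕ Fin (8 * p)) : ℚ :=
  ((dmat (6 * p - 1) ξ (3 * p) (stdc (5 * p) (5 * p) (8 * p))).submatrix id eq).det

end Pool.Agent.Z5
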