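import Mathlib

/-! Verified fixed point enclosures of `Real.log n`, fit for kernel evaluation.  Seat: helper6. -/

namespace Pool.Agent.Z5

/-- lower series: `p / k + (p x2 / 2^48) / (k+2) + ...` with floors -/
def serLo (x2 : ℕ) : ℕ → ℕ → ℕ → ℕ
  | 0, _, _ => 0
  | f + 1, k, p => p / k + serLo x2 f (k + 2) (p * x2 / 2 ^ 48)

/-- upper series with ceilings and a tail term, valid if `x^2 ≤ 1/9` -/
def serHi (x2 : ℕ) : ℕ → ℕ → ℕ → ℕ
  | 0, k, p => p * 9 / (8 * k) + 1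
  | f + 1, k, p => (p / k + 1) + serHi x2 f (k + 2) (p * x2 / 2 ^ 48 + 1)

/-- partial sum of the artanh series starting at exponent `k` -/
noncomputable def ser (x : ℝ) : ℕ → ℕ → ℝ → ℝ
  | 0, _, _ => 0
  | f + 1, k, p => p / k + ser x f (k + 2) (p * x ^ 2)

theorem serLo_le (x : ℝ) (x2 : ℕ) (hx2 : (x2 : ℝ) ≤ x ^ 2 * 2 ^ 48) :
    ∀ (f k p : ℕ) (P : ℝ), (p : ℝ) ≤ P * 2 ^ 48 → 0 ≤ P →
      (serLo x2 f k p : ℝ) ≤ ser x f k P * 2 ^ 48 := by
  intro f
  induction f with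
  | zero => intro k p P h hP; simp [serLo, ser]
  | succ f ih =>
    intro k p P h hP
    simp only [serLo, ser]
    push_cast
    have h1 : ((p / k : ℕ) : ℝ) ≤ P / k * 2 ^ 48 := by
      calc ((p / k : ℕ) : ℝ) ≤ (p : ℝ) / k := Nat.cast_div_le
        _ ≤ (P * 2 ^ 48) / k := by gcongr
        _ = P / k * 2 ^ 48 := by ring
    have h2 : ((p * x2 / 2 ^ 48 : ℕ) : ℝ) ≤ P * x ^ 2 * 2 ^ 48 := by
      calc ((p * x2 / 2 ^ 48 : ℕ) : ℝ) ≤ ((p * x2 : ℕ) : ℝ) / ((2 ^ 48 : ℕ) : ℝ) := Nat.cast_div_le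
        _ = (p : ℝ) * x2 / 2 ^ 48 := by push_cast; ring
        _ ≤ (P * 2 ^ 48) * (x ^ 2 * 2 ^ 48) / 2 ^ 48 := by gcongr
        _ = P * x ^ 2 * 2 ^ 48 := by ring
    have h3 := ih (k + 2) (p * x2 / 2 ^ 48) (P * x ^ 2) h2 (by positivity)
    push_cast at h3
    rw [add_mul]
    exact add_le_add h1 h3

theorem lt_div_add_one (a b : ℕ) (hb : 0 < b) : (a : ℝ) / b ≤ ((a / b : ℕ) : ℝ) + 1 := by
  have h := Nat.lt_div_mul_add (a := a) hb
  rw [div_le_iff₀ (by exact_mod_cast hb)]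
  have : (a : ℝ) < ((a / b : ℕ) : ℝ) * b + b := by exact_mod_cast h
  nlinarith

theorem le_serHi (x : ℝ) (x2 : ℕ) (hx2 : x ^ 2 * 2 ^ 48 ≤ (x2 : ℝ)) :
    ∀ (f k p : ℕ) (P : ℝ), 0 < k → P * 2 ^ 48 ≤ (p : ℝ) → 0 ≤ P →
      (ser x f k P + P * x ^ (2 * f) * (9 / 8) / (k + 2 * f)) * 2 ^ 48 ≤ (serHi x2 f k p : ℝ) := by
  intro f
  induction f with
  | zero =>
    intro k p P hk h hP
    simp only [serHi, ser]
    push_cast
    have hk' : (0 : ℝ) < k := by exact_mod_cast hk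
    have h1 := lt_div_add_one (p * 9) (8 * k) (by omega)
    push_cast at h1
    refine le_trans ?_ h1
    simp only [Nat.cast_zero, mul_zero, pow_zero, add_zero, zero_add, mul_one]
    rw [le_div_iff₀ (by positivity)]
    have : P * (9 / 8) / (k : ℝ) * 2 ^ 48 * (8 * k) = P * 2 ^ 48 * 9 := by
      field_simp
    rw [this]
    nlinarith
  | succ f ih =>
    intro k p P hk h hP
    simp only [serHi, ser]
    have hk' : (0 : ℝ) < k := by exact_mod_cast hk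
    have h1 : P / k * 2 ^ 48 ≤ ((p / k : ℕ) : ℝ) + 1 := by
      refine le_trans ?_ (lt_div_add_one p k hk)
      rw [div_mul_eq_mul_div]
      gcongr
    have h2 : P * x ^ 2 * 2 ^ 48 ≤ ((p * x2 / 2 ^ 48 + 1 : ℕ) : ℝ) := by
      have h4 := lt_div_add_one (p * x2) (2 ^ 48) (by positivity)
      push_cast at h4 ⊢
      refine le_trans ?_ h4
      rw [le_div_iff₀ (by positivity)]
      have h5 : (P * 2 ^ 48) * (x ^ 2 * 2 ^ 48) ≤ (p : ℝ) * x2 := by gcongr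
      nlinarith [h5]
    have h3 := ih (k + 2) (p * x2 / 2 ^ 48 + 1) (P * x ^ 2) (by omega) h2 (by positivity)
    push_cast at h3 ⊢
    have e : P * x ^ (2 * (f + 1)) * (9 / 8) / ((k : ℝ) + 2 * (f + 1))
        = P * x ^ 2 * x ^ (2 * f) * (9 / 8) / ((k : ℝ) + 2 + 2 * f) := by
      rw [show 2 * (f + 1) = 2 * f + 2 by ring, pow_add]
      congr 1
      · ring
      · ring
    rw [e]
    nlinarith [h1, h3]

theorem ser_eq_sum (x : ℝ) : ∀ (f k : ℕ) (P : ℝ),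
    ser x f k P = ∑ i ∈ Finset.range f, P * x ^ (2 * i) / ((k : ℝ) + 2 * i) := by
  intro f
  induction f with
  | zero => intro k P; simp [ser]
  | succ f ih =>
    intro k P
    rw [ser, ih, Finset.sum_range_succ']
    simp only [mul_zero, pow_zero, mul_one, Nat.cast_zero, add_zero]
    rw [add_comm]
    congr 1
    refine Finset.sum_congr rfl fun i _ => ?_
    push_cast
    rw [show 2 * (i + 1) = 2 * i + 2 by ring, pow_add]
    congr 1
    · ring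
    · ring

/-- the artanh series against the logarithm -/
theorem ser_bounds (x : ℝ) (h0 : 0 ≤ x) (h1 : x ^ 2 ≤ 1 / 9) (f : ℕ) :
    2 * ser x f 1 x ≤ Real.log ((1 + x) / (1 - x)) ∧
    Real.log ((1 + x) / (1 - x)) ≤ 2 * (ser x f 1 x + x * x ^ (2 * f) * (9 / 8) / (1 + 2 * f)) := by
  have hx1 : x < 1 := by nlinarith
  have hs := Real.hasSum_log_sub_log_of_abs_lt_one (x := x) (by rw [abs_of_nonneg h0]; exact hx1)
  have hlog : Real.log ((1 + x) / (1 - x)) = Real.log (1 + x) - Real.log (1 - x) :=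
    Real.log_div (by linarith) (by linarith)
  rw [hlog]
  have hpos : ∀ i : ℕ, 0 ≤ (2 : ℝ) * (1 / (2 * i + 1)) * x ^ (2 * i + 1) := fun i => by positivity
  have hsum : 2 * ser x f 1 x = ∑ i ∈ Finset.range f, (2 : ℝ) * (1 / (2 * i + 1)) * x ^ (2 * i + 1) := by
    rw [ser_eq_sum, Finset.mul_sum]
    refine Finset.sum_congr rfl fun i _ => ?_
    push_cast
    rw [pow_succ]
    field_simp
    ring
  constructor
  · rw [hsum]
    exact sum_le_hasSum _ (fun i _ => hpos i) hs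
  · have htail := (hasSum_nat_add_iff' f).mpr hs
    have hgeo : HasSum (fun i : ℕ => (2 * x * x ^ (2 * f) / (1 + 2 * f)) * (x ^ 2) ^ i)
        ((2 * x * x ^ (2 * f) / (1 + 2 * f)) * (1 - x ^ 2)⁻¹) :=
      (hasSum_geometric_of_lt_one (by positivity) (by linarith)).mul_left _
    have hle := hasSum_le (fun i => ?_) htail hgeo
    · have h9 : (1 - x ^ 2)⁻¹ ≤ 9 / 8 := by
        rw [inv_le_comm₀ (by linarith) (by norm_num)]
        linarith
      have h10 : (2 * x * x ^ (2 * f) / (1 + 2 * f)) * (1 - x ^ 2)⁻¹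
          ≤ (2 * x * x ^ (2 * f) / (1 + 2 * f)) * (9 / 8) := by
        gcongr
      rw [mul_add, hsum]
      have h11 : 2 * (x * x ^ (2 * f) * (9 / 8) / (1 + 2 * (f : ℝ)))
          = (2 * x * x ^ (2 * f) / (1 + 2 * f)) * (9 / 8) := by ring
      rw [h11]
      linarith
    · push_cast
      have e1 : (2 : ℝ) * (1 / (2 * (i + f) + 1)) * x ^ (2 * (i + f) + 1)
          = (2 * x * x ^ (2 * f)) * (x ^ 2) ^ i / (2 * (i + f) + 1) := by
        rw [← pow_mul, show 2 * (i + f) + 1 = 2 * i + 2 * f + 1 by ring, pow_add, pow_add]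
        ring
      rw [e1, div_mul_eq_mul_div]
      apply div_le_div_of_nonneg_left (by positivity) (by positivity)
      have : (0 : ℝ) ≤ i := Nat.cast_nonneg i
      linarith

/-- lower bound of `log n * 2^48` minus `k log 2` part -/
def fracLo (n m : ℕ) : ℕ :=
  let X := (n - m) * 2 ^ 48 / (n + m)
  serLo (X * X / 2 ^ 48) 9 1 X

def fracHi (n m : ℕ) : ℕ :=
  let X := (n - m) * 2 ^ 48 / (n + m) + 1
  serHi (X * X / 2 ^ 48 + 1) 9 1 X

theorem frac_bounds (n m : ℕ) (hm : 0 < m) (h1 : m ≤ n) (h2 : n ≤ 2 * m) :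
    2 * (fracLo n m : ℝ) ≤ Real.log ((n : ℝ) / m) * 2 ^ 48 ∧
    Real.log ((n : ℝ) / m) * 2 ^ 48 ≤ 2 * (fracHi n m : ℝ) := by
  have hm' : (0 : ℝ) < m := by exact_mod_cast hm
  have h1' : (m : ℝ) ≤ n := by exact_mod_cast h1
  have h2' : (n : ℝ) ≤ 2 * m := by exact_mod_cast h2
  set x : ℝ := ((n : ℝ) - m) / (n + m) with hx
  have hx0 : 0 ≤ x := div_nonneg (by linarith) (by linarith)
  have hx3 : x ≤ 1 / 3 := by
    rw [hx, div_le_div_iff₀ (by linarith) (by norm_num)]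
    linarith
  have hx9 : x ^ 2 ≤ 1 / 9 := by nlinarith
  have hlog : (1 + x) / (1 - x) = (n : ℝ) / m := by
    have : (n : ℝ) + m ≠ 0 := by linarith
    have e1 : 1 + x = 2 * n / (n + m) := by rw [hx]; field_simp; ring
    have e2 : 1 - x = 2 * m / (n + m) := by rw [hx]; field_simp; ring
    rw [e1, e2, div_div_div_cancel_right₀ this, mul_div_mul_left _ _ two_ne_zero]
  obtain ⟨b1, b2⟩ := ser_bounds x hx0 hx9 9
  rw [hlog] at b1 b2
  have hc : (((n - m) * 2 ^ 48 : ℕ) : ℝ) / ((n + m : ℕ) : ℝ) = x * 2 ^ 48 := by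
    push_cast [Nat.cast_sub h1]
    rw [hx]; ring
  constructor
  · have hX : (((n - m) * 2 ^ 48 / (n + m) : ℕ) : ℝ) ≤ x * 2 ^ 48 := by
      rw [← hc]; exact Nat.cast_div_le
    have hX2 : (((n - m) * 2 ^ 48 / (n + m) * ((n - m) * 2 ^ 48 / (n + m)) / 2 ^ 48 : ℕ) : ℝ)
        ≤ x ^ 2 * 2 ^ 48 := by
      refine le_trans Nat.cast_div_le ?_
      rw [Nat.cast_mul, Nat.cast_pow, Nat.cast_ofNat, div_le_iff₀ (by positivity)]
      calc _ ≤ (x * 2 ^ 48) * (x * 2 ^ 48) := by gcongr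
        _ = x ^ 2 * 2 ^ 48 * 2 ^ 48 := by ring
    have h := serLo_le x _ hX2 9 1 _ x hX hx0
    have : (fracLo n m : ℝ) ≤ ser x 9 1 x * 2 ^ 48 := h
    nlinarith
  · have hX : x * 2 ^ 48 ≤ (((n - m) * 2 ^ 48 / (n + m) + 1 : ℕ) : ℝ) := by
      rw [← hc]; push_cast
      have := lt_div_add_one ((n - m) * 2 ^ 48) (n + m) (by omega)
      push_cast at this
      exact this
    have hX2 : x ^ 2 * 2 ^ 48 ≤ ((((n - m) * 2 ^ 48 / (n + m) + 1) * ((n - m) * 2 ^ 48 / (n + m) + 1)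
        / 2 ^ 48 + 1 : ℕ) : ℝ) := by
      have := lt_div_add_one (((n - m) * 2 ^ 48 / (n + m) + 1) * ((n - m) * 2 ^ 48 / (n + m) + 1))
        (2 ^ 48) (by positivity)
      rw [Nat.cast_add, Nat.cast_one]
      refine le_trans ?_ this
      rw [Nat.cast_pow, Nat.cast_ofNat, le_div_iff₀ (by positivity), Nat.cast_mul]
      calc x ^ 2 * 2 ^ 48 * 2 ^ 48 = (x * 2 ^ 48) * (x * 2 ^ 48) := by ring
        _ ≤ _ := by gcongr
    have h := le_serHi x _ hX2 9 1 _ x (by norm_num) hX hx0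
    have h' : (ser x 9 1 x + x * x ^ (2 * 9) * (9 / 8) / (((1 : ℕ) : ℝ) + 2 * ((9 : ℕ) : ℝ))) * 2 ^ 48
      ≤ (fracHi n m : ℝ) := h
    push_cast at h' b2
    nlinarith

/-- `2^48 log 2` -/
def l2Lo : ℕ := 2 * fracLo 2 1
def l2Hi : ℕ := 2 * fracHi 2 1

def logLo (n : ℕ) : ℕ :=
  let k := Nat.log2 n
  k * l2Lo + 2 * fracLo n (2 ^ k)

def logHi (n : ℕ) : ℕ :=
  let k := Nat.log2 n
  k * l2Hi + 2 * fracHi n (2 ^ k)

theorem log_bounds (n : ℕ) (hn : n ≠ 0) :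
    (logLo n : ℝ) ≤ Real.log n * 2 ^ 48 ∧ Real.log n * 2 ^ 48 ≤ (logHi n : ℝ) := by
  have hk1 : 2 ^ Nat.log2 n ≤ n := Nat.log2_self_le hn
  have hk2 : n ≤ 2 * 2 ^ Nat.log2 n := by
    have := Nat.lt_log2_self (n := n)
    have h2 : 2 ^ (Nat.log2 n + 1) = 2 * 2 ^ Nat.log2 n := by ring
    omega
  obtain ⟨a1, a2⟩ := frac_bounds n (2 ^ Nat.log2 n) (by positivity) hk1 hk2
  obtain ⟨c1, c2⟩ := frac_bounds 2 1 (by norm_num) (by norm_num) (by norm_num)
  have hlog : Real.log n = Nat.log2 n * Real.log 2 + Real.log ((n : ℝ) / ((2 ^ Nat.log2 n : ℕ) : ℝ)) := by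
    rw [Real.log_div (by exact_mod_cast hn) (by positivity)]
    push_cast
    rw [Real.log_pow]
    ring
  have e2 : Real.log (((2 : ℕ) : ℝ) / ((1 : ℕ) : ℝ)) = Real.log 2 := by norm_num
  rw [e2] at c1 c2
  have hk0 : (0 : ℝ) ≤ (Nat.log2 n : ℝ) := Nat.cast_nonneg _
  constructor
  · simp only [logLo, l2Lo]
    push_cast
    rw [hlog, add_mul]
    have : (Nat.log2 n : ℝ) * (2 * (fracLo 2 1 : ℝ)) ≤ Nat.log2 n * Real.log 2 * 2 ^ 48 := by
      rw [mul_assoc]; exact mul_le_mul_of_nonneg_left c1 hk0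
    push_cast at a1 ⊢
    linarith
  · simp only [logHi, l2Hi]
    push_cast
    rw [hlog, add_mul]
    have : Nat.log2 n * Real.log 2 * 2 ^ 48 ≤ (Nat.log2 n : ℝ) * (2 * (fracHi 2 1 : ℝ)) := by
      rw [mul_assoc]; exact mul_le_mul_of_nonneg_left c2 hk0
    push_cast at a2 ⊢
    linarith

end Pool.Agent.Z5
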