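import Mathlib

/-! # Lower bounds of the `q`-adic valuation of rational numbers -/

open Finset

namespace Pool.Agent.Z5

/-- `x = 0` or the valuation of `x` is at least `k` -/
def VG (q : ℕ) (k : ℤ) (x : ℚ) : Prop := x = 0 ∨ k ≤ padicValRat q x

variable {q : ℕ} [hq : Fact q.Prime] {k l : ℤ} {x y : ℚ}

omit hq in
theorem VG.zero (k : ℤ) : VG q k 0 := Or.inl rfl

omit hq in
theorem VG.mono (h : VG q k x) (hl : l ≤ k) : VG q l x := h.imp id fun h => hl.trans h

omit hq in
theorem VG.val (h : VG q k x) (hx : x ≠ 0) : k ≤ padicValRat q x := h.resolve_left hx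

omit hq in
theorem VG.self (x : ℚ) : VG q (padicValRat q x) x := Or.inr le_rfl

theorem VG.add (hx : VG q k x) (hy : VG q k y) : VG q k (x + y) := by
  by_cases h0 : x + y = 0
  · exact Or.inl h0
  rcases hx with rfl | hx
  · rw [zero_add]; exact hy
  rcases hy with rfl | hy
  · rw [add_zero]; exact Or.inr hx
  exact Or.inr ((le_min hx hy).trans (padicValRat.min_le_padicValRat_add h0))

theorem VG.neg (hx : VG q k x) : VG q k (-x) := by
  rcases hx with rfl | hx
  · exact Or.inl neg_zero
  · exact Or.inr (by rwa [padicValRat.neg])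

theorem VG.neg_iff : VG q k (-x) ↔ VG q k x :=
  ⟨fun h => by simpa using h.neg, fun h => h.neg⟩

theorem VG.sub (hx : VG q k x) (hy : VG q k y) : VG q k (x - y) := by
  rw [sub_eq_add_neg]; exact hx.add hy.neg

theorem VG.mul (hx : VG q k x) (hy : VG q l y) : VG q (k + l) (x * y) := by
  rcases hx with rfl | hx
  · rw [zero_mul]; exact VG.zero _
  rcases hy with rfl | hy
  · rw [mul_zero]; exact VG.zero _
  by_cases hx0 : x = 0
  · rw [hx0, zero_mul]; exact VG.zero _
  by_cases hy0 : y = 0
  · rw [hy0, mul_zero]; exact VG.zero _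
  exact Or.inr (by rw [padicValRat.mul hx0 hy0]; omega)

theorem VG.one : VG q 0 1 := Or.inr (by simp)

theorem VG.int (n : ℤ) : VG q 0 (n : ℚ) := Or.inr (by rw [padicValRat.of_int]; positivity)

theorem VG.nat (n : ℕ) : VG q 0 (n : ℚ) := by simpa using VG.int (q := q) (n : ℤ)

theorem VG.of_dvd {n : ℤ} {k : ℕ} (h : (q : ℤ) ^ k ∣ n) : VG q k (n : ℚ) := by
  by_cases h0 : n = 0
  · rw [h0, Int.cast_zero]; exact VG.zero _
  refine Or.inr ?_
  rw [padicValRat.of_int]
  exact_mod_cast (padicValInt_dvd_iff k n).1 h |>.resolve_left h0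

theorem VG.zpow_self (k : ℤ) : VG q k ((q : ℚ) ^ k) := by
  refine Or.inr ?_
  rw [padicValRat.zpow, padicValRat.self hq.out.one_lt]; simp

theorem VG.pow_self (k : ℕ) : VG q k ((q : ℚ) ^ k) := by
  exact_mod_cast VG.zpow_self (q := q) (k : ℤ)

theorem VG.self_prime : VG q 1 (q : ℚ) := by simpa using VG.pow_self (q := q) 1

theorem VG.pow (hx : VG q k x) (n : ℕ) : VG q (n * k) (x ^ n) := by
  induction n with
  | zero => simpa using VG.one
  | succ n ih => rw [pow_succ]; exact (ih.mul hx).mono (by push_cast; ring_nf; omega)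

theorem VG.pow_zero (hx : VG q 0 x) (n : ℕ) : VG q 0 (x ^ n) := by simpa using hx.pow n

theorem VG.mul_int (hx : VG q k x) (hy : VG q 0 y) : VG q k (x * y) := by simpa using hx.mul hy

theorem VG.int_mul (hx : VG q 0 x) (hy : VG q k y) : VG q k (x * y) := by simpa using hx.mul hy

theorem VG.sum {ι : Type*} (s : Finset ι) (f : ι → ℚ) (h : ∀ i ∈ s, VG q k (f i)) :
    VG q k (∑ i ∈ s, f i) := by
  classical
  induction s using Finset.induction_on with
  | empty => simpa using VG.zero k
  | insert a s ha ih =>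
    rw [sum_insert ha]
    exact (h a (mem_insert_self _ _)).add (ih fun i hi => h i (mem_insert_of_mem hi))

theorem VG.prod {ι : Type*} (s : Finset ι) (f : ι → ℚ) (e : ι → ℤ) (h : ∀ i ∈ s, VG q (e i) (f i)) :
    VG q (∑ i ∈ s, e i) (∏ i ∈ s, f i) := by
  classical
  induction s using Finset.induction_on with
  | empty => simpa using VG.one
  | insert a s ha ih =>
    rw [sum_insert ha, prod_insert ha]
    exact (h a (mem_insert_self _ _)).mul (ih fun i hi => h i (mem_insert_of_mem hi))

/-- determinant of a matrix whose entries have valuation at least `r i + c j` -/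
theorem VG.det {n : Type*} [Fintype n] [DecidableEq n] (A : Matrix n n ℚ) (r c : n → ℤ)
    (h : ∀ i j, VG q (r i + c j) (A i j)) : VG q (∑ i, r i + ∑ j, c j) A.det := by
  rw [Matrix.det_apply]
  refine VG.sum _ _ fun σ _ => ?_
  have h1 : VG q (∑ i, (r (σ i) + c i)) (∏ i, A (σ i) i) := VG.prod _ _ _ fun i _ => h _ _
  rw [sum_add_distrib, Equiv.sum_comp σ r] at h1
  rcases Int.units_eq_one_or (Equiv.Perm.sign σ) with hs | hs
  · rw [hs, one_smul]; exact h1
  · rw [hs, Units.neg_smul, one_smul]; exact h1.neg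

/-- entries of valuation `≥ 0` -/
theorem VG.det_zero {n : Type*} [Fintype n] [DecidableEq n] (A : Matrix n n ℚ)
    (h : ∀ i j, VG q 0 (A i j)) : VG q 0 A.det := by
  simpa using VG.det A (fun _ => 0) (fun _ => 0) (by simpa using h)

end Pool.Agent.Z5
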