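import Pool.Agent.Z5.NVRing

/-!
# Non-vanishing: the power series `W` is congruent to `1` modulo `p` (Wilson)
-/

open Finset Polynomial

namespace Pool.Agent.Z5.NV
open Pool.Agent.Z5

variable {p : ℕ} {hp : p.Prime}

/-- integers congruent modulo `p` are congruent -/
theorem cg_of_dvd {n m : ℤ} (h : (p : ℤ) ∣ n - m) : Cg p hp (n : ℚ) (m : ℚ) := by
  obtain ⟨k, hk⟩ := h
  refine ⟨(k : ℚ), Zp_int k, ?_⟩
  have : ((n - m : ℤ) : ℚ) = ((p * k : ℤ) : ℚ) := by rw [hk]
  push_cast at this
  exact this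

/-- inverse of a number congruent to a unit -/
theorem cg_inv {a b : ℚ} (h : Cg p hp a b) (hb : Un p hp b) : Cg p hp a⁻¹ b⁻¹ ∧ a⁻¹ ∈ Zp p hp := by
  have ha0 : a ≠ 0 := h.ne_zero hb
  obtain ⟨c, hc, hac⟩ := h
  -- `a / b = 1 + p c / b`
  obtain ⟨hb0, hbm, hbi⟩ := hb
  have hcb : c * b⁻¹ ∈ Zp p hp := (Zp p hp).mul_mem hc hbi
  obtain ⟨d, hd, n, hn⟩ := hcb
  have hab : a = b * (1 + p * (c * b⁻¹)) := by
    field_simp
    linarith
  have hd0 : (d : ℚ) ≠ 0 := by
    intro h0
    have : d = 0 := by exact_mod_cast h0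
    exact hd (by rw [this]; exact dvd_zero _)
  have hnd : ¬ (p : ℤ) ∣ d + p * n := by
    intro hh
    exact hd ((Int.dvd_add_left (Dvd.intro n rfl)).mp hh)
  have hq : (1 + p * (c * b⁻¹)) * d = ((d + p * n : ℤ) : ℚ) := by
    push_cast
    rw [add_mul, one_mul, mul_assoc, hn]
  have hdn0 : (((d + p * n : ℤ)) : ℚ) ≠ 0 := by
    intro h0
    have : d + p * n = 0 := by exact_mod_cast h0
    exact hnd (by rw [this]; exact dvd_zero _)
  have hq0 : (1 + p * (c * b⁻¹)) ≠ 0 := by
    intro h0
    rw [h0, zero_mul] at hq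
    exact hdn0 hq.symm
  have hinv : (1 + p * (c * b⁻¹))⁻¹ ∈ Zp p hp := by
    refine ⟨d + p * n, hnd, d, ?_⟩
    rw [← hq, inv_mul_cancel_left₀ hq0]
  have hai : a⁻¹ = b⁻¹ * (1 + p * (c * b⁻¹))⁻¹ := by
    rw [hab, mul_inv]
  have haim : a⁻¹ ∈ Zp p hp := by
    rw [hai]
    exact (Zp p hp).mul_mem hbi hinv
  refine ⟨⟨- (c * (a⁻¹ * b⁻¹)), ?_, ?_⟩, haim⟩
  · exact (Zp p hp).neg_mem ((Zp p hp).mul_mem hc ((Zp p hp).mul_mem haim hbi))
  · field_simp
    linarith

/-- `f` and `g` are congruent modulo `p`, and `g` has `p`-integral coefficients -/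
def SC (p : ℕ) (hp : p.Prime) (f g : PowerSeries ℚ) : Prop :=
  ∀ k, Cg p hp (PowerSeries.coeff k f) (PowerSeries.coeff k g) ∧ PowerSeries.coeff k g ∈ Zp p hp

theorem SC.mul {f g f' g' : PowerSeries ℚ} (h : SC p hp f g) (h' : SC p hp f' g') :
    SC p hp (f * f') (g * g') := by
  intro k
  rw [PowerSeries.coeff_mul, PowerSeries.coeff_mul]
  refine ⟨Cg.sum _ _ _ fun ij _ => ?_, (Zp p hp).sum_mem fun ij _ => ?_⟩
  · exact Cg.mul (h ij.1).1 (h' ij.2).1 (h ij.1).2 ((h' ij.2).1.mem (h' ij.2).2)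
  · exact (Zp p hp).mul_mem (h ij.1).2 (h' ij.2).2

theorem SC.one : SC p hp 1 1 := by
  intro k
  refine ⟨Cg.refl _, ?_⟩
  rw [PowerSeries.coeff_one]
  split_ifs
  · exact (Zp p hp).one_mem
  · exact (Zp p hp).zero_mem

theorem SC.pow {f g : PowerSeries ℚ} (h : SC p hp f g) (n : ℕ) : SC p hp (f ^ n) (g ^ n) := by
  induction n with
  | zero => simpa using SC.one
  | succ n ih => rw [pow_succ, pow_succ]; exact ih.mul h

theorem SC.prod {ι : Type*} (s : Finset ι) (f g : ι → PowerSeries ℚ)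
    (h : ∀ i ∈ s, SC p hp (f i) (g i)) : SC p hp (∏ i ∈ s, f i) (∏ i ∈ s, g i) := by
  classical
  induction s using Finset.induction_on with
  | empty => simpa using SC.one
  | insert a s ha ih =>
    rw [Finset.prod_insert ha, Finset.prod_insert ha]
    exact (h a (Finset.mem_insert_self _ _)).mul
      (ih fun i hi => h i (Finset.mem_insert_of_mem hi))

/-- Wilson for differences -/
theorem prod_sub_mod (hp : p.Prime) {a : ℕ} (ha : a < p) :
    (p : ℤ) ∣ (∏ b ∈ (range p).erase a, ((b : ℤ) - a)) - (-1) := by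
  have := Fact.mk hp
  rw [← ZMod.intCast_zmod_eq_zero_iff_dvd]
  push_cast
  have hw := ZMod.prod_Ico_one_prime p
  have h2 : ∏ b ∈ (range p).erase a, ((b : ZMod p) - a) = ∏ x ∈ Finset.Ico 1 p, (x : ZMod p) := by
    refine Finset.prod_nbij' (fun b => (b + p - a) % p) (fun x => (x + a) % p) ?_ ?_ ?_ ?_ ?_
    · intro b hb
      rw [Finset.mem_erase, Finset.mem_range] at hb
      rw [Finset.mem_Ico]
      refine ⟨?_, Nat.mod_lt _ hp.pos⟩
      by_contra hcon
      have h0 : (b + p - a) % p = 0 := by omega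
      obtain ⟨c, hc⟩ := Nat.dvd_of_mod_eq_zero h0
      have hc1 : c < 2 := by
        by_contra hc2
        have : p * 2 ≤ p * c := Nat.mul_le_mul_left _ (by omega)
        omega
      interval_cases c <;> omega
    · intro x hx
      rw [Finset.mem_Ico] at hx
      rw [Finset.mem_erase, Finset.mem_range]
      refine ⟨?_, Nat.mod_lt _ hp.pos⟩
      intro h0
      rcases Nat.lt_or_ge (x + a) p with h1 | h1
      · rw [Nat.mod_eq_of_lt h1] at h0
        omega
      · rw [Nat.mod_eq_sub_mod h1, Nat.mod_eq_of_lt (by omega)] at h0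
        omega
    · intro b hb
      rw [Finset.mem_erase, Finset.mem_range] at hb
      show ((b + p - a) % p + a) % p = b
      rcases Nat.lt_or_ge b a with h1 | h1
      · rw [Nat.mod_eq_of_lt (by omega : b + p - a < p)]
        have : b + p - a + a = b + p := by omega
        rw [this, Nat.add_mod_right, Nat.mod_eq_of_lt hb.2]
      · have : (b + p - a) % p = b - a := by
          have e : b + p - a = (b - a) + p := by omega
          rw [e, Nat.add_mod_right, Nat.mod_eq_of_lt (by omega)]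
        rw [this, Nat.sub_add_cancel h1, Nat.mod_eq_of_lt hb.2]
    · intro x hx
      rw [Finset.mem_Ico] at hx
      show ((x + a) % p + p - a) % p = x
      rcases Nat.lt_or_ge (x + a) p with h1 | h1
      · rw [Nat.mod_eq_of_lt h1]
        have : x + a + p - a = x + p := by omega
        rw [this, Nat.add_mod_right, Nat.mod_eq_of_lt hx.2]
      · rw [Nat.mod_eq_sub_mod h1, Nat.mod_eq_of_lt (by omega : x + a - p < p)]
        have : x + a - p + p - a = x := by omega
        rw [this, Nat.mod_eq_of_lt hx.2]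
    · intro b hb
      rw [Finset.mem_erase, Finset.mem_range] at hb
      show (b : ZMod p) - a = (((b + p - a) % p : ℕ) : ZMod p)
      rw [ZMod.natCast_mod, Nat.cast_sub (by omega : a ≤ b + p)]
      simp
  rw [h2, hw]
  ring

theorem W_SC (hp : p.Prime) {M : ℕ} {E : ℕ → ℕ} (hT : Even (∑ n ∈ range M, E n))
    {a m : ℕ} (ha : a < p) : SC p hp (W p M E a m) 1 := by
  -- first step: replace every factor by `C (b - a)`
  have h1 : SC p hp (W p M E a m)
      (∏ n ∈ range M, ∏ b ∈ (range p).erase a, (PowerSeries.C ((b : ℚ) - a)) ^ E n) := by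
    unfold W
    refine SC.prod _ _ _ fun n _ => SC.prod _ _ _ fun b _ => SC.pow ?_ _
    intro k
    have hint : (b : ℚ) - a = (((b : ℤ) - a : ℤ) : ℚ) := by push_cast; ring
    constructor
    · rw [map_add, PowerSeries.coeff_C_mul, PowerSeries.coeff_C, PowerSeries.coeff_C,
        PowerSeries.coeff_X]
      refine ⟨(if k = 0 then ((n : ℚ) - m) else 0) + (if k = 1 then 1 else 0), ?_, ?_⟩
      · refine (Zp p hp).add_mem ?_ ?_
        · split_ifs
          · exact (Zp p hp).sub_mem (Zp_nat n) (Zp_nat m)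
          · exact (Zp p hp).zero_mem
        · split_ifs
          · exact (Zp p hp).one_mem
          · exact (Zp p hp).zero_mem
      · by_cases hk : k = 0
        · subst hk; simp
        · simp [hk]
    · rw [PowerSeries.coeff_C]
      split_ifs
      · exact (Zp p hp).sub_mem (Zp_nat b) (Zp_nat a)
      · exact (Zp p hp).zero_mem
  -- the constant
  have h2 : (∏ n ∈ range M, ∏ b ∈ (range p).erase a, (PowerSeries.C ((b : ℚ) - a)) ^ E n)
      = PowerSeries.C ((((∏ b ∈ (range p).erase a, ((b : ℤ) - a)) ^ (∑ n ∈ range M, E n) : ℤ)) : ℚ) := by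
    have h3 : ∀ n ∈ range M, (∏ b ∈ (range p).erase a, (PowerSeries.C ((b : ℚ) - a)) ^ E n)
        = PowerSeries.C ((∏ b ∈ (range p).erase a, ((b : ℚ) - a)) ^ E n) := by
      intro n _
      rw [Finset.prod_pow, map_pow, map_prod]
    rw [Finset.prod_congr rfl h3, ← map_prod]
    congr 1
    push_cast
    rw [Finset.prod_pow_eq_pow_sum]
  intro k
  obtain ⟨h4, h5⟩ := h1 k
  rw [h2] at h4
  refine ⟨h4.trans ?_, ?_⟩
  · rw [PowerSeries.coeff_C, PowerSeries.coeff_one]
    split_ifs with hk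
    · have hd : (p : ℤ) ∣ (∏ b ∈ (range p).erase a, ((b : ℤ) - a)) ^ (∑ n ∈ range M, E n) - 1 := by
        have h6 := prod_sub_mod hp ha
        have h7 := h6.trans (sub_dvd_pow_sub_pow (∏ b ∈ (range p).erase a, ((b : ℤ) - a)) (-1)
          (∑ n ∈ range M, E n))
        rwa [hT.neg_one_pow] at h7
      have h8 := cg_of_dvd (hp := hp) hd
      rwa [Int.cast_one] at h8
    · exact Cg.refl _
  · rw [PowerSeries.coeff_one]
    split_ifs
    · exact (Zp p hp).one_mem
    · exact (Zp p hp).zero_mem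

/-- the inverse of a power series congruent to `1` is congruent to `1` -/
theorem inv_SC {f : PowerSeries ℚ} (h : SC p hp f 1) : SC p hp f⁻¹ 1 := by
  have hc : Cg p hp (PowerSeries.coeff 0 f) 1 := by
    have := (h 0).1
    rwa [PowerSeries.coeff_zero_one] at this
  have hU : Un p hp (1 : ℚ) := ⟨one_ne_zero, (Zp p hp).one_mem, by simp⟩
  have hf0 : PowerSeries.constantCoeff f ≠ 0 := by
    rw [← PowerSeries.coeff_zero_eq_constantCoeff_apply]
    exact hc.ne_zero hU
  have hmul : f * f⁻¹ = 1 := PowerSeries.mul_inv_cancel _ hf0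
  obtain ⟨hi1, hi2⟩ := cg_inv hc hU
  rw [inv_one] at hi1
  have key : ∀ k, Cg p hp (PowerSeries.coeff k f⁻¹) (PowerSeries.coeff k (1 : PowerSeries ℚ)) := by
    intro k
    induction k using Nat.strong_induction_on with
    | _ k ih =>
      rcases Nat.eq_zero_or_pos k with hk | hk
      · subst hk
        have h8 : PowerSeries.coeff 0 f⁻¹ = (PowerSeries.coeff 0 f)⁻¹ := by
          simp
        rw [h8, PowerSeries.coeff_zero_one]
        exact hi1
      · have hk0 : k ≠ 0 := by omega
        have h9 : PowerSeries.coeff k (f * f⁻¹) = 0 := by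
          rw [hmul, PowerSeries.coeff_one, if_neg hk0]
        rw [PowerSeries.coeff_mul, Finset.Nat.sum_antidiagonal_eq_sum_range_succ
          (fun i j => PowerSeries.coeff i f * PowerSeries.coeff j f⁻¹), Finset.sum_range_succ'] at h9
        have h10 : Cg p hp (∑ i ∈ range k, PowerSeries.coeff (i + 1) f * PowerSeries.coeff (k - (i + 1)) f⁻¹)
            (∑ i ∈ range k, 0 * PowerSeries.coeff (k - (i + 1)) (1 : PowerSeries ℚ)) := by
          refine Cg.sum _ _ _ fun i hi => ?_
          have hi' := Finset.mem_range.mp hi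
          have e1 := (h (i + 1)).1
          rw [PowerSeries.coeff_one, if_neg (by omega : i + 1 ≠ 0)] at e1
          have e2 := ih (k - (i + 1)) (by omega)
          refine Cg.mul e1 e2 (Zp p hp).zero_mem (e2.mem ?_)
          rw [PowerSeries.coeff_one]
          split_ifs
          · exact (Zp p hp).one_mem
          · exact (Zp p hp).zero_mem
        simp only [zero_mul, Finset.sum_const_zero] at h10
        obtain ⟨c, hcm, hc'⟩ := h10
        rw [sub_zero] at hc'
        rw [hc', Nat.sub_zero] at h9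
        rw [PowerSeries.coeff_one, if_neg hk0]
        have hf0' : PowerSeries.coeff 0 f ≠ 0 := hc.ne_zero hU
        refine ⟨-(c * (PowerSeries.coeff 0 f)⁻¹), (Zp p hp).neg_mem ((Zp p hp).mul_mem hcm hi2), ?_⟩
        field_simp
        linarith
  intro k
  refine ⟨key k, ?_⟩
  rw [PowerSeries.coeff_one]
  split_ifs
  · exact (Zp p hp).one_mem
  · exact (Zp p hp).zero_mem

theorem W_inv_cg (hp : p.Prime) (_h2 : p ≠ 2) {M : ℕ} {E : ℕ → ℕ} (hT : Even (∑ n ∈ range M, E n))
    {a m : ℕ} (ha : a < p) (_hm : m < M) (k : ℕ) :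
    Cg p hp (PowerSeries.coeff k (W p M E a m)⁻¹) (if k = 0 then 1 else 0) := by
  have h := (inv_SC (W_SC (m := m) hp hT ha) k).1
  rwa [PowerSeries.coeff_one] at h

end Pool.Agent.Z5.NV
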