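import Pool.Agent.Z5.NVDefs

/-!
# `p`-integral rational numbers and congruences
-/

open Finset Polynomial

namespace Pool.Agent.Z5.NV

variable {p : ℕ} {hp : p.Prime} {a b a' b' : ℚ}

theorem mem_Zp {q : ℚ} : q ∈ Zp p hp ↔ ∃ d : ℤ, ¬ (p : ℤ) ∣ d ∧ ∃ n : ℤ, q * d = n := Iff.rfl

theorem Zp_int (n : ℤ) : (n : ℚ) ∈ Zp p hp := intCast_mem _ n

theorem Zp_nat (n : ℕ) : (n : ℚ) ∈ Zp p hp := natCast_mem _ n

theorem Zp_inv_int {n : ℤ} (h : ¬ (p : ℤ) ∣ n) : ((n : ℚ))⁻¹ ∈ Zp p hp := by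
  refine ⟨n, h, 1, ?_⟩
  have hn : (n : ℚ) ≠ 0 := by
    intro h0
    exact h (by rw [show n = 0 by exact_mod_cast h0]; exact dvd_zero _)
  rw [inv_mul_cancel₀ hn, Int.cast_one]

theorem Zp_large (q : ℚ) : ∃ p0 : ℕ, ∀ (p : ℕ) (hp : p.Prime), p0 ≤ p → q ∈ Zp p hp := by
  refine ⟨q.den + 1, fun p hp h => ⟨(q.den : ℤ), fun hd => ?_, q.num, ?_⟩⟩
  · have h1 : p ∣ q.den := by exact_mod_cast hd
    have h2 := Nat.le_of_dvd q.den_pos h1
    omega
  · exact_mod_cast Rat.mul_den_eq_num q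

theorem Un_int {n : ℤ} (h : ¬ (p : ℤ) ∣ n) : Un p hp (n : ℚ) := by
  refine ⟨fun h0 => h ?_, Zp_int n, Zp_inv_int h⟩
  rw [show n = 0 by exact_mod_cast h0]
  exact dvd_zero _

theorem Un_large (q : ℚ) (hq : q ≠ 0) :
    ∃ p0 : ℕ, ∀ (p : ℕ) (hp : p.Prime), p0 ≤ p → Un p hp q := by
  obtain ⟨p1, h1⟩ := Zp_large q
  obtain ⟨p2, h2⟩ := Zp_large q⁻¹
  exact ⟨max p1 p2, fun p hp h =>
    ⟨hq, h1 p hp (le_trans (le_max_left _ _) h), h2 p hp (le_trans (le_max_right _ _) h)⟩⟩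

theorem Un.mul (h : Un p hp a) (h' : Un p hp b) : Un p hp (a * b) := by
  refine ⟨mul_ne_zero h.1 h'.1, mul_mem h.2.1 h'.2.1, ?_⟩
  rw [mul_inv]
  exact mul_mem h.2.2 h'.2.2

theorem Un_one : Un p hp 1 := ⟨one_ne_zero, one_mem _, by rw [inv_one]; exact one_mem _⟩

theorem Un.pow (h : Un p hp a) (n : ℕ) : Un p hp (a ^ n) := by
  induction n with
  | zero => rw [pow_zero]; exact Un_one
  | succ n ih => rw [pow_succ]; exact ih.mul h

theorem Un.inv (h : Un p hp a) : Un p hp a⁻¹ :=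
  ⟨inv_ne_zero h.1, h.2.2, by rw [inv_inv]; exact h.2.1⟩

theorem Un.neg (h : Un p hp a) : Un p hp (-a) :=
  ⟨neg_ne_zero.mpr h.1, neg_mem h.2.1, by rw [inv_neg]; exact neg_mem h.2.2⟩

theorem Un.prod {ι : Type*} (s : Finset ι) (f : ι → ℚ) (h : ∀ i ∈ s, Un p hp (f i)) :
    Un p hp (∏ i ∈ s, f i) := by
  classical
  induction s using Finset.induction_on with
  | empty => rw [Finset.prod_empty]; exact Un_one
  | insert c s hc ih =>
    rw [Finset.prod_insert hc]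
    exact (h c (by simp)).mul (ih fun i hi => h i (by simp [hi]))

theorem Cg.refl (a : ℚ) : Cg p hp a a := ⟨0, zero_mem _, by simp⟩

theorem Cg.symm (h : Cg p hp a b) : Cg p hp b a := by
  obtain ⟨c, hc, h⟩ := h
  exact ⟨-c, neg_mem hc, by rw [mul_neg, ← h]; ring⟩

theorem Cg.trans {c : ℚ} (h : Cg p hp a b) (h' : Cg p hp b c) : Cg p hp a c := by
  obtain ⟨x, hx, h⟩ := h
  obtain ⟨y, hy, h'⟩ := h'
  exact ⟨x + y, add_mem hx hy, by rw [mul_add, ← h, ← h']; ring⟩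

theorem Cg.add (h : Cg p hp a b) (h' : Cg p hp a' b') : Cg p hp (a + a') (b + b') := by
  obtain ⟨x, hx, h⟩ := h
  obtain ⟨y, hy, h'⟩ := h'
  exact ⟨x + y, add_mem hx hy, by rw [mul_add, ← h, ← h']; ring⟩

theorem Cg.neg (h : Cg p hp a b) : Cg p hp (-a) (-b) := by
  obtain ⟨x, hx, h⟩ := h
  exact ⟨-x, neg_mem hx, by rw [mul_neg, ← h]; ring⟩

theorem Cg.sub (h : Cg p hp a b) (h' : Cg p hp a' b') : Cg p hp (a - a') (b - b') := by
  rw [sub_eq_add_neg, sub_eq_add_neg]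
  exact h.add h'.neg

theorem Cg.sum {ι : Type*} (s : Finset ι) (f g : ι → ℚ) (h : ∀ i ∈ s, Cg p hp (f i) (g i)) :
    Cg p hp (∑ i ∈ s, f i) (∑ i ∈ s, g i) := by
  classical
  induction s using Finset.induction_on with
  | empty => exact Cg.refl _
  | insert c s hc ih =>
    rw [Finset.sum_insert hc, Finset.sum_insert hc]
    exact (h c (by simp)).add (ih fun i hi => h i (by simp [hi]))

/-- one factor on each side must be integral -/
theorem Cg.mul (h : Cg p hp a b) (h' : Cg p hp a' b') (hb : b ∈ Zp p hp) (ha' : a' ∈ Zp p hp) :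
    Cg p hp (a * a') (b * b') := by
  obtain ⟨x, hx, h⟩ := h
  obtain ⟨y, hy, h'⟩ := h'
  refine ⟨x * a' + b * y, add_mem (mul_mem hx ha') (mul_mem hb hy), ?_⟩
  have h1 : a * a' - b * b' = (a - b) * a' + b * (a' - b') := by ring
  rw [h1, h, h']
  ring

theorem Zp_p : (p : ℚ) ∈ Zp p hp := Zp_nat p

/-- `b` integral, `a ≡ b` implies `a` integral -/
theorem Cg.mem (h : Cg p hp a b) (hb : b ∈ Zp p hp) : a ∈ Zp p hp := by
  obtain ⟨x, hx, h⟩ := h
  have h1 : a = b + p * x := by rw [← h]; ring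
  rw [h1]
  exact add_mem hb (mul_mem Zp_p hx)

/-- `1 / p` is not `p`-integral -/
theorem not_unit_p {z : ℚ} (hz : z ∈ Zp p hp) : (p : ℚ) * z ≠ 1 := by
  rintro h1
  obtain ⟨d, hd, n, h⟩ := hz
  apply hd
  refine ⟨n, ?_⟩
  have h2 : (d : ℚ) = (p : ℚ) * n := by
    calc (d : ℚ) = (p * z) * d := by rw [h1, one_mul]
      _ = p * (z * d) := by ring
      _ = p * n := by rw [h]
  exact_mod_cast h2

/-- a number congruent to a unit is not zero -/
theorem Cg.ne_zero (h : Cg p hp a b) (hb : Un p hp b) : a ≠ 0 := by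
  rintro rfl
  obtain ⟨c, hc, h⟩ := h
  refine not_unit_p (p := p) (hp := hp) (z := -c * b⁻¹) (mul_mem (neg_mem hc) hb.2.2) ?_
  have h1 : b = -(p * c) := by rw [← h]; ring
  calc (p : ℚ) * (-c * b⁻¹) = (-(p * c)) * b⁻¹ := by ring
    _ = b * b⁻¹ := by rw [← h1]
    _ = 1 := mul_inv_cancel₀ hb.1

/-- a number congruent to a unit is a unit -/
theorem Cg.unit (h : Cg p hp a b) (hb : Un p hp b) : Un p hp a := by
  have ha := h.ne_zero hb
  refine ⟨ha, h.mem hb.2.1, ?_⟩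
  obtain ⟨c, hc, h⟩ := h
  -- `a = b (1 + p c / b)`; write `a * d = n` with `p ∤ n`
  have h2 : a ∈ Zp p hp := Cg.mem ⟨c, hc, h⟩ hb.2.1
  obtain ⟨d, hd, n, hn⟩ := h2
  have hd0 : (d : ℚ) ≠ 0 := by
    intro h0
    exact hd (by rw [show d = 0 by exact_mod_cast h0]; exact dvd_zero _)
  have hpn : ¬ (p : ℤ) ∣ n := by
    rintro ⟨k, hk⟩
    have h3 : a = p * (k * (d : ℚ)⁻¹) := by
      rw [← mul_assoc, ← div_eq_mul_inv, eq_div_iff hd0, hn, hk]
      push_cast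
      ring
    have h4 : Cg p hp 0 b :=
      ⟨c - k * (d : ℚ)⁻¹, sub_mem hc (mul_mem (Zp_int k) (Zp_inv_int hd)), by
        rw [mul_sub, ← h, ← h3]; ring⟩
    exact h4.ne_zero hb rfl
  have hn0 : (n : ℚ) ≠ 0 := by
    intro h0
    exact hpn (by rw [show n = 0 by exact_mod_cast h0]; exact dvd_zero _)
  refine ⟨n, hpn, d, ?_⟩
  rw [← hn]
  field_simp

theorem Cg.of_mem {c : ℚ} (hc : c ∈ Zp p hp) : Cg p hp (p * c) 0 := ⟨c, hc, by ring⟩

theorem Cg.pow (h : Cg p hp a b) (hb : b ∈ Zp p hp) (n : ℕ) : Cg p hp (a ^ n) (b ^ n) := by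
  induction n with
  | zero => rw [pow_zero, pow_zero]; exact Cg.refl _
  | succ n ih => rw [pow_succ, pow_succ]; exact ih.mul h (pow_mem hb n) (h.mem hb)

theorem Cg.prod {ι : Type*} (s : Finset ι) (f g : ι → ℚ) (hg : ∀ i ∈ s, g i ∈ Zp p hp)
    (h : ∀ i ∈ s, Cg p hp (f i) (g i)) : Cg p hp (∏ i ∈ s, f i) (∏ i ∈ s, g i) := by
  classical
  induction s using Finset.induction_on with
  | empty => exact Cg.refl _
  | insert c s hc ih =>
    rw [Finset.prod_insert hc, Finset.prod_insert hc]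
    have h1 := ih (fun i hi => hg i (by simp [hi])) (fun i hi => h i (by simp [hi]))
    exact (h c (by simp)).mul h1 (hg c (by simp))
      (h1.mem (prod_mem fun i hi => hg i (by simp [hi])))

/-- determinants of congruent integral matrices are congruent (ring homomorphism
`Zp → Zp / (p)` and `RingHom.map_det`) -/
theorem det_cg {ι : Type*} [Fintype ι] [DecidableEq ι] (A B : Matrix ι ι ℚ)
    (hB : ∀ i j, B i j ∈ Zp p hp) (h : ∀ i j, Cg p hp (A i j) (B i j)) :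
    Cg p hp A.det B.det := by
  classical
  have hA : ∀ i j, A i j ∈ Zp p hp := fun i j => (h i j).mem (hB i j)
  let A' : Matrix ι ι (Zp p hp) := Matrix.of fun i j => ⟨A i j, hA i j⟩
  let B' : Matrix ι ι (Zp p hp) := Matrix.of fun i j => ⟨B i j, hB i j⟩
  have hA' : A = A'.map (Zp p hp).subtype := by
    ext i j; rfl
  have hB' : B = B'.map (Zp p hp).subtype := by
    ext i j; rfl
  have e1 : A.det = ((A'.det : Zp p hp) : ℚ) := by
    conv_lhs => rw [hA']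
    exact ((Zp p hp).subtype.map_det A').symm
  have e2 : B.det = ((B'.det : Zp p hp) : ℚ) := by
    conv_lhs => rw [hB']
    exact ((Zp p hp).subtype.map_det B').symm
  set I : Ideal (Zp p hp) := Ideal.span {((p : ℕ) : Zp p hp)} with hI
  have e3 : Ideal.Quotient.mk I A'.det = Ideal.Quotient.mk I B'.det := by
    rw [RingHom.map_det, RingHom.map_det]
    congr 1
    ext i j
    simp only [RingHom.mapMatrix_apply, Matrix.map_apply]
    rw [Ideal.Quotient.mk_eq_mk_iff_sub_mem, hI, Ideal.mem_span_singleton]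
    obtain ⟨c, hc, h1⟩ := h i j
    refine ⟨⟨c, hc⟩, Subtype.ext ?_⟩
    push_cast
    exact h1
  rw [Ideal.Quotient.mk_eq_mk_iff_sub_mem, hI, Ideal.mem_span_singleton] at e3
  obtain ⟨c, hc⟩ := e3
  refine ⟨c, c.2, ?_⟩
  rw [e1, e2]
  have := congrArg (Subtype.val) hc
  push_cast at this
  exact this

end Pool.Agent.Z5.NV
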