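import Pool.Agent.Z5.ArchEn

/-! The reference densities used for `ζ(5)` (equal blocks, `M = 6`, `s = s' = 5`): data.
Seat: helper6. -/

open Finset

namespace Pool.Agent.Z5

/-- edges of the blocks of `X`, in units of `1/200` -/
def eX : List ℕ := [600, 1230, 1277, 1372, 1493, 1640, 1828, 2064, 2367, 2770, 3298]
/-- densities of the blocks of `X`, in units of `1/1000` -/
def cX : List ℕ := [1000, 854, 596, 439, 327, 241, 173, 118, 76, 37]
def eZ : List ℕ := [0, 131, 229, 311, 377, 432, 476, 513]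
def cZ : List ℕ := [2208, 2158, 2073, 1943, 1759, 1490, 1047]

def NX : NRef where
  B := 10
  e := fun i => eX.getD i 0
  c := fun i => cX.getD i 0
  s := 5

def NZ : NRef where
  B := 7
  e := fun i => eZ.getD i 0
  c := fun i => cZ.getD i 0
  s := 5

/-- reference density of the `F` rows -/
def XX : Ref where
  B := 10
  ed := fun i => ((eX.getD i 0 : ℕ) : ℚ) / 200
  d := fun i => ((cX.getD i 0 : ℕ) : ℚ) / 1000
  s := 5
  B_pos := by norm_num
  ed_zero := by positivity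
  ed_lt := by decide +kernel
  d_pos := by decide +kernel
  total := by decide +kernel

/-- reference density of the `ρ` rows -/
def ZZ : Ref where
  B := 7
  ed := fun i => ((eZ.getD i 0 : ℕ) : ℚ) / 200
  d := fun i => ((cZ.getD i 0 : ℕ) : ℚ) / 1000
  s := 5
  B_pos := by norm_num
  ed_zero := by positivity
  ed_lt := by decide +kernel
  d_pos := by decide +kernel
  total := by decide +kernel

theorem reprX : Repr 200 1000 NX XX := by
  refine ⟨rfl, ?_, ?_, rfl⟩ <;> intro i _ <;> simp [XX, NX]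

theorem reprZ : Repr 200 1000 NZ ZZ := by
  refine ⟨rfl, ?_, ?_, rfl⟩ <;> intro i _ <;> simp [ZZ, NZ]

/-- jumps of `gF` -/
def tsF : List Trm :=
 [⟨true, 50, 131⟩,
  ⟨true, 85, 229⟩,
  ⟨true, 130, 311⟩,
  ⟨true, 184, 377⟩,
  ⟨true, 269, 432⟩,
  ⟨true, 443, 476⟩,
  ⟨true, 1047, 513⟩,
  ⟨false, 8000, 600⟩,
  ⟨true, 292, 1230⟩,
  ⟨true, 516, 1277⟩,
  ⟨true, 314, 1372⟩,
  ⟨true, 224, 1493⟩,
  ⟨true, 172, 1640⟩,
  ⟨true, 136, 1828⟩,
  ⟨true, 110, 2064⟩,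
  ⟨true, 84, 2367⟩,
  ⟨true, 78, 2770⟩,
  ⟨true, 74, 3298⟩]

/-- jumps of `gR` -/
def tsR : List Trm :=
 [⟨true, 100, 131⟩,
  ⟨true, 170, 229⟩,
  ⟨true, 260, 311⟩,
  ⟨true, 368, 377⟩,
  ⟨true, 538, 432⟩,
  ⟨true, 886, 476⟩,
  ⟨true, 2094, 513⟩,
  ⟨false, 7000, 600⟩,
  ⟨true, 146, 1230⟩,
  ⟨true, 258, 1277⟩,
  ⟨true, 157, 1372⟩,
  ⟨true, 112, 1493⟩,
  ⟨true, 86, 1640⟩,
  ⟨true, 68, 1828⟩,
  ⟨true, 55, 2064⟩,
  ⟨true, 42, 2367⟩,
  ⟨true, 39, 2770⟩,
  ⟨true, 37, 3298⟩]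

/-- jumps of `-gF` -/
def tsFm : List Trm :=
 [⟨false, 50, 131⟩,
  ⟨false, 85, 229⟩,
  ⟨false, 130, 311⟩,
  ⟨false, 184, 377⟩,
  ⟨false, 269, 432⟩,
  ⟨false, 443, 476⟩,
  ⟨false, 1047, 513⟩,
  ⟨true, 8000, 600⟩,
  ⟨false, 292, 1230⟩,
  ⟨false, 516, 1277⟩,
  ⟨false, 314, 1372⟩,
  ⟨false, 224, 1493⟩,
  ⟨false, 172, 1640⟩,
  ⟨false, 136, 1828⟩,
  ⟨false, 110, 2064⟩,
  ⟨false, 84, 2367⟩,
  ⟨false, 78, 2770⟩,
  ⟨false, 74, 3298⟩]

def cellsF : List ℕ := [1239, 1277, 1289, 1306, 1343, 1372, 1388, 1411, 1456, 1493, 1513, 1540, 1589, 1640, 1657, 1679, 1704, 1761, 1828, 1854, 1889, 1942, 2055, 2064, 2096, 2139, 2198, 2321, 2367, 2453, 2556, 2749, 2770, 2826, 2897, 2982, 3147, 3298, 3344, 3388, 3437, 3548, 3833, 4572, 4880]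
def cellsR : List ℕ := [11, 24, 39, 58, 83, 116, 131, 143, 156, 173, 198, 227, 229, 241, 256, 279, 309, 311, 321, 334, 355, 377, 383, 392, 405, 430, 432, 438, 447, 462, 476, 480, 485, 494, 513, 522, 541, 600]
def cellsS : List ℕ := [1025, 1183, 1220, 1228, 1230]

set_option maxRecDepth 100000 in
theorem okF : cellsOk 200 tsF 0 3759665 1230 cellsF = true := by decide +kernel

set_option maxRecDepth 100000 in
theorem okR : cellsOk 200 tsR 2124567 0 0 cellsR = true := by decide +kernel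

set_option maxRecDepth 100000 in
theorem okS : cellsOk 200 tsFm 3761841 0 600 cellsS = true := by decide +kernel

set_option maxRecDepth 100000 in
theorem okT : tailOk 200 tsF 0 3759665 4880 = true := by decide +kernel

end Pool.Agent.Z5
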