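import Mathlib

/-!
# The functions `H y = y log |y| - y` and `G y = y² / 2 log |y| - 3 y² / 4`
-/

set_option autoImplicit false

open Finset

namespace Pool.Agent.Z5

/-- Primitive of `log |y|`. -/
noncomputable def HH (y : ℝ) : ℝ := y * Real.log y - y

/-- Primitive of `HH`. -/
noncomputable def GG (y : ℝ) : ℝ := y ^ 2 / 2 * Real.log y - 3 / 4 * y ^ 2

lemma HH_zero : HH 0 = 0 := by simp [HH]

lemma HH_neg (y : ℝ) : HH (-y) = -HH y := by
  simp only [HH, Real.log_neg_eq_log]; ring

lemma GG_neg (y : ℝ) : GG (-y) = GG y := by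
  simp only [GG, Real.log_neg_eq_log]; ring

lemma GG_zero : GG 0 = 0 := by simp [GG]

/-- lower comparison -/
lemma HH_sub_ge {y y' : ℝ} (hy : 0 < y) (h : y ≤ y') :
    (y' - y) * Real.log y ≤ HH y' - HH y := by
  have hy' : 0 < y' := lt_of_lt_of_le hy h
  have h1 : 1 - y / y' ≤ Real.log (y' / y) := by
    have := Real.one_sub_inv_le_log_of_pos (div_pos hy' hy)
    rwa [inv_div] at this
  rw [Real.log_div hy'.ne' hy.ne'] at h1
  have h2 : y' * (1 - y / y') ≤ y' * (Real.log y' - Real.log y) :=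
    mul_le_mul_of_nonneg_left h1 hy'.le
  have h3 : y' * (1 - y / y') = y' - y := by field_simp
  simp only [HH]
  nlinarith

/-- upper comparison -/
lemma HH_sub_le {y y' : ℝ} (hy : 0 ≤ y) (hy' : 0 < y') (h : y ≤ y') :
    HH y' - HH y ≤ (y' - y) * Real.log y' := by
  rcases hy.eq_or_lt with h0 | h0
  · subst h0
    simp only [HH_zero, HH]
    linarith
  · have h1 : Real.log (y' / y) ≤ y' / y - 1 := Real.log_le_sub_one_of_pos (div_pos hy' h0)
    rw [Real.log_div hy'.ne' h0.ne'] at h1
    have h2 := mul_le_mul_of_nonneg_left h1 h0.le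
    have h3 : y * (y' / y - 1) = y' - y := by field_simp
    simp only [HH]
    nlinarith

lemma HH_ge (y : ℝ) (hy : 0 ≤ y) : -1 ≤ HH y := by
  rcases hy.eq_or_lt with h0 | h0
  · rw [← h0, HH_zero]; norm_num
  · have h1 : 1 - y⁻¹ ≤ Real.log y := Real.one_sub_inv_le_log_of_pos h0
    have h2 := mul_le_mul_of_nonneg_left h1 h0.le
    have h3 : y * (1 - y⁻¹) = y - 1 := by field_simp
    simp only [HH]
    linarith

/-- For nonnegative arguments the increment of `HH` is at least `-1`. -/
lemma HH_sub_ge_neg_one {y y' : ℝ} (hy : 0 ≤ y) (h : y ≤ y') : -1 ≤ HH y' - HH y := by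
  rcases le_or_gt 1 y with h1 | h1
  · have := HH_sub_ge (by linarith) h
    have h2 : 0 ≤ (y' - y) * Real.log y := mul_nonneg (by linarith) (Real.log_nonneg h1)
    linarith
  · -- HH y ≤ 0 for 0 ≤ y ≤ 1 and HH y' ≥ -1
    have h2 : HH y ≤ 0 := by
      simp only [HH]
      have h3 : Real.log y ≤ 0 := Real.log_nonpos hy h1.le
      nlinarith
    have h3 := HH_ge y' (hy.trans h)
    linarith

/-- increments of `HH`, general sign -/
lemma abs_HH_sub_le {y y' R : ℝ} (hR : 1 ≤ R) (hy : |y| ≤ R) (hy' : |y'| ≤ R) :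
    |HH y' - HH y| ≤ |y' - y| * Real.log R + 2 := by
  have hlR : 0 ≤ Real.log R := Real.log_nonneg hR
  have key : ∀ u v : ℝ, 0 ≤ u → u ≤ v → v ≤ R →
      -1 ≤ HH v - HH u ∧ HH v - HH u ≤ (v - u) * Real.log R := by
    intro u v hu huv hv
    refine ⟨HH_sub_ge_neg_one hu huv, ?_⟩
    rcases huv.eq_or_lt with h | h
    · subst h; simp
    · have hv0 : 0 < v := lt_of_le_of_lt hu h
      refine (HH_sub_le hu hv0 huv).trans ?_
      exact mul_le_mul_of_nonneg_left (Real.log_le_log hv0 hv) (by linarith)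
  wlog hle : y ≤ y' generalizing y y'
  · have := this hy' hy (le_of_not_ge hle)
    rwa [abs_sub_comm, abs_sub_comm y' y]
  rw [abs_of_nonneg (sub_nonneg.2 hle)]
  rw [abs_le] at hy hy'
  rcases le_total 0 y with h0 | h0
  · obtain ⟨h1, h2⟩ := key y y' h0 hle hy'.2
    rw [abs_le]; constructor
    · have : 0 ≤ (y' - y) * Real.log R := mul_nonneg (by linarith) hlR
      linarith
    · linarith
  · rcases le_total 0 y' with h0' | h0'
    · obtain ⟨h1, h2⟩ := key 0 y' le_rfl h0' hy'.2
      obtain ⟨h3, h4⟩ := key 0 (-y) le_rfl (by linarith) (by linarith [hy.1])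
      rw [HH_neg] at h3 h4
      rw [HH_zero] at h1 h2 h3 h4
      rw [abs_le]; constructor
      · have : 0 ≤ (y' - y) * Real.log R := mul_nonneg (by linarith) hlR
        linarith
      · nlinarith
    · obtain ⟨h1, h2⟩ := key (-y') (-y) (by linarith) (by linarith) (by linarith [hy.1])
      rw [HH_neg, HH_neg] at h1 h2
      rw [abs_le]; constructor
      · have : 0 ≤ (y' - y) * Real.log R := mul_nonneg (by linarith) hlR
        linarith
      · nlinarith

lemma HH_scale {N y : ℝ} (hN : 0 < N) : HH (N * y) = N * HH y + N * y * Real.log N := by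
  rcases eq_or_ne y 0 with h | h
  · subst h; simp [HH]
  · simp only [HH]
    rw [Real.log_mul hN.ne' h]
    ring

lemma GG_scale {N y : ℝ} (hN : 0 < N) :
    GG (N * y) = N ^ 2 * GG y + N ^ 2 * (y ^ 2 / 2) * Real.log N := by
  rcases eq_or_ne y 0 with h | h
  · subst h; simp [GG]
  · simp only [GG]
    rw [Real.log_mul hN.ne' h]
    ring

lemma continuous_HH : Continuous HH := Real.continuous_mul_log.sub continuous_id

lemma hasDerivAt_GG (y : ℝ) : HasDerivAt GG (HH y) y := by
  rcases eq_or_ne y 0 with h | h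
  · subst h
    rw [HH_zero]
    have h1 : GG = fun y => y * ((y * Real.log y) / 2 - 3 / 4 * y) := by
      ext y; simp only [GG]; ring
    rw [h1, hasDerivAt_iff_tendsto_slope]
    have h2 : Filter.Tendsto (fun y : ℝ => (y * Real.log y) / 2 - 3 / 4 * y)
        (nhdsWithin 0 {0}ᶜ) (nhds 0) := by
      have h3 : Continuous fun y : ℝ => (y * Real.log y) / 2 - 3 / 4 * y :=
        (Real.continuous_mul_log.div_const 2).sub (continuous_const.mul continuous_id)
      have h4 := h3.tendsto 0
      simp only [Real.log_zero, mul_zero, zero_div, sub_zero] at h4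
      exact h4.mono_left nhdsWithin_le_nhds
    refine h2.congr' ?_
    filter_upwards [self_mem_nhdsWithin] with y hy
    have hy0 : y ≠ 0 := hy
    simp only [slope, vsub_eq_sub, sub_zero, zero_mul, smul_eq_mul]
    field_simp
  · have h1 : HasDerivAt (fun y : ℝ => y ^ 2 / 2 * Real.log y) (y * Real.log y + y / 2) y := by
      have h2 : HasDerivAt (fun y : ℝ => y ^ 2 / 2) y y := by
        have := (hasDerivAt_pow 2 y).div_const 2
        refine this.congr_deriv ?_
        norm_num
      have h3 := h2.mul (Real.hasDerivAt_log h)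
      refine h3.congr_deriv ?_
      field_simp
    have h4 : HasDerivAt (fun y : ℝ => 3 / 4 * y ^ 2) (3 / 2 * y) y := by
      have := (hasDerivAt_pow 2 y).const_mul (3 / 4)
      refine this.congr_deriv ?_
      norm_num
      ring
    have h5 := h1.sub h4
    have h6 : HasDerivAt GG (y * Real.log y + y / 2 - 3 / 2 * y) y := h5
    convert h6 using 1
    simp only [HH]
    ring

/-- a cell average of `HH` differs little from any value in the cell -/
lemma abs_HH_sub_avg {y0 y1 y2 h R : ℝ} (hh : 0 < h) (h12 : y1 = y2 + h)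
    (h0 : y2 ≤ y0) (h0' : y0 ≤ y1) (hR : 1 ≤ R) (h1R : |y1| ≤ R) (h2R : |y2| ≤ R) :
    |HH y0 - (GG y1 - GG y2) / h| ≤ h * Real.log R + 2 := by
  have hlt : y2 < y1 := by linarith
  obtain ⟨c, hc, hc'⟩ := exists_hasDerivAt_eq_slope GG HH hlt
    (fun y _ => (hasDerivAt_GG y).continuousAt.continuousWithinAt)
    (fun y _ => hasDerivAt_GG y)
  have h3 : (GG y1 - GG y2) / h = HH c := by
    rw [hc', h12]; congr 1; ring
  rw [h3]
  have hlR : 0 ≤ Real.log R := Real.log_nonneg hR
  rw [abs_le] at h1R h2R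
  have hcR : |c| ≤ R := by
    rw [abs_le]; exact ⟨by linarith [hc.1], by linarith [hc.2]⟩
  have h0R : |y0| ≤ R := by
    rw [abs_le]; exact ⟨by linarith, by linarith⟩
  have h4 := abs_HH_sub_le hR hcR h0R
  have h5 : |y0 - c| ≤ h := by
    rw [abs_le]; exact ⟨by linarith [hc.2], by linarith [hc.1]⟩
  nlinarith

/-- Sum of `HH (c - x)` over the midpoints of `m` cells of length `h` starting at `A`. -/
lemma abs_sum_HH_sub_le {A h c R : ℝ} (m : ℕ) (hh : 0 < h) (hR : 1 ≤ R)
    (hA : |c - A| ≤ R) (hB : |c - (A + m * h)| ≤ R) :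
    |∑ k ∈ range m, HH (c - (A + (k + 1 / 2) * h)) - (GG (c - A) - GG (c - (A + m * h))) / h|
      ≤ m * (h * Real.log R + 2) := by
  have hsum : (GG (c - A) - GG (c - (A + m * h))) / h
      = ∑ k ∈ range m, (GG (c - (A + k * h)) - GG (c - (A + (k + 1 : ℕ) * h))) / h := by
    rw [← Finset.sum_div, Finset.sum_range_sub' (fun k : ℕ => GG (c - (A + k * h)))]
    simp
  rw [hsum, ← Finset.sum_sub_distrib]
  refine (Finset.abs_sum_le_sum_abs _ _).trans ?_
  have h1 : ∀ k ∈ range m, |HH (c - (A + (k + 1 / 2) * h))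
      - (GG (c - (A + k * h)) - GG (c - (A + (k + 1 : ℕ) * h))) / h| ≤ h * Real.log R + 2 := by
    intro k hk
    have hk' : (k : ℝ) + 1 ≤ m := by exact_mod_cast Finset.mem_range.1 hk
    have hk0 : (0 : ℝ) ≤ k := Nat.cast_nonneg k
    rw [abs_le] at hA hB
    apply abs_HH_sub_avg hh _ _ _ hR
    · rw [abs_le]
      constructor
      · nlinarith [hB.1]
      · nlinarith [hA.2]
    · rw [abs_le]
      push_cast
      constructor
      · nlinarith [hB.1]
      · nlinarith [hA.2]
    · push_cast; ring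
    · push_cast; nlinarith
    · nlinarith
  refine (Finset.sum_le_sum h1).trans ?_
  rw [Finset.sum_const, card_range, nsmul_eq_mul]

end Pool.Agent.Z5
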