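import Mathlib

/-!
# Irrationality of `ζ(5)`: definitions

`L` is the length of the longest block, the poles are `t = -u`, `u = 0, …, L`, of order `e u`
(`1 ≤ e u ≤ 6`, `e (L - u) = e u`); the weight is `w(t) = (2 t + L) / ∏ (t + u) ^ e u`.
For a polynomial `h` in `Y = (2 t + L) ^ 2` the rational function is `w(t) h(Y)`.
Everything is linear in `h : ℚ[X]`.
-/

open Finset

namespace Pool.Agent.Z5

/-- A profile: pole order `e u ∈ [1, 6]` at `t = -u`, `u = 0, …, L`, symmetric, even total order. -/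
structure IsProf (L : ℕ) (e : ℕ → ℕ) : Prop where
  pos : ∀ u ≤ L, 1 ≤ e u
  le : ∀ u ≤ L, e u ≤ 6
  symm : ∀ u ≤ L, e (L - u) = e u
  even : Even (∑ u ∈ range (L + 1), e u)

/-- total pole order -/
def tot (L : ℕ) (e : ℕ → ℕ) : ℕ := ∑ u ∈ range (L + 1), e u

/-- the weight, on the reals -/
noncomputable def w (L : ℕ) (e : ℕ → ℕ) (t : ℝ) : ℝ :=
  (2 * t + L) / ∏ u ∈ range (L + 1), (t + u) ^ e u

/-- evaluation of `h` at `Y = (2 t + L) ^ 2` -/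
noncomputable def evY (L : ℕ) (h : Polynomial ℚ) (t : ℝ) : ℝ :=
  Polynomial.aeval ((2 * t + L) ^ 2) h

/-- the sum `∑_{t ≥ 1} w(t) h(Y(t))` -/
noncomputable def F (L : ℕ) (e : ℕ → ℕ) (h : Polynomial ℚ) : ℝ :=
  ∑' t : ℕ, w L e (t + 1) * evY L h (t + 1)

/-- Taylor series (in `ε`) of `∏_{v ≠ u} (t + v) ^ e v` at `t = -u + ε` -/
noncomputable def dser (L : ℕ) (e : ℕ → ℕ) (u : ℕ) : PowerSeries ℚ :=
  ∏ v ∈ (range (L + 1)).erase u, (PowerSeries.C ((v : ℚ) - u) + PowerSeries.X) ^ e v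

/-- Taylor series of `2 t + L` at `t = -u + ε` -/
noncomputable def xser (L : ℕ) (u : ℕ) : PowerSeries ℚ :=
  PowerSeries.C ((L : ℚ) - 2 * u) + 2 * PowerSeries.X

/-- Taylor series of `h((2 t + L) ^ 2)` at `t = -u + ε` -/
noncomputable def hser (L : ℕ) (u : ℕ) (h : Polynomial ℚ) : PowerSeries ℚ :=
  Polynomial.aeval (xser L u ^ 2) h

/-- Taylor series of `(t + u) ^ e u * w(t) h(Y)` at `t = -u + ε` -/
noncomputable def lser (L : ℕ) (e : ℕ → ℕ) (u : ℕ) (h : Polynomial ℚ) : PowerSeries ℚ :=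
  xser L u * (dser L e u)⁻¹ * hser L u h

/-- coefficient of `1 / (t + u) ^ i` in the partial fractions of `w(t) h(Y)` -/
noncomputable def co (L : ℕ) (e : ℕ → ℕ) (h : Polynomial ℚ) (u i : ℕ) : ℚ :=
  if 1 ≤ i ∧ i ≤ e u then PowerSeries.coeff (e u - i) (lser L e u h) else 0

/-- coefficient of `ζ(i)` -/
noncomputable def rho (L : ℕ) (e : ℕ → ℕ) (i : ℕ) (h : Polynomial ℚ) : ℚ :=
  ∑ u ∈ range (L + 1), co L e h u i

/-- harmonic number `∑_{m = 1}^{M} 1 / m ^ s` -/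
def Hs (s M : ℕ) : ℚ := ∑ m ∈ Finset.Icc 1 M, 1 / (m : ℚ) ^ s

/-- constant term -/
noncomputable def rho0 (L : ℕ) (e : ℕ → ℕ) (h : Polynomial ℚ) : ℚ :=
  - ∑ u ∈ range (L + 1), ∑ i ∈ Finset.Icc 1 6, co L e h u i * Hs i u

/-- `F - ζ(3) ρ₃` if `ζ(5) = ξ` is rational -/
noncomputable def Ph (L : ℕ) (e : ℕ → ℕ) (ξ : ℚ) (h : Polynomial ℚ) : ℚ :=
  rho0 L e h + ξ * rho L e 5 h

/-- `ζ(s)` as a real number, `s ≥ 2` -/
noncomputable def zt (s : ℕ) : ℝ := ∑' m : ℕ, 1 / ((m : ℝ) + 1) ^ s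

variable {ι κ τ : Type*}

/-- the mixed matrix for general families of polynomials: rows `Φ(φ_i ψ_j)` and `ρ₃(χ_i ψ_j)` -/
noncomputable def gmat (L : ℕ) (e : ℕ → ℕ) (ξ : ℚ) (φ : ι → Polynomial ℚ) (χ : κ → Polynomial ℚ)
    (ψ : τ → Polynomial ℚ) : Matrix (ι ⊕ κ) τ ℚ :=
  Matrix.of fun i j => Sum.elim (fun a => Ph L e ξ (φ a * ψ j)) (fun b => rho L e 3 (χ b * ψ j)) i

/-- the same with the real functional `F` instead of `Φ` -/
noncomputable def rmat (L : ℕ) (e : ℕ → ℕ) (φ : ι → Polynomial ℚ) (χ : κ → Polynomial ℚ)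
    (ψ : τ → Polynomial ℚ) : Matrix (ι ⊕ κ) τ ℝ :=
  Matrix.of fun i j =>
    Sum.elim (fun a => F L e (φ a * ψ j)) (fun b => (rho L e 3 (χ b * ψ j) : ℝ)) i

/-- the monomials -/
noncomputable def mono (n : ℕ) : Fin n → Polynomial ℚ := fun i => Polynomial.X ^ (i : ℕ)

/-- the monomials of degree `< a + b`, indexed by a sum type -/
noncomputable def monoS (a b : ℕ) : Fin a ⊕ Fin b → Polynomial ℚ :=
  Sum.elim (fun i => Polynomial.X ^ (i : ℕ)) (fun i => Polynomial.X ^ (a + (i : ℕ)))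

/-- the mixed determinant (rational) -/
noncomputable def DQ (L : ℕ) (e : ℕ → ℕ) (ξ : ℚ) (a b : ℕ) : ℚ :=
  (gmat L e ξ (mono a) (mono b) (monoS a b)).det

/-- the mixed determinant (real) -/
noncomputable def DR (L : ℕ) (e : ℕ → ℕ) (a b : ℕ) : ℝ :=
  (rmat L e (mono a) (mono b) (monoS a b)).det

end Pool.Agent.Z5
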