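import Pool.Agent.Z5.Defs

/-!
# Non-vanishing of the mixed determinant: definitions

`L + 1 = M p`, `e u = E (u / p)`, `a = s p`, `b = s' p`, `p` a large prime.  The poles `t = -u`,
`u = a + p m` (`a < p`, `m < M`) are sorted by `a` (the class of `t`); at `t = -u + p ε` one has
`2 t + L = tt p a + p (M - 1 - 2 m + 2 ε)`, where `tt p a = p - 1 - 2 a`.
-/

open Finset Polynomial

namespace Pool.Agent.Z5.NV

/-- `p`-integral rational numbers -/
def Zp (p : ℕ) (hp : p.Prime) : Subring ℚ where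
  carrier := {q | ∃ d : ℤ, ¬ (p : ℤ) ∣ d ∧ ∃ n : ℤ, q * d = n}
  mul_mem' := by
    rintro a b ⟨d, hd, n, h⟩ ⟨d', hd', n', h'⟩
    refine ⟨d * d', fun hh => ?_, n * n', ?_⟩
    · rcases (Nat.prime_iff_prime_int.mp hp).dvd_or_dvd hh with h1 | h1
      · exact hd h1
      · exact hd' h1
    · push_cast; rw [← h, ← h']; ring
  one_mem' := ⟨1, fun h => hp.one_lt.ne' (by exact_mod_cast Int.eq_one_of_dvd_one (by positivity) h), 1, by simp⟩
  add_mem' := by
    rintro a b ⟨d, hd, n, h⟩ ⟨d', hd', n', h'⟩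
    refine ⟨d * d', fun hh => ?_, n * d' + n' * d, ?_⟩
    · rcases (Nat.prime_iff_prime_int.mp hp).dvd_or_dvd hh with h1 | h1
      · exact hd h1
      · exact hd' h1
    · push_cast; rw [← h, ← h']; ring
  zero_mem' := ⟨1, fun h => hp.one_lt.ne' (by exact_mod_cast Int.eq_one_of_dvd_one (by positivity) h), 0, by simp⟩
  neg_mem' := by
    rintro a ⟨d, hd, n, h⟩
    exact ⟨d, hd, -n, by push_cast; rw [← h]; ring⟩

/-- congruence modulo `p` of rational numbers (usually both `p`-integral) -/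
def Cg (p : ℕ) (hp : p.Prime) (a b : ℚ) : Prop := ∃ c ∈ Zp p hp, a - b = p * c

/-- `p`-adic units -/
def Un (p : ℕ) (hp : p.Prime) (a : ℚ) : Prop := a ≠ 0 ∧ a ∈ Zp p hp ∧ a⁻¹ ∈ Zp p hp

/-- `2 t + L` on the class `a`, modulo `p` -/
def tt (p a : ℕ) : ℤ := p - 1 - 2 * a

/-- the factor of `∏_{v ≠ u} (t + v) ^ e v` coming from the other classes, `u = a + p m`, in the
variable `X`, `t = -u + p X` -/
noncomputable def W (p M : ℕ) (E : ℕ → ℕ) (a m : ℕ) : PowerSeries ℚ :=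
  ∏ n ∈ range M, ∏ b ∈ (range p).erase a,
    (PowerSeries.C ((b : ℚ) - a + p * ((n : ℚ) - m)) + PowerSeries.C (p : ℚ) * PowerSeries.X) ^ E n

/-- `(2 t + L) h((2 t + L) ^ 2)` on the class `a` as a polynomial in `X = (2 t + L - tt p a) / p` -/
noncomputable def ql (p a : ℕ) (h : ℚ[X]) : ℚ[X] :=
  (C (tt p a : ℚ) + C (p : ℚ) * X) * h.comp ((C (tt p a : ℚ) + C (p : ℚ) * X) ^ 2)

/-- local coefficient for the problem of length `M - 1`, for an arbitrary polynomial `q` in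
`2 t + M - 1` and with extra power series factors `V m` -/
noncomputable def lc (M : ℕ) (E : ℕ → ℕ) (V : ℕ → PowerSeries ℚ) (q : ℚ[X]) (m i : ℕ) : ℚ :=
  if 1 ≤ i ∧ i ≤ E m then
    PowerSeries.coeff (E m - i) ((dser (M - 1) E m)⁻¹ * V m * aeval (xser (M - 1) m) q) else 0

/-- `lρ₀` -/
noncomputable def lr0 (M : ℕ) (E : ℕ → ℕ) (q : ℚ[X]) : ℚ :=
  - ∑ m ∈ range M, ∑ i ∈ Finset.Icc 1 6, lc M E (fun _ => 1) q m i * Hs i m

/-- `lρ₃` -/
noncomputable def lr3 (M : ℕ) (E : ℕ → ℕ) (q : ℚ[X]) : ℚ :=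
  ∑ m ∈ range M, lc M E (fun _ => 1) q m 3

/-- contribution of the class `a` to `p ^ T Φ(h)`, `q = ql p a h` -/
noncomputable def La (p M : ℕ) (E : ℕ → ℕ) (ξ : ℚ) (a : ℕ) (q : ℚ[X]) : ℚ :=
  (- ∑ m ∈ range M, ∑ i ∈ Finset.Icc 1 6,
      lc M E (fun m => (W p M E a m)⁻¹) q m i * ((p : ℚ) ^ i * Hs i (a + p * m)))
    + ξ * p ^ 5 * ∑ m ∈ range M, lc M E (fun m => (W p M E a m)⁻¹) q m 5

/-- contribution of the class `a` to `p ^ (T - 3) ρ₃(h)`, `q = ql p a h` -/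
noncomputable def La3 (p M : ℕ) (E : ℕ → ℕ) (a : ℕ) (q : ℚ[X]) : ℚ :=
  ∑ m ∈ range M, lc M E (fun m => (W p M E a m)⁻¹) q m 3

/-- the linear factor `Y - (tt p b) ^ 2` -/
noncomputable def yy (p b : ℕ) : ℤ[X] := X - C (tt p b ^ 2)

/-- exponent of `yy p a` in `Pi` -/
def ex (p a i : ℕ) : ℕ := if 2 * a + 1 = p then i else if 2 * a + 1 < p then 2 * i else 2 * i + 1

/-- the basis polynomials (`a < p`, `i < n`), of degree `< n p` -/
noncomputable def Pi (p n a i : ℕ) : ℤ[X] :=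
  yy p a ^ ex p a i * ∏ b ∈ ((range p).erase a).erase (p - 1 - a), yy p b ^ n

/-- row scale -/
def sg (p a i : ℕ) : ℕ := 2 * i + if p ≤ 2 * a + 1 then 1 else 0

/-- column scale (for the class `p - 1 - a`) -/
def tu (p a i : ℕ) : ℕ := 2 * i + if 2 * a + 1 < p then 1 else 0

/-- `ql` with integer coefficients -/
noncomputable def qlZ (p a : ℕ) (h : ℤ[X]) : ℤ[X] :=
  (C (tt p a) + C (p : ℤ) * X) * h.comp ((C (tt p a) + C (p : ℤ) * X) ^ 2)

/-- unit constants of the class `a` -/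
def cc (p a : ℕ) : ℤ := if 2 * a + 1 = p then 1 else 2 * tt p a

/-- unit constants of the class `a` -/
noncomputable def AA (p a : ℕ) : ℤ :=
  ∏ b ∈ ((range p).erase a).erase (p - 1 - a), (tt p a ^ 2 - tt p b ^ 2)

end Pool.Agent.Z5.NV
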