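import Pool.Agent.Z5.PDefs
import Pool.Agent.Z5.Multi

/-!
# Parity: eigenvectors of the reflection `i ↦ K - 1 - i`, `ζ ↦ -ζ`
-/

open Finset Polynomial

namespace Pool.Agent.Z5

theorem yv_refl {K i : ℕ} (hi : i < K) : PowerSeries.rescale (-1 : ℚ) (yv K (K - 1 - i)) = - yv K i := by
  rw [yv, yv, map_add, map_mul, sg_C, sg_X, map_ofNat]
  have h1 : ((K : ℚ) - 1 - 2 * ((K - 1 - i : ℕ) : ℚ)) = - ((K : ℚ) - 1 - 2 * i) := by
    rw [show K - 1 - i = K - (1 + i) by omega, Nat.cast_sub (by omega)]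
    push_cast
    ring
  rw [h1, map_neg]
  ring

theorem inv_refl_sub (m : ℕ) (hm : 1 ≤ m) :
    PowerSeries.rescale (-1 : ℚ) (PowerSeries.C (m : ℚ) - PowerSeries.X)⁻¹ =
      (PowerSeries.C (m : ℚ) + PowerSeries.X)⁻¹ := by
  have hm' : (m : ℚ) ≠ 0 := by exact_mod_cast (by omega : m ≠ 0)
  have h0 : PowerSeries.constantCoeff (PowerSeries.C (m : ℚ) - PowerSeries.X) ≠ 0 := by simp; omega
  have h0' : PowerSeries.constantCoeff (PowerSeries.C (m : ℚ) + PowerSeries.X) ≠ 0 := by simp; omega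
  have h1 := PowerSeries.mul_inv_cancel _ h0
  have h2 := congrArg (PowerSeries.rescale (-1 : ℚ)) h1
  rw [map_mul, map_sub, sg_C, sg_X, map_one, sub_neg_eq_add] at h2
  have h3 := PowerSeries.mul_inv_cancel _ h0'
  have h4 : (PowerSeries.C (m : ℚ) + PowerSeries.X) ≠ 0 := by
    intro h; rw [h, zero_mul] at h3; exact zero_ne_one h3
  exact mul_left_cancel₀ h4 (h2.trans h3.symm)

theorem inv_refl_add (m : ℕ) (hm : 1 ≤ m) :
    PowerSeries.rescale (-1 : ℚ) (PowerSeries.C (m : ℚ) + PowerSeries.X)⁻¹ =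
      (PowerSeries.C (m : ℚ) - PowerSeries.X)⁻¹ := by
  rw [← inv_refl_sub m hm, ← RingHom.comp_apply]
  ext n
  simp only [RingHom.comp_apply, PowerSeries.coeff_rescale, ← mul_assoc, ← mul_pow]
  simp

theorem gS_refl {K i : ℕ} (hi : i < K) : PowerSeries.rescale (-1 : ℚ) (gS K (K - 1 - i)) = gS K i := by
  rw [gS, gS, map_add, map_sum, map_sum, add_comm]
  rw [show K - 1 - (K - 1 - i) = i by omega]
  congr 1
  · exact Finset.sum_congr rfl fun m hm => inv_refl_add m (Finset.mem_Icc.1 hm).1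
  · exact Finset.sum_congr rfl fun m hm => inv_refl_sub m (Finset.mem_Icc.1 hm).1

theorem ker3_refl {K i : ℕ} (hi : i < K) (s : Fin 3) :
    PowerSeries.rescale (-1 : ℚ) (ker3 K (K - 1 - i) s) = ker3 K i s := by
  fin_cases s
  · simp [ker3]
  · simpa [ker3] using gS_refl hi
  · simp only [ker3]
    show PowerSeries.rescale (-1 : ℚ) (PowerSeries.X ^ 2) = PowerSeries.X ^ 2
    rw [map_pow, sg_X, neg_sq]

theorem coeff_gen_refl {K i : ℕ} (hi : i < K) (a : ℕ) (s : Fin 3) (k : ℕ) :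
    (-1 : ℚ) ^ k * PowerSeries.coeff k (yv K (K - 1 - i) ^ a * ker3 K (K - 1 - i) s) =
      (-1) ^ a * PowerSeries.coeff k (yv K i ^ a * ker3 K i s) := by
  rw [← PowerSeries.coeff_rescale, map_mul, map_pow, yv_refl hi, ker3_refl hi, neg_pow,
    mul_assoc]
  rw [show ((-1 : PowerSeries ℚ) ^ a) = PowerSeries.C ((-1 : ℚ) ^ a) by
    rw [map_pow, map_neg, map_one], PowerSeries.coeff_C_mul]

theorem parity {K : ℕ} (f : Fin K × Fin 6 → Fin 3 × ℕ)
    (hf : (univ.filter fun x => Even (f x).2).card ≠ 3 * K) :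
    Matrix.det (Matrix.of fun (x y : Fin K × Fin 6) =>
      PowerSeries.coeff (x.2 : ℕ) (yv K x.1 ^ (f y).2 * ker3 K x.1 (f y).1)) = 0 := by
  set X : Matrix (Fin K × Fin 6) (Fin K × Fin 6) ℚ := Matrix.of fun (x y : Fin K × Fin 6) =>
      PowerSeries.coeff (x.2 : ℕ) (yv K x.1 ^ (f y).2 * ker3 K x.1 (f y).1) with hX
  let S : Matrix (Fin K × Fin 6) (Fin K × Fin 6) ℚ := Matrix.of fun x y =>
    if y = (Fin.rev x.1, x.2) then (-1 : ℚ) ^ (x.2 : ℕ) else 0
  refine det_eq_zero_of_trace S X (fun y => (-1) ^ (f y).2) ?_ ?_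
  · ext x y
    rw [Matrix.mul_diagonal, Matrix.mul_apply]
    simp only [S, Matrix.of_apply, ite_mul, zero_mul, Finset.sum_ite_eq', Finset.mem_univ, if_true]
    rw [hX, Matrix.of_apply, Matrix.of_apply]
    have h1 : ((Fin.rev x.1 : Fin K) : ℕ) = K - 1 - x.1 := by
      rw [Fin.val_rev]; omega
    simp only [h1]
    rw [coeff_gen_refl x.1.2]
    ring
  · have h1 : S.trace = 0 := by
      rw [Matrix.trace]
      simp only [Matrix.diag_apply, S, Matrix.of_apply]
      rw [Fintype.sum_prod_type]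
      refine Finset.sum_eq_zero fun i _ => ?_
      by_cases hi : i = Fin.rev i
      · have h2 : ∀ k : Fin 6, (if ((i, k) : Fin K × Fin 6) = (Fin.rev i, k) then (-1 : ℚ) ^ (k : ℕ)
            else 0) = (-1 : ℚ) ^ (k : ℕ) := by
          intro k
          rw [if_pos]
          rw [← hi]
        simp only [h2]
        simp [Fin.sum_univ_six]
        norm_num
      · refine Finset.sum_eq_zero fun k _ => ?_
        rw [if_neg]
        intro h
        exact hi (congrArg Prod.fst h)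
    rw [h1]
    have h3 : ∑ y : Fin K × Fin 6, (-1 : ℚ) ^ (f y).2 =
        2 * ((univ.filter fun x => Even (f x).2).card : ℚ) - 6 * K := by
      have h4 : ∀ y : Fin K × Fin 6, (-1 : ℚ) ^ (f y).2 = 2 * (if Even (f y).2 then 1 else 0) - 1 := by
        intro y
        split_ifs with h
        · rw [h.neg_one_pow]; norm_num
        · rw [(Nat.not_even_iff_odd.1 h).neg_one_pow]; norm_num
      simp only [h4]
      rw [Finset.sum_sub_distrib, ← Finset.mul_sum, Finset.sum_boole]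
      simp
      ring
    rw [h3]
    intro h5
    apply hf
    have h6 : (2 : ℚ) * ((univ.filter fun x => Even (f x).2).card : ℚ) = 6 * K := by linarith
    have h7 : 2 * (univ.filter fun x => Even (f x).2).card = 6 * K := by exact_mod_cast h6
    omega

end Pool.Agent.Z5
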