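import Pool.Agent.Z5.PDefs

/-!
# Z5: combinatorics of the weights
-/

open Finset

namespace Pool.Agent.Z5

/-- the generators of weight `< τ = s + 2 j` -/
private def low (τ s : ℕ) : Finset (Fin 3 × ℕ) :=
  ({0} ×ˢ range τ) ∪ ({1} ×ˢ range s ∪ {2} ×ˢ range s)

private lemma mem_low {τ s : ℕ} {x : Fin 3 × ℕ} :
    x ∈ low τ s ↔ (x.1 = 0 ∧ x.2 < τ) ∨ (x.1 ≠ 0 ∧ x.2 < s) := by
  obtain ⟨i, a⟩ := x
  fin_cases i <;> simp [low]

private lemma sum_low {τ s : ℕ} {M : Type*} [AddCommMonoid M] (g : Fin 3 × ℕ → M) :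
    ∑ x ∈ low τ s, g x
      = ∑ a ∈ range τ, g (0, a) + (∑ a ∈ range s, g (1, a) + ∑ a ∈ range s, g (2, a)) := by
  unfold low
  rw [Finset.sum_union, Finset.sum_union, Finset.sum_product, Finset.sum_product,
    Finset.sum_product, Finset.sum_singleton, Finset.sum_singleton, Finset.sum_singleton]
  · rw [Finset.disjoint_left]
    rintro ⟨i, a⟩ h1 h2
    simp only [Finset.mem_product, Finset.mem_singleton] at h1 h2
    have := h1.1.symm.trans h2.1
    exact absurd this (by decide)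
  · rw [Finset.disjoint_left]
    rintro ⟨i, a⟩ h1 h2
    simp only [Finset.mem_union, Finset.mem_product, Finset.mem_singleton] at h1 h2
    rcases h2 with h2 | h2
    · exact absurd (h1.1.symm.trans h2.1) (by decide)
    · exact absurd (h1.1.symm.trans h2.1) (by decide)

private lemma card_low (τ s : ℕ) : (low τ s).card = τ + 2 * s := by
  rw [Finset.card_eq_sum_ones, sum_low]
  simp
  ring

private lemma card_even_range (n : ℕ) : ((range n).filter fun a => Even a).card = (n + 1) / 2 := by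
  induction n with
  | zero => simp
  | succ n ih =>
    rw [Finset.range_add_one, Finset.filter_insert]
    split_ifs with h
    · rw [Finset.card_insert_of_notMem (by simp), ih]
      obtain ⟨m, hm⟩ := h
      omega
    · rw [ih]
      rw [Nat.not_even_iff_odd] at h
      obtain ⟨m, hm⟩ := h
      omega

private lemma card_even_low (τ s : ℕ) :
    ((low τ s).filter fun x => Even x.2).card = (τ + 1) / 2 + 2 * ((s + 1) / 2) := by
  rw [Finset.card_filter, sum_low, ← Finset.card_filter, ← Finset.card_filter, card_even_range,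
    card_even_range]
  ring

private lemma sum_range_sub (n : ℕ) : 2 * ∑ a ∈ range n, ((a : ℤ) - n) = -(n * (n + 1)) := by
  rw [Finset.sum_sub_distrib, Finset.sum_const, card_range, nsmul_eq_mul]
  have h := Finset.sum_range_id_mul_two n
  have h2 : (2 : ℤ) * ∑ a ∈ range n, (a : ℤ) = n * (n - 1) := by
    rcases Nat.eq_zero_or_pos n with h0 | h0
    · subst h0; simp
    · have h3 : (((∑ i ∈ range n, i) * 2 : ℕ) : ℤ) = ((n * (n - 1) : ℕ) : ℤ) := by rw [h]
      push_cast [Nat.cast_sub h0] at h3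
      linarith
  linarith

private lemma wt_zero (j a : ℕ) : wt j (0, a) = a := by simp [wt]

private lemma wt_ne (j : ℕ) {i : Fin 3} (hi : i ≠ 0) (a : ℕ) : wt j (i, a) = a + 2 * j := by
  simp [wt, hi]

private lemma sum_low_wt {τ s j : ℕ} (hτ : τ = s + 2 * j) :
    2 * ∑ x ∈ low τ s, (wt j x - τ) = -(τ * (τ + 1)) - 2 * (s * (s + 1)) := by
  have h1 := sum_range_sub τ
  have h2 := sum_range_sub s
  rw [sum_low]
  have h3 : ∑ a ∈ range τ, (wt j (0, a) - (τ : ℤ)) = ∑ a ∈ range τ, ((a : ℤ) - τ) :=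
    Finset.sum_congr rfl fun a _ => by rw [wt_zero]
  have h4 : ∀ i : Fin 3, i ≠ 0 →
      ∑ a ∈ range s, (wt j (i, a) - (τ : ℤ)) = ∑ a ∈ range s, ((a : ℤ) - s) := by
    intro i hi
    refine Finset.sum_congr rfl fun a _ => ?_
    rw [wt_ne j hi, hτ]
    push_cast
    ring
  rw [h3, h4 1 (by decide), h4 2 (by decide)]
  linarith

private lemma low_wt_lt {τ s j : ℕ} (hτ : τ = s + 2 * j) {x : Fin 3 × ℕ} (hx : x ∈ low τ s) :
    wt j x + 1 ≤ τ := by
  obtain ⟨i, a⟩ := x
  rw [mem_low] at hx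
  rcases hx with ⟨h1, h2⟩ | ⟨h1, h2⟩
  · simp only at h1 h2
    subst h1
    rw [wt_zero]
    omega
  · simp only at h1 h2
    rw [wt_ne j h1]
    omega

private lemma not_low_wt_ge {τ s j : ℕ} (hτ : τ = s + 2 * j) {x : Fin 3 × ℕ}
    (hx : x ∉ low τ s) : (τ : ℤ) ≤ wt j x := by
  obtain ⟨i, a⟩ := x
  rw [mem_low] at hx
  push Not at hx
  by_cases h : i = 0
  · subst h
    have := hx.1 rfl
    rw [wt_zero]
    simp only at this
    omega
  · have := hx.2 h
    rw [wt_ne j h]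
    simp only at this
    omega

/-- the general comparison with the greedy choice -/
private lemma core {τ s j : ℕ} (hτ : τ = s + 2 * j) (B : Finset (Fin 3 × ℕ)) :
    (2 * (τ : ℤ) * B.card - τ * (τ + 1) - 2 * (s * (s + 1)) ≤ 2 * ∑ x ∈ B, wt j x) ∧
    (2 * ∑ x ∈ B, wt j x < 2 * (τ : ℤ) * B.card - τ * (τ + 1) - 2 * (s * (s + 1)) + 2 →
      low τ s ⊆ B ∧ ∀ x ∈ B \ low τ s, wt j x = τ) := by
  set A := low τ s with hA
  have h1 : ∑ x ∈ B, wt j x = τ * B.card + ∑ x ∈ B, (wt j x - τ) := by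
    rw [Finset.sum_sub_distrib, Finset.sum_const, nsmul_eq_mul]
    ring
  have h2 : ∑ x ∈ B, (wt j x - (τ : ℤ))
      = ∑ x ∈ B \ A, (wt j x - (τ : ℤ)) + ∑ x ∈ B ∩ A, (wt j x - (τ : ℤ)) := by
    rw [← Finset.sum_union (Finset.disjoint_sdiff_inter B A), Finset.sdiff_union_inter]
  have h3 : ∑ x ∈ A, (wt j x - (τ : ℤ))
      = ∑ x ∈ A \ B, (wt j x - (τ : ℤ)) + ∑ x ∈ B ∩ A, (wt j x - (τ : ℤ)) := by
    rw [Finset.inter_comm, ← Finset.sum_union (Finset.disjoint_sdiff_inter A B),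
      Finset.sdiff_union_inter]
  have h4 := sum_low_wt hτ
  rw [← hA] at h4
  have h5 : 0 ≤ ∑ x ∈ B \ A, (wt j x - (τ : ℤ)) :=
    Finset.sum_nonneg fun x hx => by
      have := not_low_wt_ge hτ (Finset.mem_sdiff.1 hx).2
      linarith
  have h6 : ∑ x ∈ A \ B, (wt j x - (τ : ℤ)) ≤ -((A \ B).card : ℤ) := by
    have h7 : ∑ x ∈ A \ B, (wt j x - (τ : ℤ)) ≤ ∑ x ∈ A \ B, (-1 : ℤ) :=
      Finset.sum_le_sum fun x hx => by
        have := low_wt_lt hτ (Finset.mem_sdiff.1 hx).1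
        linarith
    rw [Finset.sum_const, nsmul_eq_mul] at h7
    linarith
  have h8 : (0 : ℤ) ≤ (A \ B).card := Nat.cast_nonneg _
  constructor
  · linarith
  · intro hlt
    have h9 : ((A \ B).card : ℤ) < 1 := by linarith
    have h10 : (A \ B).card = 0 := by
      have : (A \ B).card < 1 := by exact_mod_cast h9
      omega
    have h11 : ∑ x ∈ B \ A, (wt j x - (τ : ℤ)) < 1 := by
      rw [h10] at h6
      push_cast at h6
      linarith
    refine ⟨Finset.sdiff_eq_empty_iff_subset.1 (Finset.card_eq_zero.1 h10), fun x hx => ?_⟩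
    have h12 := Finset.single_le_sum (f := fun x => wt j x - (τ : ℤ)) (s := B \ A)
      (fun y hy => by
        have := not_low_wt_ge hτ (Finset.mem_sdiff.1 hy).2
        linarith) hx
    have h13 := not_low_wt_ge hτ (Finset.mem_sdiff.1 hx).2
    linarith

private lemma even_of_wt {τ j : ℕ} (hτ : Even τ) {x : Fin 3 × ℕ} (h : wt j x = τ) :
    Even x.2 := by
  obtain ⟨i, a⟩ := x
  obtain ⟨m, hm⟩ := hτ
  by_cases hi : i = 0
  · subst hi
    rw [wt_zero] at h
    exact ⟨m, by simp only; omega⟩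
  · rw [wt_ne j hi] at h
    exact ⟨m - j, by simp only; omega⟩

theorem wt_sum {K : ℕ} (j : ℕ) (hj : j % 3 ≠ 0) (hjK : 2 * j + 2 ≤ 6 * K)
    (f : Fin K × Fin 6 → Fin 3 × ℕ) (hf : Function.Injective f) :
    6 * (K : ℤ) ^ 2 + (8 * j - 3) * K - (4 * (j : ℤ) ^ 2 - 1) / 3 ≤ ∑ x, wt j (f x) ∧
    ((univ.filter fun x => Even (f x).2).card = 3 * K →
      6 * (K : ℤ) ^ 2 + (8 * j - 3) * K - (4 * (j : ℤ) ^ 2 - 1) / 3 + 1 ≤ ∑ x, wt j (f x)) := by
  set B : Finset (Fin 3 × ℕ) := univ.image f with hB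
  have hBcard : B.card = 6 * K := by
    rw [hB, Finset.card_image_of_injective _ hf]
    simp
    ring
  have hBsum : ∑ x, wt j (f x) = ∑ x ∈ B, wt j x := by
    rw [hB, Finset.sum_image fun a _ b _ hab => hf hab]
  have hBeven : (univ.filter fun x => Even (f x).2).card = (B.filter fun x => Even x.2).card := by
    rw [hB, Finset.filter_image, Finset.card_image_of_injective _ hf]
  rw [hBsum, hBeven]
  -- the count of even elements in the minimal case
  have hcount : ∀ τ s : ℕ, τ = s + 2 * j → low τ s ⊆ B → (∀ x ∈ B \ low τ s, wt j x = τ) →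
      (τ + 1) / 2 + 2 * ((s + 1) / 2) ≤ (B.filter fun x => Even x.2).card ∧
      (Even τ → (B.filter fun x => Even x.2).card
        = (τ + 1) / 2 + 2 * ((s + 1) / 2) + (6 * K - (τ + 2 * s))) := by
    intro τ s hτ hsub hw
    constructor
    · rw [← card_even_low]
      exact Finset.card_le_card (Finset.filter_subset_filter _ hsub)
    · intro heven
      have h1 : (B.filter fun x => Even x.2)
          = ((low τ s).filter fun x => Even x.2) ∪ (B \ low τ s) := by
        ext x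
        simp only [Finset.mem_filter, Finset.mem_union, Finset.mem_sdiff]
        constructor
        · rintro ⟨h2, h3⟩
          by_cases h4 : x ∈ low τ s
          · exact Or.inl ⟨h4, h3⟩
          · exact Or.inr ⟨h2, h4⟩
        · rintro (⟨h2, h3⟩ | ⟨h2, h3⟩)
          · exact ⟨hsub h2, h3⟩
          · exact ⟨h2, even_of_wt heven (hw x (Finset.mem_sdiff.2 ⟨h2, h3⟩))⟩
      rw [h1, Finset.card_union_of_disjoint, card_even_low, Finset.card_sdiff_of_subset hsub,
        hBcard, card_low]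
      rw [Finset.disjoint_left]
      intro x h2 h3
      exact (Finset.mem_sdiff.1 h3).2 (Finset.mem_filter.1 h2).1
  have h3 : j % 3 = 1 ∨ j % 3 = 2 := by omega
  rcases h3 with h3 | h3
  · obtain ⟨m, hm⟩ : ∃ m, j = 3 * m + 1 := ⟨j / 3, by omega⟩
    obtain ⟨s, hs⟩ : ∃ s, s + 2 * m + 1 = 2 * K := ⟨2 * K - 2 * m - 1, by omega⟩
    have hτ : s + 2 * j = s + 2 * j := rfl
    obtain ⟨c1, c2⟩ := core hτ B
    have hdiv : (4 * (j : ℤ) ^ 2 - 1) / 3 = 12 * (m : ℤ) ^ 2 + 8 * m + 1 := by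
      rw [hm]
      push_cast
      have : 4 * (3 * (m : ℤ) + 1) ^ 2 - 1 = 3 * (12 * (m : ℤ) ^ 2 + 8 * m + 1) := by ring
      rw [this]
      exact Int.mul_ediv_cancel_left _ (by norm_num)
    have hKs : (2 : ℤ) * K = s + 2 * m + 1 := by exact_mod_cast hs.symm
    have hid : 2 * (((s + 2 * j : ℕ) : ℤ)) * B.card - ((s + 2 * j : ℕ) : ℤ) * (((s + 2 * j : ℕ) : ℤ) + 1)
        - 2 * ((s : ℤ) * (s + 1))
        = 2 * (6 * (K : ℤ) ^ 2 + (8 * j - 3) * K - (12 * (m : ℤ) ^ 2 + 8 * m + 1)) := by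
      rw [hBcard, hm]
      push_cast
      have hs' : (s : ℤ) = 2 * K - 2 * m - 1 := by linarith
      rw [hs']
      ring
    rw [hid] at c1 c2
    rw [hdiv]
    refine ⟨by linarith, fun hev => ?_⟩
    by_contra hcon
    push Not at hcon
    obtain ⟨d1, d2⟩ := c2 (by linarith)
    have := (hcount (s + 2 * j) s rfl d1 d2).1
    rw [hev] at this
    omega
  · obtain ⟨m, hm⟩ : ∃ m, j = 3 * m + 2 := ⟨j / 3, by omega⟩
    obtain ⟨s, hs⟩ : ∃ s, s + 2 * m + 2 = 2 * K := ⟨2 * K - 2 * m - 2, by omega⟩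
    have hτ : s + 2 * j = s + 2 * j := rfl
    obtain ⟨c1, c2⟩ := core hτ B
    have hdiv : (4 * (j : ℤ) ^ 2 - 1) / 3 = 12 * (m : ℤ) ^ 2 + 16 * m + 5 := by
      rw [hm]
      push_cast
      have : 4 * (3 * (m : ℤ) + 2) ^ 2 - 1 = 3 * (12 * (m : ℤ) ^ 2 + 16 * m + 5) := by ring
      rw [this]
      exact Int.mul_ediv_cancel_left _ (by norm_num)
    have hid : 2 * (((s + 2 * j : ℕ) : ℤ)) * B.card - ((s + 2 * j : ℕ) : ℤ) * (((s + 2 * j : ℕ) : ℤ) + 1)
        - 2 * ((s : ℤ) * (s + 1))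
        = 2 * (6 * (K : ℤ) ^ 2 + (8 * j - 3) * K - (12 * (m : ℤ) ^ 2 + 16 * m + 5)) := by
      rw [hBcard, hm]
      push_cast
      have hKs : (s : ℤ) + 2 * m + 2 = 2 * K := by exact_mod_cast hs
      have hs' : (s : ℤ) = 2 * K - 2 * m - 2 := by linarith
      rw [hs']
      ring
    rw [hid] at c1 c2
    rw [hdiv]
    refine ⟨by linarith, fun hev => ?_⟩
    by_contra hcon
    push Not at hcon
    obtain ⟨d1, d2⟩ := c2 (by linarith)
    have hE : Even (s + 2 * j) := ⟨K - m - 1 + j, by omega⟩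
    have := (hcount (s + 2 * j) s rfl d1 d2).2 hE
    rw [hev] at this
    omega

end Pool.Agent.Z5
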