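import Pool.Agent.Z5.PML
import Pool.Agent.Z5.PExp
import Pool.Agent.Z5.PPar
import Pool.Agent.Z5.PWt

/-!
# `p`-adic part: the general class bound `genj`
-/

open Finset Polynomial

namespace Pool.Agent.Z5

namespace GenJ

variable {q L r K : ℕ} {ξ : ℚ} [hq : Fact q.Prime]

/-- a product of integral factors changes by a multiple of `q` if all the factors do -/
theorem prod_cg {ι : Type*} (s : Finset ι) (f g : ι → ℚ) (hg : ∀ i ∈ s, VG q 0 (g i))
    (h : ∀ i ∈ s, VG q 1 (f i - g i)) :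
    VG q 1 (∏ i ∈ s, f i - ∏ i ∈ s, g i) ∧ VG q 0 (∏ i ∈ s, g i) := by
  classical
  induction s using Finset.induction_on with
  | empty => exact ⟨by simpa using VG.zero 1, by simpa using VG.one⟩
  | insert a s ha ih =>
    have ih' := ih (fun i hi => hg i (mem_insert_of_mem hi)) (fun i hi => h i (mem_insert_of_mem hi))
    rw [prod_insert ha, prod_insert ha]
    have ha1 := h a (mem_insert_self _ _)
    have ha2 := hg a (mem_insert_self _ _)
    refine ⟨?_, by simpa using ha2.mul ih'.2⟩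
    have h1 : f a * ∏ i ∈ s, f i - g a * ∏ i ∈ s, g i =
        (f a - g a) * (∏ i ∈ s, f i - ∏ i ∈ s, g i) + (f a - g a) * ∏ i ∈ s, g i +
          g a * (∏ i ∈ s, f i - ∏ i ∈ s, g i) := by ring
    rw [h1]
    exact (((ha1.mul ih'.1).mono (by norm_num)).add (ha1.mul_int ih'.2)).add (ha2.int_mul ih'.1)

/-- congruent integral matrices have congruent determinants -/
theorem det_cg1 {ι : Type*} [Fintype ι] [DecidableEq ι] (A B : Matrix ι ι ℚ)
    (hB : ∀ i j, VG q 0 (B i j)) (h : ∀ i j, VG q 1 (A i j - B i j)) :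
    VG q 1 (A.det - B.det) := by
  rw [Matrix.det_apply, Matrix.det_apply, ← Finset.sum_sub_distrib]
  refine VG.sum _ _ fun σ _ => ?_
  have h1 := (prod_cg (q := q) univ (fun i => A (σ i) i) (fun i => B (σ i) i)
    (fun i _ => hB _ _) (fun i _ => h _ _)).1
  rcases Int.units_eq_one_or (Equiv.Perm.sign σ) with hs | hs
  · rw [hs, one_smul, one_smul]; exact h1
  · rw [hs, Units.neg_smul, one_smul, Units.neg_smul, one_smul]
    have h2 : -∏ i, A (σ i) i - -∏ i, B (σ i) i = -(∏ i, A (σ i) i - ∏ i, B (σ i) i) := by ring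
    rw [h2]
    exact h1.neg

/-- the kernels of the generators: `1`, `-q` times the true kernel, `ζ ^ 2` -/
noncomputable def kk (q L : ℕ) (ξ : ℚ) (r i : ℕ) (s : Fin 3) : PowerSeries ℚ :=
  ![1, -(PowerSeries.C (q : ℚ) * PowerSeries.rescale (q : ℚ) (kerP L ξ (r + q * i))),
    PowerSeries.X ^ 2] s

omit hq in
theorem aeval_sum (A : ℚ[X]) {N : ℕ} (hN : A.natDegree < N) (y : PowerSeries ℚ) :
    aeval (PowerSeries.C (q : ℚ) * y) A =
      ∑ a : Fin N, PowerSeries.C (A.coeff a * (q : ℚ) ^ (a : ℕ)) * y ^ (a : ℕ) := by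
  rw [Polynomial.aeval_eq_sum_range' hN, Finset.sum_range]
  refine Finset.sum_congr rfl fun a _ => ?_
  rw [PowerSeries.smul_eq_C_mul, mul_pow, ← map_pow, map_mul]
  ring

theorem genj_aux (hc : Cls q L r K) (hL : L < q ^ 2) (hξ : VG q 0 ξ) (j : ℕ)
    (hj : j % 3 ≠ 0) (hjK : 2 * j + 2 ≤ 6 * K) (c : Fin K × Fin 6 → Col) (hT : ∀ y, PG q 0 (c y).1)
    (hP : ∀ y, PG q (2 * j + 1) (c y).2.1) (hQ : ∀ y, PG q (2 * j - 2) (c y).2.2) :
    VG q (6 * (K : ℤ) ^ 2 + (8 * j - 3) * K - (4 * (j : ℤ) ^ 2 - 1) / 3 + 1)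
      (Matrix.of fun (x y : Fin K × Fin 6) =>
        PowerSeries.coeff (x.2 : ℕ) (sc q L ξ r x.1 (c y))).det := by
  classical
  have hK : 1 ≤ K := hc.hK
  have hq0 : (q : ℚ) ≠ 0 := by exact_mod_cast hq.out.ne_zero
  have hqpos : 0 < q := hq.out.pos
  have hKq : K ≤ q := by
    have h1 : q * (K - 1) < q * q := by
      have := hc.hL
      nlinarith [hc.hL, hL]
    have h2 : K - 1 < q := lt_of_mul_lt_mul_left h1 (Nat.zero_le _)
    omega
  choose A hA1 hA2 using fun y => hser_centre (L := L) (r := r) hK (c y).1 (hT y)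
  choose B hB1 hB2 using fun y => hser_centre (L := L) (r := r) hK (c y).2.1 (hP y)
  choose D hD1 hD2 using fun y => hser_centre (L := L) (r := r) hK (c y).2.2 (hQ y)
  obtain ⟨N, hN⟩ : ∃ N : ℕ, ∀ y, (A y).natDegree < N ∧ (B y).natDegree < N ∧
      (D y).natDegree < N := by
    refine ⟨∑ y, ((A y).natDegree + (B y).natDegree + (D y).natDegree) + 1, fun y => ?_⟩
    have h1 := Finset.single_le_sum
      (f := fun y => (A y).natDegree + (B y).natDegree + (D y).natDegree)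
      (fun i _ => Nat.zero_le _) (mem_univ y)
    omega
  -- generators and coefficients
  let g : Fin 3 × Fin N → Fin K × Fin 6 → ℚ := fun x i =>
    PowerSeries.coeff (i.2 : ℕ) (yv K i.1 ^ (x.2 : ℕ) * kk q L ξ r i.1 x.1)
  let co : Fin K × Fin 6 → Fin 3 × Fin N → ℚ := fun y x =>
    ![(A y).coeff x.2 * (q : ℚ) ^ (x.2 : ℕ), -((B y).coeff x.2 * (q : ℚ) ^ (x.2 : ℕ) * (q : ℚ)⁻¹),
      (D y).coeff x.2 * (q : ℚ) ^ (x.2 : ℕ) * (q : ℚ) ^ 2] x.1
  have hsc : (Matrix.of fun (x y : Fin K × Fin 6) =>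
      PowerSeries.coeff (x.2 : ℕ) (sc q L ξ r x.1 (c y))) =
      Matrix.of fun i k => ∑ x, co k x * g x i := by
    ext x y
    simp only [Matrix.of_apply]
    have h1 : sc q L ξ r x.1 (c y) = ∑ z : Fin 3 × Fin N,
        PowerSeries.C (co y z) * (yv K x.1 ^ (z.2 : ℕ) * kk q L ξ r x.1 z.1) := by
      rw [Fintype.sum_prod_type, Fin.sum_univ_three]
      simp only [sc, tvec, map_add, map_mul, map_pow, PowerSeries.rescale_X]
      rw [hA2 y _ x.1.2, hB2 y _ x.1.2, hD2 y _ x.1.2, aeval_sum _ (hN y).1, aeval_sum _ (hN y).2.1,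
        aeval_sum _ (hN y).2.2, Finset.mul_sum, Finset.mul_sum]
      congr 1
      · congr 1
        · refine Finset.sum_congr rfl fun a _ => ?_
          simp [co, kk]
        · refine Finset.sum_congr rfl fun a _ => ?_
          simp only [co, kk, Matrix.cons_val_one, Matrix.cons_val_zero]
          have h2 : PowerSeries.C (-((B y).coeff a * (q : ℚ) ^ (a : ℕ) * (q : ℚ)⁻¹)) *
              PowerSeries.C (q : ℚ) = -PowerSeries.C ((B y).coeff a * (q : ℚ) ^ (a : ℕ)) := by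
            rw [← map_mul, ← map_neg]
            congr 1
            field_simp
          linear_combination (-(yv K ↑x.1 ^ (a : ℕ) *
            PowerSeries.rescale (q : ℚ) (kerP L ξ (r + q * ↑x.1)))) * (-h2)
      · refine Finset.sum_congr rfl fun a _ => ?_
        simp only [co, kk, Matrix.cons_val]
        rw [map_mul _ _ ((q : ℚ) ^ 2), map_pow _ (q : ℚ)]
        ring
    rw [h1, map_sum]
    refine Finset.sum_congr rfl fun z _ => ?_
    rw [PowerSeries.coeff_C_mul]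
  rw [hsc]
  -- integrality
  have hw : ∀ i : Fin K, SG q 1 (kk q L ξ r i 1 - gS K i) := by
    intro i
    have h1 := SG.C_mul (VG.self_prime (q := q)) (kerP_sing hc hL hξ i.2)
    have h2 : kk q L ξ r i 1 - gS K i = -(PowerSeries.C (q : ℚ) *
        (PowerSeries.rescale (q : ℚ) (kerP L ξ (r + q * i)) +
          PowerSeries.C ((q : ℚ)⁻¹) * gS K i)) := by
      have h3 : PowerSeries.C (q : ℚ) * PowerSeries.C ((q : ℚ)⁻¹) = 1 := by
        rw [← map_mul, mul_inv_cancel₀ hq0, map_one]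
      simp only [kk, Matrix.cons_val_one, Matrix.cons_val_zero]
      linear_combination (-(gS K ↑i)) * (-h3)
    rw [h2]
    simpa using h1.neg
  have hkk : ∀ (i : Fin K) (s : Fin 3), SG q 1 (kk q L ξ r i s - ker3 K i s) := by
    intro i s
    fin_cases s
    · simp only [kk, ker3]
      simpa using SG.zero 1
    · exact hw i
    · simp only [kk, ker3]
      simpa using SG.zero 1
  have hker : ∀ (i : Fin K) (s : Fin 3), SG q 0 (ker3 K i s) := by
    intro i s
    fin_cases s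
    · simpa [ker3] using SG.one (q := q)
    · simpa [ker3] using gS_int hKq i.2
    · simpa [ker3] using (SG.X (q := q)).pow_zero 2
  have hcong : ∀ (x : Fin 3 × Fin N) (i : Fin K × Fin 6),
      VG q 1 (g x i - PowerSeries.coeff (i.2 : ℕ) (yv K i.1 ^ (x.2 : ℕ) * ker3 K i.1 x.1)) := by
    intro x i
    simp only [g]
    rw [← map_sub, ← mul_sub]
    exact ((yv_int (q := q) (K := K) (i.1 : ℕ)).pow_zero (x.2 : ℕ)).int_mul (hkk i.1 x.1) _ i.2.2
  have hker0 : ∀ (x : Fin 3 × Fin N) (i : Fin K × Fin 6),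
      VG q 0 (PowerSeries.coeff (i.2 : ℕ) (yv K i.1 ^ (x.2 : ℕ) * ker3 K i.1 x.1)) := fun x i =>
    ((yv_int (q := q) (K := K) (i.1 : ℕ)).pow_zero (x.2 : ℕ)).int_mul (hker i.1 x.1) _ i.2.2
  have hg0 : ∀ (x : Fin 3 × Fin N) (i : Fin K × Fin 6), VG q 0 (g x i) := by
    intro x i
    have h1 := ((hcong x i).mono (l := 0) (by norm_num)).add (hker0 x i)
    simpa using h1
  have hml := ml_det (q := q) g (fun x => wt j (x.1, (x.2 : ℕ))) (fun _ => 0) co ?_
    (6 * (K : ℤ) ^ 2 + (8 * j - 3) * K - (4 * (j : ℤ) ^ 2 - 1) / 3 + 1) ?_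
  · simpa using hml
  · intro y x
    obtain ⟨s, a⟩ := x
    have hqa : VG q ((a : ℕ) : ℤ) ((q : ℚ) ^ (a : ℕ)) := VG.pow_self _
    fin_cases s
    · have h1 := (hA1 y a).mul hqa
      simp only [co, wt]
      simpa using h1
    · have h1 := (((hB1 y a).mul hqa).mul (VG.zpow_self (q := q) (-1))).neg
      simp only [co, wt]
      refine VG.mono (k := 2 * (j : ℤ) + 1 + ((a : ℕ) : ℤ) + -1) ?_ ?_
      · simpa using h1
      · simp
        omega
    · have h1 := ((hD1 y a).mul hqa).mul (VG.pow_self (q := q) 2)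
      simp only [co, wt]
      refine VG.mono (k := 2 * (j : ℤ) - 2 + ((a : ℕ) : ℤ) + (2 : ℕ)) ?_ ?_
      · simpa using h1
      · simp
        omega
  · intro f hf
    let f' : Fin K × Fin 6 → Fin 3 × ℕ := fun x => ((f x).1, ((f x).2 : ℕ))
    have hf' : Function.Injective f' := by
      intro x y hxy
      simp only [f', Prod.mk.injEq] at hxy
      exact hf (Prod.ext hxy.1 (Fin.ext hxy.2))
    have hwt := wt_sum j hj hjK f' hf'
    have h0 : VG q 0 (Matrix.det (Matrix.of fun i k => g (f k) i)) :=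
      VG.det_zero _ fun i k => hg0 _ _
    change VG q (_ - ∑ k, wt j (f' k)) _
    by_cases hpar : (univ.filter fun x => Even (f' x).2).card = 3 * K
    · have h1 := hwt.2 hpar
      exact h0.mono (by omega)
    · have h1 := hwt.1
      have h2 := parity f' hpar
      have h3 := det_cg1 (q := q) (Matrix.of fun i k => g (f k) i)
        (Matrix.of fun (x y : Fin K × Fin 6) =>
          PowerSeries.coeff (x.2 : ℕ) (yv K x.1 ^ (f' y).2 * ker3 K x.1 (f' y).1))
        (fun i k => hker0 (f k) i) (fun i k => hcong (f k) i)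
      rw [h2, sub_zero] at h3
      exact h3.mono (by omega)

end GenJ

variable {q L r K : ℕ} {ξ : ℚ} [hq : Fact q.Prime]

/-- the general class bound -/
theorem genj (hc : Cls q L r K) (hL : L < q ^ 2) (hξ : VG q 0 ξ) (j : ℕ)
    (hj : j % 3 ≠ 0) (hjK : 2 * j + 2 ≤ 6 * K) (c : Fin K × Fin 6 → Col) (hT : ∀ y, PG q 0 (c y).1)
    (hP : ∀ y, PG q (2 * j + 1) (c y).2.1) (hQ : ∀ y, PG q (2 * j - 2) (c y).2.2) :
    VG q (6 * (K : ℤ) ^ 2 + (8 * j - 18) * K - (4 * (j : ℤ) ^ 2 - 4) / 3)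
      (cmat q L ξ r K c).det := by
  have hq0 : (q : ℚ) ≠ 0 := by exact_mod_cast hq.out.ne_zero
  have h1 := GenJ.genj_aux hc hL hξ j hj hjK c hT hP hQ
  rw [cmat_scale] at h1
  have h2 := (VG.zpow_self (q := q) (-(15 * K : ℕ) : ℤ)).mul h1
  have h3 : (q : ℚ) ^ (-(15 * K : ℕ) : ℤ) * ((q : ℚ) ^ (15 * K) * (cmat q L ξ r K c).det) =
      (cmat q L ξ r K c).det := by
    rw [zpow_neg, zpow_natCast, ← mul_assoc, inv_mul_cancel₀ (pow_ne_zero _ hq0), one_mul]
  rw [h3] at h2
  refine h2.mono ?_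
  have h4 : (4 * (j : ℤ) ^ 2 - 4) / 3 + 1 = (4 * (j : ℤ) ^ 2 - 1) / 3 := by
    rw [← Int.add_mul_ediv_right _ _ (by norm_num : (3 : ℤ) ≠ 0)]
    congr 1
    ring
  push_cast
  nlinarith [h4]

end Pool.Agent.Z5
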