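import Mathlib

/-!
# Products of shifted factors (algebra for `H` modulo `q ^ 2`)
-/

open Finset Polynomial

namespace Pool.Agent.Z5

variable {q : ℕ}

theorem prod_one_sub_exp {R : Type*} [CommRing R] (c : R) (s : Finset ℕ) (v : ℕ → R) :
    ∃ y : R, (∏ m ∈ s, (1 - c * v m)) = 1 - c * ∑ m ∈ s, v m + c ^ 2 * y := by
  classical
  induction s using Finset.induction_on with
  | empty => exact ⟨0, by simp⟩
  | insert a s ha ih =>
    obtain ⟨y, hy⟩ := ih
    rw [prod_insert ha, sum_insert ha, hy]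
    exact ⟨y + v a * (∑ m ∈ s, v m) - c * v a * y, by ring⟩

/-- `∏_{s < q, s ≠ a} (s - a + u)` modulo `q ^ 2` -/
theorem prod_shift' {R : Type*} [CommRing R] {a : ℕ} (ha : a < q) (u : R) (v : ℕ → R)
    (hv : ∀ m ∈ Finset.Icc 1 a, ((m : R) - u) * v m = 1) : ∃ y : R,
    ∏ s ∈ (range q).erase a, ((s : R) - (a : R) + u) =
      (∏ n ∈ Finset.Icc 1 (q - 1), ((n : R) + u)) * (1 + (q : R) * ∑ m ∈ Finset.Icc 1 a, v m) +
        (q : R) ^ 2 * y := by
  -- split the left side
  have h1 : ∏ s ∈ (range q).erase a, ((s : R) - (a : R) + u) =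
      (∏ m ∈ Finset.Icc 1 a, (u - m)) * ∏ n ∈ Finset.Icc 1 (q - 1 - a), ((n : R) + u) := by
    have e : (range q).erase a = (range a) ∪ Finset.Ico (a + 1) q := by
      ext s
      simp only [mem_erase, mem_range, mem_union, Finset.mem_Ico]
      omega
    have d : Disjoint (range a) (Finset.Ico (a + 1) q) := by
      rw [Finset.disjoint_left]
      intro s h1 h2
      simp only [mem_range, Finset.mem_Ico] at h1 h2
      omega
    rw [e, prod_union d]
    congr 1
    · refine Finset.prod_nbij' (fun s => a - s) (fun m => a - m) ?_ ?_ ?_ ?_ ?_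
      · intro s hs; simp only [mem_range, Finset.mem_Icc] at *; omega
      · intro s hs; simp only [mem_range, Finset.mem_Icc] at *; omega
      · intro s hs; simp only [mem_range] at *; omega
      · intro s hs; simp only [Finset.mem_Icc] at *; omega
      · intro s hs
        simp only [mem_range] at hs
        rw [Nat.cast_sub hs.le]; ring
    · refine Finset.prod_nbij' (fun s => s - a) (fun m => m + a) ?_ ?_ ?_ ?_ ?_
      · intro s hs; simp only [Finset.mem_Ico, Finset.mem_Icc] at *; omega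
      · intro s hs; simp only [Finset.mem_Ico, Finset.mem_Icc] at *; omega
      · intro s hs; simp only [Finset.mem_Ico] at *; omega
      · intro s hs; simp only [Finset.mem_Icc] at *; omega
      · intro s hs
        simp only [Finset.mem_Ico] at hs
        rw [Nat.cast_sub (by omega)]
  have h2 : ∏ n ∈ Finset.Icc 1 (q - 1), ((n : R) + u) =
      (∏ m ∈ Finset.Icc 1 a, (u - m + q)) * ∏ n ∈ Finset.Icc 1 (q - 1 - a), ((n : R) + u) := by
    have e : Finset.Icc 1 (q - 1) = Finset.Icc (q - a) (q - 1) ∪ Finset.Icc 1 (q - 1 - a) := by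
      ext s
      simp only [mem_union, Finset.mem_Icc]
      omega
    have d : Disjoint (Finset.Icc (q - a) (q - 1)) (Finset.Icc 1 (q - 1 - a)) := by
      rw [Finset.disjoint_left]
      intro s h1 h2
      simp only [Finset.mem_Icc] at h1 h2
      omega
    rw [e, prod_union d]
    congr 1
    refine Finset.prod_nbij' (fun s => q - s) (fun m => q - m) ?_ ?_ ?_ ?_ ?_
    · intro s hs; simp only [Finset.mem_Icc] at *; omega
    · intro s hs; simp only [Finset.mem_Icc] at *; omega
    · intro s hs; simp only [Finset.mem_Icc] at *; omega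
    · intro s hs; simp only [Finset.mem_Icc] at *; omega
    · intro s hs
      simp only [Finset.mem_Icc] at hs
      rw [Nat.cast_sub (by omega)]; ring
  have h3 : ∏ m ∈ Finset.Icc 1 a, (u - m + q) =
      (∏ m ∈ Finset.Icc 1 a, (u - m)) * ∏ m ∈ Finset.Icc 1 a, (1 - (q : R) * v m) := by
    rw [← prod_mul_distrib]
    refine prod_congr rfl fun m hm => ?_
    linear_combination -(q : R) * hv m hm
  obtain ⟨y, hy⟩ := prod_one_sub_exp (q : R) (Finset.Icc 1 a) v
  set S := ∑ m ∈ Finset.Icc 1 a, v m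
  set P := ∏ m ∈ Finset.Icc 1 a, (u - (m : R))
  set T := ∏ n ∈ Finset.Icc 1 (q - 1 - a), ((n : R) + u)
  rw [h1, h2, h3, hy]
  exact ⟨P * T * (S ^ 2 - y * (1 + q * S)), by ring⟩

set_option linter.unusedVariables false in
theorem prod_shift {R : Type*} [CommRing R] {a : ℕ} (ha : a < q) (u : R) (v v' : ℕ → R)
    (hv : ∀ m ∈ Finset.Icc 1 a, ((m : R) - u) * v m = 1)
    (hv' : ∀ m ∈ Finset.Icc 1 a, (u - (m : R) + (q : R)) * v' m = 1) : ∃ y : R,
    ∏ s ∈ (range q).erase a, ((s : R) - (a : R) + u) =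
      (∏ n ∈ Finset.Icc 1 (q - 1), ((n : R) + u)) * (1 + (q : R) * ∑ m ∈ Finset.Icc 1 a, v m) +
        (q : R) ^ 2 * y := prod_shift' ha u v hv

theorem W_refl {R : Type*} [CommRing R] (h2 : Odd q) (u : R) :
    ∏ n ∈ Finset.Icc 1 (q - 1), ((n : R) + (-u - (q : R))) =
      ∏ n ∈ Finset.Icc 1 (q - 1), ((n : R) + u) := by
  have h1 : ∏ n ∈ Finset.Icc 1 (q - 1), ((n : R) + (-u - (q : R))) =
      ∏ n ∈ Finset.Icc 1 (q - 1), (-1 : R) * ((n : R) + u) := by
    refine Finset.prod_nbij' (fun s => q - s) (fun m => q - m) ?_ ?_ ?_ ?_ ?_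
    · intro s hs; simp only [Finset.mem_Icc] at *; omega
    · intro s hs; simp only [Finset.mem_Icc] at *; omega
    · intro s hs; simp only [Finset.mem_Icc] at *; omega
    · intro s hs; simp only [Finset.mem_Icc] at *; omega
    · intro s hs
      simp only [Finset.mem_Icc] at hs
      rw [Nat.cast_sub (by omega)]; ring
  rw [h1, prod_mul_distrib, prod_const, Nat.card_Icc]
  have h3 : Even (q - 1 + 1 - 1) := by
    obtain ⟨k, rfl⟩ := h2
    exact ⟨k, by omega⟩
  rw [h3.neg_one_pow, one_mul]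

theorem W_sq {R : Type*} [CommRing R] (u : R) :
    (∏ n ∈ Finset.Icc 1 (q - 1), ((n : R) + u)) ^ 2 =
      ∏ n ∈ Finset.Icc 1 (q - 1), ((n : R) * ((q : R) - n) + u * (u + q)) := by
  have h1 : ∏ n ∈ Finset.Icc 1 (q - 1), ((n : R) + u) =
      ∏ n ∈ Finset.Icc 1 (q - 1), (((q : R) - n) + u) := by
    refine Finset.prod_nbij' (fun s => q - s) (fun m => q - m) ?_ ?_ ?_ ?_ ?_
    · intro s hs; simp only [Finset.mem_Icc] at *; omega
    · intro s hs; simp only [Finset.mem_Icc] at *; omega
    · intro s hs; simp only [Finset.mem_Icc] at *; omega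
    · intro s hs; simp only [Finset.mem_Icc] at *; omega
    · intro s hs
      simp only [Finset.mem_Icc] at hs
      rw [Nat.cast_sub (by omega)]; ring
  rw [sq]
  nth_rw 2 [h1]
  rw [← prod_mul_distrib]
  exact prod_congr rfl fun n _ => by ring

end Pool.Agent.Z5
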