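import Pool.Agent.Z5.PPG
import Pool.Agent.Z5.PH
import Pool.Agent.Z5.POm
import Pool.Agent.Z5.PHM

/-!
# Classes with one pole

`r < q`, `L - r < q`: everything is integral in `ε`; `H = ε ^ 2` modulo `q` and
`H = ε ^ 2 + ω ε ^ 4 + q ε ^ 2 g` modulo `q ^ 2`.
-/

open Finset Polynomial

namespace Pool.Agent.Z5

variable {q L r : ℕ} {ξ : ℚ} [hq : Fact q.Prime]

namespace K1

/-! ### small facts on `SG` -/

omit hq in
/-- multiples of `X ^ 6` do not matter -/
theorem SG_X6 (k : ℤ) (f : PowerSeries ℚ) : SG q k (PowerSeries.X ^ 6 * f) := by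
  intro n hn
  rw [PowerSeries.coeff_X_pow_mul', if_neg (by omega)]
  exact VG.zero _

/-- the subring of series with integral first coefficients -/
def SR (q : ℕ) [Fact q.Prime] : Subring (PowerSeries ℚ) where
  carrier := {f | SG q 0 f}
  mul_mem' := fun ha hb => SG.mul_int ha hb
  one_mem' := SG.one
  add_mem' := fun ha hb => SG.add ha hb
  zero_mem' := SG.zero 0
  neg_mem' := fun ha => SG.neg ha

omit hq in
theorem mem_SR [Fact q.Prime] {f : PowerSeries ℚ} : f ∈ SR q ↔ SG q 0 f := Iff.rfl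

/-! ### the inverses `1 / (m + s X)` -/

omit hq in
theorem inv_lin {m : ℚ} (hm : m ≠ 0) (s : ℚ) :
    (PowerSeries.C m + PowerSeries.C s * PowerSeries.X)⁻¹ =
      PowerSeries.mk fun k => (-s) ^ k / m ^ (k + 1) := by
  symm
  rw [PowerSeries.eq_inv_iff_mul_eq_one (by simpa using hm)]
  ext n
  rw [mul_add, map_add, PowerSeries.coeff_mul_C, PowerSeries.coeff_mk, ← mul_assoc,
    PowerSeries.coeff_one]
  cases n with
  | zero =>
    simp
    field_simp
  | succ n =>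
    rw [PowerSeries.coeff_succ_mul_X, PowerSeries.coeff_mul_C, PowerSeries.coeff_mk, if_neg (by omega)]
    field_simp
    ring

theorem SG_inv_lin {x s : ℚ} (hx : x ≠ 0) (h : VG q 0 x⁻¹) (hs : VG q 0 s) :
    SG q 0 (PowerSeries.C x + PowerSeries.C s * PowerSeries.X)⁻¹ := by
  intro n _
  rw [inv_lin hx, PowerSeries.coeff_mk, div_eq_mul_inv, ← inv_pow]
  exact VG.int_mul (hs.neg.pow_zero n) (h.pow_zero _)

theorem Hs_VG {s M : ℕ} (h : M < q) : VG q 0 (Hs s M) := by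
  refine VG.sum _ _ fun m hm => ?_
  rw [Finset.mem_Icc] at hm
  rw [one_div, ← inv_pow]
  exact (POm.VG_inv_nat hm.1 (by omega)).pow_zero s

/-! ### the kernel -/

theorem kerP_SG (h1 : r < q) (h2 : L - r < q) (hξ : VG q 0 ξ) : SG q 0 (kerP L ξ r) := by
  intro n hn
  rw [kerP, PowerSeries.coeff_mk, if_pos hn]
  refine VG.add (VG.neg (VG.add (Hs_VG h1) ?_)) ?_
  · exact VG.int_mul (VG.one.neg.pow_zero n) (Hs_VG h2)
  · split_ifs
    · exact VG.int_mul (by simpa using VG.nat (q := q) 2) hξ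
    · exact VG.zero _

/-- the regular part of `g` -/
noncomputable def g1 (a b : ℕ) : PowerSeries ℚ :=
  ∑ m ∈ Finset.Icc 1 a, (PowerSeries.C (m : ℚ) + PowerSeries.C (-1) * PowerSeries.X)⁻¹ +
    ∑ m ∈ Finset.Icc 1 b, (PowerSeries.C (m : ℚ) + PowerSeries.C 1 * PowerSeries.X)⁻¹

theorem g1_SG {a b : ℕ} (h1 : a < q) (h2 : b < q) : SG q 0 (g1 a b) := by
  refine SG.add (SG.sum _ _ fun m hm => ?_) (SG.sum _ _ fun m hm => ?_)
  · rw [Finset.mem_Icc] at hm
    exact SG_inv_lin (by have := hm.1; positivity) (POm.VG_inv_nat hm.1 (by omega)) VG.one.neg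
  · rw [Finset.mem_Icc] at hm
    exact SG_inv_lin (by have := hm.1; positivity) (POm.VG_inv_nat hm.1 (by omega)) VG.one

omit hq in
theorem kerP_g1 (L r : ℕ) (ξ : ℚ) : ∃ Z : PowerSeries ℚ, kerP L ξ r =
    -g1 r (L - r) + PowerSeries.C (2 * ξ) * PowerSeries.X ^ 4 + PowerSeries.X ^ 6 * Z := by
  have h : PowerSeries.X ^ 6 ∣ kerP L ξ r -
      (-g1 r (L - r) + PowerSeries.C (2 * ξ) * PowerSeries.X ^ 4) := by
    rw [PowerSeries.X_pow_dvd_iff]
    intro n hn
    rw [map_sub, map_add, map_neg, g1, map_add, map_sum, map_sum, PowerSeries.coeff_C_mul,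
      PowerSeries.coeff_X_pow, kerP, PowerSeries.coeff_mk, if_pos hn, Hs, Hs, mul_sum]
    have e1 : ∑ m ∈ Finset.Icc 1 r, PowerSeries.coeff n
        (PowerSeries.C (m : ℚ) + PowerSeries.C (-1) * PowerSeries.X)⁻¹ =
        ∑ m ∈ Finset.Icc 1 r, 1 / (m : ℚ) ^ (n + 1) := by
      refine sum_congr rfl fun m hm => ?_
      rw [Finset.mem_Icc] at hm
      rw [inv_lin (by have := hm.1; positivity), PowerSeries.coeff_mk]
      simp
    have e2 : ∑ m ∈ Finset.Icc 1 (L - r), PowerSeries.coeff n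
        (PowerSeries.C (m : ℚ) + PowerSeries.C 1 * PowerSeries.X)⁻¹ =
        ∑ m ∈ Finset.Icc 1 (L - r), (-1) ^ n * (1 / (m : ℚ) ^ (n + 1)) := by
      refine sum_congr rfl fun m hm => ?_
      rw [Finset.mem_Icc] at hm
      rw [inv_lin (by have := hm.1; positivity), PowerSeries.coeff_mk]
      ring
    rw [e1, e2]
    split_ifs <;> ring
  obtain ⟨Z, hZ⟩ := h
  exact ⟨Z, by rw [← hZ]; ring⟩

/-! ### the products -/

theorem prod_shift_SG {a : ℕ} (ha : a < q) {s : ℚ} (hs : VG q 0 s) :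
    ∃ y : PowerSeries ℚ, SG q 0 y ∧
    ∏ t ∈ (range q).erase a, (PowerSeries.C ((t : ℚ) - a) + PowerSeries.C s * PowerSeries.X) =
      (∏ n ∈ Finset.Icc 1 (q - 1), (PowerSeries.C (n : ℚ) + PowerSeries.C s * PowerSeries.X)) *
        (1 + PowerSeries.C (q : ℚ) * ∑ m ∈ Finset.Icc 1 a,
          (PowerSeries.C (m : ℚ) + PowerSeries.C (-s) * PowerSeries.X)⁻¹) +
        PowerSeries.C (q : ℚ) ^ 2 * y := by
  have hu : SG q 0 (PowerSeries.C s * PowerSeries.X) := (SG.C hs).mul_int SG.X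
  let u : SR q := ⟨PowerSeries.C s * PowerSeries.X, mem_SR.2 hu⟩
  have ex1 : ∀ m : ℕ, m ∈ Finset.Icc 1 a → ∃ w : SR q, ((m : SR q) - u) * w = 1 ∧
      (w : PowerSeries ℚ) = (PowerSeries.C (m : ℚ) + PowerSeries.C (-s) * PowerSeries.X)⁻¹ := by
    intro m hm
    rw [Finset.mem_Icc] at hm
    refine ⟨⟨_, mem_SR.2 (SG_inv_lin (by have := hm.1; positivity)
      (POm.VG_inv_nat hm.1 (by omega)) hs.neg)⟩, ?_, rfl⟩
    apply Subtype.ext
    have h0 : PowerSeries.constantCoeff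
        (PowerSeries.C (m : ℚ) + PowerSeries.C (-s) * PowerSeries.X) ≠ 0 := by
      have := hm.1
      simp
      omega
    have h1 := PowerSeries.mul_inv_cancel _ h0
    refine Eq.trans ?_ h1
    rw [Subring.coe_mul, AddSubgroupClass.coe_sub, Subring.coe_natCast]
    congr 1
    simp [u, sub_eq_add_neg]
  have ex2 : ∀ m : ℕ, m ∈ Finset.Icc 1 a → ∃ w : SR q, (u - (m : SR q) + (q : SR q)) * w = 1 := by
    intro m hm
    rw [Finset.mem_Icc] at hm
    have hc : ((q - m : ℕ) : ℚ) ≠ 0 := by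
      have : q - m ≠ 0 := by omega
      exact_mod_cast this
    refine ⟨⟨_, mem_SR.2 (SG_inv_lin hc (POm.VG_inv_nat (by omega) (by omega)) hs)⟩, ?_⟩
    apply Subtype.ext
    have h0 : PowerSeries.constantCoeff
        (PowerSeries.C ((q - m : ℕ) : ℚ) + PowerSeries.C s * PowerSeries.X) ≠ 0 := by
      simpa using hc
    have h1 := PowerSeries.mul_inv_cancel _ h0
    refine Eq.trans ?_ h1
    rw [Subring.coe_mul, Subring.coe_add, AddSubgroupClass.coe_sub, Subring.coe_natCast,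
      Subring.coe_natCast]
    congr 1
    rw [Nat.cast_sub (by omega : m ≤ q), map_sub, map_natCast, map_natCast]
    simp only [u]
    ring
  choose! v hv hv2 using ex1
  choose! v' hv' using ex2
  obtain ⟨y, hy⟩ := prod_shift ha u v v' hv hv'
  refine ⟨y, y.2, ?_⟩
  have h2 := congrArg (fun z : SR q => (z : PowerSeries ℚ)) hy
  simp only [Subring.coe_add, Subring.coe_mul, Subring.coe_pow, Subring.coe_one,
    Subring.coe_natCast, u] at h2
  have c1 : ∀ (S : Finset ℕ) (f : ℕ → SR q), ((∏ i ∈ S, f i : SR q) : PowerSeries ℚ) =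
      ∏ i ∈ S, (f i : PowerSeries ℚ) := fun S f => map_prod (SR q).subtype f S
  have c2 : ∀ (S : Finset ℕ) (f : ℕ → SR q), ((∑ i ∈ S, f i : SR q) : PowerSeries ℚ) =
      ∑ i ∈ S, (f i : PowerSeries ℚ) := fun S f => map_sum (SR q).subtype f S
  rw [c1, c1, c2, sum_congr rfl hv2] at h2
  simp only [map_natCast, Subring.coe_add, AddSubgroupClass.coe_sub, Subring.coe_natCast] at h2 ⊢
  rw [← h2]
  refine prod_congr rfl fun t _ => ?_
  simp

omit hq in
theorem fac_prod (n : ℕ) : ((n.factorial : ℕ) : ℚ) = ∏ m ∈ Finset.Icc 1 n, (m : ℚ) := by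
  induction n with
  | zero => simp
  | succ n ih =>
    rw [Finset.prod_Icc_succ_top (by omega), ← ih, Nat.factorial_succ]
    push_cast
    ring

omit hq in
theorem W_W : PowerSeries.C (((q - 1).factorial : ℚ) ^ 2)⁻¹ *
    ((∏ n ∈ Finset.Icc 1 (q - 1), (PowerSeries.C (n : ℚ) + PowerSeries.C 1 * PowerSeries.X)) *
      ∏ n ∈ Finset.Icc 1 (q - 1), (PowerSeries.C (n : ℚ) + PowerSeries.C (-1) * PowerSeries.X)) =
    aeval ((PowerSeries.X : PowerSeries ℚ) ^ 2) (Om1 q) := by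
  rw [Om1, map_prod, ← prod_mul_distrib, fac_prod,
    ← prod_pow, ← prod_inv_distrib, map_prod, ← prod_mul_distrib]
  refine prod_congr rfl fun n hn => ?_
  rw [Finset.mem_Icc] at hn
  have h0 : (n : ℚ) ≠ 0 := by have := hn.1; positivity
  rw [map_sub, map_mul, map_one (aeval _), aeval_X, aeval_C]
  have e : (algebraMap ℚ (PowerSeries ℚ)) (1 / (n : ℚ) ^ 2) = PowerSeries.C (((n : ℚ) ^ 2)⁻¹) := by
    rw [one_div]; rfl
  rw [e]
  have e2 : PowerSeries.C (((n : ℚ) ^ 2)⁻¹) * (PowerSeries.C (n : ℚ) * PowerSeries.C (n : ℚ)) =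
      1 := by
    rw [← map_mul, ← map_mul, ← map_one PowerSeries.C]
    congr 1
    field_simp
  have e3 : PowerSeries.C (-1 : ℚ) = -1 := by simp
  have e4 : PowerSeries.C (1 : ℚ) = 1 := by simp
  rw [e3, e4]
  linear_combination e2

omit hq in
theorem poly3 (P : ℚ[X]) : ∃ R : ℚ[X], P =
    C (P.coeff 0) + C (P.coeff 1) * X + C (P.coeff 2) * X ^ 2 + X ^ 3 * R := by
  refine ⟨P.divX.divX.divX, ?_⟩
  have h1 := divX_mul_X_add P
  have h2 := divX_mul_X_add P.divX
  have h3 := divX_mul_X_add P.divX.divX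
  rw [coeff_divX] at h2
  rw [coeff_divX, coeff_divX] at h3
  norm_num at h2 h3
  linear_combination -h1 - h2 * X - h3 * X ^ 2

theorem VG_fac : VG q 0 (((q - 1).factorial : ℚ) ^ 2)⁻¹ := by
  rw [← inv_pow]
  refine VG.pow_zero ?_ 2
  have h : ¬ (q : ℤ) ∣ (((q - 1).factorial : ℕ) : ℤ) := by
    rw [Int.natCast_dvd_natCast, hq.out.dvd_factorial]
    have := hq.out.one_lt
    omega
  simpa using VG_inv_int h

theorem Hk1 (h11 : 11 ≤ q) (hr : r < q) (hb : L - r < q) (hrL : r ≤ L) :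
    ∃ E : PowerSeries ℚ, SG q 2 E ∧ hser L r (Hp q L) =
      PowerSeries.X ^ 2 + PowerSeries.C ((Om1 q).coeff 1) * PowerSeries.X ^ 4 +
        PowerSeries.C (q : ℚ) * PowerSeries.X ^ 2 * g1 r (L - r) + E := by
  obtain ⟨y1, hy1, e1⟩ := prod_shift_SG hr (VG.one (q := q))
  obtain ⟨y2, hy2, e2⟩ := prod_shift_SG hb (VG.one (q := q)).neg
  obtain ⟨R, hR⟩ := poly3 (Om1 q)
  obtain ⟨o0, o1, o2, o3⟩ := Om1_coeff (q := q) (by omega)
  have hW := W_W (q := q)
  have hO : aeval ((PowerSeries.X : PowerSeries ℚ) ^ 2) (Om1 q) =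
      1 + PowerSeries.C ((Om1 q).coeff 1) * PowerSeries.X ^ 2 +
        PowerSeries.C ((Om1 q).coeff 2) * PowerSeries.X ^ 4 +
        PowerSeries.X ^ 6 * aeval ((PowerSeries.X : PowerSeries ℚ) ^ 2) R := by
    have h := congrArg (aeval ((PowerSeries.X : PowerSeries ℚ) ^ 2)) hR
    simp only [map_add, map_mul, map_pow, aeval_X, aeval_C] at h
    rw [h, o0]
    have e : ∀ x : ℚ, (algebraMap ℚ (PowerSeries ℚ)) x = PowerSeries.C x := fun _ => rfl
    rw [e, e, e, map_one]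
    ring
  have hf : SG q 0 (PowerSeries.C (((q - 1).factorial : ℚ) ^ 2)⁻¹) := SG.C VG_fac
  have p1 : ∏ s ∈ range q, (PowerSeries.C ((s : ℚ) - r) + PowerSeries.X) =
      PowerSeries.X * ∏ s ∈ (range q).erase r,
        (PowerSeries.C ((s : ℚ) - r) + PowerSeries.C 1 * PowerSeries.X) := by
    rw [← mul_prod_erase _ _ (mem_range.2 hr)]
    simp
  have p2 : ∏ s ∈ range q, (PowerSeries.C ((L : ℚ) - r - s) + PowerSeries.X) =
      PowerSeries.X * ∏ s ∈ (range q).erase (L - r),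
        (PowerSeries.C ((s : ℚ) - (L - r : ℕ)) + PowerSeries.C (-1) * PowerSeries.X) := by
    rw [← mul_prod_erase _ _ (mem_range.2 hb)]
    have hc : ((L - r : ℕ) : ℚ) = (L : ℚ) - r := by rw [Nat.cast_sub hrL]
    congr 1
    · rw [hc]; simp
    · have : ∀ s ∈ (range q).erase (L - r), PowerSeries.C ((L : ℚ) - r - s) + PowerSeries.X =
          (-1) * (PowerSeries.C ((s : ℚ) - (L - r : ℕ)) +
            PowerSeries.C (-1) * PowerSeries.X) := by
        intro s _
        rw [hc]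
        simp only [map_sub, map_neg, map_one]
        ring
      rw [prod_congr rfl this, prod_mul_distrib, prod_const, card_erase_of_mem (mem_range.2 hb),
        card_range]
      have h2 : Even (q - 1) := hq.out.even_sub_one (by omega)
      rw [h2.neg_one_pow, one_mul]
  have hH := Hp_hser (q := q) hrL
  rw [prod_mul_distrib, p1, p2, e1, e2, neg_neg] at hH
  set W1 : PowerSeries ℚ := ∏ n ∈ Finset.Icc 1 (q - 1),
    (PowerSeries.C (n : ℚ) + PowerSeries.C 1 * PowerSeries.X) with hW1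
  set W2 : PowerSeries ℚ := ∏ n ∈ Finset.Icc 1 (q - 1),
    (PowerSeries.C (n : ℚ) + PowerSeries.C (-1) * PowerSeries.X) with hW2
  set G1 : PowerSeries ℚ := ∑ m ∈ Finset.Icc 1 r,
    (PowerSeries.C (m : ℚ) + PowerSeries.C (-1) * PowerSeries.X)⁻¹ with hG1
  set G2 : PowerSeries ℚ := ∑ m ∈ Finset.Icc 1 (L - r),
    (PowerSeries.C (m : ℚ) + PowerSeries.C 1 * PowerSeries.X)⁻¹ with hG2
  set f := PowerSeries.C (((q - 1).factorial : ℚ) ^ 2)⁻¹ with hfd
  have sG1 : SG q 0 G1 := SG.sum _ _ fun m hm => by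
    rw [Finset.mem_Icc] at hm
    exact SG_inv_lin (by have := hm.1; positivity) (POm.VG_inv_nat hm.1 (by omega)) VG.one.neg
  have sG2 : SG q 0 G2 := SG.sum _ _ fun m hm => by
    rw [Finset.mem_Icc] at hm
    exact SG_inv_lin (by have := hm.1; positivity) (POm.VG_inv_nat hm.1 (by omega)) VG.one
  have sW : ∀ s : ℚ, VG q 0 s → SG q 0 (∏ n ∈ Finset.Icc 1 (q - 1),
      (PowerSeries.C (n : ℚ) + PowerSeries.C s * PowerSeries.X)) := by
    intro s hs
    have := SG.prod (q := q) (Finset.Icc 1 (q - 1)) (fun _ => 0)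
      (fun n => PowerSeries.C (n : ℚ) + PowerSeries.C s * PowerSeries.X) (fun n _ =>
        SG.add (SG.C (VG.nat n)) ((SG.C hs).mul_int SG.X))
    simpa using this
  have sW1 : SG q 0 W1 := sW 1 VG.one
  have sW2 : SG q 0 W2 := sW (-1) VG.one.neg
  have sq : SG q 1 (PowerSeries.C (q : ℚ)) := SG.C VG.self_prime
  have sq0 : SG q 0 (PowerSeries.C (q : ℚ)) := sq.mono (by norm_num)
  have sq2 : SG q 2 (PowerSeries.C (q : ℚ) ^ 2) := by
    have := sq.mul sq
    rw [← pow_two] at this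
    exact this
  have sg : SG q 0 (g1 r (L - r)) := SG.add sG1 sG2
  have sX : ∀ n : ℕ, SG q 0 ((PowerSeries.X : PowerSeries ℚ) ^ n) := fun n => SG.X.pow_zero n
  have hg : g1 r (L - r) = G1 + G2 := rfl
  refine ⟨PowerSeries.X ^ 6 * ((PowerSeries.C ((Om1 q).coeff 2) +
      PowerSeries.X ^ 2 * aeval ((PowerSeries.X : PowerSeries ℚ) ^ 2) R) *
        (1 + PowerSeries.C (q : ℚ) * g1 r (L - r))) +
      PowerSeries.C (q : ℚ) * PowerSeries.C ((Om1 q).coeff 1) * (PowerSeries.X ^ 4 *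
        g1 r (L - r)) +
      PowerSeries.C (q : ℚ) ^ 2 * (PowerSeries.X ^ 2 * (f * (W1 * W2 * G1 * G2 +
        W1 * (1 + PowerSeries.C (q : ℚ) * G1) * y2 + W2 * (1 + PowerSeries.C (q : ℚ) * G2) * y1 +
        PowerSeries.C (q : ℚ) ^ 2 * y1 * y2))), ?_, ?_⟩
  · refine SG.add (SG.add (SG_X6 _ _) ?_) ?_
    · refine SG.mul_int ?_ ((sX 4).mul_int sg)
      exact sq.mul (SG.C o2)
    · refine SG.mul_int sq2 ((sX 2).mul_int (hf.mul_int ?_))
      refine SG.add (SG.add (SG.add ?_ ?_) ?_) ?_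
      · exact ((sW1.mul_int sW2).mul_int sG1).mul_int sG2
      · exact (sW1.mul_int (SG.one.add (sq0.mul_int sG1))).mul_int hy2
      · exact (sW2.mul_int (SG.one.add (sq0.mul_int sG2))).mul_int hy1
      · exact ((sq0.pow_zero 2).mul_int hy1).mul_int hy2
  · rw [hH]
    rw [hO] at hW
    rw [hg]
    linear_combination (PowerSeries.X ^ 2 * (1 + PowerSeries.C (q : ℚ) * (G1 + G2))) * hW

/-! ### results -/

theorem hser_SG {k : ℤ} {h : ℚ[X]} (hh : PG q k h) (L u : ℕ) : SG q k (hser L u h) := by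
  refine SG.aeval ?_ h hh
  refine SG.pow_zero ?_ 2
  refine SG.add (SG.C ?_) ?_
  · have := VG.int (q := q) ((L : ℤ) - 2 * u)
    simpa using this
  · have h := (SG.C (VG.nat (q := q) 2)).mul_int (SG.X (q := q))
    rwa [map_natCast] at h

end K1

open K1

/-- multiplication of a column by an integral polynomial -/
theorem k1_mul {J : ℤ} {c : Col} (Q : ℚ[X]) (hQ : PG q 0 Q)
    (h : SG q J (tvec L ξ r c)) : SG q J (tvec L ξ r (csm Q c)) := by
  rw [csm, tvec_mul]
  exact (hser_SG hQ L r).int_mul h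

theorem k1_reg (hc : Cls q L r 1) (hξ : VG q 0 ξ) (c : Col) (h1 : PG q 0 c.1)
    (h2 : PG q 0 c.2.1) (h3 : PG q 0 c.2.2) : SG q 0 (tvec L ξ r c) := by
  have hU := hc.hU
  have hL := hc.hL
  have hr := hc.hr
  have hk := kerP_SG (L := L) hr (by omega) hξ
  exact SG.add (SG.add (hser_SG h1 L r) (hk.mul_int (hser_SG h2 L r)))
    ((SG.X.pow_zero 2).mul_int (hser_SG h3 L r))

theorem k1_col1 (h11 : 11 ≤ q) (hc : Cls q L r 1) : SG q 1 (tvec L ξ r (col1 q L 1)) := by
  have hU := hc.hU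
  have hL := hc.hL
  have hr := hc.hr
  obtain ⟨E, hE, hH⟩ := Hk1 (L := L) h11 hr (by omega) (by omega)
  obtain ⟨o0, o1, o2, o3⟩ := Om1_coeff (q := q) (by omega)
  have sg : SG q 0 (g1 r (L - r)) := g1_SG hr (by omega)
  have sq : SG q 1 (PowerSeries.C (q : ℚ)) := SG.C VG.self_prime
  have e : tvec L ξ r (col1 q L 1) = -(PowerSeries.C ((Om1 q).coeff 1) * PowerSeries.X ^ 4 +
        PowerSeries.C (q : ℚ) * PowerSeries.X ^ 2 * g1 r (L - r) + E) := by
    have h1 : hser L r 1 = 1 := by simp [hser]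
    have h2 : hser L r (-(1 * Hp q L)) = -hser L r (Hp q L) := by simp [hser]
    rw [tvec, col1]
    simp only
    rw [h1, h2, hser_zero, hH]
    ring
  rw [e]
  refine SG.neg (SG.add (SG.add ?_ ?_) (hE.mono (by norm_num)))
  · exact (SG.C o2).mul_int (SG.X.pow_zero 4)
  · exact (sq.mul_int (SG.X.pow_zero 2)).mul_int sg

theorem k1_col2 (h11 : 11 ≤ q) (hc : Cls q L r 1) (hξ : VG q 0 ξ) :
    SG q 2 (tvec L ξ r (col2 q L 1)) := by
  have hU := hc.hU
  have hL := hc.hL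
  have hr := hc.hr
  obtain ⟨E, hE, hH⟩ := Hk1 (L := L) h11 hr (by omega) (by omega)
  obtain ⟨Z, hZ⟩ := kerP_g1 L r ξ
  obtain ⟨o0, o1, o2, o3⟩ := Om1_coeff (q := q) (by omega)
  have hom : VG q 1 (om q) := om_VG (by omega)
  set g := g1 r (L - r) with hg
  have sg : SG q 0 g := g1_SG hr (by omega)
  have sq : SG q 1 (PowerSeries.C (q : ℚ)) := SG.C VG.self_prime
  set c1 := (Om1 q).coeff 1 with hc1
  have sX : ∀ n : ℕ, SG q 0 ((PowerSeries.X : PowerSeries ℚ) ^ n) := fun n => SG.X.pow_zero n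
  have hE' : ∃ E' : PowerSeries ℚ, hser L r (Hp q L) = PowerSeries.X ^ 2 * E' := by
    rw [Hp_hser (q := q) (by omega), prod_mul_distrib,
      ← mul_prod_erase _ _ (mem_range.2 (by omega : r < q)),
      ← mul_prod_erase (range q) (fun s => PowerSeries.C ((L : ℚ) - r - s) + PowerSeries.X)
        (mem_range.2 (by omega : L - r < q))]
    have h1 : PowerSeries.C ((r : ℚ) - r) + PowerSeries.X = (PowerSeries.X : PowerSeries ℚ) := by
      simp
    have h2 : PowerSeries.C ((L : ℚ) - r - (L - r : ℕ)) + PowerSeries.X =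
        (PowerSeries.X : PowerSeries ℚ) := by
      rw [Nat.cast_sub (by omega)]; simp
    rw [h1, h2]
    exact ⟨PowerSeries.C (((q - 1).factorial : ℚ) ^ 2)⁻¹ *
      ((∏ x ∈ (range q).erase r, (PowerSeries.C ((x : ℚ) - r) + PowerSeries.X)) *
      ∏ x ∈ (range q).erase (L - r), (PowerSeries.C ((L : ℚ) - r - x) + PowerSeries.X)), by ring⟩
  obtain ⟨E', hE'⟩ := hE'
  have e : tvec L ξ r (col2 q L 1) = PowerSeries.C (om q - c1) * PowerSeries.X ^ 4 + (-E +
      PowerSeries.C (q : ℚ) * PowerSeries.C c1 * (g * PowerSeries.X ^ 4) +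
      PowerSeries.C (q : ℚ) * PowerSeries.C (q : ℚ) * (PowerSeries.X ^ 2 * g * g) +
      E * (PowerSeries.C (q : ℚ) * g)) -
      PowerSeries.X ^ 6 * (PowerSeries.C (q : ℚ) * (PowerSeries.C (2 * ξ) +
        PowerSeries.X ^ 2 * Z) * E') +
      (PowerSeries.C (om q) * PowerSeries.C c1 * (PowerSeries.X ^ 2 * PowerSeries.X ^ 4) +
      PowerSeries.C (om q) * PowerSeries.C (q : ℚ) * (PowerSeries.X ^ 2 * PowerSeries.X ^ 2 * g) +
      E * (PowerSeries.C (om q) * PowerSeries.X ^ 2)) := by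
    have h1 : hser L r (1 * (1 + C (om q) * Hp q L)) =
        1 + PowerSeries.C (om q) * hser L r (Hp q L) := by
      rw [one_mul, hser_add, hser_C_mul]
      simp [hser]
    have h2 : hser L r (-(1 * Hp q L)) = -hser L r (Hp q L) := by simp [hser]
    have h3 : hser L r (-(C (q : ℚ) * (1 * Hp q L))) =
        -(PowerSeries.C (q : ℚ) * hser L r (Hp q L)) := by
      have : hser L r (-(C (q : ℚ) * (1 * Hp q L))) = - hser L r (C (q : ℚ) * Hp q L) := by
        simp [hser]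
      rw [this, hser_C_mul]
    rw [tvec, col2]
    simp only
    rw [h1, h2, h3, hZ, map_sub]
    linear_combination (-1 + PowerSeries.C (q : ℚ) * g + PowerSeries.C (om q) *
      PowerSeries.X ^ 2) * hH - PowerSeries.X ^ 4 * PowerSeries.C (q : ℚ) *
      (PowerSeries.C (2 * ξ) + PowerSeries.X ^ 2 * Z) * hE'
  rw [e]
  refine SG.add (SG.sub (SG.add ?_ (SG.add (SG.add (SG.add hE.neg ?_) ?_) ?_)) (SG_X6 _ _))
    (SG.add (SG.add ?_ ?_) ?_)
  · refine (SG.C ?_).mul_int (sX 4)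
    have := o1.neg
    rwa [neg_sub] at this
  · exact (sq.mul (SG.C o2)).mul_int (sg.mul_int (sX 4))
  · exact (sq.mul sq).mul_int (((sX 2).mul_int sg).mul_int sg)
  · exact hE.mul_int ((sq.mono (by norm_num)).mul_int sg)
  · exact ((SG.C hom).mul (SG.C o2)).mul_int ((sX 2).mul_int (sX 4))
  · exact ((SG.C hom).mul sq).mul_int (((sX 2).mul_int (sX 2)).mul_int sg)
  · exact hE.mul_int (((SG.C hom).mono (by norm_num)).mul_int (sX 2))

end Pool.Agent.Z5
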