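import Pool.Agent.Z5.PPG
import Pool.Agent.Z5.PHM
import Pool.Agent.Z5.PH
import Pool.Agent.Z5.POm
import Pool.Agent.Z5.PK1

/-!
# Classes with two poles: calculus of polynomials in `u = q z`
-/

open Finset Polynomial

namespace Pool.Agent.Z5.K2

open Pool.Agent.Z5


set_option linter.unusedSectionVars false
set_option linter.unusedVariables false

variable {q L r : ℕ} {ξ : ℚ} [hq : Fact q.Prime]

/-- pairs of power series -/
abbrev R2 : Type := Fin 2 → PowerSeries ℚ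

/-- constants -/
noncomputable def cc : ℚ →+* R2 := RingHom.pi fun _ => PowerSeries.C

omit hq in
theorem cc_apply (x : ℚ) (i : Fin 2) : cc x i = PowerSeries.C x := rfl

/-- `u = q z` -/
noncomputable def uu (q : ℕ) : R2 := fun i => PowerSeries.C (q : ℚ) * zz i

/-- `U = u (u + q)` -/
noncomputable def UU (q : ℕ) : R2 := uu q * (uu q + cc q)

/-- `σ` -/
noncomputable def sgm : R2 := fun i => sg2 i

theorem SGzero (k : ℤ) : SG q k 0 := fun n _ => by
  rw [map_zero]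
  exact VG.zero k

theorem SGmono {k l : ℤ} {f : PowerSeries ℚ} (hf : SG q k f) (h : l ≤ k) : SG q l f :=
  fun n hn => (hf n hn).mono h

theorem SGsub {k : ℤ} {f g : PowerSeries ℚ} (hf : SG q k f) (hg : SG q k g) : SG q k (f - g) := by
  rw [sub_eq_add_neg]
  exact SG.add hf (SG.neg hg)

theorem PGmono {k l : ℤ} {f : ℚ[X]} (hf : PG q k f) (h : l ≤ k) : PG q l f :=
  fun n => (hf n).mono h

theorem PGzero (k : ℤ) : PG q k 0 := fun n => by
  rw [coeff_zero]
  exact VG.zero k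

theorem PGC {k : ℤ} {x : ℚ} (hx : VG q k x) : PG q k (C x) := fun n => by
  rw [coeff_C]
  split_ifs
  · exact hx
  · exact VG.zero k

theorem PGX : PG q 0 (X : ℚ[X]) := fun n => by
  rw [coeff_X]
  split_ifs
  · exact VG.one
  · exact VG.zero 0

theorem SGC {k : ℤ} {x : ℚ} (hx : VG q k x) : SG q k (PowerSeries.C x) := fun n _ => by
  rw [PowerSeries.coeff_C]
  split_ifs
  · exact hx
  · exact VG.zero k

theorem zzi (i : ℕ) : SG q 0 (zz i) := by
  unfold zz
  exact SG.sub SG.X (SGC (VG.nat i))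

theorem uu_int (i : Fin 2) : SG q 1 (uu q i) := by
  have h := SG.mul (SGC (VG.self_prime (q := q))) (zzi (q := q) (i : ℕ))
  simpa [uu] using h

theorem uu_int0 (i : Fin 2) : SG q 0 (uu q i) := SGmono (uu_int i) (by norm_num)

/-- `F` is a polynomial in `u` of level `J`, up to an error of level `n` -/
def RJ (q : ℕ) (J n : ℤ) (F : R2) : Prop :=
  ∃ A : ℚ[X], PG q J A ∧ ∀ i, SG q n (F i - aeval (uu q i) A)

variable {J J' n n' : ℤ} {F G : R2}

theorem RJ.mono (h : RJ q J n F) (hJ : J' ≤ J) (hn : n' ≤ n) : RJ q J' n' F := by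
  obtain ⟨A, hA, h⟩ := h
  exact ⟨A, PGmono hA hJ, fun i => SGmono (h i) hn⟩

theorem RJ.of_SG (J : ℤ) (h : ∀ i, SG q n (F i)) : RJ q J n F :=
  ⟨0, PGzero J, fun i => by simpa using h i⟩

theorem RJ.poly {A : ℚ[X]} (hA : PG q J A) (n : ℤ) : RJ q J n (fun i => aeval (uu q i) A) :=
  ⟨A, hA, fun i => by simpa using SGzero n⟩

theorem RJ.add (hF : RJ q J n F) (hG : RJ q J n G) : RJ q J n (F + G) := by
  obtain ⟨A, hA, hF⟩ := hF
  obtain ⟨B, hB, hG⟩ := hG
  refine ⟨A + B, PG.add hA hB, fun i => ?_⟩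
  have h := SG.add (hF i) (hG i)
  convert h using 1
  rw [map_add, Pi.add_apply]
  ring

theorem RJ.neg (hF : RJ q J n F) : RJ q J n (-F) := by
  obtain ⟨A, hA, hF⟩ := hF
  refine ⟨-A, PG.neg hA, fun i => ?_⟩
  have h := SG.neg (hF i)
  convert h using 1
  rw [map_neg, Pi.neg_apply]
  ring

theorem RJ.sub (hF : RJ q J n F) (hG : RJ q J n G) : RJ q J n (F - G) := by
  rw [sub_eq_add_neg]
  exact hF.add hG.neg

theorem RJ.toSG (hF : RJ q J n F) (h : J ≤ n) (i : Fin 2) : SG q J (F i) := by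
  obtain ⟨A, hA, hF⟩ := hF
  have h1 := SG.add (SGmono (hF i) h) (SG.aeval (uu_int0 i) A hA)
  simpa using h1

theorem RJ.mul' (hF : RJ q J n F) (hG : RJ q J' n' G) {k m : ℤ} (hk : k ≤ J + J')
    (h1 : m ≤ J + n') (h2 : m ≤ J' + n) (h3 : m ≤ n + n') : RJ q k m (F * G) := by
  obtain ⟨A, hA, hF⟩ := hF
  obtain ⟨B, hB, hG⟩ := hG
  refine ⟨A * B, PGmono (PG.mul hA hB) hk, fun i => ?_⟩
  have e1 := SGmono (SG.mul (SG.aeval (uu_int0 i) A hA) (hG i)) h1
  have e2 := SGmono (SG.mul (SG.aeval (uu_int0 i) B hB) (hF i)) h2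
  have e3 := SGmono (SG.mul (hF i) (hG i)) h3
  have h := SG.add (SG.add e1 e2) e3
  convert h using 1
  rw [map_mul, Pi.mul_apply]
  ring

theorem RJ.mul0 (hJ : 0 ≤ J) (hF : RJ q J 7 F) (hG : RJ q 0 7 G) : RJ q J 7 (F * G) :=
  RJ.mul' hF hG (by omega) (by omega) (by omega) (by omega)

theorem RJ.c {x : ℚ} (hx : VG q J x) (n : ℤ) : RJ q J n (cc x) :=
  ⟨C x, PGC hx, fun i => by
    have : (aeval (uu q i)) (C x) = PowerSeries.C x := by
      rw [aeval_C]
      rfl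
    rw [this, cc_apply, sub_self]
    exact SGzero n⟩

theorem RJ.ccmul {x : ℚ} (hx : VG q 1 x) (hJ : 0 ≤ J) (hF : RJ q J 7 F) :
    RJ q (J + 1) 7 (K2.cc x * F) :=
  RJ.mul' (RJ.c hx 7) hF (by omega) (by omega) (by omega) (by omega)

theorem RJ.u (n : ℤ) : RJ q 0 n (uu q) :=
  ⟨X, PGX, fun i => by
    rw [aeval_X, sub_self]
    exact SGzero n⟩

theorem RJ.U (n : ℤ) : RJ q 0 n (UU q) := by
  have h1 : RJ q 0 (max n 0) (uu q + cc q) := (RJ.u _).add (RJ.c (VG.nat q) _)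
  exact (RJ.u (max n 0)).mul' h1 (by norm_num) (by simp) (by simp) (by
    have := le_max_left n 0
    have := le_max_right n 0
    omega)

theorem RJ.one (n : ℤ) : RJ q 0 n 1 := by
  rw [← map_one cc]
  exact RJ.c VG.one n

theorem cc_zero_RJ (J n : ℤ) : RJ q J n 0 := RJ.of_SG J (fun _ => SGzero n)

theorem RJ.sum {ι : Type*} (s : Finset ι) (f : ι → R2) (h : ∀ i ∈ s, RJ q J n (f i)) :
    RJ q J n (∑ i ∈ s, f i) := by
  classical
  induction s using Finset.induction_on with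
  | empty => simpa using cc_zero_RJ J n
  | insert a s ha ih =>
    rw [sum_insert ha]
    exact (h a (mem_insert_self _ _)).add (ih fun i hi => h i (mem_insert_of_mem hi))

theorem SGX : SG q 0 (PowerSeries.X : PowerSeries ℚ) := fun n _ => by
  rw [PowerSeries.coeff_X]
  split_ifs
  · exact VG.one
  · exact VG.zero 0

theorem sgm_int (i : Fin 2) : SG q 0 (sgm i) := by
  unfold sgm sg2
  apply SG.neg
  have h1 : VG q 0 (1 - 2 * ((i : ℕ) : ℚ)) := by
    have := VG.int (q := q) (1 - 2 * ((i : ℕ) : ℤ))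
    push_cast at this
    exact this
  have h2 : SG q 0 (1 + PowerSeries.C (1 - 2 * ((i : ℕ) : ℚ)) * PowerSeries.X) := by
    have h3 := SG.add (SGC (VG.one (q := q))) (SG.mul (SGC h1) SGX)
    rw [map_one] at h3
    simpa using h3
  refine SG.inv h2 ?_ ?_
  · simp
  · simpa using VG.one

theorem sgm_mul (i : Fin 2) :
    sgm i * (1 + PowerSeries.C (1 - 2 * ((i : ℕ) : ℚ)) * PowerSeries.X) = -1 := by
  unfold sgm sg2
  rw [neg_mul, PowerSeries.inv_mul_cancel]
  simp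

/-- lattice elements -/
theorem adm2_of (hF : RJ q J (5 + J) F) (hG : RJ q (J - 1) (5 + J) G) :
    Adm2 q J (F + G * sgm) := by
  obtain ⟨A, hA, hF⟩ := hF
  obtain ⟨B, hB, hG⟩ := hG
  refine ⟨A, B, hA, hB, fun i => ?_⟩
  have hs : SG q 0 (sgm i) := sgm_int i
  have h1 := SG.mul (hG i) hs
  rw [add_zero] at h1
  have h := SG.add (hF i) h1
  convert h using 1
  simp only [Pi.add_apply, Pi.mul_apply, sgm, uu]
  ring

theorem Adm2.congr (hF : Adm2 q J F) (h : ∀ i, SG q (5 + J) (G i - F i)) : Adm2 q J G := by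
  obtain ⟨A, B, hA, hB, hF⟩ := hF
  refine ⟨A, B, hA, hB, fun i => ?_⟩
  have h1 := SG.add (h i) (hF i)
  convert h1 using 1
  ring

/-! ### inverses -/

/-- `1 / (m - u)` -/
noncomputable def vv (q : ℕ) (m : ℤ) : R2 := fun i => (PowerSeries.C (m : ℚ) - uu q i)⁻¹

theorem constCoeff_uu (i : Fin 2) :
    PowerSeries.constantCoeff (uu q i) = -((q * (i : ℕ) : ℕ) : ℚ) := by
  simp [uu, zz]

theorem vv_ne {m : ℤ} (hm : ¬ (q : ℤ) ∣ m) (i : Fin 2) :
    PowerSeries.constantCoeff (PowerSeries.C (m : ℚ) - uu q i) =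
      ((m + q * (i : ℕ) : ℤ) : ℚ) ∧ ¬ (q : ℤ) ∣ (m + q * (i : ℕ) : ℤ) := by
  constructor
  · rw [map_sub, constCoeff_uu]
    simp
  · intro h
    exact hm ((dvd_add_left (dvd_mul_right _ _)).mp h)

theorem vv_mul {m : ℤ} (hm : ¬ (q : ℤ) ∣ m) : (cc m - uu q) * vv q m = 1 := by
  funext i
  simp only [Pi.mul_apply, Pi.sub_apply, Pi.one_apply, cc_apply, vv]
  apply PowerSeries.mul_inv_cancel
  obtain ⟨h1, h2⟩ := vv_ne hm i
  rw [h1]
  intro h
  have h3 : (m + q * (i : ℕ) : ℤ) = 0 := by exact_mod_cast h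
  exact h2 (h3 ▸ dvd_zero _)

theorem vv_int {m : ℤ} (hm : ¬ (q : ℤ) ∣ m) (i : Fin 2) : SG q 0 (vv q m i) := by
  obtain ⟨h1, h2⟩ := vv_ne hm i
  refine SG.inv (SGsub (SGC (VG.int m)) (uu_int0 i)) ?_ ?_
  · rw [h1]
    intro h
    have h3 : (m + q * (i : ℕ) : ℤ) = 0 := by exact_mod_cast h
    exact h2 (h3 ▸ dvd_zero _)
  · rw [h1]
    exact VG_inv_int h2

theorem SG.pow' {k : ℤ} {f : PowerSeries ℚ} (hf : SG q k f) (n : ℕ) : SG q (n * k) (f ^ n) := by
  have h := SG.prod (range n) (fun _ => k) (fun _ => f) (fun i _ => hf)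
  simpa using h

theorem RJ.v {m : ℤ} (hm : ¬ (q : ℤ) ∣ m) : RJ q 0 7 (vv q m) := by
  have hmi : VG q 0 ((m : ℚ))⁻¹ := VG_inv_int hm
  have hm0 : (m : ℚ) ≠ 0 := by
    intro h
    have h3 : m = 0 := by exact_mod_cast h
    exact hm (h3 ▸ dvd_zero _)
  refine ⟨∑ k ∈ range 7, C (((m : ℚ)⁻¹) ^ (k + 1)) * X ^ k, ?_, fun i => ?_⟩
  · intro n
    rw [finsetSum_coeff]
    refine VG.sum _ _ fun k _ => ?_
    rw [coeff_C_mul_X_pow]
    split_ifs
    · exact hmi.pow_zero _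
    · exact VG.zero 0
  · set c : PowerSeries ℚ := PowerSeries.C ((m : ℚ)⁻¹) with hc
    have h1 : PowerSeries.C (m : ℚ) * c = 1 := by
      rw [hc, ← map_mul, mul_inv_cancel₀ hm0, map_one]
    have h2 : (PowerSeries.C (m : ℚ) - uu q i) * vv q m i = 1 := by
      have := congrFun (vv_mul hm) i
      simpa [cc_apply] using this
    have h3 : aeval (uu q i) (∑ k ∈ range 7, C (((m : ℚ)⁻¹) ^ (k + 1)) * X ^ k : ℚ[X]) =
        ∑ k ∈ range 7, c ^ (k + 1) * uu q i ^ k := by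
      rw [map_sum]
      refine Finset.sum_congr rfl fun k _ => ?_
      rw [map_mul, aeval_C, map_pow, map_pow, aeval_X]
      rfl
    have h4 : vv q m i - ∑ k ∈ range 7, c ^ (k + 1) * uu q i ^ k =
        vv q m i * c ^ 7 * uu q i ^ 7 := by
      simp only [Finset.sum_range_succ, Finset.sum_range_zero]
      set v := vv q m i
      set u := uu q i
      linear_combination (c + c ^ 2 * u + c ^ 3 * u ^ 2 + c ^ 4 * u ^ 3 + c ^ 5 * u ^ 4 +
        c ^ 6 * u ^ 5 + c ^ 7 * u ^ 6) * h2 - v * (1 + c * u + c ^ 2 * u ^ 2 + c ^ 3 * u ^ 3 + c ^ 4 * u ^ 4 +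
        c ^ 5 * u ^ 5 + c ^ 6 * u ^ 6) * h1
    rw [h3, h4]
    have h5 : SG q 0 (c ^ 7) := by
      have := SG.pow' (SGC hmi) 7
      simpa using this
    have h6 := SG.mul (SG.mul (vv_int hm i) h5) (SG.pow' (uu_int i) 7)
    simpa using h6

/-- the ring of elements of level `0`, up to errors of level `7` -/
noncomputable def S7 (q : ℕ) [hq : Fact q.Prime] : Subring R2 where
  carrier := {F | RJ q 0 7 F}
  mul_mem' h h' := RJ.mul' h h' (by norm_num) (by norm_num) (by norm_num) (by norm_num)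
  one_mem' := RJ.one 7
  add_mem' h h' := h.add h'
  zero_mem' := cc_zero_RJ 0 7
  neg_mem' h := h.neg

end Pool.Agent.Z5.K2
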