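import Pool.Agent.Z5.PPG
import Pool.Agent.Z5.PSym
import Pool.Agent.Z5.PH
import Pool.Agent.Z5.POm
import Pool.Agent.Z5.PRep
import Pool.Agent.Z5.PCnt
import Pool.Agent.Z5.PK1
import Pool.Agent.Z5.PSelf

/-!
# Ranges: auxiliary facts on the new columns
-/

open Finset Polynomial

namespace Pool.Agent.Z5

variable {q L r K : ℕ} {ξ : ℚ} [hq : Fact q.Prime]

theorem PG_zero' (k : ℤ) : PG q k (0 : ℚ[X]) := fun n => by
  rw [coeff_zero]; exact VG.zero k

theorem PG_X_pow (n : ℕ) : PG q 0 ((X : ℚ[X]) ^ n) := fun m => by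
  rw [coeff_X_pow]
  split_ifs
  · exact VG.one
  · exact VG.zero _

theorem PG_C' {k : ℤ} {x : ℚ} (hx : VG q k x) : PG q k (C x : ℚ[X]) := fun m => by
  rw [coeff_C]
  split_ifs
  · exact hx
  · exact VG.zero _

omit hq in
theorem csm_col1 (Q : ℚ[X]) : csm Q (col1 q L 1) = col1 q L Q := by
  simp only [csm, col1]
  refine Prod.ext ?_ (Prod.ext ?_ ?_) <;> simp

omit hq in
theorem csm_col2 (Q : ℚ[X]) : csm Q (col2 q L 1) = col2 q L Q := by
  simp only [csm, col2]
  refine Prod.ext ?_ (Prod.ext ?_ ?_)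
  · simp
  · simp; ring
  · simp

theorem k1_bound (c : Fin 1 × Fin 6 → Col) (J : Fin 1 × Fin 6 → ℤ)
    (h : ∀ y, SG q (J y) (tvec L ξ r (c y))) :
    VG q (∑ y, J y) (cmat q L ξ r 1 c).det := by
  have h1 := VG.det (q := q) (cmat q L ξ r 1 c) (fun _ => 0) J (fun x y => ?_)
  · simpa using h1
  · rw [zero_add, cmat, Matrix.of_apply]
    have hx : ((x.1 : Fin 1) : ℕ) = 0 := by omega
    rw [hx, mul_zero, add_zero]
    exact h y _ x.2.2

/-- the new `T`-columns: level one from `q`, level two for `d ∈ [q, a)` -/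
noncomputable def newT (q L a : ℕ) (d : ℕ) : Col :=
  if d < q then (X ^ d, 0, 0) else if d < a then col2 q L (X ^ (d - q)) else col1 q L (X ^ (d - q))

/-- levels of the new columns -/
def levT (q a d : ℕ) : ℤ := if d < q then 0 else if d < a then 2 else 1

theorem Hp_ne (h2 : q ≠ 2) : Hp q L ≠ 0 := by
  intro h
  exact (Hp_lead (L := L) h2).2.2 (by rw [h, leadingCoeff_zero])

theorem newT_fst (a d : ℕ) : (newT q L a d).1 =
    if d < q then X ^ d else -(X ^ (d - q) * Hp q L) := by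
  unfold newT
  split_ifs <;> rfl

theorem newT_deg (h2 : q ≠ 2) (a d : ℕ) :
    (newT q L a d).1.natDegree = d ∧ (newT q L a d).1 ≠ 0 := by
  rw [newT_fst]
  split_ifs with h
  · exact ⟨natDegree_X_pow d, pow_ne_zero _ X_ne_zero⟩
  · have h1 : (X : ℚ[X]) ^ (d - q) * Hp q L ≠ 0 :=
      mul_ne_zero (pow_ne_zero _ X_ne_zero) (Hp_ne h2)
    refine ⟨?_, neg_ne_zero.2 h1⟩
    rw [natDegree_neg, natDegree_mul (pow_ne_zero _ X_ne_zero) (Hp_ne h2), natDegree_X_pow,
      Hp_natDegree]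
    omega

theorem newT_lead (h2 : q ≠ 2) (a d : ℕ) : VG q 0 ((newT q L a d).1.leadingCoeff)⁻¹ := by
  rw [newT_fst]
  split_ifs with h
  · rw [leadingCoeff_X_pow, inv_one]; exact VG.one
  · rw [leadingCoeff_neg, leadingCoeff_mul, leadingCoeff_X_pow, one_mul, inv_neg]
    exact (Hp_lead h2).2.1.neg

theorem newT_snd (h2 : q ≠ 2) {a d : ℕ} : (newT q L a d).2.1.degree < a := by
  unfold newT
  split_ifs with h h'
  · simp only [degree_zero]; exact WithBot.bot_lt_coe _
  · simp only [col2]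
    rw [degree_neg, degree_mul, degree_mul, degree_X_pow, degree_eq_natDegree (Hp_ne h2),
      Hp_natDegree, degree_C (by exact_mod_cast hq.out.ne_zero), zero_add]
    exact_mod_cast (by omega : d - q + q < a)
  · simp only [col1, degree_zero]; exact WithBot.bot_lt_coe _

theorem newT_trd (h2 : q ≠ 2) {a b d : ℕ} (hd : d < q + b) (hab : a ≤ b) :
    (newT q L a d).2.2.degree < b := by
  unfold newT
  split_ifs with h h'
  · simp only [degree_zero]; exact WithBot.bot_lt_coe _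
  · simp only [col2]
    have h3 : (1 + C (om q) * Hp q L : ℚ[X]).degree ≤ (q : ℕ) := by
      refine (degree_add_le _ _).trans (max_le ?_ ?_)
      · rw [degree_one]; exact_mod_cast Nat.zero_le q
      · refine (degree_mul_le _ _).trans ((add_le_add degree_C_le le_rfl).trans ?_)
        rw [zero_add, degree_eq_natDegree (Hp_ne h2), Hp_natDegree]
    have h4 : ((X : ℚ[X]) ^ (d - q) * (1 + C (om q) * Hp q L)).degree ≤ ((d - q : ℕ) : WithBot ℕ) + q := by
      refine (degree_mul_le _ _).trans ?_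
      rw [degree_X_pow]
      exact add_le_add le_rfl h3
    refine lt_of_le_of_lt h4 ?_
    exact_mod_cast (by omega : d - q + q < b)
  · simp only [col1, degree_X_pow]
    exact_mod_cast (by omega : d - q < b)

theorem newT_PG (h11 : 11 ≤ q) (a d : ℕ) :
    PG q 0 (newT q L a d).1 ∧ PG q 0 (newT q L a d).2.1 ∧ PG q 0 (newT q L a d).2.2 := by
  have h2 : q ≠ 2 := by omega
  have hH := Hp_PG (q := q) (L := L) h2
  unfold newT
  split_ifs with h h'
  · exact ⟨PG_X_pow d, PG_zero' 0, PG_zero' 0⟩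
  · have h3 := PG.mul (PG_X_pow (q := q) (d - q)) hH
    rw [add_zero] at h3
    refine ⟨PG.neg h3, ?_, ?_⟩
    · have h4 := PG.mul (PG_C' (q := q) (VG.nat q)) h3
      rw [add_zero] at h4
      exact PG.neg h4
    · have h5 : VG q 0 (om q) := (om_VG (by omega)).mono (by norm_num)
      have h6 := PG.mul (PG_C' (q := q) h5) hH
      rw [add_zero] at h6
      have h7 : PG q 0 (1 : ℚ[X]) := by simpa using PG_X_pow (q := q) 0
      have h8 := PG.mul (PG_X_pow (q := q) (d - q)) (PG.add h7 h6)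
      rwa [add_zero] at h8
  · have h3 := PG.mul (PG_X_pow (q := q) (d - q)) hH
    rw [add_zero] at h3
    exact ⟨PG.neg h3, PG_zero' 0, PG_X_pow _⟩

/-- the new `T`-columns at a class with one pole -/
theorem newT_k1 (h11 : 11 ≤ q) (hc : Cls q L r 1) (hξ : VG q 0 ξ) (a d : ℕ) :
    SG q (levT q a d) (tvec L ξ r (newT q L a d)) := by
  unfold newT levT
  split_ifs with h h'
  · exact k1_reg hc hξ _ (PG_X_pow d) (PG_zero' 0) (PG_zero' 0)
  · rw [← csm_col2]
    exact k1_mul _ (PG_X_pow _) (k1_col2 h11 hc hξ)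
  · rw [← csm_col1]
    exact k1_mul _ (PG_X_pow _) (k1_col1 h11 hc)

/-- all columns after the replacement -/
noncomputable def newC (q L a b m : ℕ) : (Fin a ⊕ Fin b) ⊕ Fin m → Col :=
  Sum.elim (fun i => stdc a b m (Sum.inl i)) (fun d : Fin m => newT q L a d)

/-- levels -/
def levC (q a b m : ℕ) : (Fin a ⊕ Fin b) ⊕ Fin m → ℤ :=
  Sum.elim (fun _ => 0) (fun d : Fin m => levT q a d)

theorem newC_PG (h11 : 11 ≤ q) (a b m : ℕ) (y : (Fin a ⊕ Fin b) ⊕ Fin m) :
    PG q 0 (newC q L a b m y).1 ∧ PG q 0 (newC q L a b m y).2.1 ∧ PG q 0 (newC q L a b m y).2.2 := by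
  rcases y with (i | i) | d
  · exact ⟨PG_zero' 0, PG_X_pow _, PG_zero' 0⟩
  · exact ⟨PG_zero' 0, PG_zero' 0, PG_X_pow _⟩
  · exact newT_PG h11 a d

theorem newC_k1 (h11 : 11 ≤ q) (hc : Cls q L r 1) (hξ : VG q 0 ξ) (a b m : ℕ)
    (y : (Fin a ⊕ Fin b) ⊕ Fin m) : SG q (levC q a b m y) (tvec L ξ r (newC q L a b m y)) := by
  rcases y with (i | i) | d
  · exact k1_reg hc hξ _ (PG_zero' 0) (PG_X_pow _) (PG_zero' 0)
  · exact k1_reg hc hξ _ (PG_zero' 0) (PG_zero' 0) (PG_X_pow _)
  · exact newT_k1 h11 hc hξ a d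

theorem levC_le (a b m : ℕ) (y : (Fin a ⊕ Fin b) ⊕ Fin m) : levC q a b m y ≤ 2 := by
  rcases y with (i | i) | d
  · show (0 : ℤ) ≤ 2; norm_num
  · show (0 : ℤ) ≤ 2; norm_num
  · show levT q a d ≤ 2
    unfold levT; split_ifs <;> norm_num

theorem sum_levC (a b m : ℕ) (ham : a ≤ m) : ∑ y, levC q a b m y = max 0 (m - q : ℤ) + max 0 (a - q : ℤ) := by
  rw [Fintype.sum_sum_type]
  simp only [levC, Sum.elim_inl, Sum.elim_inr, sum_const_zero, zero_add]
  have h1 : ∀ d : ℕ, levT q a d = (if q ≤ d then 1 else 0) + (if q ≤ d ∧ d < a then 1 else 0) := by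
    intro d
    unfold levT
    split_ifs <;> first | rfl | omega
  rw [Fin.sum_univ_eq_sum_range (fun d => levT q a d) m]
  simp only [h1]
  rw [Finset.sum_add_distrib, Finset.sum_boole, Finset.sum_boole]
  have h2 : (range m).filter (fun d => q ≤ d) = Ico q m := by
    ext d; simp only [mem_filter, mem_range, mem_Ico]; omega
  have h3 : (range m).filter (fun d => q ≤ d ∧ d < a) = Ico q a := by
    ext d; simp only [mem_filter, mem_range, mem_Ico]; omega
  rw [h2, h3, Nat.card_Ico, Nat.card_Ico]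
  omega

/-- the bound for the new determinant gives the one for the old -/
theorem VG_of_new (h11 : 11 ≤ q) {h a b m : ℕ} (eq : Fin h × Fin 6 ≃ (Fin a ⊕ Fin b) ⊕ Fin m)
    (hab : a ≤ b) (hm : m ≤ q + b) {E : ℤ}
    (H : VG q E ((dmat L ξ h (newC q L a b m)).submatrix id eq).det) :
    VG q E ((dmat L ξ h (stdc a b m)).submatrix id eq).det := by
  have h2 : q ≠ 2 := by omega
  have h1 := replace_det (L := L) ξ eq (fun d => newT q L a d) (fun d => newT_deg h2 a d)
    (fun d => newT_snd h2) (fun d => newT_trd h2 (by have := d.2; omega) hab)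
  have h3 : (∏ d : Fin m, (newT q L a d).1.leadingCoeff) ≠ 0 :=
    prod_ne_zero_iff.2 fun d _ => leadingCoeff_ne_zero.2 (newT_deg h2 a d).2
  have h4 : ((dmat L ξ h (stdc a b m)).submatrix id eq).det =
      (∏ d : Fin m, ((newT q L a d).1.leadingCoeff)⁻¹) *
        ((dmat L ξ h (newC q L a b m)).submatrix id eq).det := by
    rw [newC, h1, Finset.prod_inv_distrib, inv_mul_cancel_left₀ h3]
  rw [h4]
  refine VG.int_mul ?_ H
  have h5 := VG.prod (q := q) univ (fun d : Fin m => ((newT q L a d).1.leadingCoeff)⁻¹) (fun _ => 0)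
    (fun d _ => newT_lead h2 a d)
  simpa using h5

end Pool.Agent.Z5
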